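import Pool.Agent.Lib.MP_f5837d_co.GDefs

/-!
# Closing a strip, part (6): a Lipschitz function with prescribed bounds
-/

set_option autoImplicit false

namespace Pool.Agent.MP_f5837d_co

open SimpleGraph

variable {V W : Type*} {G : SimpleGraph V} {H : SimpleGraph W} {π : W → V}

namespace CLO

/-- The distance through `R`. -/
noncomputable def D (H : SimpleGraph W) (R : Set W) (r r' : W) : ℕ :=
  sInf {n | ∃ p : H.Walk r r', p.length = n ∧ ∀ w ∈ p.support, w ∈ R}

theorem D_le {R : Set W} {r r' : W} (p : H.Walk r r') (hp : ∀ w ∈ p.support, w ∈ R) :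
    D H R r r' ≤ p.length := Nat.sInf_le ⟨p, rfl, hp⟩

theorem D_self {R : Set W} {r : W} (h : r ∈ R) : D H R r r = 0 := by
  have := D_le (H := H) (Walk.nil : H.Walk r r) (by simpa using h)
  simpa using this

theorem D_spec {R : Set W} (conn : ∀ r ∈ R, ∀ r' ∈ R, ∃ p : H.Walk r r', ∀ w ∈ p.support, w ∈ R)
    {r r' : W} (h : r ∈ R) (h' : r' ∈ R) :
    ∃ p : H.Walk r r', p.length = D H R r r' ∧ ∀ w ∈ p.support, w ∈ R := by
  have hne : {n | ∃ p : H.Walk r r', p.length = n ∧ ∀ w ∈ p.support, w ∈ R}.Nonempty := by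
    obtain ⟨p, hp⟩ := conn r h r' h'
    exact ⟨_, p, rfl, hp⟩
  exact Nat.sInf_mem hne

theorem D_adj {R : Set W} (conn : ∀ r ∈ R, ∀ r' ∈ R, ∃ p : H.Walk r r', ∀ w ∈ p.support, w ∈ R)
    {x r r' : W} (hx : x ∈ R) (h : r ∈ R) (h' : r' ∈ R) (hr : H.Adj r r') :
    D H R x r' ≤ D H R x r + 1 := by
  obtain ⟨p, hp, hpR⟩ := D_spec conn hx h
  have := D_le (R := R) (p.concat hr) (by
    intro w hw
    rw [Walk.support_concat] at hw
    simp only [List.mem_append, List.mem_singleton] at hw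
    rcases hw with hw | rfl
    · exact hpR w hw
    · exact h')
  rwa [Walk.length_concat, hp] at this

/-- (6) A Lipschitz function with prescribed bounds at some vertices and a prescribed value at
`r₀`: the minimum of `v + D r₀ r` and of the `b + D r' r`, where `(b, r') ∈ K`. -/
theorem exists_guard_fun {R : Set W}
    (conn : ∀ r ∈ R, ∀ r' ∈ R, ∃ p : H.Walk r r', ∀ w ∈ p.support, w ∈ R) {r₀ : W} (h0 : r₀ ∈ R)
    (v : ℤ) (K : Set (ℤ × W)) (hK : ∀ x ∈ K, x.2 ∈ R ∧ 0 ≤ x.1)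
    (h1 : ∀ x ∈ K, ∀ y ∈ K, y.1 - 1 ≤ x.1 + D H R x.2 y.2)
    (h2 : ∀ x ∈ K, x.1 - 1 ≤ v + D H R r₀ x.2) (h3 : ∀ x ∈ K, v ≤ x.1 + D H R x.2 r₀) :
    ∃ c : W → ℤ, Lip H R c ∧ c r₀ = v ∧ ∀ x ∈ K, x.1 - 1 ≤ c x.2 ∧ c x.2 ≤ x.1 := by
  -- the constraints
  set M : W → Set ℤ := fun r => {m | m = v + D H R r₀ r ∨ ∃ x ∈ K, m = x.1 + D H R x.2 r} with hM
  have hne : ∀ r, (M r).Nonempty := fun r => ⟨_, Or.inl rfl⟩
  have hbdd : ∀ r, BddBelow (M r) := by
    intro r
    refine ⟨min v 0, ?_⟩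
    rintro m (rfl | ⟨x, hx, rfl⟩)
    · have : (0 : ℤ) ≤ D H R r₀ r := Int.natCast_nonneg _
      have := min_le_left v 0
      linarith
    · have h4 : (0 : ℤ) ≤ D H R x.2 r := Int.natCast_nonneg _
      have := min_le_right v 0
      have := (hK x hx).2
      linarith
  refine ⟨fun r => sInf (M r), ?_, ?_, ?_⟩
  · -- Lipschitz
    have key : ∀ r ∈ R, ∀ r' ∈ R, H.Adj r r' → sInf (M r') ≤ sInf (M r) + 1 := by
      intro r hr r' hr' hrr
      rcases Int.csInf_mem (hne r) (hbdd r) with h | ⟨x, hx, h⟩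
      · rw [h]
        refine (csInf_le (hbdd r') (Or.inl rfl)).trans ?_
        have := D_adj conn h0 hr hr' hrr
        have h5 : (D H R r₀ r' : ℤ) ≤ D H R r₀ r + 1 := by exact_mod_cast this
        linarith
      · rw [h]
        refine (csInf_le (hbdd r') (Or.inr ⟨x, hx, rfl⟩)).trans ?_
        have := D_adj conn (hK x hx).1 hr hr' hrr
        have h5 : (D H R x.2 r' : ℤ) ≤ D H R x.2 r + 1 := by exact_mod_cast this
        linarith
    intro r hr r' hr' hrr
    have h5 := key r hr r' hr' hrr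
    have h6 := key r' hr' r hr hrr.symm
    rw [abs_le]
    constructor <;> linarith
  · apply le_antisymm
    · refine (csInf_le (hbdd r₀) (Or.inl rfl)).trans ?_
      rw [D_self h0]
      simp
    · refine le_csInf (hne r₀) ?_
      rintro m (rfl | ⟨x, hx, rfl⟩)
      · have : (0 : ℤ) ≤ D H R r₀ r₀ := Int.natCast_nonneg _
        linarith
      · exact h3 x hx
  · intro x hx
    constructor
    · refine le_csInf (hne x.2) ?_
      rintro m (rfl | ⟨y, hy, rfl⟩)
      · exact h2 x hx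
      · exact h1 y hy x hx
    · refine (csInf_le (hbdd x.2) (Or.inr ⟨x, hx, rfl⟩)).trans ?_
      rw [D_self (hK x hx).1]
      simp

end CLO

end Pool.Agent.MP_f5837d_co
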