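import Pool.Agent.Lib.MP_f5837d_co.P2

set_option autoImplicit false

namespace Pool.Agent.MP_f5837d_co

open SimpleGraph

variable {V W : Type*} {G : SimpleGraph V} {H : SimpleGraph W} {π : W → V}

/-! ## Task P3: cycles given by two walks -/

/-- The two paths `A`, `B` from `x` to `y` form a cycle, and `R` is a finite connected set of
vertices on one side of it, all of whose neighbours are in `R` or on the cycle. -/
structure Cyc (ρ : RotationSystem H) (R : Set W) {x y : W} (A B : H.Walk x y) : Prop where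
  ne : x ≠ y
  hA : A.IsPath
  hB : B.IsPath
  disj : ∀ w, w ∈ A.support → w ∈ B.support → w = x ∨ w = y
  len : 3 ≤ A.length + B.length
  reg : ∃ S, IsRegion ρ ({e | e ∈ A.edges} ∪ {e | e ∈ B.edges}) S ∧ R ⊆ Ins S
  nbr : ∀ r ∈ R, ∀ w, H.Adj r w → w ∈ R ∨ w ∈ A.support ∨ w ∈ B.support
  offA : ∀ r ∈ R, r ∉ A.support
  offB : ∀ r ∈ R, r ∉ B.support
  fin : R.Finite
  conn : ∀ r ∈ R, ∀ r' ∈ R, ∃ p : H.Walk r r', ∀ w ∈ p.support, w ∈ R

namespace P3

/-! ### Walks and the function `getVert` -/

theorem mem_edges_iff {u v : W} (p : H.Walk u v) (e : Sym2 W) :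
    e ∈ p.edges ↔ ∃ k, k < p.length ∧ e = s(p.getVert k, p.getVert (k + 1)) := by
  induction p with
  | nil => simp
  | @cons u v w h p ih =>
    rw [Walk.edges_cons, List.mem_cons, ih]
    constructor
    · rintro (rfl | ⟨k, hk, rfl⟩)
      · exact ⟨0, by simp, by simp⟩
      · exact ⟨k + 1, by simpa using hk, by simp⟩
    · rintro ⟨k, hk, rfl⟩
      rcases k with _ | k
      · left; simp
      · right; exact ⟨k, by simpa using hk, by simp⟩

/-- The edges of a stretch of a function that is given by a walk. -/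
theorem segEdges_eq {c : ℤ → W} {a b : W} (Q : H.Walk a b) (i : ℤ)
    (hc : ∀ k : ℕ, k ≤ Q.length → c (i + k) = Q.getVert k) :
    segEdges c i (i + Q.length) = {e | e ∈ Q.edges} := by
  ext e
  simp only [segEdges, Set.mem_ofPred_eq, mem_edges_iff]
  constructor
  · rintro ⟨t, h1, h2, rfl⟩
    obtain ⟨k, rfl⟩ : ∃ k : ℕ, t = i + k := ⟨(t - i).toNat, by omega⟩
    have hk : k < Q.length := by omega
    refine ⟨k, hk, ?_⟩
    rw [hc k hk.le, ← hc (k + 1) hk]
    push_cast
    rw [add_assoc]
  · rintro ⟨k, hk, rfl⟩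
    refine ⟨i + k, by omega, by omega, ?_⟩
    rw [hc k hk.le, ← hc (k + 1) hk]
    push_cast
    rw [add_assoc]

/-- The periodic function given by a closed walk. -/
def curve {x : W} (p : H.Walk x x) : ℤ → W := fun t => p.getVert (t % p.length).toNat

theorem curve_nat {x : W} (p : H.Walk x x) {k : ℕ} (hk : k ≤ p.length) :
    curve p k = p.getVert k := by
  unfold curve
  rcases hk.lt_or_eq with h | h
  · rw [Int.emod_eq_of_lt (by omega) (by omega)]
    simp
  · rw [h]
    simp

theorem emod_succ (t n : ℤ) : (t + 1) % n = (t % n + 1) % n := by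
  conv_lhs => rw [← Int.mul_ediv_add_emod t n, add_assoc, Int.mul_add_emod_self_left]

/-- Representation of a place and of the next place. -/
theorem curve_rep {x : W} (p : H.Walk x x) (hp : 0 < p.length) (t : ℤ) :
    ∃ k : ℕ, k < p.length ∧ (k : ℤ) = t % p.length ∧ curve p t = p.getVert k ∧
      curve p (t + 1) = p.getVert (k + 1) := by
  have h0 : 0 ≤ t % p.length := Int.emod_nonneg _ (by omega)
  have h1 : t % p.length < p.length := Int.emod_lt_of_pos _ (by omega)
  refine ⟨(t % p.length).toNat, by omega, by omega, rfl, ?_⟩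
  unfold curve
  rw [emod_succ]
  by_cases h : t % p.length + 1 = p.length
  · have h2 : (t % p.length).toNat + 1 = p.length := by omega
    rw [h, h2]
    simp
  · rw [Int.emod_eq_of_lt (by omega) (by omega)]
    congr 1
    omega

theorem curve_eq_iff {x : W} {p : H.Walk x x} (hp : p.IsCycle) (s t : ℤ) :
    curve p s = curve p t ↔ s % p.length = t % p.length := by
  have hl := hp.three_le_length
  constructor
  · intro h
    obtain ⟨k, hk, hk', hk1, -⟩ := curve_rep p (by omega) s
    obtain ⟨l, hl', hl1, hl2, -⟩ := curve_rep p (by omega) t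
    rw [hk1, hl2] at h
    have := hp.getVert_injOn' (show k ∈ {i | i ≤ p.length - 1} by simp; omega)
      (show l ∈ {i | i ≤ p.length - 1} by simp; omega) h
    omega
  · intro h
    unfold curve
    rw [h]

theorem curve_isCurve {x : W} {p : H.Walk x x} (hp : p.IsCycle) : IsCurve H (curve p) where
  adj t := by
    have hl := hp.three_le_length
    obtain ⟨k, hk, -, hk1, hk2⟩ := curve_rep p (by omega) t
    rw [hk1, hk2]
    exact p.adj_getVert_succ hk
  det s t h := by
    rw [curve_eq_iff hp] at h ⊢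
    rw [curve_eq_iff hp]
    exact ⟨(Int.emod_add_cancel_right 1).mpr h, (Int.emod_sub_cancel_right 1).mpr h⟩
  noback t h := by
    have hl := hp.three_le_length
    rw [curve_eq_iff hp, Int.emod_eq_emod_iff_emod_sub_eq_zero, add_sub_cancel_left,
      Int.emod_eq_of_lt (by omega) (by omega)] at h
    omega

theorem curveEdges_curve {x : W} {p : H.Walk x x} (hp : 0 < p.length) :
    curveEdges (curve p) = {e | e ∈ p.edges} := by
  ext e
  simp only [curveEdges, Set.mem_ofPred_eq, mem_edges_iff]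
  constructor
  · rintro ⟨t, rfl⟩
    obtain ⟨k, hk, -, hk1, hk2⟩ := curve_rep p hp t
    exact ⟨k, hk, by rw [hk1, hk2]⟩
  · rintro ⟨k, hk, rfl⟩
    refine ⟨k, ?_⟩
    rw [curve_nat p hk.le, ← curve_nat p (Nat.succ_le_of_lt hk)]
    simp

/-- Two paths that form a cycle, as a cycle walk. -/
theorem isCycle_of_paths {x y : W} {A B : H.Walk x y} (hA : A.IsPath) (hB : B.IsPath)
    (disj : ∀ w, w ∈ A.support → w ∈ B.support → w = x ∨ w = y)
    (len : 3 ≤ A.length + B.length) : (A.append B.reverse).IsCycle := by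
  refine hA.isCycle_append hB.reverse ?_ (by rw [Walk.length_reverse]; omega)
  intro w h1 h2
  have h3 := hA.support_nodup
  have h4 := hB.reverse.support_nodup
  rw [← Walk.cons_tail_support, List.nodup_cons] at h3 h4
  have h5 : w ∈ A.support := List.mem_of_mem_tail h1
  have h6 : w ∈ B.reverse.support := List.mem_of_mem_tail h2
  rw [Walk.support_reverse, List.mem_reverse] at h6
  rcases disj w h5 h6 with h | h
  · rw [h] at h1
    exact h3.1 h1
  · rw [h] at h2
    exact h4.1 h2

theorem edges_cycle {x y : W} (A B : H.Walk x y) :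
    {e | e ∈ (A.append B.reverse).edges} = {e | e ∈ A.edges} ∪ {e | e ∈ B.edges} := by
  ext e
  simp [Walk.edges_append, Walk.edges_reverse]

/-! ### Sides -/

theorem compl_region {ρ : RotationSystem H} {C : Set (Sym2 W)} {S : Set H.Dart}
    (hS : IsRegion ρ C S) : IsRegion ρ C Sᶜ :=
  ⟨fun d => not_congr (hS.1 d), fun d => by
    rw [← hS.2 d, Set.mem_compl_iff, Set.mem_compl_iff, not_iff_not]⟩

section Sides

variable [∀ w, Fintype (H.neighborSet w)]

theorem ins_of_walk (ρ : RotationSystem H) {C : Set (Sym2 W)} {S : Set H.Dart}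
    (hS : IsRegion ρ C S) {R : Set W} (hR : ∀ r ∈ R, ∀ y, H.Adj r y → s(r, y) ∉ C) {r r' : W}
    (p : H.Walk r r') (hp : ∀ w ∈ p.support, w ∈ R) (hr : r ∈ Ins S) : r' ∈ Ins S := by
  induction p with
  | nil => exact hr
  | @cons u v w h p ih =>
    have h2 : ∀ w ∈ p.support, w ∈ R := fun w hw => hp w (by simp [hw])
    exact ih h2 (ins_of_adj ρ hS h hr (hR v (h2 v p.start_mem_support)))

/-- A connected set that is off the boundary is on one side. -/
theorem side (ρ : RotationSystem H) {C : Set (Sym2 W)} {S : Set H.Dart}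
    (hS : IsRegion ρ C S) {R : Set W} (hR : ∀ r ∈ R, ∀ y, H.Adj r y → s(r, y) ∉ C)
    (conn : ∀ r ∈ R, ∀ r' ∈ R, ∃ p : H.Walk r r', ∀ w ∈ p.support, w ∈ R) :
    R ⊆ Ins S ∨ R ⊆ Ins Sᶜ := by
  rcases R.eq_empty_or_nonempty with h | ⟨r, hr⟩
  · left; rw [h]; exact Set.empty_subset _
  · by_cases h : r ∈ Ins S
    · left
      intro r' hr'
      obtain ⟨p, hp⟩ := conn r hr r' hr'
      exact ins_of_walk ρ hS hR p hp h
    · right
      have h1 : r ∈ Ins Sᶜ := by
        intro d hd hd'
        apply h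
        intro d' hd2
        exact (region_const ρ hS (hR r hr) hd hd2).mp hd'
      intro r' hr'
      obtain ⟨p, hp⟩ := conn r hr r' hr'
      exact ins_of_walk ρ (compl_region hS) hR p hp h1

end Sides

end P3

/-- Every finite connected set that is off the cycle and closed up to the cycle is on one side of
it. -/
theorem cyc_of_paths [∀ w, Fintype (H.neighborSet w)] (hH : H.Connected) (Pl : Plane H)
    {R : Set W} {x y : W} (A B : H.Walk x y) (ne : x ≠ y) (hA : A.IsPath) (hB : B.IsPath)
    (disj : ∀ w, w ∈ A.support → w ∈ B.support → w = x ∨ w = y)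
    (len : 3 ≤ A.length + B.length)
    (nbr : ∀ r ∈ R, ∀ w, H.Adj r w → w ∈ R ∨ w ∈ A.support ∨ w ∈ B.support)
    (offA : ∀ r ∈ R, r ∉ A.support) (offB : ∀ r ∈ R, r ∉ B.support) (fin : R.Finite)
    (conn : ∀ r ∈ R, ∀ r' ∈ R, ∃ p : H.Walk r r', ∀ w ∈ p.support, w ∈ R) :
    Cyc Pl.toRotationSystem R A B := by
  have hc := P3.isCycle_of_paths hA hB disj len
  have hl := hc.three_le_length
  obtain ⟨S, hS⟩ := exists_isLeft hH Pl (P3.curve_isCurve hc)
  have hS' := hS.isRegion _ (P3.curve_isCurve hc)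
  change IsRegion _ (curveEdges _) S at hS'
  rw [P3.curveEdges_curve (by omega), P3.edges_cycle] at hS'
  have hoff : ∀ r ∈ R, ∀ y, H.Adj r y → s(r, y) ∉
      ({e | e ∈ A.edges} ∪ {e | e ∈ B.edges} : Set (Sym2 W)) := by
    rintro r hr y - (h | h)
    · exact offA r hr (A.fst_mem_support_of_mem_edges h)
    · exact offB r hr (B.fst_mem_support_of_mem_edges h)
  refine ⟨ne, hA, hB, disj, len, ?_, nbr, offA, offB, fin, conn⟩
  rcases P3.side _ hS' hoff conn with h | h
  · exact ⟨S, hS', h⟩
  · exact ⟨Sᶜ, P3.compl_region hS', h⟩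

/-- A region bounded by a cycle is split by a path through it. `A = A₁ A₂ A₃`, and the path `Q`
replaces `A₂`. -/
theorem cyc_split_region [∀ w, Fintype (H.neighborSet w)] (hH : H.Connected) (Pl : Plane H)
    {x a b y : W} (A₁ : H.Walk x a) (A₂ : H.Walk a b) (A₃ : H.Walk b y) (B : H.Walk x y)
    (hA : (A₁.append (A₂.append A₃)).IsPath) (hB : B.IsPath) (hab : a ≠ b)
    (disj : ∀ w, w ∈ (A₁.append (A₂.append A₃)).support → w ∈ B.support → w = x ∨ w = y)
    (len : 3 ≤ (A₁.append (A₂.append A₃)).length + B.length) {S : Set H.Dart}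
    (hS : IsRegion Pl.toRotationSystem
      ({e | e ∈ (A₁.append (A₂.append A₃)).edges} ∪ {e | e ∈ B.edges}) S)
    (Q : H.Walk a b) (hQ : Q.IsPath)
    (hQoff : ∀ w ∈ Q.support, w ≠ a → w ≠ b →
      w ∉ (A₁.append (A₂.append A₃)).support ∧ w ∉ B.support)
    (hQS : ∀ d ∈ Q.darts, d ∈ S ∧ d.symm ∈ S) :
    ∃ S₁ S₂ : Set H.Dart,
      IsRegion Pl.toRotationSystem ({e | e ∈ Q.edges} ∪ {e | e ∈ A₂.edges}) S₁ ∧
      IsRegion Pl.toRotationSystem
        ({e | e ∈ (A₁.append (Q.append A₃)).edges} ∪ {e | e ∈ B.edges}) S₂ ∧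
      S = S₁ ∪ S₂ ∧ Disjoint S₁ S₂ := by
  have hcy := P3.isCycle_of_paths hA hB disj len
  have hl := hcy.three_le_length
  have hcur := P3.curve_isCurve hcy
  have hLA : (A₁.append (A₂.append A₃)).length = A₁.length + (A₂.length + A₃.length) := by simp
  have hBl : 0 < B.length := by
    rcases Nat.eq_zero_or_pos B.length with h | h
    · have hxy : x = y := Walk.eq_of_length_eq_zero h
      subst hxy
      have hA0 := Walk.length_eq_zero_iff.mpr (Walk.isPath_iff_nil.mp hA)
      omega
    · exact h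
  have hQl : 0 < Q.length := by
    rcases Nat.eq_zero_or_pos Q.length with h | h
    · exact absurd (Walk.eq_of_length_eq_zero h) hab
    · exact h
  have hA2l : 0 < A₂.length := by
    rcases Nat.eq_zero_or_pos A₂.length with h | h
    · exact absurd (Walk.eq_of_length_eq_zero h) hab
    · exact h
  set A := A₁.append (A₂.append A₃) with hAdef
  have hpl : (A.append B.reverse).length = A.length + B.length := by simp
  set c := P3.curve (A.append B.reverse) with hcdef
  have hcA : ∀ k : ℕ, k ≤ A.length → c k = A.getVert k := by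
    intro k hk
    rw [hcdef, P3.curve_nat _ (by omega), Walk.getVert_append']
    simp [hk]
  have hcA2 : ∀ k : ℕ, k ≤ A₂.length → c (A₁.length + k) = A₂.getVert k := by
    intro k hk
    have h := hcA (A₁.length + k) (by omega)
    push_cast at h
    rw [h, hAdef, Walk.getVert_append, if_neg (by omega), Walk.getVert_append']
    simp [hk]
  have hsegA := P3.segEdges_eq A₂ A₁.length hcA2
  set q : ℤ → W := fun t => Q.getVert t.toNat with hqdef
  have hsegQ := P3.segEdges_eq (c := q) Q 0 (by intro k _; simp [hqdef])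
  rw [zero_add] at hsegQ
  have hqa : q 0 = c A₁.length := by
    have := hcA2 0 (Nat.zero_le _)
    simp at this
    simp [hqdef, this]
  have hqb : q Q.length = c (A₁.length + A₂.length) := by
    have := hcA2 A₂.length le_rfl
    simp at this
    simp [hqdef, this]
  have hinj : Set.InjOn c (Set.Icc (A₁.length : ℤ) (A₁.length + A₂.length)) := by
    intro s hs t ht hst
    rw [hcdef, P3.curve_eq_iff hcy, hpl] at hst
    rw [Set.mem_Icc] at hs ht
    rwa [Int.emod_eq_of_lt (by omega) (by omega), Int.emod_eq_of_lt (by omega) (by omega)] at hst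
  have hqinj : Set.InjOn q (Set.Icc 0 (Q.length : ℤ)) := by
    intro s hs t ht hst
    rw [Set.mem_Icc] at hs ht
    have := hQ.getVert_injOn (show s.toNat ∈ {i | i ≤ Q.length} by simp; omega)
      (show t.toNat ∈ {i | i ≤ Q.length} by simp; omega) hst
    omega
  have hqadj : ∀ t : ℤ, 0 ≤ t → t < Q.length → H.Adj (q t) (q (t + 1)) := by
    intro t h0 h1
    have h2 : (t + 1).toNat = t.toNat + 1 := by omega
    simp only [hqdef, h2]
    exact Q.adj_getVert_succ (by omega)
  have hqoff : ∀ t : ℤ, 0 < t → t < Q.length → ∀ s, q t ≠ c s := by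
    intro t h0 h1 s hs
    have h2 := hQoff (q t) (Q.getVert_mem_support _)
      (fun h => by
        have := (hQ.getVert_eq_start_iff (by omega)).mp h
        omega)
      (fun h => by
        have := (hQ.getVert_eq_end_iff (by omega)).mp h
        omega)
    rw [hs] at h2
    have h3 : c s ∈ (A.append B.reverse).support := Walk.getVert_mem_support _ _
    rw [Walk.mem_support_append_iff, Walk.support_reverse, List.mem_reverse] at h3
    exact h3.elim h2.1 h2.2
  have hqD : ∀ (t : ℤ) (d : H.Dart), 0 ≤ t → t < Q.length → d.fst = q t → d.snd = q (t + 1) →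
      d ∈ Q.darts := by
    intro t d h0 h1 h2 h3
    have h4 : (t + 1).toNat = t.toNat + 1 := by omega
    have h5 : t.toNat < Q.darts.length := by rw [Walk.length_darts]; omega
    have h6 := Walk.darts_getElem_eq_getVert (p := Q) t.toNat h5
    have h7 : d = Q.darts[t.toNat] := by
      rw [h6]
      ext
      · exact h2
      · simp only [hqdef, h4] at h3
        exact h3
    rw [h7]
    exact List.getElem_mem h5
  -- the edges of the outer cycle
  have hedge : (curveEdges c \ segEdges c A₁.length (A₁.length + A₂.length)) ∪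
      segEdges q 0 Q.length =
        {e | e ∈ (A₁.append (Q.append A₃)).edges} ∪ {e | e ∈ B.edges} := by
    rw [hsegA, hsegQ, hcdef, P3.curveEdges_curve (by omega), P3.edges_cycle, hAdef]
    have hnd := hcy.edges_nodup
    rw [Walk.edges_append, Walk.edges_reverse, hAdef, Walk.edges_append, Walk.edges_append] at hnd
    ext e
    simp only [Walk.edges_append, Set.mem_union, Set.mem_sdiff, Set.mem_ofPred_eq, List.mem_append]
    simp only [List.nodup_append, List.mem_append, List.mem_reverse] at hnd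
    constructor
    · tauto
    · rintro ((h | h | h) | h)
      · left
        exact ⟨Or.inl (Or.inl h), fun h' => hnd.1.2.2 e h e (Or.inl h') rfl⟩
      · exact Or.inr h
      · left
        exact ⟨Or.inl (Or.inr (Or.inr h)), fun h' => hnd.1.2.1.2.2 e h' e h rfl⟩
      · left
        exact ⟨Or.inr h, fun h' => hnd.2.2 e (Or.inr (Or.inl h')) e h rfl⟩
  obtain ⟨S0, hS0⟩ := exists_isLeft hH Pl hcur
  have hS0' := hS0.isRegion _ hcur
  change IsRegion _ (curveEdges _) S0 at hS0'
  rw [P3.curveEdges_curve (by omega), P3.edges_cycle] at hS0'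
  rcases region_eq_or_compl hH _ hS hS0' with h | h
  · subst h
    obtain ⟨S₁, S₂, h1, h2, h3, h4, -⟩ := theta_curve hH Pl hcur hS0
      (i := A₁.length) (j := A₁.length + A₂.length) (a := 0) (b := Q.length) (by omega) hinj
      (by omega) q hqa hqb hqinj hqadj hqoff
      (fun t d h0 h1 h2 h3 => hQS d (hqD t d h0 h1 h2 h3))
    rw [hedge] at h2
    rw [hsegA, hsegQ, Set.union_comm] at h1
    exact ⟨S₁, S₂, h1, h2, h3, h4⟩
  · have hcm : ∀ d, d ∈ S ↔ d ∉ S0 := fun d => by rw [h]; rfl
    obtain ⟨S₁, S₂, h1, h2, h3, h4, -⟩ := theta_curve_right hH Pl hcur hS0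
      (i := A₁.length) (j := A₁.length + A₂.length) (a := 0) (b := Q.length) (by omega) hinj
      (by omega) q hqa hqb hqinj hqadj hqoff
      (fun t d h0 h1 h2 h3 => by
        have h5 := hQS d (hqD t d h0 h1 h2 h3)
        rwa [hcm, hcm] at h5)
    rw [hedge] at h2
    rw [hsegA, hsegQ, Set.union_comm] at h1
    exact ⟨S₁, S₂, h1, h2, by rw [h, h3], h4⟩

namespace P3

theorem isPath_append_iff {u v w : W} (p : H.Walk u v) (q : H.Walk v w) :
    (p.append q).IsPath ↔ p.IsPath ∧ q.IsPath ∧ ∀ z ∈ p.support, z ∈ q.support → z = v := by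
  constructor
  · intro h
    refine ⟨h.of_append_left, h.of_append_right, fun z hz hz' => ?_⟩
    by_contra hne
    exact h.ne_of_mem_support_of_append hne hz hz' rfl
  · rintro ⟨hp, hq, h⟩
    rw [Walk.isPath_def, Walk.support_append, List.nodup_append']
    refine ⟨hp.support_nodup, hq.support_nodup.tail, fun z hz hz' => ?_⟩
    have h1 := h z hz (List.mem_of_mem_tail hz')
    have h2 := hq.support_nodup
    rw [← Walk.cons_tail_support, List.nodup_cons] at h2
    exact h2.1 (h1 ▸ hz')

/-- Replacing a part of a path by a path that is off the path. -/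
theorem isPath_replace {x a b y : W} (A₁ : H.Walk x a) (A₂ : H.Walk a b) (A₃ : H.Walk b y)
    (hA : (A₁.append (A₂.append A₃)).IsPath) (hab : a ≠ b) (Q : H.Walk a b) (hQ : Q.IsPath)
    (hQoff : ∀ w ∈ Q.support, w ≠ a → w ≠ b → w ∉ (A₁.append (A₂.append A₃)).support) :
    (A₁.append (Q.append A₃)).IsPath := by
  have h0 := hA
  rw [isPath_append_iff, isPath_append_iff] at h0
  obtain ⟨h1, ⟨h2, h3, h4⟩, h5⟩ := h0
  simp only [Walk.mem_support_append_iff] at h5 hQoff
  rw [isPath_append_iff, isPath_append_iff]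
  refine ⟨h1, ⟨hQ, h3, fun z hz hz' => ?_⟩, fun z hz hz' => ?_⟩
  · by_contra hzb
    by_cases hza : z = a
    · subst hza
      exact hab (h4 z A₂.start_mem_support hz')
    · exact hQoff z hz hza hzb (Or.inr (Or.inr hz'))
  · rw [Walk.mem_support_append_iff] at hz'
    rcases hz' with hz' | hz'
    · by_contra hza
      by_cases hzb : z = b
      · subst hzb
        exact hza (h5 z hz (Or.inl A₂.end_mem_support))
      · exact hQoff z hz' hza hzb (Or.inl hz)
    · exact h5 z hz (Or.inr hz')

/-- A vertex of a walk with different ends is on an edge of the walk. -/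
theorem exists_edge {u v : W} (p : H.Walk u v) (hp : 0 < p.length) {w : W} (hw : w ∈ p.support) :
    ∃ d : H.Dart, d.fst = w ∧ d.edge ∈ p.edges := by
  obtain ⟨k, rfl, hk⟩ := Walk.mem_support_iff_exists_getVert.mp hw
  rcases hk.lt_or_eq with h | h
  · exact ⟨⟨(p.getVert k, p.getVert (k + 1)), p.adj_getVert_succ h⟩, rfl,
      (mem_edges_iff p _).mpr ⟨k, h, rfl⟩⟩
  · obtain ⟨l, rfl⟩ : ∃ l, k = l + 1 := ⟨k - 1, by omega⟩
    exact ⟨⟨(p.getVert (l + 1), p.getVert l), (p.adj_getVert_succ (by omega)).symm⟩, rfl,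
      (mem_edges_iff p _).mpr ⟨l, by omega, Sym2.eq_swap⟩⟩

/-- A vertex of the boundary of a region is not inside a part of the region, when it is not on the
boundary of the part. -/
theorem not_adj_part [∀ w, Fintype (H.neighborSet w)] (ρ : RotationSystem H) {C C' : Set (Sym2 W)}
    {S S' : Set H.Dart} (hS : IsRegion ρ C S) (hS' : IsRegion ρ C' S') (hsub : S' ⊆ S) {r w : W}
    (hr : r ∈ Ins S') (hrw : H.Adj r w) (hw : ∀ z, H.Adj w z → s(w, z) ∉ C') (d : H.Dart)
    (hd : d.fst = w) (hdC : d.edge ∈ C) : False := by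
  have h1 : w ∈ Ins S' := ins_of_adj ρ hS' hrw hr hw
  have h2 : d ∈ S' := h1 d hd
  have h3 : d.symm ∈ S' := by
    have := (hS'.2 d).mpr (by
      have := hw d.snd (hd ▸ d.adj)
      rwa [← hd] at this)
    exact this.mp h2
  exact (hS.2 d).mp ⟨fun _ => hsub h3, fun _ => hsub h2⟩ hdC

end P3

theorem cyc_split [∀ w, Fintype (H.neighborSet w)] (hH : H.Connected) (Pl : Plane H)
    {R : Set W} {x a b y : W} (A₁ : H.Walk x a) (A₂ : H.Walk a b) (A₃ : H.Walk b y)
    (B : H.Walk x y) (hc : Cyc Pl.toRotationSystem R (A₁.append (A₂.append A₃)) B)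
    (hab : a ≠ b) (Q : H.Walk a b) (hQ : Q.IsPath) (hQ2 : 2 ≤ Q.length)
    (hQR : ∀ w ∈ Q.support, w ≠ a → w ≠ b → w ∈ R)
    {R' : Set W} (hR' : R' ⊆ R) (hoff : ∀ r ∈ R', r ∉ Q.support)
    (hconn : ∀ r ∈ R', ∀ r' ∈ R', ∃ p : H.Walk r r', ∀ w ∈ p.support, w ∈ R')
    (hclosed : ∀ r ∈ R', ∀ w, H.Adj r w → w ∈ R → w ∈ R' ∨ w ∈ Q.support) :
    Cyc Pl.toRotationSystem R' (A₁.append (Q.append A₃)) B ∨
      Cyc Pl.toRotationSystem R' Q A₂ := by
  obtain ⟨S, hS, hRS⟩ := hc.reg
  have hA2l : 0 < A₂.length := by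
    rcases Nat.eq_zero_or_pos A₂.length with h | h
    · exact absurd (Walk.eq_of_length_eq_zero h) hab
    · exact h
  have hBl : 0 < B.length := by
    rcases Nat.eq_zero_or_pos B.length with h | h
    · exact absurd (Walk.eq_of_length_eq_zero h) hc.ne
    · exact h
  have hA2 : A₂.IsPath := (hc.hA.of_append_right).of_append_left
  have haA : a ∈ (A₁.append (A₂.append A₃)).support := by simp
  have hbA : b ∈ (A₁.append (A₂.append A₃)).support := by simp
  have hQoff : ∀ w ∈ Q.support, w ≠ a → w ≠ b →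
      w ∉ (A₁.append (A₂.append A₃)).support ∧ w ∉ B.support := fun w hw h1 h2 =>
    ⟨hc.offA w (hQR w hw h1 h2), hc.offB w (hQR w hw h1 h2)⟩
  -- the darts of `Q` are in `S`
  have hRC : ∀ r ∈ R, ∀ z, H.Adj r z → s(r, z) ∉
      ({e | e ∈ (A₁.append (A₂.append A₃)).edges} ∪ {e | e ∈ B.edges} : Set (Sym2 W)) := by
    rintro r hr z - (h | h)
    · exact hc.offA r hr (Walk.fst_mem_support_of_mem_edges _ h)
    · exact hc.offB r hr (Walk.fst_mem_support_of_mem_edges _ h)
  have hRd : ∀ d : H.Dart, d.fst ∈ R → d ∈ S ∧ d.symm ∈ S := by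
    intro d hd
    have h1 : d ∈ S := hRS hd d rfl
    exact ⟨h1, ((hS.2 d).mpr (hRC d.fst hd d.snd d.adj)).mp h1⟩
  have hQin : ∀ k, 0 < k → k < Q.length → Q.getVert k ∈ R := by
    intro k h0 h1
    refine hQR _ (Q.getVert_mem_support _) (fun h => ?_) (fun h => ?_)
    · have := (hQ.getVert_eq_start_iff h1.le).mp h
      omega
    · have := (hQ.getVert_eq_end_iff h1.le).mp h
      omega
  have hQS : ∀ d ∈ Q.darts, d ∈ S ∧ d.symm ∈ S := by
    intro d hd
    obtain ⟨k, hk, rfl⟩ := List.getElem_of_mem hd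
    have hk' : k < Q.length := by rwa [Walk.length_darts] at hk
    rw [Walk.darts_getElem_eq_getVert]
    rcases Nat.eq_zero_or_pos k with h | h
    · subst h
      have := hRd (Dart.symm ⟨(Q.getVert 0, Q.getVert (0 + 1)), Q.adj_getVert_succ hk'⟩)
        (hQin (0 + 1) (by omega) (by omega))
      rw [Dart.symm_symm] at this
      exact this.symm
    · exact hRd _ (hQin k h hk')
  obtain ⟨S₁, S₂, h1, h2, h3, h4⟩ := cyc_split_region hH Pl A₁ A₂ A₃ B hc.hA hc.hB hab hc.disj
    hc.len hS Q hQ hQoff hQS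
  have hs1 : S₁ ⊆ S := h3 ▸ Set.subset_union_left
  have hs2 : S₂ ⊆ S := h3 ▸ Set.subset_union_right
  have hA1sub : ∀ w ∈ A₁.support, w ∈ (A₁.append (A₂.append A₃)).support := fun w hw => by
    rw [Walk.mem_support_append_iff]; exact Or.inl hw
  have hA2sub : ∀ w ∈ A₂.support, w ∈ (A₁.append (A₂.append A₃)).support := fun w hw => by
    rw [Walk.mem_support_append_iff, Walk.mem_support_append_iff]; exact Or.inr (Or.inl hw)
  have hA3sub : ∀ w ∈ A₃.support, w ∈ (A₁.append (A₂.append A₃)).support := fun w hw => by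
    rw [Walk.mem_support_append_iff, Walk.mem_support_append_iff]; exact Or.inr (Or.inr hw)
  have hfin : R'.Finite := hc.fin.subset hR'
  -- the vertices of `R'` are off the boundaries
  have hC1 : ∀ w, w ∉ Q.support → w ∉ A₂.support → ∀ z, H.Adj w z → s(w, z) ∉
      ({e | e ∈ Q.edges} ∪ {e | e ∈ A₂.edges} : Set (Sym2 W)) := by
    rintro w hw hw' z - (h | h)
    · exact hw (Walk.fst_mem_support_of_mem_edges _ h)
    · exact hw' (Walk.fst_mem_support_of_mem_edges _ h)
  have hC2 : ∀ w, w ∉ Q.support → w ∉ A₁.support → w ∉ A₃.support → w ∉ B.support →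
      ∀ z, H.Adj w z → s(w, z) ∉
      ({e | e ∈ (A₁.append (Q.append A₃)).edges} ∪ {e | e ∈ B.edges} : Set (Sym2 W)) := by
    rintro w hw h1 h3 hB z - (h | h)
    · rw [Set.mem_ofPred_eq, Walk.edges_append, Walk.edges_append, List.mem_append,
        List.mem_append] at h
      rcases h with h | h | h
      · exact h1 (Walk.fst_mem_support_of_mem_edges _ h)
      · exact hw (Walk.fst_mem_support_of_mem_edges _ h)
      · exact h3 (Walk.fst_mem_support_of_mem_edges _ h)
    · exact hB (Walk.fst_mem_support_of_mem_edges _ h)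
  have hR'off2 : ∀ r ∈ R', r ∉ A₂.support := fun r hr h => hc.offA r (hR' hr) (hA2sub r h)
  have hR'off1 : ∀ r ∈ R', r ∉ A₁.support := fun r hr h => hc.offA r (hR' hr) (hA1sub r h)
  have hR'off3 : ∀ r ∈ R', r ∉ A₃.support := fun r hr h => hc.offA r (hR' hr) (hA3sub r h)
  have hR'offB : ∀ r ∈ R', r ∉ B.support := fun r hr => hc.offB r (hR' hr)
  rcases P3.side _ h1 (fun r hr => hC1 r (hoff r hr) (hR'off2 r hr)) hconn with hin | hin
  · right
    refine ⟨hab, hQ, hA2, ?_, by omega, ⟨S₁, h1, hin⟩, ?_, hoff, hR'off2, hfin, hconn⟩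
    · intro w hw hw'
      by_contra hcon
      push Not at hcon
      exact hc.offA w (hQR w hw hcon.1 hcon.2) (hA2sub w hw')
    · intro r hr w hrw
      by_contra hcon
      push Not at hcon
      have hwR : w ∉ R := fun h => (hclosed r hr w hrw h).elim hcon.1 hcon.2.1
      have hw : w ∈ (A₁.append (A₂.append A₃)).support ∨ w ∈ B.support :=
        (hc.nbr r (hR' hr) w hrw).resolve_left hwR
      obtain ⟨d, hd, hdC⟩ : ∃ d : H.Dart, d.fst = w ∧ d.edge ∈
          ({e | e ∈ (A₁.append (A₂.append A₃)).edges} ∪ {e | e ∈ B.edges} : Set (Sym2 W)) := by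
        rcases hw with hw | hw
        · obtain ⟨d, hd, hd'⟩ := P3.exists_edge _ (by simp; omega) hw
          exact ⟨d, hd, Or.inl hd'⟩
        · obtain ⟨d, hd, hd'⟩ := P3.exists_edge _ hBl hw
          exact ⟨d, hd, Or.inr hd'⟩
      exact P3.not_adj_part _ hS h1 hs1 (hin hr) hrw (hC1 w hcon.2.1 hcon.2.2) d hd hdC
  · left
    have hin2 : R' ⊆ Ins S₂ := by
      intro r hr d hd
      have h5 : d ∈ S := hRS (hR' hr) d hd
      rw [h3] at h5
      exact h5.resolve_left (hin hr d hd)
    refine ⟨hc.ne, ?_, hc.hB, ?_, by simp; omega, ⟨S₂, h2, hin2⟩, ?_, ?_, hR'offB, hfin, hconn⟩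
    · exact P3.isPath_replace A₁ A₂ A₃ hc.hA hab Q hQ (fun w hw h1 h2 => (hQoff w hw h1 h2).1)
    · intro w hw hw'
      rw [Walk.mem_support_append_iff, Walk.mem_support_append_iff] at hw
      rcases hw with hw | hw | hw
      · exact hc.disj w (hA1sub w hw) hw'
      · by_cases h5 : w = a
        · exact hc.disj w (h5 ▸ haA) hw'
        by_cases h6 : w = b
        · exact hc.disj w (h6 ▸ hbA) hw'
        exact absurd hw' (hQoff w hw h5 h6).2
      · exact hc.disj w (hA3sub w hw) hw'
    · intro r hr w hrw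
      by_contra hcon
      push Not at hcon
      obtain ⟨hcon1, hcon2, hcon3⟩ := hcon
      rw [Walk.mem_support_append_iff, Walk.mem_support_append_iff] at hcon2
      push Not at hcon2
      have hwR : w ∉ R := fun h => (hclosed r hr w hrw h).elim hcon1 hcon2.2.1
      have hw : w ∈ (A₁.append (A₂.append A₃)).support :=
        ((hc.nbr r (hR' hr) w hrw).resolve_left hwR).resolve_right hcon3
      obtain ⟨d, hd, hd'⟩ := P3.exists_edge _ (by simp; omega) hw
      exact P3.not_adj_part _ hS h2 hs2 (hin2 hr) hrw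
        (hC2 w hcon2.2.1 hcon2.1 hcon2.2.2 hcon3) d hd (Or.inl hd')
    · intro r hr
      rw [Walk.mem_support_append_iff, Walk.mem_support_append_iff]
      push Not
      exact ⟨hR'off1 r hr, hoff r hr, hR'off3 r hr⟩

/-- Exchange of the two paths. -/
theorem Cyc.swap {ρ : RotationSystem H} {R : Set W} {x y : W} {A B : H.Walk x y}
    (h : Cyc ρ R A B) : Cyc ρ R B A := by
  obtain ⟨S, hS, hR⟩ := h.reg
  exact ⟨h.ne, h.hB, h.hA, fun w h1 h2 => h.disj w h2 h1, by have := h.len; omega,
    ⟨S, by rwa [Set.union_comm], hR⟩, fun r hr w hw => by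
      rcases h.nbr r hr w hw with h | h | h
      · exact Or.inl h
      · exact Or.inr (Or.inr h)
      · exact Or.inr (Or.inl h), h.offB, h.offA, h.fin, h.conn⟩

end Pool.Agent.MP_f5837d_co
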