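import Pool.Agent.Lib.MP_f5837d_co.CLOa
import Pool.Agent.Lib.MP_f5837d_co.P3
import Pool.Agent.Lib.MP_f5837d_co.CLOd

/-!
# Closing a strip, part (4): the region between `U` and the walk
-/

set_option autoImplicit false

namespace Pool.Agent.MP_f5837d_co

open SimpleGraph

variable {V W : Type*} {G : SimpleGraph V} {H : SimpleGraph W} {π : W → V}
variable [∀ w, Fintype (H.neighborSet w)]

namespace CLO

variable {C : SCtx G H π}

omit [∀ w, Fintype (H.neighborSet w)] in
theorem exists_seg {u : W → ℤ} {U : ℤ → W} (hU : Calib H u U) (j : ℤ) (n : ℕ) :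
    ∃ B : H.Walk (U j) (U (j + n)), Seg U j n B := by
  obtain ⟨p, h1, h2⟩ := lineWalk hU.adj j n
  exact ⟨p, h1, h2⟩

omit [∀ w, Fintype (H.neighborSet w)] in
theorem Seg.isPath {u : W → ℤ} {U : ℤ → W} (hU : Calib H u U) {j : ℤ} {n : ℕ}
    {B : H.Walk (U j) (U (j + n))} (hB : Seg U j n B) : B.IsPath := by
  rw [← Walk.IsPath.getVert_injOn_iff]
  intro k hk l hl h
  simp only [Set.mem_ofPred_eq, hB.len] at hk hl
  rw [hB.val k hk, hB.val l hl] at h
  have := congrArg u h
  rw [hU.lev, hU.lev] at this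
  omega

omit [∀ w, Fintype (H.neighborSet w)] in
theorem Seg.mem_support {U : ℤ → W} {j : ℤ} {n : ℕ}
    {B : H.Walk (U j) (U (j + n))} (hB : Seg U j n B) (w : W) :
    w ∈ B.support ↔ ∃ t, j ≤ t ∧ t ≤ j + n ∧ w = U t := by
  rw [Walk.mem_support_iff_exists_getVert]
  constructor
  · rintro ⟨k, rfl, hk⟩
    rw [hB.len] at hk
    exact ⟨j + k, by omega, by omega, hB.val k hk⟩
  · rintro ⟨t, h1, h2, rfl⟩
    refine ⟨(t - j).toNat, ?_, by rw [hB.len]; omega⟩
    rw [hB.val _ (by omega)]
    congr 1
    omega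

/-- The interior vertices of `A` are not on `U`. -/
theorem Shape.off {R : Set W} {L U : ℤ → W} {cL cU : W → ℤ} (hX : C.XStrip R L U cL cU)
    {x y : W} {A : H.Walk x y} {ks kt : ℕ} {s c : ℤ} (hA : Shape R L A ks kt s c) {k : ℕ}
    (h0 : 0 < k) (h1 : k < A.length) (t : ℤ) : A.getVert k ≠ U t := by
  intro h
  by_cases h2 : ks ≤ k ∧ k ≤ kt
  · rw [hA.mid k h2.1 h2.2] at h
    exact line_not_up C.hH C.Pl hX.lineL.cal.isCurve _ (h ▸ hX.above t)
  · have h3 := hA.rest k h0 h1 (by omega)
    rw [hX.eqR, h] at h3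
    exact line_not_down C.hH C.Pl hX.lineU.cal.isCurve _ h3.2

/-- The interior vertices of `A` are below `U`. -/
theorem Shape.down {R : Set W} {L U : ℤ → W} {cL cU : W → ℤ} (hX : C.XStrip R L U cL cU)
    {x y : W} {A : H.Walk x y} {ks kt : ℕ} {s c : ℤ} (hA : Shape R L A ks kt s c) {k : ℕ}
    (h0 : 0 < k) (h1 : k < A.length) : A.getVert k ∈ Down C.Pl U := by
  by_cases h2 : ks ≤ k ∧ k ≤ kt
  · rw [hA.mid k h2.1 h2.2]
    exact hX.below _
  · have h3 := hA.rest k h0 h1 (by omega)
    rw [hX.eqR] at h3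
    exact h3.2

/-- The vertices of the walk outside the middle part are above `L`. -/
theorem Shape.up {R : Set W} {L U : ℤ → W} {cL cU : W → ℤ} (hX : C.XStrip R L U cL cU)
    {j : ℤ} {n : ℕ} {A : H.Walk (U j) (U (j + n))} {ks kt : ℕ} {s c : ℤ}
    (hA : Shape R L A ks kt s c) {k : ℕ} (h : k < ks ∨ kt < k) : A.getVert k ∈ Up C.Pl L := by
  rcases Nat.eq_zero_or_pos k with h0 | h0
  · rw [h0, Walk.getVert_zero]; exact hX.above j
  · rcases Nat.lt_or_ge k A.length with h1 | h1
    · have h3 := hA.rest k h0 h1 h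
      rw [hX.eqR] at h3
      exact h3.1
    · rw [A.getVert_of_length_le h1]; exact hX.above _

/-- A face set whose boundary is concentrated on two edges at a vertex. -/
theorem flow_two (ρ : RotationSystem H) {T : Set H.Dart} (hT : IsFaceSet ρ T) {v y₁ y₂ : W}
    (h1 : H.Adj v y₁) (h2 : H.Adj v y₂) (hne : y₁ ≠ y₂)
    (h : ∀ (z : W) (hz : H.Adj v z), z ≠ y₁ → z ≠ y₂ →
      ((⟨(v, z), hz⟩ : H.Dart) ∈ T ↔ (⟨(v, z), hz⟩ : H.Dart).symm ∈ T))
    (h3 : (⟨(v, y₁), h1⟩ : H.Dart) ∉ T) (h4 : (⟨(v, y₂), h2⟩ : H.Dart).symm ∉ T) :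
    ((⟨(v, y₁), h1⟩ : H.Dart).symm ∈ T ↔ (⟨(v, y₂), h2⟩ : H.Dart) ∈ T) := by
  classical
  set F : H.Dart → ℤ := fun d => if d ∈ T then 1 else 0 with hF
  have hflow := faceSet_flow ρ (F := F) (fun d => by simp only [hF, hT d]) v
  rw [Fintype.sum_eq_add (⟨y₁, h1⟩ : H.neighborSet v) ⟨y₂, h2⟩
    (fun h => hne (congrArg Subtype.val h))] at hflow
  · change F ⟨(v, y₁), h1⟩ - F (⟨(v, y₁), h1⟩ : H.Dart).symm +
      (F ⟨(v, y₂), h2⟩ - F (⟨(v, y₂), h2⟩ : H.Dart).symm) = 0 at hflow
    simp only [hF, if_neg h3, if_neg h4] at hflow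
    by_cases h5 : (⟨(v, y₁), h1⟩ : H.Dart).symm ∈ T
    · by_cases h6 : (⟨(v, y₂), h2⟩ : H.Dart) ∈ T
      · exact iff_of_true h5 h6
      · rw [if_pos h5, if_neg h6] at hflow; omega
    · by_cases h6 : (⟨(v, y₂), h2⟩ : H.Dart) ∈ T
      · rw [if_neg h5, if_pos h6] at hflow; omega
      · exact iff_of_false h5 h6
  · rintro ⟨z, hz⟩ ⟨e1, e2⟩
    have e3 := h z hz (fun h => e1 (Subtype.ext h)) (fun h => e2 (Subtype.ext h))
    change F ⟨(v, z), hz⟩ - F (⟨(v, z), hz⟩ : H.Dart).symm = 0
    simp only [hF]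
    by_cases h5 : (⟨(v, z), hz⟩ : H.Dart) ∈ T
    · rw [if_pos h5, if_pos (e3.mp h5)]; ring
    · rw [if_neg h5, if_neg (fun h => h5 (e3.mpr h))]; ring

/-- (4) The theta lemma on the right side of `U`; `T := S₁ \ lft L` is a face set without
boundary, so it is empty. -/
theorem exists_reg {R : Set W} {L U : ℤ → W} {cL cU : W → ℤ} (hX : C.XStrip R L U cL cU)
    {j : ℤ} {n : ℕ} {A B : H.Walk (U j) (U (j + n))} (hn : 0 < n) (hB : Seg U j n B)
    {ks kt : ℕ} {s c : ℤ} (hA : Shape R L A ks kt s c) : ∃ S, Reg C.Pl L U A B S := by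
  have hcalL := hX.lineL.cal
  have hcalU := hX.lineU.cal
  have cLc := hcalL.isCurve
  have cUc := hcalU.isCurve
  have hLl := isLeft_lft C.hH C.Pl cLc
  have hUl := isLeft_lft C.hH C.Pl cUc
  have hpos := hA.pos
  have hslt := hA.slt
  have hlt := hA.lt
  set q : ℤ → W := fun t => A.getVert t.toNat with hq
  have hsegA := P3.segEdges_eq (c := q) A 0 (by intro k _; simp [hq])
  rw [zero_add] at hsegA
  have hsegB := P3.segEdges_eq (c := U) B j (fun k hk => (hB.val k (hB.len ▸ hk)).symm)
  rw [hB.len] at hsegB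
  have hdart : ∀ k, k < A.length → ∀ d : H.Dart, d.fst = A.getVert k →
      d.snd = A.getVert (k + 1) → d ∈ A.darts := by
    intro k hk d h1 h2
    have h5 : k < A.darts.length := by rw [Walk.length_darts]; exact hk
    have h7 : d = A.darts[k] := by
      rw [Walk.darts_getElem_eq_getVert]
      ext
      · exact h1
      · exact h2
    rw [h7]
    exact List.getElem_mem h5
  obtain ⟨S₁, S₂, h1, h2, h3, h4, h5⟩ := theta_curve_right C.hH C.Pl cUc hUl
    (i := j) (j := j + n) (a := 0) (b := A.length) (by omega)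
    (by
      intro a _ b _ h
      have := congrArg C.u h
      rwa [hcalU.lev, hcalU.lev] at this)
    (by omega) q (by simp [hq]) (by simp [hq])
    (by
      intro a ha b hb h
      rw [Set.mem_Icc] at ha hb
      have := hA.path.getVert_injOn (show a.toNat ∈ {i | i ≤ A.length} by simp; omega)
        (show b.toNat ∈ {i | i ≤ A.length} by simp; omega) h
      omega)
    (by
      intro t h0 h1
      have h2 : (t + 1).toNat = t.toNat + 1 := by omega
      simp only [hq, h2]
      exact A.adj_getVert_succ (by omega))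
    (by
      intro t h0 h1 b
      exact hA.off hX (by omega) (by omega) b)
    (by
      intro t d h0 h1 h2 h3
      have h4 : (t + 1).toNat = t.toNat + 1 := by omega
      simp only [hq, h4] at h2 h3
      -- one of the two ends is an interior vertex
      have hoff : ∀ (e : H.Dart) (k : ℕ), 0 < k → k < A.length → e.fst = A.getVert k →
          e ∉ lft C.Pl U ∧ e.symm ∉ lft C.Pl U := by
        intro e k hk0 hk1 he
        have e1 : e ∉ lft C.Pl U := hA.down hX hk0 hk1 e he
        refine ⟨e1, fun e2 => e1 ((hUl.off e (fun t => ⟨?_, ?_⟩)).mpr e2)⟩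
        · rintro ⟨e3, -⟩; exact hA.off hX hk0 hk1 t (he ▸ e3)
        · rintro ⟨e3, -⟩; exact hA.off hX hk0 hk1 _ (he ▸ e3)
      rcases Nat.eq_zero_or_pos t.toNat with h5 | h5
      · have := hoff d.symm (t.toNat + 1) (by omega) (by omega) h3
        rw [Dart.symm_symm] at this
        exact this.symm
      · exact hoff d t.toNat h5 (by omega) h2)
  rw [hsegA, hsegB, Set.union_comm] at h1
  have hfwd : ∀ d ∈ A.darts, d ∈ S₁ ∧ d.symm ∉ S₁ := by
    intro d hd
    obtain ⟨k, hk, rfl⟩ := List.getElem_of_mem hd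
    have hk' : k < A.length := by rwa [Walk.length_darts] at hk
    rw [Walk.darts_getElem_eq_getVert]
    have := h5 k (⟨(A.getVert k, A.getVert (k + 1)), A.adj_getVert_succ hk'⟩) (by omega)
      (by omega) (by simp [hq]) (by
        simp only [hq]
        rw [show ((k : ℤ) + 1).toNat = k + 1 by omega])
    exact ⟨this.1, fun h => Set.disjoint_left.mp h4 h this.2⟩
  refine ⟨S₁, h1, ?_, by rw [h3]; exact Set.subset_union_left, hfwd⟩
  -- `T := S₁ \ lft L`
  set T : Set H.Dart := S₁ \ lft C.Pl L with hT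
  have hTf : IsFaceSet C.Pl.toRotationSystem T := fun d =>
    and_congr (h1.1 d) (not_congr (hLl.face d))
  -- edges that are not on `L`
  have hofflev : ∀ (d : H.Dart), (∀ t, d.fst = L t → d.snd ≠ L (t + 1) ∧ d.snd ≠ L (t - 1)) →
      (d ∈ lft C.Pl L ↔ d.symm ∈ lft C.Pl L) := by
    intro d hd
    refine hLl.off d (fun t => ⟨?_, ?_⟩)
    · rintro ⟨e1, e2⟩; exact (hd t e1).1 e2
    · rintro ⟨e1, e2⟩; exact (hd (t + 1) e1).2 (by rw [add_sub_cancel_right]; exact e2)
  have hupL : ∀ w, w ∈ Up C.Pl L → ∀ t, w ≠ L t := fun w hw t h =>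
    line_not_up C.hH C.Pl cLc t (h ▸ hw)
  have hboth : ∀ d : H.Dart, d.fst ∈ Up C.Pl L → d ∈ lft C.Pl L ∧ d.symm ∈ lft C.Pl L := by
    intro d hd
    have e1 : d ∈ lft C.Pl L := hd d rfl
    exact ⟨e1, (hofflev d (fun t ht => absurd ht (hupL _ hd t))).mp e1⟩
  have hTsymm : ∀ d : H.Dart, (∀ t, d.fst = L t → d.snd ≠ L (t + 1) ∧ d.snd ≠ L (t - 1)) →
      (d ∈ T ↔ d.symm ∈ T) := by
    intro d hd
    have e1 := hofflev d hd
    by_cases hC : d.edge ∈ ({e | e ∈ A.edges} ∪ {e | e ∈ B.edges} : Set (Sym2 W))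
    · -- both darts are on the left of `L`
      have e2 : d ∈ lft C.Pl L ∧ d.symm ∈ lft C.Pl L := by
        rcases hC with hC | hC
        · obtain ⟨k, hk, he⟩ := (P3.mem_edges_iff A _).mp hC
          have hmain : ∀ e : H.Dart, e.fst = A.getVert k → e.snd = A.getVert (k + 1) →
              (∀ t, e.fst = L t → e.snd ≠ L (t + 1) ∧ e.snd ≠ L (t - 1)) →
              e ∈ lft C.Pl L ∧ e.symm ∈ lft C.Pl L := by
            intro e he1 he2 he3
            by_cases h6 : k < ks ∨ kt < k
            · exact hboth e (he1 ▸ hA.up hX h6)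
            · by_cases h7 : k + 1 < ks ∨ kt < k + 1
              · have := hboth e.symm (by
                  change e.snd ∈ _
                  exact he2 ▸ hA.up hX h7)
                rw [Dart.symm_symm] at this
                exact this.symm
              · exfalso
                have h8 := hA.mid k (by omega) (by omega)
                have h9 := hA.mid (k + 1) (by omega) (by omega)
                refine (he3 _ (he1.trans h8)).1 ?_
                rw [he2, h9]
                congr 1
                push_cast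
                ring
          rcases Sym2.eq_iff.mp (show s(d.fst, d.snd) = _ from he) with ⟨e3, e4⟩ | ⟨e3, e4⟩
          · exact hmain d e3 e4 hd
          · have := hmain d.symm e4 e3 (by
              intro t ht
              change d.snd = L t at ht
              change d.fst ≠ _ ∧ d.fst ≠ _
              refine ⟨fun h => (hd _ h).2 (by rw [add_sub_cancel_right]; exact ht),
                fun h => (hd _ h).1 (by rw [sub_add_cancel]; exact ht)⟩)
            rw [Dart.symm_symm] at this
            exact this.symm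
        · have : d.fst ∈ B.support := Walk.fst_mem_support_of_mem_edges _
            (show s(d.fst, d.snd) ∈ B.edges from hC)
          obtain ⟨t, -, -, ht⟩ := (hB.mem_support _).mp this
          exact hboth d (ht ▸ hX.above t)
      exact iff_of_false (fun h => h.2 e2.1) (fun h => h.2 e2.2)
    · exact and_congr ((h1.2 d).mpr hC) (not_congr e1)
  have hstep : ∀ b : ℤ, (Dart.symm ⟨(L b, L (b + 1)), hcalL.adj b⟩ : H.Dart) ∈ T ↔
      (Dart.symm ⟨(L (b - 1), L (b - 1 + 1)), hcalL.adj (b - 1)⟩ : H.Dart) ∈ T := by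
    intro b
    have hadj := hcalL.adj (b - 1)
    have hb : L (b - 1 + 1) = L b := by rw [sub_add_cancel]
    have hadj' : H.Adj (L b) (L (b - 1)) := by rw [hb] at hadj; exact hadj.symm
    have hne : L (b + 1) ≠ L (b - 1) := by
      intro h
      have := congrArg C.u h
      rw [hcalL.lev, hcalL.lev] at this
      omega
    have key := flow_two C.Pl.toRotationSystem hTf (hcalL.adj b) hadj' hne (by
      intro z hz e1 e2
      refine hTsymm _ (fun t ht => ?_)
      have : b = t := by
        have := congrArg C.u ht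
        change C.u (L b) = _ at this
        rwa [hcalL.lev, hcalL.lev] at this
      subst this
      exact ⟨e1, e2⟩)
      (fun h => h.2 (hLl.left b _ rfl rfl).1)
      (fun h => h.2 (hLl.left (b - 1) (Dart.symm ⟨(L b, L (b - 1)), hadj'⟩) rfl
        (by change L b = _; rw [hb])).1)
    rw [key]
    have : (⟨(L b, L (b - 1)), hadj'⟩ : H.Dart) =
        Dart.symm ⟨(L (b - 1), L (b - 1 + 1)), hcalL.adj (b - 1)⟩ := by
      ext
      · exact hb.symm
      · rfl
    rw [this]
  have hs0 : (Dart.symm ⟨(L s, L (s + 1)), hcalL.adj s⟩ : H.Dart) ∉ T := by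
    intro h
    refine (hfwd _ (hdart ks (by omega) ⟨(L s, L (s + 1)), hcalL.adj s⟩ ?_ ?_)).2 h.1
    · rw [hA.mid ks le_rfl hA.le]; simp
    · rw [hA.mid (ks + 1) (by omega) (by omega)]
      change L (s + 1) = _
      congr 1
      push_cast
      ring
  have hall : ∀ b : ℤ, (Dart.symm ⟨(L (s + b), L (s + b + 1)), hcalL.adj (s + b)⟩ : H.Dart) ∉ T := by
    intro b
    induction b using Int.induction_on with
    | zero => simpa using hs0
    | succ b ih =>
      intro h
      apply ih
      have := (hstep (s + (b + 1))).mp h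
      convert this using 6 <;> ring
    | pred b ih =>
      intro h
      apply ih
      refine (hstep (s + -(b : ℤ))).mpr ?_
      convert h using 6 <;> ring
  have hTnb : ∀ d : H.Dart, d ∈ T ↔ d.symm ∈ T := by
    intro d
    by_cases hd : ∀ t, d.fst = L t → d.snd ≠ L (t + 1) ∧ d.snd ≠ L (t - 1)
    · exact hTsymm d hd
    · push Not at hd
      obtain ⟨t, ht, hd⟩ := hd
      have hno : ∀ (t : ℤ) (e : H.Dart), e.fst = L t → e.snd = L (t + 1) → e ∉ T ∧ e.symm ∉ T := by
        intro t e he1 he2
        refine ⟨fun h => h.2 (hLl.left t e he1 he2).1, ?_⟩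
        have := hall (t - s)
        have he : e = ⟨(L (s + (t - s)), L (s + (t - s) + 1)), hcalL.adj (s + (t - s))⟩ := by
          ext
          · rw [he1]; change L t = L _; congr 1; ring
          · rw [he2]; change L _ = L _; congr 1; ring
        rw [he]
        exact this
      by_cases h6 : d.snd = L (t + 1)
      · have := hno t d ht h6
        exact iff_of_false this.1 this.2
      · have := hno (t - 1) d.symm (hd h6) (by rw [sub_add_cancel]; exact ht)
        rw [Dart.symm_symm] at this
        exact iff_of_false this.2 this.1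
  rcases faceSet_trivial C.hH C.Pl.toRotationSystem hTf hTnb with h | h
  · intro d hd
    by_contra hcon
    have : d ∈ T := ⟨hd, hcon⟩
    rw [h] at this
    exact this
  · exfalso
    have : (Dart.symm ⟨(L s, L (s + 1)), hcalL.adj s⟩ : H.Dart) ∈ T := by rw [h]; trivial
    exact hs0 this

theorem Reg.unique {R : Set W} {L U : ℤ → W} {cL cU : W → ℤ} (hX : C.XStrip R L U cL cU)
    {x y : W} {A B : H.Walk x y} {S S' : Set H.Dart} (hS : Reg C.Pl L U A B S)
    (hS' : IsRegion C.Pl.toRotationSystem ({e | e ∈ A.edges} ∪ {e | e ∈ B.edges}) S')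
    (h : S' ⊆ (lft C.Pl U)ᶜ) : S' = S := by
  rcases region_eq_or_compl C.hH _ hS' hS.reg with h1 | h1
  · exact h1
  · exfalso
    have hcalU := hX.lineU.cal
    have hd := (isLeft_lft C.hH C.Pl hcalU.isCurve).left 0
      ⟨(U 0, U (0 + 1)), hcalU.adj 0⟩ rfl rfl
    have h2 : (⟨(U 0, U (0 + 1)), hcalU.adj 0⟩ : H.Dart) ∉ S := fun h3 => hS.subU h3 hd.1
    have h3 : (⟨(U 0, U (0 + 1)), hcalU.adj 0⟩ : H.Dart) ∈ S' := by rw [h1]; exact h2
    exact h h3 hd.1

/-- (4c) The vertices inside the region are in `R`. -/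
theorem Reg.ins_sub {R : Set W} {L U : ℤ → W} {cL cU : W → ℤ} (hX : C.XStrip R L U cL cU)
    {x y : W} {A B : H.Walk x y} {S : Set H.Dart} (hS : Reg C.Pl L U A B S) : Ins S ⊆ R := by
  intro w hw
  rw [hX.eqR]
  exact ⟨fun d hd => hS.subL (hw d hd), fun d hd => hS.subU (hw d hd)⟩

/-- The vertices inside the region are not on its boundary. -/
theorem Reg.ins_off {R : Set W} {L U : ℤ → W} {cL cU : W → ℤ} (hX : C.XStrip R L U cL cU)
    {j : ℤ} {n : ℕ} {A B : H.Walk (U j) (U (j + n))} (hn : 0 < n) (hB : Seg U j n B)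
    {S : Set H.Dart} (hS : Reg C.Pl L U A B S) {w : W} (hw : w ∈ Ins S) :
    w ∉ A.support ∧ w ∉ B.support := by
  have hcalU := hX.lineU.cal
  have hU : ∀ t, w ≠ U t := by
    rintro t rfl
    have hd := (isLeft_lft C.hH C.Pl hcalU.isCurve).left t
      ⟨(U t, U (t + 1)), hcalU.adj t⟩ rfl rfl
    exact hS.subU (hw _ rfl) hd.1
  have hBs : w ∉ B.support := by
    intro h
    obtain ⟨t, -, -, ht⟩ := (hB.mem_support _).mp h
    exact hU t ht
  refine ⟨fun h => ?_, hBs⟩
  obtain ⟨k, rfl, hk⟩ := Walk.mem_support_iff_exists_getVert.mp h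
  rcases Nat.eq_zero_or_pos k with h0 | h0
  · rw [h0, Walk.getVert_zero] at hU
    exact hU j rfl
  · obtain ⟨l, rfl⟩ : ∃ l, k = l + 1 := ⟨k - 1, by omega⟩
    have h5 : l < A.darts.length := by rw [Walk.length_darts]; omega
    have h6 := hS.fwd _ (List.getElem_mem h5)
    rw [Walk.darts_getElem_eq_getVert] at h6
    exact h6.2 (hw _ rfl)

/-- The neighbours of the vertices inside the region are inside or on the boundary. -/
theorem Reg.ins_adj {R : Set W} {L U : ℤ → W} {cL cU : W → ℤ} (hX : C.XStrip R L U cL cU)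
    {j : ℤ} {n : ℕ} {A B : H.Walk (U j) (U (j + n))} (hn : 0 < n) (hB : Seg U j n B)
    {S : Set H.Dart} (hS : Reg C.Pl L U A B S) {w y : W} (hw : w ∈ Ins S) (h : H.Adj w y) :
    y ∈ Ins S ∨ y ∈ A.support ∨ y ∈ B.support := by
  by_contra hcon
  push Not at hcon
  obtain ⟨h1, h2, h3⟩ := hcon
  apply h1
  refine ins_of_adj _ hS.reg h hw ?_
  rintro z - (h4 | h4)
  · exact h2 (Walk.fst_mem_support_of_mem_edges _ h4)
  · exact h3 (Walk.fst_mem_support_of_mem_edges _ h4)

end CLO

end Pool.Agent.MP_f5837d_co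

/-!
# Closing a strip, part (4): finiteness and localisation of the region
-/


namespace Pool.Agent.MP_f5837d_co

open SimpleGraph

variable {V W : Type*} {G : SimpleGraph V} {H : SimpleGraph W} {π : W → V}
variable [∀ w, Fintype (H.neighborSet w)]

namespace CLO

variable {C : SCtx G H π}

theorem fin_levels {R : Set W} (hR : C.Inv R) (hfin : C.FinMod R) (a b : ℤ) :
    {w | w ∈ R ∧ a ≤ C.u w ∧ C.u w ≤ b}.Finite := by
  have hℓ := C.ℓpos
  have h1 : (⋃ k ∈ Set.Icc (a / C.ℓ) (b / C.ℓ),
      (fun w => (C.A ^ k) w) '' {w | w ∈ R ∧ 0 ≤ C.u w ∧ C.u w < C.ℓ}).Finite :=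
    Set.Finite.biUnion (Set.finite_Icc _ _) (fun k _ => hfin.image _)
  refine h1.subset ?_
  rintro w ⟨hw, hwa, hwb⟩
  simp only [Set.mem_iUnion]
  set k := C.u w / C.ℓ with hk
  refine ⟨k, ⟨Int.ediv_le_ediv hℓ hwa, Int.ediv_le_ediv hℓ hwb⟩, (C.A ^ (-k)) w, ⟨?_, ?_, ?_⟩, ?_⟩
  · exact (inv_zpow hR _ _).mpr hw
  · rw [SCtx.u_zpow]
    have := Int.mul_ediv_add_emod (C.u w) C.ℓ
    have := Int.emod_nonneg (C.u w) hℓ.ne'
    rw [hk]
    linarith
  · rw [SCtx.u_zpow]
    have := Int.mul_ediv_add_emod (C.u w) C.ℓ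
    have := Int.emod_lt_of_pos (C.u w) hℓ
    rw [hk]
    linarith
  · change (C.A ^ k * C.A ^ (-k)) w = w
    rw [← zpow_add, add_neg_cancel, zpow_zero]
    rfl

omit [∀ w, Fintype (H.neighborSet w)] in
/-- Rotation around a vertex: two face sets whose boundary flows agree at the vertex and that
agree on one dart there agree on all darts there. -/
theorem rot_agree (ρ : RotationSystem H) {S S' : Set H.Dart} (hS : IsFaceSet ρ S)
    (hS' : IsFaceSet ρ S') {v : W}
    (h : ∀ d : H.Dart, d.fst = v → (d ∈ S ↔ d ∈ S') → (d.symm ∈ S ↔ d.symm ∈ S'))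
    {d₀ : H.Dart} (h0 : d₀.fst = v) (h1 : d₀ ∈ S ↔ d₀ ∈ S') (d : H.Dart) (hd : d.fst = v) :
    d ∈ S ↔ d ∈ S' := by
  have key : ∀ n : ℕ, ((ρ.rot ^ n) d₀).fst = v ∧
      ((ρ.rot ^ n) d₀ ∈ S ↔ (ρ.rot ^ n) d₀ ∈ S') := by
    intro n
    induction n with
    | zero => exact ⟨h0, h1⟩
    | succ n ih =>
      rw [pow_succ']
      change (ρ.rot ((ρ.rot ^ n) d₀)).fst = v ∧ (ρ.rot ((ρ.rot ^ n) d₀) ∈ S ↔ _)
      refine ⟨by rw [ρ.rot_fst]; exact ih.1, ?_⟩
      have e1 := hS ((ρ.rot ^ n) d₀).symm
      have e2 := hS' ((ρ.rot ^ n) d₀).symm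
      rw [Dart.symm_symm] at e1 e2
      rw [e1]
      exact (h _ ih.1 ih.2).trans e2.symm
  obtain ⟨n, rfl⟩ := ρ.rot_trans d₀ d (h0.trans hd.symm)
  exact (key n).2

theorem Reg.ins_finite {R : Set W} {L U : ℤ → W} {cL cU : W → ℤ} (hX : C.XStrip R L U cL cU)
    {j : ℤ} {n : ℕ} {A B : H.Walk (U j) (U (j + n))} (hn : 0 < n) (hB : Seg U j n B)
    {S : Set H.Dart} (hS : Reg C.Pl L U A B S) : (Ins S).Finite := by
  classical
  obtain ⟨ρ, hρ⟩ := SCtx.exists_rho hX.inv hX.fin hX.lineL
  have hF : {w | w ∈ A.support ∨ w ∈ B.support}.Finite :=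
    (A.support.finite_toSet).union (B.support.finite_toSet)
  have hU : (⋃ z ∈ {w | w ∈ A.support ∨ w ∈ B.support},
      {w | w ∈ R ∧ C.u z - ρ ≤ C.u w ∧ C.u w ≤ C.u z + ρ}).Finite :=
    hF.biUnion (fun z _ => fin_levels hX.inv hX.fin _ _)
  refine hU.subset ?_
  intro w hw
  have hwR := hS.ins_sub hX hw
  obtain ⟨t, p, hp⟩ := hρ w hwR
  have hex : ∃ k, k ≤ p.length ∧ p.getVert k ∉ Ins S := by
    refine ⟨p.length, le_rfl, ?_⟩
    rw [Walk.getVert_length]
    intro h
    have h1 := hS.ins_sub hX h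
    rw [hX.eqR] at h1
    exact line_not_up C.hH C.Pl hX.lineL.cal.isCurve t h1.1
  obtain ⟨hk, hkS⟩ := Nat.find_spec hex
  set k := Nat.find hex with hkdef
  have hk0 : 0 < k := by
    rcases Nat.eq_zero_or_pos k with h | h
    · rw [h, Walk.getVert_zero] at hkS; exact absurd hw hkS
    · exact h
  have hprev : p.getVert (k - 1) ∈ Ins S := by
    by_contra h
    exact Nat.find_min hex (m := k - 1) (by omega) ⟨by omega, h⟩
  have hadj := p.adj_getVert_succ (show k - 1 < p.length by omega)
  rw [show k - 1 + 1 = k by omega] at hadj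
  have h1 := (hS.ins_adj hX hn hB hprev hadj).resolve_left hkS
  have h2 := abs_le.mp (lip_walk C.lip p k (Nat.zero_le _) hk)
  rw [Walk.getVert_zero] at h2
  push_cast at h2
  have h3 : (k : ℤ) ≤ ρ := by exact_mod_cast hk.trans hp
  simp only [Set.mem_iUnion]
  exact ⟨p.getVert k, h1, hwR, by linarith [h2.2], by linarith [h2.1]⟩

/-- (4b) The vertices of `R` whose level is far from the ends are inside the region. -/
theorem Reg.mem_ins {R : Set W} {L U : ℤ → W} {cL cU : W → ℤ} (hX : C.XStrip R L U cL cU) :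
    ∃ ρ : ℤ, 0 ≤ ρ ∧ ∀ (j : ℤ) (n : ℕ) (A B : H.Walk (U j) (U (j + n))) (ks kt : ℕ) (s c : ℤ)
      (S : Set H.Dart), 0 < n → Seg U j n B → Shape R L A ks kt s c → Reg C.Pl L U A B S →
      ∀ r ∈ R, j + c + ρ ≤ C.u r → C.u r + c + ρ ≤ j + n → r ∈ Ins S := by
  classical
  obtain ⟨ρ₀, hρ₀⟩ := SCtx.exists_rho hX.inv hX.fin hX.lineL
  refine ⟨ρ₀ + 2, by positivity, ?_⟩
  intro j n A B ks kt s c S hn hB hA hS r hr hr1 hr2
  obtain ⟨t₀, p, hp⟩ := hρ₀ r hr
  have hcalL := hX.lineL.cal
  have hcalU := hX.lineU.cal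
  have cLc := hcalL.isCurve
  have cUc := hcalU.isCurve
  have hLl := isLeft_lft C.hH C.Pl cLc
  have hUl := isLeft_lft C.hH C.Pl cUc
  -- the first vertex on the lines
  have hex : ∃ k, k ≤ p.length ∧ ((∃ t, p.getVert k = L t) ∨ ∃ t, p.getVert k = U t) :=
    ⟨p.length, le_rfl, Or.inl ⟨t₀, by rw [Walk.getVert_length]⟩⟩
  obtain ⟨hk, hkLU⟩ := Nat.find_spec hex
  set k := Nat.find hex with hkdef
  have hoff : ∀ i, i < k → (∀ t, p.getVert i ≠ L t) ∧ ∀ t, p.getVert i ≠ U t := by
    intro i hi
    have h1 := Nat.find_min hex hi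
    rw [not_and, not_or] at h1
    obtain ⟨h2, h3⟩ := h1 (by omega)
    exact ⟨fun t ht => h2 ⟨t, ht⟩, fun t ht => h3 ⟨t, ht⟩⟩
  have hrUD : r ∈ Up C.Pl L ∧ r ∈ Down C.Pl U := by rw [hX.eqR] at hr; exact hr
  have hk0 : 0 < k := by
    rcases Nat.eq_zero_or_pos k with h | h
    · exfalso
      rw [h, Walk.getVert_zero] at hkLU
      rcases hkLU with ⟨t, ht⟩ | ⟨t, ht⟩
      · exact line_not_up C.hH C.Pl cLc t (ht ▸ hrUD.1)
      · exact line_not_down C.hH C.Pl cUc t (ht ▸ hrUD.2)
    · exact h
  have hinR : ∀ i, i < k → p.getVert i ∈ Up C.Pl L ∧ p.getVert i ∈ Down C.Pl U := by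
    intro i
    induction i with
    | zero => intro _; rw [Walk.getVert_zero]; exact hrUD
    | succ i ih =>
      intro hi
      have hadj := p.adj_getVert_succ (show i < p.length by omega)
      have h1 := ih (by omega)
      refine ⟨(up_adj C.hH C.Pl cLc hadj h1.1).resolve_right ?_,
        (down_adj C.hH C.Pl cUc hadj h1.2).resolve_right ?_⟩
      · rintro ⟨t, ht⟩; exact (hoff _ hi).1 t ht
      · rintro ⟨t, ht⟩; exact (hoff _ hi).2 t ht
  have hlev : ∀ i, i ≤ k → C.u r - ρ₀ ≤ C.u (p.getVert i) ∧ C.u (p.getVert i) ≤ C.u r + ρ₀ := by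
    intro i hi
    have h2 := abs_le.mp (lip_walk C.lip p i (Nat.zero_le _) (hi.trans hk))
    rw [Walk.getVert_zero] at h2
    push_cast at h2
    have h3 : (i : ℤ) ≤ ρ₀ := by exact_mod_cast (hi.trans hk).trans hp
    constructor <;> linarith [h2.1, h2.2]
  -- levels of `A`
  have hlip : ∀ k k' : ℕ, k ≤ k' → k' ≤ A.length →
      |C.u (A.getVert k') - C.u (A.getVert k)| ≤ (k' : ℤ) - k := fun k k' h h' =>
    lip_walk C.lip A k' h h'
  have hu0 : C.u (A.getVert 0) = j := by rw [Walk.getVert_zero, hcalU.lev]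
  have hun : C.u (A.getVert A.length) = j + n := by rw [Walk.getVert_length, hcalU.lev]
  have huks : C.u (A.getVert ks) = s := by
    rw [hA.mid ks le_rfl hA.le, hcalL.lev]; ring
  have hukt : C.u (A.getVert kt) = s + (kt - ks) := by
    rw [hA.mid kt hA.le le_rfl, hcalL.lev]
  have hks1 := abs_le.mp (hlip 0 ks (Nat.zero_le _) (hA.le.trans hA.lt.le))
  have hkt1 := abs_le.mp (hlip kt A.length hA.lt.le le_rfl)
  rw [hu0, huks] at hks1
  rw [hun, hukt] at hkt1
  push_cast at hks1
  have hb1 := hA.b1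
  have hb2 := hA.b2
  -- the walk is off the boundary before `k`
  have hoffA : ∀ i, i < k → p.getVert i ∉ A.support := by
    intro i hi hmem
    obtain ⟨b, hb, hbl⟩ := Walk.mem_support_iff_exists_getVert.mp hmem
    have hl := hlev i hi.le
    rw [← hb] at hl
    rcases Nat.lt_or_ge b ks with h | h
    · have e1 := abs_le.mp (hlip 0 b (Nat.zero_le _) hbl)
      rw [hu0] at e1
      push_cast at e1
      have e2 : (b : ℤ) < ks := by exact_mod_cast h
      linarith [e1.2, hl.1]
    · rcases Nat.lt_or_ge kt b with h' | h'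
      · have e1 := abs_le.mp (hlip b A.length hbl le_rfl)
        rw [hun] at e1
        have e2 : (kt : ℤ) < b := by exact_mod_cast h'
        linarith [e1.2, hl.2]
      · exact (hoff i hi).1 _ (hb ▸ hA.mid b h h')
  have hoffB : ∀ i, i < k → p.getVert i ∉ B.support := by
    intro i hi hmem
    obtain ⟨t, -, -, ht⟩ := (hB.mem_support _).mp hmem
    exact (hoff i hi).2 t ht
  have hC : ∀ w, w ∉ A.support → w ∉ B.support → ∀ z, H.Adj w z → s(w, z) ∉
      ({e | e ∈ A.edges} ∪ {e | e ∈ B.edges} : Set (Sym2 W)) := by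
    rintro w h1 h2 z - (h | h)
    · exact h1 (Walk.fst_mem_support_of_mem_edges _ h)
    · exact h2 (Walk.fst_mem_support_of_mem_edges _ h)
  have hback : p.getVert (k - 1) ∈ Ins S → r ∈ Ins S := by
    intro h
    have : ∀ i, i ≤ k - 1 → p.getVert (k - 1 - i) ∈ Ins S := by
      intro i
      induction i with
      | zero => intro _; exact h
      | succ i ih =>
        intro hi
        have h1 := ih (by omega)
        have hadj := p.adj_getVert_succ (show k - 1 - (i + 1) < p.length by omega)
        rw [show k - 1 - (i + 1) + 1 = k - 1 - i by omega] at hadj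
        exact ins_of_adj _ hS.reg hadj.symm h1
          (hC _ (hoffA _ (by omega)) (hoffB _ (by omega)))
    have h2 := this (k - 1) le_rfl
    rwa [Nat.sub_self, Walk.getVert_zero] at h2
  apply hback
  -- the last vertex before the lines
  set y := p.getVert (k - 1) with hy
  have hyA := hoffA (k - 1) (by omega)
  have hyB := hoffB (k - 1) (by omega)
  have hyR := hinR (k - 1) (by omega)
  have hadj := p.adj_getVert_succ (show k - 1 < p.length by omega)
  rw [show k - 1 + 1 = k by omega, ← hy] at hadj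
  rw [← hy] at hyA hyB hyR
  have hyC := hC y hyA hyB
  have hkl := hlev k le_rfl
  -- it is enough that the dart from the line to `y` is in `S`
  suffices hsuf : (⟨(p.getVert k, y), hadj.symm⟩ : H.Dart) ∈ S by
    intro d hd
    have h1 : (⟨(y, p.getVert k), hadj⟩ : H.Dart) ∈ S := by
      have h2 := (hS.reg.2 (⟨(y, p.getVert k), hadj⟩ : H.Dart)).mpr (hyC _ hadj)
      exact h2.mpr hsuf
    exact (region_const _ hS.reg hyC (d := ⟨(y, p.getVert k), hadj⟩) rfl hd).mp h1
  rcases hkLU with ⟨b, hb⟩ | ⟨b, hb⟩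
  · -- the walk ends on `L`
    rw [hb, hcalL.lev] at hkl
    have hbs : s < b := by linarith [hkl.1, hks1.2]
    have hbt : b < s + (kt - ks) := by linarith [hkl.2, hkt1.2]
    obtain ⟨a, ha⟩ : ∃ a : ℕ, (a : ℤ) = ks + (b - s) := ⟨(ks + (b - s)).toNat, by omega⟩
    have ha1 : ks < a := by omega
    have ha2 : a < kt := by omega
    have hAa : A.getVert a = L b := by
      rw [hA.mid a ha1.le ha2.le, ha]; congr 1; ring
    have hAa1 : A.getVert (a + 1) = L (b + 1) := by
      rw [hA.mid (a + 1) (by omega) (by omega)]; congr 1; push_cast; linarith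
    have hAa0 : A.getVert (a - 1) = L (b - 1) := by
      rw [hA.mid (a - 1) (by omega) (by omega), Nat.cast_sub (by omega)]; congr 1
      push_cast; linarith
    have hal : a < A.length := ha2.trans hA.lt
    have hdart : ∀ k, k < A.length → ∀ d : H.Dart, d.fst = A.getVert k →
        d.snd = A.getVert (k + 1) → d ∈ A.darts := by
      intro k hk d h1 h2
      have h5 : k < A.darts.length := by rw [Walk.length_darts]; exact hk
      have h7 : d = A.darts[k] := by
        rw [Walk.darts_getElem_eq_getVert]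
        ext
        · exact h1
        · exact h2
      rw [h7]
      exact List.getElem_mem h5
    have hfd : ∀ (z : W) (hz : H.Adj (L b) z), z = L (b + 1) →
        (⟨(L b, z), hz⟩ : H.Dart) ∈ S ∧ (⟨(L b, z), hz⟩ : H.Dart).symm ∉ S := fun z hz h =>
      hS.fwd _ (hdart a hal _ hAa.symm (by rw [hAa1]; exact h))
    have hbd : ∀ (z : W) (hz : H.Adj (L b) z), z = L (b - 1) →
        (⟨(L b, z), hz⟩ : H.Dart).symm ∈ S := fun z hz h =>
      (hS.fwd _ (hdart (a - 1) (by omega) _ (by rw [hAa0]; exact h)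
        (by rw [show a - 1 + 1 = a by omega, hAa]; rfl))).1
    have hadjb := hcalL.adj (b - 1)
    rw [sub_add_cancel] at hadjb
    have hLB : L b ∉ B.support := by
      intro h
      obtain ⟨t, -, -, ht⟩ := (hB.mem_support _).mp h
      exact line_not_up C.hH C.Pl cLc b (ht ▸ hX.above t)
    have hrot := rot_agree C.Pl.toRotationSystem hS.reg.1 hLl.face (v := L b) (by
      rintro ⟨⟨v, z⟩, hz⟩ hv hag
      simp only at hv
      subst hv
      by_cases h1 : z = L (b + 1)
      · have e1 := hfd z hz h1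
        have e2 := hLl.left b ⟨(L b, z), hz⟩ rfl h1
        exact iff_of_false e1.2 e2.2
      by_cases h2 : z = L (b - 1)
      · have e1 := hbd z hz h2
        have e2 := hLl.left (b - 1) (Dart.symm ⟨(L b, z), hz⟩) h2 (by rw [sub_add_cancel]; rfl)
        exact iff_of_true e1 e2.1
      have e1 : (⟨(L b, z), hz⟩ : H.Dart) ∈ S ↔ (⟨(L b, z), hz⟩ : H.Dart).symm ∈ S := by
        refine (hS.reg.2 _).mpr ?_
        rintro (h | h)
        · obtain ⟨m, hm, he⟩ := (P3.mem_edges_iff A _).mp h
          rw [Dart.edge_mk] at he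
          dsimp only at he
          rcases Sym2.eq_iff.mp he with ⟨h3, h4⟩ | ⟨h3, h4⟩
          · have : a = m := hA.path.getVert_injOn (by simp; omega) (by simp; omega)
              (by rw [hAa, h3])
            subst this
            exact h1 (by rw [h4, hAa1])
          · have : a = m + 1 := hA.path.getVert_injOn (by simp; omega) (by simp; omega)
              (by rw [hAa, h3])
            exact h2 (by rw [h4, ← hAa0, this, Nat.add_sub_cancel])
        · exact hLB (Walk.fst_mem_support_of_mem_edges _ h)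
      have e2 : (⟨(L b, z), hz⟩ : H.Dart) ∈ lft C.Pl L ↔
          (⟨(L b, z), hz⟩ : H.Dart).symm ∈ lft C.Pl L := by
        refine hLl.off _ (fun t => ⟨?_, ?_⟩)
        · rintro ⟨h3, h4⟩
          have h5 : b = t := by
            have := congrArg C.u h3
            rwa [hcalL.lev, hcalL.lev] at this
          subst h5
          exact h1 h4
        · rintro ⟨h3, h4⟩
          have h5 : b = t + 1 := by
            have := congrArg C.u h3
            rwa [hcalL.lev, hcalL.lev] at this
          exact h2 (by rw [show z = L t from h4, h5, add_sub_cancel_right])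
      exact (e1.symm.trans hag).trans e2) (d₀ := ⟨(L b, L (b + 1)), hcalL.adj b⟩) rfl
      (iff_of_true (hfd _ _ rfl).1 (hLl.left b _ rfl rfl).1)
      (⟨(p.getVert k, y), hadj.symm⟩ : H.Dart) hb
    rw [hrot]
    have h1 : (⟨(y, p.getVert k), hadj⟩ : H.Dart) ∈ lft C.Pl L := hyR.1 _ rfl
    refine (hLl.off (⟨(y, p.getVert k), hadj⟩ : H.Dart) (fun t => ⟨?_, ?_⟩)).mp h1
    · rintro ⟨h3, -⟩; exact (hoff (k - 1) (by omega)).1 t h3
    · rintro ⟨h3, -⟩; exact (hoff (k - 1) (by omega)).1 _ h3
  · -- the walk ends on `U`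
    rw [hb, hcalU.lev] at hkl
    have hA0 : (0 : ℤ) < ks := by exact_mod_cast hA.pos
    have hjb : j < b := by linarith [hkl.1]
    have hbn : b < j + n := by
      have : (kt : ℤ) < A.length := by exact_mod_cast hA.lt
      linarith [hkl.2]
    have hUA : U b ∉ A.support := by
      intro h
      obtain ⟨m, hm, hml⟩ := Walk.mem_support_iff_exists_getVert.mp h
      rcases Nat.eq_zero_or_pos m with h0 | h0
      · rw [h0, Walk.getVert_zero] at hm
        have := congrArg C.u hm
        rw [hcalU.lev, hcalU.lev] at this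
        omega
      · rcases hml.lt_or_eq with h1 | h1
        · exact hA.off hX h0 h1 b hm
        · rw [h1, Walk.getVert_length] at hm
          have := congrArg C.u hm
          rw [hcalU.lev, hcalU.lev] at this
          omega
    -- the edges of `U` next to `U b` are edges of `B`
    have hBe : ∀ t, j ≤ t → t < j + n → s(U t, U (t + 1)) ∈ B.edges := by
      intro t h1 h2
      rw [P3.mem_edges_iff]
      refine ⟨(t - j).toNat, by rw [hB.len]; omega, ?_⟩
      rw [hB.val _ (by omega), hB.val _ (by omega)]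
      congr 2
      · omega
      · push_cast; omega
    have hbs : ∀ (t : ℤ) (d : H.Dart), j ≤ t → t < j + n → d.fst = U t → d.snd = U (t + 1) →
        d ∉ S ∧ d.symm ∈ S := by
      intro t d h1 h2 h3 h4
      have e1 : d ∉ S := fun h => hS.subU h (hUl.left t d h3 h4).1
      refine ⟨e1, ?_⟩
      by_contra e2
      have e3 := (hS.reg.2 d).mp (iff_of_false e1 e2)
      apply e3
      right
      have e4 : d.edge = s(U t, U (t + 1)) := by
        rw [← h3, ← h4]; rfl
      rw [Set.mem_ofPred_eq, e4]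
      exact hBe t h1 h2
    have hadjb := hcalU.adj (b - 1)
    rw [sub_add_cancel] at hadjb
    have hcompl : IsFaceSet C.Pl.toRotationSystem (lft C.Pl U)ᶜ := fun d =>
      not_congr (hUl.face d)
    have hrot := rot_agree C.Pl.toRotationSystem hS.reg.1 hcompl (v := U b) (by
      rintro ⟨⟨v, z⟩, hz⟩ hv hag
      simp only at hv
      subst hv
      by_cases h1 : z = U (b + 1)
      · have e1 := hbs b ⟨(U b, z), hz⟩ hjb.le hbn rfl h1
        have e2 := hUl.left b ⟨(U b, z), hz⟩ rfl h1
        exact iff_of_true e1.2 e2.2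
      by_cases h2 : z = U (b - 1)
      · have e1 := hbs (b - 1) (Dart.symm ⟨(U b, z), hz⟩) (by omega) (by omega) h2
          (by rw [sub_add_cancel]; rfl)
        have e2 := hUl.left (b - 1) (Dart.symm ⟨(U b, z), hz⟩) h2 (by rw [sub_add_cancel]; rfl)
        exact iff_of_false e1.1 (fun h => h e2.1)
      have e1 : (⟨(U b, z), hz⟩ : H.Dart) ∈ S ↔ (⟨(U b, z), hz⟩ : H.Dart).symm ∈ S := by
        refine (hS.reg.2 _).mpr ?_
        rintro (h | h)
        · exact hUA (Walk.fst_mem_support_of_mem_edges _ h)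
        · obtain ⟨m, hm, he⟩ := (P3.mem_edges_iff B _).mp h
          rw [hB.len] at hm
          rw [Dart.edge_mk, hB.val _ (by omega), hB.val _ (by omega)] at he
          dsimp only at he
          rcases Sym2.eq_iff.mp he with ⟨h3, h4⟩ | ⟨h3, h4⟩
          · have := congrArg C.u h3
            rw [hcalU.lev, hcalU.lev] at this
            apply h1
            rw [h4]
            congr 1
            push_cast
            omega
          · have := congrArg C.u h3
            rw [hcalU.lev, hcalU.lev] at this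
            apply h2
            rw [h4]
            congr 1
            push_cast at this
            omega
      have e2 : (⟨(U b, z), hz⟩ : H.Dart) ∈ lft C.Pl U ↔
          (⟨(U b, z), hz⟩ : H.Dart).symm ∈ lft C.Pl U := by
        refine hUl.off _ (fun t => ⟨?_, ?_⟩)
        · rintro ⟨h3, h4⟩
          have h5 : b = t := by
            have := congrArg C.u h3
            rwa [hcalU.lev, hcalU.lev] at this
          subst h5
          exact h1 h4
        · rintro ⟨h3, h4⟩
          have h5 : b = t + 1 := by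
            have := congrArg C.u h3
            rwa [hcalU.lev, hcalU.lev] at this
          exact h2 (by rw [show z = U t from h4, h5, add_sub_cancel_right])
      exact (e1.symm.trans hag).trans (not_congr e2)) (d₀ := ⟨(U b, U (b - 1)), hadjb.symm⟩) rfl
      (by
        have e1 := hbs (b - 1) ⟨(U (b - 1), U b), hadjb⟩ (by omega) (by omega) rfl
          (by rw [sub_add_cancel])
        have e2 := hUl.left (b - 1) ⟨(U (b - 1), U b), hadjb⟩ rfl (by rw [sub_add_cancel])
        exact iff_of_true e1.2 e2.2)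
      (⟨(p.getVert k, y), hadj.symm⟩ : H.Dart) hb
    rw [hrot]
    have h1 : (⟨(y, p.getVert k), hadj⟩ : H.Dart) ∈ (lft C.Pl U)ᶜ := hyR.2 _ rfl
    have h2 := hUl.off (⟨(y, p.getVert k), hadj⟩ : H.Dart) (fun t => ⟨by
      rintro ⟨h3, -⟩; exact (hoff (k - 1) (by omega)).2 t h3, by
      rintro ⟨h3, -⟩; exact (hoff (k - 1) (by omega)).2 _ h3⟩)
    exact fun h3 => h1 (h2.mpr h3)

end CLO

end Pool.Agent.MP_f5837d_co

/-!
# Closing a strip, part (5): the choice of the walk
-/


namespace Pool.Agent.MP_f5837d_co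

open SimpleGraph

variable {V W : Type*} {G : SimpleGraph V} {H : SimpleGraph W} {π : W → V}
variable [∀ w, Fintype (H.neighborSet w)]

namespace CLO

variable {C : SCtx G H π}

omit [∀ w, Fintype (H.neighborSet w)] in
/-- Cut a walk at the index `i`. -/
theorem c_split1 {x y : W} (A : H.Walk x y) (i : ℕ) (hi : i ≤ A.length) :
    ∃ (a : W) (A₁ : H.Walk x a) (A₂ : H.Walk a y), A = A₁.append A₂ ∧ A₁.length = i ∧
      a = A.getVert i :=
  ⟨_, A.take i, A.drop i, (A.append_take_drop_eq i).symm, by rw [A.take_length]; omega, rfl⟩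

omit [∀ w, Fintype (H.neighborSet w)] in
/-- Cut a walk at the indices `i`, `i'`. -/
theorem c_split2 {x y : W} (A : H.Walk x y) (i i' : ℕ) (h : i ≤ i') (hi : i' ≤ A.length) :
    ∃ (a b : W) (A₁ : H.Walk x a) (A₂ : H.Walk a b) (A₃ : H.Walk b y),
      A = A₁.append (A₂.append A₃) ∧ A₁.length = i ∧ A₁.length + A₂.length = i' ∧
      a = A.getVert i ∧ b = A.getVert i' := by
  obtain ⟨a, A₁, A', hA, h1, ha⟩ := c_split1 A i (h.trans hi)
  have hl : A.length = A₁.length + A'.length := by rw [hA, Walk.length_append]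
  obtain ⟨b, A₂, A₃, hA', h2, hb⟩ := c_split1 A' (i' - i) (by omega)
  refine ⟨a, b, A₁, A₂, A₃, by rw [hA, hA'], h1, by omega, ha, ?_⟩
  rw [hb, hA, Walk.getVert_append, if_neg (by omega)]
  congr 1
  omega

/-- (5) Among the shortest walks there is one whose region contains the fewest vertices: it has no
detour of excess zero through the region. -/
theorem exists_best {R : Set W} {L U : ℤ → W} {cL cU : W → ℤ} (hX : C.XStrip R L U cL cU)
    {j : ℤ} {n : ℕ} {B : H.Walk (U j) (U (j + n))} (hn : 3 ≤ n) (hB : Seg U j n B) {c : ℤ}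
    (hex : ∃ A : H.Walk (U j) (U (j + n)), Short R L A)
    (hsh : ∀ A : H.Walk (U j) (U (j + n)), Short R L A →
      ∃ (ks kt : ℕ) (s : ℤ), Shape R L A ks kt s c) :
    ∃ (A : H.Walk (U j) (U (j + n))) (S : Set H.Dart), Short R L A ∧ Reg C.Pl L U A B S ∧
      ∀ i i' m : ℕ, i < i' → i' ≤ A.length → Det H (Ins S) (A.getVert i) (A.getVert i') m →
        i' - i < m := by
  classical
  have hn0 : 0 < n := by omega
  -- the candidates
  let P : ℕ → Prop := fun N => ∃ (A : H.Walk (U j) (U (j + n))) (S : Set H.Dart), Short R L A ∧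
    Reg C.Pl L U A B S ∧ (Ins S).ncard = N
  have hP : ∃ N, P N := by
    obtain ⟨A, hA⟩ := hex
    obtain ⟨ks, kt, s, hs⟩ := hsh A hA
    obtain ⟨S, hS⟩ := exists_reg hX hn0 hB hs
    exact ⟨_, A, S, hA, hS, rfl⟩
  obtain ⟨A, S, hA, hS, hN⟩ := Nat.find_spec hP
  have hmin : ∀ (A' : H.Walk (U j) (U (j + n))) (S' : Set H.Dart), Short R L A' →
      Reg C.Pl L U A' B S' → (Ins S).ncard ≤ (Ins S').ncard := by
    intro A' S' hA' hS'
    rw [hN]
    exact Nat.find_min' hP ⟨A', S', hA', hS', rfl⟩
  refine ⟨A, S, hA, hS, ?_⟩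
  intro i i' m hii hi' hdet
  by_contra hlt
  have hle : m ≤ i' - i := not_lt.mp hlt
  obtain ⟨ks, kt, s, hshape⟩ := hsh A hA
  obtain ⟨a, b, A₁, A₂, A₃, hAeq, hl1, hl2, haeq, hbeq⟩ := c_split2 A i i' hii.le hi'
  rw [← haeq, ← hbeq] at hdet
  obtain ⟨Q, hQl, hm2, hQint⟩ := hdet
  have hl : A.length = A₁.length + (A₂.length + A₃.length) := by
    rw [hAeq]; simp
  -- the new walk
  set A' : H.Walk (U j) (U (j + n)) := A₁.append (Q.append A₃) with hA'
  have hA'l : A'.length = A₁.length + (m + A₃.length) := by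
    rw [hA']; simp [hQl]
  have hInsR : Ins S ⊆ R := hS.ins_sub hX
  have hadmA := hA.1
  have hAdm : Adm R L A' := by
    intro k hk0 hkl
    rw [hA'l] at hkl
    rcases lt_or_ge k A₁.length with h1 | h1
    · -- in A₁
      have e : A'.getVert k = A.getVert k := by
        rw [hA', hAeq, Walk.getVert_append, if_pos h1, Walk.getVert_append, if_pos h1]
      rw [e]
      exact hadmA k hk0 (by omega)
    · rcases lt_or_ge (k - A₁.length) m with h2 | h2
      · -- in Q
        have e : A'.getVert k = Q.getVert (k - A₁.length) := by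
          rw [hA', Walk.getVert_append, if_neg (by omega), Walk.getVert_append,
            if_pos (by omega)]
        rcases Nat.eq_zero_or_pos (k - A₁.length) with h3 | h3
        · have e' : A'.getVert k = A.getVert k := by
            rw [e, h3, Walk.getVert_zero, haeq]
            congr 1
            omega
          rw [e']
          exact hadmA k hk0 (by omega)
        · rw [e]
          exact Or.inl (hInsR (hQint _ h3 h2))
      · -- in A₃
        have e : A'.getVert k = A.getVert (k - A₁.length - m + i') := by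
          rw [hA', hAeq, Walk.getVert_append, if_neg (by omega), Walk.getVert_append,
            if_neg (by omega), Walk.getVert_append, if_neg (by omega), Walk.getVert_append,
            if_neg (by omega)]
          congr 1
          omega
        rw [e]
        refine hadmA _ ?_ ?_ <;> omega
  have hmin' := hA.2 A' hAdm
  have hmeq : m = i' - i := by omega
  have hShort : Short R L A' := by
    refine ⟨hAdm, fun p' hp' => ?_⟩
    have := hA.2 p' hp'
    omega
  obtain ⟨ks', kt', s', hshape'⟩ := hsh A' hShort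
  -- the pieces are paths
  have hApath : (A₁.append (A₂.append A₃)).IsPath := hAeq ▸ hshape.path
  have hA'path : (A₁.append (Q.append A₃)).IsPath := hshape'.path
  have hQpath : Q.IsPath := by
    have := (P3.isPath_append_iff _ _).1 hA'path
    exact ((P3.isPath_append_iff _ _).1 this.2.1).1
  have hab : a ≠ b := by
    rw [haeq, hbeq]
    intro h
    have := (hshape.path.getVert_injOn) (by simp; omega : i ∈ {k | k ≤ A.length})
      (by simp; omega : i' ∈ {k | k ≤ A.length}) h
    omega
  have hBpath : B.IsPath := hB.isPath hX.lineU.cal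
  have hdisj : ∀ w, w ∈ (A₁.append (A₂.append A₃)).support → w ∈ B.support →
      w = U j ∨ w = U (j + n) := by
    intro w hw hwB
    rw [← hAeq] at hw
    obtain ⟨k, rfl, hk⟩ := Walk.mem_support_iff_exists_getVert.mp hw
    obtain ⟨t, -, -, ht⟩ := (hB.mem_support _).1 hwB
    rcases Nat.eq_zero_or_pos k with h0 | h0
    · left; rw [h0, Walk.getVert_zero]
    · rcases hk.lt_or_eq with h1 | h1
      · exact absurd ht (hshape.off hX h0 h1 t)
      · right; rw [h1, Walk.getVert_length]
  have hreg := hS.reg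
  rw [hAeq] at hreg
  have hQin : ∀ w ∈ Q.support, w ≠ a → w ≠ b → w ∈ Ins S := by
    intro w hw hwa hwb
    obtain ⟨k, rfl, hk⟩ := Walk.mem_support_iff_exists_getVert.mp hw
    refine hQint k ?_ ?_
    · rcases Nat.eq_zero_or_pos k with h0 | h0
      · rw [h0, Walk.getVert_zero] at hwa
        exact absurd rfl hwa
      · exact h0
    · rcases hk.lt_or_eq with h1 | h1
      · omega
      · rw [h1, Walk.getVert_length] at hwb
        exact absurd rfl hwb
  have hQoff : ∀ w ∈ Q.support, w ≠ a → w ≠ b →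
      w ∉ (A₁.append (A₂.append A₃)).support ∧ w ∉ B.support := by
    intro w hw hwa hwb
    rw [← hAeq]
    exact hS.ins_off hX hn0 hB (hQin w hw hwa hwb)
  have hQS : ∀ d ∈ Q.darts, d ∈ S ∧ d.symm ∈ S := by
    intro d hd
    -- one of the ends is inside
    have hmemQ1 : d.fst ∈ Q.support := Q.dart_fst_mem_support_of_mem_darts hd
    have hmemQ2 : d.snd ∈ Q.support := Q.dart_snd_mem_support_of_mem_darts hd
    have hend : d.fst ∈ Ins S ∨ d.snd ∈ Ins S := by
      have hedge : d.edge ∈ Q.edges := by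
        rw [Walk.edges]; exact List.mem_map_of_mem hd
      obtain ⟨k, hk, he⟩ := (P3.mem_edges_iff Q d.edge).1 hedge
      have hint : Q.getVert k ∈ Ins S ∨ Q.getVert (k + 1) ∈ Ins S := by
        rcases Nat.eq_zero_or_pos k with h0 | h0
        · right
          exact hQint _ (by omega) (by omega)
        · left
          exact hQint _ h0 (by omega)
      have he' : s(d.fst, d.snd) = s(Q.getVert k, Q.getVert (k + 1)) := he
      rw [Sym2.eq_iff] at he'
      rcases he' with ⟨e1, e2⟩ | ⟨e1, e2⟩
      · rw [e1, e2]; exact hint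
      · rw [e1, e2]; exact hint.symm
    have hoff : d.edge ∉ ({e | e ∈ A.edges} ∪ {e | e ∈ B.edges} : Set (Sym2 W)) := by
      rintro (h | h)
      · have h' : s(d.fst, d.snd) ∈ A.edges := h
        rcases hend with h1 | h1
        · exact (hS.ins_off hX hn0 hB h1).1 (A.fst_mem_support_of_mem_edges h')
        · exact (hS.ins_off hX hn0 hB h1).1 (A.snd_mem_support_of_mem_edges h')
      · have h' : s(d.fst, d.snd) ∈ B.edges := h
        rcases hend with h1 | h1
        · exact (hS.ins_off hX hn0 hB h1).2 (B.fst_mem_support_of_mem_edges h')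
        · exact (hS.ins_off hX hn0 hB h1).2 (B.snd_mem_support_of_mem_edges h')
    have hiff := (hS.reg.2 d).2 hoff
    rcases hend with h1 | h1
    · have : d ∈ S := h1 d rfl
      exact ⟨this, hiff.1 this⟩
    · have : d.symm ∈ S := h1 d.symm rfl
      exact ⟨hiff.2 this, this⟩
  have hlen3 : 3 ≤ (A₁.append (A₂.append A₃)).length + B.length := by
    rw [hB.len]; omega
  obtain ⟨S₁, S₂, hS₁, hS₂, hSS, hdisjS⟩ := cyc_split_region C.hH C.Pl A₁ A₂ A₃ B hApath hBpath hab
    hdisj hlen3 hreg Q hQpath hQoff hQS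
  obtain ⟨S', hS'⟩ := exists_reg hX hn0 hB hshape'
  have hS₂sub : S₂ ⊆ S := by rw [hSS]; exact Set.subset_union_right
  have hS₂eq : S₂ = S' := hS'.unique hX hS₂ (hS₂sub.trans hS.subU)
  have hge := hmin A' S' hShort hS'
  have hlt' : (Ins S').ncard < (Ins S).ncard := by
    apply Set.ncard_lt_ncard _ (hS.ins_finite hX hn0 hB)
    rw [← hS₂eq]
    refine ⟨fun w hw d hd => hS₂sub (hw d hd), fun hsub => ?_⟩
    have h1 : Q.getVert 1 ∈ Ins S := hQint 1 (by omega) (by omega)
    have h2 := hsub h1
    rw [hS₂eq] at h2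
    refine (hS'.ins_off hX hn0 hB h2).1 ?_
    rw [hA', Walk.mem_support_append_iff, Walk.mem_support_append_iff]
    exact Or.inr (Or.inl (Q.getVert_mem_support 1))
  omega

end CLO

end Pool.Agent.MP_f5837d_co

/-!
# Task CLO: closing a strip without periodic lines (blueprint 5.5)

Detailed plan (`r₀` = the robber's vertex, `d_X` = distance through a set `X`).
(1) GAIN. By `run_line` (and `hno`) there is `T₀ ≥ 1` such that no `u`-increasing path in `R` has more than
  `T₀` vertices. So a walk in `R` with `n` edges gains at most `n - n / T₀` in `u`.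
(2) CROSSINGS. `H` is connected, so there is a walk from some `L i` to some `U j`; a shortest one has
  its interior in `R` (`up_adj`, `down_adj`). By `A`-periodicity there are crossings at all places
  `i + k ℓ`, `j + k ℓ`, with a common length bound.
(3) SHORTEST PATHS. For `j₀ < q₀` consider the walks from `U j₀` to `U q₀` with interior in `R ∪ L`.
  The shortest length is at most `q₀ - j₀ + c`. Every shortest one, `A`: it meets `L` if `q₀ - j₀` is
  large (GAIN); let `L s` be its first and `L t` its last vertex on `L`. The first and the last part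
  are walks in `R` (plus ends), the excess of each is at least (length) / `T₀` - 2, so their lengths are
  at most a constant `c'` (this does not use `s ≤ t`, which follows for `q₀ - j₀` large). The middle part has
  length `t - s` (the length of `L[s..t]`), so it is `u`-increasing, and it is `L[s..t]`, because an
  excursion into `R` would be a detour of `L` of excess zero (`nL`). So, with the indices of `A` chosen
  such that `A b = L b` for `s ≤ b ≤ t`: all other interior vertices of `A` are in `R`, and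
  `s - j₀ ≤ c'`, `q₀ - t ≤ c'` (for the level and for the index). `A` is a path.
(4) REGION. Theta lemma on the right side of the curve `U` with `q := A`: `S₁` is bounded by `U[j₀..q₀]`
  and `A`, on the right of `U` and on the left of `A`.
  (a) `L b ∉ Ins S₁` for `b < s` or `t < b`. Let `T := S₁ \ lft L` (a face set). Its boundary flow is
    supported on the arcs of `L` outside `L[s..t]` (an edge of `U` or an edge of `A` that is not in
    `L` has both darts in `lft L`; the reversed arcs of `L[s..t]` are not in `S₁`), and by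
    conservation (`faceSet_flow`) it is zero on the two rays of `L`. So `T = ∅` (`faceSet_trivial`); but
    the reversed arc of `L` at `L b` would be in `T`.
  (b) `r₀ ∈ Ins S₁` if `j₀ << u r₀ << q₀`: follow a shortest walk from `r₀` to `L ∪ U` (length ≤ ρ, so it
    stays away from the ends); at its end `U b` or `L b` all darts on the correct side are in `S₁`
    (rotate around the vertex: the flows of `S₁` and of `U`, or `L`, agree there).
  (c) `Ins S₁ ⊆ R` is finite: `Ins S₁ ⊆ Down U`; a vertex of `Ins S₁` is not on `L` by (a) (it is not on `A`),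
    and it is not below `L` by `T = ∅`. Bounded levels: `r ∈ R` has a walk of length ≤ ρ to `L ∪ U`, and
    the neighbours of `Ins S₁` are in `Ins S₁`, on `A` or on `U[j₀..q₀]`.
(5) CHOICE. Among the shortest `A` take one for which `Ins S₁` has the fewest elements. `R' :=` the
  component of `r₀` in `Ins S₁`. Its neighbours are in `R'`, on `A` or on `U[j₀..q₀]`: `Cyc R' A B`,
  `B := U[j₀..q₀]`. `sA`: a detour of `A` through `R'` that is shorter contradicts the choice of the
  length; one of the same length gives another shortest path, and by the theta lemma (`cyc_split_region`,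
  `region_eq_or_compl`) its region is smaller. `sB`: `nU`.
(6) GUARDS. `e := pair π U cU` (clamped: nothing to do, indices in `j₀..q₀` only matter by `covB`).
  `g := pair π A c_A` with `c_A r := max (lo r) (min (hi r) (cL r))`, `lo r := max_b (b - d_{R'}(A b, r))`,
  `hi r := min_b (b + d_{R'}(A b, r) - 1)` (over the `b` with `A b` adjacent to `R'`). `lo ≤ hi` by `sA`;
  Lipschitz; `A b` adjacent to `r` gives `b - 1 ≤ c_A r ≤ b`. At `r₀`: `c_A r₀ = cL r₀`: for `s ≤ b ≤ t`
  propagate `PairFun.cov` along a path in `R'`; for the other `b` the distance is large and the GAIN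
  lemma gives `b - d(A b, r₀) ≤ cL r₀ ≤ b + d(A b, r₀) - 1`. Moreover `A = L` at `cL r₀`, `cL r₀ + 1`, so the
  same cops are locked.
-/


namespace Pool.Agent.MP_f5837d_co

open SimpleGraph

variable {V W : Type*} {G : SimpleGraph V} {H : SimpleGraph W} {π : W → V}
variable [∀ w, Fintype (H.neighborSet w)]

namespace CLO

variable {C : SCtx G H π}

omit [∀ w, Fintype (H.neighborSet w)] in
theorem step_of_lip {P : ℤ → W} (hP : ∀ t, Step H (P t) (P (t + 1))) {t t' : ℤ}
    (h : |t - t'| ≤ 1) : Step H (P t) (P t') := by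
  rw [abs_le] at h
  rcases lt_trichotomy t t' with h1 | h1 | h1
  · obtain rfl : t' = t + 1 := by omega
    exact hP t
  · exact Or.inl (by rw [h1])
  · obtain rfl : t = t' + 1 := by omega
    exact (hP t').symm

omit [∀ w, Fintype (H.neighborSet w)] in
/-- A Lipschitz function along a walk. -/
theorem lip_along {R : Set W} {c : W → ℤ} (hc : Lip H R c) {x y : W} (p : H.Walk x y)
    (hp : ∀ w ∈ p.support, w ∈ R) : |c y - c x| ≤ p.length := by
  induction p with
  | nil => simp
  | @cons x z y hxz p ih =>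
    have hz : ∀ w ∈ p.support, w ∈ R := fun w hw => hp w (by simp [hw])
    have h1 := ih hz
    have h2 := hc x (hp x (by simp)) z (hz z p.start_mem_support) hxz
    rw [abs_le] at h1 h2 ⊢
    rw [Walk.length_cons]
    push_cast
    constructor <;> linarith [h1.1, h1.2, h2.1, h2.2]

/-- A detour of excess zero as a sequence. -/
theorem no_detour {R : Set W} {P : ℤ → W} (hd : NoDet H R P Set.univ C.u) (f : ℕ → W) (n : ℕ)
    (a : ℤ) (hn : 2 ≤ n) (h0 : f 0 = P a) (h1 : f n = P (a + n))
    (hin : ∀ k, 0 < k → k < n → f k ∈ R) (hadj : ∀ k, k < n → H.Adj (f k) (f (k + 1)))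
    (hlev : ∀ k, k ≤ n → C.u (f k) = a + k) : False := by
  classical
  set q : ℤ → W := fun t => if a < t ∧ t < a + n then f (t - a).toNat else P t with hq
  have hqin : ∀ t, a ≤ t → t ≤ a + n → q t = f (t - a).toNat := by
    intro t h2 h3
    simp only [hq]
    split_ifs with h
    · rfl
    · rw [not_and_or, not_lt, not_lt] at h
      rcases h with h | h
      · have : t = a := le_antisymm h h2
        rw [this, sub_self, Int.toNat_zero, h0]
      · have : t = a + n := le_antisymm h3 h
        rw [this, add_sub_cancel_left, Int.toNat_natCast, h1]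
  refine noDet_iff.mp hd q a (a + n) ⟨trivial, trivial, by omega, ?_, ?_, ?_⟩
  · intro t ht
    simp only [hq]
    rw [if_neg (by omega)]
  · intro t h2 h3
    rw [hqin t h2.le h3.le]
    refine ⟨hin _ (by omega) (by omega), ?_⟩
    rw [hlev _ (by omega)]
    omega
  · intro t h2 h3
    rw [hqin t h2 h3.le, hqin (t + 1) (by omega) (by omega)]
    have : (t + 1 - a).toNat = (t - a).toNat + 1 := by omega
    rw [this]
    exact hadj _ (by omega)

omit [∀ w, Fintype (H.neighborSet w)] in
theorem Det.mono {R R' : Set W} (h : R' ⊆ R) {a b : W} {n : ℕ} (hd : Det H R' a b n) :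
    Det H R a b n := by
  obtain ⟨p, h1, h2, h3⟩ := hd
  exact ⟨p, h1, h2, fun k h4 h5 => h (h3 k h4 h5)⟩

/-- The component of `r` in `X`. -/
def comp (H : SimpleGraph W) (X : Set W) (r : W) : Set W :=
  {w | ∃ p : H.Walk r w, ∀ z ∈ p.support, z ∈ X}

omit [∀ w, Fintype (H.neighborSet w)] in
theorem comp_sub {X : Set W} {r : W} : comp H X r ⊆ X := fun _ ⟨p, hp⟩ =>
  hp _ p.end_mem_support

omit [∀ w, Fintype (H.neighborSet w)] in
theorem comp_self {X : Set W} {r : W} (h : r ∈ X) : r ∈ comp H X r :=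
  ⟨Walk.nil, by simpa using h⟩

omit [∀ w, Fintype (H.neighborSet w)] in
theorem comp_conn {X : Set W} {r : W} : ∀ w ∈ comp H X r, ∀ w' ∈ comp H X r,
    ∃ p : H.Walk w w', ∀ z ∈ p.support, z ∈ comp H X r := by
  classical
  have key : ∀ {w : W} (p : H.Walk r w), (∀ z ∈ p.support, z ∈ X) → ∀ u ∈ p.support,
      u ∈ comp H X r := by
    intro w p hp u hu
    exact ⟨p.takeUntil u hu, fun z hz => hp z (p.support_takeUntil_subset_support hu hz)⟩
  rintro w ⟨p, hp⟩ w' ⟨p', hp'⟩
  refine ⟨p.reverse.append p', fun u hu => ?_⟩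
  rw [Walk.mem_support_append_iff, Walk.support_reverse, List.mem_reverse] at hu
  exact hu.elim (key p hp u) (key p' hp' u)

omit [∀ w, Fintype (H.neighborSet w)] in
theorem comp_adj {X : Set W} {r w z : W} (hw : w ∈ comp H X r) (hwz : H.Adj w z) (hz : z ∈ X) :
    z ∈ comp H X r := by
  obtain ⟨p, hp⟩ := hw
  refine ⟨p.concat hwz, fun u hu => ?_⟩
  rw [Walk.support_concat] at hu
  simp only [List.mem_append, List.mem_singleton] at hu
  rcases hu with hu | rfl
  · exact hp u hu
  · exact hz

end CLO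

namespace SCtx

variable {C : SCtx G H π}

open CLO in
theorem closing {R : Set W} {L U : ℤ → W} {cL cU : W → ℤ} (hX : C.XStrip R L U cL cU)
    (hno : ¬ ∃ Λ, C.Line 1 R Λ) {r : W} {c : Fin 7 → V}
    (h : Locked R (appF (pair π L cL) (pair π U cU)) r c) :
    ∃ (R' : Set W) (x y : W) (A B : H.Walk x y) (g e : Fin 2 → W → V),
      XState G π C.Pl.toRotationSystem R' A B g e ∧ Locked R' (appF g e) r c := by
  obtain ⟨hrR, hocc⟩ := h
  obtain ⟨T, hT, hgain⟩ := gain hX hno
  obtain ⟨i, c₀, hc₀, hsh⟩ := shapes hX hno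
  obtain ⟨ρ, hρ, hmem⟩ := Reg.mem_ins hX
  have hcalU := hX.lineU.cal
  have hcalL := hX.lineL.cal
  have hℓ := C.ℓpos
  set u₀ := C.u r with hu₀
  set TT : ℤ := T * (2 * c₀ + 2) with hTT
  have hTT0 : 0 ≤ TT := by positivity
  -- the choice of the two ends
  obtain ⟨j, n, hj, hn, hjr, hrn, hcn, hn3⟩ : ∃ (j : ℤ) (n : ℕ), (∃ k, j = i + k * C.ℓ) ∧
      (∃ m, (n : ℤ) = m * C.ℓ) ∧ j + (TT + 2 * c₀ + ρ + 5) ≤ u₀ ∧
      u₀ + (TT + 2 * c₀ + ρ + 5) ≤ j + n ∧ c₀ ≤ n ∧ 3 ≤ n := by
    set B₀ := TT + 2 * c₀ + ρ + 5 with hB₀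
    have hB0 : 0 ≤ B₀ := by positivity
    set a := |i| + |u₀| + B₀ with ha
    have ha0 : 0 ≤ a := by positivity
    have h1 : a ≤ a * C.ℓ := le_mul_of_one_le_right ha0 (by omega)
    set j := i + -a * C.ℓ with hj
    set b := |j| + |u₀| + B₀ + c₀ + 3 with hb
    have hb0 : 0 ≤ b := by positivity
    have h2 : b ≤ b * C.ℓ := le_mul_of_one_le_right hb0 (by omega)
    have h3 : ((b * C.ℓ).toNat : ℤ) = b * C.ℓ := Int.toNat_of_nonneg (by linarith)
    have h4 := neg_abs_le i
    have h5 := le_abs_self i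
    have h6 := neg_abs_le u₀
    have h7 := le_abs_self u₀
    have h8 := neg_abs_le j
    have h9 := abs_nonneg u₀
    have h10 := abs_nonneg j
    refine ⟨j, (b * C.ℓ).toNat, ⟨_, rfl⟩, ⟨b, h3⟩, ?_, ?_, ?_, ?_⟩
    · have : j ≤ i - a := by rw [hj]; linarith
      linarith
    · rw [h3]; linarith
    · rw [h3]; linarith
    · have : (3 : ℤ) ≤ ((b * C.ℓ).toNat : ℤ) := by rw [h3]; linarith
      exact_mod_cast this
  obtain ⟨hex, hall⟩ := hsh j n hj hn hcn
  obtain ⟨B, hB⟩ := exists_seg hcalU j n
  obtain ⟨A, S, hAs, hS, hdet⟩ := exists_best hX hn3 hB hex (fun A hA => (hall A hA).2)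
  obtain ⟨hlen, ks, kt, s, hsp⟩ := hall A hAs
  have hn0 : 0 < n := by omega
  have hrS : r ∈ Ins S := hmem j n A B ks kt s c₀ S hn0 hB hsp hS r hrR (by linarith) (by linarith)
  set R' := comp H (Ins S) r with hR'
  have hR'S : R' ⊆ Ins S := comp_sub
  have hSR : Ins S ⊆ R := hS.ins_sub hX
  have hR'R : R' ⊆ R := hR'S.trans hSR
  have hrR' : r ∈ R' := comp_self hrS
  have hconn := comp_conn (H := H) (X := Ins S) (r := r)
  rw [← hR'] at hconn
  have hlip : ∀ k k' : ℕ, k ≤ k' → k' ≤ A.length →
      |C.u (A.getVert k') - C.u (A.getVert k)| ≤ (k' : ℤ) - k := fun k k' h h' =>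
    lip_walk C.lip A k' h h'
  have hu0 : C.u (A.getVert 0) = j := by rw [Walk.getVert_zero, hcalU.lev]
  have hun : C.u (A.getVert A.length) = j + n := by rw [Walk.getVert_length, hcalU.lev]
  have huks : C.u (A.getVert ks) = s := by
    rw [hsp.mid ks le_rfl hsp.le, hcalL.lev]; ring
  have hukt : C.u (A.getVert kt) = s + (kt - ks) := by
    rw [hsp.mid kt hsp.le le_rfl, hcalL.lev]
  have hks1 := abs_le.mp (hlip 0 ks (Nat.zero_le _) (hsp.le.trans hsp.lt.le))
  have hkt1 := abs_le.mp (hlip kt A.length hsp.lt.le le_rfl)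
  rw [hu0, huks] at hks1
  rw [hun, hukt] at hkt1
  push_cast at hks1
  have hb1 := hsp.b1
  have hb2 := hsp.b2
  have hval := hX.pL.val r
  -- the guard function for `A`
  set v : ℤ := cL r - s + ks with hv
  have hvlo : u₀ - 1 - s + ks ≤ v := by rcases hval with h | h <;> omega
  have hvhi : v ≤ u₀ - s + ks := by rcases hval with h | h <;> omega
  set K : Set (ℤ × W) := {x | ∃ b : ℕ, x.1 = b ∧ b ≤ A.length ∧ x.2 ∈ R' ∧
    H.Adj x.2 (A.getVert b)} with hK
  have hDgain : ∀ {x y : W}, x ∈ R' → y ∈ R' →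
      (D H R' x y : ℤ) ≤ T * (D H R' x y - (C.u y - C.u x) + 1) + 1 ∧
      |C.u y - C.u x| ≤ (D H R' x y : ℤ) ∧ |cL y - cL x| ≤ (D H R' x y : ℤ) := by
    intro x y hx hy
    obtain ⟨p, hp, hpR⟩ := D_spec hconn hx hy
    have h1 := hgain p (fun k _ _ => hR'R (hpR _ (p.getVert_mem_support k)))
    have h2 := lip_walk C.lip p p.length (Nat.zero_le _) le_rfl
    have h3 := lip_along hX.pL.lip p (fun w hw => hR'R (hpR w hw))
    rw [Walk.getVert_zero, Walk.getVert_length] at h2
    rw [hp] at h1 h2 h3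
    exact ⟨h1, by simpa using h2, h3⟩
  obtain ⟨cA, hcAlip, hcAr, hcAK⟩ := exists_guard_fun hconn hrR' v K
    (by
      rintro ⟨x1, x2⟩ ⟨b, hb, -, hx, -⟩
      simp only at hb hx ⊢
      exact ⟨hx, by omega⟩)
    (by
      rintro ⟨x1, x2⟩ ⟨b, hb, hbl, hx, hxb⟩ ⟨y1, y2⟩ ⟨b', hb', hbl', hy, hyb⟩
      simp only at hb hx hxb hb' hy hyb ⊢
      subst hb hb'
      rcases Nat.lt_or_ge b b' with hlt | hge
      · obtain ⟨p, hp, hpR⟩ := D_spec hconn hx hy
        have := hdet b b' (D H R' x2 y2 + 2) hlt hbl'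
          ⟨Walk.cons hxb.symm (p.concat hyb), by
            rw [Walk.length_cons, Walk.length_concat, hp], by omega, by
            intro k h0 h1
            obtain ⟨k, rfl⟩ : ∃ l, k = l + 1 := ⟨k - 1, by omega⟩
            rw [Walk.getVert_cons_succ, Walk.concat_eq_append, Walk.getVert_append']
            rw [if_pos (by omega)]
            exact hR'S (hpR _ (p.getVert_mem_support k))⟩
        omega
      · have : (0 : ℤ) ≤ D H R' x2 y2 := Int.natCast_nonneg _
        omega)
    (by
      rintro ⟨x1, x2⟩ ⟨b, hb, hbl, hx, hxb⟩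
      simp only at hb hx hxb ⊢
      subst hb
      obtain ⟨g1, g2, g3⟩ := hDgain hrR' hx
      rw [abs_le] at g2 g3
      rcases Nat.lt_or_ge b ks with hlt | hge
      · -- the first part
        have : (0 : ℤ) ≤ D H R' r x2 := Int.natCast_nonneg _
        have : (b : ℤ) ≤ c₀ := by omega
        linarith
      · rcases Nat.lt_or_ge kt b with hlt' | hle'
        · -- the last part
          by_contra hcon
          push Not at hcon
          have e1 := abs_le.mp (hlip b A.length hbl le_rfl)
          rw [hun] at e1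
          have e2 := abs_le.mp (C.lip _ _ hxb)
          have e3 : (D H R' r x2 : ℤ) - (C.u x2 - C.u r) + 1 ≤ 2 * c₀ + 2 := by
            linarith
          have e4 : (T : ℤ) * (D H R' r x2 - (C.u x2 - C.u r) + 1) ≤ TT :=
            mul_le_mul_of_nonneg_left e3 (by positivity)
          have e5 : (kt : ℤ) + 1 ≤ b := by exact_mod_cast hlt'
          linarith
        · have := hsp.mid b hge hle'
          rw [this] at hxb
          rcases hX.pL.cov x2 (hR'R hx) _ trivial hxb with h | h <;> linarith)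
    (by
      rintro ⟨x1, x2⟩ ⟨b, hb, hbl, hx, hxb⟩
      simp only at hb hx hxb ⊢
      subst hb
      obtain ⟨g1, g2, g3⟩ := hDgain hx hrR'
      rw [abs_le] at g2 g3
      rcases Nat.lt_or_ge b ks with hlt | hge
      · -- the first part
        by_contra hcon
        push Not at hcon
        have e1 := abs_le.mp (hlip 0 b (Nat.zero_le _) hbl)
        rw [hu0] at e1
        push_cast at e1
        have e2 := abs_le.mp (C.lip _ _ hxb)
        have e5 : (b : ℤ) + 1 ≤ ks := by exact_mod_cast hlt
        have e3 : (D H R' x2 r : ℤ) - (C.u r - C.u x2) + 1 ≤ 2 * c₀ + 2 := by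
          linarith
        have e4 : (T : ℤ) * (D H R' x2 r - (C.u r - C.u x2) + 1) ≤ TT :=
          mul_le_mul_of_nonneg_left e3 (by positivity)
        linarith
      · rcases Nat.lt_or_ge kt b with hlt' | hle'
        · -- the last part
          have e5 : (kt : ℤ) + 1 ≤ b := by exact_mod_cast hlt'
          have : (0 : ℤ) ≤ D H R' x2 r := Int.natCast_nonneg _
          linarith
        · have := hsp.mid b hge hle'
          rw [this] at hxb
          rcases hX.pL.cov x2 (hR'R hx) _ trivial hxb with h | h <;> linarith)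
  -- the walk `A` as a line
  set Af : ℤ → W := fun t => A.getVert t.toNat with hAf
  have hAfstep : ∀ t, Step H (Af t) (Af (t + 1)) := by
    intro t
    simp only [hAf]
    rcases lt_or_ge t 0 with h | h
    · left
      rw [show t.toNat = 0 by omega, show (t + 1).toNat = 0 by omega]
    · rw [show (t + 1).toNat = t.toNat + 1 by omega]
      rcases Nat.lt_or_ge t.toNat A.length with h' | h'
      · exact Or.inr (A.adj_getVert_succ h')
      · left
        rw [A.getVert_of_length_le h', A.getVert_of_length_le (by omega)]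
  have hUstep : ∀ t, Step H (U t) (U (t + 1)) := fun t => Or.inr (hcalU.adj t)
  -- the locked cops
  have hv0 : (ks : ℤ) ≤ v := by linarith [hks1.2]
  have hv1 : v + 1 ≤ kt := by linarith [hkt1.2]
  have hAv : Af v = L (cL r) := by
    simp only [hAf]
    rw [hsp.mid v.toNat (by omega) (by omega)]
    congr 1
    rw [Int.toNat_of_nonneg (by omega), hv]
    ring
  have hAv1 : Af (v + 1) = L (cL r + 1) := by
    simp only [hAf]
    rw [hsp.mid (v + 1).toNat (by omega) (by omega)]
    congr 1
    rw [Int.toNat_of_nonneg (by omega), hv]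
    ring
  have hfun : (fun i => appF (pair π Af cA) (pair π U cU) i r) =
      fun i => appF (pair π L cL) (pair π U cU) i r := by
    funext i
    refine Fin.addCases (fun i => ?_) (fun i => ?_) i
    · simp only [appF, Fin.append_left]
      fin_cases i
      · change π (Af (cA r)) = π (L (cL r))
        rw [hcAr, hAv]
      · change π (Af (cA r + 1)) = π (L (cL r + 1))
        rw [hcAr, hAv1]
    · simp only [appF, Fin.append_right]
  have hsubR : ∀ x ∈ R', ∀ y ∈ R', H.Adj x y → x ∈ R ∧ y ∈ R := fun x hx y hy _ =>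
    ⟨hR'R hx, hR'R hy⟩
  have hoff := fun w (hw : w ∈ R') => hS.ins_off hX hn0 hB (hR'S hw)
  refine ⟨R', U j, U (j + n), A, B, pair π Af cA, pair π U cU, ⟨?_, ?_, ?_, ?_, ?_, ?_, ?_⟩,
    hrR', ?_⟩
  · -- `Cyc`
    refine ⟨?_, hsp.path, hB.isPath hcalU, ?_, ?_, ⟨S, hS.reg, hR'S⟩, ?_,
      fun w hw => (hoff w hw).1, fun w hw => (hoff w hw).2, ?_, hconn⟩
    · intro h
      have := hcalU.lev j
      rw [h, hcalU.lev] at this
      omega
    · intro w hw hw'
      obtain ⟨k, rfl, hk⟩ := Walk.mem_support_iff_exists_getVert.mp hw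
      obtain ⟨t, -, -, ht⟩ := (hB.mem_support _).mp hw'
      rcases Nat.eq_zero_or_pos k with h0 | h0
      · left; rw [h0, Walk.getVert_zero]
      · rcases hk.lt_or_eq with h1 | h1
        · exact absurd ht (hsp.off hX h0 h1 t)
        · right; rw [h1, Walk.getVert_length]
    · rw [hB.len]; omega
    · intro x hx w hxw
      rcases hS.ins_adj hX hn0 hB (hR'S hx) hxw with h | h | h
      · exact Or.inl (comp_adj hx hxw h)
      · exact Or.inr (Or.inl h)
      · exact Or.inr (Or.inr h)
    · exact (hS.ins_finite hX hn0 hB).subset hR'S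
  · -- `sA`
    intro a b m hab hb hd
    exact hdet a b m hab hb (Det.mono hR'S hd)
  · -- `sB`
    intro a b m hab hb _ hd
    obtain ⟨p, hp, hm, hpR⟩ := Det.mono hR'R hd
    rw [hB.len] at hb
    have ea : B.getVert a = U (j + a) := hB.val a (by omega)
    have eb : B.getVert b = U (j + b) := hB.val b hb
    have e1 : C.u (p.getVert 0) = j + a := by rw [Walk.getVert_zero, ea, hcalU.lev]
    have e2 : C.u (p.getVert p.length) = j + b := by rw [Walk.getVert_length, eb, hcalU.lev]
    have e3 := (abs_le.mp (lip_walk C.lip p p.length (Nat.zero_le _) le_rfl)).2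
    rw [e1, e2, hp] at e3
    push_cast at e3
    rcases Nat.lt_or_ge (b - a) m with h | h
    · exact h
    · exfalso
      have hmba : (m : ℤ) = b - a := by omega
      refine no_detour hX.nU (fun k => p.getVert k) m (j + a) hm (by rw [Walk.getVert_zero, ea])
        (by
          have : p.getVert m = B.getVert b := by rw [← hp, Walk.getVert_length]
          rw [this, eb, hmba]
          congr 1
          ring) hpR
        (fun k hk => p.adj_getVert_succ (by omega)) (fun k hk => ?_)
      have h1 := (abs_le.mp (lip_walk C.lip p k (Nat.zero_le _) (by omega))).2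
      have h2 := (abs_le.mp (lip_walk C.lip p p.length (show k ≤ p.length by omega) le_rfl)).2
      rw [e1] at h1
      rw [e2, hp] at h2
      push_cast at h1
      omega
  · -- `lipg`
    intro a x hx y hy hxy
    have h1 := hcAlip x hx y hy hxy
    fin_cases a
    · exact (step_of_lip hAfstep h1).map C.cover
    · exact (step_of_lip hAfstep (by simpa using h1)).map C.cover
  · -- `lipe`
    intro a x hx y hy hxy
    have h1 := hX.pU.lip x (hR'R hx) y (hR'R hy) hxy
    fin_cases a
    · exact (step_of_lip hUstep h1).map C.cover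
    · exact (step_of_lip hUstep (by simpa using h1)).map C.cover
  · -- `covA`
    intro x hx w hw hxw
    obtain ⟨b, rfl, hb⟩ := Walk.mem_support_iff_exists_getVert.mp hw
    obtain ⟨h1, h2⟩ := hcAK (b, x) ⟨b, rfl, hb, hx, hxw⟩
    simp only at h1 h2
    rcases h2.lt_or_eq with h | h
    · refine ⟨1, ?_⟩
      change π (Af (cA x + 1)) = _
      rw [show cA x + 1 = b by omega]
      simp [hAf]
    · refine ⟨0, ?_⟩
      change π (Af (cA x)) = _
      rw [h]
      simp [hAf]
  · -- `covB`
    intro x hx w hw hxw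
    obtain ⟨t, -, -, rfl⟩ := (hB.mem_support _).mp hw
    right; right
    rcases hX.pU.cov x (hR'R hx) t trivial hxw with h | h
    · exact ⟨0, by rw [h]; rfl⟩
    · exact ⟨1, by rw [h]; rfl⟩
  · rw [hfun]
    exact hocc

end SCtx

end Pool.Agent.MP_f5837d_co
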