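import Pool.Agent.Lib.MP_f5837d_co.P3

set_option autoImplicit false

namespace Pool.Agent.MP_f5837d_co

open SimpleGraph

variable {V W : Type*} {G : SimpleGraph V} {H : SimpleGraph W} {π : W → V}

/-! ## The states of the endgame -/

/-- There is a walk of length `n` from `a` to `b` whose interior vertices are in `R`. -/
def Det (H : SimpleGraph W) (R : Set W) (a b : W) (n : ℕ) : Prop :=
  ∃ p : H.Walk a b, p.length = n ∧ 2 ≤ n ∧ ∀ k, 0 < k → k < n → p.getVert k ∈ R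

/-- The state `X`: pairs on both paths. -/
structure XState (G : SimpleGraph V) (π : W → V) (ρ : RotationSystem H) (R : Set W) {x y : W}
    (A B : H.Walk x y) (g e : Fin 2 → W → V) : Prop where
  cyc : Cyc ρ R A B
  sA : ∀ i j n : ℕ, i < j → j ≤ A.length → Det H R (A.getVert i) (A.getVert j) n → j - i < n
  sB : ∀ i j n : ℕ, i < j → j ≤ B.length → ¬ (i = 0 ∧ j = B.length) →
    Det H R (B.getVert i) (B.getVert j) n → j - i < n
  lipg : ∀ a, ∀ r ∈ R, ∀ r' ∈ R, H.Adj r r' → Step G (g a r) (g a r')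
  lipe : ∀ a, ∀ r ∈ R, ∀ r' ∈ R, H.Adj r r' → Step G (e a r) (e a r')
  covA : ∀ r ∈ R, ∀ w ∈ A.support, H.Adj r w → ∃ a, g a r = π w
  covB : ∀ r ∈ R, ∀ w ∈ B.support, H.Adj r w → w = x ∨ w = y ∨ ∃ a, e a r = π w

/-- The state `Y`: a trio on the path `A = P[i₀ .. i₀ + |A|]`, a pair on `B`. -/
structure YState (G : SimpleGraph V) (π : W → V) (ρ : RotationSystem H) (R : Set W) {x y : W}
    (A B : H.Walk x y) (P : ℤ → W) (i₀ : ℤ) (s : W → ℤ) (e : Fin 2 → W → V) : Prop where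
  cyc : Cyc ρ R A B
  walk : ∀ t, Step H (P t) (P (t + 1))
  hP : ∀ k : ℕ, k ≤ A.length → P (i₀ + k) = A.getVert k
  pot : Potential H R P (Set.Icc i₀ (i₀ + A.length)) s
  sB : ∀ i j n : ℕ, i < j → j ≤ B.length → ¬ (i = 0 ∧ j = B.length) →
    Det H R (B.getVert i) (B.getVert j) n → j - i < n
  lipe : ∀ a, ∀ r ∈ R, ∀ r' ∈ R, H.Adj r r' → Step G (e a r) (e a r')
  covB : ∀ r ∈ R, ∀ w ∈ B.support, H.Adj r w → w = x ∨ w = y ∨ ∃ a, e a r = π w

/-- The state `S1`: at most one vertex is adjacent to the territory. -/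
structure SState (H : SimpleGraph W) (R : Set W) (x : W) : Prop where
  fin : R.Finite
  conn : ∀ r ∈ R, ∀ r' ∈ R, ∃ p : H.Walk r r', ∀ w ∈ p.support, w ∈ R
  hx : x ∉ R
  nbr : ∀ r ∈ R, ∀ w, H.Adj r w → w ∈ R ∨ w = x

/-- The state `E`: at most two vertices are adjacent to the territory, and there is a path `B`
between them that avoids the territory. -/
structure EState (H : SimpleGraph W) (R : Set W) {x y : W} (B : H.Walk x y) : Prop where
  fin : R.Finite
  conn : ∀ r ∈ R, ∀ r' ∈ R, ∃ p : H.Walk r r', ∀ w ∈ p.support, w ∈ R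
  ne : x ≠ y
  hB : B.IsPath
  offB : ∀ r ∈ R, r ∉ B.support
  nbr : ∀ r ∈ R, ∀ w, H.Adj r w → w ∈ R ∨ w = x ∨ w = y

/-- A good position of size less than `n`, or a position in which the robber is surrounded. -/
def GoodPos (G : SimpleGraph V) (H : SimpleGraph W) (π : W → V) (ρ : RotationSystem H) (n : ℕ)
    (r : W) (c : Fin 7 → V) : Prop :=
  (∀ y, H.Adj r y → ∃ i, c i = π y) ∨
  (∃ (R : Set W) (x : W), R.ncard < n ∧ SState H R x ∧ Locked R ![fun _ => π x] r c) ∨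
  (∃ (R : Set W) (x y : W) (B : H.Walk x y), R.ncard < n ∧ EState H R B ∧
    Locked R ![fun _ => π x, fun _ => π y] r c) ∨
  (∃ (R : Set W) (x y : W) (A B : H.Walk x y) (g e : Fin 2 → W → V), R.ncard < n ∧
    XState G π ρ R A B g e ∧ Locked R (appF g e) r c) ∨
  (∃ (R : Set W) (x y : W) (A B : H.Walk x y) (P : ℤ → W) (i₀ : ℤ) (s : W → ℤ)
    (e : Fin 2 → W → V), R.ncard < n ∧
    YState G π ρ R A B P i₀ s e ∧ Locked R (appF (trio π P s) e) r c)


end Pool.Agent.MP_f5837d_co
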