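import Pool.Agent.Lib.MP_f5837d_co.LB
import Pool.Agent.Lib.MP_f5837d_co.DDefs

/-!
# Closing a strip: definitions
-/

set_option autoImplicit false

namespace Pool.Agent.MP_f5837d_co

open SimpleGraph

variable {V W : Type*} {G : SimpleGraph V} {H : SimpleGraph W} {π : W → V}

namespace CLO

/-- The interior vertices of the walk are in `R` or on `L`. -/
def Adm (R : Set W) (L : ℤ → W) {x y : W} (p : H.Walk x y) : Prop :=
  ∀ k, 0 < k → k < p.length → p.getVert k ∈ R ∨ ∃ t, p.getVert k = L t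

/-- A shortest admissible walk. -/
def Short (R : Set W) (L : ℤ → W) {x y : W} (p : H.Walk x y) : Prop :=
  Adm R L p ∧ ∀ p' : H.Walk x y, Adm R L p' → p.length ≤ p'.length

/-- The shape of a shortest walk: it is on `L` between the indices `ks` and `kt`, and in `R`
otherwise; the parts outside `L` have length at most `c`. -/
structure Shape (R : Set W) (L : ℤ → W) {x y : W} (A : H.Walk x y) (ks kt : ℕ) (s c : ℤ) :
    Prop where
  path : A.IsPath
  pos : 0 < ks
  le : ks ≤ kt
  slt : ks < kt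
  lt : kt < A.length
  mid : ∀ k : ℕ, ks ≤ k → k ≤ kt → A.getVert k = L (s + (k - ks))
  rest : ∀ k, 0 < k → k < A.length → (k < ks ∨ kt < k) → A.getVert k ∈ R
  b1 : (ks : ℤ) ≤ c
  b2 : (A.length : ℤ) - kt ≤ c

/-- `B` is the path along `U` from `U j` to `U (j + n)`. -/
structure Seg (U : ℤ → W) (j : ℤ) (n : ℕ) (B : H.Walk (U j) (U (j + n))) : Prop where
  len : B.length = n
  val : ∀ k : ℕ, k ≤ n → B.getVert k = U (j + k)

/-- `S` is the region between `U` and the walk `A` (below `U`, above `L` and above `A`). -/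
structure Reg [∀ w, Fintype (H.neighborSet w)] (Pl : Plane H) (L U : ℤ → W) {x y : W}
    (A B : H.Walk x y) (S : Set H.Dart) : Prop where
  reg : IsRegion Pl.toRotationSystem ({e | e ∈ A.edges} ∪ {e | e ∈ B.edges}) S
  subL : S ⊆ lft Pl L
  subU : S ⊆ (lft Pl U)ᶜ
  fwd : ∀ d ∈ A.darts, d ∈ S ∧ d.symm ∉ S

end CLO

end Pool.Agent.MP_f5837d_co
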