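import Pool.Agent.Lib.MP_f5837d_co.GDefs

/-! # Task G3: pairs and increasing paths -/

set_option autoImplicit false

namespace Pool.Agent.MP_f5837d_co

open SimpleGraph

variable {V W : Type*} {G : SimpleGraph V} {H : SimpleGraph W} {π : W → V}

namespace G3

theorem toLine_of_arc {R : Set W} {P : ℤ → W} {J : Set ℤ} {s : W → ℤ} {r r' : W}
    (h : Arc H R s r r') (h' : ToLine H R P J s r') : ToLine H R P J s r := by
  obtain ⟨y, h1, h2⟩ := h'
  exact ⟨y, Relation.ReflTransGen.head h h1, h2⟩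

theorem fromLine_of_arc {R : Set W} {P : ℤ → W} {J : Set ℤ} {s : W → ℤ} {r r' : W}
    (h : Arc H R s r r') (h' : FromLine H R P J s r) : FromLine H R P J s r' := by
  obtain ⟨y, h1, h2⟩ := h'
  exact ⟨y, Relation.ReflTransGen.tail h1 h, h2⟩

theorem cTo_cases (H : SimpleGraph W) (R : Set W) (P : ℤ → W) (J : Set ℤ) (s : W → ℤ) (r : W) :
    (ToLine H R P J s r ∧ cTo H R P J s r = s r) ∨
      (¬ ToLine H R P J s r ∧ cTo H R P J s r = s r - 1) := by
  by_cases h : ToLine H R P J s r
  · left; exact ⟨h, by simp only [cTo, if_pos h]⟩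
  · right; exact ⟨h, by simp only [cTo, if_neg h]⟩

theorem cFrom_cases (H : SimpleGraph W) (R : Set W) (P : ℤ → W) (J : Set ℤ) (s : W → ℤ)
    (r : W) :
    (FromLine H R P J s r ∧ cFrom H R P J s r = s r - 1) ∨
      (¬ FromLine H R P J s r ∧ cFrom H R P J s r = s r) := by
  by_cases h : FromLine H R P J s r
  · left; exact ⟨h, by simp only [cFrom, if_pos h]⟩
  · right; exact ⟨h, by simp only [cFrom, if_neg h]⟩

end G3

theorem pairFun_cTo {R : Set W} {P : ℤ → W} {J : Set ℤ} {s : W → ℤ}
    (hs : Potential H R P J s) (hd : NoDet H R P J s) :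
    PairFun H R P J s (cTo H R P J s) := by
  refine ⟨fun r hr r' hr' h => ?_, fun r hr t ht h => ?_, fun r => ?_⟩
  · have h1 := abs_le.1 (hs.lip r hr r' hr' h)
    have e1 : s r' = s r + 1 → ToLine H R P J s r' → ToLine H R P J s r := fun h2 h3 =>
      G3.toLine_of_arc ⟨hr, hr', h, h2⟩ h3
    have e2 : s r = s r' + 1 → ToLine H R P J s r → ToLine H R P J s r' := fun h2 h3 =>
      G3.toLine_of_arc ⟨hr', hr, h.symm, h2⟩ h3
    rw [abs_le]
    rcases G3.cTo_cases H R P J s r with ⟨h2, h3⟩ | ⟨h2, h3⟩ <;>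
      rcases G3.cTo_cases H R P J s r' with ⟨h4, h5⟩ | ⟨h4, h5⟩ <;> rw [h3, h5]
    · omega
    · have : ¬ s r = s r' + 1 := fun h6 => h4 (e2 h6 h2)
      omega
    · have : ¬ s r' = s r + 1 := fun h6 => h2 (e1 h6 h4)
      omega
    · omega
  · have h1 := abs_le.1 (hs.near r hr t ht h)
    rcases G3.cTo_cases H R P J s r with ⟨h2, h3⟩ | ⟨h2, h3⟩
    · have : ¬ t = s r - 1 := fun h4 => hd r hr
        ⟨r, Relation.ReflTransGen.refl, hr, t, ht, h, h4⟩ h2
      omega
    · have : ¬ t = s r + 1 := fun h4 => h2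
        ⟨r, Relation.ReflTransGen.refl, hr, t, ht, h, h4⟩
      omega
  · rcases G3.cTo_cases H R P J s r with ⟨_, h3⟩ | ⟨_, h3⟩
    · exact Or.inr h3
    · exact Or.inl h3

theorem pairFun_cFrom {R : Set W} {P : ℤ → W} {J : Set ℤ} {s : W → ℤ}
    (hs : Potential H R P J s) (hd : NoDet H R P J s) :
    PairFun H R P J s (cFrom H R P J s) := by
  refine ⟨fun r hr r' hr' h => ?_, fun r hr t ht h => ?_, fun r => ?_⟩
  · have h1 := abs_le.1 (hs.lip r hr r' hr' h)
    have e1 : s r' = s r + 1 → FromLine H R P J s r → FromLine H R P J s r' := fun h2 h3 =>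
      G3.fromLine_of_arc ⟨hr, hr', h, h2⟩ h3
    have e2 : s r = s r' + 1 → FromLine H R P J s r' → FromLine H R P J s r := fun h2 h3 =>
      G3.fromLine_of_arc ⟨hr', hr, h.symm, h2⟩ h3
    rw [abs_le]
    rcases G3.cFrom_cases H R P J s r with ⟨h2, h3⟩ | ⟨h2, h3⟩ <;>
      rcases G3.cFrom_cases H R P J s r' with ⟨h4, h5⟩ | ⟨h4, h5⟩ <;> rw [h3, h5]
    · omega
    · have : ¬ s r' = s r + 1 := fun h6 => h4 (e1 h6 h2)
      omega
    · have : ¬ s r = s r' + 1 := fun h6 => h2 (e2 h6 h4)
      omega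
    · omega
  · have h1 := abs_le.1 (hs.near r hr t ht h)
    rcases G3.cFrom_cases H R P J s r with ⟨h2, h3⟩ | ⟨h2, h3⟩
    · have : ¬ t = s r + 1 := fun h4 => hd r hr h2
        ⟨r, Relation.ReflTransGen.refl, hr, t, ht, h, h4⟩
      omega
    · have : ¬ t = s r - 1 := fun h4 => h2
        ⟨r, Relation.ReflTransGen.refl, hr, t, ht, h, h4⟩
      omega
  · rcases G3.cFrom_cases H R P J s r with ⟨_, h3⟩ | ⟨_, h3⟩
    · exact Or.inl h3
    · exact Or.inr h3

/-- An increasing path as a function of the level. -/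
theorem exists_path_of_arc {R : Set W} {s : W → ℤ} {x y : W}
    (h : Relation.ReflTransGen (Arc H R s) x y) (hx : x ∈ R) :
    s x ≤ s y ∧ ∃ q : ℤ → W, q (s x) = x ∧ q (s y) = y ∧
      (∀ t, s x ≤ t → t ≤ s y → q t ∈ R ∧ s (q t) = t) ∧
      ∀ t, s x ≤ t → t < s y → H.Adj (q t) (q (t + 1)) := by
  induction h with
  | refl =>
    refine ⟨le_rfl, fun _ => x, rfl, rfl, fun t h1 h2 => ⟨hx, le_antisymm h1 h2⟩,
      fun t h1 h2 => ?_⟩
    exact absurd h2 (not_lt.2 h1)
  | @tail b c hb hbc ih =>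
    obtain ⟨h1, q, h2, h3, h4, h5⟩ := ih
    obtain ⟨hbR, hcR, hadj, hs⟩ := hbc
    refine ⟨by omega, fun t => if t ≤ s b then q t else c, ?_, ?_, ?_, ?_⟩
    · simp only [if_pos h1]; exact h2
    · simp only [if_neg (show ¬ s c ≤ s b by omega)]
    · intro t h6 h7
      by_cases h8 : t ≤ s b
      · simp only [if_pos h8]; exact h4 t h6 h8
      · simp only [if_neg h8]
        exact ⟨hcR, by omega⟩
    · intro t h6 h7
      by_cases h8 : t + 1 ≤ s b
      · simp only [if_pos h8, if_pos (show t ≤ s b by omega)]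
        exact h5 t h6 (by omega)
      · have h9 : t = s b := by omega
        simp only [if_neg h8, if_pos (show t ≤ s b by omega)]
        rw [h9, h3]
        exact hadj

theorem arc_of_path {R : Set W} {s : W → ℤ} {q : ℤ → W} {a b : ℤ} (hab : a ≤ b)
    (hq : ∀ t, a ≤ t → t ≤ b → q t ∈ R ∧ s (q t) = t)
    (hadj : ∀ t, a ≤ t → t < b → H.Adj (q t) (q (t + 1))) :
    Relation.ReflTransGen (Arc H R s) (q a) (q b) := by
  have key : ∀ n : ℕ, a + n ≤ b → Relation.ReflTransGen (Arc H R s) (q a) (q (a + n)) := by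
    intro n
    induction n with
    | zero => intro _; simpa using Relation.ReflTransGen.refl
    | succ n ih =>
      intro h
      push_cast at h ⊢
      have h1 := ih (by omega)
      have h2 := hq (a + n) (by omega) (by omega)
      have h3 := hq (a + n + 1) (by omega) (by omega)
      have h4 := hadj (a + n) (by omega) (by omega)
      rw [← add_assoc]
      refine h1.tail ⟨h2.1, h3.1, h4, ?_⟩
      rw [h2.2, h3.2]
  have h := key (b - a).toNat (by omega)
  rwa [show a + ((b - a).toNat : ℤ) = b by omega] at h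

theorem noDet_iff {R : Set W} {P : ℤ → W} {J : Set ℤ} {s : W → ℤ} :
    NoDet H R P J s ↔ ∀ q i j, ¬ ZDet H R P J s q i j := by
  constructor
  · intro h q i j hz
    have hij := hz.hij
    have h1 := hz.mem (i + 1) (by omega) (by omega)
    have h2 := hz.mem (j - 1) (by omega) (by omega)
    refine h (q (i + 1)) h1.1 ?_ ?_
    · refine ⟨q (i + 1), Relation.ReflTransGen.refl, h1.1, i, hz.hi, ?_, by omega⟩
      have h3 := hz.adj i le_rfl (by omega)
      rw [hz.out i (Or.inl le_rfl)] at h3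
      exact h3.symm
    · refine ⟨q (j - 1), ?_, h2.1, j, hz.hj, ?_, by omega⟩
      · exact arc_of_path (by omega) (fun t h3 h4 => hz.mem t (by omega) (by omega))
          (fun t h3 h4 => hz.adj t (by omega) (by omega))
      · have h3 := hz.adj (j - 1) (by omega) (by omega)
        rwa [sub_add_cancel, hz.out j (Or.inr le_rfl)] at h3
  · rintro h r hr ⟨y, h1, hy, t, ht, h2, h3⟩ ⟨y', h1', hy', t', ht', h2', h3'⟩
    obtain ⟨h4, q, h5, h6, h7, h8⟩ := exists_path_of_arc (h1.trans h1') hy
    have h9 : ∀ u, t < u → u < t' → (if u ≤ t ∨ t' ≤ u then P u else q u) = q u := by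
      intro u hu hu'
      rw [if_neg]
      omega
    refine h (fun u => if u ≤ t ∨ t' ≤ u then P u else q u) t t' ⟨ht, ht', by omega, ?_, ?_, ?_⟩
    · intro u hu
      simp only [if_pos hu]
    · intro u hu hu'
      simp only [h9 u hu hu']
      exact h7 u (by omega) (by omega)
    · intro u hu hu'
      by_cases h10 : u = t
      · have h11 : (if u ≤ t ∨ t' ≤ u then P u else q u) = P t := by
          rw [if_pos (Or.inl h10.le), h10]
        have h12 : (if u + 1 ≤ t ∨ t' ≤ u + 1 then P (u + 1) else q (u + 1)) = y := by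
          rw [h9 (u + 1) (by omega) (by omega), show u + 1 = s y by omega, h5]
        simp only [h11, h12]
        exact h2.symm
      · have h11 : (if u ≤ t ∨ t' ≤ u then P u else q u) = q u := h9 u (by omega) hu'
        by_cases h13 : u + 1 = t'
        · have h12 : (if u + 1 ≤ t ∨ t' ≤ u + 1 then P (u + 1) else q (u + 1)) = P t' := by
            rw [if_pos (Or.inr h13.ge), h13]
          simp only [h11, h12]
          rw [show u = s y' by omega, h6]
          exact h2'
        · have h12 : (if u + 1 ≤ t ∨ t' ≤ u + 1 then P (u + 1) else q (u + 1)) = q (u + 1) :=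
            h9 (u + 1) (by omega) (by omega)
          simp only [h11, h12]
          exact h8 u (by omega) (by omega)


end Pool.Agent.MP_f5837d_co
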