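import Pool.Agent.Lib.MP_f5837d_co.L1

/-!
# Task L3: runs, periodic lines in a strip, distances (blueprint 5.1, 5.2)

`run_line`: a `u`-increasing path with more vertices than `R` has modulo `A` contains `r` and
`A ^ m r`, which gives an `m`-periodic line `Γ`; compare `Γ` and its translate by `A` (coherent): if
they meet, a piece of `Γ` of length `ℓ` repeats; otherwise `A Γ` is strictly on one side of `Γ`, and
iterating `m` times contradicts `A ^ m Γ = Γ`.
-/

set_option autoImplicit false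

namespace Pool.Agent.MP_f5837d_co

open SimpleGraph

variable {V W : Type*} {G : SimpleGraph V} {H : SimpleGraph W} {π : W → V}
variable [∀ w, Fintype (H.neighborSet w)]

namespace SCtx

variable {C : SCtx G H π}

/-! ### The action of the powers of `A` -/

theorem L3.zadd (n m : ℤ) (w : W) : (C.A ^ (n + m)) w = (C.A ^ n) ((C.A ^ m) w) := by
  rw [zpow_add]; rfl

theorem L3.znegcancel (n : ℤ) (w : W) : (C.A ^ (-n)) ((C.A ^ n) w) = w := by
  rw [← L3.zadd, neg_add_cancel, zpow_zero]; rfl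

theorem L3.zcancelneg (n : ℤ) (w : W) : (C.A ^ n) ((C.A ^ (-n)) w) = w := by
  rw [← L3.zadd, add_neg_cancel, zpow_zero]; rfl

theorem L3.zone (w : W) : (C.A ^ (1 : ℤ)) w = C.A w := by
  rw [zpow_one]

theorem L3.adj_zpow (n : ℤ) {x y : W} (h : H.Adj x y) : H.Adj ((C.A ^ n) x) ((C.A ^ n) y) :=
  (C.A ^ n).map_rel_iff.2 h

theorem L3.mem_zpow {R : Set W} (hR : C.Inv R) (n : ℤ) (w : W) : (C.A ^ n) w ∈ R ↔ w ∈ R := by
  induction n using Int.induction_on with
  | zero => rw [zpow_zero]; rfl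
  | succ i ih =>
    rw [add_comm, L3.zadd, L3.zone, hR]; exact ih
  | pred i ih =>
    have h1 : (C.A ^ (-(i : ℤ))) w = C.A ((C.A ^ (-(i : ℤ) - 1)) w) := by
      rw [← L3.zone (C := C) ((C.A ^ (-(i : ℤ) - 1)) w), ← L3.zadd]
      congr 2
      ring
    rw [← ih, h1, hR]

theorem L3.arc_zpow {R : Set W} (hR : C.Inv R) (n : ℤ) {x y : W} (h : Arc H R C.u x y) :
    Arc H R C.u ((C.A ^ n) x) ((C.A ^ n) y) := by
  obtain ⟨h1, h2, h3, h4⟩ := h
  refine ⟨(L3.mem_zpow hR n x).2 h1, (L3.mem_zpow hR n y).2 h2, L3.adj_zpow n h3, ?_⟩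
  rw [u_zpow, u_zpow, h4]; ring

/-! ### Periodic extension -/

theorem L3.extend {N : ℤ} (hN : 0 < N) {R : Set W} (hR : C.Inv R) (g : ℤ → W) (t0 : ℤ)
    (hmem : ∀ t, t0 ≤ t → t < t0 + N * C.ℓ → g t ∈ R)
    (hlev : ∀ t, t0 ≤ t → t ≤ t0 + N * C.ℓ → C.u (g t) = t)
    (hadj : ∀ t, t0 ≤ t → t < t0 + N * C.ℓ → H.Adj (g t) (g (t + 1)))
    (hclose : g (t0 + N * C.ℓ) = (C.A ^ N) (g t0)) :
    ∃ Γ : ℤ → W, C.Line N R Γ ∧ ∀ t, ∃ q s : ℤ, t0 ≤ s ∧ s < t0 + N * C.ℓ ∧
      Γ t = (C.A ^ q) (g s) := by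
  set D : ℤ := N * C.ℓ with hD
  have hDpos : 0 < D := mul_pos hN C.ℓpos
  have hr : ∀ t, 0 ≤ (t - t0) % D ∧ (t - t0) % D < D := fun t =>
    ⟨Int.emod_nonneg _ hDpos.ne', Int.emod_lt_of_pos _ hDpos⟩
  have hqr : ∀ t, D * ((t - t0) / D) + (t - t0) % D = t - t0 := fun t =>
    Int.mul_ediv_add_emod (t - t0) D
  refine ⟨fun t => (C.A ^ (N * ((t - t0) / D))) (g (t0 + (t - t0) % D)), ⟨⟨?_, ?_⟩, ?_, ?_⟩, ?_⟩
  · -- adjacency
    intro t
    show H.Adj ((C.A ^ (N * ((t - t0) / D))) (g (t0 + (t - t0) % D)))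
      ((C.A ^ (N * ((t + 1 - t0) / D))) (g (t0 + (t + 1 - t0) % D)))
    obtain ⟨h1, h2⟩ := hr t
    have h3 := hqr t
    set q := (t - t0) / D with hq
    set r := (t - t0) % D with hrr
    rcases lt_or_ge (r + 1) D with h4 | h4
    · have e1 : t + 1 - t0 = (r + 1) + D * q := by linarith
      have e2 : (t + 1 - t0) / D = q := by
        rw [e1, Int.add_mul_ediv_left _ _ hDpos.ne', Int.ediv_eq_zero_of_lt (by omega) h4]
        ring
      have e3 : (t + 1 - t0) % D = r + 1 := by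
        rw [e1, Int.add_mul_emod_self_left, Int.emod_eq_of_lt (by omega) h4]
      rw [e2, e3]
      apply L3.adj_zpow
      have := hadj (t0 + r) (by omega) (by omega)
      rwa [add_assoc] at this
    · have h5 : r + 1 = D := by omega
      have e1 : t + 1 - t0 = 0 + D * (q + 1) := by linarith
      have e2 : (t + 1 - t0) / D = q + 1 := by
        rw [e1, Int.add_mul_ediv_left _ _ hDpos.ne', Int.ediv_eq_zero_of_lt (by omega) hDpos]
        ring
      have e3 : (t + 1 - t0) % D = 0 := by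
        rw [e1, Int.add_mul_emod_self_left, Int.emod_eq_of_lt (by omega) hDpos]
      rw [e2, e3, mul_add, mul_one, L3.zadd, add_zero, ← hclose]
      apply L3.adj_zpow
      have := hadj (t0 + r) (by omega) (by omega)
      rwa [add_assoc, h5] at this
  · -- level
    intro t
    show C.u ((C.A ^ (N * ((t - t0) / D))) (g (t0 + (t - t0) % D))) = t
    obtain ⟨h1, h2⟩ := hr t
    have h3 := hqr t
    rw [u_zpow, hlev _ (by omega) (by omega)]
    have : N * ((t - t0) / D) * C.ℓ = D * ((t - t0) / D) := by rw [hD]; ring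
    rw [this]
    linarith
  · -- period
    intro t
    show (C.A ^ (N * ((t + D - t0) / D))) (g (t0 + (t + D - t0) % D)) =
      (C.A ^ N) ((C.A ^ (N * ((t - t0) / D))) (g (t0 + (t - t0) % D)))
    have e1 : t + D - t0 = (t - t0) + D * 1 := by ring
    have e2 : (t + D - t0) / D = (t - t0) / D + 1 := by
      rw [e1, Int.add_mul_ediv_left _ _ hDpos.ne']
    have e3 : (t + D - t0) % D = (t - t0) % D := by
      rw [e1, Int.add_mul_emod_self_left]
    rw [e2, e3, ← L3.zadd]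
    congr 2
    ring
  · -- membership
    intro t
    obtain ⟨h1, h2⟩ := hr t
    exact (L3.mem_zpow hR _ _).2 (hmem _ (by omega) (by omega))
  · intro t
    obtain ⟨h1, h2⟩ := hr t
    exact ⟨_, _, by omega, by omega, rfl⟩

/-! ### A periodic line gives an `A`-periodic line on the vertices of its translates -/

theorem L3.translates_meet {m : ℤ} (hm : 0 < m) {R : Set W} (hR : C.Inv R) {Γ : ℤ → W}
    (hΓ : C.Line m R Γ) : ∃ t, Γ t = C.A (Γ (t - C.ℓ)) := by
  by_contra hcon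
  push Not at hcon
  -- the translates
  set T : ℤ → ℤ → W := fun k t => (C.A ^ k) (Γ (t - k * C.ℓ)) with hT
  have hTl : ∀ k, C.Line m R (T k) := fun k => hΓ.translate hR k
  have hTcoh : ∀ k l, Coherent C.Pl (T k) (T l) := fun k l =>
    C.coh m hm _ _ (hTl k).cal (hTl l).cal (hTl k).per (hTl l).per
  have hT0 : T 0 = Γ := by
    funext t
    simp only [hT, zpow_zero, zero_mul, sub_zero]
    rfl
  have hT1 : T 1 = fun t => C.A (Γ (t - C.ℓ)) := by
    funext t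
    simp only [hT, one_mul, zpow_one]
  have hTm : T m = Γ := by
    funext t
    have := hΓ.per (t - m * C.ℓ)
    simp only [hT]
    rw [← this]
    congr 1
    ring
  have hcurve : ∀ k, IsCurve H (T k) := fun k => (hTl k).cal.isCurve
  have hrot : ∀ k : ℤ, RotComm C.Pl.toRotationSystem (C.A ^ k) := fun k =>
    rotComm_zpow _ C.rotA k
  have hshift : ∀ (k : ℤ) (t : ℤ), T (k + 1) t = (C.A ^ k) (T 1 (t - k * C.ℓ)) := by
    intro k t
    simp only [hT]
    rw [L3.zadd]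
    congr 3
    ring
  rcases strict_of_disjoint C.hH C.Pl C.lip (hTl 0).cal (hTl 1).cal (hTcoh 0 1)
    (by intro t; rw [hT0, hT1]; exact hcon t) with h | h
  · -- `T 1` is above `T 0`
    have hup : ∀ k t, T (k + 1) t ∈ Up C.Pl (T k) := by
      intro k t
      rw [hshift]
      have h1 := (up_map C.hH C.Pl (hrot k) hΓ.cal.isCurve (k * C.ℓ) (T 1 (t - k * C.ℓ))).2
        (by rw [← hT0]; exact h _)
      exact h1
    have hsub : ∀ k, lft C.Pl (T (k + 1)) ⊆ lft C.Pl (T k) := fun k =>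
      (le_iff C.hH C.Pl C.lip (hTl k).cal (hTl (k + 1)).cal (hTcoh _ _)).1
        (fun t => Or.inr (hup k t))
    have hsub2 : ∀ n : ℕ, lft C.Pl (T (1 + n)) ⊆ lft C.Pl (T 1) := by
      intro n
      induction n with
      | zero => simp
      | succ n ih =>
        have := hsub (1 + n)
        have e : (1 : ℤ) + ((n + 1 : ℕ) : ℤ) = 1 + n + 1 := by push_cast; ring
        rw [e]
        exact this.trans ih
    have h3 : lft C.Pl (T 0) ⊆ lft C.Pl (T 1) := by
      have := hsub2 (m - 1).toNat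
      have e : (1 : ℤ) + ((m - 1).toNat : ℤ) = m := by omega
      rw [e, hTm, ← hT0] at this
      exact this
    have h4 := hup 0 0
    have h5 : T (0 + 1) 0 ∈ Up C.Pl (T 1) := fun d hd => h3 (h4 d hd)
    exact line_not_up C.hH C.Pl (hcurve 1) 0 h5
  · -- `T 0` is above `T 1`
    have hup : ∀ k t, T k t ∈ Up C.Pl (T (k + 1)) := by
      intro k t
      have e0 : T k t = (C.A ^ k) (T 0 (t - k * C.ℓ)) := by
        rw [hT0]
      have e1 : T (k + 1) = fun t => (C.A ^ k) (T 1 (t - k * C.ℓ)) := by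
        funext t; exact hshift k t
      rw [e0, e1]
      exact (up_map C.hH C.Pl (hrot k) (hcurve 1) (k * C.ℓ) (T 0 (t - k * C.ℓ))).2 (h _)
    have hsub : ∀ k, lft C.Pl (T k) ⊆ lft C.Pl (T (k + 1)) := fun k =>
      (le_iff C.hH C.Pl C.lip (hTl (k + 1)).cal (hTl k).cal (hTcoh _ _)).1
        (fun t => Or.inr (hup k t))
    have hsub2 : ∀ n : ℕ, lft C.Pl (T 1) ⊆ lft C.Pl (T (1 + n)) := by
      intro n
      induction n with
      | zero => simp
      | succ n ih =>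
        have := hsub (1 + n)
        have e : (1 : ℤ) + ((n + 1 : ℕ) : ℤ) = 1 + n + 1 := by push_cast; ring
        rw [e]
        exact ih.trans this
    have h3 : lft C.Pl (T 1) ⊆ lft C.Pl (T 0) := by
      have := hsub2 (m - 1).toNat
      have e : (1 : ℤ) + ((m - 1).toNat : ℤ) = m := by omega
      rw [e, hTm, ← hT0] at this
      exact this
    have h4 := hup 0 0
    have h5 : T 0 0 ∈ Up C.Pl (T 0) := fun d hd => h3 (h4 d hd)
    exact line_not_up C.hH C.Pl (hcurve 0) 0 h5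

theorem run_line {R : Set W} (hR : C.Inv R) (hfin : C.FinMod R) :
    ∃ T : ℕ, ∀ p : ℕ → W, (∀ k ≤ T, p k ∈ R) →
      (∀ k < T, H.Adj (p k) (p (k + 1)) ∧ C.u (p (k + 1)) = C.u (p k) + 1) →
      ∃ k ≤ T, ∃ Λ : ℤ → W, C.Line 1 R Λ ∧
        ∃ t, Relation.ReflTransGen (Arc H R C.u) (p k) (Λ t) := by
  classical
  have hℓ := C.ℓpos
  set Z := hfin.toFinset with hZ
  refine ⟨Z.card, ?_⟩
  intro p hp hstep
  have hu : ∀ k ≤ Z.card, C.u (p k) = C.u (p 0) + k := by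
    intro k
    induction k with
    | zero => intro _; simp
    | succ k ih =>
      intro hk
      rw [(hstep k (by omega)).2, ih (by omega)]
      push_cast; ring
  -- pigeonhole
  let f : ℕ → W := fun k => (C.A ^ (-(C.u (p k) / C.ℓ))) (p k)
  have hf : ∀ k ∈ Finset.range (Z.card + 1), f k ∈ Z := by
    intro k hk
    rw [Finset.mem_range] at hk
    rw [hZ, Set.Finite.mem_toFinset]
    refine ⟨(L3.mem_zpow hR _ _).2 (hp k (by omega)), ?_, ?_⟩
    · show 0 ≤ C.u ((C.A ^ (-(C.u (p k) / C.ℓ))) (p k))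
      rw [u_zpow]
      have := Int.emod_nonneg (C.u (p k)) hℓ.ne'
      have h2 := Int.mul_ediv_add_emod (C.u (p k)) C.ℓ
      linarith
    · show C.u ((C.A ^ (-(C.u (p k) / C.ℓ))) (p k)) < C.ℓ
      rw [u_zpow]
      have := Int.emod_lt_of_pos (C.u (p k)) hℓ
      have h2 := Int.mul_ediv_add_emod (C.u (p k)) C.ℓ
      linarith
  obtain ⟨a, ha, b, hb, hab, hfab⟩ := Finset.exists_ne_map_eq_of_card_lt_of_maps_to
    (by rw [Finset.card_range]; omega) hf
  have key : ∀ k₁ k₂ : ℕ, k₁ < k₂ → k₂ ≤ Z.card → f k₁ = f k₂ →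
      ∃ k ≤ Z.card, ∃ Λ : ℤ → W, C.Line 1 R Λ ∧
        ∃ t, Relation.ReflTransGen (Arc H R C.u) (p k) (Λ t) := by
    intro k₁ k₂ hlt hle hff
    set m : ℤ := C.u (p k₂) / C.ℓ - C.u (p k₁) / C.ℓ with hm
    have hpm : p k₂ = (C.A ^ m) (p k₁) := by
      have h1 : (C.A ^ (C.u (p k₂) / C.ℓ)) (f k₁) = (C.A ^ (C.u (p k₂) / C.ℓ)) (f k₂) := by
        rw [hff]
      simp only [f] at h1
      rw [L3.zcancelneg, ← L3.zadd] at h1
      rw [← h1]
      rfl
    have hul : C.u (p k₂) = C.u (p k₁) + m * C.ℓ := by rw [hpm, u_zpow]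
    have h1 := hu k₁ (by omega)
    have h2 := hu k₂ hle
    have hml : m * C.ℓ = (k₂ : ℤ) - k₁ := by linarith
    have hmpos : 0 < m := by
      by_contra hcon
      have : m * C.ℓ ≤ 0 := mul_nonpos_of_nonpos_of_nonneg (by omega) hℓ.le
      omega
    set t0 := C.u (p k₁) with ht0
    -- the periodic line `Γ`
    obtain ⟨Γ, hΓ, hΓp⟩ := L3.extend (C := C) hmpos hR (fun t => p (k₁ + (t - t0).toNat)) t0
      (by
        intro t h3 h4
        apply hp
        omega)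
      (by
        intro t h3 h4
        show C.u (p (k₁ + (t - t0).toNat)) = t
        rw [hu _ (by omega)]
        push_cast
        omega)
      (by
        intro t h3 h4
        show H.Adj (p (k₁ + (t - t0).toNat)) (p (k₁ + (t + 1 - t0).toNat))
        have e : k₁ + (t + 1 - t0).toNat = k₁ + (t - t0).toNat + 1 := by omega
        rw [e]
        exact (hstep _ (by omega)).1)
      (by
        show p (k₁ + (t0 + m * C.ℓ - t0).toNat) = (C.A ^ m) (p (k₁ + (t0 - t0).toNat))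
        have e : k₁ + (t0 + m * C.ℓ - t0).toNat = k₂ := by omega
        have e2 : k₁ + (t0 - t0).toNat = k₁ := by omega
        rw [e, e2, hpm])
    obtain ⟨t1, ht1⟩ := L3.translates_meet hmpos hR hΓ
    obtain ⟨Λ, hΛ, hΛp⟩ := L3.extend (C := C) one_pos hR Γ (t1 - C.ℓ)
      (fun t _ _ => hΓ.mem t) (fun t _ _ => hΓ.cal.lev t) (fun t _ _ => hΓ.cal.adj t)
      (by
        have e : t1 - C.ℓ + 1 * C.ℓ = t1 := by ring
        rw [e, L3.zone]
        exact ht1)
    -- a vertex of `Λ` is a translate of a vertex of `Γ`, hence of a vertex of `p`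
    obtain ⟨q, s, hs1, hs2, hs3⟩ := hΛp 0
    obtain ⟨q', s', hs1', hs2', hs3'⟩ := hΓp s
    refine ⟨k₁ + (s' - t0).toNat, by omega, Λ, hΛ, -((q + q') * C.ℓ), ?_⟩
    have e : Λ (-((q + q') * C.ℓ)) = p (k₁ + (s' - t0).toNat) := by
      have hper : ∀ n : ℤ, Λ (n * C.ℓ) = (C.A ^ n) (Λ 0) := by
        intro n
        induction n using Int.induction_on with
        | zero => rw [zero_mul, zpow_zero]; rfl
        | succ i ih =>
          have h3 := hΛ.per ((i : ℤ) * C.ℓ)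
          rw [ih] at h3
          have e3 : ((i : ℤ) + 1) * C.ℓ = (i : ℤ) * C.ℓ + 1 * C.ℓ := by ring
          rw [e3, h3, ← L3.zadd]
          congr 2
          ring
        | pred i ih =>
          have h3 := hΛ.per ((-(i : ℤ) - 1) * C.ℓ)
          have e3 : (-(i : ℤ) - 1) * C.ℓ + 1 * C.ℓ = -(i : ℤ) * C.ℓ := by ring
          rw [e3, ih] at h3
          have h4 : (C.A ^ (-1 : ℤ)) ((C.A ^ (-(i : ℤ))) (Λ 0)) =
              (C.A ^ (-1 : ℤ)) ((C.A ^ (1 : ℤ)) (Λ ((-(i : ℤ) - 1) * C.ℓ))) := by rw [h3]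
          rw [L3.znegcancel, ← L3.zadd] at h4
          rw [← h4]
          congr 2
          ring
      have h3 := hper (-(q + q'))
      rw [neg_mul] at h3
      rw [h3, hs3, hs3', ← L3.zadd, ← L3.zadd]
      have e4 : -(q + q') + q + q' = 0 := by ring
      rw [e4, zpow_zero]
      rfl
    rw [e]
  rw [Finset.mem_range] at ha hb
  rcases Nat.lt_or_ge a b with h | h
  · exact key a b h (by omega) hfab
  · exact key b a (by omega) (by omega) hfab.symm

theorem lines_finite {R : Set W} (hfin : C.FinMod R) : {Λ | C.Line 1 R Λ}.Finite := by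
  classical
  have hℓ := C.ℓpos
  set n := C.ℓ.toNat with hn
  set Z : Set W := {w | w ∈ R ∧ 0 ≤ C.u w ∧ C.u w < C.ℓ} with hZ
  have h1 : (Set.pi Set.univ (fun _ : Fin n => Z)).Finite := Set.Finite.pi (fun _ => hfin)
  refine Set.Finite.of_finite_image (f := fun (Λ : ℤ → W) (i : Fin n) => Λ (i : ℤ))
    (h1.subset ?_) ?_
  · rintro g ⟨Λ, hΛ, rfl⟩ i _
    have hi := i.2
    refine ⟨hΛ.mem _, ?_, ?_⟩
    · show 0 ≤ C.u (Λ ((i : ℕ) : ℤ))
      rw [hΛ.cal.lev]; omega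
    · show C.u (Λ ((i : ℕ) : ℤ)) < C.ℓ
      rw [hΛ.cal.lev]; omega
  · intro Λ hΛ Λ' hΛ' heq
    have hper : ∀ Λ : ℤ → W, C.Line 1 R Λ → ∀ (q r : ℤ), Λ (r + q * C.ℓ) = (C.A ^ q) (Λ r) := by
      intro Λ hΛ q r
      induction q using Int.induction_on with
      | zero => rw [zero_mul, zpow_zero, add_zero]; rfl
      | succ i ih =>
        have h3 := hΛ.per (r + (i : ℤ) * C.ℓ)
        rw [ih] at h3
        have e3 : r + ((i : ℤ) + 1) * C.ℓ = r + (i : ℤ) * C.ℓ + 1 * C.ℓ := by ring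
        rw [e3, h3, ← L3.zadd]
        congr 2
        ring
      | pred i ih =>
        have h3 := hΛ.per (r + (-(i : ℤ) - 1) * C.ℓ)
        have e3 : r + (-(i : ℤ) - 1) * C.ℓ + 1 * C.ℓ = r + -(i : ℤ) * C.ℓ := by ring
        rw [e3, ih] at h3
        have h4 : (C.A ^ (-1 : ℤ)) ((C.A ^ (-(i : ℤ))) (Λ r)) =
            (C.A ^ (-1 : ℤ)) ((C.A ^ (1 : ℤ)) (Λ (r + (-(i : ℤ) - 1) * C.ℓ))) := by rw [h3]
        rw [L3.znegcancel, ← L3.zadd] at h4
        rw [← h4]
        congr 2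
        ring
    funext t
    have e : t = t % C.ℓ + (t / C.ℓ) * C.ℓ := by
      have := Int.mul_ediv_add_emod t C.ℓ
      linarith
    have h2 := Int.emod_nonneg t hℓ.ne'
    have h3 := Int.emod_lt_of_pos t hℓ
    rw [e, hper Λ hΛ, hper Λ' hΛ']
    congr 1
    have h4 := congrFun heq ⟨(t % C.ℓ).toNat, by omega⟩
    have e2 : (((t % C.ℓ).toNat : ℕ) : ℤ) = t % C.ℓ := by omega
    simp only [e2] at h4
    exact h4

/-- A line whose reachability class is terminal. -/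
theorem exists_terminal {R : Set W} (hR : C.Inv R) (hfin : C.FinMod R)
    (h : ∃ Λ, C.Line 1 R Λ) :
    ∃ Λ₀, C.Line 1 R Λ₀ ∧ ∀ Λ, C.Line 1 R Λ → C.RL R Λ₀ Λ → C.RL R Λ Λ₀ := by
  classical
  have hF := lines_finite hfin
  obtain ⟨Λ₁, h1⟩ := h
  have hex : ∃ n : ℕ, ∃ Λ₀, C.Line 1 R Λ₀ ∧ {Λ | C.Line 1 R Λ ∧ C.RL R Λ₀ Λ}.ncard = n :=
    ⟨_, Λ₁, h1, rfl⟩
  obtain ⟨Λ₀, h0, hn⟩ := Nat.find_spec hex
  refine ⟨Λ₀, h0, ?_⟩
  intro Λ hΛ hr
  have hsub : {M | C.Line 1 R M ∧ C.RL R Λ M} ⊆ {M | C.Line 1 R M ∧ C.RL R Λ₀ M} := by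
    rintro M ⟨hM, hM2⟩
    exact ⟨hM, rl_trans hR one_pos one_pos hΛ hM hr hM2⟩
  have hfin0 : {M | C.Line 1 R M ∧ C.RL R Λ₀ M}.Finite := hF.subset (fun M hM => hM.1)
  have hle : {M | C.Line 1 R M ∧ C.RL R Λ₀ M}.ncard ≤ {M | C.Line 1 R M ∧ C.RL R Λ M}.ncard := by
    rw [hn]
    exact Nat.find_min' hex ⟨Λ, hΛ, rfl⟩
  have heq := Set.eq_of_subset_of_ncard_le hsub hle hfin0
  have hmem : Λ₀ ∈ {M | C.Line 1 R M ∧ C.RL R Λ₀ M} := ⟨h0, rl_refl h0⟩
  rw [← heq] at hmem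
  exact hmem.2

/-- The vertices of `R` are within bounded distance of every periodic line. -/
theorem exists_rho {R : Set W} (hR : C.Inv R) (hfin : C.FinMod R) {K : ℤ → W}
    (hK : C.Line 1 Set.univ K) :
    ∃ ρ : ℕ, ∀ w ∈ R, ∃ (t : ℤ) (p : H.Walk w (K t)), p.length ≤ ρ := by
  classical
  have hℓ := C.ℓpos
  have hwalk : ∀ w : W, ∃ n : ℕ, ∃ p : H.Walk w (K 0), p.length = n := fun w =>
    ⟨_, (C.hH.preconnected w (K 0)).some, rfl⟩
  choose len hlen using hwalk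
  obtain ⟨ρ, hρ⟩ := (Set.Finite.image len hfin).bddAbove
  refine ⟨ρ, ?_⟩
  intro w hw
  set n := C.u w / C.ℓ with hn
  set z := (C.A ^ (-n)) w with hz
  have hzZ : z ∈ {w | w ∈ R ∧ 0 ≤ C.u w ∧ C.u w < C.ℓ} := by
    refine ⟨(L3.mem_zpow hR _ _).2 hw, ?_, ?_⟩
    · rw [hz, u_zpow]
      have := Int.emod_nonneg (C.u w) hℓ.ne'
      have h2 := Int.mul_ediv_add_emod (C.u w) C.ℓ
      linarith
    · rw [hz, u_zpow]
      have := Int.emod_lt_of_pos (C.u w) hℓ
      have h2 := Int.mul_ediv_add_emod (C.u w) C.ℓ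
      linarith
  obtain ⟨p, hp⟩ := hlen z
  have hle : p.length ≤ ρ := by
    rw [hp]
    exact hρ ⟨z, hzZ, rfl⟩
  let p' := p.map (C.A ^ n).toHom
  have e1 : (C.A ^ n).toHom z = w := by
    show (C.A ^ n) z = w
    rw [hz, L3.zcancelneg]
  have hper : ∀ n : ℤ, K (n * C.ℓ) = (C.A ^ n) (K 0) := by
    intro n
    induction n using Int.induction_on with
    | zero => rw [zero_mul, zpow_zero]; rfl
    | succ i ih =>
      have h3 := hK.per ((i : ℤ) * C.ℓ)
      rw [ih] at h3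
      have e3 : ((i : ℤ) + 1) * C.ℓ = (i : ℤ) * C.ℓ + 1 * C.ℓ := by ring
      rw [e3, h3, ← L3.zadd]
      congr 2
      ring
    | pred i ih =>
      have h3 := hK.per ((-(i : ℤ) - 1) * C.ℓ)
      have e3 : (-(i : ℤ) - 1) * C.ℓ + 1 * C.ℓ = -(i : ℤ) * C.ℓ := by ring
      rw [e3, ih] at h3
      have h4 : (C.A ^ (-1 : ℤ)) ((C.A ^ (-(i : ℤ))) (K 0)) =
          (C.A ^ (-1 : ℤ)) ((C.A ^ (1 : ℤ)) (K ((-(i : ℤ) - 1) * C.ℓ))) := by rw [h3]
      rw [L3.znegcancel, ← L3.zadd] at h4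
      rw [← h4]
      congr 2
      ring
  have e2 : (C.A ^ n).toHom (K 0) = K (n * C.ℓ) := (hper n).symm
  refine ⟨n * C.ℓ, p'.copy e1 e2, ?_⟩
  simp only [Walk.length_copy, p', Walk.length_map]
  exact hle

end SCtx

end Pool.Agent.MP_f5837d_co

/-!
# Task L4a: substrips (blueprint 5.3)
-/


namespace Pool.Agent.MP_f5837d_co

open SimpleGraph

variable {V W : Type*} {G : SimpleGraph V} {H : SimpleGraph W} {π : W → V}
variable [∀ w, Fintype (H.neighborSet w)]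

namespace SCtx

variable {C : SCtx G H π}

namespace L4a

theorem per_eq {R : Set W} {K : ℤ → W} (hK : C.Line 1 R K) :
    (fun t => C.A (K (t - C.ℓ))) = K := by
  funext t
  have := hK.per (t - C.ℓ)
  rw [one_mul, zpow_one] at this
  rw [← this]
  congr 1
  ring

theorem a_up {R : Set W} {K : ℤ → W} (hK : C.Line 1 R K) (w : W) :
    C.A w ∈ Up C.Pl K ↔ w ∈ Up C.Pl K := by
  have h := up_map C.hH C.Pl C.rotA hK.cal.isCurve C.ℓ w
  rwa [per_eq hK] at h

theorem a_down {R : Set W} {K : ℤ → W} (hK : C.Line 1 R K) (w : W) :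
    C.A w ∈ Down C.Pl K ↔ w ∈ Down C.Pl K := by
  have h := down_map C.hH C.Pl C.rotA hK.cal.isCurve C.ℓ w
  rwa [per_eq hK] at h

omit [∀ w, Fintype (H.neighborSet w)] in
theorem noDet_mono {R R' : Set W} (h : R' ⊆ R) {P : ℤ → W} {J : Set ℤ} {s : W → ℤ}
    (hd : NoDet H R P J s) : NoDet H R' P J s := by
  have harc : ∀ {x y : W}, Relation.ReflTransGen (Arc H R' s) x y →
      Relation.ReflTransGen (Arc H R s) x y := fun {x y} hxy =>
    Relation.ReflTransGen.mono (fun _ _ ha => ⟨h ha.1, h ha.2.1, ha.2.2⟩) _ _ hxy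
  rintro r hr ⟨y, hy, hyR, t, ht, hadj, hs⟩ ⟨y', hy', hyR', t', ht', hadj', hs'⟩
  exact hd r (h hr) ⟨y, harc hy, h hyR, t, ht, hadj, hs⟩
    ⟨y', harc hy', h hyR', t', ht', hadj', hs'⟩

omit [∀ w, Fintype (H.neighborSet w)] in
theorem pairFun_mono {R R' : Set W} (h : R' ⊆ R) {P : ℤ → W} {J : Set ℤ} {s c : W → ℤ}
    (hc : PairFun H R P J s c) : PairFun H R' P J s c :=
  ⟨fun r hr r' hr' => hc.lip r (h hr) r' (h hr'), fun r hr => hc.cov r (h hr), hc.val⟩

theorem line_mono {N : ℤ} {R R' : Set W} (h : R ⊆ R') {P : ℤ → W} (hP : C.Line N R P) :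
    C.Line N R' P := ⟨hP.cal, hP.per, fun t => h (hP.mem t)⟩

omit [∀ w, Fintype (H.neighborSet w)] in
/-- Steps along a walk. -/
theorem step_line (hπ : IsCover G H π) {P : ℤ → W} (hP : ∀ t, H.Adj (P t) (P (t + 1))) {a b : ℤ}
    (h : |a - b| ≤ 1) : Step G (π (P a)) (π (P b)) := by
  rw [abs_le] at h
  have h3 : a = b ∨ b = a + 1 ∨ a = b + 1 := by omega
  rcases h3 with h | h | h
  · exact Or.inl (by rw [h])
  · exact Or.inr (by rw [h]; exact hπ.adj (hP a))
  · exact Or.inr (by rw [h]; exact (hπ.adj (hP b)).symm)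

end L4a

/-! ## Task L4a: the strip state -/

theorem XStrip.inv {R : Set W} {L U : ℤ → W} {cL cU : W → ℤ} (hX : C.XStrip R L U cL cU) :
    C.Inv R := by
  intro w
  rw [hX.eqR]
  exact and_congr (L4a.a_up hX.lineL w) (L4a.a_down hX.lineU w)

theorem XStrip.mirror {R : Set W} {L U : ℤ → W} {cL cU : W → ℤ} (hX : C.XStrip R L U cL cU) :
    C.mirror.XStrip R U L cU cL := by
  have hL := hX.lineL.cal.isCurve
  have hU := hX.lineU.cal.isCurve
  refine ⟨line_mirror.2 hX.lineU, line_mirror.2 hX.lineL, ?_, ?_, ?_, hX.fin, hX.nU, hX.nL, hX.pU,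
    hX.pL⟩
  · intro t
    change L t ∈ Up C.Pl.mirror U
    rw [up_mirror C.hH C.Pl hU]
    exact hX.below t
  · intro t
    change U t ∈ Down C.Pl.mirror L
    rw [down_mirror C.hH C.Pl hL]
    exact hX.above t
  · change R = Up C.Pl.mirror U ∩ Down C.Pl.mirror L
    rw [up_mirror C.hH C.Pl hU, down_mirror C.hH C.Pl hL, hX.eqR, Set.inter_comm]

theorem StripPos.of_mirror {n : ℕ} {r : W} {c : Fin 7 → V} (h : C.mirror.StripPos n r c) :
    C.StripPos n r c := by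
  obtain ⟨R, L, U, cL, cU, hX, hn, hr, ho⟩ := h
  have hlL : C.Line 1 Set.univ L := line_mirror.1 hX.lineL
  have hlU : C.Line 1 Set.univ U := line_mirror.1 hX.lineU
  have hL := hlL.cal.isCurve
  have hU := hlU.cal.isCurve
  have habove : ∀ t, U t ∈ Up C.Pl.mirror L := hX.above
  have hbelow : ∀ t, L t ∈ Down C.Pl.mirror U := hX.below
  have heq : R = Up C.Pl.mirror L ∩ Down C.Pl.mirror U := hX.eqR
  rw [up_mirror C.hH C.Pl hL] at habove heq
  rw [down_mirror C.hH C.Pl hU] at hbelow heq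
  refine ⟨R, U, L, cU, cL, ⟨hlU, hlL, hbelow, habove, by rw [heq, Set.inter_comm], hX.fin, hX.nU,
    hX.nL, hX.pU, hX.pL⟩, hn, hr, ?_⟩
  refine ho.sub (m := 2 + 2) ⟨![2, 3, 0, 1], by decide⟩ ?_
  intro i
  fin_cases i <;> rfl

/-- The pairs of a strip state guard the strip. -/
theorem XStrip.guard {R : Set W} {L U : ℤ → W} {cL cU : W → ℤ} (hX : C.XStrip R L U cL cU) :
    Guard G H π R (appF (pair π L cL) (pair π U cU)) := by
  constructor
  · intro i r hr r' hr' hadj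
    have h1 := hX.pL.lip r hr r' hr' hadj
    have h2 := hX.pU.lip r hr r' hr' hadj
    have h1' : |cL r + 1 - (cL r' + 1)| ≤ 1 := by rwa [add_sub_add_right_eq_sub]
    have h2' : |cU r + 1 - (cU r' + 1)| ≤ 1 := by rwa [add_sub_add_right_eq_sub]
    fin_cases i
    · exact L4a.step_line C.cover hX.lineL.cal.adj h1
    · exact L4a.step_line C.cover hX.lineL.cal.adj h1'
    · exact L4a.step_line C.cover hX.lineU.cal.adj h2
    · exact L4a.step_line C.cover hX.lineU.cal.adj h2'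
  · intro r hr r' hadj hr'
    have hrR := hr
    rw [hX.eqR] at hr
    have key : (∃ t, r' = L t) ∨ ∃ t, r' = U t := by
      rcases up_adj C.hH C.Pl hX.lineL.cal.isCurve hadj hr.1 with h | h
      · rcases down_adj C.hH C.Pl hX.lineU.cal.isCurve hadj hr.2 with h' | h'
        · exact absurd (by rw [hX.eqR]; exact ⟨h, h'⟩) hr'
        · exact Or.inr h'
      · exact Or.inl h
    rcases key with ⟨t, rfl⟩ | ⟨t, rfl⟩
    · rcases hX.pL.cov r hrR t (Set.mem_univ _) hadj with h | h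
      · exact ⟨0, by rw [h]; rfl⟩
      · exact ⟨1, by rw [h]; rfl⟩
    · rcases hX.pU.cov r hrR t (Set.mem_univ _) hadj with h | h
      · exact ⟨2, by rw [h]; rfl⟩
      · exact ⟨3, by rw [h]; rfl⟩

theorem substrip_up {R : Set W} {L U : ℤ → W} {cL cU : W → ℤ} (hX : C.XStrip R L U cL cU)
    {K : ℤ → W} (hK : C.Line 1 R K) (hd : NoDet H (R ∩ Up C.Pl K) K Set.univ C.u)
    {c : W → ℤ} (hc : PairFun H (R ∩ Up C.Pl K) K Set.univ C.u c) :
    C.XStrip (R ∩ Up C.Pl K) K U c cU ∧ C.size (R ∩ Up C.Pl K) < C.size R := by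
  have hL := hX.lineL
  have hU := hX.lineU
  have hKR : ∀ t, K t ∈ Up C.Pl L ∩ Down C.Pl U := fun t => by rw [← hX.eqR]; exact hK.mem t
  have hcoh : Coherent C.Pl K U := Line.coherent one_pos one_pos hK hU
  have hcohL : Coherent C.Pl L K := Line.coherent one_pos one_pos hL hK
  have habove : ∀ t, U t ∈ Up C.Pl K := by
    intro t
    rcases hcoh.level C.hH C.Pl C.lip hK.cal hU.cal t with h | h | h
    · exact absurd (h ▸ (hKR t).2) (line_not_down C.hH C.Pl hU.cal.isCurve t)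
    · exact absurd (hKR t).2 (not_up_and_down C.hH C.Pl hU.cal.isCurve h.1)
    · exact h.2
  have hLe : Le C.Pl L K := fun t => Or.inr (hKR t).1
  have hsub : Up C.Pl K ⊆ Up C.Pl L :=
    (up_subset_of_subset C.Pl ((le_iff C.hH C.Pl C.lip hL.cal hK.cal hcohL).1 hLe)).1
  refine ⟨⟨L4a.line_mono (Set.subset_univ _) hK, hU, habove, fun t => (hKR t).2, ?_,
    Set.Finite.subset hX.fin (fun _ hw => ⟨hw.1.1, hw.2⟩), hd,
    L4a.noDet_mono Set.inter_subset_left hX.nU, hc,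
    L4a.pairFun_mono Set.inter_subset_left hX.pU⟩, ?_⟩
  · rw [hX.eqR]
    ext w
    constructor
    · rintro ⟨⟨h1, h2⟩, h3⟩
      exact ⟨h3, h2⟩
    · rintro ⟨h1, h2⟩
      exact ⟨⟨hsub h1, h2⟩, h1⟩
  · refine Set.ncard_lt_ncard ?_ hX.fin
    refine ⟨fun w hw => ⟨hw.1.1, hw.2⟩, fun hcon => ?_⟩
    have h0 : K 0 ∈ {w | w ∈ R ∧ 0 ≤ C.u w ∧ C.u w < C.ℓ} := by
      refine ⟨hK.mem 0, ?_⟩
      rw [hK.cal.lev 0]
      exact ⟨le_refl _, C.ℓpos⟩
    exact line_not_up C.hH C.Pl hK.cal.isCurve 0 (hcon h0).1.2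

theorem substrip_down {R : Set W} {L U : ℤ → W} {cL cU : W → ℤ} (hX : C.XStrip R L U cL cU)
    {K : ℤ → W} (hK : C.Line 1 R K) (hd : NoDet H (R ∩ Down C.Pl K) K Set.univ C.u)
    {c : W → ℤ} (hc : PairFun H (R ∩ Down C.Pl K) K Set.univ C.u c) :
    C.XStrip (R ∩ Down C.Pl K) L K cL c ∧ C.size (R ∩ Down C.Pl K) < C.size R := by
  have hL := hX.lineL
  have hU := hX.lineU
  have hKR : ∀ t, K t ∈ Up C.Pl L ∩ Down C.Pl U := fun t => by rw [← hX.eqR]; exact hK.mem t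
  have hcoh : Coherent C.Pl K U := Line.coherent one_pos one_pos hK hU
  have hcohL : Coherent C.Pl K L := Line.coherent one_pos one_pos hK hL
  have hbelow : ∀ t, L t ∈ Down C.Pl K := by
    intro t
    rcases hcohL.level C.hH C.Pl C.lip hK.cal hL.cal t with h | h | h
    · exact absurd (h ▸ (hKR t).1) (line_not_up C.hH C.Pl hL.cal.isCurve t)
    · exact h.2
    · exact absurd h.1 (not_up_and_down C.hH C.Pl hL.cal.isCurve (hKR t).1)
  have hLe : Le C.Pl K U :=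
    (le_iff' C.hH C.Pl C.lip hK.cal hU.cal hcoh).2 (fun t => Or.inr (hKR t).2)
  have hsub : Down C.Pl K ⊆ Down C.Pl U :=
    (up_subset_of_subset C.Pl ((le_iff C.hH C.Pl C.lip hK.cal hU.cal hcoh).1 hLe)).2
  refine ⟨⟨hL, L4a.line_mono (Set.subset_univ _) hK, fun t => (hKR t).1, hbelow, ?_,
    Set.Finite.subset hX.fin (fun _ hw => ⟨hw.1.1, hw.2⟩),
    L4a.noDet_mono Set.inter_subset_left hX.nL, hd,
    L4a.pairFun_mono Set.inter_subset_left hX.pL, hc⟩, ?_⟩
  · rw [hX.eqR]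
    ext w
    constructor
    · rintro ⟨⟨h1, h2⟩, h3⟩
      exact ⟨h1, h3⟩
    · rintro ⟨h1, h2⟩
      exact ⟨⟨h1, hsub h2⟩, h2⟩
  · refine Set.ncard_lt_ncard ?_ hX.fin
    refine ⟨fun w hw => ⟨hw.1.1, hw.2⟩, fun hcon => ?_⟩
    have h0 : K 0 ∈ {w | w ∈ R ∧ 0 ≤ C.u w ∧ C.u w < C.ℓ} := by
      refine ⟨hK.mem 0, ?_⟩
      rw [hK.cal.lev 0]
      exact ⟨le_refl _, C.ℓpos⟩
    exact line_not_down C.hH C.Pl hK.cal.isCurve 0 (hcon h0).1.2

end SCtx

end Pool.Agent.MP_f5837d_co
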