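import Pool.Agent.Lib.MP_f5837d_co.CLODefs
import Pool.Agent.Lib.MP_f5837d_co.L3
import Pool.Agent.Lib.MP_f5837d_co.G3

/-!
# Closing a strip, parts (1)-(3): gain, crossings, the shape of the shortest walks
-/

set_option autoImplicit false

namespace Pool.Agent.MP_f5837d_co

open SimpleGraph

variable {V W : Type*} {G : SimpleGraph V} {H : SimpleGraph W} {π : W → V}
variable [∀ w, Fintype (H.neighborSet w)]

namespace CLO

variable {C : SCtx G H π}

omit [∀ w, Fintype (H.neighborSet w)] in
theorem lip_walk {u : W → ℤ} (hu : ∀ w w', H.Adj w w' → |u w - u w'| ≤ 1) {x y : W}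
    (p : H.Walk x y) {k : ℕ} (k' : ℕ) (h : k ≤ k') (hk' : k' ≤ p.length) :
    |u (p.getVert k') - u (p.getVert k)| ≤ (k' : ℤ) - k := by
  induction k', h using Nat.le_induction with
  | base => simp
  | succ k' h ih =>
    have h1 := ih (by omega)
    have h2 := hu _ _ (p.adj_getVert_succ (show k' < p.length by omega))
    rw [abs_le] at h1 h2 ⊢
    push_cast
    constructor <;> linarith [h1.1, h1.2, h2.1, h2.2]

/-- (1) Walks in `R` are slow. -/
theorem gain {R : Set W} {L U : ℤ → W} {cL cU : W → ℤ} (hX : C.XStrip R L U cL cU)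
    (hno : ¬ ∃ Λ, C.Line 1 R Λ) :
    ∃ T : ℕ, 0 < T ∧ ∀ {a b : W} (p : H.Walk a b),
      (∀ k, 0 < k → k < p.length → p.getVert k ∈ R) →
      (p.length : ℤ) ≤ T * (p.length - (C.u b - C.u a) + 1) + 1 := by
  obtain ⟨T, hT⟩ := SCtx.run_line hX.inv hX.fin
  refine ⟨T + 1, Nat.succ_pos _, ?_⟩
  intro a b p hp
  have hlip : ∀ k k' : ℕ, k ≤ k' → k' ≤ p.length →
      C.u (p.getVert k') - C.u (p.getVert k) ≤ (k' : ℤ) - k := fun k k' h h' =>
    (le_abs_self _).trans (lip_walk C.lip p k' h h')
  have hp0 : C.u (p.getVert 0) = C.u a := by rw [Walk.getVert_zero]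
  have hpn : C.u (p.getVert p.length) = C.u b := by rw [Walk.getVert_length]
  have key : ∀ m : ℕ, 1 + m * (T + 1) < p.length →
      (m : ℤ) ≤ ((1 + m * (T + 1) : ℕ) : ℤ) - (C.u (p.getVert (1 + m * (T + 1))) - C.u a) := by
    intro m
    induction m with
    | zero =>
      intro h
      have := hlip 0 (1 + 0 * (T + 1)) (by omega) (by omega)
      rw [hp0] at this
      push_cast at this ⊢
      linarith
    | succ m ih =>
      intro h
      have hlt : 1 + m * (T + 1) < p.length := by
        have : m * (T + 1) ≤ (m + 1) * (T + 1) := Nat.mul_le_mul_right _ (Nat.le_succ m)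
        omega
      have h1 := ih hlt
      set K := 1 + m * (T + 1) with hK
      have hK' : 1 + (m + 1) * (T + 1) = K + (T + 1) := by rw [hK]; ring
      rw [hK'] at h ⊢
      by_contra hcon
      push Not at hcon
      apply hno
      obtain ⟨k, _, Λ, hΛ, _⟩ := hT (fun k => p.getVert (K + k))
        (fun k hk => hp _ (by omega) (by omega))
        (fun k hk => ⟨p.adj_getVert_succ (by omega), by
          have e1 := hlip K (K + k) (by omega) (by omega)
          have e2 := hlip (K + k) (K + (k + 1)) (by omega) (by omega)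
          have e3 := hlip (K + (k + 1)) (K + (T + 1)) (by omega) (by omega)
          push_cast at e1 e2 e3 hcon
          have : C.u (p.getVert (K + (k + 1))) = C.u (p.getVert (K + k)) + 1 := by
            apply le_antisymm <;> linarith
          exact this⟩)
      exact ⟨Λ, hΛ⟩
  have hexc := hlip 0 p.length (Nat.zero_le _) le_rfl
  rw [hp0, hpn] at hexc
  rcases Nat.lt_or_ge p.length 2 with h | h
  · have h1 : (p.length : ℤ) ≤ 1 := by omega
    have h2 : 0 ≤ ((T + 1 : ℕ) : ℤ) * (p.length - (C.u b - C.u a) + 1) :=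
      mul_nonneg (by positivity) (by push_cast at hexc; linarith)
    linarith
  · set m := (p.length - 2) / (T + 1) with hm
    have h1 : m * (T + 1) ≤ p.length - 2 := Nat.div_mul_le_self _ _
    have h2 : p.length - 2 < (T + 1) * (m + 1) := Nat.lt_mul_div_succ _ (Nat.succ_pos T)
    have h3 := key m (by omega)
    have h4 := hlip (1 + m * (T + 1)) p.length (by omega) le_rfl
    rw [hpn] at h4
    have h5 : (m : ℤ) + 1 ≤ p.length - (C.u b - C.u a) + 1 := by linarith
    have h6 : ((T + 1 : ℕ) : ℤ) * (m + 1) ≤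
        ((T + 1 : ℕ) : ℤ) * (p.length - (C.u b - C.u a) + 1) :=
      mul_le_mul_of_nonneg_left h5 (by positivity)
    have h7 : (p.length : ℤ) - 1 ≤ ((T + 1 : ℕ) : ℤ) * (m + 1) := by
      have : p.length - 1 ≤ (T + 1) * (m + 1) := by omega
      have h8 : ((p.length - 1 : ℕ) : ℤ) ≤ (((T + 1) * (m + 1) : ℕ) : ℤ) := by exact_mod_cast this
      push_cast at h8 ⊢
      omega
    linarith

/-! ### Crossings -/

theorem per_zpow {N : Set W} {P : ℤ → W} (hP : C.Line 1 N P) (t k : ℤ) :
    P (t + k * C.ℓ) = (C.A ^ k) (P t) := by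
  have h1 : ∀ t, P (t + C.ℓ) = C.A (P t) := by
    intro t
    have := hP.per t
    rwa [one_mul, zpow_one] at this
  induction k using Int.induction_on with
  | zero => simp
  | succ k ih =>
    have := h1 (t + k * C.ℓ)
    rw [ih] at this
    rw [show t + ((k : ℤ) + 1) * C.ℓ = t + k * C.ℓ + C.ℓ by ring, this, zpow_add_one,
      (Commute.zpow_self C.A (k : ℤ)).eq]
    rfl
  | pred k ih =>
    have := h1 (t + (-(k : ℤ) - 1) * C.ℓ)
    rw [show t + (-(k : ℤ) - 1) * C.ℓ + C.ℓ = t + (-(k : ℤ)) * C.ℓ by ring, ih] at this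
    apply C.A.injective
    rw [← this]
    change _ = (C.A * C.A ^ (-(k : ℤ) - 1)) (P t)
    rw [← zpow_one_add, show 1 + (-(k : ℤ) - 1) = -(k : ℤ) by ring]

theorem inv_zpow {R : Set W} (hR : C.Inv R) (k : ℤ) (w : W) : (C.A ^ k) w ∈ R ↔ w ∈ R := by
  induction k using Int.induction_on generalizing w with
  | zero => simp
  | succ k ih =>
    rw [zpow_add_one]
    change (C.A ^ (k : ℤ)) (C.A w) ∈ R ↔ _
    rw [ih, hR w]
  | pred k ih =>
    have h := ih ((C.A⁻¹) w)
    rw [zpow_sub_one]
    change (C.A ^ (-(k : ℤ))) (C.A⁻¹ w) ∈ R ↔ _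
    rw [h, ← hR]
    change (C.A * C.A⁻¹) w ∈ R ↔ _
    rw [mul_inv_cancel]
    rfl

/-- A shortest walk between the two lines, and its translates. -/
theorem crossing {R : Set W} {L U : ℤ → W} {cL cU : W → ℤ} (hX : C.XStrip R L U cL cU) :
    ∃ (j i : ℤ) (m : ℕ), ∀ k : ℤ, ∃ p : H.Walk (U (j + k * C.ℓ)) (L (i + k * C.ℓ)),
      p.length = m ∧ ∀ a, 0 < a → a < m → p.getVert a ∈ R := by
  classical
  have hex : ∃ m : ℕ, ∃ (j i : ℤ) (p : H.Walk (U j) (L i)), p.length = m := by
    obtain ⟨p⟩ := C.hH.preconnected (U 0) (L 0)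
    exact ⟨_, 0, 0, p, rfl⟩
  obtain ⟨j, i, p, hp⟩ := Nat.find_spec hex
  set m := Nat.find hex with hm
  have hmin : ∀ (j i : ℤ) (p : H.Walk (U j) (L i)), m ≤ p.length := fun j i p =>
    Nat.find_min' hex ⟨j, i, p, rfl⟩
  have cL := hX.lineL.cal.isCurve
  have cU := hX.lineU.cal.isCurve
  have offU : ∀ a, 0 < a → ∀ t, p.getVert a ≠ U t := by
    intro a h0 t ht
    rcases le_or_gt a p.length with h | h
    · have h1 := hmin t i ((p.drop a).copy ht rfl)
      rw [Walk.length_copy, Walk.drop_length] at h1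
      omega
    · have h1 := hmin t i (Walk.nil.copy (by rw [← ht, p.getVert_of_length_le h.le]) rfl)
      rw [Walk.length_copy, Walk.length_nil] at h1
      have : p.getVert a = U j := by
        have h3 : p.length = 0 := by omega
        rw [p.getVert_of_length_le h.le]
        exact (Walk.eq_of_length_eq_zero h3).symm
      have h4 : L i = U j := by rw [← this, p.getVert_of_length_le h.le]
      exact line_not_up C.hH C.Pl cL i (h4 ▸ hX.above j)
  have offL : ∀ a, a < p.length → ∀ t, p.getVert a ≠ L t := by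
    intro a h0 t ht
    have h1 := hmin j t ((p.take a).copy rfl ht)
    rw [Walk.length_copy, Walk.take_length] at h1
    omega
  have inUp : ∀ a, a < p.length → p.getVert a ∈ Up C.Pl L := by
    intro a
    induction a with
    | zero => intro _; rw [Walk.getVert_zero]; exact hX.above j
    | succ a ih =>
      intro h
      rcases up_adj C.hH C.Pl cL (p.adj_getVert_succ (by omega)) (ih (by omega)) with h1 | ⟨t, h1⟩
      · exact h1
      · exact absurd h1 (offL _ h t)
  have inDown : ∀ a, a < p.length → p.getVert (p.length - a) ∈ Down C.Pl U := by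
    intro a
    induction a with
    | zero => intro _; rw [Nat.sub_zero, Walk.getVert_length]; exact hX.below i
    | succ a ih =>
      intro h
      have hadj := p.adj_getVert_succ (show p.length - (a + 1) < p.length by omega)
      rw [show p.length - (a + 1) + 1 = p.length - a by omega] at hadj
      rcases down_adj C.hH C.Pl cU hadj.symm (ih (by omega)) with h1 | ⟨t, h1⟩
      · exact h1
      · exact absurd h1 (offU _ (by omega) t)
  have inR : ∀ a, 0 < a → a < p.length → p.getVert a ∈ R := by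
    intro a h0 h1
    rw [hX.eqR]
    refine ⟨inUp a h1, ?_⟩
    have := inDown (p.length - a) (by omega)
    rwa [show p.length - (p.length - a) = a by omega] at this
  refine ⟨j, i, m, fun k => ?_⟩
  refine ⟨(p.map (C.A ^ k : H ≃g H).toHom).copy (per_zpow hX.lineU j k).symm
    (per_zpow hX.lineL i k).symm, ?_, ?_⟩
  · rw [Walk.length_copy, Walk.length_map, hp]
  · intro a h0 h1
    rw [Walk.getVert_copy, Walk.getVert_map]
    exact (inv_zpow hX.inv k _).mpr (inR a h0 (by omega))

omit [∀ w, Fintype (H.neighborSet w)] in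
theorem lineWalk {P : ℤ → W} (hadj : ∀ t, H.Adj (P t) (P (t + 1))) (a : ℤ) (n : ℕ) :
    ∃ p : H.Walk (P a) (P (a + n)), p.length = n ∧ ∀ k : ℕ, k ≤ n → p.getVert k = P (a + k) := by
  induction n with
  | zero =>
    refine ⟨Walk.nil.copy rfl (by simp), by simp, fun k hk => ?_⟩
    obtain rfl : k = 0 := by omega
    simp
  | succ n ih =>
    obtain ⟨p, hp, hk⟩ := ih
    have h1 : P (a + n + 1) = P (a + ((n + 1 : ℕ) : ℤ)) := by push_cast; rw [add_assoc]
    refine ⟨(p.concat (hadj (a + n))).copy rfl h1, by simp [hp], fun k hk' => ?_⟩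
    rw [Walk.getVert_copy, Walk.concat_eq_append, Walk.getVert_append, hp]
    rcases Nat.lt_or_ge k n with h | h
    · rw [if_pos h, hk k h.le]
    · rw [if_neg (by omega)]
      rcases h.eq_or_lt with h2 | h2
      · subst h2; simp
      · obtain rfl : k = n + 1 := by omega
        rw [show n + 1 - n = 1 by omega, ← h1]
        simp

omit [∀ w, Fintype (H.neighborSet w)] in
theorem Adm.append {R : Set W} {L : ℤ → W} {x y z : W} {p : H.Walk x y} {q : H.Walk y z}
    (hp : Adm R L p) (hq : Adm R L q) (hy : y ∈ R ∨ ∃ t, y = L t) : Adm R L (p.append q) := by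
  intro k h0 h1
  rw [Walk.length_append] at h1
  rw [Walk.getVert_append]
  split_ifs with h
  · exact hp k h0 h
  · rcases Nat.eq_zero_or_pos (k - p.length) with h2 | h2
    · rw [h2, Walk.getVert_zero]; exact hy
    · exact hq _ h2 (by omega)

omit [∀ w, Fintype (H.neighborSet w)] in
theorem exists_short {R : Set W} {L : ℤ → W} {x y : W} (p : H.Walk x y) (hp : Adm R L p) :
    ∃ A : H.Walk x y, Short R L A ∧ A.length ≤ p.length := by
  classical
  have hex : ∃ m : ℕ, ∃ q : H.Walk x y, Adm R L q ∧ q.length = m := ⟨_, p, hp, rfl⟩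
  obtain ⟨A, hA, hl⟩ := Nat.find_spec hex
  have hmin : ∀ q : H.Walk x y, Adm R L q → A.length ≤ q.length := fun q hq => by
    rw [hl]; exact Nat.find_min' hex ⟨q, hq, rfl⟩
  exact ⟨A, ⟨hA, hmin⟩, hmin p hp⟩

/-- An admissible walk from `U j` to `U (j + n)`. -/
theorem exists_adm {R : Set W} {L U : ℤ → W} {cL cU : W → ℤ} (hX : C.XStrip R L U cL cU)
    {j₀ i₀ : ℤ} {m : ℕ} (hcr : ∀ k : ℤ, ∃ p : H.Walk (U (j₀ + k * C.ℓ)) (L (i₀ + k * C.ℓ)),
      p.length = m ∧ ∀ a, 0 < a → a < m → p.getVert a ∈ R) (k k' : ℤ) (n : ℕ)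
    (hn : (n : ℤ) = k' * C.ℓ) :
    ∃ A : H.Walk (U (j₀ + k * C.ℓ)) (U (j₀ + k * C.ℓ + n)), Adm R L A ∧ A.length = m + n + m := by
  obtain ⟨p, hp, hpR⟩ := hcr k
  obtain ⟨q, hq, hqR⟩ := hcr (k + k')
  obtain ⟨l, hl, hlL⟩ := lineWalk hX.lineL.cal.adj (i₀ + k * C.ℓ) n
  have e1 : j₀ + (k + k') * C.ℓ = j₀ + k * C.ℓ + n := by rw [hn]; ring
  have e2 : i₀ + (k + k') * C.ℓ = i₀ + k * C.ℓ + n := by rw [hn]; ring
  have hp' : Adm R L p := fun a h0 h1 => Or.inl (hpR a h0 (hp ▸ h1))
  have hl' : Adm R L l := fun a h0 h1 => Or.inr ⟨_, hlL a (by omega)⟩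
  have hq' : Adm R L (q.reverse.copy (congrArg L e2) (congrArg U e1)) := by
    intro a h0 h1
    rw [Walk.length_copy, Walk.length_reverse] at h1
    rw [Walk.getVert_copy, Walk.getVert_reverse]
    exact Or.inl (hqR _ (by omega) (by omega))
  refine ⟨p.append (l.append (q.reverse.copy (congrArg L e2) (congrArg U e1))),
    hp'.append (hl'.append hq' (Or.inr ⟨_, rfl⟩)) (Or.inr ⟨_, rfl⟩), ?_⟩
  simp only [Walk.length_append, Walk.length_copy, Walk.length_reverse, hp, hq, hl]
  ring

/-- An increasing stretch between two vertices of `L` with interior in `R ∪ L` is on `L`. -/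
theorem on_line {R : Set W} {L U : ℤ → W} {cL cU : W → ℤ} (hX : C.XStrip R L U cL cU)
    (f : ℕ → W) (n : ℕ) (s : ℤ) (h0 : f 0 = L s) (hn : ∃ t, f n = L t)
    (hadj : ∀ k, k < n → H.Adj (f k) (f (k + 1))) (hlev : ∀ k, k ≤ n → C.u (f k) = s + k)
    (hRL : ∀ k, k ≤ n → f k ∈ R ∨ ∃ t, f k = L t) : ∀ k, k ≤ n → f k = L (s + k) := by
  classical
  have hval : ∀ k, k ≤ n → (∃ t, f k = L t) → f k = L (s + k) := by
    rintro k hk ⟨t, ht⟩
    have h1 := hlev k hk
    rw [ht, hX.lineL.cal.lev] at h1
    rw [ht, h1]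
  by_contra hcon
  push Not at hcon
  -- the first index that is not on the line
  set k := Nat.find hcon with hk
  obtain ⟨hkn, hkne⟩ := Nat.find_spec hcon
  rw [← hk] at hkn hkne
  have hk0 : 0 < k := by
    rcases Nat.eq_zero_or_pos k with h | h
    · rw [h, h0] at hkne; simp at hkne
    · exact h
  have hprev : f (k - 1) = L (s + (k - 1 : ℕ)) := by
    by_contra h
    exact Nat.find_min hcon (m := k - 1) (by omega) ⟨by omega, h⟩
  -- the next index that is on the line
  have hex2 : ∃ m, k < m ∧ m ≤ n ∧ ∃ t, f m = L t := by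
    refine ⟨n, ?_, le_rfl, hn⟩
    rcases hkn.lt_or_eq with h | h
    · exact h
    · exact absurd (hval k hkn (h ▸ hn)) hkne
  set m := Nat.find hex2 with hm
  obtain ⟨hkm, hmn, hmL⟩ := Nat.find_spec hex2
  rw [← hm] at hkm hmn hmL
  have hmv := hval m hmn hmL
  have hin : ∀ a, k ≤ a → a < m → f a ∈ R := by
    intro a ha ham
    rcases hRL a (by omega) with h | h
    · exact h
    · exfalso
      rcases ha.eq_or_lt with h' | h'
      · subst h'; exact hkne (hval _ hkn h)
      · exact Nat.find_min hex2 (m := a) ham ⟨h', by omega, h⟩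
  set q : ℤ → W := fun t => if s + (k - 1 : ℕ) < t ∧ t < s + m then f (t - s).toNat else L t
    with hq
  have hqin : ∀ t, s + (k - 1 : ℕ) ≤ t → t ≤ s + m → q t = f (t - s).toNat := by
    intro t h1 h2
    simp only [hq]
    split_ifs with h
    · rfl
    · rw [not_and_or, not_lt, not_lt] at h
      rcases h with h | h
      · have : t = s + (k - 1 : ℕ) := le_antisymm h h1
        rw [this, add_sub_cancel_left, Int.toNat_natCast, hprev]
      · have : t = s + m := le_antisymm h2 h
        rw [this, add_sub_cancel_left, Int.toNat_natCast, hmv]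
  refine noDet_iff.mp hX.nL q (s + (k - 1 : ℕ)) (s + m) ⟨trivial, trivial, by omega, ?_, ?_, ?_⟩
  · intro t ht
    simp only [hq]
    rw [if_neg (by omega)]
  · intro t h1 h2
    rw [hqin t h1.le h2.le]
    refine ⟨hin _ (by omega) (by omega), ?_⟩
    rw [hlev _ (by omega)]
    omega
  · intro t h1 h2
    rw [hqin t h1 h2.le, hqin (t + 1) (by omega) (by omega)]
    have : (t + 1 - s).toNat = (t - s).toNat + 1 := by omega
    rw [this]
    exact hadj _ (by omega)

/-- (3) The shortest walks from `U j` to `U (j + n)` with interior in `R ∪ L`. -/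
theorem shapes {R : Set W} {L U : ℤ → W} {cL cU : W → ℤ} (hX : C.XStrip R L U cL cU)
    (hno : ¬ ∃ Λ, C.Line 1 R Λ) :
    ∃ i c : ℤ, 0 < c ∧ ∀ (j : ℤ) (n : ℕ), (∃ k, j = i + k * C.ℓ) → (∃ m, (n : ℤ) = m * C.ℓ) →
      c ≤ n → (∃ A : H.Walk (U j) (U (j + n)), Short R L A) ∧
        ∀ A : H.Walk (U j) (U (j + n)), Short R L A →
          (A.length : ℤ) ≤ n + c ∧ ∃ (ks kt : ℕ) (s : ℤ), Shape R L A ks kt s c := by
  classical
  obtain ⟨T, hT, hgain⟩ := gain hX hno
  obtain ⟨j₀, i₀, m, hcr⟩ := crossing hX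
  have hcal := hX.lineL.cal
  have hcalU := hX.lineU.cal
  have cLc := hcal.isCurve
  refine ⟨j₀, 2 * (T * (2 * m + 1) + 1) + 2 * m + 2, by positivity, ?_⟩
  rintro j n ⟨k, rfl⟩ ⟨k', hk'⟩ hcn
  set j := j₀ + k * C.ℓ with hj
  obtain ⟨A₀, hA₀, hlA₀⟩ := exists_adm hX hcr k k' n hk'
  obtain ⟨A₁, hA₁, -⟩ := exists_short A₀ hA₀
  refine ⟨⟨A₁, hA₁⟩, fun A hA => ?_⟩
  have hlen : A.length ≤ m + n + m := hlA₀ ▸ hA.2 A₀ hA₀
  have hlip : ∀ k k' : ℕ, k ≤ k' → k' ≤ A.length →
      |C.u (A.getVert k') - C.u (A.getVert k)| ≤ (k' : ℤ) - k := fun k k' h h' =>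
    lip_walk C.lip A k' h h'
  have hu0 : C.u (A.getVert 0) = j := by rw [Walk.getVert_zero, hcalU.lev]
  have hun : C.u (A.getVert A.length) = j + n := by rw [Walk.getVert_length, hcalU.lev]
  have hlow : (n : ℤ) ≤ A.length := by
    have := (abs_le.mp (hlip 0 A.length (Nat.zero_le _) le_rfl)).2
    rw [hu0, hun] at this
    push_cast at this
    linarith
  set c₁ : ℤ := T * (2 * m + 1) + 1 with hc₁
  have hTm : (0 : ℤ) ≤ T * (2 * m + 1) := by positivity
  have hLU : ∀ t t', L t ≠ U t' := fun t t' h =>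
    line_not_up C.hH C.Pl cLc t (h ▸ hX.above t')
  refine ⟨by omega, ?_⟩
  -- the walk meets the line
  have hmeet : ∃ a, 0 < a ∧ a < A.length ∧ ∃ t, A.getVert a = L t := by
    by_contra hcon
    push Not at hcon
    have h1 := hgain A (fun a h0 h1 => (hA.1 a h0 h1).resolve_right
      (fun ⟨t, ht⟩ => hcon a h0 h1 t ht))
    rw [hcalU.lev, hcalU.lev] at h1
    have h2 : (T : ℤ) * (A.length - (j + n - j) + 1) ≤ T * (2 * m + 1) :=
      mul_le_mul_of_nonneg_left (by linarith) (by positivity)
    linarith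
  -- the first and the last index on the line
  set ks := Nat.find hmeet with hks
  obtain ⟨hks0, hksn, s, hs⟩ := Nat.find_spec hmeet
  rw [← hks] at hks0 hksn hs
  have hksmin : ∀ a, 0 < a → a < ks → A.getVert a ∈ R := by
    intro a h0 h1
    rcases hA.1 a h0 (by omega) with h | h
    · exact h
    · exact absurd ⟨h0, by omega, h⟩ (Nat.find_min hmeet h1)
  have hmeet' : ∃ b, 0 < b ∧ b < A.length ∧ ∃ t, A.getVert (A.length - b) = L t :=
    ⟨A.length - ks, by omega, by omega, s, by rw [show A.length - (A.length - ks) = ks by omega, hs]⟩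
  set b := Nat.find hmeet' with hb
  obtain ⟨hb0, hbn, t, ht⟩ := Nat.find_spec hmeet'
  rw [← hb] at hb0 hbn ht
  have hbmin : ∀ a, 0 < a → a < b → A.getVert (A.length - a) ∈ R := by
    intro a h0 h1
    rcases hA.1 (A.length - a) (by omega) (by omega) with h | h
    · exact h
    · exact absurd ⟨h0, by omega, h⟩ (Nat.find_min hmeet' h1)
  have hbks : b ≤ A.length - ks := Nat.find_min' hmeet' ⟨by omega, by omega, s, by
    rw [show A.length - (A.length - ks) = ks by omega, hs]⟩
  obtain ⟨kt, hkt⟩ : ∃ kt, kt = A.length - b := ⟨_, rfl⟩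
  rw [← hkt] at ht
  have hle : ks ≤ kt := by omega
  have hus : C.u (A.getVert ks) = s := by rw [hs, hcal.lev]
  have hut : C.u (A.getVert kt) = t := by rw [ht, hcal.lev]
  -- the lengths of the first and of the last part
  have e1 := abs_le.mp (hlip 0 ks (Nat.zero_le _) hksn.le)
  have e2 := abs_le.mp (hlip ks kt hle (by omega))
  have e3 := abs_le.mp (hlip kt A.length (by omega) le_rfl)
  rw [hu0, hus] at e1
  rw [hus, hut] at e2
  rw [hut, hun] at e3
  push_cast at e1 e2 e3 hlen
  have g1 : (ks : ℤ) ≤ c₁ := by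
    have h1 := hgain (A.take ks) (fun a h0 h1 => by
      rw [Walk.take_length, min_eq_left hksn.le] at h1
      rw [Walk.take_getVert, min_eq_right h1.le]
      exact hksmin a h0 h1)
    rw [Walk.take_length, min_eq_left hksn.le, hus, hcalU.lev] at h1
    have h2 : (T : ℤ) * (ks - (s - j) + 1) ≤ T * (2 * m + 1) :=
      mul_le_mul_of_nonneg_left (by linarith [e2.2, e3.2]) (by positivity)
    linarith
  have g2 : (A.length : ℤ) - kt ≤ c₁ := by
    have h1 := hgain (A.drop kt) (fun a h0 h1 => by
      rw [Walk.drop_length] at h1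
      rw [Walk.drop_getVert]
      have := hbmin (A.length - (kt + a)) (by omega) (by omega)
      rwa [show A.length - (A.length - (kt + a)) = kt + a by omega] at this)
    rw [Walk.drop_length, Nat.cast_sub (by omega), hut, hcalU.lev] at h1
    have h2 : (T : ℤ) * (A.length - kt - (j + n - t) + 1) ≤ T * (2 * m + 1) :=
      mul_le_mul_of_nonneg_left (by linarith [e2.2, e1.2]) (by positivity)
    linarith
  -- the middle part
  have hst : s ≤ t := by linarith [e1.2, e3.2]
  obtain ⟨l, hl, hlL⟩ := lineWalk hcal.adj s (t - s).toNat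
  have hst' : s + ((t - s).toNat : ℤ) = t := by omega
  have hadm : Adm R L (((A.take ks).copy rfl hs).append
      (l.append ((A.drop kt).copy (by rw [ht, hst']) rfl))) := by
    refine Adm.append ?_ (Adm.append ?_ ?_ (Or.inr ⟨_, rfl⟩)) (Or.inr ⟨_, rfl⟩)
    · intro a h0 h1
      rw [Walk.length_copy, Walk.take_length, min_eq_left hksn.le] at h1
      rw [Walk.getVert_copy, Walk.take_getVert, min_eq_right h1.le]
      exact Or.inl (hksmin a h0 h1)
    · intro a h0 h1
      exact Or.inr ⟨_, hlL a (by omega)⟩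
    · intro a h0 h1
      rw [Walk.length_copy, Walk.drop_length] at h1
      rw [Walk.getVert_copy, Walk.drop_getVert]
      have := hbmin (A.length - (kt + a)) (by omega) (by omega)
      rw [show A.length - (A.length - (kt + a)) = kt + a by omega] at this
      exact Or.inl this
  have hmin := hA.2 _ hadm
  simp only [Walk.length_append, Walk.length_copy, Walk.take_length, Walk.drop_length, hl,
    min_eq_left hksn.le] at hmin
  have hmid : ((kt - ks : ℕ) : ℤ) = t - s := by
    have := e2.2
    omega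
  have hlev : ∀ a : ℕ, a ≤ kt - ks → C.u (A.getVert (ks + a)) = s + a := by
    intro a ha
    have h1 := abs_le.mp (hlip ks (ks + a) (by omega) (by omega))
    have h2 := abs_le.mp (hlip (ks + a) kt (by omega) (by omega))
    rw [hus] at h1
    rw [hut] at h2
    push_cast at h1 h2
    have := h1.2
    have := h2.2
    omega
  have hon := on_line hX (fun a => A.getVert (ks + a)) (kt - ks) s (by simpa using hs)
    ⟨t, by rw [show ks + (kt - ks) = kt by omega, ht]⟩
    (fun a ha => A.adj_getVert_succ (show ks + a < A.length by omega)) hlev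
    (fun a ha => hA.1 _ (by omega) (by omega))
  refine ⟨ks, kt, s, ⟨?_, hks0, hle, by omega, by omega, ?_, ?_, by linarith, by linarith⟩⟩
  · -- it is a path
    have hb1 : Adm R L A.bypass := by
      intro a h0 h1
      have hpath := A.bypass_isPath
      have hmem := A.support_bypass_subset_support (A.bypass.getVert_mem_support a)
      obtain ⟨a', ha', hle'⟩ := Walk.mem_support_iff_exists_getVert.mp hmem
      have hx : A.bypass.getVert a ≠ U j := fun h =>
        h0.ne' ((hpath.getVert_eq_start_iff h1.le).mp h)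
      have hy : A.bypass.getVert a ≠ U (j + n) := fun h =>
        h1.ne ((hpath.getVert_eq_end_iff h1.le).mp h)
      have h0' : 0 < a' := by
        rcases Nat.eq_zero_or_pos a' with h | h
        · rw [h, Walk.getVert_zero] at ha'; exact absurd ha'.symm hx
        · exact h
      have h1' : a' < A.length := by
        rcases hle'.lt_or_eq with h | h
        · exact h
        · rw [h, Walk.getVert_length] at ha'; exact absurd ha'.symm hy
      rw [← ha']
      exact hA.1 a' h0' h1'
    rw [← Walk.bypass_eq_self_of_length_le_length_bypass A (hA.2 _ hb1)]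
    exact A.bypass_isPath
  · intro a h1 h2
    have := hon (a - ks) (by omega)
    rw [show ks + (a - ks) = a by omega] at this
    rw [this, Nat.cast_sub h1]
  · rintro a h0 h1 (h2 | h2)
    · exact hksmin a h0 h2
    · have := hbmin (A.length - a) (by omega) (by omega)
      rwa [show A.length - (A.length - a) = a by omega] at this

end CLO

end Pool.Agent.MP_f5837d_co
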