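import Pool.Agent.Lib.MP_f5837d_co.G1
import Pool.Agent.Lib.MP_f5837d_co.G3

/-! # Task G4: the pocket shift -/

set_option autoImplicit false

namespace Pool.Agent.MP_f5837d_co

open SimpleGraph

variable {V W : Type*} {G : SimpleGraph V} {H : SimpleGraph W} {π : W → V}

namespace G4

/-- The guard function of the pair on the pocket side: the rounded function on `D`, and `s - 1`
elsewhere. -/
noncomputable def c1 (H : SimpleGraph W) (D : Set W) (P : ℤ → W) (i j : ℤ) (s : W → ℤ)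
    (r : W) : ℤ :=
  open Classical in if r ∈ D then cTo H D P (Set.Icc i j) s r else s r - 1

/-- The event: far away in `O`. -/
def Ev (O : Set W) (s : W → ℤ) (i j : ℤ) : Set W := {r | r ∈ O ∧ (s r < i - 1 ∨ j + 1 < s r)}

/-- The first five functions. -/
def g0 (π : W → V) (P : ℤ → W) (s : W → ℤ) (e : Fin 2 → W → V) : Fin 5 → W → V :=
  appF (trio π P s) e

/-- The six functions of the third phase. -/
def g3 (π : W → V) (P q : ℤ → W) (c s : W → ℤ) (e : Fin 2 → W → V) : Fin 6 → W → V :=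
  ![fun r => π (P (c r)), fun r => π (P (c r + 1)), e 0, e 1, fun r => π (q (s r)),
    fun r => π (q (s r + 1))]

theorem occ_phase3 {P q : ℤ → W} {c s : W → ℤ} {e : Fin 2 → W → V} {r : W} {cc : Fin 7 → V}
    (hc : c r = s r - 1 ∨ c r = s r)
    (h : Occ (fun i => snocF (snocF (g0 π P s e) (fun r => π (q (s r))))
      (fun r => π (q (s r + 1))) i r) cc) :
    Occ (fun i => g3 π P q c s e i r) cc := by
  rcases hc with hc | hc
  · refine h.sub ⟨![0, 1, 3, 4, 5, 6], by decide⟩ (fun i => ?_)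
    fin_cases i
    · change π (P (s r - 1)) = π (P (c r)); rw [hc]
    · change π (P (s r)) = π (P (c r + 1)); rw [hc, sub_add_cancel]
    · rfl
    · rfl
    · rfl
    · rfl
  · refine h.sub ⟨![1, 2, 3, 4, 5, 6], by decide⟩ (fun i => ?_)
    fin_cases i
    · change π (P (s r)) = π (P (c r)); rw [hc]
    · change π (P (s r + 1)) = π (P (c r + 1)); rw [hc]
    · rfl
    · rfl
    · rfl
    · rfl

theorem occ_finalO {P q : ℤ → W} {c s : W → ℤ} {e : Fin 2 → W → V} {r : W} {cc : Fin 7 → V}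
    (h : Occ (fun i => snocF (g3 π P q c s e) (fun r => π (q (s r - 1))) i r) cc) :
    Occ (fun i => (appF (trio π q s) e : Fin (3 + 2) → W → V) i r) cc := by
  refine h.sub ⟨(![6, 4, 5, 2, 3] : Fin 5 → Fin 7), by decide⟩ (fun i => ?_)
  fin_cases i <;> rfl

theorem occ_eventO {P q : ℤ → W} {c s : W → ℤ} {e : Fin 2 → W → V} {r : W} {cc : Fin 7 → V}
    (hc : c r = s r - 1) (hPq : P (s r - 1) = q (s r - 1))
    (h : Occ (fun i => g3 π P q c s e i r) cc) :
    Occ (fun i => (appF (trio π q s) e : Fin (3 + 2) → W → V) i r) cc := by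
  refine h.sub ⟨(![0, 4, 5, 2, 3] : Fin 5 → Fin 6), by decide⟩ (fun i => ?_)
  fin_cases i
  · change π (P (c r)) = π (q (s r - 1))
    rw [hc, hPq]
  all_goals rfl

theorem occ_event0 {P q : ℤ → W} {s : W → ℤ} {e : Fin 2 → W → V} {r : W} {cc : Fin 7 → V}
    (h1 : P (s r - 1) = q (s r - 1)) (h2 : P (s r) = q (s r)) (h3 : P (s r + 1) = q (s r + 1))
    (h : Occ (fun i => g0 π P s e i r) cc) :
    Occ (fun i => (appF (trio π q s) e : Fin (3 + 2) → W → V) i r) cc := by
  refine h.sub (Function.Embedding.refl _) (fun i => ?_)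
  fin_cases i
  · change π (P (s r - 1)) = π (q (s r - 1)); rw [h1]
  · change π (P (s r)) = π (q (s r)); rw [h2]
  · change π (P (s r + 1)) = π (q (s r + 1)); rw [h3]
  all_goals rfl

theorem occ_finalD {P q : ℤ → W} {c c' c'' s : W → ℤ} {e : Fin 2 → W → V} {r : W}
    {cc : Fin 7 → V} (hc : c r = c' r) (hc'' : c'' r = s r - 1 ∨ c'' r = s r)
    (h : Occ (fun i => snocF (g3 π P q c s e) (fun r => π (q (s r - 1))) i r) cc) :
    Occ (fun i => (appF (pair π P c') (pair π q c'') : Fin (2 + 2) → W → V) i r) cc := by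
  rcases hc'' with h2 | h2
  · refine h.sub ⟨(![0, 1, 6, 4] : Fin 4 → Fin 7), by decide⟩ (fun i => ?_)
    fin_cases i
    · change π (P (c r)) = π (P (c' r)); rw [hc]
    · change π (P (c r + 1)) = π (P (c' r + 1)); rw [hc]
    · change π (q (s r - 1)) = π (q (c'' r)); rw [h2]
    · change π (q (s r)) = π (q (c'' r + 1)); rw [h2, sub_add_cancel]
  · refine h.sub ⟨(![0, 1, 4, 5] : Fin 4 → Fin 7), by decide⟩ (fun i => ?_)
    fin_cases i
    · change π (P (c r)) = π (P (c' r)); rw [hc]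
    · change π (P (c r + 1)) = π (P (c' r + 1)); rw [hc]
    · change π (q (s r)) = π (q (c'' r)); rw [h2]
    · change π (q (s r + 1)) = π (q (c'' r + 1)); rw [h2]

section Geometry

variable {R D O : Set W} {P q : ℤ → W} {J : Set ℤ} {s : W → ℤ} {i j : ℤ}

theorem walk_q (hp : Pocket H R D O P q J s i j) (t : ℤ) : Step H (q t) (q (t + 1)) := by
  by_cases h1 : t < i
  · rw [hp.det.out t (Or.inl (by omega)), hp.det.out (t + 1) (Or.inl (by omega))]
    exact hp.walk t
  · by_cases h2 : t < j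
    · exact Or.inr (hp.det.adj t (by omega) h2)
    · rw [hp.det.out t (Or.inr (by omega)), hp.det.out (t + 1) (Or.inr (by omega))]
      exact hp.walk t

theorem walk_map (hπ : IsCover G H π) {P : ℤ → W} (h : ∀ t, Step H (P t) (P (t + 1))) (t : ℤ) :
    Step G (π (P t)) (π (P (t + 1))) := (h t).map hπ

theorem step_of_walk {p : ℤ → V} (h : ∀ t, Step G (p t) (p (t + 1))) {a b : ℤ}
    (hab : |a - b| ≤ 1) : Step G (p a) (p b) := by
  have h1 : b = a ∨ b = a + 1 ∨ a = b + 1 := by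
    have := abs_le.1 hab
    omega
  rcases h1 with h1 | h1 | h1
  · rw [h1]; exact Step.refl _ _
  · rw [h1]; exact h _
  · rw [h1]; exact (h _).symm

theorem lipD (hp : Pocket H R D O P q J s i j) : Lip H D s :=
  fun r hr r' hr' h => hp.pot.lip r (hp.subD hr) r' (hp.subD hr') h

theorem potDP (hp : Pocket H R D O P q J s i j) : Potential H D P (Set.Icc i j) s :=
  ⟨lipD hp, fun r hr t ht h => hp.pot.near r (hp.subD hr) t (hp.hJ ht) h⟩

theorem potDq (hp : Pocket H R D O P q J s i j) : Potential H D q (Set.Icc i j) s := by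
  refine ⟨lipD hp, fun r hr t ht h => ?_⟩
  by_cases h1 : i < t ∧ t < j
  · obtain ⟨h2, h3⟩ := hp.det.mem t h1.1 h1.2
    have := hp.pot.lip r (hp.subD hr) (q t) h2 h
    rwa [h3] at this
  · have h2 : q t = P t := hp.det.out t (by
      have := ht.1; have := ht.2; by_contra hcon; push Not at hcon; exact h1 ⟨hcon.1, hcon.2⟩)
    rw [h2] at h
    exact hp.pot.near r (hp.subD hr) t (hp.hJ ht) h

theorem noDetP (hp : Pocket H R D O P q J s i j) : NoDet H D P (Set.Icc i j) s :=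
  fun r hr h1 h2 => hp.strict r hr (Or.inl h1) (Or.inl h2)

theorem pfP (hp : Pocket H R D O P q J s i j) :
    PairFun H D P (Set.Icc i j) s (cTo H D P (Set.Icc i j) s) :=
  pairFun_cTo (potDP hp) (noDetP hp)

theorem c1_val (hp : Pocket H R D O P q J s i j) (r : W) :
    c1 H D P i j s r = s r - 1 ∨ c1 H D P i j s r = s r := by
  classical
  by_cases h : r ∈ D
  · simp only [c1, if_pos h]
    exact (pfP hp).val r
  · left
    simp only [c1, if_neg h]

theorem c1_of_not {D : Set W} {P : ℤ → W} {s : W → ℤ} {i j : ℤ} {r : W} (h : r ∉ D) :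
    c1 H D P i j s r = s r - 1 := by
  classical
  simp only [c1, if_neg h]

theorem c1_of_mem {D : Set W} {P : ℤ → W} {s : W → ℤ} {i j : ℤ} {r : W} (h : r ∈ D) :
    c1 H D P i j s r = cTo H D P (Set.Icc i j) s r := by
  classical
  simp only [c1, if_pos h]

theorem cTo_eq_of_to {R : Set W} {P : ℤ → W} {J : Set ℤ} {s : W → ℤ} {r : W}
    (h : cTo H R P J s r = s r) : ToLine H R P J s r := by
  classical
  by_contra hcon
  simp only [cTo, if_neg hcon] at h
  omega

/-- An edge between `D` and a point outside `D`: the point is on `q`. -/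
theorem edge_D (hp : Pocket H R D O P q J s i j) {r r' : W} (hr : r ∈ D) (hr' : r' ∈ R)
    (hD : r' ∉ D) (h : H.Adj r r') : ∃ t, i < t ∧ t < j ∧ r' = q t := by
  rcases hp.part r' hr' with h1 | h1 | h1
  · exact absurd h1 hD
  · exact absurd h (hp.sep r hr r' h1)
  · exact h1

theorem c1_lip_aux (hp : Pocket H R D O P q J s i j) {r r' : W} (hr : r ∈ D) (hr' : r' ∈ R)
    (hD : r' ∉ D) (h : H.Adj r r') : |c1 H D P i j s r - c1 H D P i j s r'| ≤ 1 := by
  obtain ⟨t, h1, h2, rfl⟩ := edge_D hp hr hr' hD h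
  obtain ⟨h3, h4⟩ := hp.det.mem t h1 h2
  rw [c1_of_not hD, c1_of_mem hr, h4]
  have h5 := abs_le.1 (hp.pot.lip r (hp.subD hr) (q t) hr' h)
  rw [h4] at h5
  have h6 := (pfP hp).val r
  by_contra hcon
  have h7 : s r = t + 1 ∧ cTo H D P (Set.Icc i j) s r = s r := by
    rcases h6 with h6 | h6
    · exfalso
      apply hcon
      rw [h6]
      rw [abs_le]
      omega
    · refine ⟨?_, h6⟩
      by_contra h8
      apply hcon
      rw [h6, abs_le]
      omega
  refine hp.strict r hr (Or.inr ?_) (Or.inl (cTo_eq_of_to h7.2))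
  exact ⟨r, Relation.ReflTransGen.refl, hr, t, ⟨h1.le, h2.le⟩, h, by omega⟩

theorem c1_lip (hp : Pocket H R D O P q J s i j) : Lip H R (c1 H D P i j s) := by
  intro r hr r' hr' h
  by_cases h1 : r ∈ D
  · by_cases h2 : r' ∈ D
    · rw [c1_of_mem h1, c1_of_mem h2]
      exact (pfP hp).lip r h1 r' h2 h
    · exact c1_lip_aux hp h1 hr' h2 h
  · by_cases h2 : r' ∈ D
    · rw [abs_sub_comm]
      exact c1_lip_aux hp h2 hr h1 h.symm
    · rw [c1_of_not h1, c1_of_not h2]
      have := hp.pot.lip r hr r' hr' h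
      rwa [sub_sub_sub_cancel_right]

/-- The guard of the first two phases. -/
theorem guard0 (hπ : IsCover G H π) (hp : Pocket H R D O P q J s i j) {e : Fin 2 → W → V}
    (he : ∀ a, ∀ r ∈ R, ∀ r' ∈ R, H.Adj r r' → Step G (e a r) (e a r'))
    (hcov : ∀ r ∈ R, ∀ y, H.Adj r y → y ∉ R → (∃ t ∈ J, y = P t) ∨ ∃ a, e a r = π y) :
    Guard G H π R (g0 π P s e) := by
  have hw := walk_map hπ hp.walk
  constructor
  · intro a r hr r' hr' h
    have h1 := hp.pot.lip r hr r' hr' h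
    fin_cases a
    · change Step G (π (P (s r - 1))) (π (P (s r' - 1)))
      exact step_of_walk (p := fun t => π (P t)) hw (by rwa [sub_sub_sub_cancel_right])
    · change Step G (π (P (s r))) (π (P (s r')))
      exact step_of_walk (p := fun t => π (P t)) hw h1
    · change Step G (π (P (s r + 1))) (π (P (s r' + 1)))
      exact step_of_walk (p := fun t => π (P t)) hw (by rwa [add_sub_add_right_eq_sub])
    · exact he 0 r hr r' hr' h
    · exact he 1 r hr r' hr' h
  · intro r hr r' h hr'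
    rcases hcov r hr r' h hr' with ⟨t, ht, rfl⟩ | ⟨a, ha⟩
    · have h1 := abs_le.1 (hp.pot.near r hr t ht h)
      have h2 : t = s r - 1 ∨ t = s r ∨ t = s r + 1 := by omega
      rcases h2 with h2 | h2 | h2
      · exact ⟨(0 : Fin 5), by rw [h2]; rfl⟩
      · exact ⟨(1 : Fin 5), by rw [h2]; rfl⟩
      · exact ⟨(2 : Fin 5), by rw [h2]; rfl⟩
    · fin_cases a
      · exact ⟨(3 : Fin 5), ha⟩
      · exact ⟨(4 : Fin 5), ha⟩

/-- The guard of the third phase. -/
theorem guard3 (hπ : IsCover G H π) (hp : Pocket H R D O P q J s i j) {e : Fin 2 → W → V}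
    (he : ∀ a, ∀ r ∈ R, ∀ r' ∈ R, H.Adj r r' → Step G (e a r) (e a r'))
    (hcov : ∀ r ∈ R, ∀ y, H.Adj r y → y ∉ R → (∃ t ∈ J, y = P t) ∨ ∃ a, e a r = π y) :
    Guard G H π R (g3 π P q (c1 H D P i j s) s e) := by
  have hw := walk_map hπ hp.walk
  have hwq := walk_map hπ (walk_q hp)
  constructor
  · intro a r hr r' hr' h
    have h1 := hp.pot.lip r hr r' hr' h
    have h2 := c1_lip hp r hr r' hr' h
    fin_cases a
    · exact step_of_walk (p := fun t => π (P t)) hw h2
    · exact step_of_walk (p := fun t => π (P t)) hw (by rwa [add_sub_add_right_eq_sub])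
    · exact he 0 r hr r' hr' h
    · exact he 1 r hr r' hr' h
    · exact step_of_walk (p := fun t => π (q t)) hwq h1
    · exact step_of_walk (p := fun t => π (q t)) hwq (by rwa [add_sub_add_right_eq_sub])
  · intro r hr r' h hr'
    have hP0 : ∀ t, t = c1 H D P i j s r → r' = P t →
        ∃ a, g3 π P q (c1 H D P i j s) s e a r = π r' := by
      rintro t rfl rfl; exact ⟨0, rfl⟩
    have hP1 : ∀ t, t = c1 H D P i j s r + 1 → r' = P t →
        ∃ a, g3 π P q (c1 H D P i j s) s e a r = π r' := by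
      rintro t rfl rfl; exact ⟨1, rfl⟩
    have hQ1 : ∀ t, t = s r + 1 → r' = q t →
        ∃ a, g3 π P q (c1 H D P i j s) s e a r = π r' := by
      rintro t rfl rfl; exact ⟨5, rfl⟩
    by_cases hD : r ∈ D
    · rcases hp.nD r hD r' h with h1 | ⟨t, h1, h2, rfl⟩
      · exact absurd h1 hr'
      · have h3 := (pfP hp).cov r hD t ⟨h1, h2⟩ h
        rw [← c1_of_mem hD] at h3
        rcases h3 with h3 | h3
        · exact hP0 t h3 rfl
        · exact hP1 t h3 rfl
    · rcases hcov r hr r' h hr' with ⟨t, ht, hrt⟩ | ⟨a, ha⟩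
      · rw [hrt] at h
        have hc := c1_of_not (H := H) (D := D) (P := P) (s := s) (i := i) (j := j) hD
        have h1 := abs_le.1 (hp.pot.near r hr t ht h)
        have h2 : t = s r - 1 ∨ t = s r ∨ t = s r + 1 := by omega
        rcases h2 with h2 | h2 | h2
        · exact hP0 t (by omega) hrt
        · exact hP1 t (by omega) hrt
        · -- the case `t = s r + 1`
          refine hQ1 t h2 ?_
          rw [hrt]
          refine (hp.det.out t ?_).symm
          rcases hp.part r hr with h3 | h3 | ⟨t₀, h3, h4, rfl⟩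
          · exact absurd h3 hD
          · exact hp.nO r h3 t ht h
          · by_contra hcon
            push Not at hcon
            have h5 := hp.chord t₀ t h3 h4 hcon.1 hcon.2 h
            have h6 := (hp.det.mem t₀ h3 h4).2
            omega
      · fin_cases a
        · exact ⟨2, ha⟩
        · exact ⟨3, ha⟩

theorem ev_eq (hp : Pocket H R D O P q J s i j) {r : W} (h : r ∈ Ev O s i j) :
    P (s r - 1) = q (s r - 1) ∧ P (s r) = q (s r) ∧ P (s r + 1) = q (s r + 1) := by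
  obtain ⟨_, h⟩ := h
  refine ⟨(hp.det.out _ ?_).symm, (hp.det.out _ ?_).symm, (hp.det.out _ ?_).symm⟩ <;>
    rcases h with h | h <;> omega

/-- Outside the event the potential is bounded. -/
theorem bounded (hp : Pocket H R D O P q J s i j) :
    ∃ a b : ℤ, ∀ r ∈ R, r ∉ Ev O s i j → a ≤ s r ∧ s r ≤ b := by
  have hfin : (s '' D).Finite := hp.finD.image s
  obtain ⟨b, hb⟩ := hfin.bddAbove
  obtain ⟨a, ha⟩ := hfin.bddBelow
  refine ⟨min a (i - 1), max b (j + 1), fun r hr hE => ?_⟩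
  have hij := hp.det.hij
  rcases hp.part r hr with h1 | h1 | ⟨t, h1, h2, rfl⟩
  · exact ⟨(min_le_left _ _).trans (ha ⟨r, h1, rfl⟩), (hb ⟨r, h1, rfl⟩).trans (le_max_left _ _)⟩
  · have h2 : ¬ (s r < i - 1 ∨ j + 1 < s r) := fun h => hE ⟨h1, h⟩
    push Not at h2
    exact ⟨(min_le_right _ _).trans h2.1, h2.2.trans (le_max_right _ _)⟩
  · rw [(hp.det.mem t h1 h2).2]
    exact ⟨(min_le_right _ _).trans (by omega), le_trans (by omega) (le_max_right _ _)⟩

/-- The robber who enters the event comes from nearby. -/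
theorem ev_near' (hp : Pocket H R D O P q J s i j) {r : W} (h : r ∈ Ev O s i j)
    (hx : ∃ x ∈ R, x ∉ Ev O s i j ∧ H.Adj x r) : i - 2 ≤ s r ∧ s r ≤ j + 2 := by
  obtain ⟨x, hx, hE, hadj⟩ := hx
  have h1 := abs_le.1 (hp.pot.lip x hx r (hp.subO h.1) hadj)
  rcases hp.part x hx with h2 | h2 | ⟨t, h2, h3, rfl⟩
  · exact absurd hadj (hp.sep x h2 r h.1)
  · have h3 : ¬ (s x < i - 1 ∨ j + 1 < s x) := fun h => hE ⟨h2, h⟩
    omega
  · have := (hp.det.mem t h2 h3).2
    omega

theorem ev_near (hp : Pocket H R D O P q J s i j) {r r₀ : W} (h : r ∈ Ev O s i j)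
    (hx : r = r₀ ∨ ∃ x ∈ R, x ∉ Ev O s i j ∧ H.Adj x r) :
    r = r₀ ∨ (i - 2 ≤ s r ∧ s r ≤ j + 2) :=
  hx.imp_right (ev_near' hp h)

end Geometry

end G4

open G4 in
/-- The pocket shift lemma. `e` is the pair that guards the rest of the boundary of `R`. -/
theorem pocket_shift (hπ : IsCover G H π) (hG : G.Preconnected) {R D O : Set W} {P q : ℤ → W}
    {J : Set ℤ} {s : W → ℤ} {i j : ℤ} (hp : Pocket H R D O P q J s i j)
    (e : Fin 2 → W → V)
    (he : ∀ a, ∀ r ∈ R, ∀ r' ∈ R, H.Adj r r' → Step G (e a r) (e a r'))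
    (hcov : ∀ r ∈ R, ∀ y, H.Adj r y → y ∉ R → (∃ t ∈ J, y = P t) ∨ ∃ a, e a r = π y)
    {r₀ : W} {c₀ : Fin 7 → V} (h : Locked R (appF (trio π P s) e) r₀ c₀) :
    Forces G H π (fun r c =>
      Locked D (appF (pair π P (cTo H D P (Set.Icc i j) s))
        (pair π q (cTo H D q (Set.Icc i j) s))) r c ∨
      (Locked O (appF (trio π q s) e) r c ∧ (r = r₀ ∨ (i - 2 ≤ s r ∧ s r ≤ j + 2)))) r₀ c₀ := by
  classical
  obtain ⟨a, b, hab⟩ := bounded hp
  have hij := hp.det.hij
  have hwq := walk_map hπ (walk_q hp)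
  have hG0 := guard0 hπ hp he hcov
  have hG3 := guard3 hπ hp he hcov
  have hwq1 : ∀ t, Step G ((fun t => π (q (t + 1))) t) ((fun t => π (q (t + 1))) (t + 1)) :=
    fun t => hwq (t + 1)
  have hwq2 : ∀ t, Step G ((fun t => π (q (t - 1))) t) ((fun t => π (q (t - 1))) (t + 1)) := by
    intro t
    have := hwq (t - 1)
    simp only
    rwa [show t + 1 - 1 = t - 1 + 1 by ring]
  have hG1 : Guard G H π R (snocF (g0 π P s e) (fun r => π (q (s r)))) :=
    hG0.snoc (P := fun t => π (q t)) hwq hp.pot.lip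
  -- phase 1
  refine Forces.trans ?_ (lock_event (Ev := Ev O s i j) hG hG0 (by norm_num)
    (fun t => π (q t)) hwq s hp.pot.lip a b hab h)
  rintro r c (⟨h1, h2, h3⟩ | ⟨h1, h2⟩)
  · obtain ⟨e1, e2, e3⟩ := ev_eq hp h1
    exact Forces.now (Or.inr ⟨⟨h1.1, occ_event0 e1 e2 e3 h3.2⟩, ev_near hp h1 h2⟩)
  -- phase 2
  refine Forces.trans ?_ (lock_event (Ev := Ev O s i j) hG hG1 (by norm_num)
    (fun t => π (q (t + 1))) hwq1 s hp.pot.lip a b hab h2)
  rintro r' c' (⟨h3, h4, h5⟩ | ⟨h3, h4⟩)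
  · obtain ⟨e1, e2, e3⟩ := ev_eq hp h3
    refine Forces.now (Or.inr ⟨⟨h3.1, occ_event0 e1 e2 e3 ?_⟩, ?_⟩)
    · have h6 := h5.2
      rw [G1.snocF_apply] at h6
      exact G1.occ_snocF h6
    · exact Or.inr (ev_near' hp h3 (h4.resolve_left (fun h6 => h1 (h6 ▸ h3))))
  -- phase 3
  have h5 : Locked R (g3 π P q (c1 H D P i j s) s e) r' c' := by
    refine ⟨h4.1, occ_phase3 (c1_val hp r') h4.2⟩
  refine Forces.trans ?_ (lock_event (Ev := Ev O s i j) hG hG3 (by norm_num)
    (fun t => π (q (t - 1))) hwq2 s hp.pot.lip a b hab h5)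
  rintro r₂ c₂ (⟨h6, h7, h8⟩ | ⟨h6, h7⟩)
  · obtain ⟨e1, e2, e3⟩ := ev_eq hp h6
    have hD : r₂ ∉ D := fun hD => Set.disjoint_left.1 hp.disj hD h6.1
    refine Forces.now (Or.inr ⟨⟨h6.1, occ_eventO (c1_of_not hD) e1 h8.2⟩, Or.inr ?_⟩)
    exact ev_near' hp h6 (h7.resolve_left (fun h9 => h3 (h9 ▸ h6)))
  -- all seven cops are locked
  have hG4 : Guard G H π R (snocF (g3 π P q (c1 H D P i j s) s e)
      (fun r => π (q (s r - 1)))) := hG3.snoc (P := fun t => π (q (t - 1))) hwq2 hp.pot.lip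
  -- a position in `D` or in `O` is good
  have hgood : ∀ (r : W) (c : Fin 7 → V), (r ∈ D ∨ (r ∈ O ∧ i - 2 ≤ s r ∧ s r ≤ j + 2)) →
      Locked R (snocF (g3 π P q (c1 H D P i j s) s e) (fun r => π (q (s r - 1)))) r c →
      Locked D (appF (pair π P (cTo H D P (Set.Icc i j) s))
        (pair π q (cTo H D q (Set.Icc i j) s))) r c ∨
      (Locked O (appF (trio π q s) e) r c ∧ (r = r₀ ∨ (i - 2 ≤ s r ∧ s r ≤ j + 2))) := by
    rintro r c (h | ⟨h, h'⟩) hl
    · refine Or.inl ⟨h, occ_finalD (c1_of_mem h) ?_ hl.2⟩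
      by_cases h9 : ToLine H D q (Set.Icc i j) s r
      · right; simp only [cTo, if_pos h9]
      · left; simp only [cTo, if_neg h9]
    · exact Or.inr ⟨⟨h, occ_finalO hl.2⟩, Or.inr h'⟩
  have hnear : ∀ r ∈ O, r ∉ Ev O s i j → i - 2 ≤ s r ∧ s r ≤ j + 2 := by
    intro r hr hE
    have h3 : ¬ (s r < i - 1 ∨ j + 1 < s r) := fun h => hE ⟨hr, h⟩
    omega
  rcases hp.part r₂ h7.1 with h8 | h8 | ⟨t, h8, h9, h10⟩
  · exact Forces.now (hgood r₂ c₂ (Or.inl h8) h7)
  · exact Forces.now (hgood r₂ c₂ (Or.inr ⟨h8, hnear r₂ h8 h6⟩) h7)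
  -- the robber is on `q` and has to leave
  have hst : s r₂ = t := by rw [h10]; exact (hp.det.mem t h8 h9).2
  refine Forces.of_step fun r₃ hr₃ hne => ?_
  have hR₃ : r₃ ∈ R := hG4.mem_of_step h7 hr₃ hne
  obtain ⟨c', hc1, hc2⟩ := occ_move (G := G) h7.2 (G1.Guard.step hG4 h7.1 hR₃ hr₃)
  refine ⟨c', hc1, Forces.now (hgood r₃ c' ?_ ⟨hR₃, hc2⟩)⟩
  have hs₃ : |s r₂ - s r₃| ≤ 1 := by
    rcases hr₃ with rfl | hr₃
    · simp
    · exact hp.pot.lip r₂ h7.1 r₃ hR₃ hr₃
  have hs₃' := abs_le.1 hs₃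
  rcases hp.part r₃ hR₃ with h11 | h11 | ⟨t', h11, h12, h13⟩
  · exact Or.inl h11
  · exact Or.inr ⟨h11, by omega, by omega⟩
  · exfalso
    have hst' : s r₃ = t' := by rw [h13]; exact (hp.det.mem t' h11 h12).2
    obtain ⟨ι, hι⟩ := h7.2
    have h14 : t' = s r₂ - 1 ∨ t' = s r₂ ∨ t' = s r₂ + 1 := by omega
    rcases h14 with h14 | h14 | h14
    · exact hne (ι 6) ((hι 6).trans (by rw [h13, h14]; rfl))
    · exact hne (ι 4) ((hι 4).trans (by rw [h13, h14]; rfl))
    · exact hne (ι 5) ((hι 5).trans (by rw [h13, h14]; rfl))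

end Pool.Agent.MP_f5837d_co
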