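import Pool.Agent.Lib.MP_f5837d_co.DDefs
import Pool.Agent.Lib.MP_f5837d_co.G4

set_option autoImplicit false

namespace Pool.Agent.MP_f5837d_co

open SimpleGraph

variable {V W : Type*} {G : SimpleGraph V} {H : SimpleGraph W} {π : W → V}

/-! ## Components of a set of vertices -/

/-- The component of `r` in the set `S`. -/
def D1.comp (H : SimpleGraph W) (S : Set W) (r : W) : Set W :=
  {w | ∃ p : H.Walk r w, ∀ v ∈ p.support, v ∈ S}

theorem D1.comp_sub {S : Set W} {r : W} : D1.comp H S r ⊆ S :=
  fun w ⟨p, hp⟩ => hp w p.end_mem_support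

theorem D1.mem_comp {S : Set W} {r : W} (h : r ∈ S) : r ∈ D1.comp H S r :=
  ⟨.nil, by simpa using h⟩

theorem D1.comp_adj {S : Set W} {r a b : W} (ha : a ∈ D1.comp H S r) (hb : b ∈ S)
    (hab : H.Adj a b) : b ∈ D1.comp H S r := by
  obtain ⟨p, hp⟩ := ha
  refine ⟨p.concat hab, ?_⟩
  intro v hv
  rw [Walk.support_concat] at hv
  simp only [List.mem_append, List.mem_singleton] at hv
  rcases hv with hv | rfl
  · exact hp v hv
  · exact hb

theorem D1.comp_conn {S : Set W} {r a b : W} (ha : a ∈ D1.comp H S r)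
    (hb : b ∈ D1.comp H S r) : ∃ p : H.Walk a b, ∀ w ∈ p.support, w ∈ D1.comp H S r := by
  classical
  obtain ⟨p, hp⟩ := ha
  obtain ⟨q, hq⟩ := hb
  refine ⟨p.reverse.append q, ?_⟩
  intro w hw
  rw [Walk.mem_support_append_iff] at hw
  rcases hw with hw | hw
  · rw [Walk.support_reverse, List.mem_reverse] at hw
    exact ⟨p.takeUntil w hw, fun v hv => hp v (p.support_takeUntil_subset_support hw hv)⟩
  · exact ⟨q.takeUntil w hw, fun v hv => hq v (q.support_takeUntil_subset_support hw hv)⟩

theorem D1.exists_leave (hH : H.Connected) {R : Set W} {r x : W} (hr : r ∈ R) (hx : x ∉ R) :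
    ∃ a ∈ R, ∃ b, b ∉ R ∧ H.Adj a b := by
  obtain ⟨p⟩ := hH.preconnected r x
  obtain ⟨d, hd, h1, h2⟩ := p.exists_boundary_dart R hr hx
  exact ⟨d.fst, h1, d.snd, h2, d.adj⟩

variable [∀ w, Fintype (H.neighborSet w)]

/-! ## Task D1: the states S1 and E -/

omit [∀ w, Fintype (H.neighborSet w)] in
theorem D1.key_s (ρ : RotationSystem H) {R : Set W} {x y : W} (hs : SState H R x)
    (hyR : y ∈ R) (hyx : H.Adj y x) {r : W} {c : Fin 7 → V} (hr : r ∈ R) (hry : r ≠ y)
    (ho : Occ ![π x, π y] c) : GoodPos G H π ρ R.ncard r c := by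
  have hxy : x ≠ y := fun h => hs.hx (h ▸ hyR)
  have hsub : D1.comp H (R \ {y}) r ⊆ R := fun w hw => (D1.comp_sub hw).1
  refine Or.inr (Or.inr (Or.inl ⟨D1.comp H (R \ {y}) r, x, y, Walk.cons hyx.symm Walk.nil,
    ?_, ?_, ?_⟩))
  · refine Set.ncard_lt_ncard ⟨hsub, fun h => ?_⟩ hs.fin
    exact (D1.comp_sub (h hyR)).2 rfl
  · refine ⟨hs.fin.subset hsub, fun a ha b hb => D1.comp_conn ha hb, hxy, ?_, ?_, ?_⟩
    · simp [hxy]
    · intro w hw
      simp only [Walk.support_cons, Walk.support_nil, List.mem_cons, List.not_mem_nil, or_false,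
        not_or]
      exact ⟨fun h => hs.hx (h ▸ hsub hw), fun h => (D1.comp_sub hw).2 h⟩
    · intro a ha w haw
      rcases hs.nbr a (hsub ha) w haw with h | h
      · by_cases hwy : w = y
        · exact Or.inr (Or.inr hwy)
        · exact Or.inl (D1.comp_adj ha ⟨h, hwy⟩ haw)
      · exact Or.inr (Or.inl h)
  · refine ⟨D1.mem_comp ⟨hr, hry⟩, ?_⟩
    refine ho.sub (Function.Embedding.refl _) ?_
    intro i
    fin_cases i <;> rfl

theorem s_step (hπ : IsCover G H π) (hG : G.Preconnected) (hH : H.Connected) (Pl : Plane H)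
    {R : Set W} {x : W} (hs : SState H R x) {r : W} {c : Fin 7 → V}
    (h : Locked R ![fun _ => π x] r c) :
    Forces G H π (GoodPos G H π Pl.toRotationSystem R.ncard) r c := by
  obtain ⟨y, hyR, b, hb, hyb⟩ := D1.exists_leave hH h.1 hs.hx
  have hyx : H.Adj y x := by
    rcases hs.nbr y hyR b hyb with h | h
    · exact absurd h hb
    · exact h ▸ hyb
  have hguard : Guard G H π R ![fun _ => π x] := by
    refine ⟨?_, ?_⟩
    · intro i r hr r' hr' hadj
      fin_cases i
      exact Step.refl _ _
    · intro r hr r' hadj hr'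
      rcases hs.nbr r hr r' hadj with h | h
      · exact absurd h hr'
      · exact ⟨0, by simp [h]⟩
  have hlip : Lip H R (fun _ => (0 : ℤ)) := by
    intro a _ b _ _
    simp
  have L := lock hG hguard (by norm_num) (fun _ => π y) (fun _ => Step.refl _ _) (fun _ => 0)
    hlip 0 0 (by simp) h
  have hguard2 : Guard G H π R (snocF ![fun _ => π x] (fun r => (fun _ => π y) ((fun _ => (0 : ℤ)) r))) :=
    hguard.snoc (P := fun _ => π y) (fun _ => Step.refl _ _) hlip
  refine Forces.trans ?_ L
  intro r₁ c₁ h₁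
  have hocc : Occ ![π x, π y] c₁ := by
    refine h₁.2.sub (Function.Embedding.refl _) ?_
    intro i
    fin_cases i <;> rfl
  by_cases hry : r₁ = y
  · refine Forces.of_step ?_
    intro r' hr' hne
    have hr'R : r' ∈ R := Guard.mem_of_step hguard2 h₁ hr' hne
    have hr'y : r' ≠ y := by
      rintro rfl
      obtain ⟨ι, hι⟩ := hocc
      exact hne (ι 1) (by rw [hι 1]; rfl)
    exact ⟨c₁, fun i => Step.refl _ _, Forces.now (D1.key_s _ hs hyR hyx hr'R hr'y hocc)⟩
  · exact Forces.now (D1.key_s _ hs hyR hyx h₁.1 hry hocc)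

/-- The graph on `R ∪ {x}`. -/
def D1.KG (H : SimpleGraph W) (R : Set W) (x : W) : SimpleGraph W where
  Adj a b := H.Adj a b ∧ (a ∈ R ∨ a = x) ∧ (b ∈ R ∨ b = x)
  symm := ⟨fun _ _ h => ⟨h.1.symm, h.2.2, h.2.1⟩⟩
  loopless := ⟨fun _ h => H.irrefl h.1⟩

omit [∀ w, Fintype (H.neighborSet w)] in
theorem D1.KG_walk {R : Set W} {x a b : W} (p : (D1.KG H R x).Walk a b) (ha : a ∈ R ∨ a = x) :
    ∀ w ∈ p.support, w ∈ R ∨ w = x := by
  induction p with
  | nil => simpa using ha
  | cons h p ih =>
    intro w hw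
    rw [Walk.support_cons, List.mem_cons] at hw
    rcases hw with rfl | hw
    · exact ha
    · exact ih h.2.2 w hw

omit [∀ w, Fintype (H.neighborSet w)] in
theorem D1.KG_of_walk {R : Set W} {x a b : W} (p : H.Walk a b) (hp : ∀ w ∈ p.support, w ∈ R) :
    (D1.KG H R x).Reachable a b := by
  induction p with
  | nil => exact Reachable.refl _
  | cons h p ih =>
    have h1 : ∀ w ∈ p.support, w ∈ R := fun w hw => hp w (by simp [hw])
    have hadj : (D1.KG H R x).Adj _ _ := ⟨h, Or.inl (hp _ (by simp)), Or.inl (h1 _ (by simp))⟩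
    exact hadj.reachable.trans (ih h1)

omit [∀ w, Fintype (H.neighborSet w)] in
theorem D1.dist_adj {K : SimpleGraph W} {x a b : W} (ha : K.Reachable x a) (hab : K.Adj a b) :
    K.dist x b ≤ K.dist x a + 1 := by
  obtain ⟨p, hp⟩ := ha.exists_walk_length_eq_dist
  rw [← hp]
  refine (dist_le (p.concat hab)).trans ?_
  rw [Walk.length_concat]

omit [∀ w, Fintype (H.neighborSet w)] in
theorem D1.dist_getVert {K : SimpleGraph W} {x a : W} (p : K.Walk x a)
    (hp : p.length = K.dist x a) {k : ℕ} (hk : k ≤ p.length) : K.dist x (p.getVert k) = k := by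
  have h1 : K.dist x (p.getVert k) ≤ k := by
    refine (dist_le (p.take k)).trans ?_
    rw [Walk.take_length]
    exact min_le_left _ _
  obtain ⟨q, hq⟩ := (p.take k).reachable.exists_walk_length_eq_dist
  have h2 : K.dist x a ≤ K.dist x (p.getVert k) + (p.length - k) := by
    rw [← hq]
    refine (dist_le (q.append (p.drop k))).trans ?_
    rw [Walk.length_append, Walk.drop_length]
  omega

omit [∀ w, Fintype (H.neighborSet w)] in
theorem D1.exists_path {R : Set W} {x y : W} {B : H.Walk x y} (hs : EState H R B)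
    {y₁ : W} (hy₁ : y₁ ∈ R) (hxy₁ : H.Adj x y₁) {y₂ : W} (hy₂ : y₂ ∈ R) (hyy₂ : H.Adj y₂ y) :
    ∃ (Q : H.Walk x y) (s : W → ℤ), Q.IsPath ∧ 2 ≤ Q.length ∧
      (∀ w ∈ Q.support, w = x ∨ w = y ∨ w ∈ R) ∧ Lip H R s ∧
      (∀ r, 0 ≤ s r ∧ s r ≤ Q.length) ∧
      (∀ r ∈ R, ∀ k : ℕ, k ≤ Q.length → H.Adj r (Q.getVert k) → |s r - k| ≤ 1) ∧
      (∀ k : ℕ, k < Q.length → s (Q.getVert k) = k) := by
  classical
  have hxR : x ∉ R := fun h => hs.offB x h B.start_mem_support
  have hyR : y ∉ R := fun h => hs.offB y h B.end_mem_support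
  set K := D1.KG H R x with hK
  have hKH : K ≤ H := fun a b h => h.1
  have hreach : ∀ r ∈ R, K.Reachable x r := by
    intro r hr
    obtain ⟨p, hp⟩ := hs.conn y₁ hy₁ r hr
    have hadj : K.Adj x y₁ := ⟨hxy₁, Or.inr rfl, Or.inl hy₁⟩
    exact hadj.reachable.trans (D1.KG_of_walk p hp)
  have hreach' : ∀ r, (r ∈ R ∨ r = x) → K.Reachable x r := by
    rintro r (h | rfl)
    · exact hreach r h
    · exact Reachable.refl _
  obtain ⟨z, ⟨hzR, hzy⟩, hz⟩ := Set.exists_min_image {r | r ∈ R ∧ H.Adj r y}
    (fun r => K.dist x r) (hs.fin.subset fun r h => h.1) ⟨y₂, hy₂, hyy₂⟩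
  obtain ⟨q, hq⟩ := (hreach z hzR).exists_walk_length_eq_dist
  have hqp : q.IsPath := q.isPath_of_length_eq_dist hq
  have hqs := D1.KG_walk q (Or.inr rfl)
  have hxz : x ≠ z := fun h => hxR (h ▸ hzR)
  have hpos : 1 ≤ q.length := by
    rw [hq]
    exact (hreach z hzR).pos_dist_of_ne hxz
  have hQlen : ((q.mapLe hKH).concat hzy).length = q.length + 1 := by
    rw [Walk.length_concat, Walk.length_map]
  have hyq : y ∉ (q.mapLe hKH).support := by
    intro h
    rw [Walk.support_mapLe_eq_support] at h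
    rcases hqs y h with h | h
    · exact hyR h
    · exact hs.ne h.symm
  have hget : ∀ k ≤ q.length, ((q.mapLe hKH).concat hzy).getVert k = q.getVert k := by
    intro k hk
    rw [Walk.concat_eq_append, Walk.getVert_append, Walk.length_map]
    split_ifs with h
    · simp
    · have : k = q.length := by omega
      subst this
      simp
  refine ⟨(q.mapLe hKH).concat hzy, fun r => ((min (K.dist x r) (q.length + 1) : ℕ) : ℤ),
    ?_, ?_, ?_, ?_, ?_, ?_, ?_⟩
  · exact (hqp.mapLe hKH).concat hyq hzy
  · rw [hQlen]; omega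
  · intro w hw
    rw [Walk.support_concat] at hw
    simp only [List.mem_append, List.mem_singleton, Walk.support_mapLe_eq_support] at hw
    rcases hw with hw | hw
    · rcases hqs w hw with h | h
      · exact Or.inr (Or.inr h)
      · exact Or.inl h
    · exact Or.inr (Or.inl hw)
  · intro a ha b hb hab
    have hab' : K.Adj a b := ⟨hab, Or.inl ha, Or.inl hb⟩
    have h1 := D1.dist_adj (hreach a ha) hab'
    have h2 := D1.dist_adj (hreach b hb) hab'.symm
    rw [abs_le]
    dsimp only
    constructor <;> omega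
  · intro r
    rw [hQlen]
    dsimp only
    constructor <;> omega
  · intro a ha k hk hadj
    rw [hQlen] at hk
    by_cases hk' : k ≤ q.length
    · rw [hget k hk'] at hadj
      have hmem : q.getVert k ∈ R ∨ q.getVert k = x := hqs _ (q.getVert_mem_support k)
      have hab' : K.Adj a (q.getVert k) := ⟨hadj, Or.inl ha, hmem⟩
      have h1 := D1.dist_adj (hreach a ha) hab'
      have h2 := D1.dist_adj (hreach' _ hmem) hab'.symm
      rw [D1.dist_getVert q hq hk'] at h1 h2
      rw [abs_le]
      dsimp only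
      constructor <;> omega
    · have hk2 : k = q.length + 1 := by omega
      have hky : ((q.mapLe hKH).concat hzy).getVert k = y := by
        rw [hk2, ← hQlen, Walk.getVert_length]
      rw [hky] at hadj
      have h1 : K.dist x z ≤ K.dist x a := hz a ⟨ha, hadj⟩
      rw [← hq] at h1
      rw [abs_le]
      dsimp only
      constructor <;> omega
  · intro k hk
    rw [hQlen] at hk
    rw [hget k (by omega)]
    simp only
    rw [D1.dist_getVert q hq (by omega)]
    congr 1
    omega

theorem D1.key_e (hH : H.Connected) (Pl : Plane H) {R : Set W} {x y : W} {B : H.Walk x y}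
    (hs : EState H R B) (Q : H.Walk x y) (s : W → ℤ) (hQ : Q.IsPath) (hQ2 : 2 ≤ Q.length)
    (hQR : ∀ w ∈ Q.support, w = x ∨ w = y ∨ w ∈ R) (hlip : Lip H R s)
    (hnear : ∀ r ∈ R, ∀ k : ℕ, k ≤ Q.length → H.Adj r (Q.getVert k) → |s r - k| ≤ 1)
    {r : W} {c : Fin 7 → V} (hr : r ∈ R) (hrQ : r ∉ Q.support)
    (ho : Occ (fun i => appF (trio π (fun t => Q.getVert t.toNat) s)
      ![fun _ => π x, fun _ => π y] i r) c) :
    GoodPos G H π Pl.toRotationSystem R.ncard r c := by
  have hxR : x ∉ R := fun h => hs.offB x h B.start_mem_support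
  have hyR : y ∉ R := fun h => hs.offB y h B.end_mem_support
  set R' := D1.comp H (R \ {w | w ∈ Q.support}) r with hR'
  have hsub : R' ⊆ R := fun w hw => (D1.comp_sub hw).1
  have hsubQ : ∀ w ∈ R', w ∉ Q.support := fun w hw => (D1.comp_sub hw).2
  have hint : Q.getVert 1 ∈ R := by
    rcases hQR _ (Q.getVert_mem_support 1) with h | h | h
    · exfalso
      have := hQ.getVert_injOn (show (1 : ℕ) ∈ {i | i ≤ Q.length} by simp; omega)
        (show (0 : ℕ) ∈ {i | i ≤ Q.length} by simp) (by rw [h, Walk.getVert_zero])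
      omega
    · exfalso
      have := hQ.getVert_injOn (show (1 : ℕ) ∈ {i | i ≤ Q.length} by simp; omega)
        (show Q.length ∈ {i | i ≤ Q.length} by simp) (by rw [h, Walk.getVert_length])
      omega
    · exact h
  refine Or.inr (Or.inr (Or.inr (Or.inr ⟨R', x, y, Q, B, fun t => Q.getVert t.toNat, 0, s,
    ![fun _ => π x, fun _ => π y], ?_, ?_, ?_⟩)))
  · refine Set.ncard_lt_ncard ⟨hsub, fun h => ?_⟩ hs.fin
    exact hsubQ _ (h hint) (Q.getVert_mem_support 1)
  · refine ⟨?_, ?_, ?_, ⟨?_, ?_⟩, ?_, ?_, ?_⟩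
    · refine cyc_of_paths hH Pl Q B hs.ne hQ hs.hB ?_ ?_ ?_ hsubQ ?_ (hs.fin.subset hsub)
        (fun a ha b hb => D1.comp_conn ha hb)
      · intro w hw hwB
        rcases hQR w hw with h | h | h
        · exact Or.inl h
        · exact Or.inr h
        · exact absurd hwB (hs.offB w h)
      · have : 1 ≤ B.length := by
          rcases Nat.eq_zero_or_pos B.length with h | h
          · exact absurd (Walk.eq_of_length_eq_zero h) hs.ne
          · exact h
        omega
      · intro a ha w haw
        rcases hs.nbr a (hsub ha) w haw with h | h | h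
        · by_cases hwQ : w ∈ Q.support
          · exact Or.inr (Or.inl hwQ)
          · exact Or.inl (D1.comp_adj ha ⟨h, hwQ⟩ haw)
        · exact Or.inr (Or.inl (h ▸ Q.start_mem_support))
        · exact Or.inr (Or.inl (h ▸ Q.end_mem_support))
      · intro a ha
        exact hs.offB a (hsub ha)
    · intro t
      by_cases ht : 0 ≤ t
      · have h1 : (t + 1).toNat = t.toNat + 1 := by omega
        rw [h1]
        by_cases hlt : t.toNat < Q.length
        · exact Or.inr (Q.adj_getVert_succ hlt)
        · left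
          rw [Walk.getVert_of_length_le Q (by omega), Walk.getVert_of_length_le Q (by omega)]
      · left
        have h1 : (t + 1).toNat = 0 := by omega
        have h2 : t.toNat = 0 := by omega
        rw [h1, h2]
    · intro k hk
      congr 1
      omega
    · intro a ha b hb hab
      exact hlip a (hsub ha) b (hsub hb) hab
    · intro a ha t ht hadj
      have h1 := hnear a (hsub ha) t.toNat (by have := ht.2; omega) hadj
      have h2 : ((t.toNat : ℕ) : ℤ) = t := by have := ht.1; omega
      rw [h2] at h1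
      exact h1
    · intro i j n hij hj hne hdet
      exfalso
      obtain ⟨p, hp, hn, hpR⟩ := hdet
      have hBxy : ∀ k, k ≤ B.length → B.getVert k = x ∨ B.getVert k = y → k = 0 ∨ k = B.length := by
        rintro k hk (h | h)
        · left
          exact hs.hB.getVert_injOn (show k ∈ {i | i ≤ B.length} from hk)
            (show (0 : ℕ) ∈ {i | i ≤ B.length} by simp) (by rw [h, Walk.getVert_zero])
        · right
          exact hs.hB.getVert_injOn (show k ∈ {i | i ≤ B.length} from hk)
            (show B.length ∈ {i | i ≤ B.length} by simp) (by rw [h, Walk.getVert_length])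
      have hi : i = 0 ∨ i = B.length := by
        apply hBxy i (by omega)
        have hadj : H.Adj (p.getVert 0) (p.getVert 1) := p.adj_getVert_succ (by omega)
        rw [Walk.getVert_zero] at hadj
        rcases hs.nbr _ (hsub (hpR 1 (by omega) (by omega))) _ hadj.symm with h | h
        · exact absurd (B.getVert_mem_support i) (hs.offB _ h)
        · exact h
      have hj' : j = 0 ∨ j = B.length := by
        apply hBxy j hj
        have hadj : H.Adj (p.getVert (n - 1)) (p.getVert (n - 1 + 1)) :=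
          p.adj_getVert_succ (by omega)
        have h1 : n - 1 + 1 = p.length := by omega
        rw [h1, Walk.getVert_length] at hadj
        rcases hs.nbr _ (hsub (hpR (n - 1) (by omega) (by omega))) _ hadj with h | h
        · exact absurd (B.getVert_mem_support j) (hs.offB _ h)
        · exact h
      apply hne
      omega
    · intro a b _ b' _ _
      fin_cases a <;> exact Step.refl _ _
    · intro a ha w hw haw
      rcases hs.nbr a (hsub ha) w haw with h | h | h
      · exact absurd hw (hs.offB w h)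
      · exact Or.inl h
      · exact Or.inr (Or.inl h)
  · exact ⟨D1.mem_comp ⟨hr, hrQ⟩, ho⟩

theorem e_step (hπ : IsCover G H π) (hG : G.Preconnected) (hH : H.Connected) (Pl : Plane H)
    {R : Set W} {x y : W} {B : H.Walk x y} (hs : EState H R B) {r : W} {c : Fin 7 → V}
    (h : Locked R ![fun _ => π x, fun _ => π y] r c) :
    Forces G H π (GoodPos G H π Pl.toRotationSystem R.ncard) r c := by
  have hxR : x ∉ R := fun h => hs.offB x h B.start_mem_support
  have hyR : y ∉ R := fun h => hs.offB y h B.end_mem_support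
  by_cases hy₁ : ∃ y₁ ∈ R, H.Adj y₁ x
  swap
  · refine s_step hπ hG hH Pl (x := y) ⟨hs.fin, hs.conn, hyR, ?_⟩ ⟨h.1, ?_⟩
    · intro a ha w haw
      rcases hs.nbr a ha w haw with h | h | h
      · exact Or.inl h
      · exact absurd ⟨a, ha, h ▸ haw⟩ hy₁
      · exact Or.inr h
    · refine h.2.sub ⟨fun _ => 1, fun a b _ => Subsingleton.elim a b⟩ ?_
      intro i
      fin_cases i
      rfl
  by_cases hy₂ : ∃ y₂ ∈ R, H.Adj y₂ y
  swap
  · refine s_step hπ hG hH Pl (x := x) ⟨hs.fin, hs.conn, hxR, ?_⟩ ⟨h.1, ?_⟩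
    · intro a ha w haw
      rcases hs.nbr a ha w haw with h | h | h
      · exact Or.inl h
      · exact Or.inr h
      · exact absurd ⟨a, ha, h ▸ haw⟩ hy₂
    · refine h.2.sub ⟨fun _ => 0, fun a b _ => Subsingleton.elim a b⟩ ?_
      intro i
      fin_cases i
      rfl
  obtain ⟨y₁, hy₁, hxy₁⟩ := hy₁
  obtain ⟨y₂, hy₂, hyy₂⟩ := hy₂
  obtain ⟨Q, s, hQ, hQ2, hQR, hlip, hbd, hnear, hval⟩ :=
    D1.exists_path hs hy₁ hxy₁.symm hy₂ hyy₂
  set P : ℤ → W := fun t => Q.getVert t.toNat with hP
  have hPs : ∀ t, Step H (P t) (P (t + 1)) := by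
    intro t
    simp only [hP]
    by_cases ht : 0 ≤ t
    · have h1 : (t + 1).toNat = t.toNat + 1 := by omega
      rw [h1]
      by_cases hlt : t.toNat < Q.length
      · exact Or.inr (Q.adj_getVert_succ hlt)
      · left
        rw [Walk.getVert_of_length_le Q (by omega), Walk.getVert_of_length_le Q (by omega)]
    · left
      have h1 : (t + 1).toNat = 0 := by omega
      have h2 : t.toNat = 0 := by omega
      rw [h1, h2]
  have hPG : ∀ t, Step G (π (P t)) (π (P (t + 1))) := fun t => (hPs t).map hπ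
  have hg : Guard G H π R ![fun _ => π x, fun _ => π y] := by
    refine ⟨?_, ?_⟩
    · intro i a _ b _ _
      fin_cases i <;> exact Step.refl _ _
    · intro a ha b hab hb
      rcases hs.nbr a ha b hab with h | h | h
      · exact absurd h hb
      · exact ⟨0, by simp [h]⟩
      · exact ⟨1, by simp [h]⟩
  have hl1 : Lip H R (fun r => s r - 1) := by
    intro a ha b hb hab
    have := hlip a ha b hb hab
    simpa using this
  have hl3 : Lip H R (fun r => s r + 1) := by
    intro a ha b hb hab
    have := hlip a ha b hb hab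
    simpa using this
  have hg1 := hg.snoc hPG hl1
  have hg2 := hg1.snoc hPG hlip
  have hg3 := hg2.snoc hPG hl3
  have L1 := lock hG hg (by norm_num) (fun t => π (P t)) hPG (fun r => s r - 1) hl1
    (-1) (Q.length) (fun r _ => by have := hbd r; constructor <;> omega) h
  refine Forces.trans (fun r₁ c₁ h₁ => ?_) L1
  have L2 := lock hG hg1 (by norm_num) (fun t => π (P t)) hPG s hlip
    0 (Q.length) (fun r _ => hbd r) h₁
  refine Forces.trans (fun r₂ c₂ h₂ => ?_) L2
  have L3 := lock hG hg2 (by norm_num) (fun t => π (P t)) hPG (fun r => s r + 1) hl3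
    0 (Q.length + 1) (fun r _ => by have := hbd r; constructor <;> omega) h₂
  refine Forces.trans (fun r₃ c₃ h₃ => ?_) L3
  have hocc : ∀ {r : W} {c : Fin 7 → V}, Occ (fun i => (snocF (snocF (snocF
      ![fun _ => π x, fun _ => π y] (fun r => π (P (s r - 1)))) (fun r => π (P (s r))))
        (fun r => π (P (s r + 1)))) i r) c →
      Occ (fun i => appF (trio π P s) ![fun _ => π x, fun _ => π y] i r) c := by
    intro r c h
    refine h.sub ⟨![2, 3, 4, 0, 1], ?_⟩ ?_
    · decide
    · intro i
      fin_cases i <;> rfl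
  by_cases hr₃ : r₃ ∈ Q.support
  · refine Forces.of_step ?_
    intro r' hr' hne
    have hr'R : r' ∈ R := Guard.mem_of_step hg3 h₃ hr' hne
    obtain ⟨ι, hι⟩ := hocc h₃.2
    have hr'Q : r' ∉ Q.support := by
      intro hmem
      obtain ⟨k, hk, hkl⟩ := Walk.mem_support_iff_exists_getVert.1 hmem
      have hkl' : k < Q.length := by
        rcases Nat.lt_or_ge k Q.length with h | h
        · exact h
        · exfalso
          rw [Walk.getVert_of_length_le Q h] at hk
          exact hyR (hk ▸ hr'R)
      have hsk : s r' = k := by rw [← hk]; exact hval k hkl'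
      have hPk : P (k : ℤ) = r' := by simp only [hP, Int.toNat_natCast]; exact hk
      have hdiff : |s r₃ - k| ≤ 1 := by
        rcases hr' with h | h
        · rw [h, hsk]; simp
        · have := hlip r₃ h₃.1 r' hr'R h
          rwa [hsk] at this
      rw [abs_le] at hdiff
      have hcase : s r₃ = k + 1 ∨ s r₃ = k ∨ s r₃ = k - 1 := by omega
      rcases hcase with h | h | h
      · apply hne (ι 0)
        rw [hι 0]
        change π (P (s r₃ - 1)) = π r'
        rw [h, add_sub_cancel_right, hPk]
      · apply hne (ι 1)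
        rw [hι 1]
        change π (P (s r₃)) = π r'
        rw [h, hPk]
      · apply hne (ι 2)
        rw [hι 2]
        change π (P (s r₃ + 1)) = π r'
        rw [h, sub_add_cancel, hPk]
    have hadj : H.Adj r₃ r' := by
      rcases hr' with h | h
      · exact absurd (h ▸ hr₃) hr'Q
      · exact h
    obtain ⟨c', hc', ho'⟩ := occ_move h₃.2 (fun i => hg3.lip i r₃ h₃.1 r' hr'R hadj)
    exact ⟨c', hc', Forces.now (D1.key_e hH Pl hs Q s hQ hQ2 hQR hlip hnear hr'R hr'Q
      (hocc ho'))⟩
  · exact Forces.now (D1.key_e hH Pl hs Q s hQ hQ2 hQR hlip hnear h₃.1 hr₃ (hocc h₃.2))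


end Pool.Agent.MP_f5837d_co
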