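import Pool.Agent.Lib.MP_f5837d_co.D1

set_option autoImplicit false

namespace Pool.Agent.MP_f5837d_co

open SimpleGraph

variable {V W : Type*} {G : SimpleGraph V} {H : SimpleGraph W} {π : W → V}

/-! ## Walks with interior in a set -/

/-- walk of length `n` with interior in `R` -/
def D2.IW (H : SimpleGraph W) (R : Set W) (a b : W) (n : ℕ) : Prop :=
  ∃ p : H.Walk a b, p.length = n ∧ ∀ k, 0 < k → k < n → p.getVert k ∈ R

theorem D2.IW.det {R : Set W} {a b : W} {n : ℕ} (h : D2.IW H R a b n) (hn : 2 ≤ n) :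
    Det H R a b n := by
  obtain ⟨p, h1, h2⟩ := h
  exact ⟨p, h1, hn, h2⟩

theorem D2.IW.refl (R : Set W) (a : W) : D2.IW H R a a 0 :=
  ⟨Walk.nil, rfl, fun k hk hk' => by omega⟩

theorem D2.IW.trans {R : Set W} {a b c : W} {n m : ℕ} (h : D2.IW H R a b n)
    (h' : D2.IW H R b c m) (hb : n = 0 ∨ m = 0 ∨ b ∈ R) : D2.IW H R a c (n + m) := by
  obtain ⟨p, h1, h2⟩ := h
  obtain ⟨q, h3, h4⟩ := h'
  refine ⟨p.append q, by simp [h1, h3], ?_⟩
  intro k hk hk'
  rw [Walk.getVert_append]
  split_ifs with hlt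
  · exact h2 k hk (by omega)
  · rcases Nat.lt_or_ge 0 (k - p.length) with h0 | h0
    · exact h4 _ h0 (by omega)
    · have : k - p.length = 0 := by omega
      rw [this, Walk.getVert_zero]
      rcases hb with hb | hb | hb
      · omega
      · omega
      · exact hb

theorem D2.IW.single {R : Set W} {a b : W} (h : H.Adj a b) : D2.IW H R a b 1 :=
  ⟨Walk.cons h Walk.nil, rfl, fun k hk hk' => by omega⟩

theorem D2.IW.mono {R R' : Set W} {a b : W} {n : ℕ} (h : D2.IW H R a b n) (hR : R ⊆ R') :
    D2.IW H R' a b n := by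
  obtain ⟨p, h1, h2⟩ := h
  exact ⟨p, h1, fun k hk hk' => hR (h2 k hk hk')⟩

theorem D2.Det_mono {R R' : Set W} {a b : W} {n : ℕ} (h : Det H R a b n) (hR : R ⊆ R') :
    Det H R' a b n := by
  obtain ⟨p, h1, h2, h3⟩ := h
  exact ⟨p, h1, h2, fun k hk hk' => hR (h3 k hk hk')⟩

/-- a piece of a walk -/
theorem D2.IW.piece {R : Set W} {a b : W} (p : H.Walk a b)
    (h : ∀ k, 0 < k → k < p.length → p.getVert k ∈ R) {i j : ℕ} (hij : i ≤ j)
    (hj : j ≤ p.length) : D2.IW H R (p.getVert i) (p.getVert j) (j - i) := by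
  induction j with
  | zero =>
    have : i = 0 := by omega
    subst this
    simpa using D2.IW.refl R (p.getVert 0)
  | succ j ih =>
    rcases Nat.eq_or_lt_of_le hij with rfl | hlt
    · simpa using D2.IW.refl R (p.getVert (j + 1))
    · have h1 := ih (by omega) (by omega)
      have h2 : D2.IW H R (p.getVert j) (p.getVert (j + 1)) 1 :=
        D2.IW.single (p.adj_getVert_succ (by omega))
      have h3 : j + 1 - i = (j - i) + 1 := by omega
      rw [h3]
      refine h1.trans h2 ?_
      rcases Nat.eq_or_lt_of_le (Nat.le_of_lt_succ hlt) with rfl | hlt'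
      · left; omega
      · right; right
        exact h j (by omega) (by omega)

/-- splitting a walk -/
theorem D2.exists_split {x y : W} (p : H.Walk x y) (i : ℕ) (hi : i ≤ p.length) :
    ∃ (a : W) (p₁ : H.Walk x a) (p₂ : H.Walk a y), p = p₁.append p₂ ∧ p₁.length = i := by
  induction p generalizing i with
  | nil => exact ⟨_, Walk.nil, Walk.nil, rfl, by simp at hi; simp [hi]⟩
  | @cons u v w h p ih =>
    cases i with
    | zero => exact ⟨_, Walk.nil, Walk.cons h p, rfl, rfl⟩
    | succ i =>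
      obtain ⟨a, p₁, p₂, h1, h2⟩ := ih i (by simpa using hi)
      exact ⟨a, Walk.cons h p₁, p₂, by rw [h1]; rfl, by simp [h2]⟩

theorem D2.gv_left {u v w : W} (p : H.Walk u v) (q : H.Walk v w) {k : ℕ} (hk : k ≤ p.length) :
    (p.append q).getVert k = p.getVert k := by
  rw [Walk.getVert_append]
  split_ifs with h
  · rfl
  · have : k = p.length := by omega
    subst this
    rw [Nat.sub_self, Walk.getVert_zero, Walk.getVert_length]

theorem D2.gv_right {u v w : W} (p : H.Walk u v) (q : H.Walk v w) {k : ℕ} (hk : p.length ≤ k) :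
    (p.append q).getVert k = q.getVert (k - p.length) := by
  rw [Walk.getVert_append, if_neg (by omega)]

/-! ## The new line -/

/-- The data of a detour `Q` of minimal excess of the line `A₁ A₂ A₃`. -/
structure D2.Min (H : SimpleGraph W) (R : Set W) {x a b y : W} (A₁ : H.Walk x a) (A₂ : H.Walk a b)
    (A₃ : H.Walk b y) (Q : H.Walk a b) : Prop where
  off : ∀ r ∈ R, r ∉ (A₁.append (A₂.append A₃)).support
  len : 2 ≤ Q.length
  int : ∀ k, 0 < k → k < Q.length → Q.getVert k ∈ R
  min : ∀ i j m : ℕ, i < j → j ≤ (A₁.append (A₂.append A₃)).length →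
    Det H R ((A₁.append (A₂.append A₃)).getVert i) ((A₁.append (A₂.append A₃)).getVert j) m →
    Q.length + (j - i) ≤ m + A₂.length
  exc : A₂.length ≤ Q.length ∨ (A₁.length = 0 ∧ A₃.length = 0)
  pos : 0 < A₂.length

variable {R : Set W} {x a b y : W} {A₁ : H.Walk x a} {A₂ : H.Walk a b} {A₃ : H.Walk b y}
  {Q : H.Walk a b}

/-- the three kinds of places of the new line -/
theorem D2.Min.cases (h : D2.Min H R A₁ A₂ A₃ Q) {t : ℕ} :
    (t ≤ A₁.length ∧ (A₁.append (Q.append A₃)).getVert t =
      (A₁.append (A₂.append A₃)).getVert t ∧ (A₁.append (Q.append A₃)).getVert t ∉ R) ∨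
    (A₁.length < t ∧ t < A₁.length + Q.length ∧ (A₁.append (Q.append A₃)).getVert t ∈ R ∧
      D2.IW H R a ((A₁.append (Q.append A₃)).getVert t) (t - A₁.length) ∧
      D2.IW H R ((A₁.append (Q.append A₃)).getVert t) b (A₁.length + Q.length - t)) ∨
    (A₁.length + Q.length ≤ t ∧ (A₁.append (Q.append A₃)).getVert t =
      (A₁.append (A₂.append A₃)).getVert (t + A₂.length - Q.length) ∧
      (A₁.append (Q.append A₃)).getVert t ∉ R) := by
  have hoff : ∀ k, (A₁.append (A₂.append A₃)).getVert k ∉ R := fun k hk =>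
    h.off _ hk (Walk.getVert_mem_support _ _)
  rcases Nat.lt_or_ge A₁.length t with h1 | h1
  · rcases Nat.lt_or_ge t (A₁.length + Q.length) with h3 | h3
    · right; left
      have e2 : (A₁.append (Q.append A₃)).getVert t = Q.getVert (t - A₁.length) := by
        rw [D2.gv_right _ _ h1.le, D2.gv_left _ _ (by omega)]
      have h4 := h.int (t - A₁.length) (by omega) (by omega)
      refine ⟨h1, h3, by rw [e2]; exact h4, ?_, ?_⟩
      · rw [e2]
        have := D2.IW.piece Q h.int (Nat.zero_le (t - A₁.length)) (by omega)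
        simpa using this
      · rw [e2]
        have := D2.IW.piece Q h.int (i := t - A₁.length) (j := Q.length) (by omega) le_rfl
        rw [Walk.getVert_length] at this
        have h5 : Q.length - (t - A₁.length) = A₁.length + Q.length - t := by omega
        rwa [h5] at this
    · right; right
      have e2 : (A₁.append (Q.append A₃)).getVert t =
          (A₁.append (A₂.append A₃)).getVert (t + A₂.length - Q.length) := by
        rw [D2.gv_right _ _ h1.le, D2.gv_right _ _ (by omega), D2.gv_right _ _ (by omega),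
          D2.gv_right _ _ (by omega)]
        congr 1
        omega
      refine ⟨h3, e2, ?_⟩
      rw [e2]; exact hoff _
  · left
    have h2 : (A₁.append (Q.append A₃)).getVert t = (A₁.append (A₂.append A₃)).getVert t := by
      rw [D2.gv_left _ _ h1, D2.gv_left _ _ h1]
    refine ⟨h1, h2, ?_⟩
    rw [h2]; exact hoff t

/-- the new line is geodesic with respect to `R` -/
theorem D2.Min.geod (h : D2.Min H R A₁ A₂ A₃ Q) {s t m : ℕ} (hst : s < t)
    (ht : t ≤ (A₁.append (Q.append A₃)).length)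
    (hw : D2.IW H R ((A₁.append (Q.append A₃)).getVert s)
      ((A₁.append (Q.append A₃)).getVert t) m)
    (hm : 2 ≤ m ∨ (A₁.append (Q.append A₃)).getVert s ∈ R ∨
      (A₁.append (Q.append A₃)).getVert t ∈ R) : t ≤ s + m := by
  have hQ := h.len
  have hpos := h.pos
  have hL : (A₁.append (A₂.append A₃)).length = A₁.length + (A₂.length + A₃.length) := by simp
  have hL' : (A₁.append (Q.append A₃)).length = A₁.length + (Q.length + A₃.length) := by simp
  rw [hL'] at ht
  have e0 : (A₁.append (A₂.append A₃)).getVert A₁.length = a := by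
    rw [D2.gv_left _ _ le_rfl, Walk.getVert_length]
  have e1 : (A₁.append (A₂.append A₃)).getVert (A₁.length + A₂.length) = b := by
    rw [D2.gv_right _ _ (by omega), D2.gv_left _ _ (by omega), Nat.add_sub_cancel_left,
      Walk.getVert_length]
  rcases h.cases (t := s) with ⟨s1, s2, s3⟩ | ⟨s1, s1', s3, s4, s5⟩ | ⟨s1, s2, s3⟩
  · rcases h.cases (t := t) with ⟨t1, t2, t3⟩ | ⟨t1, t1', t3, t4, t5⟩ | ⟨t1, t2, t3⟩
    · -- both before
      have hm2 : 2 ≤ m := by tauto
      rw [s2, t2] at hw
      have := h.min s t m hst (by omega) (hw.det hm2)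
      rcases h.exc with he | he <;> omega
    · have h1 := hw.trans t5 (Or.inr (Or.inr t3))
      rw [s2] at h1
      by_cases hmz : m = 0
      · subst hmz
        exfalso
        obtain ⟨p, hp, _⟩ := hw
        have h2 := Walk.eq_of_length_eq_zero hp
        rw [h2] at s3
        exact s3 t3
      have h9 := h1.det (by omega)
      rw [show Det H R ((A₁.append (A₂.append A₃)).getVert s) b (m + (A₁.length + Q.length - t)) ↔
        Det H R ((A₁.append (A₂.append A₃)).getVert s)
          ((A₁.append (A₂.append A₃)).getVert (A₁.length + A₂.length))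
          (m + (A₁.length + Q.length - t)) from by rw [e1]] at h9
      have := h.min s (A₁.length + A₂.length) _ (by omega) (by omega) h9
      omega
    · have hm2 : 2 ≤ m := by tauto
      rw [s2, t2] at hw
      have := h.min s (t + A₂.length - Q.length) m (by omega) (by omega) (hw.det hm2)
      omega
  · rcases h.cases (t := t) with ⟨t1, t2, t3⟩ | ⟨t1, t1', t3, t4, t5⟩ | ⟨t1, t2, t3⟩
    · omega
    · have h1 := (s4.trans hw (Or.inr (Or.inr s3))).trans t5 (Or.inr (Or.inr t3))
      have h9 := h1.det (by omega)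
      have h10 : Det H R ((A₁.append (A₂.append A₃)).getVert A₁.length)
          ((A₁.append (A₂.append A₃)).getVert (A₁.length + A₂.length))
          (s - A₁.length + m + (A₁.length + Q.length - t)) := by
        rw [e0, e1]; exact h9
      have := h.min A₁.length (A₁.length + A₂.length) _ (by omega) (by omega) h10
      omega
    · have h1 := s4.trans hw (Or.inr (Or.inr s3))
      rw [t2] at h1
      by_cases hmz : m = 0
      · subst hmz
        exfalso
        obtain ⟨p, hp, _⟩ := hw
        have h2 := Walk.eq_of_length_eq_zero hp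
        rw [h2] at s3
        exact t3 s3
      have h9 := h1.det (by omega)
      have h10 : Det H R ((A₁.append (A₂.append A₃)).getVert A₁.length)
          ((A₁.append (A₂.append A₃)).getVert (t + A₂.length - Q.length))
          (s - A₁.length + m) := by
        rw [e0]; exact h9
      have := h.min A₁.length (t + A₂.length - Q.length) _ (by omega) (by omega) h10
      omega
  · rcases h.cases (t := t) with ⟨t1, t2, t3⟩ | ⟨t1, t1', t3, t4, t5⟩ | ⟨t1, t2, t3⟩
    · omega
    · omega
    · have hm2 : 2 ≤ m := by tauto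
      rw [s2, t2] at hw
      have := h.min (s + A₂.length - Q.length) (t + A₂.length - Q.length) m (by omega) (by omega)
        (hw.det hm2)
      rcases h.exc with he | he <;> omega

/-! ## The potential -/

/-- the distances -/
def D2.Cand (H : SimpleGraph W) (R : Set W) {x y : W} (L : H.Walk x y) (r : W) (m : ℕ) : Prop :=
  ∃ t n : ℕ, t ≤ L.length ∧ D2.IW H R (L.getVert t) r n ∧ m = t + n

noncomputable def D2.pot (H : SimpleGraph W) (R : Set W) {x y : W} (L : H.Walk x y) (r : W) : ℕ :=
  sInf {m | D2.Cand H R L r m}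

theorem D2.pot_le {x y : W} {L : H.Walk x y} {r : W} {m : ℕ} (h : D2.Cand H R L r m) :
    D2.pot H R L r ≤ m := Nat.sInf_le h

theorem D2.pot_mem {x y : W} {L : H.Walk x y} {r : W} (h : ∃ m, D2.Cand H R L r m) :
    D2.Cand H R L r (D2.pot H R L r) := Nat.sInf_mem h

theorem D2.pot_lip {x y : W} {L : H.Walk x y} {r r' : W} (hr : r ∈ R) (hrr : H.Adj r r')
    (h : ∃ m, D2.Cand H R L r m) : D2.pot H R L r' ≤ D2.pot H R L r + 1 := by
  obtain ⟨t, n, h1, h2, h3⟩ := D2.pot_mem h
  rw [h3]
  exact D2.pot_le ⟨t, n + 1, h1, h2.trans (D2.IW.single hrr) (Or.inr (Or.inr hr)), by omega⟩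

theorem D2.Min.pot_near (h : D2.Min H R A₁ A₂ A₃ Q) {r : W} (hr : r ∈ R) {t : ℕ}
    (ht : t ≤ (A₁.append (Q.append A₃)).length)
    (hadj : H.Adj r ((A₁.append (Q.append A₃)).getVert t)) :
    D2.pot H R (A₁.append (Q.append A₃)) r ≤ t + 1 ∧
      t ≤ D2.pot H R (A₁.append (Q.append A₃)) r + 1 := by
  have hc : D2.Cand H R (A₁.append (Q.append A₃)) r (t + 1) :=
    ⟨t, 1, ht, D2.IW.single hadj.symm, rfl⟩
  refine ⟨D2.pot_le hc, ?_⟩
  obtain ⟨s, n, h1, h2, h3⟩ := D2.pot_mem ⟨_, hc⟩
  rw [h3]
  rcases Nat.lt_or_ge s t with hst | hst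
  · have h4 := h2.trans (D2.IW.single hadj) (Or.inr (Or.inr hr))
    have h5 := h.geod hst ht h4 (by
      by_cases hn : n = 0
      · right; left
        subst hn
        obtain ⟨p, hp, _⟩ := h2
        rw [Walk.eq_of_length_eq_zero hp]
        exact hr
      · left; omega)
    omega
  · omega

theorem D2.Min.pot_eq (h : D2.Min H R A₁ A₂ A₃ Q) {t : ℕ}
    (ht : t ≤ (A₁.append (Q.append A₃)).length)
    (hr : (A₁.append (Q.append A₃)).getVert t ∈ R) :
    D2.pot H R (A₁.append (Q.append A₃)) ((A₁.append (Q.append A₃)).getVert t) = t := by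
  have hc : D2.Cand H R (A₁.append (Q.append A₃)) ((A₁.append (Q.append A₃)).getVert t) t :=
    ⟨t, 0, ht, D2.IW.refl _ _, rfl⟩
  refine le_antisymm (D2.pot_le hc) ?_
  obtain ⟨s, n, h1, h2, h3⟩ := D2.pot_mem ⟨_, hc⟩
  rw [h3]
  rcases Nat.lt_or_ge s t with hst | hst
  · exact h.geod hst ht h2 (Or.inr (Or.inr hr))
  · omega

/-! ## Existence of a minimal detour -/

theorem D2.exists_path_of_det {R : Set W} {a b : W} {n : ℕ} (h : Det H R a b n) (ha : a ∉ R)
    (hb : b ∉ R) (hab : a ≠ b) : ∃ Q : H.Walk a b, Q.IsPath ∧ 2 ≤ Q.length ∧ Q.length ≤ n ∧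
      ∀ k, 0 < k → k < Q.length → Q.getVert k ∈ R := by
  classical
  obtain ⟨p, h1, h2, h3⟩ := h
  cases p with
  | nil => exact absurd rfl hab
  | @cons _ c _ hac q =>
    simp only [Walk.length_cons] at h1
    have hc : c ∈ R := by simpa using h3 1 (by omega) (by omega)
    have hsup : ∀ w ∈ q.support, w ∈ R ∨ w = b := by
      intro w hw
      obtain ⟨k, hk, hkl⟩ := Walk.mem_support_iff_exists_getVert.1 hw
      rcases Nat.eq_or_lt_of_le hkl with h4 | h4
      · right
        rw [← hk, h4, Walk.getVert_length]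
      · left
        have := h3 (k + 1) (by omega) (by omega)
        rw [Walk.getVert_cons_succ, hk] at this
        exact this
    have haq : a ∉ q.bypass.support := by
      intro hm
      rcases hsup a (q.support_bypass_subset_support hm) with h4 | h4
      · exact ha h4
      · exact hab h4
    have hpath : q.bypass.IsPath := q.bypass_isPath
    have hl : 1 ≤ q.bypass.length := by
      by_contra hcon
      have h0 : q.bypass.length = 0 := by omega
      have := Walk.eq_of_length_eq_zero h0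
      rw [this] at hc
      exact hb hc
    refine ⟨Walk.cons hac q.bypass, ?_, ?_, ?_, ?_⟩
    · exact (Walk.cons_isPath_iff hac q.bypass).2 ⟨hpath, haq⟩
    · simp only [Walk.length_cons]; omega
    · have := q.length_bypass_le_length
      simp only [Walk.length_cons]; omega
    · intro k hk hkl
      simp only [Walk.length_cons] at hkl
      obtain ⟨k, rfl⟩ : ∃ k', k = k' + 1 := ⟨k - 1, by omega⟩
      rw [Walk.getVert_cons_succ]
      have hmem : q.bypass.getVert k ∈ q.bypass.support := Walk.getVert_mem_support _ _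
      rcases hsup _ (q.support_bypass_subset_support hmem) with h4 | h4
      · exact h4
      · exfalso
        have h5 : q.bypass.getVert k = q.bypass.getVert q.bypass.length := by
          rw [h4, Walk.getVert_length]
        have := hpath.getVert_injOn (by simp; omega) (by simp) h5
        omega

theorem D2.exists_min {R : Set W} {x y : W} {L : H.Walk x y} (hL : L.IsPath)
    (off : ∀ r ∈ R, r ∉ L.support)
    (conn : ∀ r ∈ R, ∀ r' ∈ R, ∃ p : H.Walk r r', ∀ w ∈ p.support, w ∈ R)
    (hs : ∀ i j n : ℕ, i < j → j ≤ L.length → ¬ (i = 0 ∧ j = L.length) →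
      Det H R (L.getVert i) (L.getVert j) n → j - i < n)
    {i₀ j₀ : ℕ} (hij : i₀ < j₀) (hj : j₀ ≤ L.length) (hi1 : ∃ r ∈ R, H.Adj r (L.getVert i₀))
    (hj1 : ∃ r ∈ R, H.Adj r (L.getVert j₀)) :
    ∃ (a b : W) (A₁ : H.Walk x a) (A₂ : H.Walk a b) (A₃ : H.Walk b y) (Q : H.Walk a b),
      L = A₁.append (A₂.append A₃) ∧ Q.IsPath ∧ a ≠ b ∧ D2.Min H R A₁ A₂ A₃ Q := by
  classical
  have hex : ∃ k i j n : ℕ, i < j ∧ j ≤ L.length ∧ Det H R (L.getVert i) (L.getVert j) n ∧
      k = n + L.length - (j - i) := by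
    obtain ⟨r, hr, hr1⟩ := hi1
    obtain ⟨r', hr', hr1'⟩ := hj1
    obtain ⟨p, hp⟩ := conn r hr r' hr'
    have h1 : D2.IW H R r r' p.length := ⟨p, rfl, fun k _ _ => hp _ (Walk.getVert_mem_support _ _)⟩
    have h2 := ((D2.IW.single (R := R) hr1.symm).trans h1 (Or.inr (Or.inr hr))).trans
      (D2.IW.single hr1') (Or.inr (Or.inr hr'))
    exact ⟨_, i₀, j₀, _, hij, hj, h2.det (by omega), rfl⟩
  obtain ⟨i, j, n, h1, h2, h3, h4⟩ := Nat.find_spec hex
  have hmin : ∀ i' j' m : ℕ, i' < j' → j' ≤ L.length → Det H R (L.getVert i') (L.getVert j') m →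
      n + (j' - i') ≤ m + (j - i) := by
    intro i' j' m hi' hj' hd
    have := Nat.find_min' hex ⟨i', j', m, hi', hj', hd, rfl⟩
    omega
  obtain ⟨b, B₁, A₃, hB, hBl⟩ := D2.exists_split L j h2
  obtain ⟨a, A₁, A₂, hA, hAl⟩ := D2.exists_split B₁ i (by omega)
  subst hA
  rw [← Walk.append_assoc] at hB
  have hA2l : A₂.length = j - i := by
    have := hBl
    rw [Walk.length_append] at this
    omega
  have ha : L.getVert i = a := by
    rw [hB, D2.gv_left _ _ (by omega), ← hAl, Walk.getVert_length]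
  have hb : L.getVert j = b := by
    rw [hB, D2.gv_right _ _ (by omega), D2.gv_left _ _ (by omega)]
    have : j - A₁.length = A₂.length := by omega
    rw [this, Walk.getVert_length]
  have haL : a ∈ L.support := by rw [← ha]; exact Walk.getVert_mem_support _ _
  have hbL : b ∈ L.support := by rw [← hb]; exact Walk.getVert_mem_support _ _
  have hab : a ≠ b := by
    intro hab
    have h5 : L.getVert i = L.getVert j := by rw [ha, hb, hab]
    have := hL.getVert_injOn (by simp; omega) (by simp; omega) h5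
    omega
  have h3' : Det H R a b n := by rw [← ha, ← hb]; exact h3
  obtain ⟨Q, hQ1, hQ2, hQ3, hQ4⟩ := D2.exists_path_of_det h3' (fun h => off _ h haL)
    (fun h => off _ h hbL) hab
  refine ⟨a, b, A₁, A₂, A₃, Q, hB, hQ1, hab, ?_⟩
  refine ⟨?_, hQ2, hQ4, ?_, ?_, by omega⟩
  · rw [← hB]; exact off
  · rw [← hB]
    intro i' j' m hi' hj' hd
    have := hmin i' j' m hi' hj' hd
    omega
  · have hLl : L.length = A₁.length + (A₂.length + A₃.length) := by rw [hB]; simp
    by_cases h0 : i = 0 ∧ j = L.length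
    · right
      omega
    · left
      have h5 := hs i j n h1 h2 h0 h3
      have h6 := hmin i j Q.length h1 h2 (by
        rw [ha, hb]; exact ⟨Q, rfl, hQ2, hQ4⟩)
      omega

/-! ## Components -/

/-- the component of `r` in `R \ Q` -/
def D2.comp (H : SimpleGraph W) (R T : Set W) (r : W) : Set W :=
  {z | ∃ p : H.Walk r z, ∀ w ∈ p.support, w ∈ R ∧ w ∉ T}

theorem D2.comp_sub {R T : Set W} {r z : W} (h : z ∈ D2.comp H R T r) : z ∈ R ∧ z ∉ T := by
  obtain ⟨p, hp⟩ := h
  exact hp z p.end_mem_support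

theorem D2.comp_self {R T : Set W} {r : W} (h : r ∈ R) (h' : r ∉ T) : r ∈ D2.comp H R T r :=
  ⟨Walk.nil, by simpa using ⟨h, h'⟩⟩

theorem D2.comp_walk {R T : Set W} {r z : W} (p : H.Walk r z) (hp : ∀ w ∈ p.support, w ∈ R ∧ w ∉ T) :
    ∀ w ∈ p.support, w ∈ D2.comp H R T r := by
  classical
  intro w hw
  exact ⟨p.takeUntil w hw, fun v hv => hp v (p.support_takeUntil_subset_support hw hv)⟩

theorem D2.comp_conn {R T : Set W} {r₀ : W} : ∀ r ∈ D2.comp H R T r₀, ∀ r' ∈ D2.comp H R T r₀,
    ∃ p : H.Walk r r', ∀ w ∈ p.support, w ∈ D2.comp H R T r₀ := by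
  rintro r ⟨p, hp⟩ r' ⟨q, hq⟩
  refine ⟨p.reverse.append q, ?_⟩
  intro w hw
  rw [Walk.mem_support_append_iff, Walk.support_reverse, List.mem_reverse] at hw
  rcases hw with hw | hw
  · exact D2.comp_walk p hp w hw
  · exact D2.comp_walk q hq w hw

theorem D2.comp_closed {R T : Set W} {r₀ : W} : ∀ r ∈ D2.comp H R T r₀, ∀ w, H.Adj r w → w ∈ R →
    w ∈ D2.comp H R T r₀ ∨ w ∈ T := by
  rintro r ⟨p, hp⟩ w hrw hw
  by_cases hwT : w ∈ T
  · exact Or.inr hwT
  · left
    refine ⟨p.concat hrw, ?_⟩
    intro v hv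
    rw [Walk.support_concat, List.mem_append] at hv
    rcases hv with hv | hv
    · exact hp v hv
    · simp only [List.mem_singleton] at hv
      rw [hv]; exact ⟨hw, hwT⟩

end Pool.Agent.MP_f5837d_co

namespace Pool.Agent.MP_f5837d_co

open SimpleGraph

variable {V W : Type*} {G : SimpleGraph V} {H : SimpleGraph W} {π : W → V}

variable [∀ w, Fintype (H.neighborSet w)]

/-! ## Task D2: the state X -/

omit [∀ w, Fintype (H.neighborSet w)] in
/-- one more round -/
theorem D2.one_round {R : Set W} {k : ℕ} {gg : Fin k → W → V} (hg : Guard G H π R gg)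
    {Φ : W → (Fin 7 → V) → Prop} {r : W} {c : Fin 7 → V} (h : Locked R gg r c)
    (hQ : ∀ r' c', r' ∈ R → Step H r r' → (∀ i, c i ≠ π r') → Locked R gg r' c' →
      Forces G H π Φ r' c') : Forces G H π Φ r c := by
  apply Forces.of_step
  intro r' hr' hne
  have hmem : r' ∈ R := hg.mem_of_step h hr' hne
  have hst : ∀ i, Step G (gg i r) (gg i r') := by
    intro i
    rcases hr' with rfl | hadj
    · exact Step.refl _ _
    · exact hg.lip i r h.1 r' hmem hadj
  obtain ⟨c', hc1, hc2⟩ := occ_move h.2 hst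
  exact ⟨c', hc1, hQ r' c' hmem hr' hne ⟨hmem, hc2⟩⟩

omit [∀ w, Fintype (H.neighborSet w)] in
/-- lock three cops -/
theorem D2.lock3 (hG : G.Preconnected) {R : Set W} {gg : Fin 4 → W → V}
    (hg : Guard G H π R gg) (P : ℤ → V) (hP : ∀ t, Step G (P t) (P (t + 1)))
    (s : W → ℤ) (hs : Lip H R s) (a b : ℤ) (hb : ∀ r ∈ R, a ≤ s r ∧ s r ≤ b)
    {r : W} {c : Fin 7 → V} (h : Locked R gg r c) :
    Forces G H π (fun r c => Guard G H π R (snocF (snocF (snocF gg (fun r => P (s r - 1)))
        (fun r => P (s r))) (fun r => P (s r + 1))) ∧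
      Locked R (snocF (snocF (snocF gg (fun r => P (s r - 1))) (fun r => P (s r)))
        (fun r => P (s r + 1))) r c) r c := by
  have hPm : ∀ t, Step G ((fun t => P (t - 1)) t) ((fun t => P (t - 1)) (t + 1)) := by
    intro t
    have := hP (t - 1)
    simpa using this
  have hPp : ∀ t, Step G ((fun t => P (t + 1)) t) ((fun t => P (t + 1)) (t + 1)) := by
    intro t
    exact hP (t + 1)
  have g1 := hg.snoc hPm hs
  have g2 := g1.snoc hP hs
  have g3 := g2.snoc hPp hs
  refine Forces.trans ?_ (lock hG hg (by omega) (fun t => P (t - 1)) hPm s hs a b hb h)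
  intro r1 c1 h1
  refine Forces.trans ?_ (lock hG g1 (by omega) P hP s hs a b hb h1)
  intro r2 c2 h2
  refine Forces.mono ?_ (lock hG g2 (by omega) (fun t => P (t + 1)) hPp s hs a b hb h2)
  intro r3 c3 h3
  exact ⟨g3, h3⟩

theorem D2.line_step (hπ : IsCover G H π) (hG : G.Preconnected) (hH : H.Connected) (Pl : Plane H)
    {R : Set W} {x y : W} {L M : H.Walk x y} {u v : Fin 2 → W → V}
    (hc : Cyc Pl.toRotationSystem R L M)
    (sL : ∀ i j n : ℕ, i < j → j ≤ L.length → ¬ (i = 0 ∧ j = L.length) →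
      Det H R (L.getVert i) (L.getVert j) n → j - i < n)
    (sM : ∀ i j n : ℕ, i < j → j ≤ M.length → ¬ (i = 0 ∧ j = M.length) →
      Det H R (M.getVert i) (M.getVert j) n → j - i < n)
    (hg : Guard G H π R (appF u v))
    (lipu : ∀ a, ∀ r ∈ R, ∀ r' ∈ R, H.Adj r r' → Step G (u a r) (u a r'))
    (lipv : ∀ a, ∀ r ∈ R, ∀ r' ∈ R, H.Adj r r' → Step G (v a r) (v a r'))
    (covu : ∀ r ∈ R, ∀ w ∈ L.support, H.Adj r w → w = x ∨ w = y ∨ ∃ a, u a r = π w)
    (covv : ∀ r ∈ R, ∀ w ∈ M.support, H.Adj r w → w = x ∨ w = y ∨ ∃ a, v a r = π w)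
    {i₀ j₀ : ℕ} (hij : i₀ < j₀) (hj : j₀ ≤ L.length) (hi1 : ∃ r ∈ R, H.Adj r (L.getVert i₀))
    (hj1 : ∃ r ∈ R, H.Adj r (L.getVert j₀)) {r : W} {c : Fin 7 → V}
    (h : Locked R (appF u v) r c) :
    Forces G H π (GoodPos G H π Pl.toRotationSystem R.ncard) r c := by
  classical
  obtain ⟨a, b, A₁, A₂, A₃, Q, rfl, hQp, hab, hmin⟩ :=
    D2.exists_min hc.hA hc.offA hc.conn sL hij hj hi1 hj1
  -- the line and the potential
  set L' : H.Walk x y := A₁.append (Q.append A₃) with hL'
  have hL'l : L'.length = A₁.length + (Q.length + A₃.length) := by simp [hL']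
  have hcand : ∀ r ∈ R, ∃ m, D2.Cand H R L' r m := by
    intro r hr
    have h1 : L'.getVert (A₁.length + 1) ∈ R := by
      rw [hL', D2.gv_right _ _ (by omega), D2.gv_left _ _ (by have := hmin.len; omega)]
      exact hmin.int _ (by omega) (by have := hmin.len; omega)
    obtain ⟨p, hp⟩ := hc.conn _ h1 r hr
    exact ⟨_, A₁.length + 1, p.length, by have := hmin.len; omega,
      ⟨p, rfl, fun k _ _ => hp _ (Walk.getVert_mem_support _ _)⟩, rfl⟩
  let s : W → ℤ := fun r => (D2.pot H R L' r : ℤ)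
  have hlip : Lip H R s := by
    intro r hr r' hr' hadj
    have h1 := D2.pot_lip hr hadj (hcand r hr)
    have h2 := D2.pot_lip hr' hadj.symm (hcand r' hr')
    show |(D2.pot H R L' r : ℤ) - (D2.pot H R L' r' : ℤ)| ≤ 1
    rw [abs_le]
    constructor <;> omega
  obtain ⟨N, hN⟩ : ∃ N : ℕ, ∀ r ∈ R, D2.pot H R L' r ≤ N := by
    obtain ⟨N, hN⟩ := (hc.fin.image (D2.pot H R L')).bddAbove
    exact ⟨N, fun r hr => hN ⟨r, hr, rfl⟩⟩
  let P : ℤ → W := fun t => L'.getVert t.toNat
  have hPwalk : ∀ t, Step H (P t) (P (t + 1)) := by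
    intro t
    show Step H (L'.getVert t.toNat) (L'.getVert (t + 1).toNat)
    rcases lt_or_ge t 0 with ht | ht
    · left
      have h1 : t.toNat = 0 := by omega
      have h2 : (t + 1).toNat = 0 := by omega
      rw [h1, h2]
    · have h1 : (t + 1).toNat = t.toNat + 1 := by omega
      rw [h1]
      rcases Nat.lt_or_ge t.toNat L'.length with h2 | h2
      · right; exact L'.adj_getVert_succ h2
      · left
        rw [L'.getVert_of_length_le h2, L'.getVert_of_length_le (by omega)]
  have hπP : ∀ t, Step G (π (P t)) (π (P (t + 1))) := fun t => Step.map hπ (hPwalk t)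
  -- the three cops
  refine Forces.trans ?_ (D2.lock3 hG hg (fun t => π (P t)) hπP s hlip 0 N
    (fun r hr => ⟨by show (0 : ℤ) ≤ (D2.pot H R L' r : ℤ); omega, by
      show (D2.pot H R L' r : ℤ) ≤ N
      exact_mod_cast hN r hr⟩) h)
  rintro r1 c1 ⟨hg7, h7⟩
  refine D2.one_round hg7 h7 ?_
  intro r' c' hr' hst hne h7'
  apply Forces.now
  -- the robber is not on `Q`
  have hrQ : r' ∉ Q.support := by
    intro hm
    obtain ⟨k, hk, hkl⟩ := Walk.mem_support_iff_exists_getVert.1 hm
    have e1 : L'.getVert (A₁.length + k) = r' := by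
      rw [hL', D2.gv_right _ _ (by omega), D2.gv_left _ _ (by omega), Nat.add_sub_cancel_left, hk]
    have e2 : D2.pot H R L' r' = A₁.length + k := by
      have := hmin.pot_eq (t := A₁.length + k) (by rw [← hL']; omega) (by
        rw [← hL', e1]; exact hr')
      rwa [← hL', e1] at this
    have e3 : |s r1 - s r'| ≤ 1 := by
      rcases hst with h0 | h0
      · rw [h0]; simp
      · exact hlip r1 h7.1 r' hr' h0
    have e4 : s r' = ((A₁.length + k : ℕ) : ℤ) := by
      show (D2.pot H R L' r' : ℤ) = _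
      rw [e2]
    have e5 : P (s r') = r' := by
      show L'.getVert (s r').toNat = r'
      rw [e4, Int.toNat_natCast, e1]
    rw [abs_le] at e3
    obtain ⟨ι, hι⟩ := h7.2
    have hcase : s r' = s r1 - 1 ∨ s r' = s r1 ∨ s r' = s r1 + 1 := by omega
    rcases hcase with h0 | h0 | h0
    · have := hι 4
      apply hne (ι 4)
      rw [this]
      show π (P (s r1 - 1)) = π r'
      rw [← h0, e5]
    · have := hι 5
      apply hne (ι 5)
      rw [this]
      show π (P (s r1)) = π r'
      rw [← h0, e5]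
    · have := hι 6
      apply hne (ι 6)
      rw [this]
      show π (P (s r1 + 1)) = π r'
      rw [← h0, e5]
  -- the component
  set R' : Set W := D2.comp H R {w | w ∈ Q.support} r' with hR'
  have hR'R : R' ⊆ R := fun z hz => (D2.comp_sub hz).1
  have hrR' : r' ∈ R' := D2.comp_self hr' hrQ
  have hoff : ∀ r ∈ R', r ∉ Q.support := fun z hz => (D2.comp_sub hz).2
  have hcard : R'.ncard < R.ncard := by
    apply Set.ncard_lt_ncard _ hc.fin
    refine ⟨hR'R, fun hsub => ?_⟩
    have h1 : Q.getVert 1 ∈ R := hmin.int 1 (by omega) (by have := hmin.len; omega)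
    exact hoff _ (hsub h1) (Walk.getVert_mem_support _ _)
  have hQR : ∀ w ∈ Q.support, w ≠ a → w ≠ b → w ∈ R := by
    intro w hw hwa hwb
    obtain ⟨k, hk, hkl⟩ := Walk.mem_support_iff_exists_getVert.1 hw
    rw [← hk]
    apply hmin.int k
    · rcases Nat.eq_zero_or_pos k with h0 | h0
      · exact absurd (by rw [← hk, h0, Walk.getVert_zero]) hwa
      · exact h0
    · rcases Nat.eq_or_lt_of_le hkl with h0 | h0
      · exact absurd (by rw [← hk, h0, Walk.getVert_length]) hwb
      · exact h0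
  have hpotR : ∀ i₀ n₀ : ℕ, i₀ + n₀ ≤ L'.length →
      Potential H R' P (Set.Icc (i₀ : ℤ) (i₀ + n₀)) s := by
    intro i₀ n₀ hle
    refine ⟨fun r hr r' hr' hadj => hlip r (hR'R hr) r' (hR'R hr') hadj, ?_⟩
    intro r hr t ht hadj
    obtain ⟨k, rfl⟩ : ∃ k : ℕ, t = (k : ℤ) := ⟨t.toNat, by have := ht.1; omega⟩
    have hk : k ≤ L'.length := by have := ht.2; omega
    have h1 := hmin.pot_near (hR'R hr) (t := k) hk (by
      have : P (k : ℤ) = L'.getVert k := by show L'.getVert (k : ℤ).toNat = _; simp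
      rw [← hL', ← this]; exact hadj)
    rw [← hL'] at h1
    show |(D2.pot H R L' r : ℤ) - (k : ℤ)| ≤ 1
    rw [abs_le]
    constructor <;> omega
  have hsplit := cyc_split hH Pl A₁ A₂ A₃ M hc hab Q hQp hmin.len hQR hR'R hoff D2.comp_conn
    (fun r hr w hrw hw => D2.comp_closed r hr w hrw hw)
  right; right; right; right
  rcases hsplit with hcy | hcy
  · -- the new line and `M`
    refine ⟨R', x, y, L', M, P, ((0 : ℕ) : ℤ), s, v, hcard, ?_, hrR', ?_⟩
    · refine ⟨hcy, hPwalk, ?_, hpotR 0 L'.length (by omega), ?_, ?_, ?_⟩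
      · intro k hk
        show L'.getVert (((0 : ℕ) : ℤ) + (k : ℤ)).toNat = _
        congr 1
        simp
      · intro i j n h1 h2 h3 h4
        exact sM i j n h1 h2 h3 (D2.Det_mono h4 hR'R)
      · intro a r hr r' hr' hadj
        exact lipv a r (hR'R hr) r' (hR'R hr') hadj
      · intro r hr w hw hadj
        exact covv r (hR'R hr) w hw hadj
    · refine Occ.sub h7'.2 ⟨![4, 5, 6, 2, 3], by decide⟩ ?_
      intro i
      fin_cases i <;> rfl
  · -- `Q` and `A₂`
    refine ⟨R', a, b, Q, A₂, P, (A₁.length : ℤ), s, u, hcard, ?_, hrR', ?_⟩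
    · refine ⟨hcy, hPwalk, ?_, hpotR A₁.length Q.length (by omega), ?_, ?_, ?_⟩
      · intro k hk
        show L'.getVert ((A₁.length : ℤ) + (k : ℤ)).toNat = _
        have h1 : ((A₁.length : ℤ) + (k : ℤ)).toNat = A₁.length + k := by omega
        rw [h1, hL', D2.gv_right _ _ (by omega), D2.gv_left _ _ (by omega),
          Nat.add_sub_cancel_left]
      · intro i j n h1 h2 h3 h4
        have hi : (A₁.append (A₂.append A₃)).getVert (A₁.length + i) = A₂.getVert i := by
          rw [D2.gv_right _ _ (by omega), D2.gv_left _ _ (by omega), Nat.add_sub_cancel_left]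
        have hj : (A₁.append (A₂.append A₃)).getVert (A₁.length + j) = A₂.getVert j := by
          rw [D2.gv_right _ _ (by omega), D2.gv_left _ _ (by omega), Nat.add_sub_cancel_left]
        have hl : (A₁.append (A₂.append A₃)).length = A₁.length + (A₂.length + A₃.length) := by
          simp
        have := sL (A₁.length + i) (A₁.length + j) n (by omega) (by omega) (by
          rw [hl]
          omega) (by
          rw [hi, hj]; exact D2.Det_mono h4 hR'R)
        omega
      · intro a r hr r' hr' hadj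
        exact lipu a r (hR'R hr) r' (hR'R hr') hadj
      · intro r hr w hw hadj
        obtain ⟨k, hk, hkl⟩ := Walk.mem_support_iff_exists_getVert.1 hw
        have hwL : (A₁.append (A₂.append A₃)).getVert (A₁.length + k) = w := by
          rw [D2.gv_right _ _ (by omega), D2.gv_left _ _ (by omega), Nat.add_sub_cancel_left, hk]
        have hl : (A₁.append (A₂.append A₃)).length = A₁.length + (A₂.length + A₃.length) := by
          simp
        have hinj := hc.hA.getVert_injOn
        rcases covu r (hR'R hr) w (by rw [← hwL]; exact Walk.getVert_mem_support _ _) hadj with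
          h0 | h0 | h0
        · left
          have h1 : (A₁.append (A₂.append A₃)).getVert (A₁.length + k) =
              (A₁.append (A₂.append A₃)).getVert 0 := by
            rw [hwL, Walk.getVert_zero, h0]
          have h2 := hinj (by simp; omega) (by simp) h1
          have h3 : k = 0 := by omega
          rw [← hk, h3, Walk.getVert_zero]
        · right; left
          have h1 : (A₁.append (A₂.append A₃)).getVert (A₁.length + k) =
              (A₁.append (A₂.append A₃)).getVert (A₁.append (A₂.append A₃)).length := by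
            rw [hwL, Walk.getVert_length, h0]
          have h2 := hinj (by simp; omega) (by simp) h1
          have h3 : k = A₂.length := by omega
          rw [← hk, h3, Walk.getVert_length]
        · exact Or.inr (Or.inr h0)
    · refine Occ.sub h7'.2 ⟨![4, 5, 6, 0, 1], by decide⟩ ?_
      intro i
      fin_cases i <;> rfl

omit [∀ w, Fintype (H.neighborSet w)] in
/-- lock a cop on a fixed vertex -/
theorem D2.lock_const (hG : G.Preconnected) {R : Set W} {k : ℕ} {g : Fin k → W → V}
    (hg : Guard G H π R g) (hk : k < 7) (x : V) {r : W} {c : Fin 7 → V} (h : Locked R g r c) :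
    Forces G H π (fun r c => Guard G H π R (snocF g (fun _ => x)) ∧
      Locked R (snocF g (fun _ => x)) r c) r c := by
  have hP : ∀ t : ℤ, Step G ((fun _ : ℤ => x) t) ((fun _ : ℤ => x) (t + 1)) :=
    fun t => Step.refl _ _
  have hs : Lip H R (fun _ => (0 : ℤ)) := by
    intro r hr r' hr' _
    simp
  have g1 := hg.snoc hP hs
  refine Forces.mono ?_ (lock hG hg hk (fun _ => x) hP (fun _ => 0) hs 0 0
    (fun r hr => ⟨le_rfl, le_rfl⟩) h)
  intro r1 c1 h1
  exact ⟨g1, h1⟩

theorem x_step (hπ : IsCover G H π) (hG : G.Preconnected) (hH : H.Connected) (Pl : Plane H)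
    {R : Set W} {x y : W} {A B : H.Walk x y} {g e : Fin 2 → W → V}
    (hs : XState G π Pl.toRotationSystem R A B g e) {r : W} {c : Fin 7 → V}
    (h : Locked R (appF g e) r c) :
    Forces G H π (GoodPos G H π Pl.toRotationSystem R.ncard) r c := by
  classical
  have hcy := hs.cyc
  have hlip : ∀ i, ∀ r ∈ R, ∀ r' ∈ R, H.Adj r r' → Step G (appF g e i r) (appF g e i r') := by
    intro i r hr r' hr' hadj
    fin_cases i
    · exact hs.lipg 0 r hr r' hr' hadj
    · exact hs.lipg 1 r hr r' hr' hadj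
    · exact hs.lipe 0 r hr r' hr' hadj
    · exact hs.lipe 1 r hr r' hr' hadj
  have hgA : ∀ (a : Fin 2) (r : W), ∃ i, appF g e i r = g a r := by
    intro a r
    fin_cases a
    · exact ⟨0, rfl⟩
    · exact ⟨1, rfl⟩
  have hgB : ∀ (a : Fin 2) (r : W), ∃ i, appF g e i r = e a r := by
    intro a r
    fin_cases a
    · exact ⟨2, rfl⟩
    · exact ⟨3, rfl⟩
  have hg : Guard G H π R (appF g e) := by
    refine ⟨hlip, ?_⟩
    intro r hr r' hadj hr'
    have hAcase : r' ∈ A.support → ∃ i, appF g e i r = π r' := by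
      intro hm
      obtain ⟨a, ha⟩ := hs.covA r hr r' hm hadj
      obtain ⟨i, hi⟩ := hgA a r
      exact ⟨i, hi.trans ha⟩
    rcases hcy.nbr r hr r' hadj with h0 | h0 | h0
    · exact absurd h0 hr'
    · exact hAcase h0
    · rcases hs.covB r hr r' h0 hadj with h1 | h1 | ⟨a, ha⟩
      · exact hAcase (by rw [h1]; exact A.start_mem_support)
      · exact hAcase (by rw [h1]; exact A.end_mem_support)
      · obtain ⟨i, hi⟩ := hgB a r
        exact ⟨i, hi.trans ha⟩
  by_cases hA2 : ∃ i j : ℕ, i < j ∧ j ≤ A.length ∧ (∃ r ∈ R, H.Adj r (A.getVert i)) ∧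
      (∃ r ∈ R, H.Adj r (A.getVert j))
  · obtain ⟨i, j, h1, h2, h3, h4⟩ := hA2
    exact D2.line_step hπ hG hH Pl hcy (fun i j n h1 h2 _ h4 => hs.sA i j n h1 h2 h4) hs.sB hg
      hs.lipg hs.lipe (fun r hr w hw hadj => Or.inr (Or.inr (hs.covA r hr w hw hadj))) hs.covB
      h1 h2 h3 h4 h
  by_cases hB2 : ∃ i j : ℕ, i < j ∧ j ≤ B.length ∧ (∃ r ∈ R, H.Adj r (B.getVert i)) ∧
      (∃ r ∈ R, H.Adj r (B.getVert j))
  · obtain ⟨i, j, h1, h2, h3, h4⟩ := hB2
    have hsw : ∀ r, ∀ c : Fin 7 → V, Occ (fun i => appF g e i r) c →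
        Occ (fun i => appF e g i r) c := by
      intro r c hoc
      refine Occ.sub hoc ⟨![2, 3, 0, 1], by decide⟩ ?_
      intro i
      fin_cases i <;> rfl
    have hg' : Guard G H π R (appF e g) := by
      refine ⟨?_, ?_⟩
      · intro i r hr r' hr' hadj
        fin_cases i
        · exact hs.lipe 0 r hr r' hr' hadj
        · exact hs.lipe 1 r hr r' hr' hadj
        · exact hs.lipg 0 r hr r' hr' hadj
        · exact hs.lipg 1 r hr r' hr' hadj
      · intro r hr r' hadj hr'
        obtain ⟨i, hi⟩ := hg.conf r hr r' hadj hr'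
        fin_cases i
        · exact ⟨2, hi⟩
        · exact ⟨3, hi⟩
        · exact ⟨0, hi⟩
        · exact ⟨1, hi⟩
    exact D2.line_step hπ hG hH Pl hcy.swap hs.sB (fun i j n h1 h2 _ h4 => hs.sA i j n h1 h2 h4)
      hg' hs.lipe hs.lipg hs.covB (fun r hr w hw hadj => Or.inr (Or.inr (hs.covA r hr w hw hadj)))
      h1 h2 h3 h4 ⟨h.1, hsw _ _ h.2⟩
  -- few neighbours
  have huA : ∀ w ∈ A.support, ∀ w' ∈ A.support, (∃ r ∈ R, H.Adj r w) → (∃ r ∈ R, H.Adj r w') →
      w = w' := by
    intro w hw w' hw' h1 h2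
    obtain ⟨i, hi, hil⟩ := Walk.mem_support_iff_exists_getVert.1 hw
    obtain ⟨j, hj, hjl⟩ := Walk.mem_support_iff_exists_getVert.1 hw'
    rcases Nat.lt_trichotomy i j with h0 | h0 | h0
    · exact absurd ⟨i, j, h0, hjl, by rw [hi]; exact h1, by rw [hj]; exact h2⟩ hA2
    · rw [← hi, ← hj, h0]
    · exact absurd ⟨j, i, h0, hil, by rw [hj]; exact h2, by rw [hi]; exact h1⟩ hA2
  have huB : ∀ w ∈ B.support, ∀ w' ∈ B.support, (∃ r ∈ R, H.Adj r w) → (∃ r ∈ R, H.Adj r w') →
      w = w' := by
    intro w hw w' hw' h1 h2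
    obtain ⟨i, hi, hil⟩ := Walk.mem_support_iff_exists_getVert.1 hw
    obtain ⟨j, hj, hjl⟩ := Walk.mem_support_iff_exists_getVert.1 hw'
    rcases Nat.lt_trichotomy i j with h0 | h0 | h0
    · exact absurd ⟨i, j, h0, hjl, by rw [hi]; exact h1, by rw [hj]; exact h2⟩ hB2
    · rw [← hi, ← hj, h0]
    · exact absurd ⟨j, i, h0, hil, by rw [hj]; exact h2, by rw [hi]; exact h1⟩ hB2
  -- states with one vertex
  have hone : ∀ z, z ∉ R → (∀ r ∈ R, ∀ w, H.Adj r w → w ∈ R ∨ w = z) →
      Forces G H π (GoodPos G H π Pl.toRotationSystem R.ncard) r c := by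
    intro z hz hnb
    refine Forces.trans ?_ (D2.lock_const hG hg (by omega) (π z) h)
    rintro r1 c1 ⟨_, h1⟩
    refine s_step hπ hG hH Pl (R := R) (x := z) ⟨hcy.fin, hcy.conn, hz, hnb⟩ ⟨h1.1, ?_⟩
    refine Occ.sub h1.2 ⟨![4], by decide⟩ ?_
    intro i
    fin_cases i
    rfl
  by_cases hNA : ∃ a ∈ A.support, ∃ r ∈ R, H.Adj r a
  · obtain ⟨a, ha, ha1⟩ := hNA
    have haR : a ∉ R := fun h => hcy.offA a h ha
    by_cases hNB : ∃ b ∈ B.support, b ≠ a ∧ ∃ r ∈ R, H.Adj r b
    · obtain ⟨b, hb, hba, hb1⟩ := hNB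
      have hbR : b ∉ R := fun h => hcy.offB b h hb
      -- a path from `a` to `b`
      let p₀ : H.Walk a b := (A.takeUntil a ha).reverse.append (B.takeUntil b hb)
      have hp₀ : ∀ w ∈ p₀.support, w ∉ R := by
        intro w hw hwR
        rw [Walk.mem_support_append_iff, Walk.support_reverse, List.mem_reverse] at hw
        rcases hw with hw | hw
        · exact hcy.offA w hwR (A.support_takeUntil_subset_support ha hw)
        · exact hcy.offB w hwR (B.support_takeUntil_subset_support hb hw)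
      refine Forces.trans ?_ (D2.lock_const hG hg (by omega) (π a) h)
      rintro r1 c1 ⟨hg1, h1⟩
      refine Forces.trans ?_ (D2.lock_const hG hg1 (by omega) (π b) h1)
      rintro r2 c2 ⟨_, h2⟩
      refine e_step hπ hG hH Pl (R := R) (x := a) (y := b) (B := p₀.bypass)
        ⟨hcy.fin, hcy.conn, Ne.symm hba, p₀.bypass_isPath, ?_, ?_⟩ ⟨h2.1, ?_⟩
      · intro w hwR hw
        exact hp₀ w (p₀.support_bypass_subset_support hw) hwR
      · intro r hr w hadj
        rcases hcy.nbr r hr w hadj with h0 | h0 | h0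
        · exact Or.inl h0
        · exact Or.inr (Or.inl (huA w h0 a ha ⟨r, hr, hadj⟩ ha1))
        · exact Or.inr (Or.inr (huB w h0 b hb ⟨r, hr, hadj⟩ hb1))
      · refine Occ.sub h2.2 ⟨![4, 5], by decide⟩ ?_
        intro i
        fin_cases i <;> rfl
    · apply hone a haR
      intro r hr w hadj
      rcases hcy.nbr r hr w hadj with h0 | h0 | h0
      · exact Or.inl h0
      · exact Or.inr (huA w h0 a ha ⟨r, hr, hadj⟩ ha1)
      · right
        by_contra hne
        exact hNB ⟨w, h0, hne, r, hr, hadj⟩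
  · by_cases hNB : ∃ b ∈ B.support, ∃ r ∈ R, H.Adj r b
    · obtain ⟨b, hb, hb1⟩ := hNB
      apply hone b (fun h => hcy.offB b h hb)
      intro r hr w hadj
      rcases hcy.nbr r hr w hadj with h0 | h0 | h0
      · exact Or.inl h0
      · exact absurd ⟨w, h0, r, hr, hadj⟩ hNA
      · exact Or.inr (huB w h0 b hb ⟨r, hr, hadj⟩ hb1)
    · apply hone x (fun h => hcy.offA x h A.start_mem_support)
      intro r hr w hadj
      rcases hcy.nbr r hr w hadj with h0 | h0 | h0
      · exact Or.inl h0
      · exact absurd ⟨w, h0, r, hr, hadj⟩ hNA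
      · exact absurd ⟨w, h0, r, hr, hadj⟩ hNB

end Pool.Agent.MP_f5837d_co
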