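import Pool.Agent.Lib.MP_f5837d_co.P3
import Pool.Agent.Lib.MP_f5837d_co.G3

set_option autoImplicit false

namespace Pool.Agent.MP_f5837d_co

open SimpleGraph

variable {V W : Type*} {G : SimpleGraph V} {H : SimpleGraph W} {π : W → V}

/-! ## Task PK: the minimal pocket

`c` is a curve, `S` its left side, `R` a territory in `S`, `P` agrees with `c` on the index interval
`J`. `Z` is the rest of the boundary of `R` (empty in the finite endgame). If the line `P` has a
detour of excess zero, then a detour for which the region `S₁` between it and the curve is minimal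
gives a pocket. Proof: blueprint, end of section 4 (a path that violates `chord` or `strict`,
completed along `q`, is a detour with a strictly smaller region; the theta lemma applied inside
`S₁`). -/

namespace PK

theorem edge_cases {d : H.Dart} {a b : W} (h : d.edge = s(a, b)) :
    (d.fst = a ∧ d.snd = b) ∨ (d.fst = b ∧ d.snd = a) := by
  rcases d with ⟨⟨x, y⟩, hd⟩
  simpa [Sym2.eq_iff] using h

theorem symm_fst (d : H.Dart) : d.symm.fst = d.snd := rfl

theorem symm_snd (d : H.Dart) : d.symm.snd = d.fst := rfl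

theorem edge_symm' (d : H.Dart) : d.symm.edge = d.edge := d.edge_symm

theorem c_not_ins {ρ : RotationSystem H} {c : ℤ → W} (hc : IsCurve H c) {S : Set H.Dart}
    (hS : IsLeft ρ c S) (t : ℤ) : c t ∉ Ins S := by
  intro h
  have hadj : H.Adj (c t) (c (t - 1)) := by
    have := hc.adj (t - 1)
    rw [sub_add_cancel] at this
    exact this.symm
  have h1 := h ⟨(c t, c (t - 1)), hadj⟩ rfl
  have h2 := hS.left (t - 1) ⟨(c (t - 1), c t), hadj.symm⟩ rfl (by simp)
  exact h2.2 h1

/-- One of the two darts of an edge of the curve is not on the left. -/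
theorem c_edge {ρ : RotationSystem H} {c : ℤ → W} {S : Set H.Dart}
    (hS : IsLeft ρ c S) {d : H.Dart} (h : d.edge ∈ curveEdges c) : ¬ (d ∈ S ∧ d.symm ∈ S) := by
  rintro ⟨h1, h2⟩
  obtain ⟨t, ht⟩ := h
  rcases edge_cases ht with ⟨ha, hb⟩ | ⟨ha, hb⟩
  · exact (hS.left t d ha hb).2 h2
  · have := (hS.left t d.symm (by rw [symm_fst, hb]) (by rw [symm_snd, ha])).2
    rw [Dart.symm_symm] at this
    exact this h1

theorem seg_sub {c : ℤ → W} {i j : ℤ} : segEdges c i j ⊆ curveEdges c := by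
  rintro e ⟨t, _, _, rfl⟩
  exact ⟨t, rfl⟩

section

variable {ρ : RotationSystem H} {c : ℤ → W} {S : Set H.Dart}
  {R : Set W} {P : ℤ → W} {J : Set ℤ} {s : W → ℤ} {q : ℤ → W} {i j : ℤ}

theorem off_c (hc : IsCurve H c) (hS : IsLeft ρ c S) (hRS : R ⊆ Ins S) {w : W} (hw : w ∈ R)
    (t : ℤ) : w ≠ c t := by
  rintro rfl
  exact c_not_ins hc hS t (hRS hw)

/-- The darts with one end off the curve have the same status as their reversals. -/
theorem off_symm (hS : IsLeft ρ c S) {d : H.Dart} (hd : ∀ t, d.fst ≠ c t) :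
    d ∈ S ↔ d.symm ∈ S :=
  hS.off d (fun t => ⟨fun h => hd t h.1, fun h => hd (t + 1) h.1⟩)

theorem off_symm' (hS : IsLeft ρ c S) {d : H.Dart} (hd : ∀ t, d.snd ≠ c t) :
    d ∈ S ↔ d.symm ∈ S :=
  hS.off d (fun t => ⟨fun h => hd (t + 1) h.2, fun h => hd t h.2⟩)

theorem ins_dart (hc : IsCurve H c) (hS : IsLeft ρ c S) (hRS : R ⊆ Ins S) {d : H.Dart}
    (hd : d.fst ∈ R ∨ d.snd ∈ R) : d ∈ S ∧ d.symm ∈ S := by
  rcases hd with hd | hd
  · have h1 : d ∈ S := hRS hd d rfl
    exact ⟨h1, (off_symm hS (fun t => off_c hc hS hRS hd t)).1 h1⟩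
  · have h1 : d.symm ∈ S := hRS hd d.symm rfl
    exact ⟨(off_symm' hS (fun t => off_c hc hS hRS hd t)).2 h1, h1⟩

theorem zdet_mem_or (hq : ZDet H R P J s q i j) {t : ℤ} (h1 : i ≤ t) (h2 : t < j) :
    q t ∈ R ∨ q (t + 1) ∈ R := by
  by_cases h : i < t
  · exact Or.inl (hq.mem t h h2).1
  · have hij := hq.hij
    exact Or.inr (hq.mem (t + 1) (by omega) (by omega)).1

theorem zdet_left (hP : ∀ t ∈ J, P t = c t) (hq : ZDet H R P J s q i j) : q i = c i := by
  rw [hq.out i (Or.inl le_rfl), hP i hq.hi]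

theorem zdet_right (hP : ∀ t ∈ J, P t = c t) (hq : ZDet H R P J s q i j) : q j = c j := by
  rw [hq.out j (Or.inr le_rfl), hP j hq.hj]

theorem zdet_inj (hc : IsCurve H c) (hS : IsLeft ρ c S) (hRS : R ⊆ Ins S)
    (hP : ∀ t ∈ J, P t = c t) (hinj : Set.InjOn c J) (hq : ZDet H R P J s q i j) :
    Set.InjOn q (Set.Icc i j) := by
  have key : ∀ t ∈ Set.Icc i j, ∀ t' ∈ Set.Icc i j, i < t → t < j → q t = q t' → t = t' := by
    intro t ht t' ht' h1 h2 he
    have hm := hq.mem t h1 h2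
    by_cases h3 : i < t'
    · by_cases h4 : t' < j
      · have hm' := hq.mem t' h3 h4
        rw [← hm.2, ← hm'.2, he]
      · have : t' = j := le_antisymm ht'.2 (not_lt.1 h4)
        subst this
        exact absurd (he.trans (zdet_right hP hq)) (off_c hc hS hRS hm.1 _)
    · have : t' = i := le_antisymm (not_lt.1 h3) ht'.1
      subst this
      exact absurd (he.trans (zdet_left hP hq)) (off_c hc hS hRS hm.1 _)
  intro t ht t' ht' he
  by_cases h : i < t ∧ t < j
  · exact key t ht t' ht' h.1 h.2 he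
  by_cases h' : i < t' ∧ t' < j
  · exact (key t' ht' t ht h'.1 h'.2 he.symm).symm
  have e1 : t = i ∨ t = j := by
    rcases ht with ⟨h1, h2⟩
    by_contra hcon
    push Not at hcon
    exact h ⟨lt_of_le_of_ne h1 (Ne.symm hcon.1), lt_of_le_of_ne h2 hcon.2⟩
  have e2 : t' = i ∨ t' = j := by
    rcases ht' with ⟨h1, h2⟩
    by_contra hcon
    push Not at hcon
    exact h' ⟨lt_of_le_of_ne h1 (Ne.symm hcon.1), lt_of_le_of_ne h2 hcon.2⟩
  have hne : c i ≠ c j := by
    intro h
    have := hinj hq.hi hq.hj h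
    have := hq.hij
    omega
  rcases e1 with rfl | rfl <;> rcases e2 with rfl | rfl
  · rfl
  · exact absurd ((zdet_left hP hq).symm.trans (he.trans (zdet_right hP hq))) hne
  · exact absurd ((zdet_left hP hq).symm.trans (he.symm.trans (zdet_right hP hq))) hne
  · rfl

/-- The geometric data of a detour of excess zero. -/
structure Good (ρ : RotationSystem H) (c : ℤ → W) (S : Set H.Dart) (R : Set W) (P : ℤ → W)
    (J : Set ℤ) (s : W → ℤ) (q : ℤ → W) (i j : ℤ) (S₁ S₂ : Set H.Dart) : Prop where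
  det : ZDet H R P J s q i j
  r1 : IsRegion ρ (segEdges c i j ∪ segEdges q i j) S₁
  r2 : IsRegion ρ ((curveEdges c \ segEdges c i j) ∪ segEdges q i j) S₂
  un : S = S₁ ∪ S₂
  dj : Disjoint S₁ S₂
  ori : ∀ (t : ℤ) (d : H.Dart), i ≤ t → t < j → d.fst = q t → d.snd = q (t + 1) →
    d ∈ S₂ ∧ d.symm ∈ S₁

theorem exists_good [∀ w, Fintype (H.neighborSet w)] (hH : H.Connected) (Pl : Plane H)
    (hc : IsCurve H c) (hS : IsLeft Pl.toRotationSystem c S) (hRS : R ⊆ Ins S)
    (hJ : J.OrdConnected) (hP : ∀ t ∈ J, P t = c t) (hinj : Set.InjOn c J)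
    (hq : ZDet H R P J s q i j) :
    ∃ S₁ S₂, Good Pl.toRotationSystem c S R P J s q i j S₁ S₂ := by
  have hij := hq.hij
  obtain ⟨S₁, S₂, h1, h2, h3, h4, h5⟩ := theta_curve hH Pl hc hS (i := i) (j := j) (a := i)
    (b := j) (by omega) (hinj.mono (hJ.out hq.hi hq.hj)) (by omega) q (zdet_left hP hq)
    (zdet_right hP hq) (zdet_inj hc hS hRS hP hinj hq) hq.adj
    (fun t h1 h2 s => off_c hc hS hRS (hq.mem t h1 h2).1 s)
    (fun t d h1 h2 ha hb => ins_dart hc hS hRS (by
      rw [ha, hb]; exact zdet_mem_or hq h1 h2))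
  exact ⟨S₁, S₂, hq, h1, h2, h3, h4, h5⟩

namespace Good

variable {S₁ S₂ : Set H.Dart}

theorem sub1 (h : Good ρ c S R P J s q i j S₁ S₂) : S₁ ⊆ S := by
  rw [h.un]; exact Set.subset_union_left

theorem sub2 (h : Good ρ c S R P J s q i j S₁ S₂) : S₂ ⊆ S := by
  rw [h.un]; exact Set.subset_union_right

theorem not12 (h : Good ρ c S R P J s q i j S₁ S₂) {d : H.Dart} (h1 : d ∈ S₁) (h2 : d ∈ S₂) :
    False := Set.disjoint_left.1 h.dj h1 h2

/-- An edge of the detour is not an edge of the curve. -/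
theorem q_not_c (h : Good ρ c S R P J s q i j S₁ S₂) (hc : IsCurve H c) (hS : IsLeft ρ c S)
    (hRS : R ⊆ Ins S) {e : Sym2 W} (he : e ∈ segEdges q i j) : e ∉ curveEdges c := by
  obtain ⟨t, h1, h2, rfl⟩ := he
  rintro ⟨u, hu⟩
  have hu' := Sym2.eq_iff.1 hu
  rcases zdet_mem_or h.det h1 h2 with h3 | h3
  · rcases hu' with hu' | hu'
    · exact off_c hc hS hRS h3 _ hu'.1
    · exact off_c hc hS hRS h3 _ hu'.1
  · rcases hu' with hu' | hu'
    · exact off_c hc hS hRS h3 _ hu'.2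
    · exact off_c hc hS hRS h3 _ hu'.2

/-- A vertex of the territory that is not on the detour is off both boundaries. -/
theorem off_bdry (h : Good ρ c S R P J s q i j S₁ S₂) (hc : IsCurve H c) (hS : IsLeft ρ c S)
    (hRS : R ⊆ Ins S) (hP : ∀ t ∈ J, P t = c t) {w : W} (hw : w ∈ R)
    (hq : ∀ t, i < t → t < j → w ≠ q t) {y : W} :
    s(w, y) ∉ curveEdges c ∧ s(w, y) ∉ segEdges q i j := by
  constructor
  · rintro ⟨u, hu⟩
    rcases Sym2.eq_iff.1 hu with hu | hu
    · exact off_c hc hS hRS hw _ hu.1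
    · exact off_c hc hS hRS hw _ hu.1
  · rintro ⟨u, h1, h2, hu⟩
    have key : ∀ t, i ≤ t → t ≤ j → w ≠ q t := by
      intro t h1 h2 he
      rcases lt_or_eq_of_le h1 with h1 | rfl
      · rcases lt_or_eq_of_le h2 with h2 | rfl
        · exact hq t h1 h2 he
        · exact off_c hc hS hRS hw _ (he.trans (zdet_right hP h.det))
      · exact off_c hc hS hRS hw _ (he.trans (zdet_left hP h.det))
    rcases Sym2.eq_iff.1 hu with hu | hu
    · exact key u h1 h2.le hu.1
    · exact key (u + 1) (by omega) (by omega) hu.1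

theorem off_bdry1 (h : Good ρ c S R P J s q i j S₁ S₂) (hc : IsCurve H c) (hS : IsLeft ρ c S)
    (hRS : R ⊆ Ins S) (hP : ∀ t ∈ J, P t = c t) {w : W} (hw : w ∈ R)
    (hq : ∀ t, i < t → t < j → w ≠ q t) (y : W) :
    s(w, y) ∉ segEdges c i j ∪ segEdges q i j := by
  have := h.off_bdry hc hS hRS hP hw hq (y := y)
  rintro (h1 | h1)
  · exact this.1 (seg_sub h1)
  · exact this.2 h1

theorem off_bdry2 (h : Good ρ c S R P J s q i j S₁ S₂) (hc : IsCurve H c) (hS : IsLeft ρ c S)
    (hRS : R ⊆ Ins S) (hP : ∀ t ∈ J, P t = c t) {w : W} (hw : w ∈ R)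
    (hq : ∀ t, i < t → t < j → w ≠ q t) (y : W) :
    s(w, y) ∉ (curveEdges c \ segEdges c i j) ∪ segEdges q i j := by
  have := h.off_bdry hc hS hRS hP hw hq (y := y)
  rintro (h1 | h1)
  · exact this.1 h1.1
  · exact this.2 h1

theorem q_not_ins (h : Good ρ c S R P J s q i j S₁ S₂) {t : ℤ} (h1 : i < t) (h2 : t < j) :
    q t ∉ Ins S₁ ∧ q t ∉ Ins S₂ := by
  constructor
  · intro hi
    have hadj := h.det.adj t h1.le h2
    have h3 := hi ⟨(q t, q (t + 1)), hadj⟩ rfl
    have h4 := h.ori t ⟨(q t, q (t + 1)), hadj⟩ h1.le h2 rfl rfl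
    exact h.not12 h3 h4.1
  · intro hi
    have hadj := h.det.adj (t - 1) (by omega) (by omega)
    rw [sub_add_cancel] at hadj
    have h3 := hi ⟨(q t, q (t - 1)), hadj.symm⟩ rfl
    have h4 := h.ori (t - 1) ⟨(q (t - 1), q t), hadj⟩ (by omega) (by omega) rfl (by simp)
    exact h.not12 h4.2 h3

/-- No interior vertex of the part of the curve between `i` and `j` touches `S₂`. -/
theorem c_not_2 [∀ w, Fintype (H.neighborSet w)]
    (h : Good ρ c S R P J s q i j S₁ S₂) (hc : IsCurve H c) (hS : IsLeft ρ c S)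
    (hRS : R ⊆ Ins S) (hP : ∀ t ∈ J, P t = c t) (hinj : Set.InjOn c J) (hJ : J.OrdConnected)
    {t : ℤ} (h1 : i < t) (h2 : t < j) {d : H.Dart} (hd : d.fst = c t) : d ∉ S₂ := by
  intro hd2
  have htJ : t ∈ J := hJ.out h.det.hi h.det.hj ⟨h1.le, h2.le⟩
  have hoff : ∀ y, H.Adj (c t) y → s(c t, y) ∉ (curveEdges c \ segEdges c i j) ∪
      segEdges q i j := by
    rintro y - (⟨⟨u, hu⟩, hn⟩ | ⟨u, hu1, hu2, hu⟩)
    · apply hn
      rcases Sym2.eq_iff.1 hu with ⟨ha, hb⟩ | ⟨ha, hb⟩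
      · have := (hc.det t u ha).1
        exact ⟨t, h1.le, h2, by rw [hb, this]⟩
      · have := (hc.det t (u + 1) ha).2
        rw [add_sub_cancel_right] at this
        refine ⟨t - 1, by omega, by omega, ?_⟩
        rw [sub_add_cancel, this, hb]
        exact Sym2.eq_swap
    · have key : ∀ u, i ≤ u → u ≤ j → c t ≠ q u := by
        intro u hu1 hu2 he
        rcases lt_or_eq_of_le hu1 with hu1 | rfl
        · rcases lt_or_eq_of_le hu2 with hu2 | rfl
          · exact off_c hc hS hRS (h.det.mem u hu1 hu2).1 t he.symm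
          · have := hinj htJ h.det.hj (he.trans (zdet_right hP h.det))
            omega
        · have := hinj htJ h.det.hi (he.trans (zdet_left hP h.det))
          omega
      rcases Sym2.eq_iff.1 hu with hu | hu
      · exact key u hu1 hu2.le hu.1
      · exact key (u + 1) (by omega) (by omega) hu.1
  have hadj : H.Adj (c t) (c (t - 1)) := by
    have := hc.adj (t - 1)
    rw [sub_add_cancel] at this
    exact this.symm
  have h3 := (region_const ρ h.r2 hoff hd (rfl : (⟨(c t, c (t - 1)), hadj⟩ : H.Dart).fst = c t)).1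
    hd2
  have h4 := hS.left (t - 1) ⟨(c (t - 1), c t), hadj.symm⟩ rfl (by simp)
  exact h4.2 (h.sub2 h3)

end Good

/-- The region of a detour that runs inside the pocket of another one is smaller. -/
theorem sub_of [∀ w, Fintype (H.neighborSet w)] (hH : H.Connected)
    (hc : IsCurve H c) (hS : IsLeft ρ c S) (hRS : R ⊆ Ins S)
    (hP : ∀ t ∈ J, P t = c t) (hinj : Set.InjOn c J)
    {S₁ S₂ : Set H.Dart} (h : Good ρ c S R P J s q i j S₁ S₂) {q' : ℤ → W} {i' j' : ℤ}
    {S₁' S₂' : Set H.Dart} (h' : Good ρ c S R P J s q' i' j' S₁' S₂') (hi : i ≤ i') (hj : j' ≤ j)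
    (hedge : ∀ t, i' ≤ t → t < j' → (q' t = q t ∧ q' (t + 1) = q (t + 1)) ∨
      ∀ d : H.Dart, d.fst = q' t → d.snd = q' (t + 1) → d ∈ S₁ ∧ d.symm ∈ S₁) :
    S₁' ⊆ S₁ := by
  classical
  set T : Set H.Dart := S₁' ∩ S₂ with hT
  have hTface : IsFaceSet ρ T := by
    intro d
    simp only [hT, Set.mem_inter_iff, h'.r1.1 d, h.r2.1 d]
  -- the boundary darts of `T` are forward darts of `q`
  have key : ∀ d ∈ T, d.symm ∉ T → ∃ t, i ≤ t ∧ t < j ∧ d.fst = q t ∧ d.snd = q (t + 1) := by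
    rintro d ⟨hd1, hd2⟩ hds
    by_cases hs1 : d.symm ∈ S₁'
    · have hs2 : d.symm ∉ S₂ := fun hx => hds ⟨hs1, hx⟩
      have he : d.edge ∈ (curveEdges c \ segEdges c i j) ∪ segEdges q i j := by
        by_contra hcon
        exact hs2 ((((h.r2.2 d).2 hcon)).1 hd2)
      rcases he with he | he
      · exact absurd ⟨h.sub2 hd2, h'.sub1 hs1⟩ (c_edge hS he.1)
      · obtain ⟨t, h1, h2, ht⟩ := he
        rcases edge_cases ht with ⟨ha, hb⟩ | ⟨ha, hb⟩
        · exact ⟨t, h1, h2, ha, hb⟩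
        · exact absurd (h.ori t d.symm h1 h2 (by rw [symm_fst, hb]) (by rw [symm_snd, ha])).1 hs2
    · exfalso
      have he : d.edge ∈ segEdges c i' j' ∪ segEdges q' i' j' := by
        by_contra hcon
        exact hs1 ((((h'.r1.2 d).2 hcon)).1 hd1)
      rcases he with he | he
      · have he' : d.edge ∈ segEdges c i j := by
          obtain ⟨t, h1, h2, ht⟩ := he
          exact ⟨t, by omega, by omega, ht⟩
        have hb : d.edge ∉ (curveEdges c \ segEdges c i j) ∪ segEdges q i j := by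
          rintro (hx | hx)
          · exact hx.2 he'
          · exact h.q_not_c hc hS hRS hx (seg_sub he')
        have := ((h.r2.2 d).2 hb).1 hd2
        exact c_edge hS (seg_sub he') ⟨h.sub2 hd2, h.sub2 this⟩
      · obtain ⟨t, h1, h2, ht⟩ := he
        rcases hedge t h1 h2 with ⟨e1, e2⟩ | hx
        · rcases edge_cases ht with ⟨ha, hb⟩ | ⟨ha, hb⟩
          · exact h'.not12 hd1 (h'.ori t d h1 h2 ha hb).1
          · have := (h.ori t d.symm (by omega) (by omega) (by rw [symm_fst, hb, e1])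
              (by rw [symm_snd, ha, e2])).2
            rw [Dart.symm_symm] at this
            exact h.not12 this hd2
        · rcases edge_cases ht with ⟨ha, hb⟩ | ⟨ha, hb⟩
          · exact h.not12 (hx d ha hb).1 hd2
          · have := (hx d.symm (by rw [symm_fst, hb]) (by rw [symm_snd, ha])).2
            rw [Dart.symm_symm] at this
            exact h.not12 this hd2
  -- no boundary
  have hqinj := zdet_inj hc hS hRS hP hinj h.det
  set F : H.Dart → ℤ := fun d => if d ∈ T then 1 else 0 with hF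
  have hFface : ∀ d, F (ρ.rot d.symm) = F d := by
    intro d
    simp only [hF]
    rw [if_congr (hTface d) rfl rfl]
  have hno : ∀ n : ℕ, ∀ t, t = i + n → t < j → ∀ d : H.Dart, d.fst = q t → d.snd = q (t + 1) →
      d ∈ T → d.symm ∈ T := by
    intro n
    induction n using Nat.strong_induction_on with
    | _ n ih =>
      intro t htn htj d ha hb hdT
      by_contra hds
      have hsum := faceSet_flow ρ hFface (q t)
      have hadj : H.Adj (q t) (q (t + 1)) := h.det.adj t (by omega) htj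
      have hdd : d = H.dartOfNeighborSet (q t) ⟨q (t + 1), hadj⟩ := by
        apply Dart.ext
        exact Prod.ext ha hb
      rw [Finset.sum_eq_single (⟨q (t + 1), hadj⟩ : H.neighborSet (q t))] at hsum
      · rw [← hdd] at hsum
        simp only [hF, if_pos hdT, if_neg hds] at hsum
        omega
      · intro y _ hy
        set d' := H.dartOfNeighborSet (q t) y with hd'
        have hf : d'.fst = q t := rfl
        have hg : d'.snd = y := rfl
        by_cases h1 : d' ∈ T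
        · by_cases h2 : d'.symm ∈ T
          · simp only [hF, if_pos h1, if_pos h2, sub_self]
          · obtain ⟨u, hu1, hu2, hu3, hu4⟩ := key d' h1 h2
            have : t = u := hqinj ⟨by omega, htj.le⟩ ⟨hu1, hu2.le⟩ (hf.symm.trans hu3)
            subst this
            exact absurd (Subtype.ext (hg.symm.trans hu4)) hy
        · by_cases h2 : d'.symm ∈ T
          · have h3 : d'.symm.symm ∉ T := by rw [Dart.symm_symm]; exact h1
            obtain ⟨u, hu1, hu2, hu3, hu4⟩ := key d'.symm h2 h3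
            have : t = u + 1 := hqinj ⟨by omega, htj.le⟩ ⟨by omega, by omega⟩ (hf.symm.trans hu4)
            exact absurd (ih (n - 1) (by omega) u (by omega) hu2 d'.symm hu3 hu4 h2) h3
          · simp only [hF, if_neg h1, if_neg h2, sub_self]
      · intro hx
        exact absurd (Finset.mem_univ _) hx
  have hTb : ∀ d : H.Dart, d ∈ T → d.symm ∈ T := by
    intro d hd
    by_contra hds
    obtain ⟨t, h1, h2, h3, h4⟩ := key d hd hds
    exact hds (hno (t - i).toNat t (by omega) h2 d h3 h4 hd)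
  rcases faceSet_trivial hH ρ hTface (fun d => ⟨hTb d, fun hd => by
    have := hTb d.symm hd
    rwa [Dart.symm_symm] at this⟩) with hT0 | hT1
  · intro d hd
    by_contra hcon
    have hd2 : d ∈ S₂ := by
      have := h'.sub1 hd
      rw [h.un] at this
      exact this.resolve_left hcon
    have : d ∈ T := ⟨hd, hd2⟩
    rw [hT0] at this
    exact this
  · exfalso
    have hadj := hc.adj 0
    have h4 := (hS.left 0 ⟨(c 0, c (0 + 1)), hadj⟩ rfl rfl).2
    apply h4
    have : (⟨(c 0, c (0 + 1)), hadj⟩ : H.Dart).symm ∈ T := by rw [hT1]; trivial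
    exact h.sub2 this.2

/-- The measure of a detour. -/
def M (R : Set W) (q : ℤ → W) (i j : ℤ) (S₁ : Set H.Dart) : Set W :=
  {w | w ∈ R ∧ (w ∈ Ins S₁ ∨ ∃ t, i < t ∧ t < j ∧ w = q t)}

/-- Shortcuts through the pocket give smaller pockets. -/
theorem shortcut [∀ w, Fintype (H.neighborSet w)] (hH : H.Connected) (Pl : Plane H)
    (hc : IsCurve H c) (hS : IsLeft Pl.toRotationSystem c S) (hRS : R ⊆ Ins S)
    (hJ : J.OrdConnected) (hP : ∀ t ∈ J, P t = c t) (hinj : Set.InjOn c J)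
    {S₁ S₂ : Set H.Dart} (h : Good Pl.toRotationSystem c S R P J s q i j S₁ S₂)
    {a b i' j' t₀ : ℤ} {L L' Z : ℤ → W} (hab : a < b) (hia : i ≤ a) (hbj : b ≤ j)
    (hL : (L = P ∧ i' = a) ∨ (L = q ∧ i' = i)) (hL' : (L' = P ∧ j' = b) ∨ (L' = q ∧ j' = j))
    (h2 : i' + 2 ≤ j')
    (hZ : ∀ u, a < u → u < b → Z u ∈ R ∩ Ins S₁ ∧ s (Z u) = u)
    {q' : ℤ → W} (hq'1 : ∀ u, u ≤ a → q' u = L u) (hq'2 : ∀ u, b ≤ u → q' u = L' u)
    (hq'3 : ∀ u, a < u → u < b → q' u = Z u)
    (hadj : ∀ u, a ≤ u → u < b → H.Adj (q' u) (q' (u + 1)))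
    (hdart : ∀ u, a ≤ u → u < b → ∀ d : H.Dart, d.fst = q' u → d.snd = q' (u + 1) →
      d ∈ S₁ ∧ d.symm ∈ S₁)
    (ht₀ : i < t₀) (ht₀' : t₀ < j) (ht : t₀ ≤ i' ∨ j' ≤ t₀ ∨ (a < t₀ ∧ t₀ < b)) :
    ∃ S₁' S₂', Good Pl.toRotationSystem c S R P J s q' i' j' S₁' S₂' ∧
      M R q' i' j' S₁' ⊂ M R q i j S₁ := by
  have hi' : i ≤ i' ∧ i' ≤ a := by
    rcases hL with ⟨_, rfl⟩ | ⟨_, rfl⟩
    · exact ⟨hia, le_rfl⟩
    · exact ⟨le_rfl, hia⟩
  have hj' : b ≤ j' ∧ j' ≤ j := by
    rcases hL' with ⟨_, rfl⟩ | ⟨_, rfl⟩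
    · exact ⟨le_rfl, hbj⟩
    · exact ⟨hbj, le_rfl⟩
  have hQ1 : ∀ u, i' < u → u ≤ a → q' u = q u := by
    intro u h1 h2
    rw [hq'1 u h2]
    rcases hL with ⟨_, rfl⟩ | ⟨rfl, _⟩
    · omega
    · rfl
  have hQ2 : ∀ u, b ≤ u → u < j' → q' u = q u := by
    intro u h1 h2
    rw [hq'2 u h1]
    rcases hL' with ⟨_, rfl⟩ | ⟨rfl, _⟩
    · omega
    · rfl
  have hQ1' : ∀ u, i' ≤ u → u < a → q' u = q u := by
    intro u h1 h2
    rw [hq'1 u h2.le]
    rcases hL with ⟨_, rfl⟩ | ⟨rfl, _⟩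
    · omega
    · rfl
  have hQ2' : ∀ u, b < u → u ≤ j' → q' u = q u := by
    intro u h1 h2
    rw [hq'2 u h1.le]
    rcases hL' with ⟨_, rfl⟩ | ⟨rfl, _⟩
    · omega
    · rfl
  have hout1 : ∀ u, u ≤ i' → q' u = P u := by
    intro u hu
    rw [hq'1 u (hu.trans hi'.2)]
    rcases hL with ⟨rfl, _⟩ | ⟨rfl, rfl⟩
    · rfl
    · exact h.det.out u (Or.inl hu)
  have hout2 : ∀ u, j' ≤ u → q' u = P u := by
    intro u hu
    rw [hq'2 u (hj'.1.trans hu)]
    rcases hL' with ⟨rfl, _⟩ | ⟨rfl, rfl⟩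
    · rfl
    · exact h.det.out u (Or.inr hu)
  have hLq : a ≠ i' → q' a = q a := fun hne => hQ1 a (lt_of_le_of_ne hi'.2 (Ne.symm hne)) le_rfl
  have hLq' : b ≠ j' → q' b = q b := fun hne => hQ2 b le_rfl (lt_of_le_of_ne hj'.1 hne)
  -- the new detour
  have hdet : ZDet H R P J s q' i' j' := by
    refine ⟨hJ.out h.det.hi h.det.hj ⟨hi'.1, by omega⟩,
      hJ.out h.det.hi h.det.hj ⟨by omega, hj'.2⟩, h2, ?_, ?_, ?_⟩
    · rintro u (hu | hu)
      · exact hout1 u hu
      · exact hout2 u hu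
    · intro u hu1 hu2
      by_cases hua : u ≤ a
      · rw [hQ1 u hu1 hua]
        exact h.det.mem u (by omega) (by omega)
      · by_cases hub : b ≤ u
        · rw [hQ2 u hub hu2]
          exact h.det.mem u (by omega) (by omega)
        · rw [hq'3 u (by omega) (by omega)]
          have := hZ u (by omega) (by omega)
          exact ⟨this.1.1, this.2⟩
    · intro u hu1 hu2
      by_cases hua : u < a
      · have e1 : q' u = q u := hQ1' u hu1 hua
        have e2 : q' (u + 1) = q (u + 1) := hQ1 (u + 1) (by omega) (by omega)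
        rw [e1, e2]
        exact h.det.adj u (by omega) (by omega)
      · by_cases hub : b ≤ u
        · have e1 : q' u = q u := hQ2 u hub hu2
          have e2 : q' (u + 1) = q (u + 1) := hQ2' (u + 1) (by omega) (by omega)
          rw [e1, e2]
          exact h.det.adj u (by omega) (by omega)
        · exact hadj u (by omega) (by omega)
  obtain ⟨S₁', S₂', hg⟩ := exists_good hH Pl hc hS hRS hJ hP hinj hdet
  have hsub : S₁' ⊆ S₁ := by
    refine sub_of hH hc hS hRS hP hinj h hg hi'.1 hj'.2 ?_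
    intro u hu1 hu2
    by_cases hua : u < a
    · exact Or.inl ⟨hQ1' u hu1 hua, hQ1 (u + 1) (by omega) (by omega)⟩
    · by_cases hub : b ≤ u
      · exact Or.inl ⟨hQ2 u hub hu2, hQ2' (u + 1) (by omega) (by omega)⟩
      · exact Or.inr (hdart u (by omega) (by omega))
  refine ⟨S₁', S₂', hg, ?_⟩
  have hMsub : M R q' i' j' S₁' ⊆ M R q i j S₁ := by
    rintro w ⟨hwR, hw⟩
    refine ⟨hwR, ?_⟩
    rcases hw with hw | ⟨u, hu1, hu2, rfl⟩
    · exact Or.inl (fun d hd => hsub (hw d hd))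
    · by_cases hua : u ≤ a
      · exact Or.inr ⟨u, by omega, by omega, hQ1 u hu1 hua⟩
      · by_cases hub : b ≤ u
        · exact Or.inr ⟨u, by omega, by omega, hQ2 u hub hu2⟩
        · rw [hq'3 u (by omega) (by omega)]
          exact Or.inl (hZ u (by omega) (by omega)).1.2
  refine ⟨hMsub, fun hM => ?_⟩
  have hmem : q t₀ ∈ M R q i j S₁ := ⟨(h.det.mem t₀ ht₀ ht₀').1, Or.inr ⟨t₀, ht₀, ht₀', rfl⟩⟩
  obtain ⟨-, hx⟩ := hM hmem
  have hqinj := zdet_inj hc hS hRS hP hinj h.det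
  rcases hx with hx | ⟨u, hu1, hu2, hu⟩
  · exact (h.q_not_ins ht₀ ht₀').1 (fun d hd => hsub (hx d hd))
  · by_cases hua : u ≤ a
    · rw [hQ1 u hu1 hua] at hu
      have := hqinj ⟨ht₀.le, ht₀'.le⟩ ⟨by omega, by omega⟩ hu
      omega
    · by_cases hub : b ≤ u
      · rw [hQ2 u hub hu2] at hu
        have := hqinj ⟨ht₀.le, ht₀'.le⟩ ⟨by omega, by omega⟩ hu
        omega
      · rw [hq'3 u (by omega) (by omega)] at hu
        have := (hZ u (by omega) (by omega)).1.2
        rw [← hu] at this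
        exact (h.q_not_ins ht₀ ht₀').1 this

end

end PK

theorem min_pocket [∀ w, Fintype (H.neighborSet w)] (hH : H.Connected) (Pl : Plane H)
    {c : ℤ → W} (hc : IsCurve H c) {S : Set H.Dart} (hS : IsLeft Pl.toRotationSystem c S)
    {R Z : Set W} {P : ℤ → W} {J : Set ℤ} {s : W → ℤ} (hJ : J.OrdConnected)
    (hP : ∀ t ∈ J, P t = c t) (hinj : Set.InjOn c J)
    (hwalk : ∀ t, Step H (P t) (P (t + 1))) (hpot : Potential H R P J s) (hRS : R ⊆ Ins S)
    (hnbr : ∀ r ∈ R, ∀ w, H.Adj r w → w ∈ R ∨ w ∈ Z ∨ ∃ t, w = c t)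
    (hZ : ∀ z ∈ Z, ∀ t, z ≠ c t)
    (hfin : ∀ (q : ℤ → W) (i j : ℤ) (S₁ : Set H.Dart), ZDet H R P J s q i j →
      IsRegion Pl.toRotationSystem (segEdges c i j ∪ segEdges q i j) S₁ → S₁ ⊆ S →
      (R ∩ Ins S₁).Finite ∧ Z ∩ Ins S₁ = ∅)
    (hdet : ¬ NoDet H R P J s) :
    ∃ (q : ℤ → W) (i j : ℤ) (S₁ S₂ : Set H.Dart),
      Pocket H R (R ∩ Ins S₁) (R ∩ Ins S₂) P q J s i j ∧
      IsRegion Pl.toRotationSystem (segEdges c i j ∪ segEdges q i j) S₁ ∧
      IsRegion Pl.toRotationSystem ((curveEdges c \ segEdges c i j) ∪ segEdges q i j) S₂ ∧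
      S = S₁ ∪ S₂ ∧ Disjoint S₁ S₂ ∧
      ∀ (t : ℤ) (d : H.Dart), i ≤ t → t < j → d.fst = q t → d.snd = q (t + 1) →
        d ∈ S₂ ∧ d.symm ∈ S₁ := by
  classical
  -- a first detour
  have hex : ∃ n : ℕ, ∃ (q : ℤ → W) (i j : ℤ) (S₁ S₂ : Set H.Dart),
      PK.Good Pl.toRotationSystem c S R P J s q i j S₁ S₂ ∧ (PK.M R q i j S₁).ncard = n := by
    rw [noDet_iff] at hdet
    push Not at hdet
    obtain ⟨q, i, j, hq⟩ := hdet
    obtain ⟨S₁, S₂, hg⟩ := PK.exists_good hH Pl hc hS hRS hJ hP hinj hq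
    exact ⟨_, q, i, j, S₁, S₂, hg, rfl⟩
  obtain ⟨q, i, j, S₁, S₂, h, hn⟩ := Nat.find_spec hex
  have hmin : ∀ (q' : ℤ → W) (i' j' : ℤ) (S₁' S₂' : Set H.Dart),
      PK.Good Pl.toRotationSystem c S R P J s q' i' j' S₁' S₂' →
      ¬ PK.M R q' i' j' S₁' ⊂ PK.M R q i j S₁ := by
    intro q' i' j' S₁' S₂' hg hlt
    have hfinM : (PK.M R q i j S₁).Finite := by
      refine ((hfin q i j S₁ h.det h.r1 h.sub1).1.union
        ((Set.finite_Icc i j).image q)).subset ?_
      rintro w ⟨hw1, hw2 | ⟨t, h1, h2, rfl⟩⟩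
      · exact Or.inl ⟨hw1, hw2⟩
      · exact Or.inr ⟨t, ⟨h1.le, h2.le⟩, rfl⟩
    have := Set.ncard_lt_ncard hlt hfinM
    rw [hn] at this
    exact Nat.find_min hex this ⟨q', i', j', S₁', S₂', hg, rfl⟩
  have hcut : ∀ {a b i' j' t₀ : ℤ} {L L' Z q' : ℤ → W}, a < b → i ≤ a → b ≤ j →
      ((L = P ∧ i' = a) ∨ (L = q ∧ i' = i)) → ((L' = P ∧ j' = b) ∨ (L' = q ∧ j' = j)) →
      i' + 2 ≤ j' → (∀ u, a < u → u < b → Z u ∈ R ∩ Ins S₁ ∧ s (Z u) = u) →
      (∀ u, u ≤ a → q' u = L u) → (∀ u, b ≤ u → q' u = L' u) →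
      (∀ u, a < u → u < b → q' u = Z u) →
      (∀ u, a ≤ u → u < b → H.Adj (q' u) (q' (u + 1))) →
      (∀ u, a ≤ u → u < b → ∀ d : H.Dart, d.fst = q' u → d.snd = q' (u + 1) →
        d ∈ S₁ ∧ d.symm ∈ S₁) → i < t₀ → t₀ < j → t₀ ≤ i' ∨ j' ≤ t₀ ∨ (a < t₀ ∧ t₀ < b) →
      False := by
    intro a b i' j' t₀ L L' Z q' h1 h2 h3 h4 h5 h6 h7 h8 h9 h10 h11 h12 h13 h14 h15
    obtain ⟨S₁', S₂', hg, hM⟩ := PK.shortcut hH Pl hc hS hRS hJ hP hinj h h1 h2 h3 h4 h5 h6 h7
      h8 h9 h10 h11 h12 h13 h14 h15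
    exact hmin _ _ _ _ _ hg hM
  have hij := h.det.hij
  have hJij : Set.Icc i j ⊆ J := hJ.out h.det.hi h.det.hj
  have hlR : ∀ w ∈ R, ∀ t, w ≠ c t := fun w hw t => PK.off_c hc hS hRS hw t
  have hcI : ∀ t, c t ∉ Ins S := PK.c_not_ins hc hS
  -- darts between a place of the pocket and the curve
  have hPq : ∀ w ∈ R, ∀ t, i < t → t < j → H.Adj w (P t) →
      ∀ d : H.Dart, d.fst = w → d.snd = P t → d ∈ S₁ ∧ d.symm ∈ S₁ := by
    intro w hw t h1 h2 _ d ha hb
    have hds := PK.ins_dart hc hS hRS (d := d) (Or.inl (ha ▸ hw))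
    have h3 : d.symm ∉ S₂ := h.c_not_2 hc hS hRS hP hinj hJ h1 h2
      (by rw [PK.symm_fst, hb, hP t (hJij ⟨h1.le, h2.le⟩)])
    have h4 : d.symm ∈ S₁ := by
      have := hds.2
      rw [h.un] at this
      exact this.resolve_right h3
    refine ⟨?_, h4⟩
    have hb1 : d.edge ∉ segEdges c i j ∪ segEdges q i j := by
      have hdc : d.edge ∉ curveEdges c := fun hx => PK.c_edge hS hx hds
      rintro (hx | hx)
      · exact hdc (PK.seg_sub hx)
      · obtain ⟨u, hu1, hu2, hu⟩ := hx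
        rcases PK.edge_cases hu with ⟨e1, e2⟩ | ⟨e1, e2⟩
        · exact h3 (by
            have h5 := h.ori u d hu1 hu2 e1 e2
            -- `d.snd` is on the curve, so `u + 1 = j`
            have hcu : q (u + 1) = c t := by rw [← e2, hb, hP t (hJij ⟨h1.le, h2.le⟩)]
            exfalso
            rcases lt_or_eq_of_le (show u + 1 ≤ j by omega) with h6 | h6
            · exact hlR _ (h.det.mem (u + 1) (by omega) h6).1 t hcu
            · rw [h6, PK.zdet_right hP h.det] at hcu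
              have := hinj h.det.hj (hJij ⟨h1.le, h2.le⟩) hcu
              omega)
        · have hcu : q u = c t := by rw [← e2, hb, hP t (hJij ⟨h1.le, h2.le⟩)]
          rcases lt_or_eq_of_le hu1 with h6 | h6
          · exact hlR _ (h.det.mem u h6 hu2).1 t hcu
          · rw [← h6, PK.zdet_left hP h.det] at hcu
            have := hinj h.det.hi (hJij ⟨h1.le, h2.le⟩) hcu
            omega
    exact ((h.r1.2 d).2 hb1).2 h4
  -- darts at a vertex inside the pocket
  have hDd : ∀ w ∈ R ∩ Ins S₁, ∀ d : H.Dart, d.fst = w ∨ d.snd = w → d ∈ S₁ ∧ d.symm ∈ S₁ := by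
    intro w hw d hd
    have hq' : ∀ t, i < t → t < j → w ≠ q t := fun t h1 h2 he =>
      (h.q_not_ins h1 h2).1 (he ▸ hw.2)
    have hoff := h.off_bdry1 hc hS hRS hP hw.1 hq'
    rcases hd with hd | hd
    · have h1 : d ∈ S₁ := hw.2 d hd
      refine ⟨h1, ((h.r1.2 d).2 ?_).1 h1⟩
      have : d.edge = s(w, d.snd) := by rw [← hd]; rfl
      rw [this]
      exact hoff _
    · have h1 : d.symm ∈ S₁ := hw.2 d.symm hd
      refine ⟨((h.r1.2 d).2 ?_).2 h1, h1⟩
      have : d.edge = s(w, d.fst) := by rw [← hd]; exact Sym2.eq_swap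
      rw [this]
      exact hoff _
  have hnbr' : ∀ w ∈ R, ∃ y, H.Adj w y := by
    intro w hw
    obtain ⟨p⟩ := hH.preconnected w (c 0)
    cases p with
    | nil => exact absurd rfl (hlR _ hw 0)
    | cons hadj _ => exact ⟨_, hadj⟩
  refine ⟨q, i, j, S₁, S₂, ?_, h.r1, h.r2, h.un, h.dj, h.ori⟩
  refine ⟨hpot, hwalk, h.det, hJij, ?_, Set.inter_subset_left, Set.inter_subset_left, ?_, ?_, ?_,
    ?_, ?_, (hfin q i j S₁ h.det h.r1 h.sub1).1, ?_, ?_⟩
  · -- part
    intro r hr
    by_cases hrq : ∃ t, i < t ∧ t < j ∧ r = q t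
    · exact Or.inr (Or.inr hrq)
    · push Not at hrq
      obtain ⟨y, hy⟩ := hnbr' r hr
      have hd : (⟨(r, y), hy⟩ : H.Dart) ∈ S := hRS hr _ rfl
      rw [h.un] at hd
      rcases hd with hd | hd
      · left
        refine ⟨hr, fun d hdr => ?_⟩
        exact (region_const Pl.toRotationSystem h.r1
          (fun y _ => h.off_bdry1 hc hS hRS hP hr (fun t h1 h2 => hrq t h1 h2) y) hdr rfl).2 hd
      · right; left
        refine ⟨hr, fun d hdr => ?_⟩
        exact (region_const Pl.toRotationSystem h.r2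
          (fun y _ => h.off_bdry2 hc hS hRS hP hr (fun t h1 h2 => hrq t h1 h2) y) hdr rfl).2 hd
  · -- disj
    rw [Set.disjoint_left]
    rintro r ⟨hr, h1⟩ ⟨-, h2⟩
    obtain ⟨y, hy⟩ := hnbr' r hr
    exact h.not12 (h1 ⟨(r, y), hy⟩ rfl) (h2 ⟨(r, y), hy⟩ rfl)
  · -- qD
    intro t h1 h2
    exact ⟨fun hx => (h.q_not_ins h1 h2).1 hx.2, fun hx => (h.q_not_ins h1 h2).2 hx.2⟩
  · -- sep
    rintro x hx y ⟨hy, hy2⟩ hxy
    have h1 := (hDd x hx ⟨(x, y), hxy⟩ (Or.inl rfl)).2
    exact h.not12 h1 (hy2 _ rfl)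
  · -- nD
    intro x hx y hxy
    by_cases hyR : y ∈ R
    · exact Or.inl hyR
    right
    by_contra hcon
    push Not at hcon
    -- `y` is off the boundary of `S₁`
    have hyc : ∀ t, i ≤ t → t ≤ j → y ≠ c t := fun t h1 h2 he =>
      hcon t h1 h2 (by rw [he, hP t (hJij ⟨h1, h2⟩)])
    have hyq : ∀ t, i ≤ t → t ≤ j → y ≠ q t := by
      intro t h1 h2 he
      rcases lt_or_eq_of_le h1 with h1 | rfl
      · rcases lt_or_eq_of_le h2 with h2 | rfl
        · exact hyR (he ▸ (h.det.mem t h1 h2).1)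
        · exact hyc _ (by omega) le_rfl (he.trans (PK.zdet_right hP h.det))
      · exact hyc _ le_rfl (by omega) (he.trans (PK.zdet_left hP h.det))
    have hoff : ∀ z, H.Adj y z → s(y, z) ∉ segEdges c i j ∪ segEdges q i j := by
      rintro z - (⟨t, h1, h2, ht⟩ | ⟨t, h1, h2, ht⟩)
      · rcases Sym2.eq_iff.1 ht with ht | ht
        · exact hyc t h1 h2.le ht.1
        · exact hyc (t + 1) (by omega) (by omega) ht.1
      · rcases Sym2.eq_iff.1 ht with ht | ht
        · exact hyq t h1 h2.le ht.1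
        · exact hyq (t + 1) (by omega) (by omega) ht.1
    have hyI : y ∈ Ins S₁ := ins_of_adj Pl.toRotationSystem h.r1 hxy hx.2 hoff
    rcases hnbr x hx.1 y hxy with h1 | h1 | ⟨t, rfl⟩
    · exact hyR h1
    · have := (hfin q i j S₁ h.det h.r1 h.sub1).2
      exact Set.eq_empty_iff_forall_notMem.1 this y ⟨h1, hyI⟩
    · exact hcI t (fun d hd => h.sub1 (hyI d hd))
  · -- nO
    rintro x ⟨hx, hx2⟩ t htJ hadj
    by_contra hcon
    push Not at hcon
    have hh := h.c_not_2 hc hS hRS hP hinj hJ hcon.1 hcon.2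
      (d := (⟨(P t, x), hadj.symm⟩ : H.Dart)) (hP t htJ)
    have h1 : (⟨(x, P t), hadj⟩ : H.Dart) ∈ S₂ := hx2 _ rfl
    have h2 := (hPq x hx t hcon.1 hcon.2 hadj ⟨(x, P t), hadj⟩ rfl rfl).1
    exact h.not12 h2 h1
  · -- chord
    intro t t' h1 h2 h1' h2' hadj
    by_contra hne
    have hm := h.det.mem t h1 h2
    have hnear := hpot.near (q t) hm.1 t' (hJij ⟨h1'.le, h2'.le⟩) hadj
    rw [hm.2, abs_le] at hnear
    have hd := hPq (q t) hm.1 t' h1' h2' hadj
    rcases lt_or_gt_of_ne hne with hlt | hlt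
    · have e : t' = t + 1 := by omega
      subst e
      refine hcut (a := t) (b := t + 1) (i' := i) (j' := t + 1) (t₀ := t + 1) (L := q) (L' := P)
        (Z := q) (q' := fun u => if u ≤ t then q u else P u) (by omega) h1.le (by omega)
        (Or.inr ⟨rfl, rfl⟩) (Or.inl ⟨rfl, rfl⟩) (by omega) (fun u h3 h4 => by omega)
        (fun u hu => if_pos hu) (fun u hu => if_neg (by omega)) (fun u h3 h4 => by omega)
        ?_ ?_ h1' h2' (Or.inr (Or.inl le_rfl))
      · intro u h3 h4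
        have : u = t := by omega
        subst this
        simpa using hadj
      · intro u h3 h4 d ha hb
        have : u = t := by omega
        subst this
        simp only [le_refl, if_true] at ha
        have hb' : d.snd = P (u + 1) := by simpa using hb
        exact hd d ha hb'
    · have e : t' = t - 1 := by omega
      subst e
      refine hcut (a := t - 1) (b := t) (i' := t - 1) (j' := j) (t₀ := t - 1) (L := P) (L' := q)
        (Z := q) (q' := fun u => if u ≤ t - 1 then P u else q u) (by omega) h1'.le h2.le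
        (Or.inl ⟨rfl, rfl⟩) (Or.inr ⟨rfl, rfl⟩) (by omega) (fun u h3 h4 => by omega)
        (fun u hu => if_pos hu) (fun u hu => if_neg (by omega)) (fun u h3 h4 => by omega)
        ?_ ?_ h1' h2' (Or.inl le_rfl)
      · intro u h3 h4
        have : u = t - 1 := by omega
        subst this
        simpa using hadj.symm
      · intro u h3 h4 d ha hb
        have : u = t - 1 := by omega
        subst this
        simp only [le_refl, if_true] at ha
        have hb' : d.snd = q t := by simpa using hb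
        have := hd d.symm (by rw [PK.symm_fst, hb']) (by rw [PK.symm_snd, ha])
        rw [Dart.symm_symm] at this
        exact this.symm
  · -- strict
    intro r hr hfrom hto
    obtain ⟨L, i', hL, y, hyr, hyD, a, haI, hya, hya'⟩ : ∃ (L : ℤ → W) (i' : ℤ → ℤ),
        ((L = P ∧ ∀ a, i' a = a) ∨ (L = q ∧ ∀ a, i' a = i)) ∧
          FromLine H (R ∩ Ins S₁) L (Set.Icc i j) s r := by
      rcases hfrom with hf | hf
      · exact ⟨P, id, Or.inl ⟨rfl, fun _ => rfl⟩, hf⟩
      · exact ⟨q, fun _ => i, Or.inr ⟨rfl, fun _ => rfl⟩, hf⟩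
    obtain ⟨L', j', hL', z, hrz, hzD, b, hbI, hzb, hzb'⟩ : ∃ (L' : ℤ → W) (j' : ℤ → ℤ),
        ((L' = P ∧ ∀ b, j' b = b) ∨ (L' = q ∧ ∀ b, j' b = j)) ∧
          ToLine H (R ∩ Ins S₁) L' (Set.Icc i j) s r := by
      rcases hto with hf | hf
      · exact ⟨P, id, Or.inl ⟨rfl, fun _ => rfl⟩, hf⟩
      · exact ⟨q, fun _ => j, Or.inr ⟨rfl, fun _ => rfl⟩, hf⟩
    obtain ⟨hsyz, Z', hZy, hZz, hZm, hZadj⟩ := exists_path_of_arc (hyr.trans hrz) hyD
    have hab : a + 2 ≤ b := by omega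
    have hia := haI.1
    have hbj := hbI.2
    have hi1 : i' a ≤ a := by
      rcases hL with ⟨-, hL⟩ | ⟨-, hL⟩
      · rw [hL]
      · rw [hL]; exact hia
    have hj1 : b ≤ j' b := by
      rcases hL' with ⟨-, hL⟩ | ⟨-, hL⟩
      · rw [hL]
      · rw [hL]; exact hbj
    have hq3 : ∀ u, a < u → u < b →
        (if u ≤ a then L u else if b ≤ u then L' u else Z' u) = Z' u := by
      intro u h1 h2
      rw [if_neg (by omega), if_neg (by omega)]
    have hq1 : ∀ u, u ≤ a → (if u ≤ a then L u else if b ≤ u then L' u else Z' u) = L u :=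
      fun u hu => if_pos hu
    have hq2 : ∀ u, b ≤ u → (if u ≤ a then L u else if b ≤ u then L' u else Z' u) = L' u := by
      intro u hu
      rw [if_neg (by omega), if_pos hu]
    refine hcut (a := a) (b := b) (i' := i' a) (j' := j' b) (t₀ := a + 1) (L := L) (L' := L')
      (Z := Z') (q' := fun u => if u ≤ a then L u else if b ≤ u then L' u else Z' u)
      (by omega) hia hbj (hL.imp (fun h => ⟨h.1, h.2 a⟩) (fun h => ⟨h.1, h.2 a⟩))
      (hL'.imp (fun h => ⟨h.1, h.2 b⟩) (fun h => ⟨h.1, h.2 b⟩)) (by omega)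
      (fun u h1 h2 => hZm u (by omega) (by omega)) hq1 hq2 hq3 ?_ ?_ (by omega) (by omega)
      (Or.inr (Or.inr ⟨by omega, by omega⟩))
    · intro u h1 h2
      by_cases hua : u = a
      · subst hua
        show H.Adj (if u ≤ u then L u else if b ≤ u then L' u else Z' u)
          (if u + 1 ≤ u then L (u + 1) else if b ≤ u + 1 then L' (u + 1) else Z' (u + 1))
        rw [hq1 u le_rfl, hq3 (u + 1) (by omega) (by omega)]
        have e : u + 1 = s y := by omega
        rw [e, hZy]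
        exact hya.symm
      · by_cases hub : u + 1 = b
        · show H.Adj (if u ≤ a then L u else if b ≤ u then L' u else Z' u)
            (if u + 1 ≤ a then L (u + 1) else if b ≤ u + 1 then L' (u + 1) else Z' (u + 1))
          rw [hq3 u (by omega) (by omega), hq2 (u + 1) (by omega), hub]
          have e : u = s z := by omega
          rw [e, hZz]
          exact hzb
        · show H.Adj (if u ≤ a then L u else if b ≤ u then L' u else Z' u)
            (if u + 1 ≤ a then L (u + 1) else if b ≤ u + 1 then L' (u + 1) else Z' (u + 1))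
          rw [hq3 u (by omega) (by omega), hq3 (u + 1) (by omega) (by omega)]
          exact hZadj u (by omega) (by omega)
    · intro u h1 h2 d ha hb
      by_cases hua : u = a
      · subst hua
        have hb' : d.snd = Z' (u + 1) := by
          rw [hb]; exact hq3 (u + 1) (by omega) (by omega)
        exact hDd (Z' (u + 1)) (hZm (u + 1) (by omega) (by omega)).1 d (Or.inr hb')
      · have ha' : d.fst = Z' u := by
          rw [ha]; exact hq3 u (by omega) (by omega)
        exact hDd (Z' u) (hZm u (by omega) (by omega)).1 d (Or.inl ha')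

end Pool.Agent.MP_f5837d_co
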