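import Pool.Agent.Lib.MP_f5837d_co.D1
import Pool.Agent.Lib.MP_f5837d_co.PK

set_option autoImplicit false

namespace Pool.Agent.MP_f5837d_co

open SimpleGraph

variable {V W : Type*} {G : SimpleGraph V} {H : SimpleGraph W} {π : W → V}

namespace D3

/-! ### The curve of a cycle given by two paths -/

/-- The closed walk `A B⁻¹`, run through periodically; at time `i₀` it is at `x`. -/
noncomputable def cyc {x y : W} (A B : H.Walk x y) (i₀ t : ℤ) : W :=
  (A.append B.reverse).getVert ((t - i₀) % ((A.length + B.length : ℕ) : ℤ)).toNat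

theorem len_append {x y : W} (A B : H.Walk x y) :
    (A.append B.reverse).length = A.length + B.length := by
  simp

theorem cyc_of {x y : W} (A B : H.Walk x y) (i₀ t : ℤ) (hn : 0 < A.length + B.length) :
    ∃ k : ℕ, k < A.length + B.length ∧
      (t - i₀) % ((A.length + B.length : ℕ) : ℤ) = k ∧
      cyc A B i₀ t = (A.append B.reverse).getVert k := by
  have h0 : (0 : ℤ) < ((A.length + B.length : ℕ) : ℤ) := by exact_mod_cast hn
  have h1 := Int.emod_nonneg (t - i₀) h0.ne'
  have h2 := Int.emod_lt_of_pos (t - i₀) h0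
  refine ⟨((t - i₀) % ((A.length + B.length : ℕ) : ℤ)).toNat, ?_, ?_, rfl⟩
  · omega
  · rw [Int.toNat_of_nonneg h1]

theorem cyc_nat {x y : W} (A B : H.Walk x y) (i₀ : ℤ) (k : ℕ) (hk : k < A.length + B.length) :
    cyc A B i₀ (i₀ + k) = (A.append B.reverse).getVert k := by
  unfold cyc
  have : (i₀ + (k : ℤ) - i₀) % ((A.length + B.length : ℕ) : ℤ) = k := by
    rw [add_sub_cancel_left]
    exact Int.emod_eq_of_lt (by positivity) (by exact_mod_cast hk)
  rw [this]
  rfl

theorem emod_succ (a n : ℤ) (k : ℕ) (hn : 0 < n) (h : a % n = k) :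
    (a + 1) % n = if (k : ℤ) + 1 = n then 0 else (k : ℤ) + 1 := by
  have hk : (k : ℤ) < n := by rw [← h]; exact Int.emod_lt_of_pos a hn
  have h1 : (a + 1) % n = ((k : ℤ) + 1) % n := by
    rw [← h, Int.emod_add_emod]
  rw [h1]
  split_ifs with h2
  · rw [h2, Int.emod_self]
  · exact Int.emod_eq_of_lt (by positivity) (by omega)

theorem cyc_succ {x y : W} (A B : H.Walk x y) (i₀ t : ℤ) (hn : 0 < A.length + B.length) (k : ℕ)
    (hk : (t - i₀) % ((A.length + B.length : ℕ) : ℤ) = k) :
    cyc A B i₀ (t + 1) = (A.append B.reverse).getVert (k + 1) := by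
  have h0 : (0 : ℤ) < ((A.length + B.length : ℕ) : ℤ) := by exact_mod_cast hn
  have h1 := emod_succ (t - i₀) _ k h0 hk
  unfold cyc
  rw [show t + 1 - i₀ = t - i₀ + 1 by ring, h1]
  split_ifs with h2
  · have h3 : k + 1 = (A.append B.reverse).length := by
      rw [len_append]; exact_mod_cast h2
    rw [h3, Walk.getVert_length]
    simp
  · congr 1

/-- Injectivity of the closed walk on `[0, n)`. -/
theorem inj_append {x y : W} {A B : H.Walk x y} (hA : A.IsPath) (hB : B.IsPath)
    (disj : ∀ w, w ∈ A.support → w ∈ B.support → w = x ∨ w = y) {k l : ℕ} (hkl : k < l)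
    (hl : l < A.length + B.length) :
    (A.append B.reverse).getVert k ≠ (A.append B.reverse).getVert l := by
  intro h
  rw [Walk.getVert_append, Walk.getVert_append] at h
  have iA := hA.getVert_injOn
  have iB := hB.getVert_injOn
  split_ifs at h with h1 h2 h2
  · have := iA (x₁ := k) (x₂ := l) (by simp; omega) (by simp; omega) h
    omega
  · rw [Walk.getVert_reverse] at h
    have m1 : A.getVert k ∈ A.support := A.getVert_mem_support k
    have m2 : A.getVert k ∈ B.support := by rw [h]; exact B.getVert_mem_support _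
    rcases disj _ m1 m2 with h3 | h3
    · have h4 : B.getVert (B.length - (l - A.length)) = B.getVert 0 := by
        rw [← h, h3, Walk.getVert_zero]
      have := iB (x₁ := B.length - (l - A.length)) (x₂ := 0) (by simp) (by simp) h4
      omega
    · have h4 : A.getVert k = A.getVert A.length := by rw [h3, Walk.getVert_length]
      have := iA (x₁ := k) (x₂ := A.length) (by simp; omega) (by simp) h4
      omega
  · omega
  · rw [Walk.getVert_reverse, Walk.getVert_reverse] at h
    have := iB (x₁ := B.length - (k - A.length)) (x₂ := B.length - (l - A.length))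
      (by simp) (by simp) h
    omega

theorem inj_append' {x y : W} {A B : H.Walk x y} (hA : A.IsPath) (hB : B.IsPath)
    (disj : ∀ w, w ∈ A.support → w ∈ B.support → w = x ∨ w = y) {k l : ℕ}
    (hk : k < A.length + B.length) (hl : l < A.length + B.length)
    (h : (A.append B.reverse).getVert k = (A.append B.reverse).getVert l) : k = l := by
  rcases lt_trichotomy k l with h1 | h1 | h1
  · exact absurd h (inj_append hA hB disj h1 hl)
  · exact h1
  · exact absurd h.symm (inj_append hA hB disj h1 hk)

theorem cyc_eq_iff {x y : W} {A B : H.Walk x y} (hA : A.IsPath) (hB : B.IsPath)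
    (disj : ∀ w, w ∈ A.support → w ∈ B.support → w = x ∨ w = y)
    (hn : 0 < A.length + B.length) (i₀ s t : ℤ) :
    cyc A B i₀ s = cyc A B i₀ t ↔
      (s - i₀) % ((A.length + B.length : ℕ) : ℤ) = (t - i₀) % ((A.length + B.length : ℕ) : ℤ) := by
  constructor
  · intro h
    obtain ⟨k, hk, ek, ek'⟩ := cyc_of A B i₀ s hn
    obtain ⟨l, hl, el, el'⟩ := cyc_of A B i₀ t hn
    rw [ek', el'] at h
    rw [ek, el, inj_append' hA hB disj hk hl h]
  · intro h
    unfold cyc
    rw [h]

theorem isCurve_cyc {x y : W} {A B : H.Walk x y} (hA : A.IsPath) (hB : B.IsPath)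
    (disj : ∀ w, w ∈ A.support → w ∈ B.support → w = x ∨ w = y)
    (len : 3 ≤ A.length + B.length) (i₀ : ℤ) : IsCurve H (cyc A B i₀) where
  adj t := by
    obtain ⟨k, hk, ek, ek'⟩ := cyc_of A B i₀ t (by omega)
    rw [cyc_succ A B i₀ t (by omega) k ek, ek']
    exact Walk.adj_getVert_succ _ (by rw [len_append]; exact hk)
  det s t h := by
    rw [cyc_eq_iff hA hB disj (by omega)] at h
    have h' := Int.emod_emod_of_dvd (s - i₀) (dvd_refl ((A.length + B.length : ℕ) : ℤ))
    constructor
    · rw [cyc_eq_iff hA hB disj (by omega)]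
      rw [show s + 1 - i₀ = s - i₀ + 1 by ring, show t + 1 - i₀ = t - i₀ + 1 by ring]
      exact Int.ModEq.add_right 1 h
    · rw [cyc_eq_iff hA hB disj (by omega)]
      rw [show s - 1 - i₀ = s - i₀ - 1 by ring, show t - 1 - i₀ = t - i₀ - 1 by ring]
      exact Int.ModEq.sub_right 1 h
  noback t h := by
    rw [cyc_eq_iff hA hB disj (by omega)] at h
    have h1 : ((A.length + B.length : ℕ) : ℤ) ∣ (t + 2 - i₀) - (t - i₀) :=
      Int.ModEq.dvd (Int.ModEq.symm h)
    rw [show (t + 2 - i₀) - (t - i₀) = 2 by ring] at h1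
    have := Int.le_of_dvd (by norm_num) h1
    omega

theorem mem_edges_iff {a b : W} (p : H.Walk a b) (e : Sym2 W) :
    e ∈ p.edges ↔ ∃ k < p.length, e = s(p.getVert k, p.getVert (k + 1)) := by
  rw [Walk.edges, List.mem_map]
  constructor
  · rintro ⟨d, hd, rfl⟩
    obtain ⟨k, hk, rfl⟩ := List.mem_iff_getElem.1 hd
    refine ⟨k, by simpa using hk, ?_⟩
    rw [Walk.darts_getElem_eq_getVert]
    rfl
  · rintro ⟨k, hk, rfl⟩
    have hk' : k < p.darts.length := by simpa using hk
    refine ⟨p.darts[k], List.getElem_mem _, ?_⟩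
    rw [Walk.darts_getElem_eq_getVert]
    rfl

theorem edges_cyc {x y : W} (A B : H.Walk x y) (hn : 0 < A.length + B.length) (i₀ : ℤ) :
    {e | ∃ t : ℤ, e = s(cyc A B i₀ t, cyc A B i₀ (t + 1))} =
      {e | e ∈ A.edges} ∪ {e | e ∈ B.edges} := by
  have h1 : {e | e ∈ A.edges} ∪ {e | e ∈ B.edges} = {e | e ∈ (A.append B.reverse).edges} := by
    ext e
    simp [Walk.edges_append]
  rw [h1]
  ext e
  simp only [Set.mem_ofPred_eq]
  rw [mem_edges_iff]
  constructor
  · rintro ⟨t, rfl⟩
    obtain ⟨k, hk, ek, ek'⟩ := cyc_of A B i₀ t hn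
    exact ⟨k, by rw [len_append]; exact hk, by rw [cyc_succ A B i₀ t hn k ek, ek']⟩
  · rintro ⟨k, hk, rfl⟩
    rw [len_append] at hk
    refine ⟨i₀ + k, ?_⟩
    have ek : (i₀ + (k : ℤ) - i₀) % ((A.length + B.length : ℕ) : ℤ) = k := by
      rw [add_sub_cancel_left]
      exact Int.emod_eq_of_lt (by positivity) (by exact_mod_cast hk)
    rw [cyc_nat A B i₀ k hk, cyc_succ A B i₀ _ hn k ek]

theorem mem_cyc {x y : W} {A B : H.Walk x y} (hn : 0 < A.length + B.length)
    (i₀ : ℤ) {w : W} (hw : w ∈ A.support ∨ w ∈ B.support) : ∃ t, w = cyc A B i₀ t := by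
  have h1 : w ∈ (A.append B.reverse).support := by
    rw [Walk.mem_support_append_iff]
    simpa using hw
  rw [Walk.mem_support_iff_exists_getVert] at h1
  obtain ⟨k, rfl, hk⟩ := h1
  rw [len_append] at hk
  rcases hk.lt_or_eq with hk | hk
  · exact ⟨i₀ + k, (cyc_nat A B i₀ k hk).symm⟩
  · refine ⟨i₀ + (0 : ℕ), ?_⟩
    rw [cyc_nat A B i₀ 0 hn]
    have h3 : k = (A.append B.reverse).length := by rw [len_append]; exact hk
    rw [h3, Walk.getVert_length]
    simp

theorem cyc_left {x y : W} {A B : H.Walk x y} (ne : x ≠ y)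
    (i₀ : ℤ) (k : ℕ) (hk : k ≤ A.length) : cyc A B i₀ (i₀ + k) = A.getVert k := by
  have hB0 : 0 < B.length := by
    rcases Nat.eq_zero_or_pos B.length with h | h
    · exact absurd (Walk.eq_of_length_eq_zero h) ne
    · exact h
  rw [cyc_nat A B i₀ k (by omega), Walk.getVert_append]
  split_ifs with h
  · rfl
  · have : k = A.length := by omega
    subst this
    simp


/-! ### Walks given by functions -/

theorem exists_walk (q : ℤ → W) (n : ℕ) : ∀ (a : ℤ) {x y : W}, q a = x → q (a + n) = y →
    (∀ t, a ≤ t → t < a + n → H.Adj (q t) (q (t + 1))) →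
    ∃ p : H.Walk x y, p.length = n ∧ ∀ k : ℕ, k ≤ n → p.getVert k = q (a + k) := by
  induction n with
  | zero =>
    intro a x y hx hy _
    have hxy : x = y := by rw [← hx, ← hy]; simp
    subst hxy
    refine ⟨Walk.nil, rfl, ?_⟩
    intro k hk
    have : k = 0 := by omega
    subst this
    simp [hx]
  | succ n ih =>
    intro a x y hx hy h
    obtain ⟨p, hp, hp'⟩ := ih (a + 1) (x := q (a + 1)) (y := y) rfl
      (by rw [← hy]; congr 1; push_cast; ring) (fun t h1 h2 => h t (by omega) (by push_cast; omega))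
    have hadj : H.Adj x (q (a + 1)) := by
      rw [← hx]
      exact h a le_rfl (by push_cast; omega)
    refine ⟨Walk.cons hadj p, by simp [hp], ?_⟩
    intro k hk
    rcases k with _ | k
    · simp [hx]
    · rw [Walk.getVert_cons_succ, hp' k (by omega)]
      congr 1
      push_cast
      ring

theorem isPath_of_inj {x y : W} {p : H.Walk x y}
    (h : ∀ k l : ℕ, k < l → l ≤ p.length → p.getVert k ≠ p.getVert l) : p.IsPath := by
  rw [← Walk.IsPath.getVert_injOn_iff]
  intro k hk l hl hkl
  simp only [Set.mem_ofPred_eq] at hk hl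
  rcases lt_trichotomy k l with h1 | h1 | h1
  · exact absurd hkl (h k l h1 hl)
  · exact h1
  · exact absurd hkl.symm (h l k h1 hk)

/-! ### Components -/

/-- The vertices that can be reached from `r` inside `D`. -/
def comp (H : SimpleGraph W) (D : Set W) (r : W) : Set W :=
  {w | ∃ p : H.Walk r w, ∀ v ∈ p.support, v ∈ D}

theorem comp_sub (D : Set W) (r : W) : comp H D r ⊆ D := by
  rintro w ⟨p, hp⟩
  exact hp w p.end_mem_support

theorem mem_comp_self {D : Set W} {r : W} (hr : r ∈ D) : r ∈ comp H D r :=
  ⟨Walk.nil, by simpa using hr⟩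

theorem support_comp {D : Set W} {r w : W} (p : H.Walk r w) (hp : ∀ v ∈ p.support, v ∈ D) :
    ∀ v ∈ p.support, v ∈ comp H D r := by
  classical
  intro v hv
  exact ⟨p.takeUntil v hv, fun u hu => hp u (p.support_takeUntil_subset_support hv hu)⟩

theorem comp_conn (D : Set W) (r : W) : ∀ a ∈ comp H D r, ∀ b ∈ comp H D r,
    ∃ p : H.Walk a b, ∀ w ∈ p.support, w ∈ comp H D r := by
  rintro a ⟨p, hp⟩ b ⟨p', hp'⟩
  refine ⟨p.reverse.append p', ?_⟩
  intro w hw
  rw [Walk.mem_support_append_iff] at hw
  rcases hw with hw | hw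
  · exact support_comp p hp w (by simpa using hw)
  · exact support_comp p' hp' w hw

theorem comp_closed {D : Set W} {r w v : W} (hw : w ∈ comp H D r) (h : H.Adj w v) (hv : v ∈ D) :
    v ∈ comp H D r := by
  obtain ⟨p, hp⟩ := hw
  refine ⟨p.concat h, ?_⟩
  intro u hu
  rw [Walk.support_concat, List.mem_append] at hu
  rcases hu with hu | hu
  · exact hp u hu
  · rw [List.mem_singleton.1 hu]
    exact hv

/-! ### Detours have a positive excess if there are no increasing paths -/

theorem excess {R : Set W} {P : ℤ → W} {a : ℤ} {N : ℕ} {s : W → ℤ}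
    (hs : Potential H R P (Set.Icc a (a + N)) s) (hd : NoDet H R P (Set.Icc a (a + N)) s)
    {x y : W} (M : H.Walk x y) (hM : M.length = N) (hP : ∀ k : ℕ, k ≤ N → P (a + k) = M.getVert k)
    (i j n : ℕ) (hij : i < j) (hj : j ≤ M.length) (h : Det H R (M.getVert i) (M.getVert j) n) :
    j - i < n := by
  by_contra hcon
  obtain ⟨p, hp, hn, hR⟩ := h
  have hadj : ∀ k < n, H.Adj (p.getVert k) (p.getVert (k + 1)) := fun k hk =>
    p.adj_getVert_succ (by omega)
  have e0 : p.getVert 0 = P (a + i) := by rw [Walk.getVert_zero, hP i (by omega)]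
  have e1 : p.getVert n = P (a + j) := by rw [← hp, Walk.getVert_length, hP j (by omega)]
  have n0 : |s (p.getVert 1) - (a + i)| ≤ 1 := by
    apply hs.near _ (hR 1 (by omega) (by omega)) _ ⟨by omega, by omega⟩
    rw [← e0]
    exact (hadj 0 (by omega)).symm
  have n1 : |s (p.getVert (n - 1)) - (a + j)| ≤ 1 := by
    apply hs.near _ (hR (n - 1) (by omega) (by omega)) _ ⟨by omega, by omega⟩
    rw [← e1]
    have := hadj (n - 1) (by omega)
    rwa [show n - 1 + 1 = n by omega] at this
  have lip : ∀ k, 0 < k → k + 1 < n → |s (p.getVert k) - s (p.getVert (k + 1))| ≤ 1 :=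
    fun k h1 h2 => hs.lip _ (hR k h1 (by omega)) _ (hR (k + 1) (by omega) h2) (hadj k (by omega))
  have up : ∀ k, k + 1 < n → s (p.getVert (k + 1)) ≤ s (p.getVert 1) + k := by
    intro k
    induction k with
    | zero => intro _; simp
    | succ k ih =>
      intro hk
      have h1 := ih (by omega)
      have h2 := lip (k + 1) (by omega) hk
      rw [abs_le] at h2
      push_cast
      linarith [h2.1]
  have dn : ∀ k, k + 1 < n → s (p.getVert (n - 1)) ≤ s (p.getVert (n - 1 - k)) + k := by
    intro k
    induction k with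
    | zero => intro _; simp
    | succ k ih =>
      intro hk
      have h1 := ih (by omega)
      have h2 := lip (n - 1 - (k + 1)) (by omega) (by omega)
      rw [show n - 1 - (k + 1) + 1 = n - 1 - k by omega] at h2
      rw [abs_le] at h2
      push_cast
      linarith [h2.1]
  rw [abs_le] at n0 n1
  have key : ∀ k, k + 1 < n → s (p.getVert (k + 1)) = a + i + k + 1 := by
    intro k hk
    have h1 := up k hk
    have h2 := dn (n - 2 - k) (by omega)
    rw [show n - 1 - (n - 2 - k) = k + 1 by omega] at h2
    have h3 : ((n - 2 - k : ℕ) : ℤ) = n - 2 - k := by omega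
    rw [h3] at h2
    have h4 : (n : ℤ) ≤ j - i := by omega
    linarith [n0.1, n0.2, n1.1, n1.2]
  have hnj : (n : ℤ) = j - i := by
    have h1 := key (n - 2) (by omega)
    rw [show n - 2 + 1 = n - 1 by omega] at h1
    have h4 : (n : ℤ) ≤ j - i := by omega
    have h3 : ((n - 2 : ℕ) : ℤ) = n - 2 := by omega
    rw [h3] at h1
    linarith [n1.1, n1.2]
  have path : ∀ k, k + 1 < n →
      Relation.ReflTransGen (Arc H R s) (p.getVert 1) (p.getVert (k + 1)) := by
    intro k
    induction k with
    | zero => intro _; exact Relation.ReflTransGen.refl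
    | succ k ih =>
      intro hk
      refine (ih (by omega)).tail ⟨hR _ (by omega) (by omega), hR _ (by omega) hk,
        hadj _ (by omega), ?_⟩
      rw [key (k + 1) hk, key k (by omega)]
      push_cast
      ring
  refine hd (p.getVert 1) (hR 1 (by omega) (by omega)) ?_ ?_
  · refine ⟨_, Relation.ReflTransGen.refl, hR 1 (by omega) (by omega), a + i,
      ⟨by omega, by omega⟩, ?_, ?_⟩
    · rw [← e0]
      exact (hadj 0 (by omega)).symm
    · have := key 0 (by omega)
      simp at this
      linarith
  · refine ⟨p.getVert (n - 1), ?_, hR _ (by omega) (by omega), a + j, ⟨by omega, by omega⟩, ?_, ?_⟩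
    · have := path (n - 2) (by omega)
      rwa [show n - 2 + 1 = n - 1 by omega] at this
    · rw [← e1]
      have := hadj (n - 1) (by omega)
      rwa [show n - 1 + 1 = n by omega] at this
    · have h1 := key (n - 2) (by omega)
      rw [show n - 2 + 1 = n - 1 by omega] at h1
      have h3 : ((n - 2 : ℕ) : ℤ) = n - 2 := by omega
      rw [h3] at h1
      linarith

/-! ### The curve and its left side -/

theorem exists_left [∀ w, Fintype (H.neighborSet w)] (hH : H.Connected) (Pl : Plane H)
    {R : Set W} {x y : W} {A B : H.Walk x y}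
    (hc : Cyc Pl.toRotationSystem R A B) (i₀ : ℤ) :
    ∃ (Pl' : Plane H) (S : Set H.Dart), IsLeft Pl'.toRotationSystem (cyc A B i₀) S ∧
      R ⊆ Ins S := by
  have hn : 0 < A.length + B.length := by have := hc.len; omega
  have hcur := isCurve_cyc hc.hA hc.hB hc.disj hc.len i₀
  obtain ⟨S₀, hS₀, hR⟩ := hc.reg
  obtain ⟨S, hS⟩ := exists_isLeft hH Pl hcur
  have h1 := hS.isRegion _ hcur
  rw [edges_cyc A B hn i₀] at h1
  rcases region_eq_or_compl hH _ hS₀ h1 with h2 | h2
  · exact ⟨Pl, S, hS, h2 ▸ hR⟩
  · refine ⟨Pl.mirror, _, isLeft_mirror _ hS, ?_⟩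
    intro r hr d hd
    have h3 : d.edge ∉ {e | e ∈ A.edges} ∪ {e | e ∈ B.edges} := by
      rintro (h | h)
      · apply hc.offA r hr
        rw [← hd]
        exact A.fst_mem_support_of_mem_edges h
      · apply hc.offB r hr
        rw [← hd]
        exact B.fst_mem_support_of_mem_edges h
    have h4 : d ∈ S₀ := hR hr d hd
    have h5 : d.symm ∈ S₀ := ((hS₀.2 d).2 h3).1 h4
    rw [h2] at h5
    exact h5

/-- Two of the three cops of a trio form the pair. -/
theorem occ_pair {P : ℤ → W} {s c : W → ℤ} {r : W} {e : Fin 2 → W → V} {cc : Fin 7 → V}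
    (hc : c r = s r - 1 ∨ c r = s r) (h : Occ (fun i => appF (trio π P s) e i r) cc) :
    Occ (fun i => appF (pair π P c) e i r) cc := by
  rcases hc with hc | hc
  · refine h.sub ⟨![0, 1, 3, 4], by decide⟩ ?_
    intro i
    fin_cases i
    · simp [appF, trio, pair, hc, Fin.append, Fin.addCases]
    · simp [appF, trio, pair, hc, Fin.append, Fin.addCases]
    · simp [appF, Fin.append, Fin.addCases]
    · simp [appF, Fin.append, Fin.addCases]
  · refine h.sub ⟨![1, 2, 3, 4], by decide⟩ ?_
    intro i
    fin_cases i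
    · simp [appF, trio, pair, hc, Fin.append, Fin.addCases]
    · simp [appF, trio, pair, hc, Fin.append, Fin.addCases]
    · simp [appF, Fin.append, Fin.addCases]
    · simp [appF, Fin.append, Fin.addCases]

theorem step_of_lip {P : ℤ → W} (hπ : IsCover G H π) (hwalk : ∀ t, Step H (P t) (P (t + 1)))
    {a b : ℤ} (hab : |a - b| ≤ 1) : Step G (π (P a)) (π (P b)) := by
  rw [abs_le] at hab
  have h : a = b ∨ b = a + 1 ∨ a = b + 1 := by omega
  rcases h with rfl | rfl | rfl
  · exact Step.refl _ _
  · exact (hwalk a).map hπ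
  · exact ((hwalk b).map hπ).symm

theorem pair_lip {R : Set W} {P : ℤ → W} {c : W → ℤ} (hπ : IsCover G H π)
    (hwalk : ∀ t, Step H (P t) (P (t + 1))) (hc : Lip H R c) :
    ∀ a, ∀ r ∈ R, ∀ r' ∈ R, H.Adj r r' → Step G (pair π P c a r) (pair π P c a r') := by
  intro a r hr r' hr' h
  have h1 := hc r hr r' hr' h
  fin_cases a
  · exact step_of_lip hπ hwalk h1
  · refine step_of_lip hπ hwalk ?_
    rw [show c r + 1 - (c r' + 1) = c r - c r' by ring]
    exact h1

theorem pair_cov {R : Set W} {P : ℤ → W} {J : Set ℤ} {s c : W → ℤ}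
    (hc : PairFun H R P J s c) {r : W} (hr : r ∈ R) {t : ℤ} (ht : t ∈ J) (h : H.Adj r (P t)) :
    ∃ a, pair π P c a r = π (P t) := by
  rcases hc.cov r hr t ht h with h1 | h1
  · exact ⟨0, by simp [pair, h1]⟩
  · exact ⟨1, by simp [pair, h1]⟩

theorem Det.mono {R R' : Set W} (h : R' ⊆ R) {a b : W} {n : ℕ} (hd : Det H R' a b n) :
    Det H R a b n := by
  obtain ⟨p, h1, h2, h3⟩ := hd
  exact ⟨p, h1, h2, fun k hk hk' => h (h3 k hk hk')⟩

theorem exists_nat {a t : ℤ} (h : a ≤ t) : ∃ k : ℕ, t = a + k := ⟨(t - a).toNat, by omega⟩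

end D3

variable [∀ w, Fintype (H.neighborSet w)]

/-! ## Task D3: the state Y -/

theorem y_step (hπ : IsCover G H π) (hG : G.Preconnected) (hH : H.Connected) (Pl : Plane H)
    {R : Set W} {x y : W} {A B : H.Walk x y} {P : ℤ → W} {i₀ : ℤ} {s : W → ℤ}
    {e : Fin 2 → W → V} (hs : YState G π Pl.toRotationSystem R A B P i₀ s e)
    {r : W} {c : Fin 7 → V} (h : Locked R (appF (trio π P s) e) r c) :
    Forces G H π (fun r c => GoodPos G H π Pl.toRotationSystem R.ncard r c ∨
      ∃ g : Fin 2 → W → V, XState G π Pl.toRotationSystem R A B g e ∧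
        Locked R (appF g e) r c) r c := by
  by_cases hd : NoDet H R P (Set.Icc i₀ (i₀ + A.length)) s
  · have hp := pairFun_cTo hs.pot hd
    refine Forces.now (Or.inr ⟨pair π P (cTo H R P (Set.Icc i₀ (i₀ + A.length)) s), ?_, h.1,
      D3.occ_pair (hp.val r) h.2⟩)
    exact {
      cyc := hs.cyc
      sA := D3.excess hs.pot hd A rfl hs.hP
      sB := hs.sB
      lipg := D3.pair_lip hπ hs.walk hp.lip
      lipe := hs.lipe
      covA := by
        intro r hr w hw hrw
        obtain ⟨k, rfl, hk⟩ := Walk.mem_support_iff_exists_getVert.1 hw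
        rw [← hs.hP k hk] at hrw ⊢
        exact D3.pair_cov hp hr ⟨by omega, by omega⟩ hrw
      covB := hs.covB }
  · have hC := hs.cyc
    have hPA : ∀ t, i₀ ≤ t → t ≤ i₀ + A.length → P t ∈ A.support := by
      intro t h1 h2
      obtain ⟨k, rfl⟩ := D3.exists_nat h1
      rw [hs.hP k (by omega)]
      exact A.getVert_mem_support k
    have hPR : ∀ t, i₀ ≤ t → t ≤ i₀ + A.length → P t ∉ R := fun t h1 h2 h3 =>
      hC.offA _ h3 (hPA t h1 h2)
    have hPadj : ∀ t, i₀ ≤ t → t < i₀ + A.length → H.Adj (P t) (P (t + 1)) := by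
      intro t h1 h2
      obtain ⟨k, rfl⟩ := D3.exists_nat h1
      rw [hs.hP k (by omega), show i₀ + (k : ℤ) + 1 = i₀ + ((k + 1 : ℕ) : ℤ) by push_cast; ring,
        hs.hP (k + 1) (by omega)]
      exact A.adj_getVert_succ (by omega)
    have hPinj : ∀ t t', i₀ ≤ t → t ≤ i₀ + A.length → i₀ ≤ t' → t' ≤ i₀ + A.length →
        P t = P t' → t = t' := by
      intro t t' h1 h2 h3 h4 h5
      obtain ⟨k, rfl⟩ := D3.exists_nat h1
      obtain ⟨l, rfl⟩ := D3.exists_nat h3
      rw [hs.hP k (by omega), hs.hP l (by omega)] at h5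
      have := hC.hA.getVert_injOn (x₁ := k) (x₂ := l) (by simp; omega) (by simp; omega) h5
      rw [this]
    have hAP : ∀ w ∈ A.support, ∃ t, i₀ ≤ t ∧ t ≤ i₀ + A.length ∧ w = P t := by
      intro w hw
      obtain ⟨k, rfl, hk⟩ := Walk.mem_support_iff_exists_getVert.1 hw
      exact ⟨i₀ + k, by omega, by omega, (hs.hP k hk).symm⟩
    obtain ⟨Pl', S, hS, hRS⟩ := D3.exists_left hH Pl hC i₀
    obtain ⟨q, i, j, S₁, S₂, hpk, -⟩ := min_pocket hH Pl'
      (D3.isCurve_cyc hC.hA hC.hB hC.disj hC.len i₀) hS (R := R) (Z := ∅) (P := P)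
      (J := Set.Icc i₀ (i₀ + A.length)) (s := s) Set.ordConnected_Icc
      (by
        rintro t ⟨h1, h2⟩
        obtain ⟨k, rfl⟩ := D3.exists_nat h1
        rw [hs.hP k (by omega), D3.cyc_left hC.ne i₀ k (by omega)])
      (by
        rintro t ⟨h1, h2⟩ t' ⟨h3, h4⟩ h5
        obtain ⟨k, rfl⟩ := D3.exists_nat h1
        obtain ⟨l, rfl⟩ := D3.exists_nat h3
        rw [D3.cyc_left hC.ne i₀ k (by omega), D3.cyc_left hC.ne i₀ l (by omega)] at h5
        exact hPinj _ _ h1 h2 h3 h4 (by rw [hs.hP k (by omega), hs.hP l (by omega), h5]))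
      hs.walk hs.pot hRS
      (by
        intro r hr w hw
        rcases hC.nbr r hr w hw with h1 | h1 | h1
        · exact Or.inl h1
        · exact Or.inr (Or.inr (D3.mem_cyc (by have := hC.len; omega) i₀ (Or.inl h1)))
        · exact Or.inr (Or.inr (D3.mem_cyc (by have := hC.len; omega) i₀ (Or.inr h1))))
      (by simp)
      (fun q i j S₁ _ _ _ => ⟨hC.fin.subset Set.inter_subset_left, by simp⟩) hd
    have hi : i₀ ≤ i := (hpk.det.hi).1
    have hj : j ≤ i₀ + A.length := (hpk.det.hj).2
    have hij := hpk.det.hij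
    generalize R ∩ Ins S₁ = D at hpk
    generalize R ∩ Ins S₂ = O at hpk
    have hq1 : q (i + 1) ∈ R := (hpk.det.mem (i + 1) (by omega) (by omega)).1
    refine (pocket_shift hπ hG hpk e hs.lipe ?_ h).mono ?_
    · intro r hr w hw hwR
      rcases hC.nbr r hr w hw with h1 | h1 | h1
      · exact absurd h1 hwR
      · obtain ⟨t, h2, h3, h4⟩ := hAP w h1
        exact Or.inl ⟨t, ⟨h2, h3⟩, h4⟩
      · rcases hs.covB r hr w h1 hw with h2 | h2 | h2
        · obtain ⟨t, h3, h4, h5⟩ := hAP w (by rw [h2]; exact A.start_mem_support)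
          exact Or.inl ⟨t, ⟨h3, h4⟩, h5⟩
        · obtain ⟨t, h3, h4, h5⟩ := hAP w (by rw [h2]; exact A.end_mem_support)
          exact Or.inl ⟨t, ⟨h3, h4⟩, h5⟩
        · exact Or.inr h2
    · rintro r' c' (hD | ⟨hO, -⟩)
      · left
        right; right; right; left
        have hsub : D3.comp H D r' ⊆ D := D3.comp_sub D r'
        have hDR : D ⊆ R := hpk.subD
        obtain ⟨N, rfl⟩ := D3.exists_nat (show i ≤ j by omega)
        obtain ⟨A', hA'l, hA'⟩ := D3.exists_walk P N i (x := P i) (y := P (i + N)) rfl rfl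
          (fun t h1 h2 => hPadj t (by omega) (by omega))
        obtain ⟨B', hB'l, hB'⟩ := D3.exists_walk q N i (x := P i) (y := P (i + N))
          (hpk.det.out _ (by omega)) (hpk.det.out _ (by omega))
          (fun t h1 h2 => hpk.det.adj t (by omega) (by omega))
        have potP : Potential H D P (Set.Icc i (i + N)) s :=
          ⟨fun r hr r' hr' h => hs.pot.lip r (hDR hr) r' (hDR hr') h,
            fun r hr t ht h => hs.pot.near r (hDR hr) t ⟨by have := ht.1; omega,
              by have := ht.2; omega⟩ h⟩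
        have potq : Potential H D q (Set.Icc i (i + N)) s := by
          refine ⟨fun r hr r' hr' h => hs.pot.lip r (hDR hr) r' (hDR hr') h, ?_⟩
          rintro r hr t ⟨ht1, ht2⟩ h
          by_cases h3 : i < t ∧ t < i + N
          · have h4 := hpk.det.mem t h3.1 h3.2
            have h5 := hs.pot.lip r (hDR hr) _ h4.1 h
            rwa [h4.2] at h5
          · rw [hpk.det.out t (by omega)] at h
            exact hs.pot.near r (hDR hr) t ⟨by omega, by omega⟩ h
        have ndP : NoDet H D P (Set.Icc i (i + N)) s := fun r hr h1 h2 =>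
          hpk.strict r hr (Or.inl h1) (Or.inl h2)
        have ndq : NoDet H D q (Set.Icc i (i + N)) s := fun r hr h1 h2 =>
          hpk.strict r hr (Or.inr h1) (Or.inr h2)
        have pfP := pairFun_cTo potP ndP
        have pfq := pairFun_cTo potq ndq
        have hqwalk : ∀ t, Step H (q t) (q (t + 1)) := by
          intro t
          by_cases h3 : i ≤ t ∧ t < i + N
          · exact Or.inr (hpk.det.adj t h3.1 h3.2)
          · rw [hpk.det.out t (by omega), hpk.det.out (t + 1) (by omega)]
            exact hs.walk t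
        have hqR : ∀ t, i < t → t < i + N → q t ∈ R := fun t h1 h2 => (hpk.det.mem t h1 h2).1
        have hA's : ∀ w ∈ A'.support, ∃ t, i ≤ t ∧ t ≤ i + N ∧ w = P t := by
          intro w hw
          obtain ⟨k, rfl, hk⟩ := Walk.mem_support_iff_exists_getVert.1 hw
          exact ⟨i + k, by omega, by omega, hA' k (by omega)⟩
        have hB's : ∀ w ∈ B'.support, ∃ t, i ≤ t ∧ t ≤ i + N ∧ w = q t := by
          intro w hw
          obtain ⟨k, rfl, hk⟩ := Walk.mem_support_iff_exists_getVert.1 hw
          exact ⟨i + k, by omega, by omega, hB' k (by omega)⟩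
        have hA'm : ∀ t, i ≤ t → t ≤ i + N → P t ∈ A'.support := by
          intro t h1 h2
          obtain ⟨k, rfl⟩ := D3.exists_nat h1
          rw [← hA' k (by omega)]
          exact A'.getVert_mem_support k
        have hB'm : ∀ t, i ≤ t → t ≤ i + N → q t ∈ B'.support := by
          intro t h1 h2
          obtain ⟨k, rfl⟩ := D3.exists_nat h1
          rw [← hB' k (by omega)]
          exact B'.getVert_mem_support k
        have hA'p : A'.IsPath := by
          apply D3.isPath_of_inj
          intro k l hkl hl h1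
          rw [hA' k (by omega), hA' l (by omega)] at h1
          have := hPinj _ _ (by omega) (by omega) (by omega) (by omega) h1
          omega
        have hB'p : B'.IsPath := by
          apply D3.isPath_of_inj
          intro k l hkl hl h1
          rw [hB' k (by omega), hB' l (by omega)] at h1
          by_cases hk : k = 0
          · subst hk
            rw [hpk.det.out _ (show i + ((0 : ℕ) : ℤ) ≤ i ∨ _ by simp)] at h1
            by_cases hl' : l = N
            · subst hl'
              rw [hpk.det.out _ (Or.inr le_rfl)] at h1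
              have := hPinj _ _ (by omega) (by omega) (by omega) (by omega) h1
              omega
            · exact hPR _ (by omega) (by omega) (h1 ▸ hqR (i + l) (by omega) (by omega))
          · by_cases hl' : l = N
            · subst hl'
              rw [hpk.det.out _ (Or.inr (le_refl (i + (l : ℤ))))] at h1
              exact hPR _ (by omega) (by omega) (h1 ▸ hqR (i + k) (by omega) (by omega))
            · have h2 := (hpk.det.mem (i + k) (by omega) (by omega)).2
              have h3 := (hpk.det.mem (i + l) (by omega) (by omega)).2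
              rw [h1] at h2
              omega
        have hcyc : Cyc Pl.toRotationSystem (D3.comp H D r') A' B' := by
          refine cyc_of_paths hH Pl A' B' ?_ hA'p hB'p ?_ (by omega) ?_ ?_ ?_ ?_ ?_
          · intro h1
            have := hPinj _ _ (by omega) (by omega) (by omega) (by omega) h1
            omega
          · intro w hw1 hw2
            obtain ⟨t, h1, h2, rfl⟩ := hA's w hw1
            obtain ⟨t', h3, h4, h5⟩ := hB's _ hw2
            by_cases h6 : i < t' ∧ t' < i + N
            · exact absurd (h5 ▸ hqR t' h6.1 h6.2) (hPR t (by omega) (by omega))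
            · rw [hpk.det.out t' (by omega)] at h5
              have := hPinj _ _ (by omega) (by omega) (by omega) (by omega) h5
              subst this
              rcases (show t = i ∨ t = i + N by omega) with h7 | h7
              · exact Or.inl (by rw [h7])
              · exact Or.inr (by rw [h7])
          · intro r₁ hr₁ w hw
            have hr₁D := hsub hr₁
            rcases hpk.nD r₁ hr₁D w hw with h1 | ⟨t, h1, h2, rfl⟩
            · rcases hpk.part w h1 with h2 | h2 | ⟨t, h2, h3, rfl⟩
              · exact Or.inl (D3.comp_closed hr₁ hw h2)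
              · exact absurd hw (hpk.sep r₁ hr₁D w h2)
              · exact Or.inr (Or.inr (hB'm t (by omega) (by omega)))
            · exact Or.inr (Or.inl (hA'm t h1 h2))
          · intro r₁ hr₁ hr₂
            obtain ⟨t, h1, h2, rfl⟩ := hA's r₁ hr₂
            exact hPR t (by omega) (by omega) (hDR (hsub hr₁))
          · intro r₁ hr₁ hr₂
            obtain ⟨t, h1, h2, rfl⟩ := hB's r₁ hr₂
            by_cases h6 : i < t ∧ t < i + N
            · exact (hpk.qD t h6.1 h6.2).1 (hsub hr₁)
            · rw [hpk.det.out t (by omega)] at hr₁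
              exact hPR t (by omega) (by omega) (hDR (hsub hr₁))
          · exact hpk.finD.subset hsub
          · exact D3.comp_conn D r'
        refine ⟨D3.comp H D r', P i, P (i + N), A', B', _, _, ?_, ?_, D3.mem_comp_self hD.1,
          hD.2⟩
        · apply Set.ncard_lt_ncard _ hC.fin
          refine ⟨hsub.trans hDR, fun h1 => ?_⟩
          exact (hpk.qD (i + 1) (by omega) (by omega)).1 (hsub (h1 hq1))
        · exact {
            cyc := hcyc
            sA := fun i' j' n h1 h2 h3 => D3.excess potP ndP A' hA'l (fun k hk => (hA' k hk).symm)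
              i' j' n h1 h2 (D3.Det.mono hsub h3)
            sB := fun i' j' n h1 h2 _ h3 => D3.excess potq ndq B' hB'l
              (fun k hk => (hB' k hk).symm) i' j' n h1 h2 (D3.Det.mono hsub h3)
            lipg := fun a r₁ h1 r₂ h2 h3 => D3.pair_lip hπ hs.walk pfP.lip a r₁ (hsub h1) r₂
              (hsub h2) h3
            lipe := fun a r₁ h1 r₂ h2 h3 => D3.pair_lip hπ hqwalk pfq.lip a r₁ (hsub h1) r₂
              (hsub h2) h3
            covA := by
              intro r₁ hr₁ w hw hrw
              obtain ⟨t, h1, h2, rfl⟩ := hA's w hw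
              exact D3.pair_cov pfP (hsub hr₁) ⟨h1, h2⟩ hrw
            covB := by
              intro r₁ hr₁ w hw hrw
              obtain ⟨t, h1, h2, rfl⟩ := hB's w hw
              exact Or.inr (Or.inr (D3.pair_cov pfq (hsub hr₁) ⟨h1, h2⟩ hrw)) }
      · left
        right; right; right; right
        have hsub : D3.comp H O r' ⊆ O := D3.comp_sub O r'
        have hOR : O ⊆ R := hpk.subO
        have hx : q i₀ = x := by
          rw [hpk.det.out _ (Or.inl hi)]
          simpa using hs.hP 0 (by omega)
        have hy : q (i₀ + A.length) = y := by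
          rw [hpk.det.out _ (Or.inr hj), hs.hP A.length le_rfl, Walk.getVert_length]
        have hqwalk : ∀ t, Step H (q t) (q (t + 1)) := by
          intro t
          by_cases h3 : i ≤ t ∧ t < j
          · exact Or.inr (hpk.det.adj t h3.1 h3.2)
          · rw [hpk.det.out t (by omega), hpk.det.out (t + 1) (by omega)]
            exact hs.walk t
        obtain ⟨A', hA'l, hA'⟩ := D3.exists_walk q A.length i₀ hx hy (fun t h1 h2 => by
          by_cases h3 : i ≤ t ∧ t < j
          · exact hpk.det.adj t h3.1 h3.2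
          · rw [hpk.det.out t (by omega), hpk.det.out (t + 1) (by omega)]
            exact hPadj t h1 h2)
        have hqR : ∀ t, i < t → t < j → q t ∈ R := fun t h1 h2 => (hpk.det.mem t h1 h2).1
        have hA's : ∀ w ∈ A'.support, ∃ t, i₀ ≤ t ∧ t ≤ i₀ + A.length ∧ w = q t := by
          intro w hw
          obtain ⟨k, rfl, hk⟩ := Walk.mem_support_iff_exists_getVert.1 hw
          exact ⟨i₀ + k, by omega, by omega, hA' k (by omega)⟩
        have hA'm : ∀ t, i₀ ≤ t → t ≤ i₀ + A.length → q t ∈ A'.support := by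
          intro t h1 h2
          obtain ⟨k, rfl⟩ := D3.exists_nat h1
          rw [← hA' k (by omega)]
          exact A'.getVert_mem_support k
        have hA'p : A'.IsPath := by
          apply D3.isPath_of_inj
          intro k l hkl hl h1
          rw [hA' k (by omega), hA' l (by omega)] at h1
          by_cases hk : i < i₀ + (k : ℤ) ∧ i₀ + (k : ℤ) < j
          · by_cases hl' : i < i₀ + (l : ℤ) ∧ i₀ + (l : ℤ) < j
            · have h2 := (hpk.det.mem _ hk.1 hk.2).2
              have h3 := (hpk.det.mem _ hl'.1 hl'.2).2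
              rw [h1] at h2
              omega
            · rw [hpk.det.out (i₀ + (l : ℤ)) (by omega)] at h1
              exact hPR _ (by omega) (by omega) (h1 ▸ hqR _ hk.1 hk.2)
          · rw [hpk.det.out (i₀ + (k : ℤ)) (by omega)] at h1
            by_cases hl' : i < i₀ + (l : ℤ) ∧ i₀ + (l : ℤ) < j
            · exact hPR _ (by omega) (by omega) (h1 ▸ hqR _ hl'.1 hl'.2)
            · rw [hpk.det.out (i₀ + (l : ℤ)) (by omega)] at h1
              have := hPinj _ _ (by omega) (by omega) (by omega) (by omega) h1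
              omega
        have hcyc : Cyc Pl.toRotationSystem (D3.comp H O r') A' B := by
          refine cyc_of_paths hH Pl A' B hC.ne hA'p hC.hB ?_ (by rw [hA'l]; exact hC.len)
            ?_ ?_ ?_ ?_ ?_
          · intro w hw1 hw2
            obtain ⟨t, h1, h2, rfl⟩ := hA's w hw1
            by_cases h6 : i < t ∧ t < j
            · exact absurd hw2 (hC.offB _ (hqR t h6.1 h6.2))
            · rw [hpk.det.out t (by omega)] at hw2 ⊢
              exact hC.disj _ (hPA t h1 h2) hw2
          · intro r₁ hr₁ w hw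
            have hr₁O := hsub hr₁
            rcases hC.nbr r₁ (hOR hr₁O) w hw with h1 | h1 | h1
            · rcases hpk.part w h1 with h2 | h2 | ⟨t, h2, h3, rfl⟩
              · exact absurd hw.symm (hpk.sep w h2 r₁ hr₁O)
              · exact Or.inl (D3.comp_closed hr₁ hw h2)
              · exact Or.inr (Or.inl (hA'm t (by omega) (by omega)))
            · obtain ⟨t, h2, h3, rfl⟩ := hAP w h1
              have h4 := hpk.nO r₁ hr₁O t ⟨h2, h3⟩ hw
              rw [← hpk.det.out t h4]
              exact Or.inr (Or.inl (hA'm t h2 h3))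
            · exact Or.inr (Or.inr h1)
          · intro r₁ hr₁ hr₂
            obtain ⟨t, h1, h2, rfl⟩ := hA's r₁ hr₂
            by_cases h6 : i < t ∧ t < j
            · exact (hpk.qD t h6.1 h6.2).2 (hsub hr₁)
            · rw [hpk.det.out t (by omega)] at hr₁
              exact hPR t h1 h2 (hOR (hsub hr₁))
          · intro r₁ hr₁ hr₂
            exact hC.offB _ (hOR (hsub hr₁)) hr₂
          · exact hC.fin.subset (hsub.trans hOR)
          · exact D3.comp_conn O r'
        refine ⟨D3.comp H O r', x, y, A', B, q, i₀, s, e, ?_, ?_, D3.mem_comp_self hO.1,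
          hO.2⟩
        · apply Set.ncard_lt_ncard _ hC.fin
          refine ⟨hsub.trans hOR, fun h1 => ?_⟩
          exact (hpk.qD (i + 1) (by omega) (by omega)).2 (hsub (h1 hq1))
        · exact {
            cyc := hcyc
            walk := hqwalk
            hP := fun k hk => (hA' k (by omega)).symm
            pot := by
              refine ⟨fun r hr r' hr' h => hs.pot.lip r (hOR (hsub hr)) r' (hOR (hsub hr')) h, ?_⟩
              rintro r₁ hr₁ t ⟨ht1, ht2⟩ h
              rw [hA'l] at ht2
              by_cases h3 : i < t ∧ t < j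
              · have h4 := hpk.det.mem t h3.1 h3.2
                have h5 := hs.pot.lip r₁ (hOR (hsub hr₁)) _ h4.1 h
                rwa [h4.2] at h5
              · rw [hpk.det.out t (by omega)] at h
                exact hs.pot.near r₁ (hOR (hsub hr₁)) t ⟨by omega, by omega⟩ h
            sB := fun i' j' n h1 h2 h3 h4 => hs.sB i' j' n h1 h2 h3
              (D3.Det.mono (hsub.trans hOR) h4)
            lipe := fun a r₁ h1 r₂ h2 h3 => hs.lipe a r₁ (hOR (hsub h1)) r₂ (hOR (hsub h2)) h3
            covB := fun r₁ hr₁ w hw hrw => hs.covB r₁ (hOR (hsub hr₁)) w hw hrw }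

end Pool.Agent.MP_f5837d_co
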