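import Pool.Agent.Lib.MP_f5837d_co.D2
import Pool.Agent.Lib.MP_f5837d_co.D3

set_option autoImplicit false

namespace Pool.Agent.MP_f5837d_co

open SimpleGraph

variable {V W : Type*} {G : SimpleGraph V} {H : SimpleGraph W} {π : W → V}

variable [∀ w, Fintype (H.neighborSet w)]

/-! ## Assembly of the endgame -/

theorem goodPos_win (hπ : IsCover G H π) (hG : G.Preconnected) (hH : H.Connected) (Pl : Plane H)
    (n : ℕ) : ∀ r c, GoodPos G H π Pl.toRotationSystem n r c → Win G H π r c := by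
  induction n using Nat.strong_induction_on with
  | _ n ih =>
    intro r c h
    rcases h with h | ⟨R, x, hn, hs, hl⟩ | ⟨R, x, y, B, hn, hs, hl⟩ |
      ⟨R, x, y, A, B, g, e, hn, hs, hl⟩ | ⟨R, x, y, A, B, P, i₀, s, e, hn, hs, hl⟩
    · exact Forces.now h
    · exact Forces.win_of (ih _ hn) (s_step hπ hG hH Pl hs hl)
    · exact Forces.win_of (ih _ hn) (e_step hπ hG hH Pl hs hl)
    · exact Forces.win_of (ih _ hn) (x_step hπ hG hH Pl hs hl)
    · refine Forces.win_of ?_ (y_step hπ hG hH Pl hs hl)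
      rintro r c (h | ⟨g, hs', hl'⟩)
      · exact ih _ hn r c h
      · exact Forces.win_of (ih _ hn) (x_step hπ hG hH Pl hs' hl')

theorem x_win (hπ : IsCover G H π) (hG : G.Preconnected) (hH : H.Connected) (Pl : Plane H)
    {R : Set W} {x y : W} {A B : H.Walk x y} {g e : Fin 2 → W → V}
    (hs : XState G π Pl.toRotationSystem R A B g e) {r : W} {c : Fin 7 → V}
    (h : Locked R (appF g e) r c) : Win G H π r c :=
  goodPos_win hπ hG hH Pl (R.ncard + 1) r c
    (Or.inr (Or.inr (Or.inr (Or.inl ⟨R, x, y, A, B, g, e, Nat.lt_succ_self _, hs, h⟩))))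


end Pool.Agent.MP_f5837d_co
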