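import Pool.Agent.Lib.MP_f5837d_co.LB

/-!
# Task E1: the two ends of the plane, coherence of periodic lines (blueprint 6.3)

`hgt` is the height (constant under the translation `A`). For an `N`-periodic line `P` the vertices far
above are all on the same side of `P` (`up`), and so are the vertices far below (`down`).
PAIRING LEMMA: let `F : H.Dart → ℤ` be face invariant (`F (rot d.symm) = F d`), `A ^ N`-invariant and
of finite support modulo `A ^ N`. Then `∑ (F d - F d.symm) * (u d.snd - u d.fst) = 0`, the sum over the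
darts modulo `A ^ N`: it is `2 ∑ F d * (u d.snd - u d.fst)`, and `u d.snd - u d.fst = u (face d).fst -
u d.fst` sums to zero along the (finite) cycles of the face permutation.
Apply it to `1_{lft P}` (if both ends were on the right side of `P`), to its complement, and to
`1_{lft P} + 1_{lft Q} - 1` (if the ends were differently placed for `P` and `Q`): the boundary flow of
`1_{lft P}` is `1` on the arcs of `P`, so the sum would be `2 N ℓ` or `4 N ℓ`.
-/

set_option autoImplicit false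
set_option linter.unusedSectionVars false
set_option linter.deprecated false

namespace Pool.Agent.MP_f5837d_co

open SimpleGraph

variable {V W : Type*} {G : SimpleGraph V} {H : SimpleGraph W} {π : W → V}
variable [∀ w, Fintype (H.neighborSet w)]

/-- The height function and the two ends. -/
structure Ends (Pl : Plane H) (A : H ≃g H) (ℓ : ℤ) (u hgt : W → ℤ) (K : ℤ) : Prop where
  inv : ∀ w, hgt (A w) = hgt w
  lip : ∀ w w', H.Adj w w' → |hgt w - hgt w'| ≤ K
  fin : ∀ M, {w | |hgt w| ≤ M ∧ 0 ≤ u w ∧ u w < ℓ}.Finite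
  up : ∀ w w', ∃ p : H.Walk w w', ∀ x ∈ p.support, min (hgt w) (hgt w') - K ≤ hgt x
  down : ∀ w w', ∃ p : H.Walk w w', ∀ x ∈ p.support, hgt x ≤ max (hgt w) (hgt w') + K
  unb : ∀ M, (∃ w, M < hgt w) ∧ ∃ w, hgt w < M
  face : ∃ m : ℕ, 0 < m ∧ Pl.toRotationSystem.face ^ m = 1

/-- `P` is calibrated and `A ^ N`-periodic. -/
def PerLine (A : H ≃g H) (ℓ : ℤ) (u : W → ℤ) (N : ℤ) (P : ℤ → W) : Prop :=
  Calib H u P ∧ ∀ t, P (t + N * ℓ) = (A ^ N) (P t)


namespace E1

/-! ### Fundamental domains -/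

section Domain

variable {X : Type*}

/-- The fundamental domain of `B`. -/
def dom (h : X → ℤ) (T : ℤ) : Set X := {x | 0 ≤ h x ∧ h x < T}

/-- The representative in the fundamental domain. -/
def nrm (B : Equiv.Perm X) (h : X → ℤ) (T : ℤ) (x : X) : X := (B ^ (-(h x / T))) x

theorem h_zpow {B : Equiv.Perm X} {h : X → ℤ} {T : ℤ} (hB : ∀ x, h (B x) = h x + T) (n : ℤ)
    (x : X) : h ((B ^ n) x) = h x + n * T := by
  have hinv : ∀ x, h (B⁻¹ x) = h x - T := by
    intro x
    have := hB (B⁻¹ x)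
    rw [P1.app_inv] at this
    omega
  induction n using Int.induction_on generalizing x with
  | zero => simp
  | succ n ih =>
    rw [zpow_add_one, Equiv.Perm.mul_apply, ih, hB]
    ring
  | pred n ih =>
    rw [zpow_sub_one, Equiv.Perm.mul_apply, ih, hinv]
    ring

theorem nrm_mem {B : Equiv.Perm X} {h : X → ℤ} {T : ℤ} (hT : 0 < T)
    (hB : ∀ x, h (B x) = h x + T) (x : X) : nrm B h T x ∈ dom h T := by
  unfold nrm dom
  simp only [Set.mem_setOf_eq]
  rw [h_zpow hB]
  have h1 := Int.emod_nonneg (h x) hT.ne'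
  have h2 := Int.emod_lt_of_pos (h x) hT
  have h3 : h x % T = h x + -(h x / T) * T := by
    rw [Int.emod_def]
    ring
  constructor <;> omega

theorem nrm_of_mem {B : Equiv.Perm X} {h : X → ℤ} {T : ℤ} {x : X} (hx : x ∈ dom h T) :
    nrm B h T x = x := by
  unfold nrm
  rw [Int.ediv_eq_zero_of_lt hx.1 hx.2]
  simp

theorem nrm_zpow {B : Equiv.Perm X} {h : X → ℤ} {T : ℤ} (hT : 0 < T)
    (hB : ∀ x, h (B x) = h x + T) (n : ℤ) (x : X) : nrm B h T ((B ^ n) x) = nrm B h T x := by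
  unfold nrm
  rw [h_zpow hB, Int.add_mul_ediv_right _ _ hT.ne', ← Equiv.Perm.mul_apply, ← zpow_add]
  congr 2
  ring

theorem inv_zpow {B : Equiv.Perm X} {g : X → ℤ} (hg : ∀ x, g (B x) = g x) (n : ℤ) (x : X) :
    g ((B ^ n) x) = g x := by
  have := h_zpow (T := 0) (h := g) (B := B) (fun x => by rw [hg]; ring) n x
  simpa using this

theorem comm_zpow {B ψ : Equiv.Perm X} (hc : ∀ x, ψ (B x) = B (ψ x)) (n : ℤ) (x : X) :
    ψ ((B ^ n) x) = (B ^ n) (ψ x) := by
  have h1 : Commute ψ B := by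
    apply Equiv.ext
    intro x
    exact hc x
  have h2 := h1.zpow_right n
  exact Equiv.congr_fun h2.eq x

theorem nrm_comm {B ψ : Equiv.Perm X} {h : X → ℤ} {T : ℤ} (hT : 0 < T)
    (hB : ∀ x, h (B x) = h x + T) (hc : ∀ x, ψ (B x) = B (ψ x)) (x : X) :
    nrm B h T (ψ (nrm B h T x)) = nrm B h T (ψ x) := by
  conv_lhs => rw [show nrm B h T x = (B ^ (-(h x / T))) x from rfl]
  rw [comm_zpow hc, nrm_zpow hT hB]

theorem bijOn {B ψ : Equiv.Perm X} {h : X → ℤ} {T : ℤ} (hT : 0 < T)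
    (hB : ∀ x, h (B x) = h x + T) (hc : ∀ x, ψ (B x) = B (ψ x)) :
    Set.BijOn (fun x => nrm B h T (ψ x)) (dom h T) (dom h T) := by
  have hc' : ∀ x, ψ⁻¹ (B x) = B (ψ⁻¹ x) := by
    intro x
    have := hc (ψ⁻¹ x)
    rw [P1.app_inv] at this
    rw [← this, P1.inv_app]
  refine ⟨fun x _ => nrm_mem hT hB _, ?_, ?_⟩
  · intro x hx y hy hxy
    simp only at hxy
    have h1 : nrm B h T (ψ⁻¹ (nrm B h T (ψ x))) = nrm B h T (ψ⁻¹ (nrm B h T (ψ y))) := by
      rw [hxy]
    rw [nrm_comm hT hB hc', nrm_comm hT hB hc', P1.inv_app,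
      P1.inv_app, nrm_of_mem hx, nrm_of_mem hy] at h1
    exact h1
  · intro y hy
    refine ⟨nrm B h T (ψ⁻¹ y), nrm_mem hT hB _, ?_⟩
    simp only
    rw [nrm_comm hT hB hc, P1.app_inv, nrm_of_mem hy]

theorem sum_comp {B ψ : Equiv.Perm X} {h : X → ℤ} {T : ℤ} (hT : 0 < T)
    (hB : ∀ x, h (B x) = h x + T) (hc : ∀ x, ψ (B x) = B (ψ x)) {g : X → ℤ}
    (hg : ∀ x, g (B x) = g x) :
    ∑ᶠ x ∈ dom h T, g (ψ x) = ∑ᶠ x ∈ dom h T, g x := by
  refine finsum_mem_eq_of_bijOn _ (bijOn hT hB hc) ?_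
  intro x _
  unfold nrm
  rw [inv_zpow hg]

/-- A function whose sums along the orbits of `ψ` vanish has sum zero against an invariant
weight. -/
theorem sum_telescope {B ψ : Equiv.Perm X} {h : X → ℤ} {T : ℤ} (hT : 0 < T)
    (hB : ∀ x, h (B x) = h x + T) (hc : ∀ x, ψ (B x) = B (ψ x)) {F v : X → ℤ}
    (hF : ∀ x, F (B x) = F x) (hv : ∀ x, v (ψ (B x)) - v (B x) = v (ψ x) - v x)
    (hFψ : ∀ x, F (ψ x) = F x) (hfin : (dom h T ∩ {x | F x ≠ 0}).Finite) {m : ℕ} (hm : 0 < m)
    (hψ : ψ ^ m = 1) :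
    ∑ᶠ x ∈ dom h T, F x * (v (ψ x) - v x) = 0 := by
  set S := ∑ᶠ x ∈ dom h T, F x * (v (ψ x) - v x) with hS
  have hFn : ∀ (n : ℕ) x, F ((ψ ^ n) x) = F x := by
    intro n
    induction n with
    | zero => intro x; simp
    | succ n ih =>
      intro x
      rw [pow_succ', Equiv.Perm.mul_apply, hFψ, ih]
  have hcn : ∀ (n : ℕ) x, (ψ ^ n) (B x) = B ((ψ ^ n) x) := by
    intro n
    induction n with
    | zero => intro x; simp
    | succ n ih =>
      intro x
      rw [pow_succ', Equiv.Perm.mul_apply, ih, hc, Equiv.Perm.mul_apply]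
  have h1 : ∀ n : ℕ, ∑ᶠ x ∈ dom h T, F x * (v ((ψ ^ (n + 1)) x) - v ((ψ ^ n) x)) = S := by
    intro n
    have := sum_comp (ψ := ψ ^ n) hT hB (hcn n) (g := fun x => F x * (v (ψ x) - v x)) (by
      intro x
      rw [hF, hv])
    rw [hS, ← this]
    apply finsum_mem_congr rfl
    intro x _
    rw [hFn, pow_succ', Equiv.Perm.mul_apply]
  have h2 : ∀ n : ℕ, ∑ᶠ x ∈ dom h T, F x * (v ((ψ ^ n) x) - v x) = n * S := by
    intro n
    induction n with
    | zero => simp
    | succ n ih =>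
      have h3 : ∑ᶠ x ∈ dom h T, F x * (v ((ψ ^ (n + 1)) x) - v x) =
          ∑ᶠ x ∈ dom h T, (F x * (v ((ψ ^ (n + 1)) x) - v ((ψ ^ n) x)) +
            F x * (v ((ψ ^ n) x) - v x)) := by
        apply finsum_mem_congr rfl
        intro x _
        ring
      rw [h3, finsum_mem_add_distrib', h1, ih]
      · push_cast
        ring
      · refine hfin.subset ?_
        rintro x ⟨hx, hx2⟩
        exact ⟨hx, fun h0 => hx2 (by simp [h0])⟩
      · refine hfin.subset ?_
        rintro x ⟨hx, hx2⟩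
        exact ⟨hx, fun h0 => hx2 (by simp [h0])⟩
  have h4 := h2 m
  rw [hψ] at h4
  simp only [Equiv.Perm.coe_one, id_eq, sub_self, mul_zero, finsum_zero] at h4
  have h5 : (m : ℤ) ≠ 0 := by exact_mod_cast hm.ne'
  have h6 := mul_eq_zero.1 h4.symm
  exact h6.resolve_left h5

end Domain


/-! ### Darts -/

section Darts

/-- The action of an automorphism on the darts. -/
def dartPerm (φ : H ≃g H) : Equiv.Perm H.Dart where
  toFun d := ⟨(φ d.fst, φ d.snd), φ.map_rel_iff.2 d.adj⟩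
  invFun d := ⟨(φ.symm d.fst, φ.symm d.snd), φ.symm.map_rel_iff.2 d.adj⟩
  left_inv d := by
    apply SimpleGraph.Dart.ext
    simp
  right_inv d := by
    apply SimpleGraph.Dart.ext
    simp

theorem dartPerm_fst (φ : H ≃g H) (d : H.Dart) : (dartPerm φ d).fst = φ d.fst := rfl

theorem dartPerm_snd (φ : H ≃g H) (d : H.Dart) : (dartPerm φ d).snd = φ d.snd := rfl

theorem dart_ext {d d' : H.Dart} (h1 : d.fst = d'.fst) (h2 : d.snd = d'.snd) : d = d' :=
  SimpleGraph.Dart.ext _ _ (Prod.ext h1 h2)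

theorem dartPerm_symm (φ : H ≃g H) (d : H.Dart) : (dartPerm φ d).symm = dartPerm φ d.symm := rfl

theorem face_apply (ρ : RotationSystem H) (d : H.Dart) : ρ.face d = ρ.rot d.symm := rfl

theorem face_fst (ρ : RotationSystem H) (d : H.Dart) : (ρ.face d).fst = d.snd := by
  rw [face_apply, ρ.rot_fst]
  rfl

theorem rot_dartPerm {ρ : RotationSystem H} {φ : H ≃g H} (h : RotComm ρ φ) (d : H.Dart) :
    ρ.rot (dartPerm φ d) = dartPerm φ (ρ.rot d) := by
  apply dart_ext
  · rw [ρ.rot_fst, dartPerm_fst, dartPerm_fst, ρ.rot_fst]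
  · exact h d (dartPerm φ d) rfl rfl

theorem face_dartPerm {ρ : RotationSystem H} {φ : H ≃g H} (h : RotComm ρ φ) (d : H.Dart) :
    ρ.face (dartPerm φ d) = dartPerm φ (ρ.face d) := by
  rw [face_apply, dartPerm_symm, rot_dartPerm h, face_apply]

theorem u_zpow {A : H ≃g H} {ℓ : ℤ} {u : W → ℤ} (huA : ∀ w, u (A w) = u w + ℓ) (n : ℤ) (w : W) :
    u ((A ^ n) w) = u w + n * ℓ := by
  have hinv : ∀ w, u (A⁻¹ w) = u w - ℓ := by
    intro w
    have := huA (A⁻¹ w)
    rw [RelIso.apply_inv_self] at this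
    omega
  induction n using Int.induction_on generalizing w with
  | zero => simp
  | succ n ih =>
    rw [zpow_add_one, RelIso.mul_apply, ih, huA]
    ring
  | pred n ih =>
    rw [zpow_sub_one, RelIso.mul_apply, ih, hinv]
    ring

theorem zpow_neg_apply (A : H ≃g H) (n : ℤ) (w : W) : (A ^ n) ((A ^ (-n)) w) = w := by
  rw [← RelIso.mul_apply, ← zpow_add]
  simp


theorem darts_finite {S : Set W} (hS : S.Finite) : {d : H.Dart | d.fst ∈ S}.Finite := by
  have : {d : H.Dart | d.fst ∈ S} ⊆ ⋃ w ∈ S, Set.range (H.dartOfNeighborSet w) := by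
    intro d hd
    simp only [Set.mem_iUnion]
    refine ⟨d.fst, hd, ⟨d.snd, d.adj⟩, ?_⟩
    apply dart_ext <;> rfl
  refine Set.Finite.subset (hS.biUnion fun w _ => ?_) this
  exact Set.finite_range _

theorem finite_slab {Pl : Plane H} {A : H ≃g H} {ℓ : ℤ} (hℓ : 0 < ℓ) {u hgt : W → ℤ} {K : ℤ}
    (huA : ∀ w, u (A w) = u w + ℓ) (hE : Ends Pl A ℓ u hgt K) (M T : ℤ) :
    {w | |hgt w| ≤ M ∧ 0 ≤ u w ∧ u w < T}.Finite := by
  have hh : ∀ (n : ℤ) w, hgt ((A ^ n) w) = hgt w := by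
    intro n w
    have := u_zpow (u := hgt) (A := A) (ℓ := 0) (fun w => by rw [hE.inv]; ring) n w
    simpa using this
  have : {w | |hgt w| ≤ M ∧ 0 ≤ u w ∧ u w < T} ⊆
      ⋃ j ∈ Set.Icc (0 : ℤ) T, (fun w => (A ^ j) w) '' {w | |hgt w| ≤ M ∧ 0 ≤ u w ∧ u w < ℓ} := by
    rintro w ⟨h1, h2, h3⟩
    simp only [Set.mem_iUnion]
    have h4 := Int.emod_nonneg (u w) hℓ.ne'
    have h5 := Int.emod_lt_of_pos (u w) hℓ
    have h6 : u w % ℓ = u w + -(u w / ℓ) * ℓ := by
      rw [Int.emod_def]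
      ring
    refine ⟨u w / ℓ, ⟨Int.ediv_nonneg h2 hℓ.le, ?_⟩, (A ^ (-(u w / ℓ))) w, ⟨?_, ?_, ?_⟩, ?_⟩
    · have := Int.ediv_le_self ℓ h2
      omega
    · rw [hh]
      exact h1
    · rw [u_zpow huA]
      omega
    · rw [u_zpow huA]
      omega
    · exact zpow_neg_apply A _ w
  refine Set.Finite.subset ((Set.finite_Icc 0 T).biUnion fun j _ => ?_) this
  exact (hE.fin M).image _

/-- The pairing lemma. -/
theorem pairing {Pl : Plane H} {A : H ≃g H} (hA : RotComm Pl.toRotationSystem A) {ℓ : ℤ}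
    (hℓ : 0 < ℓ) {u hgt : W → ℤ} {K : ℤ} (huA : ∀ w, u (A w) = u w + ℓ)
    (hE : Ends Pl A ℓ u hgt K) {N : ℤ} (hN : 0 < N) {F : H.Dart → ℤ}
    (hFace : ∀ d, F (Pl.rot d.symm) = F d) (hFA : ∀ d, F (dartPerm (A ^ N) d) = F d)
    {M : ℤ} (hM : ∀ d, F d ≠ 0 → |hgt d.fst| ≤ M) :
    ∑ᶠ d ∈ dom (fun d : H.Dart => u d.fst) (N * ℓ),
      (F d - F d.symm) * (u d.snd - u d.fst) = 0 ∧
    (dom (fun d : H.Dart => u d.fst) (N * ℓ) ∩
      {d | (F d - F d.symm) * (u d.snd - u d.fst) ≠ 0}).Finite := by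
  have hT : 0 < N * ℓ := mul_pos hN hℓ
  have hfin : ∀ M' : ℤ, (dom (fun d : H.Dart => u d.fst) (N * ℓ) ∩
      {d | |hgt d.fst| ≤ M'}).Finite := by
    intro M'
    refine (darts_finite (finite_slab hℓ huA hE M' (N * ℓ))).subset ?_
    rintro d ⟨h1, h2⟩
    exact ⟨h2, h1.1, h1.2⟩
  have hfin1 : (dom (fun d : H.Dart => u d.fst) (N * ℓ) ∩ {d | F d ≠ 0}).Finite := by
    refine (hfin M).subset ?_
    rintro d ⟨h1, h2⟩
    exact ⟨h1, hM d h2⟩
  have hfin2 : (dom (fun d : H.Dart => u d.fst) (N * ℓ) ∩ {d | F d.symm ≠ 0}).Finite := by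
    refine (hfin (M + K)).subset ?_
    rintro d ⟨h1, h2⟩
    refine ⟨h1, ?_⟩
    have h3 := hM d.symm h2
    have h4 := hE.lip d.fst d.snd d.adj
    have h5 : d.symm.fst = d.snd := rfl
    rw [h5] at h3
    change |hgt d.fst| ≤ M + K
    rw [abs_le] at h3 h4 ⊢
    constructor <;> omega
  have hB : ∀ d : H.Dart, (fun d : H.Dart => u d.fst) (dartPerm (A ^ N) d) =
      (fun d : H.Dart => u d.fst) d + N * ℓ := by
    intro d
    simp only [dartPerm_fst]
    exact u_zpow huA N d.fst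
  have hR : RotComm Pl.toRotationSystem (A ^ N) := rotComm_zpow _ hA N
  obtain ⟨m, hm, hface⟩ := hE.face
  have h1 : ∑ᶠ d ∈ dom (fun d : H.Dart => u d.fst) (N * ℓ), F d * (u d.snd - u d.fst) = 0 := by
    have := sum_telescope (B := dartPerm (A ^ N)) (ψ := Pl.toRotationSystem.face)
      (h := fun d : H.Dart => u d.fst) (v := fun d : H.Dart => u d.fst) hT hB
      (face_dartPerm hR) hFA (by
        intro d
        simp only [face_fst, dartPerm_fst, dartPerm_snd]
        rw [u_zpow huA, u_zpow huA]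
        ring) hFace hfin1 hm hface
    simpa only [face_fst] using this
  have h2 : ∑ᶠ d ∈ dom (fun d : H.Dart => u d.fst) (N * ℓ),
      F d.symm * (u d.symm.snd - u d.symm.fst) = 0 := by
    have := sum_comp (B := dartPerm (A ^ N)) (ψ := symmPerm H)
      (h := fun d : H.Dart => u d.fst) hT hB (fun d => rfl)
      (g := fun d => F d * (u d.snd - u d.fst)) (by
        intro d
        rw [hFA]
        simp only [dartPerm_fst, dartPerm_snd]
        rw [u_zpow huA, u_zpow huA]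
        ring)
    rw [h1] at this
    exact this
  have h3 : ∀ d : H.Dart, (F d - F d.symm) * (u d.snd - u d.fst) =
      F d * (u d.snd - u d.fst) + F d.symm * (u d.symm.snd - u d.symm.fst) := by
    intro d
    have h4 : d.symm.snd = d.fst := rfl
    have h5 : d.symm.fst = d.snd := rfl
    rw [h4, h5]
    ring
  constructor
  · rw [finsum_mem_congr rfl (fun d _ => h3 d), finsum_mem_add_distrib', h1, h2, add_zero]
    · refine hfin1.subset ?_
      rintro d ⟨h4, h5⟩
      exact ⟨h4, fun h0 => h5 (by simp [h0])⟩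
    · refine hfin2.subset ?_
      rintro d ⟨h4, h5⟩
      exact ⟨h4, fun h0 => h5 (by simp [h0])⟩
  · refine (hfin1.union hfin2).subset ?_
    rintro d ⟨h4, h5⟩
    by_cases h6 : F d = 0
    · right
      exact ⟨h4, fun h7 => h5 (by rw [h6, h7]; ring)⟩
    · left
      exact ⟨h4, h6⟩

theorem finsum_pos {X : Type*} {s : Set X} {f : X → ℤ} (hf : ∀ x, 0 ≤ f x)
    (hfin : (s ∩ {x | f x ≠ 0}).Finite) {x₀ : X} (hx : x₀ ∈ s) (h : 0 < f x₀) :
    0 < ∑ᶠ x ∈ s, f x := by
  rw [finsum_mem_def]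
  have h1 : (Function.support (s.indicator f)).Finite := by
    refine hfin.subset ?_
    intro x hx
    rw [Function.mem_support] at hx
    by_cases h2 : x ∈ s
    · rw [Set.indicator_of_mem h2] at hx
      exact ⟨h2, hx⟩
    · exact absurd (Set.indicator_of_notMem h2 f) hx
  have h2 := single_le_finsum x₀ h1 (fun x => Set.indicator_nonneg (fun x _ => hf x) x)
  rw [Set.indicator_of_mem hx] at h2
  exact lt_of_lt_of_le h h2

open Classical in
/-- The indicator function of a set of darts. -/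
noncomputable def chi (S : Set H.Dart) (d : H.Dart) : ℤ := if d ∈ S then 1 else 0

theorem chi_of_mem {S : Set H.Dart} {d : H.Dart} (h : d ∈ S) : chi S d = 1 := if_pos h

theorem chi_of_notMem {S : Set H.Dart} {d : H.Dart} (h : d ∉ S) : chi S d = 0 := if_neg h

theorem chi_congr {S : Set H.Dart} {d d' : H.Dart} (h : d ∈ S ↔ d' ∈ S) : chi S d = chi S d' := by
  by_cases h1 : d ∈ S
  · rw [chi_of_mem h1, chi_of_mem (h.1 h1)]
  · rw [chi_of_notMem h1, chi_of_notMem (fun h2 => h1 (h.2 h2))]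

/-- The boundary flow of the left side is nonnegative in the direction of `u`. -/
theorem flow_nonneg (ρ : RotationSystem H) {u : W → ℤ} {P : ℤ → W}
    (hP : Calib H u P) {S : Set H.Dart} (hS : IsLeft ρ P S) (d : H.Dart) :
    0 ≤ (chi S d - chi S d.symm) * (u d.snd - u d.fst) := by
  by_cases h1 : (d ∈ S ↔ d.symm ∈ S)
  · rw [chi_congr h1]
    simp
  · have h2 : ∃ t : ℤ, (d.fst = P t ∧ d.snd = P (t + 1)) ∨ (d.fst = P (t + 1) ∧ d.snd = P t) := by
      by_contra h3
      push Not at h3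
      refine h1 (hS.off d fun t => ⟨fun h4 => ?_, fun h4 => ?_⟩)
      · exact (h3 t).1 h4.1 h4.2
      · exact (h3 t).2 h4.1 h4.2
    obtain ⟨t, ⟨h3, h4⟩ | ⟨h3, h4⟩⟩ := h2
    · obtain ⟨h5, h6⟩ := hS.left t d h3 h4
      rw [chi_of_mem h5, chi_of_notMem h6, h3, h4, hP.lev, hP.lev]
      norm_num
    · obtain ⟨h5, h6⟩ := hS.left t d.symm h4 h3
      rw [Dart.symm_symm] at h6
      rw [chi_of_mem h5, chi_of_notMem h6, h3, h4, hP.lev, hP.lev]
      norm_num

theorem flow_pos (ρ : RotationSystem H) {u : W → ℤ} {P : ℤ → W}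
    (hP : Calib H u P) {S : Set H.Dart} (hS : IsLeft ρ P S) (t : ℤ) :
    0 < (chi S ⟨(P t, P (t + 1)), hP.adj t⟩ - chi S (Dart.symm ⟨(P t, P (t + 1)), hP.adj t⟩)) *
      (u (P (t + 1)) - u (P t)) := by
  obtain ⟨h5, h6⟩ := hS.left t ⟨(P t, P (t + 1)), hP.adj t⟩ rfl rfl
  rw [chi_of_mem h5, chi_of_notMem h6, hP.lev, hP.lev]
  norm_num

/-- The left side of a periodic line is invariant. -/
theorem chi_lft_inv (hH : H.Connected) (Pl : Plane H) {A : H ≃g H}
    (hA : RotComm Pl.toRotationSystem A) {ℓ : ℤ} {u : W → ℤ} {N : ℤ} {P : ℤ → W}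
    (hP : PerLine A ℓ u N P) (d : H.Dart) :
    chi (lft Pl P) (dartPerm (A ^ N) d) = chi (lft Pl P) d := by
  apply chi_congr
  have h1 : (fun t => (A ^ N) (P (t - N * ℓ))) = P := by
    funext t
    rw [← hP.2]
    congr 1
    ring
  have h2 := lft_map hH Pl (rotComm_zpow _ hA N) hP.1.isCurve (N * ℓ) (d := d)
    (d' := dartPerm (A ^ N) d) rfl rfl
  rw [h1] at h2
  exact h2

theorem chi_face (ρ : RotationSystem H) {S : Set H.Dart} (hS : IsFaceSet ρ S) (d : H.Dart) :
    chi S (ρ.rot d.symm) = chi S d := chi_congr (hS d)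

end Darts

/-! ### Sides of far vertices -/

section Sides


theorem side_walk (hH : H.Connected) (Pl : Plane H) {P : ℤ → W} (hP : IsCurve H P) {w w' : W}
    (p : H.Walk w w') (hp : ∀ x ∈ p.support, ∀ t, x ≠ P t) :
    (w ∈ Up Pl P → w' ∈ Up Pl P) ∧ (w ∈ Down Pl P → w' ∈ Down Pl P) := by
  induction p with
  | nil => exact ⟨id, id⟩
  | @cons a b c hab q ih =>
    have h1 := ih (fun x hx => hp x (by simp [hx]))
    have hb : ∀ t, b ≠ P t := hp b (by simp)
    constructor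
    · intro h
      rcases up_adj hH Pl hP hab h with h2 | ⟨t, h2⟩
      · exact h1.1 h2
      · exact absurd h2 (hb t)
    · intro h
      rcases down_adj hH Pl hP hab h with h2 | ⟨t, h2⟩
      · exact h1.2 h2
      · exact absurd h2 (hb t)

/-- The heights of a periodic line are bounded. -/
theorem line_bounded {A : H ≃g H} {ℓ : ℤ} (hℓ : 0 < ℓ) {u hgt : W → ℤ}
    (hinv : ∀ w, hgt (A w) = hgt w) {N : ℤ} (hN : 0 < N) {P : ℤ → W}
    (hP : PerLine A ℓ u N P) : ∃ M, ∀ t, |hgt (P t)| ≤ M := by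
  have hT : 0 < N * ℓ := mul_pos hN hℓ
  have hh : ∀ (n : ℤ) w, hgt ((A ^ n) w) = hgt w := by
    intro n w
    have := u_zpow (u := hgt) (A := A) (ℓ := 0) (fun w => by rw [hinv]; ring) n w
    simpa using this
  have hper : Function.Periodic (fun t => |hgt (P t)|) (N * ℓ) := by
    intro t
    simp only
    rw [hP.2, hh]
  have hfin : ((fun t => |hgt (P t)|) '' Set.Icc 0 (N * ℓ)).Finite :=
    (Set.finite_Icc _ _).image _
  obtain ⟨M, hM⟩ := hfin.bddAbove
  refine ⟨M, fun t => ?_⟩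
  have h1 := Int.emod_nonneg t hT.ne'
  have h2 := Int.emod_lt_of_pos t hT
  have h4 : |hgt (P (t % (N * ℓ) + (t / (N * ℓ) : ℤ) * (N * ℓ)))| = |hgt (P (t % (N * ℓ)))| := by
    have := hper.int_mul (t / (N * ℓ)) (t % (N * ℓ))
    simpa using this
  have h5 : t % (N * ℓ) + (t / (N * ℓ) : ℤ) * (N * ℓ) = t := by
    rw [Int.emod_def]
    ring
  rw [h5] at h4
  rw [h4]
  exact hM ⟨t % (N * ℓ), ⟨h1, h2.le⟩, rfl⟩

/-- Every periodic line has the far vertices on different sides. -/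
theorem dichotomy (hH : H.Connected) (Pl : Plane H) {A : H ≃g H}
    (hA : RotComm Pl.toRotationSystem A) {ℓ : ℤ} (hℓ : 0 < ℓ) {u hgt : W → ℤ}
    (huA : ∀ w, u (A w) = u w + ℓ) {K : ℤ}
    (hE : Ends Pl A ℓ u hgt K) {N : ℤ} (hN : 0 < N) {P : ℤ → W} (hP : PerLine A ℓ u N P) :
    (∀ w, ((∀ t, hgt (P t) + K < hgt w) → w ∈ Up Pl P) ∧
      ((∀ t, hgt w + K < hgt (P t)) → w ∈ Down Pl P)) ∨
    (∀ w, ((∀ t, hgt (P t) + K < hgt w) → w ∈ Down Pl P) ∧
      ((∀ t, hgt w + K < hgt (P t)) → w ∈ Up Pl P)) := by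
  have hK : 0 ≤ K := (abs_nonneg _).trans (hE.lip _ _ (hP.1.adj 0))
  have hC := hP.1.isCurve
  obtain ⟨M, hM⟩ := line_bounded hℓ hE.inv hN hP
  have hM0 : 0 ≤ M := (abs_nonneg _).trans (hM 0)
  obtain ⟨⟨a, ha⟩, -⟩ := hE.unb (M + K)
  obtain ⟨-, ⟨b, hb⟩⟩ := hE.unb (-M - K)
  have ha' : ∀ t, hgt (P t) + K < hgt a := by
    intro t
    have := abs_le.1 (hM t)
    omega
  have hb' : ∀ t, hgt b + K < hgt (P t) := by
    intro t
    have := abs_le.1 (hM t)
    omega
  have hup : ∀ w w', (∀ t, hgt (P t) + K < hgt w) → (∀ t, hgt (P t) + K < hgt w') →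
      (w ∈ Up Pl P → w' ∈ Up Pl P) ∧ (w ∈ Down Pl P → w' ∈ Down Pl P) := by
    intro w w' h1 h2
    obtain ⟨p, hp⟩ := hE.up w w'
    refine side_walk hH Pl hC p ?_
    intro x hx t hxt
    have h3 := hp x hx
    have h4 := h1 t
    have h5 := h2 t
    rw [hxt] at h3
    rcases min_le_iff.1 (le_refl (min (hgt w) (hgt w'))) with h6 | h6 <;> omega
  have hdn : ∀ w w', (∀ t, hgt w + K < hgt (P t)) → (∀ t, hgt w' + K < hgt (P t)) →
      (w ∈ Up Pl P → w' ∈ Up Pl P) ∧ (w ∈ Down Pl P → w' ∈ Down Pl P) := by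
    intro w w' h1 h2
    obtain ⟨p, hp⟩ := hE.down w w'
    refine side_walk hH Pl hC p ?_
    intro x hx t hxt
    have h3 := hp x hx
    have h4 := h1 t
    have h5 := h2 t
    rw [hxt] at h3
    rcases max_le_iff.1 (le_refl (max (hgt w) (hgt w'))) with ⟨h6, h7⟩
    rcases le_max_iff.1 (le_refl (max (hgt w) (hgt w'))) with h8 | h8 <;> omega
  have hL := isLeft_lft hH Pl hC
  have hpos : 0 < N * ℓ := mul_pos hN hℓ
  have hmem : (⟨(P 0, P (0 + 1)), hP.1.adj 0⟩ : H.Dart) ∈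
      dom (fun d : H.Dart => u d.fst) (N * ℓ) := by
    change 0 ≤ u (P 0) ∧ u (P 0) < N * ℓ
    rw [hP.1.lev]
    exact ⟨le_refl _, hpos⟩
  have hua := up_or_down hH Pl hC a
  have hub := up_or_down hH Pl hC b
  have hna : ¬ ∃ t, a = P t := by
    rintro ⟨t, h⟩
    have := ha' t
    rw [h] at this
    omega
  have hnb : ¬ ∃ t, b = P t := by
    rintro ⟨t, h⟩
    have := hb' t
    rw [h] at this
    omega
  -- a dart with large height starts at a far vertex
  have hfar : ∀ d : H.Dart, ¬ |hgt d.fst| ≤ M + K →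
      (∀ t, hgt (P t) + K < hgt d.fst) ∨ (∀ t, hgt d.fst + K < hgt (P t)) := by
    intro d hd
    rw [not_le] at hd
    rcases lt_abs.1 hd with h1 | h1
    · left
      intro t
      have := abs_le.1 (hM t)
      omega
    · right
      intro t
      have := abs_le.1 (hM t)
      omega
  rcases hua with h1 | h1 | h1
  · rcases hub with h2 | h2 | h2
    · -- both up
      exfalso
      have hp := pairing hA hℓ huA hE hN (F := fun d => chi (lft Pl P) d - 1) (M := M + K)
        (by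
          intro d
          rw [chi_face _ hL.face])
        (by
          intro d
          rw [chi_lft_inv hH Pl hA hP])
        (by
          intro d hd
          by_contra hd2
          apply hd
          have h3 : d.fst ∈ Up Pl P := by
            rcases hfar d hd2 with h3 | h3
            · exact (hup a d.fst ha' h3).1 h1
            · exact (hdn b d.fst hb' h3).1 h2
          rw [chi_of_mem (h3 d rfl)]
          ring)
      have h3 := finsum_pos (s := dom (fun d : H.Dart => u d.fst) (N * ℓ))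
        (f := fun d => (chi (lft Pl P) d - 1 - (chi (lft Pl P) d.symm - 1)) * (u d.snd - u d.fst))
        (by
          intro d
          have := flow_nonneg _ hP.1 hL d
          linarith) hp.2 hmem (by
          have := flow_pos _ hP.1 hL 0
          linarith)
      exact absurd hp.1 h3.ne'
    · left
      intro w
      exact ⟨fun h3 => (hup a w ha' h3).1 h1, fun h3 => (hdn b w hb' h3).2 h2⟩
    · exact absurd h2 hnb
  · rcases hub with h2 | h2 | h2
    · right
      intro w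
      exact ⟨fun h3 => (hup a w ha' h3).2 h1, fun h3 => (hdn b w hb' h3).1 h2⟩
    · -- both down
      exfalso
      have hp := pairing hA hℓ huA hE hN (F := fun d => chi (lft Pl P) d) (M := M + K)
        (by
          intro d
          rw [chi_face _ hL.face])
        (by
          intro d
          rw [chi_lft_inv hH Pl hA hP])
        (by
          intro d hd
          by_contra hd2
          apply hd
          have h3 : d.fst ∈ Down Pl P := by
            rcases hfar d hd2 with h3 | h3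
            · exact (hup a d.fst ha' h3).2 h1
            · exact (hdn b d.fst hb' h3).2 h2
          exact chi_of_notMem (h3 d rfl))
      have h3 := finsum_pos (s := dom (fun d : H.Dart => u d.fst) (N * ℓ))
        (f := fun d => (chi (lft Pl P) d - (chi (lft Pl P) d.symm)) * (u d.snd - u d.fst))
        (flow_nonneg _ hP.1 hL) hp.2 hmem (flow_pos _ hP.1 hL 0)
      exact absurd hp.1 h3.ne'
    · exact absurd h2 hnb
  · exact absurd h1 hna

theorem perLine_mul {A : H ≃g H} {ℓ : ℤ} {u : W → ℤ} {N : ℤ} {P : ℤ → W}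
    (hP : PerLine A ℓ u N P) {M : ℤ} (hM : 0 < M) : PerLine A ℓ u (N * M) P := by
  refine ⟨hP.1, ?_⟩
  have h : ∀ (k : ℕ) t, P (t + k * (N * ℓ)) = (A ^ (N * k)) (P t) := by
    intro k
    induction k with
    | zero => intro t; simp
    | succ k ih =>
      intro t
      have h1 : t + ((k + 1 : ℕ) : ℤ) * (N * ℓ) = (t + k * (N * ℓ)) + N * ℓ := by
        push_cast
        ring
      have h2 : A ^ (N * ((k + 1 : ℕ) : ℤ)) = A ^ N * A ^ (N * (k : ℤ)) := by
        rw [← zpow_add]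
        congr 1
        push_cast
        ring
      rw [h1, hP.2, ih, h2, RelIso.mul_apply]
  intro t
  obtain ⟨k, rfl⟩ := Int.eq_ofNat_of_zero_le hM.le
  have := h k t
  rw [← this]
  congr 1
  ring

/-- Two periodic lines have the far vertices on the same sides. -/
theorem same_side (hH : H.Connected) (Pl : Plane H) {A : H ≃g H}
    (hA : RotComm Pl.toRotationSystem A) {ℓ : ℤ} (hℓ : 0 < ℓ) {u hgt : W → ℤ}
    (huA : ∀ w, u (A w) = u w + ℓ) {K : ℤ}
    (hE : Ends Pl A ℓ u hgt K) {N : ℤ} (hN : 0 < N) {P Q : ℤ → W} (hP : PerLine A ℓ u N P)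
    (hQ : PerLine A ℓ u N Q)
    (h1 : ∀ w, ((∀ t, hgt (P t) + K < hgt w) → w ∈ Up Pl P) ∧
      ((∀ t, hgt w + K < hgt (P t)) → w ∈ Down Pl P))
    (h2 : ∀ w, ((∀ t, hgt (Q t) + K < hgt w) → w ∈ Down Pl Q) ∧
      ((∀ t, hgt w + K < hgt (Q t)) → w ∈ Up Pl Q)) : False := by
  have hL := isLeft_lft hH Pl hP.1.isCurve
  have hL' := isLeft_lft hH Pl hQ.1.isCurve
  obtain ⟨M, hM⟩ := line_bounded hℓ hE.inv hN hP
  obtain ⟨M', hM'⟩ := line_bounded hℓ hE.inv hN hQ
  have hpos : 0 < N * ℓ := mul_pos hN hℓ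
  have hmem : (⟨(P 0, P (0 + 1)), hP.1.adj 0⟩ : H.Dart) ∈
      dom (fun d : H.Dart => u d.fst) (N * ℓ) := by
    change 0 ≤ u (P 0) ∧ u (P 0) < N * ℓ
    rw [hP.1.lev]
    exact ⟨le_refl _, hpos⟩
  have hp := pairing hA hℓ huA hE hN
    (F := fun d => chi (lft Pl P) d + chi (lft Pl Q) d - 1) (M := max M M' + K)
    (by
      intro d
      rw [chi_face _ hL.face, chi_face _ hL'.face])
    (by
      intro d
      rw [chi_lft_inv hH Pl hA hP, chi_lft_inv hH Pl hA hQ])
    (by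
      intro d hd
      by_contra hd2
      apply hd
      have h5 := le_max_left M M'
      have h6 := le_max_right M M'
      rw [not_le] at hd2
      rcases lt_abs.1 hd2 with h3 | h3
      · have h7 : d.fst ∈ Up Pl P := (h1 d.fst).1 (fun t => by
          have := abs_le.1 (hM t)
          omega)
        have h8 : d.fst ∈ Down Pl Q := (h2 d.fst).1 (fun t => by
          have := abs_le.1 (hM' t)
          omega)
        rw [chi_of_mem (h7 d rfl), chi_of_notMem (h8 d rfl)]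
        ring
      · have h7 : d.fst ∈ Down Pl P := (h1 d.fst).2 (fun t => by
          have := abs_le.1 (hM t)
          omega)
        have h8 : d.fst ∈ Up Pl Q := (h2 d.fst).2 (fun t => by
          have := abs_le.1 (hM' t)
          omega)
        rw [chi_of_notMem (h7 d rfl), chi_of_mem (h8 d rfl)]
        ring)
  have h3 := finsum_pos (s := dom (fun d : H.Dart => u d.fst) (N * ℓ))
    (f := fun d => (chi (lft Pl P) d + chi (lft Pl Q) d - 1 -
      (chi (lft Pl P) d.symm + chi (lft Pl Q) d.symm - 1)) * (u d.snd - u d.fst))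
    (by
      intro d
      have := flow_nonneg _ hP.1 hL d
      have := flow_nonneg _ hQ.1 hL' d
      linarith) hp.2 hmem (by
      have := flow_pos _ hP.1 hL 0
      have := flow_nonneg _ hQ.1 hL' ⟨(P 0, P (0 + 1)), hP.1.adj 0⟩
      simp only at this ⊢
      linarith)
  exact absurd hp.1 h3.ne'

end Sides

end E1

/-- The far vertices are on the two sides of every periodic line, in the same way for all. -/
theorem ends_sides (hH : H.Connected) (Pl : Plane H) {A : H ≃g H}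
    (hA : RotComm Pl.toRotationSystem A) {ℓ : ℤ} (hℓ : 0 < ℓ) {u hgt : W → ℤ}
    (hu : ∀ w w', H.Adj w w' → |u w - u w'| ≤ 1) (huA : ∀ w, u (A w) = u w + ℓ) {K : ℤ}
    (hE : Ends Pl A ℓ u hgt K) :
    (∀ (N : ℤ) (P : ℤ → W), 0 < N → PerLine A ℓ u N P → ∀ w,
      ((∀ t, hgt (P t) + K < hgt w) → w ∈ Up Pl P) ∧
      ((∀ t, hgt w + K < hgt (P t)) → w ∈ Down Pl P)) ∨
    (∀ (N : ℤ) (P : ℤ → W), 0 < N → PerLine A ℓ u N P → ∀ w,
      ((∀ t, hgt (P t) + K < hgt w) → w ∈ Down Pl P) ∧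
      ((∀ t, hgt w + K < hgt (P t)) → w ∈ Up Pl P)) := by
  by_cases h : ∃ (N : ℤ) (P : ℤ → W), 0 < N ∧ PerLine A ℓ u N P ∧ ∀ w,
      ((∀ t, hgt (P t) + K < hgt w) → w ∈ Up Pl P) ∧
      ((∀ t, hgt w + K < hgt (P t)) → w ∈ Down Pl P)
  · left
    obtain ⟨N, P, hN, hP, h1⟩ := h
    intro N' Q hN' hQ
    rcases E1.dichotomy hH Pl hA hℓ huA hE hN' hQ with h2 | h2
    · exact h2
    · have h3 := E1.perLine_mul hP hN'
      have h4 := E1.perLine_mul hQ hN
      rw [mul_comm] at h4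
      exact (E1.same_side hH Pl hA hℓ huA hE (mul_pos hN hN') h3 h4 h1 h2).elim
  · right
    intro N P hN hP
    rcases E1.dichotomy hH Pl hA hℓ huA hE hN hP with h2 | h2
    · exact absurd ⟨N, P, hN, hP, h2⟩ h
    · exact h2

theorem coherent_of_ends (hH : H.Connected) (Pl : Plane H) {A : H ≃g H}
    (hA : RotComm Pl.toRotationSystem A) {ℓ : ℤ} (hℓ : 0 < ℓ) {u hgt : W → ℤ}
    (hu : ∀ w w', H.Adj w w' → |u w - u w'| ≤ 1) (huA : ∀ w, u (A w) = u w + ℓ) {K : ℤ}
    (hE : Ends Pl A ℓ u hgt K) {N : ℤ} (hN : 0 < N) {P Q : ℤ → W} (hP : PerLine A ℓ u N P)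
    (hQ : PerLine A ℓ u N Q) : Coherent Pl P Q := by
  obtain ⟨M, hM⟩ := E1.line_bounded hℓ hE.inv hN hP
  obtain ⟨M', hM'⟩ := E1.line_bounded hℓ hE.inv hN hQ
  obtain ⟨⟨a, ha⟩, -⟩ := hE.unb (max M M' + K)
  obtain ⟨-, ⟨b, hb⟩⟩ := hE.unb (-max M M' - K)
  have h5 := le_max_left M M'
  have h6 := le_max_right M M'
  have haP : ∀ t, hgt (P t) + K < hgt a := fun t => by
    have := abs_le.1 (hM t)
    omega
  have haQ : ∀ t, hgt (Q t) + K < hgt a := fun t => by
    have := abs_le.1 (hM' t)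
    omega
  have hbP : ∀ t, hgt b + K < hgt (P t) := fun t => by
    have := abs_le.1 (hM t)
    omega
  have hbQ : ∀ t, hgt b + K < hgt (Q t) := fun t => by
    have := abs_le.1 (hM' t)
    omega
  have hdart : ∀ w : W, ∃ d : H.Dart, d.fst = w := by
    intro w
    by_cases hw : w = P 0
    · exact ⟨⟨(P 0, P (0 + 1)), hP.1.adj 0⟩, hw.symm⟩
    · obtain ⟨p⟩ := hH.preconnected w (P 0)
      cases p with
      | nil => exact absurd rfl hw
      | cons h q => exact ⟨⟨(_, _), h⟩, rfl⟩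
  have key : ∀ x y : W, x ∈ Up Pl P → x ∈ Up Pl Q → y ∈ Down Pl P → y ∈ Down Pl Q →
      Coherent Pl P Q := by
    intro x y h1 h2 h3 h4
    obtain ⟨d, hd⟩ := hdart x
    obtain ⟨d', hd'⟩ := hdart y
    refine ⟨⟨d, h1 d hd, h2 d hd⟩, fun h => ?_⟩
    have h7 : d' ∈ lft Pl P ∪ lft Pl Q := by
      rw [h]
      trivial
    rcases h7 with h7 | h7
    · exact h3 d' hd' h7
    · exact h4 d' hd' h7
  rcases ends_sides hH Pl hA hℓ hu huA hE with h | h
  · exact key a b ((h N P hN hP a).1 haP) ((h N Q hN hQ a).1 haQ) ((h N P hN hP b).2 hbP)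
      ((h N Q hN hQ b).2 hbQ)
  · exact key b a ((h N P hN hP b).2 hbP) ((h N Q hN hQ b).2 hbQ) ((h N P hN hP a).1 haP)
      ((h N Q hN hQ a).1 haQ)

end Pool.Agent.MP_f5837d_co
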