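import Pool.Agent.Lib.MP_f5837d_co.T0D
import Pool.Agent.Lib.MP_f5837d_co.E1

/-!
# Task C1: the extremal class and the potential (blueprint 6.2)
-/

set_option autoImplicit false

namespace Pool.Agent.MP_f5837d_co

open SimpleGraph

variable {V : Type*} {G : SimpleGraph V} {a : V → V → ℤ × ℤ} {ha : ∀ v w, a w v = - a v w}

/-- The determinant. -/
def det2 (α β : ℤ × ℤ) : ℤ := α.1 * β.2 - α.2 * β.1

namespace C1

/-- There is a walk of length `n` from `w` to `w'`. -/
def Rch {W : Type*} (H : SimpleGraph W) (n : ℕ) (w w' : W) : Prop :=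
  ∃ p : H.Walk w w', p.length = n

section general

variable {W : Type*} {H : SimpleGraph W}

theorem Rch.zero (w : W) : Rch H 0 w w := ⟨Walk.nil, rfl⟩

theorem Rch.single {w w' : W} (h : H.Adj w w') : Rch H 1 w w' := ⟨h.toWalk, rfl⟩

theorem Rch.trans {m n : ℕ} {x y z : W} (h : Rch H m x y) (h' : Rch H n y z) :
    Rch H (m + n) x z := by
  obtain ⟨p, rfl⟩ := h
  obtain ⟨q, rfl⟩ := h'
  exact ⟨p.append q, Walk.length_append _ _⟩

theorem Rch.symm {n : ℕ} {x y : W} (h : Rch H n x y) : Rch H n y x := by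
  obtain ⟨p, rfl⟩ := h
  exact ⟨p.reverse, Walk.length_reverse _⟩

theorem Rch.map (φ : H ≃g H) {n : ℕ} {x y : W} (h : Rch H n x y) : Rch H n (φ x) (φ y) := by
  obtain ⟨p, rfl⟩ := h
  exact ⟨p.map φ.toHom, Walk.length_map _ _⟩

theorem Rch.eq_of_zero {x y : W} (h : Rch H 0 x y) : x = y := by
  obtain ⟨p, hp⟩ := h
  exact Walk.eq_of_length_eq_zero hp

theorem rch_succ {n : ℕ} {x y : W} (h : Rch H (n + 1) x y) : ∃ z, Rch H n x z ∧ H.Adj z y := by
  obtain ⟨q, hq⟩ := h.symm
  cases q with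
  | nil => simp at hq
  | cons h q' =>
    rw [Walk.length_cons] at hq
    exact ⟨_, ⟨q'.reverse, by rw [Walk.length_reverse]; omega⟩, h.symm⟩

theorem rch_seg {x y : W} (p : H.Walk x y) {i : ℕ} (k : ℕ) (hk : i + k ≤ p.length) :
    Rch H k (p.getVert i) (p.getVert (i + k)) := by
  induction k with
  | zero => exact Rch.zero _
  | succ k ih =>
    exact (ih (by omega)).trans (Rch.single (p.adj_getVert_succ (by omega)))

theorem rch_dist (hH : H.Connected) (x y : W) : Rch H (H.dist x y) x y :=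
  (hH x y).exists_walk_length_eq_dist

theorem dist_le_rch {n : ℕ} {x y : W} (h : Rch H n x y) : H.dist x y ≤ n := by
  obtain ⟨p, rfl⟩ := h
  exact dist_le p

theorem dist_map (φ : H ≃g H) (hH : H.Connected) (x y : W) : H.dist (φ x) (φ y) = H.dist x y := by
  refine le_antisymm (dist_le_rch ((rch_dist hH x y).map φ)) ?_
  have := dist_le_rch ((rch_dist hH (φ x) (φ y)).map φ.symm)
  simpa using this

theorem rch_lip {u : W → ℤ} (hu : ∀ w w', H.Adj w w' → |u w - u w'| ≤ 1) {n : ℕ} {x y : W}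
    (h : Rch H n x y) : |u x - u y| ≤ n := by
  induction n generalizing y with
  | zero => rw [h.eq_of_zero]; simp
  | succ n ih =>
    obtain ⟨z, hz, ha⟩ := rch_succ h
    have h1 := ih hz
    have h2 := hu _ _ ha
    rw [abs_le] at *
    push_cast
    constructor <;> omega

theorem rch_of_arc {u : W → ℤ} {R : Set W} {x y : W}
    (h : Relation.ReflTransGen (Arc H R u) x y) : ∃ n : ℕ, Rch H n x y ∧ u y = u x + n := by
  induction h with
  | refl => exact ⟨0, Rch.zero _, by simp⟩
  | tail _ h ih =>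
    obtain ⟨n, hn, e⟩ := ih
    exact ⟨n + 1, hn.trans (Rch.single h.2.2.1), by rw [h.2.2.2, e]; push_cast; ring⟩

end general

/-! ### The lexicographic order -/

/-- The lexicographic order. -/
def LL (x y : ℤ × ℤ) : Prop := x.1 < y.1 ∨ (x.1 = y.1 ∧ x.2 ≤ y.2)

theorem LL.add {x y x' y' : ℤ × ℤ} (h : LL x y) (h' : LL x' y') : LL (x + x') (y + y') := by
  simp only [LL, Prod.fst_add, Prod.snd_add] at *
  omega

theorem LL.eq {x y x' y' : ℤ × ℤ} (h : LL x y) (h' : LL x' y') (e : x + x' = y + y') :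
    x = y := by
  have e1 := congrArg Prod.fst e
  have e2 := congrArg Prod.snd e
  simp only [LL, Prod.fst_add, Prod.snd_add] at *
  ext <;> omega

/-! ### Translations -/

theorem translation_add (α β : ℤ × ℤ) (w : V × (ℤ × ℤ)) :
    translation G a ha (α + β) w = translation G a ha α (translation G a ha β w) := by
  show (w.1, w.2 + (α + β)) = (w.1, (w.2 + β) + α)
  rw [add_comm α β, add_assoc]

theorem translation_apply (α : ℤ × ℤ) (w : V × (ℤ × ℤ)) :
    translation G a ha α w = (w.1, w.2 + α) := rfl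

/-- Translations as a homomorphism. -/
def transHom (G : SimpleGraph V) (a : V → V → ℤ × ℤ) (ha : ∀ v w, a w v = - a v w) :
    Multiplicative (ℤ × ℤ) →* (coverGraph G a ha ≃g coverGraph G a ha) where
  toFun γ := translation G a ha γ.toAdd
  map_one' := by
    ext w
    all_goals simp [translation_apply]
  map_mul' x y := by
    apply RelIso.ext
    intro w
    exact translation_add _ _ _

end C1

theorem translation_zpow (α : ℤ × ℤ) (n : ℤ) :
    translation G a ha α ^ n = translation G a ha (n • α) := by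
  have := map_zpow (C1.transHom G a ha) (Multiplicative.ofAdd α) n
  exact this.symm

namespace C1

/-! ### Finiteness, splitting -/

theorem finite_rch [Finite V] (n : ℕ) (w : V × (ℤ × ℤ)) :
    {w' | Rch (coverGraph G a ha) n w w'}.Finite := by
  induction n with
  | zero =>
    refine (Set.finite_singleton w).subset ?_
    intro w' hw'
    exact (Rch.eq_of_zero hw').symm
  | succ n ih =>
    refine (ih.biUnion (fun x _ => finite_cover_neighborSet (G := G) (a := a) (ha := ha) x)).subset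
      ?_
    intro w' hw'
    obtain ⟨z, hz, hadj⟩ := rch_succ hw'
    exact Set.mem_biUnion hz hadj

/-- The translate of a walk. -/
theorem Rch.translate {n : ℕ} {x y : V × (ℤ × ℤ)} (h : Rch (coverGraph G a ha) n x y)
    (γ : ℤ × ℤ) : Rch (coverGraph G a ha) n (x.1, x.2 + γ) (y.1, y.2 + γ) :=
  h.map (translation G a ha γ)

/-- A closed walk that is longer than the number of vertices can be split. -/
theorem split [Fintype V] {n : ℕ} (hn : Fintype.card V < n) {v : V} {z γ : ℤ × ℤ}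
    (h : Rch (coverGraph G a ha) n (v, z) (v, z + γ)) :
    ∃ (m : ℕ) (v' : V) (z' γ' : ℤ × ℤ), 1 ≤ m ∧ m < n ∧
      Rch (coverGraph G a ha) m (v', z') (v', z' + γ') ∧
      Rch (coverGraph G a ha) (n - m) (v, z) (v, z + (γ - γ')) := by
  obtain ⟨p, hp⟩ := h
  obtain ⟨x, y, hxy, hf⟩ := Fintype.exists_ne_map_eq_of_card_lt
    (fun i : Fin (Fintype.card V + 1) => (p.getVert i).1) (by simp)
  have key : ∀ i j : ℕ, i < j → j ≤ Fintype.card V → (p.getVert i).1 = (p.getVert j).1 →
      ∃ (m : ℕ) (v' : V) (z' γ' : ℤ × ℤ), 1 ≤ m ∧ m < n ∧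
      Rch (coverGraph G a ha) m (v', z') (v', z' + γ') ∧
      Rch (coverGraph G a ha) (n - m) (v, z) (v, z + (γ - γ')) := by
    intro i j hij hj e
    have h1 : Rch (coverGraph G a ha) i (v, z) (p.getVert i) := by
      have := rch_seg p (i := 0) i (by omega)
      simpa using this
    have h2 : Rch (coverGraph G a ha) (j - i) (p.getVert i) (p.getVert j) := by
      have := rch_seg p (i := i) (j - i) (by omega)
      rwa [show i + (j - i) = j by omega] at this
    have h3 : Rch (coverGraph G a ha) (n - j) (p.getVert j) (v, z + γ) := by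
      have := rch_seg p (i := j) (n - j) (by omega)
      rw [show j + (n - j) = p.length by omega] at this
      rwa [p.getVert_length] at this
    refine ⟨j - i, (p.getVert i).1, (p.getVert i).2, (p.getVert j).2 - (p.getVert i).2,
      by omega, by omega, ?_, ?_⟩
    · rw [add_sub_cancel]
      nth_rewrite 2 [e]
      exact h2
    · have h4 := h3.translate (-((p.getVert j).2 - (p.getVert i).2))
      have e1 : ((p.getVert j).1, (p.getVert j).2 + -((p.getVert j).2 - (p.getVert i).2)) =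
          p.getVert i := by
        rw [← e]
        ext
        · rfl
        · simp
        · simp
      rw [e1] at h4
      have h5 := h1.trans h4
      have e2 : i + (n - j) = n - (j - i) := by omega
      rw [e2] at h5
      have e3 : z + γ + -((p.getVert j).2 - (p.getVert i).2) =
          z + (γ - ((p.getVert j).2 - (p.getVert i).2)) := by abel
      rw [← e3]
      exact h5
  rcases lt_or_gt_of_ne (fun h => hxy (Fin.ext h) : (x : ℕ) ≠ (y : ℕ)) with hlt | hlt
  · exact key x y hlt (by have := y.2; omega) hf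
  · exact key y x hlt (by have := x.2; omega) hf.symm

/-- The extremal class. -/
theorem exists_extremal [Finite V] (hconn : (coverGraph G a ha).Connected) :
    ∃ (α : ℤ × ℤ) (ℓ : ℕ) (v₀ : V), 0 < ℓ ∧ Rch (coverGraph G a ha) ℓ (v₀, 0) (v₀, α) ∧
      ∀ (n : ℕ) (v : V) (z γ : ℤ × ℤ), Rch (coverGraph G a ha) n (v, z) (v, z + γ) →
        LL ((ℓ : ℤ) • γ) ((n : ℤ) • α) := by
  classical
  obtain ⟨⟨v₁, z₁⟩⟩ := hconn.nonempty
  have : Fintype V := Fintype.ofFinite V
  obtain ⟨p₁⟩ := hconn (v₁, (0 : ℤ × ℤ)) (v₁, ((1, 0) : ℤ × ℤ))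
  set N := max (Fintype.card V) p₁.length with hN
  set S : Set ((ℤ × ℤ) × ℕ) := {x | 1 ≤ x.2 ∧ x.2 ≤ N ∧ ∃ v : V,
    Rch (coverGraph G a ha) x.2 (v, 0) (v, x.1)} with hS
  have hp₁ : 1 ≤ p₁.length := by
    rcases Nat.eq_zero_or_pos p₁.length with h | h
    · have := Walk.eq_of_length_eq_zero h
      have := congrArg (fun x => x.2.1) this
      simp at this
    · exact h
  have hSne : S.Nonempty := ⟨(((1, 0) : ℤ × ℤ), p₁.length), hp₁, le_max_right _ _, v₁, p₁, rfl⟩
  have hSfin : S.Finite := by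
    have hfin : (⋃ n ∈ (Set.Iic N : Set ℕ), ⋃ v ∈ (Set.univ : Set V),
        (fun w : V × (ℤ × ℤ) => (w.2, n)) '' {w' | Rch (coverGraph G a ha) n (v, 0) w'}).Finite :=
      (Set.finite_Iic N).biUnion (fun n _ => Set.finite_univ.biUnion (fun v _ =>
        (finite_rch n _).image _))
    refine hfin.subset ?_
    rintro ⟨γ, n⟩ ⟨_, h2, v, h3⟩
    refine Set.mem_biUnion (Set.mem_Iic.2 h2) (Set.mem_biUnion (Set.mem_univ v) ?_)
    exact ⟨(v, γ), h3, rfl⟩
  obtain ⟨⟨α, ℓ⟩, ⟨hℓ, hℓN, v₀, hα⟩, hmax⟩ := Set.exists_max_image S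
    (fun x => (toLex ((x.1.1 : ℚ) / x.2, (x.1.2 : ℚ) / x.2) : ℚ ×ₗ ℚ)) hSfin hSne
  refine ⟨α, ℓ, v₀, hℓ, hα, ?_⟩
  intro n
  induction n using Nat.strong_induction_on with
  | _ n ih =>
  intro v z γ hw
  rcases Nat.eq_zero_or_pos n with h0 | hn0
  · subst h0
    have := hw.eq_of_zero
    have e : z = z + γ := congrArg Prod.snd this
    have e' : γ = 0 := by
      have := e.symm
      rwa [add_eq_left] at this
    subst e'
    right
    simp
  · rcases le_or_gt n (Fintype.card V) with hle | hgt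
    · have hmem : ((γ, n) : (ℤ × ℤ) × ℕ) ∈ S := by
        refine ⟨hn0, hle.trans (le_max_left _ _), v, ?_⟩
        have := hw.translate (-z)
        simpa using this
      have h := hmax _ hmem
      have hℓ' : (0 : ℚ) < ℓ := by exact_mod_cast hℓ
      have hn' : (0 : ℚ) < n := by exact_mod_cast hn0
      rw [Prod.Lex.le_iff] at h
      simp only [ofLex_toLex] at h
      rcases h with h | ⟨h1, h2⟩
      · left
        rw [div_lt_div_iff₀ hn' hℓ'] at h
        simp only [Prod.smul_fst, smul_eq_mul]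
        have : γ.1 * (ℓ : ℤ) < α.1 * (n : ℤ) := by exact_mod_cast h
        linarith
      · right
        rw [div_eq_div_iff hn'.ne' hℓ'.ne'] at h1
        rw [div_le_div_iff₀ hn' hℓ'] at h2
        simp only [Prod.smul_fst, Prod.smul_snd, smul_eq_mul]
        have e1 : γ.1 * (ℓ : ℤ) = α.1 * (n : ℤ) := by exact_mod_cast h1
        have e2 : γ.2 * (ℓ : ℤ) ≤ α.2 * (n : ℤ) := by exact_mod_cast h2
        constructor <;> linarith
    · obtain ⟨m, v', z', γ', hm1, hmn, hA, hB⟩ := split hgt hw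
      have h1 := ih m hmn v' z' γ' hA
      have h2 := ih (n - m) (by omega) v z (γ - γ') hB
      have h3 := h1.add h2
      have e1 : (ℓ : ℤ) • γ' + (ℓ : ℤ) • (γ - γ') = (ℓ : ℤ) • γ := by
        rw [← smul_add]; congr 1; abel
      have e2 : (m : ℤ) • α + ((n - m : ℕ) : ℤ) • α = (n : ℤ) • α := by
        rw [← add_smul]
        congr 1
        have := hmn.le
        push_cast [Nat.cast_sub this]
        ring
      rwa [e1, e2] at h3

end C1

/-- The extremal class. Among the pairs `(γ, n)` such that there is a walk of length `n ≥ 1` from some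
`(v, z)` to `(v, z + γ)`, `n ≤ |V|`, choose `(α, ℓ)` with `γ / n` maximal in the lexicographic order
(compare `m • γ` and `n • γ'`). Then `ℓ • γ ≤ n • α` (lexicographically) for all closed walks (split
off simple ones). `u w = min over n of (n ℓ + dist (w₀ + n α, w))`. -/
theorem extremal [Finite V] (hconn : (coverGraph G a ha).Connected) :
    ∃ (α : ℤ × ℤ) (ℓ : ℤ) (u : V × (ℤ × ℤ) → ℤ), α ≠ 0 ∧ 0 < ℓ ∧
      (∀ w w', (coverGraph G a ha).Adj w w' → |u w - u w'| ≤ 1) ∧
      (∀ w, u (translation G a ha α w) = u w + ℓ) ∧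
      (∃ P : ℤ → V × (ℤ × ℤ), Calib (coverGraph G a ha) u P ∧
        ∀ t, P (t + ℓ) = translation G a ha α (P t)) ∧
      ∀ (w : V × (ℤ × ℤ)) (γ : ℤ × ℤ) (k : ℤ),
        Relation.ReflTransGen (Arc (coverGraph G a ha) Set.univ u) w
          (translation G a ha γ w) →
        Relation.ReflTransGen (Arc (coverGraph G a ha) Set.univ u) (translation G a ha γ w)
          (translation G a ha (k • α) w) → det2 α γ = 0 := by
  classical
  obtain ⟨α, ℓ, v₀, hℓ, hα, hmax⟩ := C1.exists_extremal hconn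
  have hℓ' : (0 : ℤ) < (ℓ : ℤ) := by exact_mod_cast hℓ
  -- α is positive
  have hαpos : 0 < α.1 ∨ (0 = α.1 ∧ 0 < α.2) := by
    obtain ⟨p₁⟩ := hconn (v₀, (0 : ℤ × ℤ)) (v₀, (0 : ℤ × ℤ) + ((1, 0) : ℤ × ℤ))
    have h := hmax p₁.length v₀ 0 (1, 0) ⟨p₁, rfl⟩
    simp only [C1.LL, Prod.smul_fst, Prod.smul_snd, smul_eq_mul, mul_one, mul_zero] at h
    left
    have hn : (0 : ℤ) ≤ p₁.length := by positivity
    have : 0 < (p₁.length : ℤ) * α.1 := by
      rcases h with h | ⟨h, _⟩ <;> omega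
    by_contra hc
    push Not at hc
    nlinarith
  have hα0 : α ≠ 0 := by
    rintro rfl
    simp at hαpos
  set H := coverGraph G a ha with hH
  set A := translation G a ha α with hA
  set w₀ : V × (ℤ × ℤ) := (v₀, 0) with hw₀
  -- the translates of w₀
  have hAz : ∀ (n : ℤ) (w : V × (ℤ × ℤ)), (A ^ n) w = (w.1, w.2 + n • α) := by
    intro n w
    rw [hA, translation_zpow]
    rfl
  -- distance lower bound
  have hdist : ∀ (w : V × (ℤ × ℤ)) (n : ℕ), ((n * ℓ : ℕ) : ℤ) ≤ H.dist w ((A ^ (n : ℤ)) w) := by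
    intro w n
    rw [hAz]
    have h := hmax _ w.1 w.2 ((n : ℤ) • α) (C1.rch_dist hconn (w.1, w.2) (w.1, w.2 + (n : ℤ) • α))
    set d := (coverGraph G a ha).dist (w.1, w.2) (w.1, w.2 + (n : ℤ) • α) with hd
    simp only [C1.LL, Prod.smul_fst, Prod.smul_snd, smul_eq_mul] at h
    push_cast
    by_contra hc
    push Not at hc
    rcases hαpos with hp | ⟨hp0, hp⟩
    · have h1 : (d : ℤ) * α.1 < (n : ℤ) * ℓ * α.1 := by nlinarith
      have h2 : (ℓ : ℤ) * ((n : ℤ) * α.1) = (n : ℤ) * ℓ * α.1 := by ring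
      rcases h with h | ⟨h, _⟩ <;> omega
    · have h1 : (d : ℤ) * α.2 < (n : ℤ) * ℓ * α.2 := by nlinarith
      have h2 : (ℓ : ℤ) * ((n : ℤ) * α.2) = (n : ℤ) * ℓ * α.2 := by ring
      rw [← hp0] at h
      simp only [mul_zero] at h
      rcases h with h | ⟨_, h⟩ <;> omega
  -- the potential
  set Sv : V × (ℤ × ℤ) → Set ℤ := fun w =>
    Set.range (fun n : ℤ => n * ℓ + (H.dist ((A ^ n) w₀) w : ℤ)) with hSv
  have hSne : ∀ w, (Sv w).Nonempty := fun w => Set.range_nonempty _
  have hdist_tr : ∀ (n : ℤ) (x y : V × (ℤ × ℤ)), H.dist ((A ^ n) x) ((A ^ n) y) = H.dist x y :=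
    fun n x y => C1.dist_map (A ^ n) hconn x y
  have hlow : ∀ w n, -(H.dist w₀ w : ℤ) ≤ n * ℓ + (H.dist ((A ^ n) w₀) w : ℤ) := by
    intro w n
    rcases le_total 0 n with hn | hn
    · have h1 : 0 ≤ n * (ℓ : ℤ) := by positivity
      have h2 : (0 : ℤ) ≤ (H.dist ((A ^ n) w₀) w : ℤ) := by positivity
      have h3 : (0 : ℤ) ≤ (H.dist w₀ w : ℤ) := by positivity
      omega
    · obtain ⟨k, rfl⟩ : ∃ k : ℕ, n = -(k : ℤ) := ⟨n.natAbs, by omega⟩
      have h1 := hdist ((A ^ (-(k : ℤ))) w₀) k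
      have e : (A ^ (k : ℤ)) ((A ^ (-(k : ℤ))) w₀) = w₀ := by
        rw [hAz, hAz]
        ext <;> simp
      rw [e] at h1
      have h2 : H.dist ((A ^ (-(k : ℤ))) w₀) w₀ ≤
          H.dist ((A ^ (-(k : ℤ))) w₀) w + H.dist w w₀ := hconn.dist_triangle
      have h3 : H.dist w w₀ = H.dist w₀ w := dist_comm
      push_cast at h1
      rw [h3] at h2
      have h2' : (H.dist ((A ^ (-(k : ℤ))) w₀) w₀ : ℤ) ≤
          (H.dist ((A ^ (-(k : ℤ))) w₀) w : ℤ) + (H.dist w₀ w : ℤ) := by exact_mod_cast h2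
      have e3 : -(k : ℤ) * (ℓ : ℤ) = -((k : ℤ) * ℓ) := by ring
      rw [e3]
      omega
  have hbdd : ∀ w, BddBelow (Sv w) := by
    intro w
    refine ⟨-(H.dist w₀ w : ℤ), ?_⟩
    rintro x ⟨n, rfl⟩
    exact hlow w n
  set u : V × (ℤ × ℤ) → ℤ := fun w => sInf (Sv w) with hu
  have hule : ∀ w n, u w ≤ n * ℓ + (H.dist ((A ^ n) w₀) w : ℤ) := fun w n =>
    csInf_le (hbdd w) ⟨n, rfl⟩
  have humem : ∀ w, ∃ n : ℤ, n * ℓ + (H.dist ((A ^ n) w₀) w : ℤ) = u w := fun w =>
    Int.csInf_mem (hSne w) (hbdd w)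
  have hlip1 : ∀ w w', H.Adj w w' → u w' ≤ u w + 1 := by
    intro w w' hw
    obtain ⟨n, hn⟩ := humem w
    have h1 := hule w' n
    have h2 : H.dist ((A ^ n) w₀) w' ≤ H.dist ((A ^ n) w₀) w + H.dist w w' :=
      hconn.dist_triangle
    have h3 : H.dist w w' = 1 := dist_eq_one_iff_adj.2 hw
    rw [h3] at h2
    omega
  have hlip : ∀ w w', H.Adj w w' → |u w - u w'| ≤ 1 := by
    intro w w' hw
    have h1 := hlip1 w w' hw
    have h2 := hlip1 w' w hw.symm
    rw [abs_le]
    constructor <;> omega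
  have hAsucc : ∀ (n : ℤ) (w : V × (ℤ × ℤ)), (A ^ (n + 1)) w = A ((A ^ n) w) := by
    intro n w
    rw [add_comm, zpow_add, zpow_one]
    rfl
  have huA : ∀ w, u (A w) = u w + ℓ := by
    intro w
    apply le_antisymm
    · obtain ⟨n, hn⟩ := humem w
      have h1 := hule (A w) (n + 1)
      have h2 : H.dist ((A ^ (n + 1)) w₀) (A w) = H.dist ((A ^ n) w₀) w := by
        rw [hAsucc]
        exact C1.dist_map A hconn _ _
      rw [h2] at h1
      have : (n + 1) * (ℓ : ℤ) = n * ℓ + ℓ := by ring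
      omega
    · obtain ⟨n, hn⟩ := humem (A w)
      have h1 := hule w (n - 1)
      have h2 : H.dist ((A ^ n) w₀) (A w) = H.dist ((A ^ (n - 1)) w₀) w := by
        have : (A ^ n) w₀ = A ((A ^ (n - 1)) w₀) := by
          rw [← hAsucc]; congr 2; ring
        rw [this]
        exact C1.dist_map A hconn _ _
      rw [h2] at hn
      have : (n - 1) * (ℓ : ℤ) = n * ℓ - ℓ := by ring
      omega
  have huAn : ∀ (n : ℤ) w, u ((A ^ n) w) = u w + n * ℓ := by
    intro n w
    induction n using Int.induction_on with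
    | zero => simp
    | succ n ih =>
      rw [hAsucc, huA, ih]
      ring
    | pred n ih =>
      have h1 := huA ((A ^ (-(n : ℤ) - 1)) w)
      rw [← hAsucc] at h1
      have e : -(n : ℤ) - 1 + 1 = -(n : ℤ) := by ring
      rw [e, ih] at h1
      have : (-(n : ℤ) - 1) * (ℓ : ℤ) = -(n : ℤ) * ℓ - ℓ := by ring
      omega
  have hu0 : u w₀ = 0 := by
    apply le_antisymm
    · have := hule w₀ 0
      simpa using this
    · obtain ⟨n, hn⟩ := humem w₀
      have := hlow w₀ n
      rw [hn] at this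
      simpa using this
  have hn1 : ∀ (n : ℕ) (x y : V × (ℤ × ℤ)), C1.Rch H n x y → |u x - u y| ≤ n :=
    fun n x y h => C1.rch_lip hlip h
  -- the line
  obtain ⟨p, hp⟩ := hα
  refine ⟨α, ℓ, u, hα0, hℓ', hlip, huA, ?_, ?_⟩
  · set P : ℤ → V × (ℤ × ℤ) := fun t => (A ^ (t / ℓ)) (p.getVert (t % ℓ).toNat) with hP
    have hPper : ∀ t, P (t + ℓ) = A (P t) := by
      intro t
      simp only [hP]
      rw [Int.add_ediv_of_dvd_right (dvd_refl _), Int.ediv_self hℓ'.ne', Int.add_emod_right,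
        hAsucc]
    refine ⟨P, ⟨?_, ?_⟩, hPper⟩
    · intro t
      simp only [hP]
      have hr0 := Int.emod_nonneg t hℓ'.ne'
      have hr1 := Int.emod_lt_of_pos t hℓ'
      have hqr := Int.mul_ediv_add_emod t ℓ
      set q := t / (ℓ : ℤ) with hq
      set r := t % (ℓ : ℤ) with hr
      rcases lt_or_ge (r + 1) (ℓ : ℤ) with hlt | hge
      · have e1 : (t + 1) / (ℓ : ℤ) = q := by
          rw [Int.ediv_eq_iff_of_pos hℓ']
          constructor <;> nlinarith
        have e2 : (t + 1) % (ℓ : ℤ) = r + 1 := by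
          have := Int.mul_ediv_add_emod (t + 1) ℓ
          rw [e1] at this
          omega
        rw [e1, e2]
        have e3 : (r + 1).toNat = r.toNat + 1 := by omega
        rw [e3]
        exact (A ^ q).map_adj_iff.2 (p.adj_getVert_succ (by omega))
      · have hre : r + 1 = ℓ := by omega
        have e1 : (t + 1) / (ℓ : ℤ) = q + 1 := by
          rw [Int.ediv_eq_iff_of_pos hℓ']
          constructor <;> nlinarith
        have e2 : (t + 1) % (ℓ : ℤ) = 0 := by
          have := Int.mul_ediv_add_emod (t + 1) ℓ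
          rw [e1] at this
          have h' : (ℓ : ℤ) * (q + 1) = ℓ * q + ℓ := by ring
          omega
        rw [e1, e2]
        have e3 : (A ^ (q + 1)) (p.getVert (0 : ℤ).toNat) =
            (A ^ q) (p.getVert (r.toNat + 1)) := by
          have e4 : r.toNat + 1 = p.length := by omega
          rw [e4, p.getVert_length]
          have e5 : p.getVert (0 : ℤ).toNat = (v₀, 0) := by
            simp [hw₀]
          rw [e5, hAz, hAz]
          ext
          · rfl
          · simp; ring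
          · simp; ring
        rw [e3]
        exact (A ^ q).map_adj_iff.2 (p.adj_getVert_succ (by omega))
    · intro t
      simp only [hP]
      rw [huAn]
      have hr0 := Int.emod_nonneg t hℓ'.ne'
      have hr1 := Int.emod_lt_of_pos t hℓ'
      have hqr := Int.mul_ediv_add_emod t ℓ
      set q := t / (ℓ : ℤ) with hq
      set r := t % (ℓ : ℤ) with hr
      have h1 := C1.rch_seg p (i := 0) r.toNat (by omega)
      have h2 := C1.rch_seg p (i := r.toNat) (p.length - r.toNat) (by omega)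
      rw [show r.toNat + (p.length - r.toNat) = p.length by omega, p.getVert_length] at h2
      rw [zero_add, p.getVert_zero] at h1
      have h3 := hn1 _ _ _ h1
      have h4 := hn1 _ _ _ h2
      have h5 : u (v₀, α) = ℓ := by
        have : ((v₀, α) : V × (ℤ × ℤ)) = A w₀ := by
          rw [hA, C1.translation_apply]
          simp [hw₀]
        rw [this, huA, hu0, zero_add]
      have h6 : u (v₀, 0) = 0 := hu0
      rw [h6] at h3
      rw [h5] at h4
      rw [abs_le] at h3 h4
      have e : q * (ℓ : ℤ) = ℓ * q := by ring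
      rw [e]
      omega
  · intro w γ k h1 h2
    obtain ⟨n1, hr1, e1⟩ := C1.rch_of_arc h1
    obtain ⟨n2, hr2, e2⟩ := C1.rch_of_arc h2
    have hk : u (translation G a ha (k • α) w) = u w + k * ℓ := by
      rw [← translation_zpow, ← hA, huAn]
    rw [hk, e1] at e2
    have i1 := hmax n1 w.1 w.2 γ hr1
    have i2 := hmax n2 w.1 (w.2 + γ) (k • α - γ) (by
      have : w.2 + γ + (k • α - γ) = w.2 + k • α := by abel
      rw [this]
      exact hr2)
    have e3 : (ℓ : ℤ) • γ + (ℓ : ℤ) • (k • α - γ) = (n1 : ℤ) • α + (n2 : ℤ) • α := by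
      rw [← smul_add, ← add_smul, add_sub_cancel, smul_smul]
      congr 1
      have : k * (ℓ : ℤ) = n1 + n2 := by omega
      rw [← this]; ring
    have e4 := i1.eq i2 e3
    have f1 : (ℓ : ℤ) * γ.1 = n1 * α.1 := by
      have := congrArg Prod.fst e4
      simpa using this
    have f2 : (ℓ : ℤ) * γ.2 = n1 * α.2 := by
      have := congrArg Prod.snd e4
      simpa using this
    have f3 : (ℓ : ℤ) * det2 α γ = 0 := by
      unfold det2
      have : (ℓ : ℤ) * (α.1 * γ.2 - α.2 * γ.1) = α.1 * ((ℓ : ℤ) * γ.2) - α.2 * ((ℓ : ℤ) * γ.1) := by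
        ring
      rw [this, f1, f2]
      ring
    rcases mul_eq_zero.1 f3 with h | h
    · exact absurd h hℓ'.ne'
    · exact h

end Pool.Agent.MP_f5837d_co

/-!
# Task E2: the two ends of the cover

`hgt (v, z) = det2 α z`. `up`: from `w` go `k` times the translate of a fixed path `w → w + e`, `e` a
coordinate vector with `det2 α e > 0`, then a translate of a fixed path `w + k e → w' + k e`, then back
to `w'`; `K` bounds the heights of the finitely many fixed paths between `(v, 0)` and `(v, e)`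
(a path from `w` to `w'` with large height in the middle exists for `k` large; only the first
and the last part come near the minimum).
-/


namespace Pool.Agent.MP_f5837d_co

open SimpleGraph

variable {V : Type*} {G : SimpleGraph V} {a : V → V → ℤ × ℤ} {ha : ∀ v w, a w v = - a v w}

namespace E2

theorem det2_add (α β γ : ℤ × ℤ) : det2 α (β + γ) = det2 α β + det2 α γ := by
  simp only [det2, Prod.fst_add, Prod.snd_add]; ring

theorem det2_self (α : ℤ × ℤ) : det2 α α = 0 := by
  simp only [det2]; ring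

theorem det2_nsmul (α β : ℤ × ℤ) (k : ℕ) : det2 α (k • β) = k * det2 α β := by
  simp only [det2, Prod.smul_fst, Prod.smul_snd]
  simp only [nsmul_eq_mul]
  ring

theorem det2_neg_left (α β : ℤ × ℤ) : det2 (-α) β = - det2 α β := by
  simp only [det2, Prod.fst_neg, Prod.snd_neg]; ring

/-- There is a walk along which the height is at least `m`. -/
def Good (G : SimpleGraph V) (a : V → V → ℤ × ℤ) (ha : ∀ v w, a w v = - a v w) (α : ℤ × ℤ)
    (m : ℤ) (w w' : V × (ℤ × ℤ)) : Prop :=
  ∃ p : (coverGraph G a ha).Walk w w', ∀ x ∈ p.support, m ≤ det2 α x.2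

theorem Good.mono {α : ℤ × ℤ} {m m' : ℤ} {w w' : V × (ℤ × ℤ)} (h : Good G a ha α m w w')
    (hm : m' ≤ m) : Good G a ha α m' w w' := by
  obtain ⟨p, hp⟩ := h
  exact ⟨p, fun x hx => hm.trans (hp x hx)⟩

theorem Good.symm {α : ℤ × ℤ} {m : ℤ} {w w' : V × (ℤ × ℤ)} (h : Good G a ha α m w w') :
    Good G a ha α m w' w := by
  obtain ⟨p, hp⟩ := h
  refine ⟨p.reverse, fun x hx => hp x ?_⟩
  rwa [Walk.support_reverse, List.mem_reverse] at hx

theorem Good.trans {α : ℤ × ℤ} {m : ℤ} {w w' w'' : V × (ℤ × ℤ)} (h : Good G a ha α m w w')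
    (h' : Good G a ha α m w' w'') : Good G a ha α m w w'' := by
  obtain ⟨p, hp⟩ := h
  obtain ⟨q, hq⟩ := h'
  refine ⟨p.append q, fun x hx => ?_⟩
  rcases (Walk.mem_support_append_iff p q).1 hx with h | h
  · exact hp x h
  · exact hq x h

theorem Good.refl {α : ℤ × ℤ} {m : ℤ} {w : V × (ℤ × ℤ)} (h : m ≤ det2 α w.2) :
    Good G a ha α m w w := by
  refine ⟨Walk.nil, fun x hx => ?_⟩
  simp only [Walk.support_nil, List.mem_singleton] at hx
  rwa [hx]

theorem Good.shift {α : ℤ × ℤ} {m : ℤ} {w w' : V × (ℤ × ℤ)} (h : Good G a ha α m w w')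
    (γ : ℤ × ℤ) : Good G a ha α (m + det2 α γ) (w.1, w.2 + γ) (w'.1, w'.2 + γ) := by
  obtain ⟨p, hp⟩ := h
  refine ⟨p.map (translation G a ha γ).toHom, fun x hx => ?_⟩
  have hx' : x ∈ p.support.map (translation G a ha γ).toHom := by
    rw [← Walk.support_map]; exact hx
  rw [List.mem_map] at hx'
  obtain ⟨y, hy, rfl⟩ := hx'
  have := hp y hy
  show m + det2 α γ ≤ det2 α (y.2 + γ)
  rw [det2_add]
  omega

/-- Every walk has some lower bound. -/
theorem exists_good (hconn : (coverGraph G a ha).Connected) (α : ℤ × ℤ) (w w' : V × (ℤ × ℤ)) :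
    ∃ m, Good G a ha α m w w' := by
  obtain ⟨p⟩ := hconn.preconnected w w'
  have hfin : (((fun x : V × (ℤ × ℤ) => det2 α x.2) '' {x | x ∈ p.support})).Finite :=
    (List.finite_toSet p.support).image _
  obtain ⟨m, hm⟩ := hfin.bddBelow
  exact ⟨m, p, fun x hx => hm ⟨x, hx, rfl⟩⟩

/-- The constant for the paths from `(v, 0)` to `(v, e)`. -/
theorem exists_step [Finite V] (hconn : (coverGraph G a ha).Connected) (α e : ℤ × ℤ) :
    ∃ K : ℤ, 0 ≤ K ∧ ∀ w : V × (ℤ × ℤ),
      Good G a ha α (det2 α w.2 - K) w (w.1, w.2 + e) := by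
  have h1 : ∀ v : V, ∃ m, Good G a ha α m (v, 0) (v, e) := fun v => exists_good hconn α _ _
  choose m hm using h1
  obtain ⟨b, hb⟩ := (Set.finite_range m).bddBelow
  refine ⟨max 0 (-b), le_max_left _ _, fun w => ?_⟩
  have h2 := (hm w.1).shift w.2
  have h3 : b ≤ m w.1 := hb ⟨w.1, rfl⟩
  have h4 : ((w.1 : V), (0 : ℤ × ℤ) + w.2) = w := by simp
  simp only at h2
  rw [h4, add_comm e w.2] at h2
  refine h2.mono ?_
  have := le_max_right 0 (-b)
  omega

theorem steps {α e : ℤ × ℤ} (he : 0 ≤ det2 α e) {K : ℤ} (hK : 0 ≤ K)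
    (h : ∀ w : V × (ℤ × ℤ), Good G a ha α (det2 α w.2 - K) w (w.1, w.2 + e))
    (w : V × (ℤ × ℤ)) (k : ℕ) : Good G a ha α (det2 α w.2 - K) w (w.1, w.2 + k • e) := by
  induction k with
  | zero =>
    have : ((w.1 : V), w.2 + 0 • e) = w := by simp
    rw [this]
    exact Good.refl (by omega)
  | succ k ih =>
    refine ih.trans ?_
    have h1 := h (w.1, w.2 + k • e)
    have h2 : w.2 + k • e + e = w.2 + (k + 1) • e := by rw [add_assoc, succ_nsmul]
    simp only at h1
    rw [h2] at h1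
    refine h1.mono ?_
    rw [det2_add, det2_nsmul]
    have : 0 ≤ (k : ℤ) * det2 α e := by positivity
    omega

theorem exists_dir {α : ℤ × ℤ} (hα : α ≠ 0) : ∃ e : ℤ × ℤ, 0 < det2 α e := by
  rcases lt_trichotomy α.1 0 with h | h | h
  · exact ⟨(0, -1), by simp only [det2]; omega⟩
  · rcases lt_trichotomy α.2 0 with h' | h' | h'
    · exact ⟨(1, 0), by simp only [det2]; omega⟩
    · exact absurd (Prod.ext h h') hα
    · exact ⟨(-1, 0), by simp only [det2]; omega⟩
  · exact ⟨(0, 1), by simp only [det2]; omega⟩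

theorem up [Finite V] (hconn : (coverGraph G a ha).Connected) {α : ℤ × ℤ} (hα : α ≠ 0) :
    ∃ K : ℤ, 0 ≤ K ∧ ∀ w w' : V × (ℤ × ℤ),
      Good G a ha α (min (det2 α w.2) (det2 α w'.2) - K) w w' := by
  obtain ⟨e, he⟩ := exists_dir hα
  obtain ⟨K, hK, hst⟩ := exists_step (G := G) (ha := ha) hconn α e
  refine ⟨K, hK, fun w w' => ?_⟩
  obtain ⟨m, hm⟩ := exists_good hconn α w w'
  set M := min (det2 α w.2) (det2 α w'.2) with hM
  obtain ⟨k, hk⟩ : ∃ k : ℕ, M - K ≤ m + k * det2 α e := by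
    refine ⟨(M - K - m).toNat, ?_⟩
    have h1 : M - K - m ≤ ((M - K - m).toNat : ℤ) := Int.self_le_toNat _
    nlinarith [Int.natCast_nonneg (M - K - m).toNat]
  have h1 : Good G a ha α (M - K) w (w.1, w.2 + k • e) :=
    (steps he.le hK hst w k).mono (by have := min_le_left (det2 α w.2) (det2 α w'.2); omega)
  have h2 : Good G a ha α (M - K) w' (w'.1, w'.2 + k • e) :=
    (steps he.le hK hst w' k).mono (by have := min_le_right (det2 α w.2) (det2 α w'.2); omega)
  have h3 : Good G a ha α (M - K) (w.1, w.2 + k • e) (w'.1, w'.2 + k • e) :=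
    (hm.shift (k • e)).mono (by rw [det2_nsmul]; exact hk)
  exact (h1.trans h3).trans h2.symm

/-- The finiteness of the band modulo the translation. -/
theorem fin [Finite V] {α : ℤ × ℤ} (hα : α ≠ 0) {ℓ : ℤ} (hℓ : 0 < ℓ) {u : V × (ℤ × ℤ) → ℤ}
    (huA : ∀ w, u (translation G a ha α w) = u w + ℓ) (M : ℤ) :
    {w : V × (ℤ × ℤ) | |det2 α w.2| ≤ M ∧ 0 ≤ u w ∧ u w < ℓ}.Finite := by
  -- the period in terms of the scalar product
  set n : ℤ := α.1 * α.1 + α.2 * α.2 with hn
  have hn0 : 0 < n := by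
    rcases eq_or_ne α.1 0 with h | h
    · have h2 : α.2 ≠ 0 := fun h2 => hα (Prod.ext h h2)
      have := mul_self_pos.2 h2
      nlinarith [mul_self_nonneg α.1]
    · have := mul_self_pos.2 h
      nlinarith [mul_self_nonneg α.2]
  let dot : ℤ × ℤ → ℤ := fun z => α.1 * z.1 + α.2 * z.2
  have huk : ∀ (k : ℕ) (w : V × (ℤ × ℤ)), u (w.1, w.2 + k • α) = u w + k * ℓ := by
    intro k w
    induction k with
    | zero => simp
    | succ k ih =>
      have h1 := huA (w.1, w.2 + k • α)
      have h2 : translation G a ha α (w.1, w.2 + k • α) = (w.1, w.2 + (k + 1) • α) := by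
        show (w.1, w.2 + k • α + α) = _
        rw [add_assoc, succ_nsmul]
      rw [h2, ih] at h1
      rw [h1]; push_cast; ring
  -- two points of the band with the same data are equal
  have hinj : Set.InjOn (fun w : V × (ℤ × ℤ) => (w.1, det2 α w.2, dot w.2 % n))
      {w : V × (ℤ × ℤ) | |det2 α w.2| ≤ M ∧ 0 ≤ u w ∧ u w < ℓ} := by
    rintro ⟨v, z⟩ ⟨-, h1, h2⟩ ⟨v', z'⟩ ⟨-, h1', h2'⟩ h
    simp only [Prod.mk.injEq] at h
    obtain ⟨rfl, hd, hm⟩ := h
    obtain ⟨k, hk⟩ := Int.ModEq.dvd (show dot z ≡ dot z' [ZMOD n] from hm)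
    have hz1 : z'.1 = z.1 + k * α.1 := by
      have e1 : α.1 * z'.2 - α.2 * z'.1 = α.1 * z.2 - α.2 * z.1 := hd.symm
      have e2 : α.1 * z'.1 + α.2 * z'.2 - (α.1 * z.1 + α.2 * z.2) = n * k := hk
      have : n * (z'.1 - (z.1 + k * α.1)) = 0 := by
        rw [hn] at e2 ⊢
        linear_combination α.1 * e2 - α.2 * e1
      rcases mul_eq_zero.1 this with h | h
      · exact absurd h hn0.ne'
      · omega
    have hz2 : z'.2 = z.2 + k * α.2 := by
      have e1 : α.1 * z'.2 - α.2 * z'.1 = α.1 * z.2 - α.2 * z.1 := hd.symm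
      have e2 : α.1 * z'.1 + α.2 * z'.2 - (α.1 * z.1 + α.2 * z.2) = n * k := hk
      have : n * (z'.2 - (z.2 + k * α.2)) = 0 := by
        rw [hn] at e2 ⊢
        linear_combination α.2 * e2 + α.1 * e1
      rcases mul_eq_zero.1 this with h | h
      · exact absurd h hn0.ne'
      · omega
    have hu : u (v, z') = u (v, z) + k * ℓ := by
      rcases le_total 0 k with h0 | h0
      · obtain ⟨j, rfl⟩ := Int.eq_ofNat_of_zero_le h0
        have := huk j (v, z)
        simp only at this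
        rw [← this]
        congr 2
        ext <;> simp [hz1, hz2]
      · obtain ⟨j, hj⟩ := Int.eq_ofNat_of_zero_le (neg_nonneg.2 h0)
        have hkj : k = -(j : ℤ) := by omega
        have := huk j (v, z')
        simp only at this
        have e : z' + j • α = z := by
          ext
          · simp [hz1, hkj]
          · simp [hz2, hkj]
        rw [e] at this
        rw [hkj]; linarith
    have hk0 : k = 0 := by
      rw [hu] at h1' h2'
      by_contra hne
      rcases lt_or_gt_of_ne hne with h | h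
      · nlinarith
      · nlinarith
    subst hk0
    have : z' = z := Prod.ext (by simpa using hz1) (by simpa using hz2)
    rw [this]
  refine Set.Finite.of_finite_image ?_ hinj
  refine Set.Finite.subset
    ((Set.finite_univ (α := V)).prod ((Set.finite_Icc (-M) M).prod (Set.finite_Ico 0 n))) ?_
  rintro _ ⟨w, ⟨hw, -, -⟩, rfl⟩
  refine ⟨Set.mem_univ _, ?_, ?_⟩
  · exact abs_le.1 hw
  · exact ⟨Int.emod_nonneg _ hn0.ne', Int.emod_lt_of_pos _ hn0⟩

end E2

/-! ## Task E2 -/

/-- The cover has two ends with respect to the height `det2 α ·`. -/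
theorem cover_ends [Finite V] (hconn : (coverGraph G a ha).Connected)
    (Pl : Plane (coverGraph G a ha)) (hf : ∃ m : ℕ, 0 < m ∧ Pl.toRotationSystem.face ^ m = 1)
    {α : ℤ × ℤ} (hα : α ≠ 0) {ℓ : ℤ} (hℓ : 0 < ℓ) {u : V × (ℤ × ℤ) → ℤ}
    (hu : ∀ w w', (coverGraph G a ha).Adj w w' → |u w - u w'| ≤ 1)
    (huA : ∀ w, u (translation G a ha α w) = u w + ℓ) :
    ∃ K, Ends Pl (translation G a ha α) ℓ u (fun w => det2 α w.2) K := by
  obtain ⟨K1, hK1, h1⟩ := E2.up (G := G) (ha := ha) hconn hα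
  obtain ⟨K2, hK2, h2⟩ := E2.up (G := G) (ha := ha) hconn (neg_ne_zero.2 hα)
  obtain ⟨K3, hK3⟩ : ∃ K3 : ℤ, ∀ v w : V, |det2 α (a v w)| ≤ K3 := by
    obtain ⟨b, hb⟩ := (Set.finite_range (fun p : V × V => |det2 α (a p.1 p.2)|)).bddAbove
    exact ⟨b, fun v w => hb ⟨(v, w), rfl⟩⟩
  obtain ⟨w0⟩ := hconn.nonempty
  have hK3' : 0 ≤ K3 := (abs_nonneg _).trans (hK3 w0.1 w0.1)
  refine ⟨K1 + K2 + K3, ⟨?_, ?_, ?_, ?_, ?_, ?_, hf⟩⟩
  · intro w
    show det2 α (w.2 + α) = det2 α w.2
    rw [E2.det2_add, E2.det2_self, add_zero]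
  · rintro w w' ⟨-, h⟩
    have e : det2 α w'.2 = det2 α w.2 + det2 α (a w.1 w'.1) := by rw [h, E2.det2_add]
    have := hK3 w.1 w'.1
    rw [e, sub_add_cancel_left, abs_neg]
    omega
  · intro M
    exact E2.fin hα hℓ huA M
  · intro w w'
    obtain ⟨p, hp⟩ := h1 w w'
    exact ⟨p, fun x hx => (by have := hp x hx; omega)⟩
  · intro w w'
    obtain ⟨p, hp⟩ := h2 w w'
    refine ⟨p, fun x hx => ?_⟩
    have := hp x hx
    simp only [E2.det2_neg_left] at this
    have h3 := min_neg_neg (det2 α w.2) (det2 α w'.2)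
    omega
  · intro M
    obtain ⟨e, he⟩ := E2.exists_dir hα
    constructor
    · refine ⟨(w0.1, (M.toNat + 1) • e), ?_⟩
      show M < det2 α ((M.toNat + 1) • e)
      rw [E2.det2_nsmul]
      have := Int.self_le_toNat M
      push_cast
      nlinarith [Int.natCast_nonneg M.toNat]
    · refine ⟨(w0.1, -(((-M).toNat + 1) • e)), ?_⟩
      show det2 α (-(((-M).toNat + 1) • e)) < M
      have e1 : det2 α (-(((-M).toNat + 1) • e)) = - det2 α (((-M).toNat + 1) • e) := by
        simp only [det2, Prod.fst_neg, Prod.snd_neg]; ring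
      rw [e1, E2.det2_nsmul]
      have := Int.self_le_toNat (-M)
      push_cast
      nlinarith [Int.natCast_nonneg (-M).toNat]

end Pool.Agent.MP_f5837d_co
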