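import Pool.Agent.Lib.MP_f5837d_co.L4
import Pool.Agent.Lib.MP_f5837d_co.E1

/-!
# Task INIT: the first strip (blueprint 6.4)

`L₀` has no detours of excess zero above, `U₀` none below. `L := B⁻ᴹ L₀`, `U := Bᴹ U₀` (with the index
shifted so that they are calibrated: `u (B ^ M (P t))` is `t + const`, because `u` is `1`-Lipschitz and
grows by `ℓ` per period). For `M` large `U` is above `L`, the strip has bounded height, hence is finite
modulo `A`, and the robber is far from `L` and `U`: `pinch_timed` four times (functions `π (L (cL r))`,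
`π (L (cL r + 1))`, `π (U (cU r))`, `π (U (cU r + 1))` with `cL = cTo`, `cU = cTo`).
-/

set_option autoImplicit false

namespace Pool.Agent.MP_f5837d_co

open SimpleGraph

variable {V W : Type*} {G : SimpleGraph V} {H : SimpleGraph W} {π : W → V}
variable [∀ w, Fintype (H.neighborSet w)]

namespace INIT

/-! ### Powers of the translation `B` -/

theorem hgt_zpow {hgt : W → ℤ} {B : H ≃g H} {κ : ℤ} (hBh : ∀ w, hgt (B w) = hgt w + κ)
    (z : ℤ) : ∀ w, hgt ((B ^ z) w) = hgt w + z * κ := by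
  have hinv : ∀ w, hgt (B⁻¹ w) = hgt w - κ := fun w => by
    have h := hBh (B⁻¹ w)
    have h2 : B (B⁻¹ w) = w := B.apply_symm_apply w
    rw [h2] at h
    omega
  induction z using Int.induction_on with
  | zero => intro w; simp
  | succ n ih =>
    intro w
    rw [zpow_add_one]
    have h1 : (B ^ (n : ℤ) * B) w = (B ^ (n : ℤ)) (B w) := rfl
    rw [h1, ih, hBh]; ring
  | pred n ih =>
    intro w
    rw [zpow_sub_one]
    have h1 : (B ^ (-(n : ℤ)) * B⁻¹) w = (B ^ (-(n : ℤ))) (B⁻¹ w) := rfl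
    rw [h1, ih, hinv]; ring

theorem comm_zpow {A B : H ≃g H} (hBA : ∀ w, B (A w) = A (B w)) (z : ℤ) (w : W) :
    (B ^ z) (A w) = A ((B ^ z) w) := by
  have hc : Commute B A := by
    show B * A = A * B
    exact RelIso.ext hBA
  have h := (hc.zpow_left z).eq
  exact congrArg (fun f : H ≃g H => f w) h

/-! ### Integer functions -/

theorem squeeze {f : ℤ → ℤ} {a b : ℤ} (hf : ∀ t, a ≤ t → t < b → |f t - f (t + 1)| ≤ 1)
    (ha : f a = a) (hb : f b = b) {t : ℤ} (h1 : a ≤ t) (h2 : t ≤ b) : f t = t := by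
  have up : ∀ n : ℕ, a + n ≤ b → f (a + n) ≤ a + n := by
    intro n
    induction n with
    | zero => intro _; simp [ha]
    | succ n ih =>
      intro h
      push_cast at h ⊢
      have h3 := ih (by omega)
      have h4 := abs_le.1 (hf (a + n) (by omega) (by omega))
      rw [← add_assoc]
      omega
  have dn : ∀ n : ℕ, a ≤ b - n → b - n ≤ f (b - n) := by
    intro n
    induction n with
    | zero => intro _; simp [hb]
    | succ n ih =>
      intro h
      push_cast at h ⊢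
      have h3 := ih (by omega)
      have h4 := abs_le.1 (hf (b - (n + 1)) (by omega) (by omega))
      have h5 : b - ((n : ℤ) + 1) + 1 = b - n := by ring
      rw [h5] at h4
      omega
  have h3 := up (t - a).toNat (by omega)
  have h4 := dn (b - t).toNat (by omega)
  rw [show a + ((t - a).toNat : ℤ) = t by omega] at h3
  rw [show b - ((b - t).toNat : ℤ) = t by omega] at h4
  omega

theorem const_of_step {f : ℤ → ℤ} (h : ∀ t, f (t + 1) = f t + 1) (t : ℤ) : f t = t + f 0 := by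
  induction t using Int.induction_on with
  | zero => simp
  | succ n ih => rw [h, ih]; ring
  | pred n ih =>
    have h1 := h (-(n : ℤ) - 1)
    rw [sub_add_cancel, ih] at h1
    omega

/-- A periodic integer function is bounded. -/
theorem bdd_of_periodic {f : ℤ → ℤ} {ℓ : ℤ} (hℓ : 0 < ℓ) (h : ∀ t, f (t + ℓ) = f t) :
    ∃ b : ℤ, 0 ≤ b ∧ ∀ t, |f t| ≤ b := by
  obtain ⟨b, hb⟩ := ((Set.finite_Ico (0 : ℤ) ℓ).image (fun t => |f t|)).bddAbove
  have hper : Function.Periodic f ℓ := h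
  have key : ∀ t, |f t| ≤ b := by
    intro t
    have h1 : f t = f (t % ℓ) := by
      have h2 := (hper.int_mul (t / ℓ)) (t % ℓ)
      have h3 : t % ℓ + ((t / ℓ : ℤ) : ℤ) * ℓ = t := by
        rw [mul_comm]; exact Int.emod_add_mul_ediv t ℓ
      simp only [Int.cast_id] at h2
      rw [h3] at h2
      exact h2
    rw [h1]
    exact hb ⟨t % ℓ, ⟨Int.emod_nonneg _ hℓ.ne', Int.emod_lt_of_pos _ hℓ⟩, rfl⟩
  exact ⟨b, (abs_nonneg _).trans (key 0), key⟩

/-! ### Images of lines -/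

variable {C : SCtx G H π}

theorem line_one {P : ℤ → W} (hP : C.Line 1 Set.univ P) (t : ℤ) : P (t + C.ℓ) = C.A (P t) := by
  have h := hP.per t
  rwa [one_mul, zpow_one] at h

theorem shift {φ : H ≃g H} (hφ : ∀ w, φ (C.A w) = C.A (φ w)) {P : ℤ → W}
    (hP : C.Line 1 Set.univ P) : ∃ k, ∀ t, C.u (φ (P t)) = t + k := by
  have hstep : ∀ t, C.u (φ (P (t + 1))) ≤ C.u (φ (P t)) + 1 := by
    intro t
    have h1 : H.Adj (φ (P t)) (φ (P (t + 1))) := φ.map_rel_iff'.2 (hP.cal.adj t)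
    have h2 := abs_le.1 (C.lip _ _ h1)
    omega
  have hper : ∀ t, C.u (φ (P (t + C.ℓ))) = C.u (φ (P t)) + C.ℓ := by
    intro t
    rw [line_one hP, hφ, C.uA]
  have hn : ∀ (n : ℕ) (t : ℤ), C.u (φ (P (t + n))) ≤ C.u (φ (P t)) + n := by
    intro n
    induction n with
    | zero => intro t; simp
    | succ n ih =>
      intro t
      push_cast
      rw [← add_assoc]
      have h1 := ih t
      have h2 := hstep (t + n)
      omega
  have hone : ∀ t, C.u (φ (P (t + 1))) = C.u (φ (P t)) + 1 := by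
    intro t
    have h1 := hstep t
    have hℓ := C.ℓpos
    have h2 := hn (C.ℓ - 1).toNat (t + 1)
    have h3 : t + 1 + ((C.ℓ - 1).toNat : ℤ) = t + C.ℓ := by omega
    rw [h3, hper] at h2
    omega
  exact ⟨C.u (φ (P 0)), const_of_step (f := fun t => C.u (φ (P t))) hone⟩

theorem line_map {φ : H ≃g H} (hφ : ∀ w, φ (C.A w) = C.A (φ w)) {P : ℤ → W}
    (hP : C.Line 1 Set.univ P) {k : ℤ} (hk : ∀ t, C.u (φ (P t)) = t + k) :
    C.Line 1 Set.univ (fun t => φ (P (t - k))) := by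
  refine ⟨⟨fun t => ?_, fun t => ?_⟩, fun t => ?_, fun t => Set.mem_univ _⟩
  · have h := φ.map_rel_iff'.2 (hP.cal.adj (t - k))
    rw [show t + 1 - k = t - k + 1 by ring]
    exact h
  · rw [hk]; ring
  · show φ (P (t + 1 * C.ℓ - k)) = (C.A ^ (1 : ℤ)) (φ (P (t - k)))
    rw [zpow_one, ← hφ, ← line_one hP, one_mul, show t + C.ℓ - k = t - k + C.ℓ by ring]

theorem noDet_mono {R R' : Set W} (h : R ⊆ R') {P : ℤ → W} {J : Set ℤ} {s : W → ℤ}
    (hd : NoDet H R' P J s) : NoDet H R P J s := by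
  rw [noDet_iff] at hd ⊢
  intro q i j hz
  exact hd q i j ⟨hz.hi, hz.hj, hz.hij, hz.out, fun t h1 h2 => ⟨h (hz.mem t h1 h2).1,
    (hz.mem t h1 h2).2⟩, hz.adj⟩

theorem noDet_map {φ : H ≃g H} {P : ℤ → W} (hP : C.Line 1 Set.univ P) {k : ℤ}
    {R R' : Set W} (hR : ∀ w, φ w ∈ R' → w ∈ R) (hd : NoDet H R P Set.univ C.u) :
    NoDet H R' (fun t => φ (P (t - k))) Set.univ C.u := by
  rw [noDet_iff] at hd ⊢
  intro q i j hz
  have hqs : ∀ t, φ (φ.symm (q (t + k))) = q (t + k) := fun t => φ.apply_symm_apply _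
  have hout : ∀ t, t ≤ i - k ∨ j - k ≤ t → φ.symm (q (t + k)) = P t := by
    intro t ht
    have h1 := hz.out (t + k) (by omega)
    rw [h1]
    simp
  have hadj : ∀ t, i - k ≤ t → t < j - k →
      H.Adj (φ.symm (q (t + k))) (φ.symm (q (t + 1 + k))) := by
    intro t h1 h2
    have h3 := hz.adj (t + k) (by omega) (by omega)
    rw [show t + k + 1 = t + 1 + k by ring] at h3
    exact φ.symm.map_rel_iff'.2 h3
  have hij := hz.hij
  refine hd (fun t => φ.symm (q (t + k))) (i - k) (j - k)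
    ⟨Set.mem_univ _, Set.mem_univ _, by omega, hout, fun t h1 h2 => ⟨?_, ?_⟩, hadj⟩
  · apply hR
    rw [hqs]
    exact (hz.mem (t + k) (by omega) (by omega)).1
  · refine squeeze (f := fun t => C.u (φ.symm (q (t + k)))) (a := i - k) (b := j - k)
      (fun t h1 h2 => C.lip _ _ (hadj t h1 h2)) ?_ ?_ h1.le h2.le
    · show C.u (φ.symm (q (i - k + k))) = i - k
      rw [hout (i - k) (Or.inl le_rfl), hP.cal.lev]
    · show C.u (φ.symm (q (j - k + k))) = j - k
      rw [hout (j - k) (Or.inr le_rfl), hP.cal.lev]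

theorem potential {P : ℤ → W} (hP : C.Line 1 Set.univ P) (R : Set W) :
    Potential H R P Set.univ C.u := by
  refine ⟨fun r _ r' _ h => C.lip _ _ h, fun r _ t _ h => ?_⟩
  have h1 := C.lip _ _ h
  rwa [hP.cal.lev] at h1

/-- Two places of a line with close indices. -/
theorem line_step {P : ℤ → W} (hP : C.Line 1 Set.univ P) {s t : ℤ} (h : |s - t| ≤ 1) :
    Step H (P s) (P t) := by
  have h1 := abs_le.1 h
  rcases lt_trichotomy s t with h2 | h2 | h2
  · have : t = s + 1 := by omega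
    rw [this]
    exact Or.inr (hP.cal.adj s)
  · exact Or.inl (by rw [h2])
  · have : s = t + 1 := by omega
    rw [this]
    exact Or.inr (hP.cal.adj t).symm

theorem hgt_walk {hgt : W → ℤ} {K : ℤ} (hlip : ∀ w w', H.Adj w w' → |hgt w - hgt w'| ≤ K)
    {w w' : W} (p : H.Walk w w') : |hgt w - hgt w'| ≤ K * p.length := by
  induction p with
  | nil => simp
  | @cons x y z h p ih =>
    rw [Walk.length_cons]
    push_cast
    have h1 := hlip _ _ h
    have h2 : |hgt x - hgt z| ≤ |hgt x - hgt y| + |hgt y - hgt z| := abs_sub_le _ _ _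
    linarith

/-- Families of functions that move along edges. -/
def StepOK (G : SimpleGraph V) (H : SimpleGraph W) (R : Set W) {k : ℕ} (g : Fin k → W → V) :
    Prop := ∀ r ∈ R, ∀ r' ∈ R, Step H r r' → ∀ i, Step G (g i r) (g i r')

theorem StepOK.snoc {R : Set W} {k : ℕ} {g : Fin k → W → V} (hg : StepOK G H R g) {f : W → V}
    (hf : ∀ r ∈ R, ∀ r' ∈ R, Step H r r' → Step G (f r) (f r')) :
    StepOK G H R (snocF g f) := by
  intro r hr r' hr' h i
  have e : ∀ r, snocF g f i r = snocF (fun i => g i r) (f r) i := fun r =>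
    congrFun (G1.snocF_apply g f r) i
  rw [e, e]
  exact G1.step_snocF (hg r hr r' hr' h) (hf r hr r' hr' h) i

/-- The vertices whose ball of radius `m` lies in `R`. -/
def Ball (H : SimpleGraph W) (R : Set W) (m : ℕ) : Set W :=
  {w | ∀ (w' : W) (p : H.Walk w w'), p.length ≤ m → w' ∈ R}

theorem ball_sub {R : Set W} {m : ℕ} : Ball H R m ⊆ R := fun w hw =>
  hw w Walk.nil (by simp)

theorem ball_succ {R : Set W} (m : ℕ) : Ball H R (m + 1) ⊆ Ball H R m := fun _ hw w' p hp =>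
  hw w' p (by omega)

theorem ball_step {R : Set W} {m : ℕ} {r r' : W} (hr : r ∈ Ball H R (m + 1))
    (h : Step H r r') : r' ∈ Ball H R m := by
  rcases h with rfl | h
  · exact ball_succ m hr
  · intro w' p hp
    refine hr w' (Walk.cons h p) ?_
    rw [Walk.length_cons]
    omega

/-- One more cop is locked while the robber stays in the balls. -/
theorem lock_one {R : Set W} {k : ℕ} {g : Fin k → W → V} (hg : StepOK G H R g) {n : ℕ}
    {T : ℕ} (hT : ∀ (g : Fin k → W → V) (P : ℤ → V), (∀ t, Step G (P t) (P (t + 1))) →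
    (∀ t, P (t + n) = P t) → ∀ (s : W → ℤ) (N : ℕ → Set W), (∀ m, N (m + 1) ⊆ N m) →
    (∀ m, ∀ r ∈ N (m + 1), ∀ r', Step H r r' →
      (∃ i, g i r = π r') ∨ (r' ∈ N m ∧ (∀ i, Step G (g i r) (g i r')) ∧ |s r - s r'| ≤ 1)) →
    ∀ (m : ℕ) (r : W) (c : Fin 7 → V), r ∈ N (m + T) → Occ (fun i => g i r) c →
      Forces G H π (Locked (N m) (snocF g (fun r => P (s r)))) r c)
    {P : ℤ → V} (hP : ∀ t, Step G (P t) (P (t + 1))) (hper : ∀ t, P (t + n) = P t)
    {s : W → ℤ} (hs : ∀ r ∈ R, ∀ r' ∈ R, Step H r r' → |s r - s r'| ≤ 1) (m : ℕ) (r : W)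
    (c : Fin 7 → V) (hr : r ∈ Ball H R (m + T)) (hocc : Occ (fun i => g i r) c) :
    Forces G H π (Locked (Ball H R m) (snocF g (fun r => P (s r)))) r c := by
  refine hT g P hP hper s (fun m => Ball H R m) ball_succ (fun m r hr r' h => Or.inr ?_) m r c hr
    hocc
  have h1 := ball_step hr h
  exact ⟨h1, hg r (ball_sub hr) r' (ball_sub h1) h, hs r (ball_sub hr) r' (ball_sub h1) h⟩

end INIT

namespace SCtx

variable {C : SCtx G H π}

open INIT in
theorem init {hgt : W → ℤ} {K : ℤ} (hE : Ends C.Pl C.A C.ℓ C.u hgt K)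
    (hside : ∀ (N : ℤ) (P : ℤ → W), 0 < N → PerLine C.A C.ℓ C.u N P → ∀ w,
      ((∀ t, hgt (P t) + K < hgt w) → w ∈ Up C.Pl P) ∧
      ((∀ t, hgt w + K < hgt (P t)) → w ∈ Down C.Pl P))
    {L₀ U₀ : ℤ → W} (hL : C.Line 1 Set.univ L₀) (hU : C.Line 1 Set.univ U₀)
    (hdL : NoDet H (Up C.Pl L₀) L₀ Set.univ C.u)
    (hdU : NoDet H (Down C.Pl U₀) U₀ Set.univ C.u)
    (B : H ≃g H) (hB : RotComm C.Pl.toRotationSystem B) (hBπ : ∀ w, π (B w) = π w)
    (hBA : ∀ w, B (C.A w) = C.A (B w)) {κ : ℤ} (hκ : 0 < κ) (hBh : ∀ w, hgt (B w) = hgt w + κ)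
    (r : W) (c : Fin 7 → V) :
    Forces G H π (fun r c => ∃ n, C.StripPos n r c) r c := by
  haveI := C.finV
  have hℓ := C.ℓpos
  set n : ℕ := C.ℓ.toNat with hn
  have hn0 : 0 < n := by omega
  have hnℓ : (n : ℤ) = C.ℓ := by omega
  obtain ⟨T0, hT0⟩ := pinch_timed (H := H) (π := π) C.hG (k := 0) (by norm_num) n hn0
  obtain ⟨T1, hT1⟩ := pinch_timed (H := H) (π := π) C.hG (k := 0 + 1) (by norm_num) n hn0
  obtain ⟨T2, hT2⟩ := pinch_timed (H := H) (π := π) C.hG (k := 0 + 1 + 1) (by norm_num) n hn0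
  obtain ⟨T3, hT3⟩ := pinch_timed (H := H) (π := π) C.hG (k := 0 + 1 + 1 + 1) (by norm_num) n hn0
  -- the heights of the two lines are bounded
  obtain ⟨b1, hb1, hL1⟩ := bdd_of_periodic (f := fun t => hgt (L₀ t)) hℓ
    (fun t => by rw [line_one hL, hE.inv])
  obtain ⟨b2, hb2, hU1⟩ := bdd_of_periodic (f := fun t => hgt (U₀ t)) hℓ
    (fun t => by rw [line_one hU, hE.inv])
  have hK : 0 ≤ K := (abs_nonneg _).trans (hE.lip _ _ (hL.cal.adj 0))
  set T : ℕ := 0 + T3 + T2 + T1 + T0 with hTdef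
  obtain ⟨M, hM⟩ : ∃ M : ℕ, b1 + b2 + K + K * T + |hgt r| + 1 ≤ (M : ℤ) * κ := by
    refine ⟨(b1 + b2 + K + K * T + |hgt r| + 1).toNat, ?_⟩
    have h1 := Int.self_le_toNat (b1 + b2 + K + K * T + |hgt r| + 1)
    nlinarith [Int.natCast_nonneg (b1 + b2 + K + K * T + |hgt r| + 1).toNat]
  -- the two lines
  set φ : H ≃g H := B ^ (-(M : ℤ)) with hφ
  set ψ : H ≃g H := B ^ (M : ℤ) with hψ
  have hφA : ∀ w, φ (C.A w) = C.A (φ w) := comm_zpow hBA _
  have hψA : ∀ w, ψ (C.A w) = C.A (ψ w) := comm_zpow hBA _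
  obtain ⟨k1, hk1⟩ := shift hφA hL
  obtain ⟨k2, hk2⟩ := shift hψA hU
  have hLl := line_map hφA hL hk1
  have hUl := line_map hψA hU hk2
  set L : ℤ → W := fun t => φ (L₀ (t - k1)) with hLdef
  set U : ℤ → W := fun t => ψ (U₀ (t - k2)) with hUdef
  have hLh : ∀ t, |hgt (L t) + M * κ| ≤ b1 := by
    intro t
    have h1 : hgt (L t) = hgt (L₀ (t - k1)) + -(M : ℤ) * κ := hgt_zpow hBh _ _
    have h2 := hL1 (t - k1)
    rw [h1, show hgt (L₀ (t - k1)) + -(M : ℤ) * κ + M * κ = hgt (L₀ (t - k1)) by ring]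
    exact h2
  have hUh : ∀ t, |hgt (U t) - M * κ| ≤ b2 := by
    intro t
    have h1 : hgt (U t) = hgt (U₀ (t - k2)) + (M : ℤ) * κ := hgt_zpow hBh _ _
    have h2 := hU1 (t - k2)
    rw [h1, show hgt (U₀ (t - k2)) + (M : ℤ) * κ - M * κ = hgt (U₀ (t - k2)) by ring]
    exact h2
  have hperL : PerLine C.A C.ℓ C.u 1 L := ⟨hLl.cal, hLl.per⟩
  have hperU : PerLine C.A C.ℓ C.u 1 U := ⟨hUl.cal, hUl.per⟩
  have hsL := hside 1 L one_pos hperL
  have hsU := hside 1 U one_pos hperU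
  have hKT : 0 ≤ K * T := by positivity
  have habs := abs_nonneg (hgt r)
  -- the strip
  set R : Set W := Up C.Pl L ∩ Down C.Pl U with hR
  have habove : ∀ t, U t ∈ Up C.Pl L := by
    intro t
    refine (hsL (U t)).1 fun s => ?_
    have h1 := abs_le.1 (hLh s)
    have h2 := abs_le.1 (hUh t)
    omega
  have hbelow : ∀ t, L t ∈ Down C.Pl U := by
    intro t
    refine (hsU (L t)).2 fun s => ?_
    have h1 := abs_le.1 (hLh t)
    have h2 := abs_le.1 (hUh s)
    omega
  have hfin : C.FinMod R := by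
    refine (hE.fin (b1 + b2 + K + M * κ)).subset ?_
    rintro w ⟨⟨hw1, hw2⟩, h1, h2⟩
    refine ⟨?_, h1, h2⟩
    have h3 : ∃ t, hgt (L t) ≤ hgt w + K := by
      by_contra hcon
      push Not at hcon
      exact not_up_and_down C.hH C.Pl hLl.cal.isCurve hw1 ((hsL w).2 hcon)
    have h4 : ∃ t, hgt w ≤ hgt (U t) + K := by
      by_contra hcon
      push Not at hcon
      exact not_up_and_down C.hH C.Pl hUl.cal.isCurve ((hsU w).1 hcon) hw2
    obtain ⟨t, ht⟩ := h3
    obtain ⟨t', ht'⟩ := h4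
    have h5 := abs_le.1 (hLh t)
    have h6 := abs_le.1 (hUh t')
    rw [abs_le]
    constructor <;> omega
  have hnL : NoDet H R L Set.univ C.u :=
    noDet_mono Set.inter_subset_left (noDet_map hL (k := k1) (fun w hw =>
      (up_map C.hH C.Pl (rotComm_zpow _ hB _) hL.cal.isCurve k1 w).1 hw) hdL)
  have hnU : NoDet H R U Set.univ C.u :=
    noDet_mono Set.inter_subset_right (noDet_map hU (k := k2) (fun w hw =>
      (down_map C.hH C.Pl (rotComm_zpow _ hB _) hU.cal.isCurve k2 w).1 hw) hdU)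
  have hpL := pairFun_cTo (potential hLl R) hnL
  have hpU := pairFun_cTo (potential hUl R) hnU
  set cL : W → ℤ := cTo H R L Set.univ C.u with hcL
  set cU : W → ℤ := cTo H R U Set.univ C.u with hcU
  have hX : C.XStrip R L U cL cU :=
    ⟨hLl, hUl, habove, hbelow, rfl, hfin, hnL, hnU, hpL, hpU⟩
  -- the ball around the robber
  have hball : r ∈ Ball H R T := by
    intro w' p hp
    have h1 := hgt_walk hE.lip p
    have h2 : K * (p.length : ℤ) ≤ K * T := by
      have : (p.length : ℤ) ≤ T := by exact_mod_cast hp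
      exact mul_le_mul_of_nonneg_left this hK
    have h3 := abs_le.1 (h1.trans h2)
    have h4 := le_abs_self (hgt r)
    have h5 := neg_abs_le (hgt r)
    refine ⟨(hsL w').1 fun s => ?_, (hsU w').2 fun s => ?_⟩
    · have h6 := abs_le.1 (hLh s)
      omega
    · have h6 := abs_le.1 (hUh s)
      omega
  -- the functions
  have hstepL : ∀ t, Step G (π (L t)) (π (L (t + 1))) := fun t =>
    Step.map C.cover (Or.inr (hLl.cal.adj t))
  have hstepU : ∀ t, Step G (π (U t)) (π (U (t + 1))) := fun t =>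
    Step.map C.cover (Or.inr (hUl.cal.adj t))
  have hpiL : ∀ t, π (L (t + n)) = π (L t) := fun t => by rw [hnℓ, line_one hLl, C.hA]
  have hpiU : ∀ t, π (U (t + n)) = π (U t) := fun t => by rw [hnℓ, line_one hUl, C.hA]
  have hs : ∀ {c : W → ℤ}, Lip H R c → ∀ r ∈ R, ∀ r' ∈ R, Step H r r' → |c r - c r'| ≤ 1 := by
    intro c hc r hr r' hr' h
    rcases h with rfl | h
    · simp
    · exact hc r hr r' hr' h
  have hs' : ∀ {c : W → ℤ}, Lip H R c → ∀ r ∈ R, ∀ r' ∈ R, Step H r r' →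
      |c r + 1 - (c r' + 1)| ≤ 1 := by
    intro c hc r hr r' hr' h
    have := hs hc r hr r' hr' h
    rwa [add_sub_add_right_eq_sub]
  have hg0 : StepOK G H R (fun (i : Fin 0) (_ : W) => (i.elim0 : V)) := fun _ _ _ _ _ i => i.elim0
  have hg1 := hg0.snoc (f := fun r => π (L (cL r))) (fun r hr r' hr' h =>
    Step.map C.cover (line_step hLl (hs hpL.lip r hr r' hr' h)))
  have hg2 := hg1.snoc (f := fun r => π (L (cL r + 1))) (fun r hr r' hr' h =>
    Step.map C.cover (line_step hLl (hs' hpL.lip r hr r' hr' h)))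
  have hg3 := hg2.snoc (f := fun r => π (U (cU r))) (fun r hr r' hr' h =>
    Step.map C.cover (line_step hUl (hs hpU.lip r hr r' hr' h)))
  have F1 := lock_one hg0 hT0 (P := fun t => π (L t)) hstepL hpiL (s := cL) (hs hpL.lip)
    (0 + T3 + T2 + T1) r c hball ⟨⟨fun i => i.elim0, fun i => i.elim0⟩, fun i => i.elim0⟩
  refine Forces.trans (fun r₁ c₁ h₁ => ?_) F1
  have F2 := lock_one hg1 hT1 (P := fun t => π (L t)) hstepL hpiL (s := fun r => cL r + 1)
    (hs' hpL.lip) (0 + T3 + T2) r₁ c₁ h₁.1 h₁.2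
  refine Forces.trans (fun r₂ c₂ h₂ => ?_) F2
  have F3 := lock_one hg2 hT2 (P := fun t => π (U t)) hstepU hpiU (s := cU) (hs hpU.lip)
    (0 + T3) r₂ c₂ h₂.1 h₂.2
  refine Forces.trans (fun r₃ c₃ h₃ => ?_) F3
  have F4 := lock_one hg3 hT3 (P := fun t => π (U t)) hstepU hpiU (s := fun r => cU r + 1)
    (hs' hpU.lip) 0 r₃ c₃ h₃.1 h₃.2
  refine Forces.mono (fun r₄ c₄ h₄ => ?_) F4
  refine ⟨C.size R + 1, R, L, U, cL, cU, hX, Nat.lt_succ_self _, ball_sub h₄.1, ?_⟩
  refine h₄.2.sub ⟨![0, 1, 2, 3], ?_⟩ ?_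
  · decide
  · intro i
    fin_cases i <;> rfl

end SCtx

end Pool.Agent.MP_f5837d_co
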