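import Pool.Agent.Lib.MP_f5837d_co.DiskWin

/-! # Task Sphere: finite plane graphs -/

set_option autoImplicit false

namespace Pool.Agent.MP_f5837d_co

open SimpleGraph

variable {V W : Type*} {G : SimpleGraph V} {H : SimpleGraph W} {π : W → V}

namespace SPH

/-- the component of `r` in `G - x` -/
def comp (G : SimpleGraph V) (x r : V) : Set V := {w | ∃ p : G.Walk r w, x ∉ p.support}

theorem self_mem {x r : V} (h : r ≠ x) : r ∈ comp G x r :=
  ⟨Walk.nil, by simpa using h.symm⟩

theorem support_mem {x r w : V} {p : G.Walk r w} (hp : x ∉ p.support) {v : V}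
    (hv : v ∈ p.support) : v ∈ comp G x r := by
  classical
  exact ⟨p.takeUntil v hv, fun h => hp (p.support_takeUntil_subset_support hv h)⟩

theorem sState [Finite V] (G : SimpleGraph V) (x r : V) : SState G (comp G x r) x where
  fin := Set.toFinite _
  conn := by
    rintro r₁ ⟨p₁, h₁⟩ r₂ ⟨p₂, h₂⟩
    refine ⟨p₁.reverse.append p₂, ?_⟩
    intro w hw
    rw [Walk.mem_support_append_iff] at hw
    rcases hw with hw | hw
    · rw [Walk.support_reverse, List.mem_reverse] at hw
      exact support_mem h₁ hw
    · exact support_mem h₂ hw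
  hx := by
    rintro ⟨p, hp⟩
    exact hp p.end_mem_support
  nbr := by
    rintro r₁ ⟨p, hp⟩ w hw
    by_cases hwx : w = x
    · exact Or.inr hwx
    · left
      refine ⟨p.concat hw, ?_⟩
      rw [Walk.support_concat]
      simp only [List.concat_eq_append, List.mem_append, List.mem_singleton, not_or]
      exact ⟨hp, fun h => hwx h.symm⟩

theorem isCover_id (G : SimpleGraph V) : IsCover G G (id : V → V) where
  adj := fun h => h
  lift := fun {_ y} h => ⟨y, h, rfl⟩

theorem win_ne [Finite V] [∀ w, Fintype (G.neighborSet w)] (hG : G.Connected) (Pl : Plane G)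
    {x r : V} (h : r ≠ x) : Win G G (id : V → V) r (fun _ => x) := by
  refine goodPos_win (isCover_id G) hG.preconnected hG Pl ((comp G x r).ncard + 1) r _ ?_
  refine Or.inr (Or.inl ⟨comp G x r, x, Nat.lt_succ_self _, sState G x r, self_mem h, ?_⟩)
  refine ⟨⟨fun _ => 0, fun a b _ => Subsingleton.elim a b⟩, ?_⟩
  intro i
  fin_cases i
  rfl

end SPH

/-- A finite plane graph: seven cops win. -/
theorem sphere_win {V : Type*} [Finite V] {G : SimpleGraph V} [∀ w, Fintype (G.neighborSet w)]
    (hG : G.Connected) (Pl : Plane G) : CopsWin G 7 := by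
  obtain ⟨x⟩ := hG.nonempty
  refine copsWin_of_win (SPH.isCover_id G) Function.surjective_id (fun _ => x) ?_
  intro r
  by_cases h : r = x
  · refine Forces.of_step ?_
    intro r' _ hr'
    refine ⟨fun _ => x, fun _ => Or.inl rfl, ?_⟩
    exact SPH.win_ne hG Pl (fun h1 => hr' 0 h1.symm)
  · exact SPH.win_ne hG Pl h

end Pool.Agent.MP_f5837d_co
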