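import Pool.Agent.Lib.MP_f5837d_co.STEP
import Pool.Agent.Lib.MP_f5837d_co.CLO
import Pool.Agent.Lib.MP_f5837d_co.INIT
import Pool.Agent.Lib.MP_f5837d_co.E2
import Pool.Agent.Lib.MP_f5837d_co.Sphere

/-!
# Assembly of the strip theorem
-/

set_option autoImplicit false

namespace Pool.Agent.MP_f5837d_co

open SimpleGraph

variable {V W : Type*} {G : SimpleGraph V} {H : SimpleGraph W} {π : W → V}
variable [∀ w, Fintype (H.neighborSet w)]

namespace SCtx

variable {C : SCtx G H π}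

theorem strip_win (n : ℕ) : ∀ r c, C.StripPos n r c → Win G H π r c := by
  induction n using Nat.strong_induction_on with
  | _ n ih =>
    rintro r c ⟨R, L, U, cL, cU, hX, hn, hl⟩
    by_cases hex : ∃ Λ, C.Line 1 R Λ
    · refine Forces.win_of ?_ (strip_step hX hex hl)
      rintro r c (h | h)
      · exact h
      · exact ih _ hn r c h
    · obtain ⟨R', x, y, A, B, g, e, hXS, hl'⟩ := closing hX hex hl
      exact x_win C.cover C.hG C.hH C.Pl hXS hl'

end SCtx

end Pool.Agent.MP_f5837d_co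

/-!
# The final assembly
-/


namespace Pool.Agent.MP_f5837d_co

open SimpleGraph

section

variable {V W : Type*} {G : SimpleGraph V} {H : SimpleGraph W} {π : W → V}
variable [∀ w, Fintype (H.neighborSet w)]

theorem Ends.neg {Pl : Plane H} {A : H ≃g H} {ℓ : ℤ} {u hgt : W → ℤ} {K : ℤ}
    (hE : Ends Pl A ℓ u hgt K) : Ends Pl A ℓ u (fun w => - hgt w) K where
  inv w := by simp [hE.inv]
  lip w w' h := by
    have := hE.lip w w' h
    rw [abs_sub_comm] at this
    rwa [show - hgt w - - hgt w' = hgt w' - hgt w by ring]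
  fin M := by simpa using hE.fin M
  up w w' := by
    obtain ⟨p, hp⟩ := hE.down w w'
    refine ⟨p, fun x hx => ?_⟩
    have := hp x hx
    rw [min_neg_neg]
    omega
  down w w' := by
    obtain ⟨p, hp⟩ := hE.up w w'
    refine ⟨p, fun x hx => ?_⟩
    have := hp x hx
    rw [max_neg_neg]
    omega
  unb M := by
    obtain ⟨⟨w, hw⟩, -⟩ := hE.unb (-M)
    obtain ⟨-, ⟨w', hw'⟩⟩ := hE.unb (-M)
    exact ⟨⟨w', by omega⟩, ⟨w, by omega⟩⟩
  face := hE.face

namespace SCtx

variable {C : SCtx G H π}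

theorem reach_line {N : ℤ} {R : Set W} {P : ℤ → W} (hP : C.Line N R P) {s t : ℤ} (h : s ≤ t) :
    Relation.ReflTransGen (Arc H R C.u) (P s) (P t) := by
  obtain ⟨n, rfl⟩ := Int.le.dest h
  induction n with
  | zero => simp; exact Relation.ReflTransGen.refl
  | succ n ih =>
    refine Relation.ReflTransGen.tail (ih (by omega)) ?_
    rw [show s + ((n + 1 : ℕ) : ℤ) = (s + n) + 1 by push_cast; ring]
    exact ⟨hP.mem _, hP.mem _, hP.cal.adj _, by rw [hP.cal.lev, hP.cal.lev]⟩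

theorem reach_zpow {R : Set W} (hR : C.Inv R) (k : ℤ) {x y : W}
    (h : Relation.ReflTransGen (Arc H R C.u) x y) :
    Relation.ReflTransGen (Arc H R C.u) ((C.A ^ k) x) ((C.A ^ k) y) := by
  have hinv : ∀ (n : ℤ) (w : W), (C.A ^ n) w ∈ R ↔ w ∈ R := by
    intro n
    induction n using Int.induction_on with
    | zero => intro w; rfl
    | succ n ih =>
      intro w
      rw [zpow_add_one]
      exact (ih (C.A w)).trans (hR w)
    | pred n ih =>
      intro w
      rw [zpow_sub_one]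
      refine (ih (C.A⁻¹ w)).trans ?_
      rw [← hR (C.A⁻¹ w)]
      have : C.A (C.A⁻¹ w) = w := by
        rw [← RelIso.mul_apply, mul_inv_cancel]; rfl
      rw [this]
  induction h with
  | refl => exact Relation.ReflTransGen.refl
  | tail _ h ih =>
    refine ih.tail ⟨(hinv _ _).2 h.1, (hinv _ _).2 h.2.1, ?_, ?_⟩
    · exact (C.A ^ k).map_rel_iff.2 h.2.2.1
    · rw [u_zpow, u_zpow, h.2.2.2]; ring

theorem line_zpow {R : Set W} {P : ℤ → W} (hP : C.Line 1 R P) (k t : ℤ) :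
    P (t + k * C.ℓ) = (C.A ^ k) (P t) := by
  induction k using Int.induction_on generalizing t with
  | zero => simp
  | succ n ih =>
    rw [show t + ((n : ℤ) + 1) * C.ℓ = (t + C.ℓ) + n * C.ℓ by ring, ih, zpow_add_one]
    have := hP.per t
    rw [one_mul, zpow_one] at this
    rw [this]; rfl
  | pred n ih =>
    rw [show t + (-(n : ℤ) - 1) * C.ℓ = (t - C.ℓ) + -(n : ℤ) * C.ℓ by ring, ih, zpow_sub_one]
    have := hP.per (t - C.ℓ)
    rw [one_mul, zpow_one, sub_add_cancel] at this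
    rw [this]
    rw [RelIso.mul_apply]
    congr 1
    rw [← RelIso.mul_apply, inv_mul_cancel]; rfl

/-- From a reachability between periodic lines to a reachability between given vertices, up to
translation. -/
theorem reach_of_rl {R : Set W} (hR : C.Inv R) {P Q : ℤ → W} (hP : C.Line 1 R P)
    (hQ : C.Line 1 R Q) (h : C.RL R P Q) (t t' : ℤ) :
    ∃ k : ℤ, Relation.ReflTransGen (Arc H R C.u) (P t) ((C.A ^ k) (Q t')) := by
  obtain ⟨s, s', h⟩ := h
  have hℓ := C.ℓpos
  -- choose `k₁` with `t ≤ s + k₁ ℓ`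
  have h1 : t ≤ s + |t - s| * C.ℓ := by
    have : |t - s| * 1 ≤ |t - s| * C.ℓ := mul_le_mul_of_nonneg_left (by omega) (abs_nonneg _)
    have h2 := le_abs_self (t - s)
    omega
  set k₁ := |t - s|
  have h2 : s' + k₁ * C.ℓ ≤ t' + (k₁ + |s' - t'|) * C.ℓ := by
    have : |s' - t'| * 1 ≤ |s' - t'| * C.ℓ := mul_le_mul_of_nonneg_left (by omega) (abs_nonneg _)
    have h2 := le_abs_self (s' - t')
    rw [add_mul]
    omega
  refine ⟨k₁ + |s' - t'|, ?_⟩
  rw [← line_zpow hQ]
  refine (reach_line hP h1).trans ?_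
  rw [line_zpow hP]
  refine (reach_zpow hR k₁ h).trans ?_
  rw [← line_zpow hQ]
  exact reach_line hQ h2

end SCtx

end

section

variable {V : Type*} {G : SimpleGraph V} {a : V → V → ℤ × ℤ} {ha : ∀ v w, a w v = - a v w}

theorem det2_add (α β γ : ℤ × ℤ) : det2 α (β + γ) = det2 α β + det2 α γ := by
  simp only [det2, Prod.fst_add, Prod.snd_add]; ring

theorem det2_zsmul (α : ℤ × ℤ) (k : ℤ) : det2 α (k • α) = 0 := by
  simp only [det2, Prod.smul_fst, Prod.smul_snd, smul_eq_mul]; ring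

theorem exists_det2 {α : ℤ × ℤ} (hα : α ≠ 0) : ∃ β, 0 < det2 α β := by
  by_cases h1 : α.1 = 0
  · have h2 : α.2 ≠ 0 := fun h2 => hα (Prod.ext h1 h2)
    refine ⟨(-α.2, 0), ?_⟩
    simp only [det2, h1]
    have : 0 < α.2 * α.2 := mul_self_pos.2 h2
    nlinarith
  · refine ⟨(0, α.1), ?_⟩
    simp only [det2]
    have : 0 < α.1 * α.1 := mul_self_pos.2 h1
    nlinarith

/-- The cops win on a graph whose `ℤ²`-cover is a plane. -/
theorem torus_win [Finite V] (hG : G.Connected) (hconn : (coverGraph G a ha).Connected)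
    (Pl : Plane (coverGraph G a ha))
    (hcomm : ∀ γ, RotComm Pl.toRotationSystem (translation G a ha γ))
    (hf : ∃ m : ℕ, 0 < m ∧ Pl.toRotationSystem.face ^ m = 1) : CopsWin G 7 := by
  obtain ⟨α, ℓ, u, hα, hℓ, hu, huA, ⟨P, hP, hPper⟩, hdet⟩ := extremal (G := G) (a := a) (ha := ha) hconn
  obtain ⟨K, hE⟩ := cover_ends hconn Pl hf hα hℓ hu huA
  let C : SCtx G (coverGraph G a ha) Prod.fst :=
    { Pl := Pl
      A := translation G a ha α
      ℓ := ℓ
      u := u
      hH := hconn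
      hG := hG.preconnected
      finV := inferInstance
      cover := isCover_cover
      hA := fun w => rfl
      rotA := hcomm α
      ℓpos := hℓ
      lip := hu
      uA := huA
      coh := fun N hN P Q hP hQ h1 h2 =>
        coherent_of_ends hconn Pl (hcomm α) hℓ hu huA hE hN ⟨hP, h1⟩ ⟨hQ, h2⟩ }
  have hline : C.Line 1 Set.univ P := by
    refine ⟨hP, fun t => ?_, fun t => trivial⟩
    rw [one_mul, zpow_one]
    exact hPper t
  have hinv : C.Inv Set.univ := fun w => by simp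
  have hApow : ∀ (k : ℤ) (w : V × (ℤ × ℤ)), (C.A ^ k) w = (w.1, w.2 + k • α) := by
    intro k w
    change (translation G a ha α ^ k) w = _
    rw [translation_zpow]; rfl
  -- the heights on the lines of the class
  set S : Set (ℤ → V × (ℤ × ℤ)) :=
    {Λ | C.Line 1 Set.univ Λ ∧ C.RL Set.univ P Λ ∧ C.RL Set.univ Λ P} with hS
  have hkey : ∀ Λ ∈ S, ∀ Λ' ∈ S, ∀ t t', (Λ t).1 = (Λ' t').1 →
      det2 α (Λ t).2 = det2 α (Λ' t').2 := by
    intro Λ hΛ Λ' hΛ' t t' hv
    have h1 : C.RL Set.univ Λ Λ' :=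
      SCtx.rl_trans hinv one_pos one_pos hline hΛ'.1 hΛ.2.2 hΛ'.2.1
    have h2 : C.RL Set.univ Λ' Λ :=
      SCtx.rl_trans hinv one_pos one_pos hline hΛ.1 hΛ'.2.2 hΛ.2.1
    obtain ⟨k, hk⟩ := SCtx.reach_of_rl hinv hΛ.1 hΛ'.1 h1 t t'
    obtain ⟨k', hk'⟩ := SCtx.reach_of_rl hinv hΛ'.1 hΛ.1 h2 t' t
    have hk'' := SCtx.reach_zpow hinv k hk'
    have e1 : (C.A ^ k) (Λ' t') =
        translation G a ha ((Λ' t').2 - (Λ t).2 + k • α) (Λ t) := by
      rw [hApow]
      change _ = ((Λ t).1, (Λ t).2 + ((Λ' t').2 - (Λ t).2 + k • α))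
      rw [hv]
      congr 1
      abel
    have e2 : (C.A ^ k) ((C.A ^ k') (Λ t)) = translation G a ha ((k' + k) • α) (Λ t) := by
      rw [hApow, hApow]
      change _ = ((Λ t).1, (Λ t).2 + (k' + k) • α)
      rw [add_smul, add_assoc]
    rw [e1] at hk hk''
    rw [e2] at hk''
    have := hdet (Λ t) _ (k' + k) hk hk''
    rw [det2_add, det2_zsmul, add_zero] at this
    simp only [det2, Prod.fst_sub, Prod.snd_sub] at this ⊢
    linarith
  obtain ⟨M, hM⟩ : ∃ M : ℤ, ∀ Λ ∈ S, ∀ t, |det2 α (Λ t).2| ≤ M := by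
    have hfin : {x : ℤ | ∃ Λ ∈ S, ∃ t, x = det2 α (Λ t).2}.Finite := by
      have : {x : ℤ | ∃ Λ ∈ S, ∃ t, x = det2 α (Λ t).2} =
          ⋃ v : V, {x : ℤ | ∃ Λ ∈ S, ∃ t, (Λ t).1 = v ∧ x = det2 α (Λ t).2} := by
        ext x
        simp only [Set.mem_ofPred_eq, Set.mem_iUnion]
        constructor
        · rintro ⟨Λ, hΛ, t, rfl⟩
          exact ⟨(Λ t).1, Λ, hΛ, t, rfl, rfl⟩
        · rintro ⟨v, Λ, hΛ, t, -, rfl⟩
          exact ⟨Λ, hΛ, t, rfl⟩
      rw [this]
      refine Set.finite_iUnion (fun v => ?_)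
      refine Set.Subsingleton.finite ?_
      rintro x ⟨Λ, hΛ, t, h1, rfl⟩ y ⟨Λ', hΛ', t', h2, rfl⟩
      exact hkey Λ hΛ Λ' hΛ' t t' (h1.trans h2.symm)
    obtain ⟨M, hM⟩ := (hfin.image (fun x => |x|)).bddAbove
    exact ⟨M, fun Λ hΛ t => hM ⟨_, ⟨Λ, hΛ, t, rfl⟩, rfl⟩⟩
  have hSfin : S.Finite := by
    have h1 : C.FinMod {w | |det2 α w.2| ≤ M} := by
      refine (hE.fin M).subset ?_
      rintro w ⟨h1, h2, h3⟩
      exact ⟨h1, h2, h3⟩
    refine (SCtx.lines_finite h1).subset ?_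
    intro Λ hΛ
    exact ⟨hΛ.1.cal, hΛ.1.per, fun t => hM Λ hΛ t⟩
  obtain ⟨K', hK', -, -, -, hd'⟩ := SCtx.extremes hinv hline hSfin
  have hSfin' : {Λ | C.mirror.Line 1 Set.univ Λ ∧ C.mirror.RL Set.univ P Λ ∧
      C.mirror.RL Set.univ Λ P}.Finite :=
    hSfin.subset (fun Λ h => ⟨SCtx.line_mirror.1 h.1, h.2.1, h.2.2⟩)
  obtain ⟨K₀, hK₀, -, -, -, hd⟩ :=
    SCtx.extremes (C := C.mirror) hinv (SCtx.line_mirror.2 hline) hSfin'
  have hK₀ := SCtx.line_mirror.1 hK₀
  have hdL : NoDet (coverGraph G a ha) (Up C.Pl K') K' Set.univ C.u := by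
    rwa [Set.univ_inter] at hd'
  have hdU : NoDet (coverGraph G a ha) (Down C.Pl K₀) K₀ Set.univ C.u := by
    rw [Set.univ_inter] at hd
    change NoDet _ (Up C.Pl.mirror K₀) K₀ Set.univ C.u at hd
    rwa [up_mirror C.hH C.Pl hK₀.cal.isCurve] at hd
  have hwin : ∀ r c, Win G (coverGraph G a ha) Prod.fst r c := by
    intro r c
    have hE' : Ends C.Pl C.A C.ℓ C.u (fun w => det2 α w.2) K := hE
    obtain ⟨β, hβ⟩ := exists_det2 hα
    have hBA : ∀ γ (w : V × (ℤ × ℤ)),
        translation G a ha γ (C.A w) = C.A (translation G a ha γ w) := by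
      intro γ w
      change (w.1, w.2 + α + γ) = (w.1, w.2 + γ + α)
      rw [add_assoc, add_comm α γ, ← add_assoc]
    rcases ends_sides hconn Pl (hcomm α) hℓ hu huA hE with hside | hside
    · refine Forces.win_of ?_ (SCtx.init (C := C) hE' hside hK' hK₀ hdL hdU
        (translation G a ha β) (hcomm β) (fun w => rfl) (hBA β) hβ
        (fun w => det2_add _ _ _) r c)
      rintro r c ⟨n, h⟩
      exact SCtx.strip_win n r c h
    · refine Forces.win_of ?_ (SCtx.init (C := C) hE'.neg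
        (fun N P hN hP w => ⟨fun h => (hside N P hN hP w).2 (fun t => by have := h t; omega),
          fun h => (hside N P hN hP w).1 (fun t => by have := h t; omega)⟩) hK' hK₀ hdL hdU
        (translation G a ha (-β)) (hcomm (-β)) (fun w => rfl) (hBA (-β)) hβ
        (fun w => ?_) r c)
      · rintro r c ⟨n, h⟩
        exact SCtx.strip_win n r c h
      · change - det2 α (w.2 + -β) = - det2 α w.2 + det2 α β
        simp only [det2, Prod.fst_add, Prod.snd_add, Prod.fst_neg, Prod.snd_neg]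
        ring
  obtain ⟨v₀⟩ := hG.nonempty
  exact copsWin_of_win isCover_cover (fun v => ⟨(v, 0), rfl⟩) (fun _ => v₀)
    (fun r => hwin r _)

end

/-- Seven cops win on every connected toroidal graph. -/
theorem main {V : Type*} [Finite V] {G : SimpleGraph V} (hG : G.Connected)
    (ht : IsToroidal G) : CopsWin G 7 := by
  classical
  have := Fintype.ofFinite V
  have : ∀ w, Fintype (G.neighborSet w) := fun w => inferInstance
  rcases sphere_or_cover hG ht with ⟨⟨Pl⟩⟩ | ⟨a, ha, hconn, Pl, hcomm, hf⟩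
  · exact sphere_win hG Pl
  · exact torus_win hG hconn Pl hcomm hf

end Pool.Agent.MP_f5837d_co
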