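import Pool.Agent.Lib.MP_f5837d_co.GDefs

/-! # Task G1: elementary pursuit lemmas -/

set_option autoImplicit false

namespace Pool.Agent.MP_f5837d_co

open SimpleGraph

variable {V W : Type*} {G : SimpleGraph V} {H : SimpleGraph W} {π : W → V}

/-- Occupied places can be moved; the other cops stay. -/
theorem occ_move {k : ℕ} {p p' : Fin k → V} {c : Fin 7 → V} (h : Occ p c)
    (hp : ∀ i, Step G (p i) (p' i)) : ∃ c' : Fin 7 → V, (∀ i, Step G (c i) (c' i)) ∧ Occ p' c' := by
  obtain ⟨ι, hι⟩ := h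
  refine ⟨Function.extend ι p' c, fun j => ?_, ι, fun i => ι.injective.extend_apply _ _ _⟩
  by_cases hj : ∃ i, ι i = j
  · obtain ⟨i, rfl⟩ := hj
    rw [ι.injective.extend_apply, hι]
    exact hp i
  · rw [Function.extend_apply' _ _ _ hj]
    exact Step.refl _ _

/-- A robber guarded by locked cops stays in the territory. -/
theorem Guard.mem_of_step {R : Set W} {k : ℕ} {g : Fin k → W → V} (hg : Guard G H π R g)
    {r r' : W} {c : Fin 7 → V} (h : Locked R g r c) (hr : Step H r r') (hne : ∀ i, c i ≠ π r') :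
    r' ∈ R := by
  obtain ⟨hrR, ι, hι⟩ := h
  rcases hr with rfl | hr
  · exact hrR
  · by_contra hcon
    obtain ⟨i, hi⟩ := hg.conf r hrR r' hr hcon
    exact hne (ι i) ((hι i).trans hi)

namespace G1

theorem snocF_apply {α : Type*} {k : ℕ} (g : Fin k → W → α) (f : W → α) (r : W) :
    (fun i => snocF g f i r) = snocF (fun i => g i r) (f r) := by
  funext i
  refine Fin.lastCases ?_ (fun i => ?_) i
  · simp [snocF]
  · simp [snocF]

theorem Guard.step {R : Set W} {k : ℕ} {g : Fin k → W → V} (hg : Guard G H π R g) {r r' : W}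
    (hr : r ∈ R) (hr' : r' ∈ R) (h : Step H r r') (i : Fin k) : Step G (g i r) (g i r') := by
  rcases h with rfl | h
  · exact Step.refl _ _
  · exact hg.lip i r hr r' hr' h

theorem step_snocF {k : ℕ} {p p' : Fin k → V} {x x' : V} (h : ∀ i, Step G (p i) (p' i))
    (hx : Step G x x') (i : Fin (k + 1)) : Step G (snocF p x i) (snocF p' x' i) := by
  refine Fin.lastCases ?_ (fun i => ?_) i
  · simpa [snocF] using hx
  · simpa [snocF] using h i

theorem occ_snocF {k : ℕ} {p : Fin k → V} {x : V} {c : Fin 7 → V} (h : Occ (snocF p x) c) :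
    Occ p c :=
  h.sub Fin.castSuccEmb (fun i => by simp [snocF])

/-- The conclusion of `lock_event`. -/
def Goal (R Ev : Set W) (H : SimpleGraph W) {k : ℕ} (g : Fin k → W → V) (P : ℤ → V) (s : W → ℤ)
    (r₀ : W) (r : W) (c : Fin 7 → V) : Prop :=
  (r ∈ Ev ∧ (r = r₀ ∨ ∃ x ∈ R, x ∉ Ev ∧ H.Adj x r) ∧ Locked R g r c) ∨
    (r ∉ Ev ∧ Locked R (snocF g (fun r => P (s r))) r c)

/-- One round with a free cop. -/
theorem round {R Ev : Set W} {k : ℕ} {g : Fin k → W → V} (hg : Guard G H π R g) {P : ℤ → V}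
    {s : W → ℤ} {r₀ r : W} {x : V} {c : Fin 7 → V} (hr : r ∈ R) (hrE : r ∉ Ev)
    (hc : Occ (snocF (fun i => g i r) x) c)
    (h : ∀ r', r' ∈ R → r' ∉ Ev → Step H r r' → ∃ x', Step G x x' ∧
      ∀ c', Occ (snocF (fun i => g i r') x') c' → Forces G H π (Goal R Ev H g P s r₀) r' c') :
    Forces G H π (Goal R Ev H g P s r₀) r c := by
  refine Forces.of_step fun r' hrr' hne => ?_
  have hr' : r' ∈ R := hg.mem_of_step ⟨hr, occ_snocF hc⟩ hrr' hne
  by_cases hE : r' ∈ Ev
  · obtain ⟨c', h1, h2⟩ := occ_move (G := G) (occ_snocF hc) (Guard.step hg hr hr' hrr')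
    refine ⟨c', h1, Forces.now (Or.inl ⟨hE, Or.inr ⟨r, hr, hrE, ?_⟩, hr', h2⟩)⟩
    rcases hrr' with rfl | hrr'
    · exact absurd hE hrE
    · exact hrr'
  · obtain ⟨x', hx', h3⟩ := h r' hr' hE hrr'
    obtain ⟨c', h1, h2⟩ := occ_move (G := G) hc (step_snocF (Guard.step hg hr hr' hrr') hx')
    exact ⟨c', h1, h3 c' h2⟩

theorem phase2 {R Ev : Set W} {k : ℕ} {g : Fin k → W → V}
    (hg : Guard G H π R g) (P : ℤ → V) (hP : ∀ t, Step G (P t) (P (t + 1)))
    (s : W → ℤ) (hs : Lip H R s) (b : ℤ) (hb : ∀ r ∈ R, r ∉ Ev → s r ≤ b) (r₀ : W) (n : ℕ) :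
    ∀ (x : ℤ) (r : W) (c : Fin 7 → V), r ∈ R → r ∉ Ev → x ≤ s r → b ≤ x + n →
      Occ (snocF (fun i => g i r) (P x)) c → Forces G H π (Goal R Ev H g P s r₀) r c := by
  induction n with
  | zero =>
    intro x r c hr hrE hx hbx hc
    have h1 := hb r hr hrE
    have h2 : x = s r := by push_cast at hbx; omega
    refine Forces.now (Or.inr ⟨hrE, hr, ?_⟩)
    rw [snocF_apply]
    rwa [h2] at hc
  | succ n ih =>
    intro x r c hr hrE hx hbx hc
    by_cases hxs : x = s r
    · refine Forces.now (Or.inr ⟨hrE, hr, ?_⟩)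
      rw [snocF_apply]
      rwa [hxs] at hc
    · refine round hg hr hrE hc fun r' hr' hE hrr' => ?_
      have h1 : s r - 1 ≤ s r' := by
        rcases hrr' with rfl | hrr'
        · omega
        · have := abs_le.1 (hs r hr r' hr' hrr')
          omega
      by_cases hx' : x = s r'
      · refine ⟨P x, Step.refl _ _, fun c' hc' => Forces.now (Or.inr ⟨hE, hr', ?_⟩)⟩
        rw [snocF_apply]
        rwa [← hx']
      · refine ⟨P (x + 1), hP x, fun c' hc' => ih (x + 1) r' c' hr' hE (by omega) ?_ hc'⟩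
        push_cast at hbx
        omega

theorem phase1 {R Ev : Set W} {k : ℕ} {g : Fin k → W → V}
    (hg : Guard G H π R g) (P : ℤ → V) (s : W → ℤ) (r₀ : W) {y : V}
    (hy : ∀ (r : W) (c : Fin 7 → V), r ∈ R → r ∉ Ev → Occ (snocF (fun i => g i r) y) c →
      Forces G H π (Goal R Ev H g P s r₀) r c) {x : V} (w : G.Walk x y) :
    ∀ (r : W) (c : Fin 7 → V), r ∈ R → r ∉ Ev → Occ (snocF (fun i => g i r) x) c →
      Forces G H π (Goal R Ev H g P s r₀) r c := by
  induction w with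
  | nil => exact hy
  | cons hadj w ih =>
    intro r c hr hrE hc
    exact round hg hr hrE hc fun r' hr' hE _ =>
      ⟨_, Or.inr hadj, fun c' hc' => ih hy r' c' hr' hE hc'⟩

end G1

/-- Lock one more cop on the moving target `P (s r)`, or reach the event `Ev`. (At every moment
the cops first check whether the robber is in `Ev`.) -/
theorem lock_event (hG : G.Preconnected) {R Ev : Set W} {k : ℕ} {g : Fin k → W → V}
    (hg : Guard G H π R g) (hk : k < 7) (P : ℤ → V) (hP : ∀ t, Step G (P t) (P (t + 1)))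
    (s : W → ℤ) (hs : Lip H R s) (a b : ℤ) (hb : ∀ r ∈ R, r ∉ Ev → a ≤ s r ∧ s r ≤ b)
    {r₀ : W} {c₀ : Fin 7 → V} (h : Locked R g r₀ c₀) :
    Forces G H π (fun r c =>
      (r ∈ Ev ∧ (r = r₀ ∨ ∃ x ∈ R, x ∉ Ev ∧ H.Adj x r) ∧ Locked R g r c) ∨
      (r ∉ Ev ∧ Locked R (snocF g (fun r => P (s r))) r c)) r₀ c₀ := by
  change Forces G H π (G1.Goal R Ev H g P s r₀) r₀ c₀
  by_cases hE : r₀ ∈ Ev
  · exact Forces.now (Or.inl ⟨hE, Or.inl rfl, h⟩)
  obtain ⟨x, hx⟩ := h.2.exists_free hk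
  obtain ⟨w⟩ := hG x (P a)
  refine G1.phase1 hg P s r₀ (y := P a) (fun r c hr hrE hc => ?_) w r₀ c₀ h.1 hE hx
  have hbr := hb r hr hrE
  exact G1.phase2 hg P hP s hs b (fun r hr hrE => (hb r hr hrE).2) r₀ (b - a).toNat a r c hr hrE
    hbr.1 (by omega) hc

/-- Lock one more cop on the moving target `P (s r)` when `s` is bounded on the territory. -/
theorem lock (hG : G.Preconnected) {R : Set W} {k : ℕ} {g : Fin k → W → V}
    (hg : Guard G H π R g) (hk : k < 7) (P : ℤ → V) (hP : ∀ t, Step G (P t) (P (t + 1)))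
    (s : W → ℤ) (hs : Lip H R s) (a b : ℤ) (hb : ∀ r ∈ R, a ≤ s r ∧ s r ≤ b)
    {r : W} {c : Fin 7 → V} (h : Locked R g r c) :
    Forces G H π (Locked R (snocF g (fun r => P (s r)))) r c :=
  Forces.mono (fun r c h => by simpa using h)
    (lock_event (Ev := ∅) hG hg hk P hP s hs a b (fun r hr _ => hb r hr) h)

/-- Adding a Lipschitz function to a guarding family gives a guarding family. -/
theorem Guard.snoc {R : Set W} {k : ℕ} {g : Fin k → W → V} (hg : Guard G H π R g) {P : ℤ → V}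
    (hP : ∀ t, Step G (P t) (P (t + 1))) {s : W → ℤ} (hs : Lip H R s) :
    Guard G H π R (snocF g (fun r => P (s r))) := by
  refine ⟨fun i r hr r' hr' hadj => ?_, fun r hr r' hadj hr' => ?_⟩
  · refine Fin.lastCases ?_ (fun i => ?_) i
    · have h1 : s r' = s r ∨ s r' = s r + 1 ∨ s r = s r' + 1 := by
        have := abs_le.1 (hs r hr r' hr' hadj)
        omega
      simp only [snocF, Fin.snoc_last]
      rcases h1 with h1 | h1 | h1
      · rw [h1]; exact Step.refl _ _
      · rw [h1]; exact hP _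
      · rw [h1]; exact (hP _).symm
    · simp only [snocF, Fin.snoc_castSucc]
      exact hg.lip i r hr r' hr' hadj
  · obtain ⟨i, hi⟩ := hg.conf r hr r' hadj hr'
    refine ⟨i.castSucc, ?_⟩
    simpa [snocF] using hi


end Pool.Agent.MP_f5837d_co
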