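import Pool.Agent.Lib.MP_f5837d_co.G1

/-! # Task G1b: pinching a target on a closed walk -/

set_option autoImplicit false

namespace Pool.Agent.MP_f5837d_co

open SimpleGraph

variable {V W : Type*} {G : SimpleGraph V} {H : SimpleGraph W} {π : W → V}

namespace G1b

theorem occ_swap {k : ℕ} {p : Fin k → V} {x y : V} {c : Fin 7 → V}
    (h : Occ (snocF (snocF p x) y) c) : Occ (snocF (snocF p y) x) c := by
  refine h.sub (Equiv.swap (Fin.last (k + 1)) (Fin.last k).castSucc).toEmbedding (fun i => ?_)
  refine Fin.lastCases ?_ (fun i => ?_) i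
  · simp [snocF]
  · refine Fin.lastCases ?_ (fun i => ?_) i
    · simp [snocF]
    · rw [Equiv.toEmbedding_apply, Equiv.swap_apply_of_ne_of_ne]
      · simp [snocF]
      · exact (Fin.castSucc_lt_last _).ne
      · intro h
        exact (Fin.castSucc_lt_last i).ne (Fin.castSucc_injective _ h)

/-- The hypothesis of `pinch_timed` on the robber. -/
def Hyp (G : SimpleGraph V) (H : SimpleGraph W) (π : W → V) {k : ℕ} (g : Fin k → W → V)
    (s : W → ℤ) (N : ℕ → Set W) : Prop :=
  ∀ m, ∀ r ∈ N (m + 1), ∀ r', Step H r r' →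
    (∃ i, g i r = π r') ∨ (r' ∈ N m ∧ (∀ i, Step G (g i r) (g i r')) ∧ |s r - s r'| ≤ 1)

/-- One round with two free cops. -/
theorem round {k : ℕ} {g : Fin k → W → V} {s : W → ℤ} {N : ℕ → Set W} (hN : Hyp G H π g s N)
    {Q : W → (Fin 7 → V) → Prop} {m : ℕ} {r : W} (hr : r ∈ N (m + 1)) {x y : V} {c : Fin 7 → V}
    (hc : Occ (snocF (snocF (fun i => g i r) x) y) c)
    (h : ∀ r', r' ∈ N m → |s r - s r'| ≤ 1 → ∃ x' y', Step G x x' ∧ Step G y y' ∧
      ∀ c', Occ (snocF (snocF (fun i => g i r') x') y') c' → Forces G H π Q r' c') :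
    Forces G H π Q r c := by
  refine Forces.of_step fun r' hrr' hne => ?_
  rcases hN m r hr r' hrr' with ⟨i, hi⟩ | ⟨hr', hg, hs⟩
  · obtain ⟨ι, hι⟩ := G1.occ_snocF (G1.occ_snocF hc)
    exact absurd ((hι i).trans hi) (hne (ι i))
  · obtain ⟨x', y', hx, hy, h3⟩ := h r' hr' hs
    obtain ⟨c', h1, h2⟩ := occ_move (G := G) hc (G1.step_snocF (G1.step_snocF hg hx) hy)
    exact ⟨c', h1, h3 c' h2⟩

theorem done_left {k : ℕ} {g : Fin k → W → V} {P : ℤ → V} {s : W → ℤ} {R : Set W} {r : W}
    (hr : r ∈ R) {x : ℤ} {y : V} (hx : x = s r) {c : Fin 7 → V}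
    (hc : Occ (snocF (snocF (fun i => g i r) (P x)) y) c) :
    Locked R (snocF g (fun r => P (s r))) r c := by
  refine ⟨hr, ?_⟩
  rw [G1.snocF_apply, ← hx]
  exact G1.occ_snocF hc

theorem phase2 {k : ℕ} {g : Fin k → W → V} {P : ℤ → V} (hP : ∀ t, Step G (P t) (P (t + 1)))
    {s : W → ℤ} {N : ℕ → Set W} (hN : Hyp G H π g s N) (hmono : ∀ m j, N (m + j) ⊆ N m)
    (m : ℕ) (j : ℕ) :
    ∀ (x y : ℤ) (r : W) (c : Fin 7 → V), r ∈ N (m + j) → x ≤ s r → s r ≤ y → y ≤ x + j →
      Occ (snocF (snocF (fun i => g i r) (P x)) (P y)) c →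
      Forces G H π (Locked (N m) (snocF g (fun r => P (s r)))) r c := by
  induction j with
  | zero =>
    intro x y r c hr hx hy hxy hc
    refine Forces.now (done_left hr (x := x) ?_ hc)
    push_cast at hxy
    omega
  | succ j ih =>
    intro x y r c hr hx hy hxy hc
    by_cases hxs : x = s r
    · exact Forces.now (done_left (hmono _ _ hr) hxs hc)
    by_cases hys : y = s r
    · exact Forces.now (done_left (hmono _ _ hr) hys (occ_swap hc))
    refine round hN (m := m + j) hr hc fun r' hr' hs => ?_
    have h1 := abs_le.1 hs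
    by_cases hx' : x = s r'
    · exact ⟨P x, P y, Step.refl _ _, Step.refl _ _, fun c' hc' =>
        Forces.now (done_left (hmono _ _ hr') hx' hc')⟩
    by_cases hy' : y = s r'
    · exact ⟨P x, P y, Step.refl _ _, Step.refl _ _, fun c' hc' =>
        Forces.now (done_left (hmono _ _ hr') hy' (occ_swap hc'))⟩
    refine ⟨P (x + 1), P (y - 1), hP x, ?_, fun c' hc' => ih (x + 1) (y - 1) r' c' hr' ?_ ?_ ?_ hc'⟩
    · have h2 := (hP (y - 1)).symm
      rwa [sub_add_cancel] at h2
    · omega
    · omega
    · push_cast at hxy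
      omega

theorem exists_next {x z : V} (w : G.Walk x z) {j : ℕ} (h : w.length ≤ j + 1) :
    ∃ x', Step G x x' ∧ ∃ w' : G.Walk x' z, w'.length ≤ j := by
  cases w with
  | nil => exact ⟨_, Step.refl _ _, Walk.nil, by simp⟩
  | cons hadj w => exact ⟨_, Or.inr hadj, w, by simpa using h⟩

theorem phase1 {k : ℕ} {g : Fin k → W → V} {s : W → ℤ} {N : ℕ → Set W} (hN : Hyp G H π g s N)
    {Q : W → (Fin 7 → V) → Prop} (m : ℕ) {z : V}
    (hz : ∀ (r : W) (c : Fin 7 → V), r ∈ N m → Occ (snocF (snocF (fun i => g i r) z) z) c →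
      Forces G H π Q r c) (j : ℕ) :
    ∀ (x y : V) (w₁ : G.Walk x z) (w₂ : G.Walk y z), w₁.length ≤ j → w₂.length ≤ j →
      ∀ (r : W) (c : Fin 7 → V), r ∈ N (m + j) →
        Occ (snocF (snocF (fun i => g i r) x) y) c → Forces G H π Q r c := by
  induction j with
  | zero =>
    intro x y w₁ w₂ h₁ h₂ r c hr hc
    obtain rfl := Walk.eq_of_length_eq_zero (Nat.le_zero.1 h₁)
    obtain rfl := Walk.eq_of_length_eq_zero (Nat.le_zero.1 h₂)
    exact hz r c hr hc
  | succ j ih =>
    intro x y w₁ w₂ h₁ h₂ r c hr hc
    obtain ⟨x', hx, w₁', h₁'⟩ := exists_next w₁ h₁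
    obtain ⟨y', hy, w₂', h₂'⟩ := exists_next w₂ h₂
    exact round hN (m := m + j) hr hc fun r' hr' _ =>
      ⟨x', y', hx, hy, fun c' hc' => ih x' y' w₁' w₂' h₁' h₂' r' c' hr' hc'⟩

theorem exists_bound (hG : G.Preconnected) [Finite V] :
    ∃ L : ℕ, ∀ a b : V, ∃ w : G.Walk a b, w.length ≤ L := by
  obtain ⟨L, hL⟩ := (Set.finite_range
    (fun p : V × V => (Classical.choice (hG p.1 p.2)).length)).bddAbove
  exact ⟨L, fun a b => ⟨Classical.choice (hG a b), hL ⟨(a, b), rfl⟩⟩⟩

end G1b

/-- Pinch a moving target on a closed walk with two free cops, in bounded time. `N m` is the set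
of the places where the robber may be when `m` rounds are left. -/
theorem pinch_timed (hG : G.Preconnected) [Finite V] {k : ℕ} (hk : k + 2 ≤ 7) (n : ℕ)
    (hn : 0 < n) : ∃ T : ℕ, ∀ (g : Fin k → W → V) (P : ℤ → V), (∀ t, Step G (P t) (P (t + 1))) →
    (∀ t, P (t + n) = P t) → ∀ (s : W → ℤ) (N : ℕ → Set W), (∀ m, N (m + 1) ⊆ N m) →
    (∀ m, ∀ r ∈ N (m + 1), ∀ r', Step H r r' →
      (∃ i, g i r = π r') ∨ (r' ∈ N m ∧ (∀ i, Step G (g i r) (g i r')) ∧ |s r - s r'| ≤ 1)) →
    ∀ (m : ℕ) (r : W) (c : Fin 7 → V), r ∈ N (m + T) → Occ (fun i => g i r) c →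
      Forces G H π (Locked (N m) (snocF g (fun r => P (s r)))) r c := by
  obtain ⟨L, hL⟩ := G1b.exists_bound hG
  refine ⟨n + L, fun g P hP hper s N hmono hN m r c hr hc => ?_⟩
  have hmono' : ∀ m j, N (m + j) ⊆ N m := by
    intro m j
    induction j with
    | zero => exact subset_rfl
    | succ j ih => exact (hmono (m + j)).trans ih
  obtain ⟨x, hx⟩ := hc.exists_free (by omega)
  obtain ⟨y, hy⟩ := hx.exists_free (by omega)
  obtain ⟨w₁, h₁⟩ := hL x (P 0)
  obtain ⟨w₂, h₂⟩ := hL y (P 0)
  refine G1b.phase1 hN (m + n) (fun r c hr hc => ?_) L x y w₁ w₂ h₁ h₂ r c ?_ hy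
  · have hn' : (0 : ℤ) < n := by exact_mod_cast hn
    have hp : Function.Periodic P (n : ℤ) := hper
    have e1 : P (s r / n * n) = P 0 := by
      have := (hp.int_mul (s r / n)) 0
      rwa [zero_add] at this
    have e2 : P (s r / n * n + n) = P 0 := by rw [hper, e1]
    have hdm := Int.emod_add_mul_ediv (s r) n
    have h0 := Int.emod_nonneg (s r) hn'.ne'
    have h3 := Int.emod_lt_of_pos (s r) hn'
    have hcomm : (n : ℤ) * (s r / n) = s r / n * n := mul_comm _ _
    refine G1b.phase2 hP hN hmono' m n (s r / n * n) (s r / n * n + n) r c hr (by omega)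
      (by omega) le_rfl ?_
    rwa [e1, e2]
  · rwa [add_assoc]

/-- The same for a guarded territory. -/
theorem pinch (hG : G.Preconnected) [Finite V] {R : Set W} {k : ℕ} {g : Fin k → W → V}
    (hg : Guard G H π R g) (hk : k + 2 ≤ 7) (n : ℕ) (hn : 0 < n) (P : ℤ → V)
    (hP : ∀ t, Step G (P t) (P (t + 1))) (hper : ∀ t, P (t + n) = P t) (s : W → ℤ)
    (hs : Lip H R s) {r : W} {c : Fin 7 → V} (h : Locked R g r c) :
    Forces G H π (Locked R (snocF g (fun r => P (s r)))) r c := by
  obtain ⟨T, hT⟩ := pinch_timed (H := H) (π := π) hG hk n hn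
  refine hT g P hP hper s (fun _ => R) (fun _ => subset_rfl) ?_ 0 r c h.1 h.2
  intro _ x hx x' hxx'
  rcases hxx' with rfl | hadj
  · exact Or.inr ⟨hx, fun i => Step.refl _ _, by simp⟩
  · by_cases hx' : x' ∈ R
    · exact Or.inr ⟨hx', fun i => hg.lip i x hx x' hx' hadj, hs x hx x' hx' hadj⟩
    · exact Or.inl (hg.conf x hx x' hadj hx')


end Pool.Agent.MP_f5837d_co

namespace Pool.Agent.MP_f5837d_co

open SimpleGraph

variable {V W : Type*} {G : SimpleGraph V} {H : SimpleGraph W} {π : W → V}

/-! ## Task G2: the train -/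

namespace G2

theorem snocF_app {α β : Type*} {k : ℕ} (g : Fin k → α → β) (f : α → β) (i : Fin (k + 1)) (r : α) :
    snocF g f i r = snocF (fun i => g i r) (f r) i := by
  refine Fin.lastCases ?_ (fun i => ?_) i
  · simp [snocF]
  · simp [snocF]

theorem snocF_app2 {α β : Type*} {k : ℕ} (g : Fin k → α → β) (f : α → β) (r : α) :
    (fun i => snocF g f i r) = snocF (fun i => g i r) (f r) := by
  funext i
  exact snocF_app g f i r

/-- Steps of a family. -/
theorem snocF_step {k : ℕ} {p p' : Fin k → V} {x x' : V} (h : ∀ i, Step G (p i) (p' i))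
    (hx : Step G x x') (i : Fin (k + 1)) : Step G (snocF p x i) (snocF p' x' i) := by
  refine Fin.lastCases ?_ (fun i => ?_) i
  · simpa [snocF] using hx
  · simpa [snocF] using h i

/-- Steps along a walk. -/
theorem walk_step {P : ℤ → V} (hP : ∀ t, Step G (P t) (P (t + 1))) {a b : ℤ} (h : |a - b| ≤ 1) :
    Step G (P a) (P b) := by
  rw [abs_le] at h
  rcases (show b = a ∨ b = a + 1 ∨ a = b + 1 by omega) with h | h | h
  · rw [h]; exact Step.refl _ _
  · rw [h]; exact hP a
  · rw [h]; exact (hP b).symm

theorem init_occ {k : ℕ} {p : Fin (k + 1) → V} {c : Fin 7 → V} (h : Occ p c) :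
    Occ (fun i : Fin k => p i.castSucc) c :=
  h.sub ⟨Fin.castSucc, Fin.castSucc_injective k⟩ (fun _ => rfl)

theorem occ_init {k : ℕ} {p : Fin k → V} {x : V} {c : Fin 7 → V} (h : Occ (snocF p x) c) :
    Occ p c := by
  have := init_occ h
  simpa [snocF] using this

theorem occ_perm {p : Fin 4 → V} {x y z : V} {c : Fin 7 → V}
    (h : Occ (snocF (snocF (snocF p x) y) z) c) : Occ (snocF (snocF (snocF p z) x) y) c := by
  refine h.sub ⟨![0, 1, 2, 3, 6, 4, 5], by decide⟩ ?_
  intro i
  fin_cases i <;> rfl

end G2

/-- The train: `g` are four locked cops that guard `R`, `P` is a closed walk in `G`. If after at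
most `T` consecutive steps along which `u` increases (and which avoid the vertices `w` with
`π w = P (u w)`) there is a moment at which the position is good as soon as the places
`P (u r)`, `P (u r + 1)` are occupied, then the cops can force a good position or lock three cops
on `P (u r - 1)`, `P (u r)`, `P (u r + 1)`. -/
theorem train (hG : G.Preconnected) [Finite V] {R : Set W} {g : Fin 4 → W → V}
    (hg : Guard G H π R g) (n : ℕ) (hn : 0 < n) (P : ℤ → V)
    (hP : ∀ t, Step G (P t) (P (t + 1))) (hper : ∀ t, P (t + n) = P t) (u : W → ℤ)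
    (hu : Lip H R u) (T : ℕ) (Q : W → (Fin 7 → V) → Prop)
    (hrun : ∀ p : ℕ → W, (∀ k ≤ T, p k ∈ R) →
      (∀ k < T, H.Adj (p k) (p (k + 1)) ∧ u (p (k + 1)) = u (p k) + 1) →
      (∀ k ≤ T, 0 < k → π (p k) ≠ P (u (p k))) →
      ∃ k ≤ T, ∀ c, Occ (fun i => snocF (snocF g (fun r => P (u r))) (fun r => P (u r + 1)) i
        (p k)) c → Q (p k) c)
    {r : W} {c : Fin 7 → V} (h : Locked R g r c) :
    Forces G H π (fun r c => Q r c ∨ Locked R
      (snocF (snocF (snocF g (fun r => P (u r - 1))) (fun r => P (u r))) (fun r => P (u r + 1)))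
      r c) r c := by
  classical
  set good : W → Prop := fun w => ∀ c, Occ (fun i => snocF (snocF g (fun r => P (u r)))
    (fun r => P (u r + 1)) i w) c → Q w c with hgood
  set goal : W → (Fin 7 → V) → Prop := fun r c => Q r c ∨ Locked R
      (snocF (snocF (snocF g (fun r => P (u r - 1))) (fun r => P (u r))) (fun r => P (u r + 1)))
      r c with hgoal
  set A : W → ℤ → Fin 7 → V := fun r x =>
    snocF (snocF (snocF (fun i => g i r) (P (u r))) (P (u r + 1))) (P x) with hA
  -- the guard of five and six
  have hg5 := hg.snoc (P := P) hP hu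
  have hP1 : ∀ t, Step G ((fun t => P (t + 1)) t) ((fun t => P (t + 1)) (t + 1)) := fun t => hP _
  have hg6 := hg5.snoc (P := fun t => P (t + 1)) hP1 hu
  -- at a good vertex we can stop
  have hstop : ∀ r x c, good r → Occ (A r x) c → Forces G H π goal r c := by
    intro r x c h1 h2
    refine Forces.now (Or.inl (h1 c ?_))
    have := G2.occ_init h2
    rw [G2.snocF_app2, G2.snocF_app2]
    exact this
  -- the main claim
  have hmain : ∀ (D : ℕ) (r : W) (x : ℤ) (c : Fin 7 → V), r ∈ R → Occ (A r x) c →
      u r - 1 - x = D → Forces G H π goal r c := by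
    intro D
    induction D using Nat.strong_induction_on with
    | _ D ihD =>
    intro r x c hr hocc hD
    rcases Nat.eq_zero_or_pos D with hD0 | hDpos
    · -- locked
      subst hD0
      have hx : x = u r - 1 := by push_cast at hD; omega
      refine Forces.now (Or.inr ⟨hr, ?_⟩)
      rw [G2.snocF_app2, G2.snocF_app2, G2.snocF_app2]
      rw [hA, hx] at hocc
      exact G2.occ_perm hocc
    · -- the inner induction
      have hinner : ∀ (m j : ℕ), j + m = T → ∀ (p : ℕ → W), (∀ k ≤ j, p k ∈ R) →
          (∀ k < j, H.Adj (p k) (p (k + 1)) ∧ u (p (k + 1)) = u (p k) + 1) →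
          (∀ k ≤ j, 0 < k → π (p k) ≠ P (u (p k))) → (∀ k ≤ j, ¬ good (p k)) →
          ∀ (x : ℤ) (c : Fin 7 → V), Occ (A (p j) x) c → u (p j) - 1 - x = D →
          Forces G H π goal (p j) c := by
        intro m
        induction m with
        | zero =>
          intro j hj p h1 h2 h3 h4
          exfalso
          have hjT : j = T := by omega
          subst hjT
          obtain ⟨k, hk, hk'⟩ := hrun p h1 h2 h3
          exact h4 k hk hk'
        | succ m ihm =>
          intro j hj p h1 h2 h3 h4 x c hocc hD
          refine Forces.of_step ?_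
          intro r' hstep hne
          have hpj := h1 j le_rfl
          -- the robber stays in the territory
          have hlock : Locked R g (p j) c :=
            ⟨hpj, G2.occ_init (G2.occ_init (G2.occ_init hocc))⟩
          have hr' : r' ∈ R := Guard.mem_of_step hg hlock hstep hne
          have hδ : |u (p j) - u r'| ≤ 1 := by
            rcases hstep with h | h
            · rw [h]; simp
            · exact hu _ hpj _ hr' h
          have hgs : ∀ i, Step G (g i (p j)) (g i r') := by
            intro i
            rcases hstep with h | h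
            · rw [h]; exact Step.refl _ _
            · exact hg.lip i _ hpj _ hr' h
          -- cops' move
          have hmove : ∀ x' : ℤ, |x - x'| ≤ 1 → ∃ c' : Fin 7 → V,
              (∀ i, Step G (c i) (c' i)) ∧ Occ (A r' x') c' := by
            intro x' hx'
            refine occ_move hocc ?_
            intro i
            refine G2.snocF_step ?_ (G2.walk_step hP hx') i
            intro i
            refine G2.snocF_step ?_ (G2.walk_step hP (by
              have : u (p j) + 1 - (u r' + 1) = u (p j) - u r' := by ring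
              rw [this]; exact hδ)) i
            intro i
            exact G2.snocF_step hgs (G2.walk_step hP hδ) i
          rw [abs_le] at hδ
          by_cases hinc : u r' = u (p j) + 1
          · -- increasing move
            have hadj : H.Adj (p j) r' := by
              rcases hstep with h | h
              · exfalso; rw [h] at hinc; omega
              · exact h
            obtain ⟨c', hc', hocc'⟩ := hmove (x + 1) (by
              have : x - (x + 1) = -1 := by ring
              rw [this]; simp)
            refine ⟨c', hc', ?_⟩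
            by_cases hgd : good r'
            · exact hstop r' (x + 1) c' hgd hocc'
            · set p' : ℕ → W := fun k => if k ≤ j then p k else r' with hp'
              have e1 : ∀ k ≤ j, p' k = p k := fun k hk => by simp [hp', hk]
              have e2 : p' (j + 1) = r' := by simp [hp']
              have := ihm (j + 1) (by omega) p' ?_ ?_ ?_ ?_ (x + 1) c' (by rw [e2]; exact hocc')
                (by rw [e2, hinc]; omega)
              · rw [e2] at this
                exact this
              · intro k hk
                rcases Nat.lt_or_ge j k with h | h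
                · have : k = j + 1 := by omega
                  rw [this, e2]; exact hr'
                · rw [e1 k h]; exact h1 k h
              · intro k hk
                rcases Nat.lt_or_ge k j with h | h
                · rw [e1 k h.le, e1 (k + 1) h]; exact h2 k h
                · have : k = j := by omega
                  rw [this, e2, e1 j le_rfl]
                  exact ⟨hadj, hinc⟩
              · intro k hk hk0
                rcases Nat.lt_or_ge j k with h | h
                · have : k = j + 1 := by omega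
                  rw [this, e2, hinc]
                  -- the cop on `P (u (p j) + 1)`
                  obtain ⟨ι, hι⟩ := hocc
                  have h5 := hι 5
                  have h5' : A (p j) x 5 = P (u (p j) + 1) := rfl
                  intro hcon
                  apply hne (ι 5)
                  rw [h5, h5', hcon]
                · rw [e1 k h]; exact h3 k h hk0
              · intro k hk
                rcases Nat.lt_or_ge j k with h | h
                · have : k = j + 1 := by omega
                  rw [this, e2]; exact hgd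
                · rw [e1 k h]; exact h4 k h
          · -- the gap drops
            obtain ⟨c', hc', hocc'⟩ := hmove (min (x + 1) (u r' - 1)) (by
              rw [abs_le]; omega)
            refine ⟨c', hc', ?_⟩
            refine ihD (u r' - 1 - min (x + 1) (u r' - 1)).toNat ?_ r' _ c' hr' hocc' ?_
            · omega
            · omega
      by_cases hgd : good r
      · exact hstop r x c hgd hocc
      · exact hinner T 0 (by omega) (fun _ => r) (fun _ _ => hr) (fun k hk => by omega)
          (fun k hk hk0 => by omega) (fun _ _ => hgd) x c hocc hD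
  -- stage 1: lock `P (u r)`
  refine Forces.trans ?_ (pinch hG hg (by norm_num) n hn P hP hper u hu h)
  intro r c h
  -- stage 2: lock `P (u r + 1)`
  refine Forces.trans ?_ (pinch hG hg5 (by norm_num) n hn (fun t => P (t + 1)) hP1 (by
    intro t
    show P (t + n + 1) = P (t + 1)
    rw [← hper (t + 1)]
    congr 1; ring) u hu h)
  intro r c h
  -- stage 3: the last cop walks to `P 0`
  refine Forces.trans ?_ (lock hG hg6 (by norm_num) (fun _ => P 0) (fun _ => Step.refl _ _)
    (fun _ => 0) (fun _ _ _ _ _ => by simp) 0 0 (fun _ _ => by simp) h)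
  intro r c h
  obtain ⟨hr, hocc⟩ := h
  rw [G2.snocF_app2, G2.snocF_app2, G2.snocF_app2] at hocc
  -- periodicity
  have hperk : ∀ (k : ℕ), P (-(n * k : ℤ)) = P 0 := by
    intro k
    induction k with
    | zero => simp
    | succ k ih =>
      rw [← ih, ← hper]
      congr 1
      push_cast; ring
  set k : ℕ := (1 - u r).toNat with hk
  have hkey : u r - 1 - (-(n * k : ℤ)) = ((u r - 1 + n * k).toNat : ℕ) := by
    have h1 : (0 : ℤ) ≤ u r - 1 + n * k := by
      have h2 : (1 - u r : ℤ) ≤ k := by omega
      have h3 : (k : ℤ) ≤ n * k := by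
        have : (1 : ℤ) ≤ n := by exact_mod_cast hn
        nlinarith [Int.natCast_nonneg k]
      omega
    rw [Int.toNat_of_nonneg h1]
    ring
  refine hmain _ r (-(n * k : ℤ)) c hr ?_ hkey
  rw [hA]
  show Occ (snocF (snocF (snocF (fun i => g i r) (P (u r))) (P (u r + 1))) (P (-(n * k : ℤ)))) c
  rw [hperk]
  exact hocc


end Pool.Agent.MP_f5837d_co
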