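import Pool.Agent.Lib.MP_f5837d_co.Surround

/-!
# Surrounding cops and robbers on toroidal graphs: definitions used in the proof
-/

set_option autoImplicit false

namespace Pool.Agent.MP_f5837d_co

open SimpleGraph

/-! ### The game on a covering graph -/

section Covering

variable {V W : Type*}

/-- `π` maps the graph `H` to `G` and is locally surjective. -/
structure IsCover (G : SimpleGraph V) (H : SimpleGraph W) (π : W → V) : Prop where
  adj : ∀ {w w'}, H.Adj w w' → G.Adj (π w) (π w')
  lift : ∀ {w y}, G.Adj (π w) y → ∃ w', H.Adj w w' ∧ π w' = y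

/-- The robber moves on `H`, the seven cops on `G`; it is the robber's turn, and the cops can force
a position with `Q` (in which it is again the robber's turn). -/
inductive Forces (G : SimpleGraph V) (H : SimpleGraph W) (π : W → V)
    (Q : W → (Fin 7 → V) → Prop) : W → (Fin 7 → V) → Prop
  | now {r : W} {c : Fin 7 → V} : Q r c → Forces G H π Q r c
  | step {r : W} {c : Fin 7 → V} (f : W → Fin 7 → V)
      (h₁ : ∀ r', Step H r r' → (∀ i, c i ≠ π r') → ∀ i, Step G (c i) (f r' i))
      (h₂ : ∀ r', Step H r r' → (∀ i, c i ≠ π r') → Forces G H π Q r' (f r')) :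
      Forces G H π Q r c

/-- The cops can surround the robber. -/
def Win (G : SimpleGraph V) (H : SimpleGraph W) (π : W → V) (r : W) (c : Fin 7 → V) : Prop :=
  Forces G H π (fun r c => ∀ y, H.Adj r y → ∃ i, c i = π y) r c

/-- Some `k` of the cops are on the vertices `g 0, …, g (k-1)`. -/
def Occ {k : ℕ} (g : Fin k → V) (c : Fin 7 → V) : Prop := ∃ ι : Fin k ↪ Fin 7, ∀ i, c (ι i) = g i

/-- The cops that are locked to the functions `g i` keep the robber in the territory `R`. -/
structure Guard (G : SimpleGraph V) (H : SimpleGraph W) (π : W → V) (R : Set W) {k : ℕ}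
    (g : Fin k → W → V) : Prop where
  lip : ∀ i, ∀ r ∈ R, ∀ r' ∈ R, H.Adj r r' → Step G (g i r) (g i r')
  conf : ∀ r ∈ R, ∀ r', H.Adj r r' → r' ∉ R → ∃ i, g i r = π r'

end Covering

/-! ### Plane graphs -/

section Plane

variable {W : Type*} (H : SimpleGraph W)

/-- A simply connected rotation system: every conservative flow on the darts is the boundary of
a function on the faces. -/
structure Plane [∀ w, Fintype (H.neighborSet w)] extends RotationSystem H where
  exact : ∀ E : H.Dart → ℤ, (∀ d, E d.symm = - E d) →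
    (∀ w, ∑ y : H.neighborSet w, E (H.dartOfNeighborSet w y) = 0) →
    ∃ F : H.Dart → ℤ, (∀ d, F (rot d.symm) = F d) ∧ ∀ d, F d - F d.symm = E d

variable {H}

/-- A set of darts that is a union of faces. -/
def IsFaceSet (ρ : RotationSystem H) (S : Set H.Dart) : Prop := ∀ d, ρ.rot d.symm ∈ S ↔ d ∈ S

/-- `S` is a union of faces whose boundary is the set `C` of edges. -/
def IsRegion (ρ : RotationSystem H) (C : Set (Sym2 W)) (S : Set H.Dart) : Prop :=
  IsFaceSet ρ S ∧ ∀ d : H.Dart, (d ∈ S ↔ d.symm ∈ S) ↔ d.edge ∉ C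

/-- The vertices all of whose darts are in `S`. -/
def Ins (S : Set H.Dart) : Set W := {w | ∀ d : H.Dart, d.fst = w → d ∈ S}

/-- A curve: a bi-infinite walk that never turns back, whose next and previous vertex are
determined by the present vertex (a bi-infinite path or a cycle run through periodically). -/
structure IsCurve (H : SimpleGraph W) (c : ℤ → W) : Prop where
  adj : ∀ t, H.Adj (c t) (c (t + 1))
  det : ∀ s t, c s = c t → c (s + 1) = c (t + 1) ∧ c (s - 1) = c (t - 1)
  noback : ∀ t, c (t + 2) ≠ c t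

/-- `S` is the set of the darts (faces) on the left of the curve `c`. -/
structure IsLeft (ρ : RotationSystem H) (c : ℤ → W) (S : Set H.Dart) : Prop where
  face : IsFaceSet ρ S
  left : ∀ (t : ℤ) (d : H.Dart), d.fst = c t → d.snd = c (t + 1) → d ∈ S ∧ d.symm ∉ S
  off : ∀ d : H.Dart, (∀ t : ℤ, ¬ (d.fst = c t ∧ d.snd = c (t + 1)) ∧
    ¬ (d.fst = c (t + 1) ∧ d.snd = c t)) → (d ∈ S ↔ d.symm ∈ S)

end Plane

end Pool.Agent.MP_f5837d_co

namespace Pool.Agent.MP_f5837d_co

open SimpleGraph

variable {V W : Type*} {G : SimpleGraph V} {H : SimpleGraph W} {π : W → V}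

theorem Step.refl (G : SimpleGraph V) (x : V) : Step G x x := Or.inl rfl

theorem Step.symm {x y : V} (h : Step G x y) : Step G y x := by
  rcases h with h | h
  · exact Or.inl h.symm
  · exact Or.inr h.symm

theorem Step.map (hπ : IsCover G H π) {x y : W} (h : Step H x y) : Step G (π x) (π y) := by
  rcases h with h | h
  · exact Or.inl (by rw [h])
  · exact Or.inr (hπ.adj h)

namespace Forces

variable {Q Q' : W → (Fin 7 → V) → Prop} {r : W} {c : Fin 7 → V}

theorem of_step (h : ∀ r', Step H r r' → (∀ i, c i ≠ π r') →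
    ∃ c' : Fin 7 → V, (∀ i, Step G (c i) (c' i)) ∧ Forces G H π Q r' c') :
    Forces G H π Q r c := by
  classical
  haveI : Nonempty (Fin 7 → V) := ⟨c⟩
  choose! f h1 h2 using h
  exact Forces.step f h1 h2

theorem mono (hQ : ∀ r c, Q r c → Q' r c) (h : Forces G H π Q r c) : Forces G H π Q' r c := by
  induction h with
  | now h => exact Forces.now (hQ _ _ h)
  | step f h1 _ ih => exact Forces.step f h1 ih

theorem trans (hQ : ∀ r c, Q r c → Forces G H π Q' r c) (h : Forces G H π Q r c) :
    Forces G H π Q' r c := by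
  induction h with
  | now h => exact hQ _ _ h
  | step f h1 _ ih => exact Forces.step f h1 ih

theorem win_of (hQ : ∀ r c, Q r c → Win G H π r c) (h : Forces G H π Q r c) : Win G H π r c :=
  trans hQ h

end Forces

/-- From a win on the cover to a win on the base graph. -/
theorem copsWinFrom_of_win (hπ : IsCover G H π) {r : W} {c : Fin 7 → V}
    (h : Win G H π r c) : ∀ c₀ : Fin 7 → V, (∀ i, Step G (c₀ i) (c i)) →
    CopsWinFrom G c₀ (π r) := by
  unfold Win at h
  induction h with
  | @now r c h =>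
    intro c₀ hc
    refine CopsWinFrom.catch c₀ c _ hc ?_
    intro y hy
    obtain ⟨w', hw, rfl⟩ := hπ.lift hy
    exact h w' hw
  | @step r c f h1 _ ih =>
    intro c₀ hc
    refine CopsWinFrom.round c₀ c _ hc ?_
    intro y hy hne
    have : ∃ r', Step H r r' ∧ π r' = y := by
      rcases hy with hy | hy
      · exact ⟨r, Step.refl _ _, hy⟩
      · obtain ⟨w', hw, hw'⟩ := hπ.lift hy
        exact ⟨w', Or.inr hw, hw'⟩
    obtain ⟨r', hr', rfl⟩ := this
    exact ih r' hr' hne c (h1 r' hr' hne)

theorem copsWin_of_win (hπ : IsCover G H π) (hs : Function.Surjective π) (c : Fin 7 → V)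
    (h : ∀ r : W, Win G H π r c) : CopsWin G 7 := by
  refine ⟨c, fun r => ?_⟩
  obtain ⟨w, rfl⟩ := hs r
  exact copsWinFrom_of_win hπ (h w) c (fun i => Step.refl _ _)

theorem Occ.sub {k m : ℕ} {g : Fin k → V} {g' : Fin m → V} {c : Fin 7 → V} (h : Occ g c)
    (f : Fin m ↪ Fin k) (hf : ∀ i, g (f i) = g' i) : Occ g' c := by
  obtain ⟨ι, hι⟩ := h
  exact ⟨f.trans ι, fun i => by simp [hι, hf]⟩

/-- If `m ≤ 7 - k`, then besides the `k` locked cops there are `m` free ones. -/
theorem Occ.exists_free {k : ℕ} {g : Fin k → V} {c : Fin 7 → V} (h : Occ g c) (hk : k < 7) :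
    ∃ x : V, Occ (Fin.snoc g x : Fin (k + 1) → V) c := by
  obtain ⟨ι, hι⟩ := h
  have : ∃ j : Fin 7, j ∉ Set.range ι := by
    by_contra hcon
    push Not at hcon
    have hs : Function.Surjective ι := fun j => hcon j
    have := Fintype.card_le_of_surjective ι hs
    simp at this
    omega
  obtain ⟨j, hj⟩ := this
  refine ⟨c j, ⟨⟨Fin.snoc ι j, ?_⟩, ?_⟩⟩
  · intro a b
    refine Fin.lastCases ?_ (fun a => ?_) a <;> refine Fin.lastCases ?_ (fun b => ?_) b
    · simp
    · simp only [Fin.snoc_last, Fin.snoc_castSucc]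
      intro h; exact absurd ⟨b, h.symm⟩ hj
    · simp only [Fin.snoc_last, Fin.snoc_castSucc]
      intro h; exact absurd ⟨a, h⟩ hj
    · simp only [Fin.snoc_castSucc]
      intro h; rw [ι.injective h]
  · intro i
    refine Fin.lastCases ?_ (fun i => ?_) i
    · simp
    · simp [hι]

end Pool.Agent.MP_f5837d_co

/-! # Definitions: locked cops, potentials, pairs, trios, pockets -/


namespace Pool.Agent.MP_f5837d_co

open SimpleGraph

variable {V W : Type*} {G : SimpleGraph V} {H : SimpleGraph W} {π : W → V}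

/-- Add one function to a family. -/
def snocF {α : Type*} {k : ℕ} (g : Fin k → α) (x : α) : Fin (k + 1) → α :=
  Fin.snoc (α := fun _ => α) g x

/-- `k` cops are locked to the functions `g i`, and the robber is in `R`. -/
def Locked (R : Set W) {k : ℕ} (g : Fin k → W → V) (r : W) (c : Fin 7 → V) : Prop :=
  r ∈ R ∧ Occ (fun i => g i r) c

/-- The function `s` changes by at most one along the edges inside `R`. -/
def Lip (H : SimpleGraph W) (R : Set W) (s : W → ℤ) : Prop :=
  ∀ r ∈ R, ∀ r' ∈ R, H.Adj r r' → |s r - s r'| ≤ 1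

/-! ## Potentials, pairs -/

/-- `s` is a potential on `R` for the line `P` with the active indices `J`. -/
structure Potential (H : SimpleGraph W) (R : Set W) (P : ℤ → W) (J : Set ℤ) (s : W → ℤ) :
    Prop where
  lip : Lip H R s
  near : ∀ r ∈ R, ∀ t ∈ J, H.Adj r (P t) → |s r - t| ≤ 1

/-- An arc inside `R`: an edge along which `s` increases. -/
def Arc (H : SimpleGraph W) (R : Set W) (s : W → ℤ) (x y : W) : Prop :=
  x ∈ R ∧ y ∈ R ∧ H.Adj x y ∧ s y = s x + 1

/-- There is an `s`-increasing path through `R` from `r ∈ R` to the line. -/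
def ToLine (H : SimpleGraph W) (R : Set W) (P : ℤ → W) (J : Set ℤ) (s : W → ℤ) (r : W) : Prop :=
  ∃ y, Relation.ReflTransGen (Arc H R s) r y ∧ y ∈ R ∧ ∃ t ∈ J, H.Adj y (P t) ∧ t = s y + 1

/-- There is an `s`-increasing path through `R` from the line to `r ∈ R`. -/
def FromLine (H : SimpleGraph W) (R : Set W) (P : ℤ → W) (J : Set ℤ) (s : W → ℤ) (r : W) : Prop :=
  ∃ y, Relation.ReflTransGen (Arc H R s) y r ∧ y ∈ R ∧ ∃ t ∈ J, H.Adj y (P t) ∧ t = s y - 1

/-- No detour of excess zero through `R`. -/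
def NoDet (H : SimpleGraph W) (R : Set W) (P : ℤ → W) (J : Set ℤ) (s : W → ℤ) : Prop :=
  ∀ r ∈ R, FromLine H R P J s r → ¬ ToLine H R P J s r

open Classical in
/-- The first guard function of a pair. -/
noncomputable def cTo (H : SimpleGraph W) (R : Set W) (P : ℤ → W) (J : Set ℤ) (s : W → ℤ)
    (r : W) : ℤ := if ToLine H R P J s r then s r else s r - 1

open Classical in
/-- The second guard function of a pair. -/
noncomputable def cFrom (H : SimpleGraph W) (R : Set W) (P : ℤ → W) (J : Set ℤ) (s : W → ℤ)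
    (r : W) : ℤ := if FromLine H R P J s r then s r - 1 else s r

/-- `c` is a guard function for a pair on `P c`, `P (c+1)`, close to the potential `s`. -/
structure PairFun (H : SimpleGraph W) (R : Set W) (P : ℤ → W) (J : Set ℤ) (s c : W → ℤ) :
    Prop where
  lip : Lip H R c
  cov : ∀ r ∈ R, ∀ t ∈ J, H.Adj r (P t) → t = c r ∨ t = c r + 1
  val : ∀ r, c r = s r - 1 ∨ c r = s r

/-! ## Trios and pockets -/

/-- The functions of a trio on the line `P`, composed with `π`. -/
def trio (π : W → V) (P : ℤ → W) (s : W → ℤ) : Fin 3 → W → V :=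
  ![fun r => π (P (s r - 1)), fun r => π (P (s r)), fun r => π (P (s r + 1))]

/-- The functions of a pair on the line `P`. -/
def pair (π : W → V) (P : ℤ → W) (c : W → ℤ) : Fin 2 → W → V :=
  ![fun r => π (P (c r)), fun r => π (P (c r + 1))]

/-- Concatenation of two families. -/
def appF {α : Type*} {k m : ℕ} (g : Fin k → α) (g' : Fin m → α) : Fin (k + m) → α :=
  Fin.append g g'

/-- A detour of excess zero of the line `P` through `R`: `q` is the line `P`, rerouted through `R`
between the indices `i` and `j`. -/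
structure ZDet (H : SimpleGraph W) (R : Set W) (P : ℤ → W) (J : Set ℤ) (s : W → ℤ) (q : ℤ → W)
    (i j : ℤ) : Prop where
  hi : i ∈ J
  hj : j ∈ J
  hij : i + 2 ≤ j
  out : ∀ t, t ≤ i ∨ j ≤ t → q t = P t
  mem : ∀ t, i < t → t < j → q t ∈ R ∧ s (q t) = t
  adj : ∀ t, i ≤ t → t < j → H.Adj (q t) (q (t + 1))

/-- The geometric data of a pocket. -/
structure Pocket (H : SimpleGraph W) (R D O : Set W) (P q : ℤ → W) (J : Set ℤ) (s : W → ℤ)
    (i j : ℤ) : Prop where
  pot : Potential H R P J s
  walk : ∀ t, Step H (P t) (P (t + 1))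
  det : ZDet H R P J s q i j
  hJ : Set.Icc i j ⊆ J
  part : ∀ r ∈ R, r ∈ D ∨ r ∈ O ∨ ∃ t, i < t ∧ t < j ∧ r = q t
  subD : D ⊆ R
  subO : O ⊆ R
  disj : Disjoint D O
  qD : ∀ t, i < t → t < j → q t ∉ D ∧ q t ∉ O
  sep : ∀ x ∈ D, ∀ y ∈ O, ¬ H.Adj x y
  nD : ∀ x ∈ D, ∀ y, H.Adj x y → y ∈ R ∨ ∃ t, i ≤ t ∧ t ≤ j ∧ y = P t
  nO : ∀ x ∈ O, ∀ t ∈ J, H.Adj x (P t) → t ≤ i ∨ j ≤ t
  finD : D.Finite
  chord : ∀ t t', i < t → t < j → i < t' → t' < j → H.Adj (q t) (P t') → t = t'
  /-- no increasing path through `D` between two places of the boundary of the pocket -/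
  strict : ∀ r ∈ D, (FromLine H D P (Set.Icc i j) s r ∨ FromLine H D q (Set.Icc i j) s r) →
    ¬ (ToLine H D P (Set.Icc i j) s r ∨ ToLine H D q (Set.Icc i j) s r)


end Pool.Agent.MP_f5837d_co
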