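import Pool.Agent.Lib.MP_f5837d_co.LB
import Pool.Agent.Lib.MP_f5837d_co.G3

/-!
# Task L1: periodic lines, reachability, extreme lines (blueprint 5.1, 5.3)
-/

set_option autoImplicit false

namespace Pool.Agent.MP_f5837d_co

open SimpleGraph

variable {V W : Type*} {G : SimpleGraph V} {H : SimpleGraph W} {π : W → V}
variable [∀ w, Fintype (H.neighborSet w)]

namespace SCtx

variable (C : SCtx G H π)

/-- The mirror image. -/
def mirror : SCtx G H π where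
  Pl := C.Pl.mirror
  A := C.A
  ℓ := C.ℓ
  u := C.u
  hH := C.hH
  hG := C.hG
  finV := C.finV
  cover := C.cover
  hA := C.hA
  rotA := rotComm_mirror _ C.rotA
  ℓpos := C.ℓpos
  lip := C.lip
  uA := C.uA
  coh := fun N hN P Q hP hQ h1 h2 =>
    coherent_mirror C.hH C.Pl hP.isCurve hQ.isCurve (C.coh N hN P Q hP hQ h1 h2)

variable {C}

theorem line_mirror {N : ℤ} {R : Set W} {P : ℤ → W} :
    C.mirror.Line N R P ↔ C.Line N R P :=
  ⟨fun h => ⟨h.cal, h.per, h.mem⟩, fun h => ⟨h.cal, h.per, h.mem⟩⟩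

theorem u_zpow (n : ℤ) (w : W) : C.u ((C.A ^ n) w) = C.u w + n * C.ℓ := by
  induction n using Int.induction_on generalizing w with
  | zero =>
    rw [zpow_zero, zero_mul, add_zero]
    rfl
  | succ n ih =>
    rw [zpow_add_one]
    change C.u ((C.A ^ (n : ℤ)) (C.A w)) = _
    rw [ih, C.uA]
    ring
  | pred n ih =>
    rw [zpow_sub_one]
    change C.u ((C.A ^ (-(n : ℤ))) (C.A⁻¹ w)) = _
    rw [ih]
    have h1 : C.A (C.A⁻¹ w) = w := C.A.apply_symm_apply w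
    have h2 := C.uA (C.A⁻¹ w)
    rw [h1] at h2
    rw [h2]
    ring

theorem pi_zpow (n : ℤ) (w : W) : π ((C.A ^ n) w) = π w := by
  induction n using Int.induction_on generalizing w with
  | zero => rfl
  | succ n ih =>
    rw [zpow_add_one]
    change π ((C.A ^ (n : ℤ)) (C.A w)) = _
    rw [ih, C.hA]
  | pred n ih =>
    rw [zpow_sub_one]
    change π ((C.A ^ (-(n : ℤ))) (C.A⁻¹ w)) = _
    rw [ih]
    have h1 : C.A (C.A⁻¹ w) = w := C.A.apply_symm_apply w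
    have h2 := C.hA (C.A⁻¹ w)
    rw [h1] at h2
    exact h2.symm

/-- Periodicity for all multiples of the period. -/
theorem L1_per {N : ℤ} {R : Set W} {P : ℤ → W} (h : C.Line N R P) (k t : ℤ) :
    P (t + N * k * C.ℓ) = (C.A ^ (N * k)) (P t) := by
  induction k using Int.induction_on generalizing t with
  | zero => simp
  | succ k ih =>
    have e : t + N * (k + 1) * C.ℓ = (t + N * C.ℓ) + N * k * C.ℓ := by ring
    rw [e, ih, h.per, mul_add, mul_one, zpow_add]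
    rfl
  | pred k ih =>
    have e : t + N * (-k - 1) * C.ℓ = (t - N * C.ℓ) + N * (-k) * C.ℓ := by ring
    rw [e, ih]
    have h1 := h.per (t - N * C.ℓ)
    rw [sub_add_cancel] at h1
    rw [h1]
    have e2 : C.A ^ (N * (-(k : ℤ))) = C.A ^ (N * (-(k : ℤ) - 1)) * C.A ^ N := by
      rw [← zpow_add]
      congr 1
      ring
    rw [e2]
    rfl

theorem Line.mul {N M : ℤ} (hM : 0 < M) {R : Set W} {P : ℤ → W} (h : C.Line N R P) :
    C.Line (N * M) R P :=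
  ⟨h.cal, fun t => L1_per h M t, h.mem⟩

theorem L1_mem_zpow {R : Set W} (hR : C.Inv R) (k : ℤ) (w : W) : (C.A ^ k) w ∈ R ↔ w ∈ R := by
  induction k using Int.induction_on generalizing w with
  | zero => rfl
  | succ k ih =>
    rw [zpow_add_one]
    change (C.A ^ (k : ℤ)) (C.A w) ∈ R ↔ _
    rw [ih, hR]
  | pred k ih =>
    rw [zpow_sub_one]
    change (C.A ^ (-(k : ℤ))) (C.A⁻¹ w) ∈ R ↔ _
    rw [ih, ← hR]
    have h1 : C.A (C.A⁻¹ w) = w := C.A.apply_symm_apply w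
    rw [h1]

theorem L1_adj_zpow (k : ℤ) {x y : W} (h : H.Adj x y) : H.Adj ((C.A ^ k) x) ((C.A ^ k) y) :=
  (C.A ^ k).map_adj_iff.mpr h

theorem L1_comm (j k : ℤ) (w : W) : (C.A ^ j) ((C.A ^ k) w) = (C.A ^ k) ((C.A ^ j) w) := by
  change (C.A ^ j * C.A ^ k) w = (C.A ^ k * C.A ^ j) w
  rw [← zpow_add, ← zpow_add, add_comm]

/-- The translate of a line. -/
theorem Line.translate {N : ℤ} {R : Set W} (hR : C.Inv R) {P : ℤ → W} (h : C.Line N R P) (k : ℤ) :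
    C.Line N R (fun t => (C.A ^ k) (P (t - k * C.ℓ))) := by
  refine ⟨⟨fun t => ?_, fun t => ?_⟩, fun t => ?_, fun t => ?_⟩
  · have e : t + 1 - k * C.ℓ = t - k * C.ℓ + 1 := by ring
    change H.Adj ((C.A ^ k) (P (t - k * C.ℓ))) ((C.A ^ k) (P (t + 1 - k * C.ℓ)))
    rw [e]
    exact L1_adj_zpow k (h.cal.adj _)
  · change C.u ((C.A ^ k) (P (t - k * C.ℓ))) = t
    rw [u_zpow, h.cal.lev]
    ring
  · change (C.A ^ k) (P (t + N * C.ℓ - k * C.ℓ)) = (C.A ^ N) ((C.A ^ k) (P (t - k * C.ℓ)))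
    have e : t + N * C.ℓ - k * C.ℓ = t - k * C.ℓ + N * C.ℓ := by ring
    rw [e, h.per, L1_comm]
  · exact (L1_mem_zpow hR k _).2 (h.mem _)

theorem L1_mono {N : ℤ} {R R' : Set W} (hR : R ⊆ R') {P : ℤ → W} (h : C.Line N R P) :
    C.Line N R' P := ⟨h.cal, h.per, fun t => hR (h.mem t)⟩

theorem Line.coherent {N M : ℤ} (hN : 0 < N) (hM : 0 < M) {R R' : Set W} {P Q : ℤ → W}
    (hP : C.Line N R P) (hQ : C.Line M R' Q) : Coherent C.Pl P Q := by
  have h1 := hP.mul hM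
  have h2 := hQ.mul hN
  rw [mul_comm] at h2
  exact C.coh (N * M) (mul_pos hN hM) P Q hP.cal hQ.cal h1.per h2.per

theorem rl_refl {N : ℤ} {R : Set W} {P : ℤ → W} (h : C.Line N R P) : C.RL R P P :=
  ⟨0, 0, Relation.ReflTransGen.refl⟩

theorem L1_rtg_line {N : ℤ} {R : Set W} {P : ℤ → W} (h : C.Line N R P) {s t : ℤ} (hst : s ≤ t) :
    Relation.ReflTransGen (Arc H R C.u) (P s) (P t) :=
  arc_of_path hst (fun i _ _ => ⟨h.mem i, h.cal.lev i⟩) (fun i _ _ => h.cal.adj i)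

theorem L1_rtg_translate {R : Set W} (hR : C.Inv R) (k : ℤ) {x y : W}
    (h : Relation.ReflTransGen (Arc H R C.u) x y) :
    Relation.ReflTransGen (Arc H R C.u) ((C.A ^ k) x) ((C.A ^ k) y) := by
  refine Relation.ReflTransGen.lift (fun w => (C.A ^ k) w) (fun a b hab => ?_) _ _ h
  obtain ⟨h1, h2, h3, h4⟩ := hab
  refine ⟨(L1_mem_zpow hR k _).2 h1, (L1_mem_zpow hR k _).2 h2, L1_adj_zpow k h3, ?_⟩
  rw [u_zpow, u_zpow, h4]
  ring

theorem rl_trans {R : Set W} (hR : C.Inv R) {N M : ℤ} (hN : 0 < N) (hM : 0 < M)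
    {P Q S : ℤ → W} (hQ : C.Line N R Q) (hS : C.Line M R S) (h1 : C.RL R P Q)
    (h2 : C.RL R Q S) : C.RL R P S := by
  obtain ⟨s, t, g1⟩ := h1
  obtain ⟨s', t', g2⟩ := h2
  set k : ℤ := |t - s'| + 1 with hk
  have hk0 : 0 < k := by positivity
  have hNM : 0 < N * M := mul_pos hN hM
  have hpos : 0 < N * M * C.ℓ := mul_pos hNM C.ℓpos
  have hle : t ≤ s' + N * M * k * C.ℓ := by
    have h3 : t - s' ≤ |t - s'| := le_abs_self _
    have h4 : k ≤ N * M * k * C.ℓ := by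
      have : k * 1 ≤ k * (N * M * C.ℓ) := mul_le_mul_of_nonneg_left (by omega) hk0.le
      calc k = k * 1 := (mul_one k).symm
        _ ≤ k * (N * M * C.ℓ) := this
        _ = N * M * k * C.ℓ := by ring
    omega
  have g3 := L1_rtg_line hQ hle
  have e1 : Q (s' + N * M * k * C.ℓ) = (C.A ^ (N * M * k)) (Q s') := by
    have := L1_per hQ (M * k) s'
    rw [← mul_assoc] at this
    exact this
  have e2 : S (t' + N * M * k * C.ℓ) = (C.A ^ (N * M * k)) (S t') := by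
    have := L1_per hS (N * k) t'
    have e : M * (N * k) = N * M * k := by ring
    rwa [e] at this
  have g4 := L1_rtg_translate hR (N * M * k) g2
  rw [← e1, ← e2] at g4
  exact ⟨s, t' + N * M * k * C.ℓ, g1.trans (g3.trans g4)⟩

/-! ### Translation of lines and of darts -/

/-- The translate of a line. -/
def L1_tr (C : SCtx G H π) (k : ℤ) (P : ℤ → W) : ℤ → W := fun t => (C.A ^ k) (P (t - k * C.ℓ))

/-- The translate of a dart. -/
def L1_td (C : SCtx G H π) (k : ℤ) (d : H.Dart) : H.Dart :=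
  ⟨((C.A ^ k) d.fst, (C.A ^ k) d.snd), L1_adj_zpow k d.adj⟩

theorem L1_tr_add (j k : ℤ) (P : ℤ → W) : L1_tr C (j + k) P = L1_tr C j (L1_tr C k P) := by
  funext t
  change (C.A ^ (j + k)) (P (t - (j + k) * C.ℓ)) =
    (C.A ^ j) ((C.A ^ k) (P (t - j * C.ℓ - k * C.ℓ)))
  have e : t - (j + k) * C.ℓ = t - j * C.ℓ - k * C.ℓ := by ring
  rw [e, zpow_add]
  rfl

theorem L1_tr_zero (P : ℤ → W) : L1_tr C 0 P = P := by
  funext t
  change (C.A ^ (0 : ℤ)) (P (t - 0 * C.ℓ)) = P t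
  rw [zero_mul, sub_zero, zpow_zero]
  rfl

theorem L1_tr_per {N : ℤ} {R : Set W} {P : ℤ → W} (h : C.Line N R P) : L1_tr C N P = P := by
  funext t
  change (C.A ^ N) (P (t - N * C.ℓ)) = P t
  rw [← h.per, sub_add_cancel]

theorem L1_per_of_tr {N : ℤ} {P : ℤ → W} (h : L1_tr C N P = P) (t : ℤ) :
    P (t + N * C.ℓ) = (C.A ^ N) (P t) := by
  conv_lhs => rw [← h]
  change (C.A ^ N) (P (t + N * C.ℓ - N * C.ℓ)) = _
  rw [add_sub_cancel_right]

theorem L1_td_td (k : ℤ) (d : H.Dart) : L1_td C k (L1_td C (-k) d) = d := by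
  have h : ∀ w : W, (C.A ^ k) ((C.A ^ (-k)) w) = w := by
    intro w
    change (C.A ^ k * C.A ^ (-k)) w = w
    rw [← zpow_add, add_neg_cancel, zpow_zero]
    rfl
  exact LB.dext (h _) (h _)

theorem L1_tr_cal (k : ℤ) {P : ℤ → W} (h : Calib H C.u P) : Calib H C.u (L1_tr C k P) := by
  refine ⟨fun t => ?_, fun t => ?_⟩
  · have e : t + 1 - k * C.ℓ = t - k * C.ℓ + 1 := by ring
    change H.Adj ((C.A ^ k) (P (t - k * C.ℓ))) ((C.A ^ k) (P (t + 1 - k * C.ℓ)))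
    rw [e]
    exact L1_adj_zpow k (h.adj _)
  · change C.u ((C.A ^ k) (P (t - k * C.ℓ))) = t
    rw [u_zpow, h.lev]
    ring

theorem L1_mem_lft {P : ℤ → W} (hP : Calib H C.u P) (k : ℤ) (d : H.Dart) :
    L1_td C k d ∈ lft C.Pl (L1_tr C k P) ↔ d ∈ lft C.Pl P :=
  lft_map C.hH C.Pl (rotComm_zpow _ C.rotA k) hP.isCurve (k * C.ℓ) rfl rfl

theorem L1_mem_lft' {P : ℤ → W} (hP : Calib H C.u P) (k : ℤ) (d : H.Dart) :
    d ∈ lft C.Pl (L1_tr C k P) ↔ L1_td C (-k) d ∈ lft C.Pl P := by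
  rw [← L1_mem_lft hP k, L1_td_td]

/-- The join of the first translates of `P`. -/
theorem L1_join {N : ℤ} (hN : 0 < N) {R : Set W} (hR : C.Inv R) {Γ : ℤ → W}
    (hΓ : C.Line N R Γ) (m : ℕ) : ∃ J : ℤ → W, C.Line N R J ∧
      (∀ d, d ∈ lft C.Pl J ↔ ∀ k : ℕ, k ≤ m → d ∈ lft C.Pl (L1_tr C k Γ)) ∧
      ∃ k : ℕ, J 0 = L1_tr C k Γ 0 := by
  induction m with
  | zero =>
    refine ⟨Γ, hΓ, fun d => ⟨fun h k hk => ?_, fun h => ?_⟩, 0, ?_⟩
    · have : k = 0 := by omega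
      subst this
      rw [Nat.cast_zero, L1_tr_zero]
      exact h
    · have := h 0 le_rfl
      rwa [Nat.cast_zero, L1_tr_zero] at this
    · rw [Nat.cast_zero, L1_tr_zero]
  | succ m ih =>
    obtain ⟨J, hJ, hJl, k0, hk0⟩ := ih
    have hQ : C.Line N R (L1_tr C (m + 1 : ℕ) Γ) := hΓ.translate hR _
    obtain ⟨J', hJ'c, hJ'l, hJ'v⟩ := exists_join C.hH C.Pl C.lip hJ.cal hQ.cal
      (Line.coherent hN hN hJ hQ)
    refine ⟨J', ⟨hJ'c, ?_, ?_⟩, ?_, ?_⟩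
    · refine L1_per_of_tr (lft_inj C.hH C.Pl (L1_tr_cal N hJ'c) hJ'c ?_)
      ext d
      rw [L1_mem_lft' hJ'c, hJ'l, Set.mem_inter_iff, ← L1_mem_lft' hJ.cal, ← L1_mem_lft' hQ.cal,
        L1_tr_per hJ, L1_tr_per hQ, Set.mem_inter_iff]
    · intro t
      rcases hJ'v t with h | h
      · rw [h]; exact hJ.mem t
      · rw [h]; exact hQ.mem t
    · intro d
      rw [hJ'l, Set.mem_inter_iff, hJl]
      constructor
      · rintro ⟨h1, h2⟩ k hk
        rcases Nat.lt_or_ge m k with h3 | h3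
        · have : k = m + 1 := by omega
          subst this
          exact h2
        · exact h1 k h3
      · intro h
        exact ⟨fun k hk => h k (by omega), h (m + 1) le_rfl⟩
    · rcases hJ'v 0 with h | h
      · exact ⟨k0, by rw [h, hk0]⟩
      · exact ⟨m + 1, h⟩

theorem L1_rl_tr {R : Set W} (hR : C.Inv R) {Λ₀ Γ : ℤ → W} (h0 : C.Line 1 R Λ₀)
    (k : ℤ) (h1 : C.RL R Λ₀ Γ) : C.RL R Λ₀ (L1_tr C k Γ) := by
  obtain ⟨s, t, g⟩ := h1
  have g' := L1_rtg_translate hR k g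
  have e1 : (C.A ^ k) (Λ₀ s) = Λ₀ (s + k * C.ℓ) := by
    have := L1_per h0 k s
    rw [one_mul] at this
    exact this.symm
  have e2 : (C.A ^ k) (Γ t) = L1_tr C k Γ (t + k * C.ℓ) := by
    change _ = (C.A ^ k) (Γ (t + k * C.ℓ - k * C.ℓ))
    rw [add_sub_cancel_right]
  rw [e1, e2] at g'
  exact ⟨_, _, g'⟩

theorem L1_rl_tr' {R : Set W} (hR : C.Inv R) {Λ₀ Γ : ℤ → W} (h0 : C.Line 1 R Λ₀)
    (k : ℤ) (h1 : C.RL R Γ Λ₀) : C.RL R (L1_tr C k Γ) Λ₀ := by
  obtain ⟨s, t, g⟩ := h1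
  have g' := L1_rtg_translate hR k g
  have e1 : (C.A ^ k) (Λ₀ t) = Λ₀ (t + k * C.ℓ) := by
    have := L1_per h0 k t
    rw [one_mul] at this
    exact this.symm
  have e2 : (C.A ^ k) (Γ s) = L1_tr C k Γ (s + k * C.ℓ) := by
    change _ = (C.A ^ k) (Γ (s + k * C.ℓ - k * C.ℓ))
    rw [add_sub_cancel_right]
  rw [e1, e2] at g'
  exact ⟨_, _, g'⟩

theorem L1_rl_meet {R : Set W} {P Q : ℤ → W} {s t : ℤ} (h : P s = Q t) : C.RL R P Q :=
  ⟨s, t, by rw [h]⟩

/-- Every periodic line of the class is below a line of the class with period one. -/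
theorem L1_hull {N : ℤ} (hN : 0 < N) {R : Set W} (hR : C.Inv R) {Λ₀ Γ : ℤ → W}
    (h0 : C.Line 1 R Λ₀) (hΓ : C.Line N R Γ) (h1 : C.RL R Λ₀ Γ) (h2 : C.RL R Γ Λ₀) :
    ∃ J, C.Line 1 R J ∧ C.RL R Λ₀ J ∧ C.RL R J Λ₀ ∧ lft C.Pl J ⊆ lft C.Pl Γ := by
  obtain ⟨J, hJ, hJl, k0, hk0⟩ := L1_join hN hR hΓ N.toNat
  have hk : C.Line N R (L1_tr C k0 Γ) := hΓ.translate hR _
  have hJ1 : C.Line 1 R J := by
    refine ⟨hJ.cal, ?_, hJ.mem⟩
    refine L1_per_of_tr (lft_inj C.hH C.Pl (L1_tr_cal 1 hJ.cal) hJ.cal ?_)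
    have hN' : (N.toNat : ℤ) = N := Int.toNat_of_nonneg hN.le
    ext d
    rw [L1_mem_lft' hJ.cal, hJl, hJl]
    have e : ∀ k : ℕ, L1_td C (-1) d ∈ lft C.Pl (L1_tr C k Γ) ↔
        d ∈ lft C.Pl (L1_tr C (k + 1 : ℕ) Γ) := by
      intro k
      have hc : Calib H C.u (L1_tr C k Γ) := L1_tr_cal _ hΓ.cal
      rw [← L1_mem_lft' hc, ← L1_tr_add, Nat.cast_add, Nat.cast_one, add_comm]
    constructor
    · intro h k hk
      rcases Nat.eq_zero_or_pos k with h3 | h3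
      · subst h3
        have h4 := (e (N.toNat - 1)).1 (h _ (by omega))
        have h5 : (((N.toNat - 1 + 1 : ℕ)) : ℤ) = N := by omega
        rw [h5, L1_tr_per hΓ] at h4
        rwa [Nat.cast_zero, L1_tr_zero]
      · have h4 := (e (k - 1)).1 (h _ (by omega))
        have h5 : k - 1 + 1 = k := by omega
        rwa [h5] at h4
    · intro h k hk
      rw [e]
      rcases Nat.lt_or_ge k N.toNat with h3 | h3
      · exact h (k + 1) (by omega)
      · have h4 : k = N.toNat := by omega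
        have h5 := h 1 (by omega)
        have h6 : ((k + 1 : ℕ) : ℤ) = 1 + N := by omega
        rw [h6, L1_tr_add, L1_tr_per hΓ]
        simpa using h5
  refine ⟨J, hJ1, ?_, ?_, ?_⟩
  · exact rl_trans hR hN one_pos hk hJ1 (L1_rl_tr hR h0 _ h1) (L1_rl_meet hk0.symm)
  · exact rl_trans hR hN one_pos hk h0 (L1_rl_meet hk0) (L1_rl_tr' hR h0 _ h2)
  · intro d hd
    have := (hJl d).1 hd 0 (by omega)
    rwa [Nat.cast_zero, L1_tr_zero] at this

/-- The join of two lines of period one. -/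
theorem L1_join1 {R : Set W} {P Q : ℤ → W} (hP : C.Line 1 R P) (hQ : C.Line 1 R Q) :
    ∃ J : ℤ → W, C.Line 1 R J ∧ lft C.Pl J = lft C.Pl P ∩ lft C.Pl Q ∧ (J 0 = P 0 ∨ J 0 = Q 0) := by
  obtain ⟨J, hJc, hJl, hJv⟩ := exists_join C.hH C.Pl C.lip hP.cal hQ.cal
    (Line.coherent one_pos one_pos hP hQ)
  refine ⟨J, ⟨hJc, ?_, ?_⟩, hJl, hJv 0⟩
  · refine L1_per_of_tr (lft_inj C.hH C.Pl (L1_tr_cal 1 hJc) hJc ?_)
    ext d
    rw [L1_mem_lft' hJc, hJl, Set.mem_inter_iff, ← L1_mem_lft' hP.cal, ← L1_mem_lft' hQ.cal,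
      L1_tr_per hP, L1_tr_per hQ, Set.mem_inter_iff]
  · intro t
    rcases hJv t with h | h
    · rw [h]; exact hP.mem t
    · rw [h]; exact hQ.mem t

/-- Continue a piece of a line periodically. -/
theorem L1_extend {R : Set W} (hR : C.Inv R) {N a : ℤ} (hN : 0 < N) {p : ℤ → W}
    (hmem : ∀ i, a ≤ i → i ≤ a + N * C.ℓ → p i ∈ R)
    (hlev : ∀ i, a ≤ i → i ≤ a + N * C.ℓ → C.u (p i) = i)
    (hadj : ∀ i, a ≤ i → i < a + N * C.ℓ → H.Adj (p i) (p (i + 1)))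
    (he : p (a + N * C.ℓ) = (C.A ^ N) (p a)) :
    ∃ Λ, C.Line N R Λ ∧ ∀ t, a ≤ t → t ≤ a + N * C.ℓ → Λ t = p t := by
  have hD : 0 < N * C.ℓ := mul_pos hN C.ℓpos
  set D := N * C.ℓ with hDdef
  let Λ : ℤ → W := fun t => (C.A ^ (N * ((t - a) / D))) (p (a + (t - a) % D))
  -- the value of `Λ` in the block of number `q`
  have hval : ∀ q r : ℤ, 0 ≤ r → r ≤ D → Λ (a + q * D + r) = (C.A ^ (N * q)) (p (a + r)) := by
    intro q r h1 h2
    rcases h2.eq_or_lt with h3 | h3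
    · have e1 : a + q * D + r - a = (q + 1) * D := by rw [h3]; ring
      change (C.A ^ (N * ((a + q * D + r - a) / D))) (p (a + (a + q * D + r - a) % D)) = _
      rw [e1, Int.mul_ediv_cancel _ hD.ne', Int.mul_emod_left, add_zero, h3, he, mul_add, mul_one,
        zpow_add]
      rfl
    · have e1 : a + q * D + r - a = r + q * D := by ring
      change (C.A ^ (N * ((a + q * D + r - a) / D))) (p (a + (a + q * D + r - a) % D)) = _
      rw [e1, Int.add_mul_ediv_right _ _ hD.ne', Int.ediv_eq_zero_of_lt h1 h3, zero_add,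
        Int.add_mul_emod_self_right, Int.emod_eq_of_lt h1 h3]
  have hrep : ∀ t : ℤ, ∃ q r : ℤ, 0 ≤ r ∧ r < D ∧ t = a + q * D + r := by
    intro t
    refine ⟨(t - a) / D, (t - a) % D, Int.emod_nonneg _ hD.ne', Int.emod_lt_of_pos _ hD, ?_⟩
    have := Int.emod_add_mul_ediv (t - a) D
    linarith
  refine ⟨Λ, ⟨⟨?_, ?_⟩, ?_, ?_⟩, ?_⟩
  · intro t
    obtain ⟨q, r, h1, h2, rfl⟩ := hrep t
    have e1 : a + q * D + r + 1 = a + q * D + (r + 1) := by ring
    rw [e1, hval q r h1 h2.le, hval q (r + 1) (by omega) (by omega)]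
    have e2 : a + (r + 1) = a + r + 1 := by ring
    rw [e2]
    exact L1_adj_zpow _ (hadj _ (by omega) (by omega))
  · intro t
    obtain ⟨q, r, h1, h2, rfl⟩ := hrep t
    rw [hval q r h1 h2.le, u_zpow, hlev _ (by omega) (by omega), hDdef]
    ring
  · intro t
    obtain ⟨q, r, h1, h2, rfl⟩ := hrep t
    have e1 : a + q * D + r + N * C.ℓ = a + (q + 1) * D + r := by rw [hDdef]; ring
    rw [e1, hval q r h1 h2.le, hval (q + 1) r h1 h2.le, mul_add, mul_one, add_comm (N * q) N,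
      zpow_add]
    rfl
  · intro t
    obtain ⟨q, r, h1, h2, rfl⟩ := hrep t
    rw [hval q r h1 h2.le]
    exact (L1_mem_zpow hR _ _).mpr (hmem _ (by omega) (by omega))
  · intro t h1 h2
    have h3 := hval 0 (t - a) (by omega) (by omega)
    have e1 : a + 0 * D + (t - a) = t := by ring
    have e2 : a + (t - a) = t := by ring
    rw [e1, e2, mul_zero, zpow_zero] at h3
    exact h3

/-- Reroute a line of period one along a detour through `r`. -/
theorem L1_reroute {R : Set W} (hR : C.Inv R) {K : ℤ → W} (hK : C.Line 1 R K) {i j : ℤ} {r : W}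
    (hr : r ∈ R) (h1 : Relation.ReflTransGen (Arc H R C.u) (K i) r)
    (h2 : Relation.ReflTransGen (Arc H R C.u) r (K j)) :
    ∃ (N : ℤ) (Γ : ℤ → W), 0 < N ∧ C.Line N R Γ ∧ Γ i = K i ∧ Γ (C.u r) = r := by
  obtain ⟨l1, q1, a1, a2, a3, a4⟩ := exists_path_of_arc h1 (hK.mem i)
  obtain ⟨l2, q2, b1, b2, b3, b4⟩ := exists_path_of_arc h2 hr
  rw [hK.cal.lev] at l1 a1 a3 a4
  rw [hK.cal.lev] at l2 b2 b3 b4
  set m := C.u r with hm
  set N : ℤ := |j - i| + 1 with hN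
  have hN0 : 0 < N := by positivity
  have hNj : j ≤ i + N * C.ℓ := by
    have h3 : j - i ≤ |j - i| := le_abs_self _
    have h4 : N * 1 ≤ N * C.ℓ := mul_le_mul_of_nonneg_left (by have := C.ℓpos; omega) hN0.le
    omega
  obtain ⟨p, p1, p2, p3⟩ : ∃ p : ℤ → W, (∀ t, t ≤ m → p t = q1 t) ∧
      (∀ t, m ≤ t → t ≤ j → p t = q2 t) ∧ ∀ t, j ≤ t → p t = K t := by
    refine ⟨fun t => if t ≤ m then q1 t else if t ≤ j then q2 t else K t, ?_, ?_, ?_⟩
    · intro t ht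
      exact if_pos ht
    · intro t h3 h4
      rcases h3.eq_or_lt with h5 | h5
      · subst h5
        simp only [le_refl, if_true]
        rw [a2, b1]
      · have h6 : ¬ t ≤ m := by omega
        simp only [if_neg h6, if_pos h4]
    · intro t h3
      by_cases h4 : t ≤ m
      · have h5 : t = m := by omega
        have h6 : t = j := by omega
        simp only [if_pos h4]
        have e1 : q1 t = r := by rw [h5, a2]
        have e2 : r = q2 t := by rw [h5, b1]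
        rw [e1, e2, h6, b2]
      · by_cases h5 : t ≤ j
        · have h6 : t = j := by omega
          simp only [if_neg h4, if_pos h5]
          rw [h6, b2]
        · simp only [if_neg h4, if_neg h5]
  have hp : ∀ t, i ≤ t → t ≤ i + N * C.ℓ → p t ∈ R ∧ C.u (p t) = t := by
    intro t h3 h4
    rcases le_total t m with h5 | h5
    · rw [p1 t h5]; exact a3 t h3 h5
    · rcases le_total t j with h6 | h6
      · rw [p2 t h5 h6]; exact b3 t h5 h6
      · rw [p3 t h6]; exact ⟨hK.mem t, hK.cal.lev t⟩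
  have hpadj : ∀ t, i ≤ t → t < i + N * C.ℓ → H.Adj (p t) (p (t + 1)) := by
    intro t h3 h4
    rcases lt_or_ge t m with h5 | h5
    · rw [p1 t h5.le, p1 (t + 1) (by omega)]; exact a4 t h3 h5
    · rcases lt_or_ge t j with h6 | h6
      · rw [p2 t h5 h6.le, p2 (t + 1) (by omega) (by omega)]; exact b4 t h5 h6
      · rw [p3 t h6, p3 (t + 1) (by omega)]; exact hK.cal.adj t
  have hpi : p i = K i := by rw [p1 i l1, a1]
  obtain ⟨Γ, hΓ, hΓp⟩ := L1_extend hR hN0 (fun t h3 h4 => (hp t h3 h4).1)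
    (fun t h3 h4 => (hp t h3 h4).2) hpadj (by
      rw [p3 _ hNj, hpi]
      have := L1_per hK N i
      rwa [one_mul] at this)
  have hℓ := mul_pos hN0 C.ℓpos
  refine ⟨N, Γ, hN0, hΓ, ?_, ?_⟩
  · rw [hΓp i le_rfl (by omega), hpi]
  · rw [hΓp m l1 (by omega), p1 m le_rfl, a2]

/-- The highest line of a reachability class. The lowest one is obtained from the mirror image. -/
theorem extremes {R : Set W} (hR : C.Inv R) {Λ₀ : ℤ → W} (h0 : C.Line 1 R Λ₀)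
    (hfin : {Λ | C.Line 1 R Λ ∧ C.RL R Λ₀ Λ ∧ C.RL R Λ Λ₀}.Finite) :
    ∃ K, C.Line 1 R K ∧ C.RL R Λ₀ K ∧ C.RL R K Λ₀ ∧
      (∀ (N : ℤ) (Γ : ℤ → W), 0 < N → C.Line N R Γ → C.RL R Λ₀ Γ → C.RL R Γ Λ₀ →
        Le C.Pl Γ K) ∧
      NoDet H (R ∩ Up C.Pl K) K Set.univ C.u := by
  obtain ⟨K, ⟨hK, hK1, hK2⟩, hKmin⟩ := Set.Finite.exists_minimalFor (fun Λ => lft C.Pl Λ) _ hfin
    ⟨Λ₀, h0, rl_refl h0, rl_refl h0⟩
  -- every line of the class is below `K`
  have key : ∀ (N : ℤ) (Γ : ℤ → W), 0 < N → C.Line N R Γ → C.RL R Λ₀ Γ → C.RL R Γ Λ₀ →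
      lft C.Pl K ⊆ lft C.Pl Γ := by
    intro N Γ hN hΓ h1 h2
    obtain ⟨J, hJ, hJ1, hJ2, hJl⟩ := L1_hull hN hR h0 hΓ h1 h2
    obtain ⟨M, hM, hMl, hMv⟩ := L1_join1 hJ hK
    have hM1 : C.RL R Λ₀ M := by
      rcases hMv with h | h
      · exact rl_trans hR one_pos one_pos hJ hM hJ1 (L1_rl_meet h.symm)
      · exact rl_trans hR one_pos one_pos hK hM hK1 (L1_rl_meet h.symm)
    have hM2 : C.RL R M Λ₀ := by
      rcases hMv with h | h
      · exact rl_trans hR one_pos one_pos hJ h0 (L1_rl_meet h) hJ2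
      · exact rl_trans hR one_pos one_pos hK h0 (L1_rl_meet h) hK2
    have h3 : lft C.Pl K ⊆ lft C.Pl M :=
      hKmin ⟨hM, hM1, hM2⟩ (show lft C.Pl M ⊆ lft C.Pl K by
        rw [hMl]; exact Set.inter_subset_right)
    rw [hMl] at h3
    exact fun d hd => hJl (h3 hd).1
  refine ⟨K, hK, hK1, hK2, fun N Γ hN hΓ h1 h2 =>
    le_of_subset C.hH C.Pl C.lip hΓ.cal hK.cal (key N Γ hN hΓ h1 h2), ?_⟩
  rintro r ⟨hrR, hrU⟩ ⟨y, hy1, hy2, i, -, hy3, hy4⟩ ⟨z, hz1, hz2, j, -, hz3, hz4⟩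
  have hmono : ∀ a b, Relation.ReflTransGen (Arc H (R ∩ Up C.Pl K) C.u) a b →
      Relation.ReflTransGen (Arc H R C.u) a b := by
    intro a b hab
    exact Relation.ReflTransGen.mono (fun x y h => ⟨h.1.1, h.2.1.1, h.2.2.1, h.2.2.2⟩) _ _ hab
  have g1 : Relation.ReflTransGen (Arc H R C.u) (K i) r :=
    Relation.ReflTransGen.head ⟨hK.mem i, hy2.1, hy3.symm, by rw [hK.cal.lev]; omega⟩
      (hmono _ _ hy1)
  have g2 : Relation.ReflTransGen (Arc H R C.u) r (K j) :=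
    Relation.ReflTransGen.tail (hmono _ _ hz1)
      ⟨hz2.1, hK.mem j, hz3, by rw [hK.cal.lev]; omega⟩
  obtain ⟨N, Γ, hN, hΓ, hΓ1, hΓ2⟩ := L1_reroute hR hK hrR g1 g2
  have h1 : C.RL R Λ₀ Γ := rl_trans hR one_pos hN hK hΓ hK1 (L1_rl_meet hΓ1.symm)
  have h2 : C.RL R Γ Λ₀ := rl_trans hR one_pos one_pos hK h0 (L1_rl_meet hΓ1) hK2
  have h3 := key N Γ hN hΓ h1 h2
  have hcoh := Line.coherent hN one_pos hΓ hK
  have h4 := (le_iff' C.hH C.Pl C.lip hΓ.cal hK.cal hcoh).1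
    (le_of_subset C.hH C.Pl C.lip hΓ.cal hK.cal h3) (C.u r)
  rw [hΓ2] at h4
  rcases h4 with h5 | h5
  · rw [h5] at hrU
    exact line_not_up C.hH C.Pl hK.cal.isCurve _ hrU
  · exact not_up_and_down C.hH C.Pl hK.cal.isCurve hrU h5

end SCtx

end Pool.Agent.MP_f5837d_co
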