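import Pool.Agent.Lib.MP_f5837d_co.L1

/-!
# Task L2: the line `Λ*` (blueprint 5.3)
-/

set_option autoImplicit false

namespace Pool.Agent.MP_f5837d_co

open SimpleGraph

variable {V W : Type*} {G : SimpleGraph V} {H : SimpleGraph W} {π : W → V}
variable [∀ w, Fintype (H.neighborSet w)]

namespace SCtx

variable {C : SCtx G H π}

/-- `p` is a path in `R` over the levels from `s` to `t`. -/
structure L2Seg (C : SCtx G H π) (R : Set W) (s t : ℤ) (p : ℤ → W) : Prop where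
  le : s ≤ t
  mem : ∀ i, s ≤ i → i ≤ t → p i ∈ R
  lev : ∀ i, s ≤ i → i ≤ t → C.u (p i) = i
  adj : ∀ i, s ≤ i → i < t → H.Adj (p i) (p (i + 1))

theorem L2_seg_of_rtg {R : Set W} {x y : W} (hx : x ∈ R)
    (h : Relation.ReflTransGen (Arc H R C.u) x y) :
    ∃ p, L2Seg C R (C.u x) (C.u y) p ∧ p (C.u x) = x ∧ p (C.u y) = y := by
  induction h with
  | refl =>
    refine ⟨fun _ => x, ⟨le_rfl, fun i _ _ => hx, fun i h1 h2 => le_antisymm h1 h2, ?_⟩, rfl, rfl⟩
    intro i h1 h2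
    omega
  | @tail y z hxy hyz ih =>
    obtain ⟨p, hp, hpx, hpy⟩ := ih
    obtain ⟨-, hz, hadj, hu⟩ := hyz
    refine ⟨fun i => if i ≤ C.u y then p i else z, ⟨?_, ?_, ?_, ?_⟩, ?_, ?_⟩
    · have := hp.le
      omega
    · intro i h1 h2
      by_cases h3 : i ≤ C.u y
      · simp only [if_pos h3]
        exact hp.mem i h1 h3
      · simp only [if_neg h3]
        exact hz
    · intro i h1 h2
      by_cases h3 : i ≤ C.u y
      · simp only [if_pos h3]
        exact hp.lev i h1 h3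
      · simp only [if_neg h3]
        omega
    · intro i h1 h2
      by_cases h3 : i + 1 ≤ C.u y
      · have h4 : i ≤ C.u y := by omega
        simp only [if_pos h3, if_pos h4]
        exact hp.adj i h1 (by omega)
      · have h4 : i = C.u y := by omega
        simp only [if_neg h3, if_pos h4.le]
        rw [h4, hpy]
        exact hadj
    · simp only [if_pos hp.le]
      exact hpx
    · have h3 : ¬ C.u z ≤ C.u y := by omega
      simp only [if_neg h3]

theorem L2_seg_line {N : ℤ} {R : Set W} {P : ℤ → W} (h : C.Line N R P) {s t : ℤ} (hst : s ≤ t) :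
    L2Seg C R s t P :=
  ⟨hst, fun i _ _ => h.mem i, fun i _ _ => h.cal.lev i, fun i _ _ => h.cal.adj i⟩

theorem L2_seg_glue {R : Set W} {s t r : ℤ} {p q : ℤ → W} (hp : L2Seg C R s t p)
    (hq : L2Seg C R t r q) (h : p t = q t) :
    ∃ g, L2Seg C R s r g ∧ (∀ i, s ≤ i → i ≤ t → g i = p i) ∧
      ∀ i, t ≤ i → i ≤ r → g i = q i := by
  obtain ⟨g, k1, k2⟩ : ∃ g : ℤ → W, (∀ i, i ≤ t → g i = p i) ∧ ∀ i, t ≤ i → g i = q i := by
    refine ⟨fun i => if i ≤ t then p i else q i, fun i hi => if_pos hi, fun i hi => ?_⟩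
    rcases hi.eq_or_lt with h1 | h1
    · subst h1
      rw [← h]
      exact if_pos le_rfl
    · exact if_neg (not_le.mpr h1)
  refine ⟨g, ⟨hp.le.trans hq.le, ?_, ?_, ?_⟩, fun i _ h2 => k1 i h2, fun i h1 _ => k2 i h1⟩
  · intro i h1 h2
    rcases le_total i t with h3 | h3
    · rw [k1 i h3]
      exact hp.mem i h1 h3
    · rw [k2 i h3]
      exact hq.mem i h3 h2
  · intro i h1 h2
    rcases le_total i t with h3 | h3
    · rw [k1 i h3]
      exact hp.lev i h1 h3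
    · rw [k2 i h3]
      exact hq.lev i h3 h2
  · intro i h1 h2
    rcases le_or_gt t i with h3 | h3
    · rw [k2 i h3, k2 (i + 1) (by omega)]
      exact hq.adj i h3 h2
    · rw [k1 i h3.le, k1 (i + 1) (by omega)]
      exact hp.adj i h1 h3

theorem L2_mem_zpow {R : Set W} (hR : C.Inv R) (k : ℤ) (w : W) : (C.A ^ k) w ∈ R ↔ w ∈ R := by
  have h1 : ∀ (n : ℕ) (w : W), (C.A ^ n) w ∈ R ↔ w ∈ R := by
    intro n
    induction n with
    | zero => intro w; rfl
    | succ n ih =>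
      intro w
      rw [pow_succ]
      change (C.A ^ n) (C.A w) ∈ R ↔ w ∈ R
      rw [ih, hR]
  rcases le_total 0 k with hk | hk
  · obtain ⟨n, rfl⟩ := Int.eq_ofNat_of_zero_le hk
    have h2 := h1 n w
    rwa [← zpow_natCast] at h2
  · obtain ⟨n, hn⟩ := Int.eq_ofNat_of_zero_le (neg_nonneg.mpr hk)
    have hk' : k = -(n : ℤ) := by omega
    have h2 := h1 n ((C.A ^ k) w)
    rw [← zpow_natCast] at h2
    have h3 : (C.A ^ (n : ℤ)) ((C.A ^ k) w) = w := by
      change (C.A ^ (n : ℤ) * C.A ^ k) w = w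
      rw [← zpow_add, hk', add_neg_cancel, zpow_zero]
      rfl
    rw [h3] at h2
    exact h2.symm

theorem L2_adj_zpow (k : ℤ) {x y : W} (h : H.Adj x y) : H.Adj ((C.A ^ k) x) ((C.A ^ k) y) :=
  (C.A ^ k).map_adj_iff.mpr h

theorem L2_seg_translate {R : Set W} (hR : C.Inv R) {s t : ℤ} {p : ℤ → W}
    (hp : L2Seg C R s t p) (k : ℤ) :
    L2Seg C R (s + k * C.ℓ) (t + k * C.ℓ) (fun i => (C.A ^ k) (p (i - k * C.ℓ))) := by
  refine ⟨by have := hp.le; omega, ?_, ?_, ?_⟩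
  · intro i h1 h2
    exact (L2_mem_zpow hR k _).mpr (hp.mem _ (by omega) (by omega))
  · intro i h1 h2
    rw [u_zpow, hp.lev _ (by omega) (by omega)]
    omega
  · intro i h1 h2
    have h3 : i + 1 - k * C.ℓ = i - k * C.ℓ + 1 := by omega
    change H.Adj ((C.A ^ k) (p (i - k * C.ℓ))) ((C.A ^ k) (p (i + 1 - k * C.ℓ)))
    rw [h3]
    exact L2_adj_zpow k (hp.adj _ (by omega) (by omega))

theorem L2_per {R : Set W} {K : ℤ → W} (hK : C.Line 1 R K) {M : ℤ} (hM : 0 < M) (t : ℤ) :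
    K (t + M * C.ℓ) = (C.A ^ M) (K t) := by
  have h := (hK.mul hM).per t
  rwa [one_mul] at h

theorem L2_extend {R : Set W} (hR : C.Inv R) {N a : ℤ} (hN : 0 < N) {p : ℤ → W}
    (hp : L2Seg C R a (a + N * C.ℓ) p) (he : p (a + N * C.ℓ) = (C.A ^ N) (p a)) :
    ∃ Λ, C.Line N R Λ ∧ ∀ t, a ≤ t → t ≤ a + N * C.ℓ → Λ t = p t := by
  have hD : 0 < N * C.ℓ := mul_pos hN C.ℓpos
  set D := N * C.ℓ with hDdef
  let Λ : ℤ → W := fun t => (C.A ^ (N * ((t - a) / D))) (p (a + (t - a) % D))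
  -- the value of `Λ` in the block of number `q`
  have hval : ∀ q r : ℤ, 0 ≤ r → r ≤ D → Λ (a + q * D + r) = (C.A ^ (N * q)) (p (a + r)) := by
    intro q r h1 h2
    rcases h2.eq_or_lt with h3 | h3
    · have e1 : a + q * D + r - a = (q + 1) * D := by rw [h3]; ring
      change (C.A ^ (N * ((a + q * D + r - a) / D))) (p (a + (a + q * D + r - a) % D)) = _
      rw [e1, Int.mul_ediv_cancel _ hD.ne', Int.mul_emod_left, add_zero, h3, he, mul_add, mul_one,
        zpow_add]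
      rfl
    · have e1 : a + q * D + r - a = r + q * D := by ring
      change (C.A ^ (N * ((a + q * D + r - a) / D))) (p (a + (a + q * D + r - a) % D)) = _
      rw [e1, Int.add_mul_ediv_right _ _ hD.ne', Int.ediv_eq_zero_of_lt h1 h3, zero_add,
        Int.add_mul_emod_self_right, Int.emod_eq_of_lt h1 h3]
  have hrep : ∀ t : ℤ, ∃ q r : ℤ, 0 ≤ r ∧ r < D ∧ t = a + q * D + r := by
    intro t
    refine ⟨(t - a) / D, (t - a) % D, Int.emod_nonneg _ hD.ne', Int.emod_lt_of_pos _ hD, ?_⟩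
    have := Int.emod_add_mul_ediv (t - a) D
    linarith
  refine ⟨Λ, ⟨⟨?_, ?_⟩, ?_, ?_⟩, ?_⟩
  · intro t
    obtain ⟨q, r, h1, h2, rfl⟩ := hrep t
    have e1 : a + q * D + r + 1 = a + q * D + (r + 1) := by ring
    rw [e1, hval q r h1 h2.le, hval q (r + 1) (by omega) (by omega)]
    have e2 : a + (r + 1) = a + r + 1 := by ring
    rw [e2]
    exact L2_adj_zpow _ (hp.adj _ (by omega) (by omega))
  · intro t
    obtain ⟨q, r, h1, h2, rfl⟩ := hrep t
    rw [hval q r h1 h2.le, u_zpow, hp.lev _ (by omega) (by omega), hDdef]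
    ring
  · intro t
    obtain ⟨q, r, h1, h2, rfl⟩ := hrep t
    have e1 : a + q * D + r + N * C.ℓ = a + (q + 1) * D + r := by rw [hDdef]; ring
    rw [e1, hval q r h1 h2.le, hval (q + 1) r h1 h2.le, mul_add, mul_one, add_comm (N * q) N,
      zpow_add]
    rfl
  · intro t
    obtain ⟨q, r, h1, h2, rfl⟩ := hrep t
    rw [hval q r h1 h2.le]
    exact (L2_mem_zpow hR _ _).mpr (hp.mem _ (by omega) (by omega))
  · intro t h1 h2
    have h3 := hval 0 (t - a) (by omega) (by omega)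
    have e1 : a + 0 * D + (t - a) = t := by ring
    have e2 : a + (t - a) = t := by ring
    rw [e1, e2, mul_zero, zpow_zero] at h3
    exact h3

/-- A periodic line that follows `K` for a long time, then `K'` for a long time, and so on. -/
theorem exists_star {R : Set W} (hR : C.Inv R) {K K' : ℤ → W} (hK : C.Line 1 R K)
    (hK' : C.Line 1 R K') (h1 : C.RL R K K') (h2 : C.RL R K' K) (T : ℤ) :
    ∃ (N : ℤ) (Λ : ℤ → W) (a b a' b' : ℤ), 0 < N ∧ C.Line N R Λ ∧ a + T ≤ b ∧ b ≤ a' ∧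
      a' + T ≤ b' ∧ b' ≤ a + N * C.ℓ ∧ (∀ t, a ≤ t → t ≤ b → Λ t = K t) ∧
      ∀ t, a' ≤ t → t ≤ b' → Λ t = K' t := by
  obtain ⟨s1, t1, g1⟩ := h1
  obtain ⟨s2, t2, g2⟩ := h2
  obtain ⟨p1, hp1, hp1s, hp1t⟩ := L2_seg_of_rtg (hK.mem s1) g1
  obtain ⟨p2, hp2, hp2s, hp2t⟩ := L2_seg_of_rtg (hK'.mem s2) g2
  rw [hK.cal.lev] at hp1 hp1s
  rw [hK'.cal.lev] at hp1 hp1t
  rw [hK'.cal.lev] at hp2 hp2s
  rw [hK.cal.lev] at hp2 hp2t
  have hℓ := C.ℓpos
  -- the number of translations of the second path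
  set k : ℤ := |t1 + |T| - s2| + 1 with hk
  have hk0 : 0 < k := by positivity
  have hk1 : t1 + |T| ≤ s2 + k * C.ℓ := by
    have h3 : t1 + |T| - s2 ≤ |t1 + |T| - s2| := le_abs_self _
    have h4 : |t1 + |T| - s2| ≤ k * C.ℓ := by
      have : k * 1 ≤ k * C.ℓ := mul_le_mul_of_nonneg_left (by omega) hk0.le
      omega
    omega
  set N : ℤ := |t2 + k * C.ℓ - (s1 - |T|)| + 1 with hN
  have hN0 : 0 < N := by positivity
  have hN1 : t2 + k * C.ℓ ≤ (s1 - |T|) + N * C.ℓ := by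
    have h3 : t2 + k * C.ℓ - (s1 - |T|) ≤ |t2 + k * C.ℓ - (s1 - |T|)| := le_abs_self _
    have h4 : |t2 + k * C.ℓ - (s1 - |T|)| ≤ N * C.ℓ := by
      have : N * 1 ≤ N * C.ℓ := mul_le_mul_of_nonneg_left (by omega) hN0.le
      omega
    omega
  have hT := abs_nonneg T
  have hT' := le_abs_self T
  -- the five pieces
  have q1 : L2Seg C R (s1 - |T|) s1 K := L2_seg_line hK (by omega)
  have q3 : L2Seg C R t1 (s2 + k * C.ℓ) K' := L2_seg_line hK' (by omega)
  have q4 := L2_seg_translate hR hp2 k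
  have q5 : L2Seg C R (t2 + k * C.ℓ) (s1 - |T| + N * C.ℓ) K := L2_seg_line hK hN1
  obtain ⟨f1, w1, w1a, w1b⟩ := L2_seg_glue q1 hp1 hp1s.symm
  obtain ⟨f2, w2, w2a, w2b⟩ := L2_seg_glue w1 q3 (by
    rw [w1b t1 hp1.le le_rfl, hp1t])
  obtain ⟨f3, w3, w3a, w3b⟩ := L2_seg_glue w2 q4 (by
    rw [w2b _ q3.le le_rfl, L2_per hK' hk0]
    simp only [add_sub_cancel_right]
    rw [hp2s])
  obtain ⟨f4, w4, w4a, w4b⟩ := L2_seg_glue w3 q5 (by
    rw [w3b _ q4.le le_rfl, L2_per hK hk0]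
    simp only [add_sub_cancel_right]
    rw [hp2t])
  have l1 := q1.le
  have l2 := hp1.le
  have l3 := q3.le
  have l4 := q4.le
  have l5 := q5.le
  have v1 : ∀ t, s1 - |T| ≤ t → t ≤ s1 → f4 t = K t := by
    intro t h3 h4
    rw [w4a t h3 (by omega), w3a t h3 (by omega), w2a t h3 (by omega), w1a t h3 h4]
  have v2 : ∀ t, t1 ≤ t → t ≤ s2 + k * C.ℓ → f4 t = K' t := by
    intro t h3 h4
    rw [w4a t (by omega) (by omega), w3a t (by omega) (by omega), w2b t h3 h4]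
  obtain ⟨Λ, hΛ, hΛ'⟩ := L2_extend hR hN0 w4 (by
    rw [w4b _ l5 le_rfl, L2_per hK hN0, v1 _ le_rfl (by omega)])
  refine ⟨N, Λ, s1 - |T|, s1, t1, s2 + k * C.ℓ, hN0, hΛ, by omega, l2, by omega, by omega,
    ?_, ?_⟩
  · intro t h3 h4
    rw [hΛ' t h3 (by omega), v1 t h3 h4]
  · intro t h3 h4
    rw [hΛ' t (by omega) (by omega), v2 t h3 h4]

end SCtx

end Pool.Agent.MP_f5837d_co
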