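import Pool.Agent.Lib.MP_f5837d_co.L3
import Pool.Agent.Lib.MP_f5837d_co.G2
import Pool.Agent.Lib.MP_f5837d_co.G3

/-!
# Task L4b: the train on `Λ*` (blueprint 5.3)
-/

set_option autoImplicit false

namespace Pool.Agent.MP_f5837d_co

open SimpleGraph

variable {V W : Type*} {G : SimpleGraph V} {H : SimpleGraph W} {π : W → V}
variable [∀ w, Fintype (H.neighborSet w)]

namespace SCtx

variable {C : SCtx G H π}

namespace L4b

theorem line_shift {N : ℤ} {R : Set W} {K : ℤ → W} (hK : C.Line N R K) (m t : ℤ) :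
    K (t + m * (N * C.ℓ)) = (C.A ^ (m * N)) (K t) := by
  induction m using Int.induction_on generalizing t with
  | zero => simp
  | succ i ih =>
    have e : t + ((i : ℤ) + 1) * (N * C.ℓ) = (t + (i : ℤ) * (N * C.ℓ)) + N * C.ℓ := by ring
    rw [e, hK.per, ih, ← RelIso.mul_apply, ← zpow_add]
    congr 2
    ring
  | pred i ih =>
    have e : t + (-(i : ℤ)) * (N * C.ℓ) = (t + (-(i : ℤ) - 1) * (N * C.ℓ)) + N * C.ℓ := by ring
    have h1 := ih t
    rw [e, hK.per] at h1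
    have h2 : (C.A ^ (-N)) ((C.A ^ N) (K (t + (-(i : ℤ) - 1) * (N * C.ℓ)))) =
        (C.A ^ (-N)) ((C.A ^ (-(i : ℤ) * N)) (K t)) := by rw [h1]
    rw [← RelIso.mul_apply, ← zpow_add, ← RelIso.mul_apply, ← zpow_add] at h2
    have e2 : -N + N = 0 := by ring
    rw [e2, zpow_zero, RelIso.one_apply] at h2
    rw [h2]
    congr 2
    ring

/-- A stretch repeats in every period. -/
theorem stretch {N : ℤ} {R : Set W} {Λ K : ℤ → W} (hΛ : C.Line N R Λ) (hK : C.Line 1 R K)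
    {a b : ℤ} (h : ∀ t, a ≤ t → t ≤ b → Λ t = K t) (m : ℤ) :
    ∀ t, a + m * (N * C.ℓ) ≤ t → t ≤ b + m * (N * C.ℓ) → Λ t = K t := by
  intro t h1 h2
  have e : t = (t - m * (N * C.ℓ)) + m * (N * C.ℓ) := by ring
  have e' : t = (t - m * (N * C.ℓ)) + (m * N) * (1 * C.ℓ) := by ring
  have h3 : Λ t = (C.A ^ (m * N)) (Λ (t - m * (N * C.ℓ))) := by
    conv_lhs => rw [e]
    exact line_shift hΛ m _
  have h4 : K t = (C.A ^ (m * N)) (K (t - m * (N * C.ℓ))) := by
    conv_lhs => rw [e']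
    rw [line_shift hK (m * N), mul_one]
  rw [h3, h4, h _ (by linarith) (by linarith)]

theorem inv_up {R : Set W} (hR : C.Inv R) {K : ℤ → W} (hK : C.Line 1 R K) :
    C.Inv (R ∩ Up C.Pl K) := by
  intro w
  have hper : (fun t => C.A (K (t - C.ℓ))) = K := by
    funext t
    have := hK.per (t - C.ℓ)
    rw [one_mul, zpow_one] at this
    rw [← this]
    congr 1
    ring
  have h := up_map C.hH C.Pl C.rotA hK.cal.isCurve C.ℓ w
  rw [hper] at h
  constructor
  · rintro ⟨h1, h2⟩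
    exact ⟨(hR w).1 h1, h.1 h2⟩
  · rintro ⟨h1, h2⟩
    exact ⟨(hR w).2 h1, h.2 h2⟩

theorem inv_down {R : Set W} (hR : C.Inv R) {K : ℤ → W} (hK : C.Line 1 R K) :
    C.Inv (R ∩ Down C.Pl K) := by
  intro w
  have hper : (fun t => C.A (K (t - C.ℓ))) = K := by
    funext t
    have := hK.per (t - C.ℓ)
    rw [one_mul, zpow_one] at this
    rw [← this]
    congr 1
    ring
  have h := down_map C.hH C.Pl C.rotA hK.cal.isCurve C.ℓ w
  rw [hper] at h
  constructor
  · rintro ⟨h1, h2⟩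
    exact ⟨(hR w).1 h1, h.1 h2⟩
  · rintro ⟨h1, h2⟩
    exact ⟨(hR w).2 h1, h.2 h2⟩

theorem finMod_mono {R R' : Set W} (h : R' ⊆ R) (hf : C.FinMod R) : C.FinMod R' :=
  Set.Finite.subset hf (fun _ hw => ⟨h hw.1, hw.2⟩)

theorem line_mono {N : ℤ} {R R' : Set W} (h : R ⊆ R') {P : ℤ → W} (hP : C.Line N R P) :
    C.Line N R' P := ⟨hP.cal, hP.per, fun t => h (hP.mem t)⟩

omit [∀ w, Fintype (H.neighborSet w)] in
theorem arc_mono {R R' : Set W} (h : R ⊆ R') {s : W → ℤ} {x y : W}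
    (hxy : Relation.ReflTransGen (Arc H R s) x y) : Relation.ReflTransGen (Arc H R' s) x y :=
  Relation.ReflTransGen.mono (fun _ _ ha => ⟨h ha.1, h ha.2.1, ha.2.2⟩) _ _ hxy

/-- A run in a part `S` of the strip next to the line `K` from which one can go back to `K` leads to
a line. -/
theorem rl_of_from {R S : Set W} (hS : S ⊆ R) {K Λ : ℤ → W} (hK : C.Line 1 R K) {w : W} {t : ℤ}
    (h1 : FromLine H S K Set.univ C.u w) (h2 : Relation.ReflTransGen (Arc H S C.u) w (Λ t)) :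
    C.RL R K Λ := by
  obtain ⟨y, hy, hyS, s, _, hadj, hs⟩ := h1
  refine ⟨s, t, ?_⟩
  refine Relation.ReflTransGen.trans (Relation.ReflTransGen.single ?_)
    ((arc_mono hS hy).trans (arc_mono hS h2))
  refine ⟨hK.mem s, hS hyS, hadj.symm, ?_⟩
  rw [hK.cal.lev s]; omega

/-- A long run in a part `S` of the strip contains a vertex that is not reached from `K`. -/
theorem exists_not_from {R S : Set W} (hS : S ⊆ R) (hinv : C.Inv S) (hfin : C.FinMod S)
    {K : ℤ → W} (hK : C.Line 1 R K) (hno : ∀ Λ, C.Line 1 S Λ → ¬ C.RL R K Λ) :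
    ∃ T : ℕ, ∀ p : ℕ → W, (∀ k ≤ T, p k ∈ S) →
      (∀ k < T, H.Adj (p k) (p (k + 1)) ∧ C.u (p (k + 1)) = C.u (p k) + 1) →
      ∃ k ≤ T, ¬ FromLine H S K Set.univ C.u (p k) := by
  obtain ⟨T, hT⟩ := run_line hinv hfin
  refine ⟨T, fun p hp hadj => ?_⟩
  obtain ⟨k, hk, Λ, hΛ, t, ht⟩ := hT p hp hadj
  exact ⟨k, hk, fun hf => hno Λ hΛ (rl_of_from hS hK hf ht)⟩

omit [∀ w, Fintype (H.neighborSet w)] in
theorem run_level {u : W → ℤ} {T : ℕ} {p : ℕ → W}
    (h : ∀ k < T, H.Adj (p k) (p (k + 1)) ∧ u (p (k + 1)) = u (p k) + 1) :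
    ∀ k ≤ T, u (p k) = u (p 0) + k := by
  intro k
  induction k with
  | zero => intro _; simp
  | succ k ih =>
    intro hk
    rw [(h k (by omega)).2, ih (by omega)]
    push_cast
    ring

/-- The upper side, inside a stretch. -/
theorem side_up {R : Set W} (hR : C.Inv R) (hfin : C.FinMod R) {K : ℤ → W} (hK : C.Line 1 R K)
    (hmax : ∀ Λ, C.Line 1 R Λ → C.RL R K Λ → ¬ ∀ t, Λ t ∈ Up C.Pl K) :
    ∃ T ρ : ℕ, ∀ (N : ℤ) (Λ : ℤ → W) (a b : ℤ), C.Line N R Λ →
      (∀ t, a ≤ t → t ≤ b → Λ t = K t) → ∀ p : ℕ → W, (∀ k ≤ T, p k ∈ R) →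
      (∀ k ≤ T, p k ∈ Up C.Pl Λ) →
      (∀ k < T, H.Adj (p k) (p (k + 1)) ∧ C.u (p (k + 1)) = C.u (p k) + 1) →
      a + ρ < C.u (p 0) → C.u (p 0) + T + ρ < b →
      ∃ k ≤ T, p k ∈ R ∩ Up C.Pl K ∧ ¬ FromLine H (R ∩ Up C.Pl K) K Set.univ C.u (p k) := by
  obtain ⟨T, hT⟩ := exists_not_from (S := R ∩ Up C.Pl K) Set.inter_subset_left (inv_up hR hK)
    (finMod_mono Set.inter_subset_left hfin) hK
    (fun Λ hΛ hrl => hmax Λ (line_mono Set.inter_subset_left hΛ) hrl (fun t => (hΛ.mem t).2))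
  obtain ⟨ρ, hρ⟩ := exists_rho hR hfin (line_mono (Set.subset_univ _) hK)
  refine ⟨T, ρ, fun N Λ a b hΛ hab p hp hup hadj h1 h2 => ?_⟩
  have hmem : ∀ k ≤ T, p k ∈ R ∩ Up C.Pl K := by
    intro k hk
    refine ⟨hp k hk, ?_⟩
    obtain ⟨t, w, hw⟩ := hρ (p k) (hp k hk)
    have hl := run_level hadj k hk
    have hkT : (k : ℤ) ≤ T := by exact_mod_cast hk
    have hwρ : (w.length : ℤ) ≤ ρ := by exact_mod_cast hw
    refine ((local_side C.hH C.Pl C.lip hK.cal hΛ.cal (a := a) (b := b)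
      (fun t h1 h2 => (hab t h1 h2).symm) w ?_ ?_).1).2 (hup k hk)
    · rw [hl]; have : (0 : ℤ) ≤ k := by positivity
      linarith
    · rw [hl]; linarith
  obtain ⟨k, hk, hk'⟩ := hT p hmem hadj
  exact ⟨k, hk, hmem k hk, hk'⟩

/-- The lower side, inside a stretch. -/
theorem side_down {R : Set W} (hR : C.Inv R) (hfin : C.FinMod R) {K : ℤ → W} (hK : C.Line 1 R K)
    (hmax : ∀ Λ, C.Line 1 R Λ → C.RL R K Λ → ¬ ∀ t, Λ t ∈ Down C.Pl K) :
    ∃ T ρ : ℕ, ∀ (N : ℤ) (Λ : ℤ → W) (a b : ℤ), C.Line N R Λ →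
      (∀ t, a ≤ t → t ≤ b → Λ t = K t) → ∀ p : ℕ → W, (∀ k ≤ T, p k ∈ R) →
      (∀ k ≤ T, p k ∈ Down C.Pl Λ) →
      (∀ k < T, H.Adj (p k) (p (k + 1)) ∧ C.u (p (k + 1)) = C.u (p k) + 1) →
      a + ρ < C.u (p 0) → C.u (p 0) + T + ρ < b →
      ∃ k ≤ T, p k ∈ R ∩ Down C.Pl K ∧
        ¬ FromLine H (R ∩ Down C.Pl K) K Set.univ C.u (p k) := by
  obtain ⟨T, hT⟩ := exists_not_from (S := R ∩ Down C.Pl K) Set.inter_subset_left (inv_down hR hK)
    (finMod_mono Set.inter_subset_left hfin) hK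
    (fun Λ hΛ hrl => hmax Λ (line_mono Set.inter_subset_left hΛ) hrl (fun t => (hΛ.mem t).2))
  obtain ⟨ρ, hρ⟩ := exists_rho hR hfin (line_mono (Set.subset_univ _) hK)
  refine ⟨T, ρ, fun N Λ a b hΛ hab p hp hup hadj h1 h2 => ?_⟩
  have hmem : ∀ k ≤ T, p k ∈ R ∩ Down C.Pl K := by
    intro k hk
    refine ⟨hp k hk, ?_⟩
    obtain ⟨t, w, hw⟩ := hρ (p k) (hp k hk)
    have hl := run_level hadj k hk
    have hkT : (k : ℤ) ≤ T := by exact_mod_cast hk
    have hwρ : (w.length : ℤ) ≤ ρ := by exact_mod_cast hw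
    refine ((local_side C.hH C.Pl C.lip hK.cal hΛ.cal (a := a) (b := b)
      (fun t h1 h2 => (hab t h1 h2).symm) w ?_ ?_).2).2 (hup k hk)
    · rw [hl]; have : (0 : ℤ) ≤ k := by positivity
      linarith
    · rw [hl]; linarith
  obtain ⟨k, hk, hk'⟩ := hT p hmem hadj
  exact ⟨k, hk, hmem k hk, hk'⟩

/-- The moment at which a run enters a given residue class of levels. -/
theorem exists_moment (M : ℤ) (hM : 0 < M) (x v : ℤ) :
    ∃ (k : ℕ) (m : ℤ), 1 ≤ k ∧ (k : ℤ) ≤ M ∧ v + k = x + m * M := by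
  refine ⟨(1 + (x - v - 1) % M).toNat, -((x - v - 1) / M), ?_, ?_, ?_⟩
  · have := Int.emod_nonneg (x - v - 1) hM.ne'
    omega
  · have h1 := Int.emod_nonneg (x - v - 1) hM.ne'
    have h2 := Int.emod_lt_of_pos (x - v - 1) hM
    rw [Int.toNat_of_nonneg (by omega)]
    omega
  · have h1 := Int.emod_nonneg (x - v - 1) hM.ne'
    rw [Int.toNat_of_nonneg (by omega)]
    have h3 := Int.emod_add_mul_ediv (x - v - 1) M
    linarith

theorem potential_of {R S : Set W} {K : ℤ → W} (hK : C.Line 1 R K) :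
    Potential H S K Set.univ C.u := by
  refine ⟨fun r _ r' _ h => C.lip r r' h, fun r _ t _ h => ?_⟩
  have := C.lip r (K t) h
  rwa [hK.cal.lev t] at this

end L4b

/-- The three free cops follow the robber on `Λ*` until they are a trio, or until they see the
robber in a smaller strip next to `K'` (above) or `K` (below). -/
theorem strip_train {R : Set W} {L U : ℤ → W} {cL cU : W → ℤ} (hX : C.XStrip R L U cL cU)
    {K K' : ℤ → W} (hK : C.Line 1 R K) (hK' : C.Line 1 R K')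
    (hd : NoDet H (R ∩ Down C.Pl K) K Set.univ C.u)
    (hd' : NoDet H (R ∩ Up C.Pl K') K' Set.univ C.u)
    (hmin : ∀ Λ, C.Line 1 R Λ → C.RL R K Λ → ¬ ∀ t, Λ t ∈ Down C.Pl K)
    (hmax : ∀ Λ, C.Line 1 R Λ → C.RL R K' Λ → ¬ ∀ t, Λ t ∈ Up C.Pl K') :
    ∃ T₀ : ℤ, ∀ (N : ℤ) (Λ : ℤ → W) (a b a' b' : ℤ), 0 < N → C.Line N R Λ → a + T₀ ≤ b →
      b ≤ a' → a' + T₀ ≤ b' → b' ≤ a + N * C.ℓ → (∀ t, a ≤ t → t ≤ b → Λ t = K t) →
      (∀ t, a' ≤ t → t ≤ b' → Λ t = K' t) → ∀ (r : W) (c : Fin 7 → V),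
      Locked R (appF (pair π L cL) (pair π U cU)) r c →
      Forces G H π (fun r c => C.StripPos (C.size R) r c ∨
        Locked R (appF (trio π Λ C.u) (appF (pair π L cL) (pair π U cU))) r c) r c := by
  have hR := hX.inv
  have hfin := hX.fin
  obtain ⟨T1, ρ1, h1⟩ := L4b.side_up hR hfin hK' hmax
  obtain ⟨T2, ρ2, h2⟩ := L4b.side_down hR hfin hK hmin
  refine ⟨T1 + T2 + 2 * ρ1 + 2 * ρ2 + 3, ?_⟩
  intro N Λ a b a' b' hN hΛ hab hba' hab' hb'a hΛK hΛK' r c hl
  have hMpos : 0 < N * C.ℓ := mul_pos hN C.ℓpos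
  obtain ⟨M, hM⟩ : ∃ M : ℕ, (M : ℤ) = N * C.ℓ := ⟨(N * C.ℓ).toNat, Int.toNat_of_nonneg hMpos.le⟩
  have := C.finV
  have htr := train C.hG hX.guard (n := M) (by omega) (P := fun t => π (Λ t))
    (fun t => Or.inr (C.cover.adj (hΛ.cal.adj t)))
    (fun t => by rw [hM, hΛ.per]; exact pi_zpow (C := C) N (Λ t)) C.u (fun r _ r' _ h => C.lip r r' h)
    (T := M + T1 + T2) (fun r c => C.StripPos (C.size R) r c) ?_ hl
  · refine Forces.mono ?_ htr
    rintro r c (h | ⟨hr, ho⟩)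
    · exact Or.inl h
    · refine Or.inr ⟨hr, ho.sub (m := 3 + (2 + 2))
        ⟨![4, 5, 6, 0, 1, 2, 3], by decide⟩ ?_⟩
      intro i
      fin_cases i <;> rfl
  · intro p hp hadj hne
    have hlev := L4b.run_level hadj
    have hcur := hΛ.cal.isCurve
    -- the run stays on one side of `Λ`
    have hoff : ∀ k ≤ M + T1 + T2, 0 < k → ∀ t, p k ≠ Λ t := by
      intro k hk hk0 t ht
      apply hne k hk hk0
      have : C.u (p k) = t := by rw [ht, hΛ.cal.lev]
      rw [this, ← ht]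
    have hU : p 1 ∈ Up C.Pl Λ → ∀ k, 1 ≤ k → k ≤ M + T1 + T2 → p k ∈ Up C.Pl Λ := by
      intro h k hk1
      induction k, hk1 using Nat.le_induction with
      | base => intro _; exact h
      | succ k hk1 ih =>
        intro hk
        rcases up_adj C.hH C.Pl hcur (hadj k (by omega)).1 (ih (by omega)) with h | ⟨t, ht⟩
        · exact h
        · exact absurd ht (hoff _ hk (by omega) t)
    have hD : p 1 ∈ Down C.Pl Λ → ∀ k, 1 ≤ k → k ≤ M + T1 + T2 → p k ∈ Down C.Pl Λ := by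
      intro h k hk1
      induction k, hk1 using Nat.le_induction with
      | base => intro _; exact h
      | succ k hk1 ih =>
        intro hk
        rcases down_adj C.hH C.Pl hcur (hadj k (by omega)).1 (ih (by omega)) with h | ⟨t, ht⟩
        · exact h
        · exact absurd ht (hoff _ hk (by omega) t)
    rcases up_or_down C.hH C.Pl hcur (p 1) with h | h | ⟨t, ht⟩
    · -- above
      have hup := hU h
      obtain ⟨k0, m, hk1, hkM, hk⟩ := L4b.exists_moment (N * C.ℓ) hMpos (a' + ρ1 + 1) (C.u (p 0))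
      have hk0M : k0 ≤ M := by omega
      have hag := L4b.stretch hΛ hK' hΛK' m
      have hl0 := hlev k0 (by omega)
      obtain ⟨k, hkT, ⟨hkR, hkU⟩, hnf⟩ := h1 N Λ (a' + m * (N * C.ℓ)) (b' + m * (N * C.ℓ)) hΛ hag
        (fun k => p (k0 + k)) (fun k hk => hp _ (by omega)) (fun k hk => hup _ (by omega) (by omega))
        (fun k hk => hadj (k0 + k) (by omega)) (by simp only [add_zero]; omega)
        (by simp only [add_zero]; omega)
      refine ⟨k0 + k, by omega, ?_⟩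
      intro c hc
      have hlk := hlev (k0 + k) (by omega)
      push_cast at hlk
      have hu1 : Λ (C.u (p (k0 + k))) = K' (C.u (p (k0 + k))) := hag _ (by omega) (by omega)
      have hu2 : Λ (C.u (p (k0 + k)) + 1) = K' (C.u (p (k0 + k)) + 1) :=
        hag _ (by omega) (by omega)
      have hpf := pairFun_cFrom (L4b.potential_of hK') hd'
      have hcv : cFrom H (R ∩ Up C.Pl K') K' Set.univ C.u (p (k0 + k)) = C.u (p (k0 + k)) := by
        unfold cFrom
        rw [if_neg hnf]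
      refine ⟨_, _, _, _, _, (substrip_up hX hK' hd' hpf).1, (substrip_up hX hK' hd' hpf).2,
        ⟨hkR, hkU⟩, hc.sub (m := 2 + 2) ⟨![4, 5, 2, 3], by decide⟩ ?_⟩
      intro i
      fin_cases i
      · change π (Λ (C.u (p (k0 + k)))) = π (K' (cFrom H (R ∩ Up C.Pl K') K' Set.univ C.u (p (k0 + k))))
        rw [hcv, hu1]
      · change π (Λ (C.u (p (k0 + k)) + 1)) =
          π (K' (cFrom H (R ∩ Up C.Pl K') K' Set.univ C.u (p (k0 + k)) + 1))
        rw [hcv, hu2]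
      · rfl
      · rfl
    · -- below
      have hup := hD h
      obtain ⟨k0, m, hk1, hkM, hk⟩ := L4b.exists_moment (N * C.ℓ) hMpos (a + ρ2 + 1) (C.u (p 0))
      have hk0M : k0 ≤ M := by omega
      have hag := L4b.stretch hΛ hK hΛK m
      have hl0 := hlev k0 (by omega)
      obtain ⟨k, hkT, ⟨hkR, hkU⟩, hnf⟩ := h2 N Λ (a + m * (N * C.ℓ)) (b + m * (N * C.ℓ)) hΛ hag
        (fun k => p (k0 + k)) (fun k hk => hp _ (by omega)) (fun k hk => hup _ (by omega) (by omega))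
        (fun k hk => hadj (k0 + k) (by omega)) (by simp only [add_zero]; omega)
        (by simp only [add_zero]; omega)
      refine ⟨k0 + k, by omega, ?_⟩
      intro c hc
      have hlk := hlev (k0 + k) (by omega)
      push_cast at hlk
      have hu1 : Λ (C.u (p (k0 + k))) = K (C.u (p (k0 + k))) := hag _ (by omega) (by omega)
      have hu2 : Λ (C.u (p (k0 + k)) + 1) = K (C.u (p (k0 + k)) + 1) :=
        hag _ (by omega) (by omega)
      have hpf := pairFun_cFrom (L4b.potential_of hK) hd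
      have hcv : cFrom H (R ∩ Down C.Pl K) K Set.univ C.u (p (k0 + k)) = C.u (p (k0 + k)) := by
        unfold cFrom
        rw [if_neg hnf]
      refine ⟨_, _, _, _, _, (substrip_down hX hK hd hpf).1, (substrip_down hX hK hd hpf).2,
        ⟨hkR, hkU⟩, hc.sub (m := 2 + 2) ⟨![0, 1, 4, 5], by decide⟩ ?_⟩
      intro i
      fin_cases i
      · rfl
      · rfl
      · change π (Λ (C.u (p (k0 + k)))) = π (K (cFrom H (R ∩ Down C.Pl K) K Set.univ C.u (p (k0 + k))))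
        rw [hcv, hu1]
      · change π (Λ (C.u (p (k0 + k)) + 1)) =
          π (K (cFrom H (R ∩ Down C.Pl K) K Set.univ C.u (p (k0 + k)) + 1))
        rw [hcv, hu2]
    · exact absurd ht (hoff 1 (by omega) (by omega) t)

end SCtx

end Pool.Agent.MP_f5837d_co
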