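import Pool.Agent.Lib.MP_f5837d_co.GDefs

set_option autoImplicit false

namespace Pool.Agent.MP_f5837d_co

open SimpleGraph

variable {V W : Type*} {G : SimpleGraph V} {H : SimpleGraph W} {π : W → V}

/-! ## Task P1: left sides of curves -/

namespace P1

theorem app_inv {α : Type*} (σ : Equiv.Perm α) (x : α) : σ (σ⁻¹ x) = x := by
  rw [Equiv.Perm.inv_def]; exact σ.apply_symm_apply x

theorem inv_app {α : Type*} (σ : Equiv.Perm α) (x : α) : σ⁻¹ (σ x) = x := by
  rw [Equiv.Perm.inv_def]; exact σ.symm_apply_apply x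

theorem rot_mem {ρ : RotationSystem H} {S : Set H.Dart} (hS : IsFaceSet ρ S) (d : H.Dart) :
    ρ.rot d ∈ S ↔ d.symm ∈ S := by
  have := hS d.symm
  rwa [Dart.symm_symm] at this

theorem pow_mem {ρ : RotationSystem H} {S : Set H.Dart} {w : W}
    (h : ∀ d : H.Dart, d.fst = w → (ρ.rot d ∈ S ↔ d ∈ S)) (n : ℕ) :
    ∀ d : H.Dart, d.fst = w → ((ρ.rot ^ n) d ∈ S ↔ d ∈ S) := by
  induction n with
  | zero => intro d _; simp
  | succ n ih =>
    intro d hd
    rw [pow_succ, Equiv.Perm.mul_apply]
    have h1 := ih (ρ.rot d) (by rw [ρ.rot_fst, hd])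
    rw [h1]
    exact h d hd

theorem const_of_rot {ρ : RotationSystem H} {S : Set H.Dart} {w : W}
    (h : ∀ d : H.Dart, d.fst = w → (ρ.rot d ∈ S ↔ d ∈ S)) {d d' : H.Dart}
    (hd : d.fst = w) (hd' : d'.fst = w) : d ∈ S ↔ d' ∈ S := by
  obtain ⟨n, hn⟩ := ρ.rot_trans d d' (hd.trans hd'.symm)
  have := pow_mem h n d hd
  rw [hn] at this
  exact this.symm

/-- the dart from `x` to `y` -/
def dart {x y : W} (h : H.Adj x y) : H.Dart := ⟨(x, y), h⟩

theorem eq_dart {x y : W} (h : H.Adj x y) {d : H.Dart} (h1 : d.fst = x) (h2 : d.snd = y) :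
    d = dart h := by
  apply Dart.ext
  exact Prod.ext h1 h2

/-- The symmetric comparison set of two face sets. -/
theorem faceSet_iff {ρ : RotationSystem H} {S S' : Set H.Dart} (hS : IsFaceSet ρ S)
    (hS' : IsFaceSet ρ S') : IsFaceSet ρ {d | d ∈ S ↔ d ∈ S'} := by
  intro d
  simp only [Set.mem_setOf_eq]
  rw [hS d, hS' d]

end P1

section P1

variable [∀ w, Fintype (H.neighborSet w)]

/-- A face set without boundary is empty or everything. -/
theorem faceSet_trivial (hH : H.Connected) (ρ : RotationSystem H) {S : Set H.Dart}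
    (hS : IsFaceSet ρ S) (h : ∀ d : H.Dart, d ∈ S ↔ d.symm ∈ S) : S = ∅ ∨ S = Set.univ := by
  rcases S.eq_empty_or_nonempty with h0 | ⟨d₀, hd₀⟩
  · exact Or.inl h0
  · right
    have hrot : ∀ w : W, ∀ d : H.Dart, d.fst = w → (ρ.rot d ∈ S ↔ d ∈ S) := by
      intro w d _
      rw [P1.rot_mem hS d, ← h d]
    have key : ∀ w w' : W, ∀ p : H.Walk w w', (∀ d : H.Dart, d.fst = w → d ∈ S) →
        ∀ d : H.Dart, d.fst = w' → d ∈ S := by
      intro w w' p
      induction p with
      | nil => intro h1; exact h1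
      | @cons a b e hab p ih =>
        intro h1
        apply ih
        intro d hd
        have h2 : P1.dart hab ∈ S := h1 _ rfl
        have h3 : (P1.dart hab).symm ∈ S := (h _).1 h2
        exact (P1.const_of_rot (hrot b) (d := (P1.dart hab).symm) (d' := d) rfl hd).1 h3
    ext d
    simp only [Set.mem_univ, iff_true]
    obtain ⟨p⟩ := hH.preconnected d₀.fst d.fst
    refine key _ _ p ?_ d rfl
    intro d' hd'
    exact (P1.const_of_rot (hrot d₀.fst) rfl hd').1 hd₀

theorem isLeft_unique (hH : H.Connected) (ρ : RotationSystem H) {c : ℤ → W} (hc : IsCurve H c)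
    {S S' : Set H.Dart} (hS : IsLeft ρ c S) (hS' : IsLeft ρ c S') : S = S' := by
  have hT := P1.faceSet_iff hS.face hS'.face
  have hsym : ∀ d : H.Dart, d ∈ {d | d ∈ S ↔ d ∈ S'} ↔ d.symm ∈ {d | d ∈ S ↔ d ∈ S'} := by
    intro d
    simp only [Set.mem_setOf_eq]
    by_cases hon : ∀ t : ℤ, ¬ (d.fst = c t ∧ d.snd = c (t + 1)) ∧
        ¬ (d.fst = c (t + 1) ∧ d.snd = c t)
    · rw [hS.off d hon, hS'.off d hon]
    · push Not at hon
      obtain ⟨t, ht⟩ := hon
      by_cases h1 : d.fst = c t ∧ d.snd = c (t + 1)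
      · have a := hS.left t d h1.1 h1.2
        have b := hS'.left t d h1.1 h1.2
        simp only [a.1, a.2, b.1, b.2]
      · have h2 : d.fst = c (t + 1) ∧ d.snd = c t := ht (fun h3 h4 => h1 ⟨h3, h4⟩)
        have a := hS.left t d.symm h2.2 h2.1
        have b := hS'.left t d.symm h2.2 h2.1
        rw [Dart.symm_symm] at a b
        simp only [a.1, a.2, b.1, b.2]
  rcases faceSet_trivial hH ρ hT hsym with h0 | h1
  · exfalso
    have a := hS.left 0 (P1.dart (hc.adj 0)) rfl rfl
    have b := hS'.left 0 (P1.dart (hc.adj 0)) rfl rfl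
    have : P1.dart (hc.adj 0) ∈ ({d | d ∈ S ↔ d ∈ S'} : Set H.Dart) := by
      simp only [Set.mem_setOf_eq, a.1, b.1]
    rw [h0] at this
    exact this
  · ext d
    have : d ∈ ({d | d ∈ S ↔ d ∈ S'} : Set H.Dart) := by rw [h1]; trivial
    exact this

/-- Two regions with the same boundary are equal or complementary. -/
theorem region_eq_or_compl (hH : H.Connected) (ρ : RotationSystem H) {C : Set (Sym2 W)}
    {S S' : Set H.Dart} (hS : IsRegion ρ C S) (hS' : IsRegion ρ C S') : S = S' ∨ S = S'ᶜ := by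
  have hT := P1.faceSet_iff hS.1 hS'.1
  have hsym : ∀ d : H.Dart, d ∈ {d | d ∈ S ↔ d ∈ S'} ↔ d.symm ∈ {d | d ∈ S ↔ d ∈ S'} := by
    intro d
    simp only [Set.mem_setOf_eq]
    have a := hS.2 d
    have b := hS'.2 d
    tauto
  rcases faceSet_trivial hH ρ hT hsym with h0 | h1
  · right
    ext d
    have : d ∉ ({d | d ∈ S ↔ d ∈ S'} : Set H.Dart) := by rw [h0]; exact Set.notMem_empty d
    simp only [Set.mem_setOf_eq] at this
    simp only [Set.mem_compl_iff]
    tauto
  · left
    ext d
    have : d ∈ ({d | d ∈ S ↔ d ∈ S'} : Set H.Dart) := by rw [h1]; trivial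
    exact this

/-- All darts at a vertex that is not on the boundary have the same status. -/
theorem region_const (ρ : RotationSystem H) {C : Set (Sym2 W)} {S : Set H.Dart}
    (hS : IsRegion ρ C S) {w : W} (hw : ∀ y, H.Adj w y → s(w, y) ∉ C) {d d' : H.Dart}
    (hd : d.fst = w) (hd' : d'.fst = w) : d ∈ S ↔ d' ∈ S := by
  refine P1.const_of_rot (ρ := ρ) (w := w) ?_ hd hd'
  intro e he
  rw [P1.rot_mem hS.1 e]
  have hadj : H.Adj w e.snd := by rw [← he]; exact e.adj
  have hedge : e.edge ∉ C := by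
    have h1 : e.edge = s(w, e.snd) := by rw [← he]; rfl
    rw [h1]
    exact hw _ hadj
  exact ((hS.2 e).2 hedge).symm

/-- Adjacent vertices, the second one off the boundary, have the same status. -/
theorem ins_of_adj (ρ : RotationSystem H) {C : Set (Sym2 W)} {S : Set H.Dart}
    (hS : IsRegion ρ C S) {x y : W} (hxy : H.Adj x y) (hx : x ∈ Ins S)
    (hy : ∀ z, H.Adj y z → s(y, z) ∉ C) : y ∈ Ins S := by
  intro d hd
  have h1 : P1.dart hxy ∈ S := hx _ rfl
  have h2 : (P1.dart hxy).edge ∉ C := by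
    have h3 : (P1.dart hxy).edge = s(y, x) := Sym2.eq_swap
    rw [h3]
    exact hy x hxy.symm
  have h4 : (P1.dart hxy).symm ∈ S := ((hS.2 _).2 h2).1 h1
  exact (region_const ρ hS hy (d := (P1.dart hxy).symm) (d' := d) rfl hd).1 h4

/-- The left side of a curve is a region bounded by the edges of the curve. -/
theorem IsLeft.isRegion (ρ : RotationSystem H) {c : ℤ → W} (hc : IsCurve H c) {S : Set H.Dart}
    (hS : IsLeft ρ c S) : IsRegion ρ {e | ∃ t : ℤ, e = s(c t, c (t + 1))} S := by
  refine ⟨hS.face, ?_⟩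
  intro d
  constructor
  · rintro h ⟨t, ht⟩
    have ht' : s(d.fst, d.snd) = s(c t, c (t + 1)) := ht
    rw [Sym2.eq_iff] at ht'
    rcases ht' with ⟨h1, h2⟩ | ⟨h1, h2⟩
    · have a := hS.left t d h1 h2
      exact a.2 (h.1 a.1)
    · have a := hS.left t d.symm h2 h1
      rw [Dart.symm_symm] at a
      exact a.2 (h.2 a.1)
  · intro h
    refine hS.off d ?_
    intro t
    constructor
    · rintro ⟨h1, h2⟩
      refine h ⟨t, ?_⟩
      change s(d.fst, d.snd) = _
      rw [h1, h2]
    · rintro ⟨h1, h2⟩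
      refine h ⟨t, ?_⟩
      change s(d.fst, d.snd) = _
      rw [h1, h2]
      exact Sym2.eq_swap

/-- The boundary flow of a face set is conservative. -/
theorem faceSet_flow (ρ : RotationSystem H) {F : H.Dart → ℤ}
    (hF : ∀ d, F (ρ.rot d.symm) = F d)
    (w : W) : ∑ y : H.neighborSet w, (F (H.dartOfNeighborSet w y) -
      F (H.dartOfNeighborSet w y).symm) = 0 := by
  rw [Finset.sum_sub_distrib, sub_eq_zero]
  have h1 : ∀ y : H.neighborSet w, F (H.dartOfNeighborSet w y).symm =
      F (ρ.rot (H.dartOfNeighborSet w y)) := by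
    intro y
    rw [← hF (H.dartOfNeighborSet w y).symm, Dart.symm_symm]
  simp only [h1]
  have hfst : ∀ y : H.neighborSet w, (ρ.rot (H.dartOfNeighborSet w y)).fst = w := by
    intro y; rw [ρ.rot_fst]; rfl
  have hfst' : ∀ y : H.neighborSet w, (ρ.rot⁻¹ (H.dartOfNeighborSet w y)).fst = w := by
    intro y
    have := ρ.rot_fst (ρ.rot⁻¹ (H.dartOfNeighborSet w y))
    rw [P1.app_inv] at this
    rw [← this]
    rfl
  let σ : H.neighborSet w ≃ H.neighborSet w :=
    { toFun := fun y => ⟨(ρ.rot (H.dartOfNeighborSet w y)).snd, by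
        have := (ρ.rot (H.dartOfNeighborSet w y)).adj
        rw [hfst y] at this
        exact this⟩
      invFun := fun y => ⟨(ρ.rot⁻¹ (H.dartOfNeighborSet w y)).snd, by
        have := (ρ.rot⁻¹ (H.dartOfNeighborSet w y)).adj
        rw [hfst' y] at this
        exact this⟩
      left_inv := by
        intro y
        apply Subtype.ext
        change (ρ.rot⁻¹ (H.dartOfNeighborSet w _)).snd = y.1
        have h2 : H.dartOfNeighborSet w ⟨(ρ.rot (H.dartOfNeighborSet w y)).snd, by
            have := (ρ.rot (H.dartOfNeighborSet w y)).adj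
            rw [hfst y] at this
            exact this⟩ = ρ.rot (H.dartOfNeighborSet w y) := by
          apply Dart.ext
          exact Prod.ext (hfst y).symm rfl
        rw [h2, P1.inv_app]
        rfl
      right_inv := by
        intro y
        apply Subtype.ext
        change (ρ.rot (H.dartOfNeighborSet w _)).snd = y.1
        have h2 : H.dartOfNeighborSet w ⟨(ρ.rot⁻¹ (H.dartOfNeighborSet w y)).snd, by
            have := (ρ.rot⁻¹ (H.dartOfNeighborSet w y)).adj
            rw [hfst' y] at this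
            exact this⟩ = ρ.rot⁻¹ (H.dartOfNeighborSet w y) := by
          apply Dart.ext
          exact Prod.ext (hfst' y).symm rfl
        rw [h2, P1.app_inv]
        rfl }
  have h3 : ∀ y : H.neighborSet w, ρ.rot (H.dartOfNeighborSet w y) =
      H.dartOfNeighborSet w (σ y) := by
    intro y
    apply Dart.ext
    exact Prod.ext (hfst y) rfl
  simp only [h3]
  exact (Equiv.sum_comp σ (fun y => F (H.dartOfNeighborSet w y))).symm

/-- Existence of the left side: take the flow of the curve, a face function `F` with this boundary,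
and normalise. -/
theorem exists_isLeft (hH : H.Connected) (Pl : Plane H) {c : ℤ → W} (hc : IsCurve H c) :
    ∃ S, IsLeft Pl.toRotationSystem c S := by
  classical
  -- forward and backward darts of the curve
  let Fw : H.Dart → Prop := fun d => ∃ t : ℤ, d.fst = c t ∧ d.snd = c (t + 1)
  have hdis : ∀ d, Fw d → ¬ Fw d.symm := by
    rintro d ⟨t, h1, h2⟩ ⟨s, h3, h4⟩
    have h3' : d.snd = c s := h3
    have h4' : d.fst = c (s + 1) := h4
    have h5 := (hc.det s (t + 1) (h3'.symm.trans h2)).1
    have h6 : c (t + 1 + 1) = c t := by rw [← h5, ← h4', h1]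
    have h7 : t + 1 + 1 = t + 2 := by ring
    rw [h7] at h6
    exact hc.noback t h6
  let E : H.Dart → ℤ := fun d => (if Fw d then 1 else 0) - (if Fw d.symm then 1 else 0)
  have hE : ∀ d, E d.symm = - E d := by
    intro d
    simp only [E, Dart.symm_symm]
    ring
  -- the darts of the curve at one of its vertices
  have hout : ∀ (t : ℤ) (y : H.neighborSet (c t)),
      Fw (H.dartOfNeighborSet (c t) y) ↔ y.1 = c (t + 1) := by
    intro t y
    constructor
    · rintro ⟨s, h1, h2⟩
      have h1' : c t = c s := h1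
      have h2' : y.1 = c (s + 1) := h2
      rw [h2', (hc.det t s h1').1]
    · intro h
      exact ⟨t, rfl, h⟩
  have hin : ∀ (t : ℤ) (y : H.neighborSet (c t)),
      Fw (H.dartOfNeighborSet (c t) y).symm ↔ y.1 = c (t - 1) := by
    intro t y
    constructor
    · rintro ⟨s, h1, h2⟩
      have h1' : y.1 = c s := h1
      have h2' : c t = c (s + 1) := h2
      have h3 := (hc.det t (s + 1) h2').2
      rw [h1', h3]
      congr 1
      ring
    · intro h
      refine ⟨t - 1, h, ?_⟩
      have : t - 1 + 1 = t := by ring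
      rw [this]
      rfl
  have hadj1 : ∀ t : ℤ, c (t + 1) ∈ H.neighborSet (c t) := fun t => hc.adj t
  have hadj2 : ∀ t : ℤ, c (t - 1) ∈ H.neighborSet (c t) := by
    intro t
    have := hc.adj (t - 1)
    rw [sub_add_cancel] at this
    exact this.symm
  have hsum : ∀ w, ∑ y : H.neighborSet w, E (H.dartOfNeighborSet w y) = 0 := by
    intro w
    by_cases hw : ∃ t : ℤ, w = c t
    · obtain ⟨t, rfl⟩ := hw
      simp only [E, hout, hin]
      rw [Finset.sum_sub_distrib]
      have h1 : ∀ y : H.neighborSet (c t), (y.1 = c (t + 1)) ↔ y = ⟨c (t + 1), hadj1 t⟩ := by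
        intro y
        rw [Subtype.ext_iff]
      have h2 : ∀ y : H.neighborSet (c t), (y.1 = c (t - 1)) ↔ y = ⟨c (t - 1), hadj2 t⟩ := by
        intro y
        rw [Subtype.ext_iff]
      simp only [h1, h2]
      simp
    · refine Finset.sum_eq_zero ?_
      intro y _
      have h1 : ¬ Fw (H.dartOfNeighborSet w y) := by
        rintro ⟨t, h1, _⟩
        exact hw ⟨t, h1⟩
      have h2 : ¬ Fw (H.dartOfNeighborSet w y).symm := by
        rintro ⟨t, _, h1⟩
        exact hw ⟨t + 1, h1⟩
      simp only [E, h1, h2, if_false, sub_zero]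
  obtain ⟨F, hF, hFE⟩ := Pl.exact E hE hsum
  -- the value of `F` on the darts of the curve
  let dt : ℤ → H.Dart := fun t => P1.dart (hc.adj t)
  have hFw : ∀ t, Fw (dt t) := fun t => ⟨t, rfl, rfl⟩
  have hconst1 : ∀ t, F (dt (t + 1)) = F (dt t) := by
    intro t
    set m := F (dt t) with hm
    let F' : H.Dart → ℤ := fun d => if m ≤ F d then 1 else 0
    have hF' : ∀ d, F' (Pl.rot d.symm) = F' d := by
      intro d
      simp only [F', hF]
    have hfl := faceSet_flow Pl.toRotationSystem hF' (c (t + 1))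
    have hterm : ∀ y : H.neighborSet (c (t + 1)), F' (H.dartOfNeighborSet (c (t + 1)) y) -
        F' (H.dartOfNeighborSet (c (t + 1)) y).symm =
        (if y = (⟨c (t + 1 + 1), hadj1 (t + 1)⟩ : H.neighborSet (c (t + 1))) then
          (if F (dt (t + 1)) = m then 1 else 0) else 0) -
        (if y = (⟨c (t + 1 - 1), hadj2 (t + 1)⟩ : H.neighborSet (c (t + 1))) then 1 else 0) := by
      intro y
      have hEy := hFE (H.dartOfNeighborSet (c (t + 1)) y)
      have ho := hout (t + 1) y
      have hi := hin (t + 1) y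
      by_cases hy1 : y.1 = c (t + 1 + 1)
      · have hy1' : y = (⟨c (t + 1 + 1), hadj1 (t + 1)⟩ : H.neighborSet (c (t + 1))) :=
          Subtype.ext hy1
        have hy2 : ¬ y = (⟨c (t + 1 - 1), hadj2 (t + 1)⟩ : H.neighborSet (c (t + 1))) := by
          intro h
          have h3 : y.1 = c (t + 1 - 1) := by rw [h]
          exact hdis _ (ho.2 hy1) (hi.2 h3)
        rw [if_pos hy1', if_neg hy2, sub_zero]
        have hd : H.dartOfNeighborSet (c (t + 1)) y = dt (t + 1) := by
          apply Dart.ext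
          exact Prod.ext rfl hy1
        rw [hd] at hEy ⊢
        have hE1 : E (dt (t + 1)) = 1 := by
          simp only [E, hFw, hdis _ (hFw (t + 1)), if_true, if_false, sub_zero]
        rw [hE1] at hEy
        simp only [F']
        by_cases h4 : F (dt (t + 1)) = m
        · rw [if_pos h4, if_pos (by omega), if_neg (by omega)]
          rfl
        · rw [if_neg h4]
          by_cases h5 : m ≤ F (dt (t + 1))
          · rw [if_pos h5, if_pos (by omega)]
            rfl
          · rw [if_neg h5, if_neg (by omega)]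
            rfl
      · have hy1' : ¬ y = (⟨c (t + 1 + 1), hadj1 (t + 1)⟩ : H.neighborSet (c (t + 1))) := by
          intro h
          exact hy1 (by rw [h])
        rw [if_neg hy1', zero_sub]
        have hnF : ¬ Fw (H.dartOfNeighborSet (c (t + 1)) y) := fun h => hy1 (ho.1 h)
        by_cases hy2 : y.1 = c (t + 1 - 1)
        · have hy2' : y = (⟨c (t + 1 - 1), hadj2 (t + 1)⟩ : H.neighborSet (c (t + 1))) :=
            Subtype.ext hy2
          rw [if_pos hy2']
          have hd : (H.dartOfNeighborSet (c (t + 1)) y).symm = dt t := by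
            apply Dart.ext
            refine Prod.ext ?_ rfl
            change y.1 = c t
            rw [hy2]
            congr 1
            ring
          have hE1 : E (H.dartOfNeighborSet (c (t + 1)) y) = -1 := by
            simp only [E, hnF, hi.2 hy2, if_true, if_false]
            rfl
          rw [hE1, hd] at hEy
          rw [hd]
          simp only [F']
          rw [if_neg (by omega), if_pos (by omega)]
          rfl
        · have hy2' : ¬ y = (⟨c (t + 1 - 1), hadj2 (t + 1)⟩ : H.neighborSet (c (t + 1))) := by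
            intro h
            exact hy2 (by rw [h])
          rw [if_neg hy2', neg_zero]
          have hnB : ¬ Fw (H.dartOfNeighborSet (c (t + 1)) y).symm := fun h => hy2 (hi.1 h)
          have hE0 : E (H.dartOfNeighborSet (c (t + 1)) y) = 0 := by
            simp only [E, hnF, hnB, if_false, sub_zero]
          rw [hE0] at hEy
          simp only [F']
          have h6 : F (H.dartOfNeighborSet (c (t + 1)) y).symm =
            F (H.dartOfNeighborSet (c (t + 1)) y) := by omega
          rw [h6, sub_self]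
    simp only [hterm] at hfl
    rw [Finset.sum_sub_distrib] at hfl
    simp only [Finset.sum_ite_eq', Finset.mem_univ, if_true] at hfl
    by_contra hne
    rw [if_neg hne] at hfl
    omega
  have hconst : ∀ t, F (dt t) = F (dt 0) := by
    intro t
    induction t using Int.induction_on with
    | zero => rfl
    | succ i ih => rw [hconst1, ih]
    | pred i ih =>
      have := hconst1 (-(i : ℤ) - 1)
      rw [sub_add_cancel] at this
      rw [← this, ih]
  refine ⟨{d | F (dt 0) ≤ F d}, ⟨?_, ?_, ?_⟩⟩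
  · intro d
    simp only [Set.mem_setOf_eq, hF]
  · intro t d h1 h2
    have hd : d = dt t := P1.eq_dart (hc.adj t) h1 h2
    subst hd
    have h3 := hFE (dt t)
    have hE1 : E (dt t) = 1 := by
      simp only [E, hFw, hdis _ (hFw t), if_true, if_false, sub_zero]
    rw [hE1] at h3
    have h4 := hconst t
    simp only [Set.mem_setOf_eq]
    constructor <;> omega
  · intro d hd
    have h3 := hFE d
    have h1 : ¬ Fw d := by
      rintro ⟨t, h1, h2⟩
      exact (hd t).1 ⟨h1, h2⟩
    have h2 : ¬ Fw d.symm := by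
      rintro ⟨t, h1, h2⟩
      exact (hd t).2 ⟨h2, h1⟩
    have hE0 : E d = 0 := by simp only [E, h1, h2, if_false, sub_zero]
    rw [hE0] at h3
    simp only [Set.mem_setOf_eq]
    constructor <;> intro h <;> omega

/-- The mirror image of a plane. -/
def RotationSystem.mirror (ρ : RotationSystem H) : RotationSystem H where
  rot := ρ.rot⁻¹
  rot_fst := by
    intro d
    have := ρ.rot_fst (ρ.rot⁻¹ d)
    rw [P1.app_inv] at this
    exact this.symm
  rot_trans := by
    intro d d' h
    obtain ⟨n, hn⟩ := ρ.rot_trans d' d h.symm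
    refine ⟨n, ?_⟩
    rw [← hn, inv_pow, P1.inv_app]

def Plane.mirror (Pl : Plane H) : Plane H where
  toRotationSystem := Pl.toRotationSystem.mirror
  exact := by
    intro E hE hsum
    obtain ⟨F, hF, hFE⟩ := Pl.exact (fun d => - E d) (by intro d; rw [hE d])
      (by intro w; rw [Finset.sum_neg_distrib, hsum w, neg_zero])
    refine ⟨fun d => F d.symm, ?_, ?_⟩
    · intro d
      change F ((Pl.rot⁻¹ d.symm).symm) = F d.symm
      have h1 := hF (Pl.rot⁻¹ d.symm).symm
      rw [Dart.symm_symm, P1.app_inv] at h1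
      exact h1.symm
    · intro d
      have h1 := hFE d
      simp only [Dart.symm_symm]
      linarith

theorem isLeft_mirror (ρ : RotationSystem H) {c : ℤ → W} {S : Set H.Dart} (hS : IsLeft ρ c S) :
    IsLeft ρ.mirror c {d | d.symm ∉ S} := by
  refine ⟨?_, ?_, ?_⟩
  · intro d
    simp only [Set.mem_setOf_eq]
    change (ρ.rot⁻¹ d.symm).symm ∉ S ↔ d.symm ∉ S
    have h1 := hS.face (ρ.rot⁻¹ d.symm).symm
    rw [Dart.symm_symm, P1.app_inv] at h1
    rw [h1]
  · intro t d h1 h2
    have a := hS.left t d h1 h2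
    simp only [Set.mem_setOf_eq, Dart.symm_symm]
    exact ⟨a.2, not_not.2 a.1⟩
  · intro d hd
    have a := hS.off d hd
    simp only [Set.mem_setOf_eq, Dart.symm_symm]
    rw [a]

theorem isRegion_mirror (ρ : RotationSystem H) {C : Set (Sym2 W)} {S : Set H.Dart}
    (hS : IsRegion ρ C S) : IsRegion ρ.mirror C {d | d.symm ∈ S} := by
  refine ⟨?_, ?_⟩
  · intro d
    simp only [Set.mem_setOf_eq]
    change (ρ.rot⁻¹ d.symm).symm ∈ S ↔ d.symm ∈ S
    have h1 := hS.1 (ρ.rot⁻¹ d.symm).symm
    rw [Dart.symm_symm, P1.app_inv] at h1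
    exact h1.symm
  · intro d
    have a := hS.2 d
    simp only [Set.mem_setOf_eq, Dart.symm_symm]
    rw [← a]
    exact ⟨Iff.symm, Iff.symm⟩

theorem mirror_mirror (ρ : RotationSystem H) : ρ.mirror.mirror = ρ := by
  cases ρ with
  | mk rot h1 h2 =>
    simp only [RotationSystem.mirror, inv_inv]

end P1

end Pool.Agent.MP_f5837d_co

namespace Pool.Agent.MP_f5837d_co

open SimpleGraph

variable {V W : Type*} {G : SimpleGraph V} {H : SimpleGraph W} {π : W → V}

/-! ## Task P2: the theta lemma for curves -/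

/-- The edges of `q` between the indices `a` and `b`. -/
def segEdges (q : ℤ → W) (a b : ℤ) : Set (Sym2 W) := {e | ∃ t, a ≤ t ∧ t < b ∧ e = s(q t, q (t + 1))}

/-- All edges of `q`. -/
def curveEdges (q : ℤ → W) : Set (Sym2 W) := {e | ∃ t : ℤ, e = s(q t, q (t + 1))}

namespace P2

theorem edge_cases {d : H.Dart} {a b : W} (h : d.edge = s(a, b)) :
    (d.fst = a ∧ d.snd = b) ∨ (d.fst = b ∧ d.snd = a) := by
  rcases d with ⟨⟨x, y⟩, hd⟩
  simpa [Sym2.eq_iff] using h

theorem edge_eq {d : H.Dart} {a b : W} (ha : d.fst = a) (hb : d.snd = b) : d.edge = s(a, b) := by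
  rw [← ha, ← hb]; rfl

theorem symm_fst (d : H.Dart) : d.symm.fst = d.snd := rfl

theorem symm_snd (d : H.Dart) : d.symm.snd = d.fst := rfl

/-- A periodic curve. -/
theorem isCurve_periodic {n : ℤ} (hn : 3 ≤ n) {f : ℤ → W} (hf : Set.InjOn f (Set.Ico 0 n))
    (hadj : ∀ u, 0 ≤ u → u + 1 < n → H.Adj (f u) (f (u + 1))) (hlast : H.Adj (f (n - 1)) (f 0)) :
    IsCurve H (fun t => f (t % n)) := by
  have hpos : 0 < n := by omega
  have hmod : ∀ t : ℤ, 0 ≤ t % n ∧ t % n < n := fun t =>
    ⟨Int.emod_nonneg t (by omega), Int.emod_lt_of_pos t hpos⟩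
  have hmem : ∀ t : ℤ, t % n ∈ Set.Ico 0 n := fun t => hmod t
  have hinj : ∀ s t : ℤ, f (s % n) = f (t % n) → s ≡ t [ZMOD n] := fun s t h =>
    hf (hmem s) (hmem t) h
  refine ⟨?_, ?_, ?_⟩
  · intro t
    show H.Adj (f (t % n)) (f ((t + 1) % n))
    have h1 := hmod t
    by_cases h : t % n + 1 < n
    · have : (t + 1) % n = t % n + 1 := by
        rw [Int.add_emod, Int.emod_eq_of_lt (a := 1) (by omega) (by omega),
          Int.emod_eq_of_lt (by omega) h]
      rw [this]
      exact hadj _ h1.1 h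
    · have h2 : t % n = n - 1 := by omega
      have : (t + 1) % n = 0 := by
        rw [Int.add_emod, h2, Int.emod_eq_of_lt (a := 1) (by omega) (by omega),
          sub_add_cancel, Int.emod_self]
      rw [this, h2]
      exact hlast
  · intro s t h
    have h1 := hinj s t h
    exact ⟨by
      show f ((s + 1) % n) = f ((t + 1) % n)
      rw [(h1.add_right 1 : s + 1 ≡ t + 1 [ZMOD n])], by
      show f ((s - 1) % n) = f ((t - 1) % n)
      rw [(h1.sub_right 1 : s - 1 ≡ t - 1 [ZMOD n])]⟩
  · intro t h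
    have h1 := hinj (t + 2) t h
    have h2 : n ∣ 2 := by
      have := h1.dvd
      have e : t - (t + 2) = -2 := by ring
      rw [e] at this
      exact (dvd_neg.1 this)
    have := Int.le_of_dvd (by norm_num) h2
    omega

/-- The cycle formed by the part `c[i..j]` of a curve and a path `q[a..b]`, traversed backwards. -/
theorem exists_cycle {c : ℤ → W} (hc : IsCurve H c) {i j a b : ℤ} (hij : i < j)
    (hinj : Set.InjOn c (Set.Icc i j)) (hab : a < b) (q : ℤ → W) (hqa : q a = c i)
    (hqb : q b = c j) (hqinj : Set.InjOn q (Set.Icc a b))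
    (hqadj : ∀ t, a ≤ t → t < b → H.Adj (q t) (q (t + 1)))
    (hqoff : ∀ t, a < t → t < b → ∀ s, q t ≠ c s) (hlen : 3 ≤ (j - i) + (b - a)) :
    ∃ z : ℤ → W, IsCurve H z ∧
      (∀ t, (∃ u, i ≤ u ∧ u < j ∧ z t = c u ∧ z (t + 1) = c (u + 1)) ∨
        ∃ u, a ≤ u ∧ u < b ∧ z t = q (u + 1) ∧ z (t + 1) = q u) ∧
      (∀ u, i ≤ u → u < j → ∃ t, z t = c u ∧ z (t + 1) = c (u + 1)) ∧
      ∀ u, a ≤ u → u < b → ∃ t, z t = q (u + 1) ∧ z (t + 1) = q u := by
  set n : ℤ := (j - i) + (b - a) with hn
  set f : ℤ → W := fun u => if u ≤ j - i then c (i + u) else q (b - (u - (j - i))) with hf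
  have hf1 : ∀ u, u ≤ j - i → f u = c (i + u) := fun u hu => if_pos hu
  have hf2 : ∀ u, j - i ≤ u → f u = q (b - (u - (j - i))) := by
    intro u hu
    by_cases h : u ≤ j - i
    · have : u = j - i := le_antisymm h hu
      subst this
      rw [hf1 _ le_rfl, sub_self, sub_zero, hqb, add_sub_cancel]
    · exact if_neg h
  have hf0 : f 0 = q a := by rw [hf1 0 (by omega), add_zero, hqa]
  have hfinj : Set.InjOn f (Set.Ico 0 n) := by
    rintro u ⟨hu0, hu1⟩ v ⟨hv0, hv1⟩ huv
    by_cases h1 : u ≤ j - i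
    · by_cases h2 : v ≤ j - i
      · rw [hf1 u h1, hf1 v h2] at huv
        have := hinj ⟨by omega, by omega⟩ ⟨by omega, by omega⟩ huv
        omega
      · rw [hf1 u h1, hf2 v (by omega)] at huv
        exact absurd huv.symm (hqoff _ (by omega) (by omega) _)
    · by_cases h2 : v ≤ j - i
      · rw [hf2 u (by omega), hf1 v h2] at huv
        exact absurd huv (hqoff _ (by omega) (by omega) _)
      · rw [hf2 u (by omega), hf2 v (by omega)] at huv
        have := hqinj ⟨by omega, by omega⟩ ⟨by omega, by omega⟩ huv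
        omega
  have hadjf : ∀ u, 0 ≤ u → u < n → H.Adj (f u) (if u + 1 = n then f 0 else f (u + 1)) := by
    intro u hu0 hu1
    by_cases h1 : u + 1 ≤ j - i
    · rw [if_neg (by omega), hf1 u (by omega), hf1 (u + 1) h1, ← add_assoc]
      exact hc.adj _
    · have e : f u = q ((b - (u - (j - i)) - 1) + 1) := by
        rw [hf2 u (by omega), sub_add_cancel]
      have e' : (if u + 1 = n then f 0 else f (u + 1)) = q (b - (u - (j - i)) - 1) := by
        by_cases h2 : u + 1 = n
        · rw [if_pos h2, hf0]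
          congr 1
          omega
        · rw [if_neg h2, hf2 (u + 1) (by omega)]
          congr 1
          ring
      rw [e, e']
      exact (hqadj _ (by omega) (by omega)).symm
  have hcurve : IsCurve H (fun t => f (t % n)) := by
    refine isCurve_periodic (by omega) hfinj ?_ ?_
    · intro u h0 h1
      have := hadjf u h0 (by omega)
      rwa [if_neg (by omega)] at this
    · have := hadjf (n - 1) (by omega) (by omega)
      rwa [if_pos (by omega)] at this
  -- successive values
  have hmod : ∀ t : ℤ, 0 ≤ t % n ∧ t % n < n := fun t =>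
    ⟨Int.emod_nonneg t (by omega), Int.emod_lt_of_pos t (by omega)⟩
  have hsucc : ∀ t : ℤ, f ((t + 1) % n) = if t % n + 1 = n then f 0 else f (t % n + 1) := by
    intro t
    have h1 := hmod t
    by_cases h : t % n + 1 = n
    · rw [if_pos h]
      have : (t + 1) % n = 0 := by
        rw [Int.add_emod, Int.emod_eq_of_lt (a := 1) (by omega) (by omega), h, Int.emod_self]
      rw [this]
    · rw [if_neg h]
      have : (t + 1) % n = t % n + 1 := by
        rw [Int.add_emod, Int.emod_eq_of_lt (a := 1) (by omega) (by omega),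
          Int.emod_eq_of_lt (by omega) (by omega)]
      rw [this]
  have hst : ∀ u, 0 ≤ u → u < n →
      (∃ v, i ≤ v ∧ v < j ∧ f u = c v ∧ (if u + 1 = n then f 0 else f (u + 1)) = c (v + 1)) ∨
        ∃ v, a ≤ v ∧ v < b ∧ f u = q (v + 1) ∧
          (if u + 1 = n then f 0 else f (u + 1)) = q v := by
    intro u hu0 hu1
    by_cases h1 : u + 1 ≤ j - i
    · left
      refine ⟨i + u, by omega, by omega, hf1 u (by omega), ?_⟩
      rw [if_neg (by omega), hf1 (u + 1) h1, ← add_assoc]
    · right
      refine ⟨b - (u - (j - i)) - 1, by omega, by omega, ?_, ?_⟩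
      · rw [hf2 u (by omega), sub_add_cancel]
      · by_cases h2 : u + 1 = n
        · rw [if_pos h2, hf0]
          congr 1
          omega
        · rw [if_neg h2, hf2 (u + 1) (by omega)]
          congr 1
          ring
  refine ⟨fun t => f (t % n), hcurve, ?_, ?_, ?_⟩
  · intro t
    have := hst (t % n) (hmod t).1 (hmod t).2
    simp only [hsucc t]
    exact this
  · intro u h1 h2
    refine ⟨u - i, ?_, ?_⟩
    · show f ((u - i) % n) = c u
      rw [Int.emod_eq_of_lt (by omega) (by omega), hf1 _ (by omega)]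
      congr 1
      ring
    · show f ((u - i + 1) % n) = c (u + 1)
      rw [hsucc, Int.emod_eq_of_lt (by omega) (by omega), if_neg (by omega), hf1 _ (by omega)]
      congr 1
      ring
  · intro u h1 h2
    refine ⟨(j - i) + (b - (u + 1)), ?_, ?_⟩
    · show f (((j - i) + (b - (u + 1))) % n) = q (u + 1)
      rw [Int.emod_eq_of_lt (by omega) (by omega), hf2 _ (by omega)]
      congr 1
      ring
    · show f (((j - i) + (b - (u + 1)) + 1) % n) = q u
      rw [hsucc, Int.emod_eq_of_lt (by omega) (by omega)]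
      by_cases h3 : (j - i) + (b - (u + 1)) + 1 = n
      · rw [if_pos h3, hf0]
        congr 1
        omega
      · rw [if_neg h3, hf2 _ (by omega)]
        congr 1
        ring

end P2

/-- The theta lemma: the left side `S` of the curve `c` is divided by a path `q` through `S` from
`c i` to `c j` into `S₁`, between `c[i..j]` and `q`, and the rest `S₂`. -/
theorem theta_curve [∀ w, Fintype (H.neighborSet w)] (hH : H.Connected) (Pl : Plane H)
    {c : ℤ → W} (hc : IsCurve H c) {S : Set H.Dart} (hS : IsLeft Pl.toRotationSystem c S)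
    {i j a b : ℤ} (hij : i < j) (hinj : Set.InjOn c (Set.Icc i j)) (hab : a < b)
    (q : ℤ → W) (hqa : q a = c i) (hqb : q b = c j) (hqinj : Set.InjOn q (Set.Icc a b))
    (hqadj : ∀ t, a ≤ t → t < b → H.Adj (q t) (q (t + 1)))
    (hqoff : ∀ t, a < t → t < b → ∀ s, q t ≠ c s)
    (hqS : ∀ (t : ℤ) (d : H.Dart), a ≤ t → t < b → d.fst = q t → d.snd = q (t + 1) →
      d ∈ S ∧ d.symm ∈ S) :
    ∃ S₁ S₂ : Set H.Dart,
      IsRegion Pl.toRotationSystem (segEdges c i j ∪ segEdges q a b) S₁ ∧
      IsRegion Pl.toRotationSystem ((curveEdges c \ segEdges c i j) ∪ segEdges q a b) S₂ ∧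
      S = S₁ ∪ S₂ ∧ Disjoint S₁ S₂ ∧
      ∀ (t : ℤ) (d : H.Dart), a ≤ t → t < b → d.fst = q t → d.snd = q (t + 1) →
        d ∈ S₂ ∧ d.symm ∈ S₁ := by
  classical
  set ρ := Pl.toRotationSystem with hρ
  -- edges of the curve have one dart off `S`
  have hcS : ∀ d : H.Dart, d.edge ∈ curveEdges c → ¬ (d ∈ S ∧ d.symm ∈ S) := by
    rintro d ⟨t, ht⟩ ⟨h1, h2⟩
    rcases P2.edge_cases ht with ⟨ha, hb⟩ | ⟨ha, hb⟩
    · exact (hS.left t d ha hb).2 h2
    · have := (hS.left t d.symm (by rw [P2.symm_fst, hb]) (by rw [P2.symm_snd, ha])).2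
      rw [Dart.symm_symm] at this
      exact this h1
  have hcS' : ∀ d : H.Dart, d.edge ∉ curveEdges c → (d ∈ S ↔ d.symm ∈ S) := by
    intro d hd
    refine hS.off d (fun t => ⟨fun h => hd ⟨t, P2.edge_eq h.1 h.2⟩, fun h => hd ⟨t, ?_⟩⟩)
    rw [P2.edge_eq h.1 h.2]
    exact Sym2.eq_swap
  have hqS' : ∀ d : H.Dart, d.edge ∈ segEdges q a b → d ∈ S ∧ d.symm ∈ S := by
    rintro d ⟨t, h1, h2, ht⟩
    rcases P2.edge_cases ht with ⟨ha, hb⟩ | ⟨ha, hb⟩
    · exact hqS t d h1 h2 ha hb
    · have := hqS t d.symm h1 h2 (by rw [P2.symm_fst, hb]) (by rw [P2.symm_snd, ha])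
      rw [Dart.symm_symm] at this
      exact this.symm
  have hsegc : segEdges c i j ⊆ curveEdges c := by
    rintro e ⟨t, _, _, rfl⟩
    exact ⟨t, rfl⟩
  have hlen : 3 ≤ (j - i) + (b - a) := by
    by_contra hcon
    have e1 : j = i + 1 := by omega
    have e2 : b = a + 1 := by omega
    subst e1; subst e2
    have h1 := hqadj a le_rfl (by omega)
    have h2 := hqS a ⟨(q a, q (a + 1)), h1⟩ le_rfl (by omega) rfl rfl
    refine hcS ⟨(q a, q (a + 1)), h1⟩ ⟨i, ?_⟩ h2
    exact P2.edge_eq hqa hqb
  obtain ⟨z, hz, hzstep, hzc, hzq⟩ := P2.exists_cycle hc hij hinj hab q hqa hqb hqinj hqadj hqoff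
    hlen
  obtain ⟨S₁, hS₁⟩ := exists_isLeft hH Pl hz
  have hr1 : IsRegion ρ (segEdges c i j ∪ segEdges q a b) S₁ := by
    have := IsLeft.isRegion ρ hz hS₁
    have e : {e | ∃ t : ℤ, e = s(z t, z (t + 1))} = segEdges c i j ∪ segEdges q a b := by
      ext e
      constructor
      · rintro ⟨t, rfl⟩
        rcases hzstep t with ⟨u, h1, h2, h3, h4⟩ | ⟨u, h1, h2, h3, h4⟩
        · left; exact ⟨u, h1, h2, by rw [h3, h4]⟩
        · right; exact ⟨u, h1, h2, by rw [h3, h4]; exact Sym2.eq_swap⟩
      · rintro (⟨u, h1, h2, rfl⟩ | ⟨u, h1, h2, rfl⟩)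
        · obtain ⟨t, h3, h4⟩ := hzc u h1 h2
          exact ⟨t, by rw [h3, h4]⟩
        · obtain ⟨t, h3, h4⟩ := hzq u h1 h2
          exact ⟨t, by rw [h3, h4]; exact Sym2.eq_swap⟩
    rwa [e] at this
  -- forward darts
  have hcf : ∀ (u : ℤ) (d : H.Dart), i ≤ u → u < j → d.fst = c u → d.snd = c (u + 1) →
      d ∈ S₁ ∧ d.symm ∉ S₁ := by
    intro u d h1 h2 ha hb
    obtain ⟨t, h3, h4⟩ := hzc u h1 h2
    exact hS₁.left t d (by rw [h3, ha]) (by rw [h4, hb])
  have hqf : ∀ (u : ℤ) (d : H.Dart), a ≤ u → u < b → d.fst = q u → d.snd = q (u + 1) →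
      d.symm ∈ S₁ ∧ d ∉ S₁ := by
    intro u d h1 h2 ha hb
    obtain ⟨t, h3, h4⟩ := hzq u h1 h2
    have := hS₁.left t d.symm (by rw [P2.symm_fst, h3, hb]) (by rw [P2.symm_snd, h4, ha])
    rwa [Dart.symm_symm] at this
  -- `S₁ ⊆ S`
  have hsub : S₁ ⊆ S := by
    set T : Set H.Dart := {d | d ∈ S₁ ∧ d ∉ S} with hT
    have hTface : IsFaceSet ρ T := by
      intro d
      simp only [hT, Set.mem_ofPred_eq, hr1.1 d, hS.face d]
    have key : ∀ d ∈ T, d.symm ∉ T → (∃ t, d.fst = c (t + 1) ∧ d.snd = c t) ∧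
        d.edge ∉ segEdges c i j := by
      rintro d ⟨hd1, hd2⟩ hds
      have hs1 : d.symm ∈ S₁ := by
        by_contra hcon
        have he : d.edge ∈ segEdges c i j ∪ segEdges q a b := by
          by_contra hcon'
          exact hcon (((hr1.2 d).2 hcon').1 hd1)
        rcases he with he | he
        · obtain ⟨u, h1, h2, hu⟩ := he
          rcases P2.edge_cases hu with ⟨ha, hb⟩ | ⟨ha, hb⟩
          · exact hd2 (hS.left u d ha hb).1
          · have := (hcf u d.symm h1 h2 (by rw [P2.symm_fst, hb]) (by rw [P2.symm_snd, ha])).2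
            rw [Dart.symm_symm] at this
            exact this hd1
        · exact hd2 (hqS' d he).1
      have hs2 : d.symm ∈ S := by
        by_contra hcon
        exact hds ⟨hs1, hcon⟩
      have hdc : d.edge ∈ curveEdges c := by
        by_contra hcon
        exact hd2 ((hcS' d hcon).2 hs2)
      refine ⟨?_, ?_⟩
      · obtain ⟨t, ht⟩ := hdc
        rcases P2.edge_cases ht with ⟨ha, hb⟩ | ⟨ha, hb⟩
        · exact absurd (hS.left t d ha hb).1 hd2
        · exact ⟨t, ha, hb⟩
      · intro he
        exact (hr1.2 d).1 ⟨fun _ => hs1, fun _ => hd1⟩ (Or.inl he)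
    set F : H.Dart → ℤ := fun d => if d ∈ T then 1 else 0 with hF
    have hFface : ∀ d, F (ρ.rot d.symm) = F d := by
      intro d
      simp only [hF]
      rw [if_congr (hTface d) rfl rfl]
    have hF0 : ∀ d : H.Dart, (d.edge ∉ curveEdges c ∨ d.edge ∈ segEdges c i j) →
        F d - F d.symm = 0 := by
      intro d hd
      have hsym : ∀ d' : H.Dart, (d'.edge ∉ curveEdges c ∨ d'.edge ∈ segEdges c i j) →
          d' ∈ T → d'.symm ∈ T := by
        intro d' hd' h1
        by_contra h2
        obtain ⟨⟨t, h3, h4⟩, h5⟩ := key d' h1 h2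
        rcases hd' with hd' | hd'
        · exact hd' ⟨t, by rw [P2.edge_eq h3 h4]; exact Sym2.eq_swap⟩
        · exact h5 hd'
      by_cases h1 : d ∈ T
      · have h2 := hsym d hd h1
        simp only [hF, if_pos h1, if_pos h2, sub_self]
      · have h2 : d.symm ∉ T := by
          intro h2
          have := hsym d.symm (by rwa [Dart.edge_symm]) h2
          rw [Dart.symm_symm] at this
          exact h1 this
        simp only [hF, if_neg h1, if_neg h2, sub_self]
    -- conservation along the curve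
    set D : ℤ → H.Dart := fun t => ⟨(c t, c (t + 1)), hc.adj t⟩ with hD
    set E : ℤ → ℤ := fun t => F (D t) - F (D t).symm with hE
    have hcons : ∀ t, E t = E (t - 1) := by
      intro t
      have hsum := faceSet_flow ρ hFface (c t)
      have hadj1 : H.Adj (c t) (c (t + 1)) := hc.adj t
      have hadj2 : H.Adj (c t) (c (t - 1)) := by
        have := hc.adj (t - 1)
        rw [sub_add_cancel] at this
        exact this.symm
      have hne : (⟨c (t + 1), hadj1⟩ : H.neighborSet (c t)) ≠ ⟨c (t - 1), hadj2⟩ := by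
        intro h
        have := congrArg Subtype.val h
        have h2 := hc.noback (t - 1)
        apply h2
        rw [show t - 1 + 2 = t + 1 by ring]
        exact this
      rw [Finset.sum_eq_add (⟨c (t + 1), hadj1⟩ : H.neighborSet (c t)) ⟨c (t - 1), hadj2⟩ hne
        ?_ (fun hx => absurd (Finset.mem_univ _) hx) (fun hx => absurd (Finset.mem_univ _) hx)]
        at hsum
      · have e1 : H.dartOfNeighborSet (c t) ⟨c (t + 1), hadj1⟩ = D t := rfl
        have e2 : (H.dartOfNeighborSet (c t) ⟨c (t - 1), hadj2⟩).symm = D (t - 1) := by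
          apply Dart.ext
          simp [hD, SimpleGraph.dartOfNeighborSet]
        have e3 : H.dartOfNeighborSet (c t) ⟨c (t - 1), hadj2⟩ = (D (t - 1)).symm := by
          rw [← e2, Dart.symm_symm]
        rw [e1, e2, e3] at hsum
        simp only [hE]
        linarith
      · rintro ⟨y, hy⟩ - ⟨hy1, hy2⟩
        apply hF0
        left
        rintro ⟨u, hu⟩
        rcases P2.edge_cases hu with ⟨ha, hb⟩ | ⟨ha, hb⟩
        · have := (hc.det t u ha).1
          exact hy1 (Subtype.ext (hb.trans this.symm))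
        · have := (hc.det t (u + 1) ha).2
          rw [add_sub_cancel_right] at this
          exact hy2 (Subtype.ext (hb.trans this.symm))
    have hEi : E i = 0 := hF0 _ (Or.inr ⟨i, le_rfl, hij, rfl⟩)
    have hE0 : ∀ t, E t = 0 := by
      intro t
      refine Int.inductionOn' (motive := fun t => E t = 0) t i hEi (fun k _ ih => ?_)
        (fun k _ ih => ?_)
      · rw [hcons, add_sub_cancel_right]; exact ih
      · rw [← hcons]; exact ih
    have hTb : ∀ d : H.Dart, d ∈ T → d.symm ∈ T := by
      intro d hd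
      by_contra hds
      obtain ⟨⟨t, h1, h2⟩, -⟩ := key d hd hds
      have hdD : d = (D t).symm := by
        apply Dart.ext
        exact Prod.ext h1 h2
      have := hE0 t
      simp only [hE] at this
      rw [← hdD, show D t = d.symm by rw [hdD, Dart.symm_symm]] at this
      simp only [hF, if_pos hd, if_neg hds] at this
      omega
    rcases faceSet_trivial hH ρ hTface (fun d => ⟨hTb d, fun hd => by
      have := hTb d.symm hd
      rwa [Dart.symm_symm] at this⟩) with hT0 | hT1
    · intro d hd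
      by_contra hcon
      have : d ∈ T := ⟨hd, hcon⟩
      rw [hT0] at this
      exact this
    · exfalso
      have h4 := (hS.left 0 ⟨(c 0, c (0 + 1)), hc.adj 0⟩ rfl rfl).1
      have h5 : (⟨(c 0, c (0 + 1)), hc.adj 0⟩ : H.Dart) ∈ T := by rw [hT1]; trivial
      exact h5.2 h4
  refine ⟨S₁, S \ S₁, hr1, ⟨?_, ?_⟩, ?_, ?_, ?_⟩
  · intro d
    rw [Set.mem_sdiff, Set.mem_sdiff, hS.face d, hr1.1 d]
  · -- the boundary of the rest
    intro d
    constructor
    · rintro h (⟨he, hn⟩ | he)
      · have hq : d.edge ∉ segEdges c i j ∪ segEdges q a b := by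
          rintro (hx | hx)
          · exact hn hx
          · exact hcS d he (hqS' d hx)
        have h1 := (hr1.2 d).2 hq
        have h2 : d ∉ S₁ := fun hx => hcS d he ⟨hsub hx, hsub (h1.1 hx)⟩
        have h3 : d.symm ∉ S₁ := fun hx => h2 (h1.2 hx)
        -- exactly one of the darts is in `S`
        obtain ⟨t, ht⟩ := he
        rcases P2.edge_cases ht with ⟨ha, hb⟩ | ⟨ha, hb⟩
        · have := hS.left t d ha hb
          exact this.2 (h.1 ⟨this.1, h2⟩).1
        · have := hS.left t d.symm (by rw [P2.symm_fst, hb]) (by rw [P2.symm_snd, ha])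
          rw [Dart.symm_symm] at this
          exact this.2 (h.2 ⟨this.1, h3⟩).1
      · obtain ⟨t, h1, h2, ht⟩ := he
        rcases P2.edge_cases ht with ⟨ha, hb⟩ | ⟨ha, hb⟩
        · have h3 := hqf t d h1 h2 ha hb
          have h4 := hqS t d h1 h2 ha hb
          exact (h.1 ⟨h4.1, h3.2⟩).2 h3.1
        · have h3 := hqf t d.symm h1 h2 (by rw [P2.symm_fst, hb]) (by rw [P2.symm_snd, ha])
          have h4 := hqS t d.symm h1 h2 (by rw [P2.symm_fst, hb]) (by rw [P2.symm_snd, ha])
          rw [Dart.symm_symm] at h3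
          exact (h.2 ⟨h4.1, h3.2⟩).2 h3.1
    · intro he
      by_cases h1 : d.edge ∈ segEdges c i j
      · -- neither dart is in the rest
        have h2 : ∀ d' : H.Dart, d'.edge ∈ segEdges c i j → d' ∉ S \ S₁ := by
          rintro d' ⟨t, h1, h2, ht⟩ ⟨h3, h4⟩
          rcases P2.edge_cases ht with ⟨ha, hb⟩ | ⟨ha, hb⟩
          · exact h4 (hcf t d' h1 h2 ha hb).1
          · have := (hS.left t d'.symm (by rw [P2.symm_fst, hb]) (by rw [P2.symm_snd, ha])).2
            rw [Dart.symm_symm] at this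
            exact this h3
        exact ⟨fun h => absurd h (h2 d h1), fun h => absurd h (h2 d.symm (by
          rwa [Dart.edge_symm]))⟩
      · have h2 : d.edge ∉ curveEdges c := fun hx => he (Or.inl ⟨hx, h1⟩)
        have h3 : d.edge ∉ segEdges q a b := fun hx => he (Or.inr hx)
        have h4 := hcS' d h2
        have h5 := (hr1.2 d).2 (by rintro (hx | hx); exacts [h1 hx, h3 hx])
        rw [Set.mem_sdiff, Set.mem_sdiff, h4, h5]
  · rw [Set.union_sdiff_cancel hsub]
  · exact Set.disjoint_sdiff_right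
  · intro t d h1 h2 ha hb
    have h3 := hqf t d h1 h2 ha hb
    exact ⟨⟨(hqS t d h1 h2 ha hb).1, h3.2⟩, h3.1⟩

/-- The theta lemma on the right side of the curve. -/
theorem theta_curve_right [∀ w, Fintype (H.neighborSet w)] (hH : H.Connected) (Pl : Plane H)
    {c : ℤ → W} (hc : IsCurve H c) {S : Set H.Dart} (hS : IsLeft Pl.toRotationSystem c S)
    {i j a b : ℤ} (hij : i < j) (hinj : Set.InjOn c (Set.Icc i j)) (hab : a < b)
    (q : ℤ → W) (hqa : q a = c i) (hqb : q b = c j) (hqinj : Set.InjOn q (Set.Icc a b))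
    (hqadj : ∀ t, a ≤ t → t < b → H.Adj (q t) (q (t + 1)))
    (hqoff : ∀ t, a < t → t < b → ∀ s, q t ≠ c s)
    (hqS : ∀ (t : ℤ) (d : H.Dart), a ≤ t → t < b → d.fst = q t → d.snd = q (t + 1) →
      d ∉ S ∧ d.symm ∉ S) :
    ∃ S₁ S₂ : Set H.Dart,
      IsRegion Pl.toRotationSystem (segEdges c i j ∪ segEdges q a b) S₁ ∧
      IsRegion Pl.toRotationSystem ((curveEdges c \ segEdges c i j) ∪ segEdges q a b) S₂ ∧
      Sᶜ = S₁ ∪ S₂ ∧ Disjoint S₁ S₂ ∧
      ∀ (t : ℤ) (d : H.Dart), a ≤ t → t < b → d.fst = q t → d.snd = q (t + 1) →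
        d ∈ S₁ ∧ d.symm ∈ S₂ := by
  have hS' : IsLeft Pl.mirror.toRotationSystem c {d | d.symm ∉ S} :=
    isLeft_mirror Pl.toRotationSystem hS
  obtain ⟨S₁, S₂, h1, h2, h3, h4, h5⟩ := theta_curve hH Pl.mirror hc hS' hij hinj hab q hqa hqb
    hqinj hqadj hqoff (fun t d ht1 ht2 ha hb => by
      have := hqS t d ht1 ht2 ha hb
      exact ⟨this.2, by rw [Set.mem_ofPred_eq, Dart.symm_symm]; exact this.1⟩)
  have hm : Pl.mirror.toRotationSystem.mirror = Pl.toRotationSystem :=
    mirror_mirror Pl.toRotationSystem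
  refine ⟨{d | d.symm ∈ S₁}, {d | d.symm ∈ S₂}, ?_, ?_, ?_, ?_, ?_⟩
  · have := isRegion_mirror _ h1
    rwa [hm] at this
  · have := isRegion_mirror _ h2
    rwa [hm] at this
  · ext d
    have := Set.ext_iff.1 h3 d.symm
    rw [Set.mem_ofPred_eq, Dart.symm_symm] at this
    exact this
  · rw [Set.disjoint_left] at h4 ⊢
    intro d ha hb
    exact h4 ha hb
  · intro t d ht1 ht2 ha hb
    have := h5 t d ht1 ht2 ha hb
    exact ⟨this.2, by rw [Set.mem_ofPred_eq, Dart.symm_symm]; exact this.1⟩


end Pool.Agent.MP_f5837d_co
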