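import Pool.Agent.Lib.MP_f5837d_co.RC
import Pool.Agent.Lib.MP_f5837d_co.P2

/-!
# Calibrated lines and the strip: definitions
-/

set_option autoImplicit false

namespace Pool.Agent.MP_f5837d_co

open SimpleGraph

variable {V W : Type*} {G : SimpleGraph V} {H : SimpleGraph W} {π : W → V}

/-- A calibrated line: a bi-infinite path along which `u` is the index. -/
structure Calib (H : SimpleGraph W) (u : W → ℤ) (P : ℤ → W) : Prop where
  adj : ∀ t, H.Adj (P t) (P (t + 1))
  lev : ∀ t, u (P t) = t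

section

variable [∀ w, Fintype (H.neighborSet w)]

open Classical in
/-- The left side of a curve. -/
noncomputable def lft (Pl : Plane H) (P : ℤ → W) : Set H.Dart :=
  if h : ∃ S, IsLeft Pl.toRotationSystem P S then h.choose else ∅

/-- The vertices on the left of the curve. -/
def Up (Pl : Plane H) (P : ℤ → W) : Set W := Ins (lft Pl P)

/-- The vertices on the right of the curve. -/
def Down (Pl : Plane H) (P : ℤ → W) : Set W := Ins (lft Pl P)ᶜ

/-- The left sides of `P` and `Q` overlap, and so do the right sides. -/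
structure Coherent (Pl : Plane H) (P Q : ℤ → W) : Prop where
  inter : (lft Pl P ∩ lft Pl Q).Nonempty
  union : lft Pl P ∪ lft Pl Q ≠ Set.univ

/-- `Q` is weakly on the left of (above) `P`. -/
def Le (Pl : Plane H) (P Q : ℤ → W) : Prop := ∀ t, Q t = P t ∨ Q t ∈ Up Pl P

end

/-- The data of a plane `H` that covers `G`, with a translation `A` and a potential `u`. -/
structure SCtx (G : SimpleGraph V) (H : SimpleGraph W) [∀ w, Fintype (H.neighborSet w)]
    (π : W → V) where
  Pl : Plane H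
  A : H ≃g H
  ℓ : ℤ
  u : W → ℤ
  hH : H.Connected
  hG : G.Preconnected
  finV : Finite V
  cover : IsCover G H π
  hA : ∀ w, π (A w) = π w
  rotA : RotComm Pl.toRotationSystem A
  ℓpos : 0 < ℓ
  lip : ∀ w w', H.Adj w w' → |u w - u w'| ≤ 1
  uA : ∀ w, u (A w) = u w + ℓ
  coh : ∀ N : ℤ, 0 < N → ∀ P Q : ℤ → W, Calib H u P → Calib H u Q →
    (∀ t, P (t + N * ℓ) = (A ^ N) (P t)) → (∀ t, Q (t + N * ℓ) = (A ^ N) (Q t)) →
    Coherent Pl P Q

namespace SCtx

variable [∀ w, Fintype (H.neighborSet w)] (C : SCtx G H π)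

/-- `P` is a calibrated line in `R` that is periodic under `A ^ N`. -/
structure Line (N : ℤ) (R : Set W) (P : ℤ → W) : Prop where
  cal : Calib H C.u P
  per : ∀ t, P (t + N * C.ℓ) = (C.A ^ N) (P t)
  mem : ∀ t, P t ∈ R

/-- `R` is invariant under the translation. -/
def Inv (R : Set W) : Prop := ∀ w, C.A w ∈ R ↔ w ∈ R

/-- `R` has finitely many vertices modulo the translation. -/
def FinMod (R : Set W) : Prop := {w | w ∈ R ∧ 0 ≤ C.u w ∧ C.u w < C.ℓ}.Finite

/-- The number of vertices of `R` modulo the translation. -/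
noncomputable def size (R : Set W) : ℕ := {w | w ∈ R ∧ 0 ≤ C.u w ∧ C.u w < C.ℓ}.ncard

/-- There is a `u`-increasing path in `R` from a vertex of `P` to a vertex of `Q`. -/
def RL (R : Set W) (P Q : ℤ → W) : Prop :=
  ∃ s t, Relation.ReflTransGen (Arc H R C.u) (P s) (Q t)

/-- The strip state between the `A`-periodic lines `L` and `U`. -/
structure XStrip (R : Set W) (L U : ℤ → W) (cL cU : W → ℤ) : Prop where
  lineL : C.Line 1 Set.univ L
  lineU : C.Line 1 Set.univ U
  above : ∀ t, U t ∈ Up C.Pl L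
  below : ∀ t, L t ∈ Down C.Pl U
  eqR : R = Up C.Pl L ∩ Down C.Pl U
  fin : C.FinMod R
  nL : NoDet H R L Set.univ C.u
  nU : NoDet H R U Set.univ C.u
  pL : PairFun H R L Set.univ C.u cL
  pU : PairFun H R U Set.univ C.u cU

/-- The robber is in a strip of size less than `n`. -/
def StripPos (n : ℕ) (r : W) (c : Fin 7 → V) : Prop :=
  ∃ (R : Set W) (L U : ℤ → W) (cL cU : W → ℤ), C.XStrip R L U cL cU ∧ C.size R < n ∧
    Locked R (appF (pair π L cL) (pair π U cU)) r c

end SCtx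

end Pool.Agent.MP_f5837d_co

/-!
# Task LA: basic facts on the sides of calibrated lines
-/


namespace Pool.Agent.MP_f5837d_co

open SimpleGraph

variable {V W : Type*} {G : SimpleGraph V} {H : SimpleGraph W} {π : W → V}

theorem Calib.isCurve {u : W → ℤ} {P : ℤ → W} (hP : Calib H u P) : IsCurve H P where
  adj := hP.adj
  det := by
    intro s t h
    have : s = t := by
      have := congrArg u h
      rwa [hP.lev, hP.lev] at this
    subst this
    exact ⟨rfl, rfl⟩
  noback := by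
    intro t h
    have := congrArg u h
    rw [hP.lev, hP.lev] at this
    omega

namespace LA

/-- the image of a dart under an automorphism -/
def mapDart (φ : H ≃g H) (d : H.Dart) : H.Dart :=
  ⟨(φ d.fst, φ d.snd), φ.map_adj_iff.2 d.adj⟩

theorem mapDart_fst (φ : H ≃g H) (d : H.Dart) : (mapDart φ d).fst = φ d.fst := rfl

theorem mapDart_snd (φ : H ≃g H) (d : H.Dart) : (mapDart φ d).snd = φ d.snd := rfl

theorem mapDart_symm (φ : H ≃g H) (d : H.Dart) : (mapDart φ d).symm = mapDart φ d.symm := rfl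

theorem dart_ext {d d' : H.Dart} (h1 : d.fst = d'.fst) (h2 : d.snd = d'.snd) : d = d' := by
  apply Dart.ext
  exact Prod.ext h1 h2

theorem mapDart_left (φ : H ≃g H) (d : H.Dart) : mapDart φ.symm (mapDart φ d) = d := by
  apply dart_ext
  · exact φ.symm_apply_apply d.fst
  · exact φ.symm_apply_apply d.snd

theorem mapDart_right (φ : H ≃g H) (d : H.Dart) : mapDart φ (mapDart φ.symm d) = d := by
  apply dart_ext
  · exact φ.apply_symm_apply d.fst
  · exact φ.apply_symm_apply d.snd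

theorem rot_mapDart {ρ : RotationSystem H} {φ : H ≃g H} (h : RotComm ρ φ) (d : H.Dart) :
    ρ.rot (mapDart φ d) = mapDart φ (ρ.rot d) := by
  apply dart_ext
  · rw [ρ.rot_fst]
    change φ d.fst = φ (ρ.rot d).fst
    rw [ρ.rot_fst]
  · exact h d (mapDart φ d) rfl rfl

theorem rot_mapDart_symm {ρ : RotationSystem H} {φ : H ≃g H} (h : RotComm ρ φ) (d : H.Dart) :
    ρ.rot (mapDart φ.symm d) = mapDart φ.symm (ρ.rot d) := by
  have h1 := rot_mapDart h (mapDart φ.symm d)
  rw [mapDart_right] at h1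
  rw [h1, mapDart_left]

theorem rotComm_of_map {ρ : RotationSystem H} {φ : H ≃g H}
    (h : ∀ d, ρ.rot (mapDart φ d) = mapDart φ (ρ.rot d)) : RotComm ρ φ := by
  intro d d' h1 h2
  have : d' = mapDart φ d := dart_ext h1 h2
  rw [this, h]
  rfl

theorem rotComm_symm {ρ : RotationSystem H} {φ : H ≃g H} (h : RotComm ρ φ) :
    RotComm ρ φ.symm := rotComm_of_map (rot_mapDart_symm h)

end LA

theorem rotComm_zpow_aux (ρ : RotationSystem H) {φ : H ≃g H} (h : RotComm ρ φ) (n : ℤ) :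
    RotComm ρ (φ ^ n) := by
  have hmul : ∀ a b : H ≃g H, RotComm ρ a → RotComm ρ b → RotComm ρ (a * b) := by
    intro a b ha hb
    apply LA.rotComm_of_map
    intro d
    have h1 : ∀ e : H.Dart, LA.mapDart (a * b) e = LA.mapDart a (LA.mapDart b e) := fun e => rfl
    rw [h1, h1, LA.rot_mapDart ha, LA.rot_mapDart hb]
  have hinv : RotComm ρ φ⁻¹ := LA.rotComm_symm h
  induction n using Int.induction_on with
  | zero =>
    intro d d' h1 h2
    rw [zpow_zero] at *
    have h3 : d' = d := LA.dart_ext h1 h2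
    rw [h3]
    rfl
  | succ i ih =>
    rw [zpow_add_one]
    exact hmul _ _ ih h
  | pred i ih =>
    rw [zpow_sub_one]
    exact hmul _ _ ih hinv

variable [∀ w, Fintype (H.neighborSet w)]

theorem isLeft_lft (hH : H.Connected) (Pl : Plane H) {P : ℤ → W} (hP : IsCurve H P) :
    IsLeft Pl.toRotationSystem P (lft Pl P) := by
  have h := exists_isLeft hH Pl hP
  unfold lft
  rw [dif_pos h]
  exact h.choose_spec

theorem lft_eq (hH : H.Connected) (Pl : Plane H) {P : ℤ → W} (hP : IsCurve H P)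
    {S : Set H.Dart} (hS : IsLeft Pl.toRotationSystem P S) : S = lft Pl P :=
  isLeft_unique hH _ hP hS (isLeft_lft hH Pl hP)

namespace LA

theorem isRegion_compl {ρ : RotationSystem H} {C : Set (Sym2 W)} {S : Set H.Dart}
    (hS : IsRegion ρ C S) : IsRegion ρ C Sᶜ := by
  refine ⟨?_, ?_⟩
  · intro d
    simp only [Set.mem_compl_iff]
    rw [hS.1 d]
  · intro d
    have := hS.2 d
    simp only [Set.mem_compl_iff]
    tauto

theorem region (hH : H.Connected) (Pl : Plane H) {P : ℤ → W} (hP : IsCurve H P) :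
    IsRegion Pl.toRotationSystem {e | ∃ t : ℤ, e = s(P t, P (t + 1))} (lft Pl P) :=
  IsLeft.isRegion _ hP (isLeft_lft hH Pl hP)

theorem off_edge {P : ℤ → W} {w : W} (hw : ¬ ∃ t, w = P t) (y : W) (_ : H.Adj w y) :
    s(w, y) ∉ {e | ∃ t : ℤ, e = s(P t, P (t + 1))} := by
  rintro ⟨t, ht⟩
  rw [Sym2.eq_iff] at ht
  rcases ht with ⟨h1, _⟩ | ⟨h1, _⟩
  · exact hw ⟨t, h1⟩
  · exact hw ⟨t + 1, h1⟩

theorem exists_dart (hH : H.Connected) {P : ℤ → W} (hP : IsCurve H P) (w : W) :
    ∃ d : H.Dart, d.fst = w := by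
  have hne : ∃ v, v ≠ w := by
    by_contra hcon
    push Not at hcon
    have h1 := hP.adj 0
    rw [hcon (P 0), hcon (P (0 + 1))] at h1
    exact H.irrefl h1
  obtain ⟨v, hv⟩ := hne
  obtain ⟨p⟩ := hH.preconnected w v
  cases p with
  | nil => exact absurd rfl hv
  | @cons _ b _ h p => exact ⟨P1.dart h, rfl⟩

end LA

/-- Every vertex is above, below or on the curve. -/
theorem up_or_down (hH : H.Connected) (Pl : Plane H) {P : ℤ → W} (hP : IsCurve H P) (w : W) :
    w ∈ Up Pl P ∨ w ∈ Down Pl P ∨ ∃ t, w = P t := by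
  by_cases hw : ∃ t, w = P t
  · exact Or.inr (Or.inr hw)
  · obtain ⟨d, hd⟩ := LA.exists_dart hH hP w
    have hR := LA.region hH Pl hP
    have hc : ∀ d' : H.Dart, d'.fst = w → (d ∈ lft Pl P ↔ d' ∈ lft Pl P) := fun d' hd' =>
      region_const _ hR (LA.off_edge hw) hd hd'
    by_cases h1 : d ∈ lft Pl P
    · left
      intro d' hd'
      exact (hc d' hd').1 h1
    · right; left
      intro d' hd' h2
      exact h1 ((hc d' hd').2 h2)

theorem not_up_and_down (hH : H.Connected) (Pl : Plane H) {P : ℤ → W} (hP : IsCurve H P) {w : W}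
    (h : w ∈ Up Pl P) : w ∉ Down Pl P := by
  intro h'
  obtain ⟨d, hd⟩ := LA.exists_dart hH hP w
  exact h' d hd (h d hd)

theorem line_not_up (hH : H.Connected) (Pl : Plane H) {P : ℤ → W} (hP : IsCurve H P) (t : ℤ) :
    P t ∉ Up Pl P := by
  intro h
  have h1 := hP.adj (t - 1)
  have h2 : t - 1 + 1 = t := by ring
  have a := (isLeft_lft hH Pl hP).left (t - 1) (P1.dart h1) rfl rfl
  refine a.2 (h _ ?_)
  change P (t - 1 + 1) = P t
  rw [h2]

theorem line_not_down (hH : H.Connected) (Pl : Plane H) {P : ℤ → W} (hP : IsCurve H P) (t : ℤ) :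
    P t ∉ Down Pl P := by
  intro h
  have a := (isLeft_lft hH Pl hP).left t (P1.dart (hP.adj t)) rfl rfl
  exact h _ rfl a.1

theorem up_adj (hH : H.Connected) (Pl : Plane H) {P : ℤ → W} (hP : IsCurve H P) {x y : W}
    (hxy : H.Adj x y) (hx : x ∈ Up Pl P) : y ∈ Up Pl P ∨ ∃ t, y = P t := by
  by_cases hy : ∃ t, y = P t
  · exact Or.inr hy
  · exact Or.inl (ins_of_adj _ (LA.region hH Pl hP) hxy hx (LA.off_edge hy))

theorem down_adj (hH : H.Connected) (Pl : Plane H) {P : ℤ → W} (hP : IsCurve H P) {x y : W}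
    (hxy : H.Adj x y) (hx : x ∈ Down Pl P) : y ∈ Down Pl P ∨ ∃ t, y = P t := by
  by_cases hy : ∃ t, y = P t
  · exact Or.inr hy
  · exact Or.inl (ins_of_adj _ (LA.isRegion_compl (LA.region hH Pl hP)) hxy hx (LA.off_edge hy))

/-- A calibrated line is determined by its left side. -/
theorem lft_inj (hH : H.Connected) (Pl : Plane H) {u : W → ℤ} {P Q : ℤ → W} (hP : Calib H u P)
    (hQ : Calib H u Q) (h : lft Pl P = lft Pl Q) : P = Q := by
  funext t
  have a := (isLeft_lft hH Pl hP.isCurve).left t (P1.dart (hP.adj t)) rfl rfl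
  have b := (isLeft_lft hH Pl hQ.isCurve).off (P1.dart (hP.adj t))
  rw [h] at a
  by_contra hne
  have h1 : ∀ s : ℤ, ¬ ((P1.dart (hP.adj t)).fst = Q s ∧ (P1.dart (hP.adj t)).snd = Q (s + 1)) ∧
      ¬ ((P1.dart (hP.adj t)).fst = Q (s + 1) ∧ (P1.dart (hP.adj t)).snd = Q s) := by
    intro s
    constructor
    · rintro ⟨h1, _⟩
      have h1' : P t = Q s := h1
      have h2 := congrArg u h1'
      rw [hP.lev, hQ.lev] at h2
      rw [← h2] at h1'
      exact hne h1'
    · rintro ⟨h1, h2⟩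
      have h1' : P t = Q (s + 1) := h1
      have h2' : P (t + 1) = Q s := h2
      have h3 := congrArg u h1'
      have h4 := congrArg u h2'
      rw [hP.lev, hQ.lev] at h3 h4
      omega
  exact a.2 ((b h1).1 a.1)

/-! ### Mirror -/

theorem lft_mirror (hH : H.Connected) (Pl : Plane H) {P : ℤ → W} (hP : IsCurve H P) :
    lft Pl.mirror P = {d | d.symm ∉ lft Pl P} :=
  (lft_eq hH Pl.mirror hP (isLeft_mirror _ (isLeft_lft hH Pl hP))).symm

theorem up_mirror (hH : H.Connected) (Pl : Plane H) {P : ℤ → W} (hP : IsCurve H P) :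
    Up Pl.mirror P = Down Pl P := by
  have hF := (isLeft_lft hH Pl hP).face
  ext w
  unfold Up Down
  rw [lft_mirror hH Pl hP]
  constructor
  · intro h d hd hd'
    have h1 : (Pl.rot⁻¹ d).fst = w := by
      have := Pl.rot_fst (Pl.rot⁻¹ d)
      rw [P1.app_inv] at this
      rw [← this, hd]
    have h2 : (Pl.rot⁻¹ d).symm ∉ lft Pl P := h _ h1
    have h3 := P1.rot_mem hF (Pl.rot⁻¹ d)
    rw [P1.app_inv] at h3
    exact h2 (h3.1 hd')
  · intro h d hd hd'
    have h3 := P1.rot_mem hF d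
    have h4 : (Pl.rot d).fst = w := by rw [Pl.rot_fst, hd]
    exact h _ h4 (h3.2 hd')

theorem down_mirror (hH : H.Connected) (Pl : Plane H) {P : ℤ → W} (hP : IsCurve H P) :
    Down Pl.mirror P = Up Pl P := by
  have hF := (isLeft_lft hH Pl hP).face
  ext w
  unfold Up Down
  rw [lft_mirror hH Pl hP]
  constructor
  · intro h d hd
    have h1 : (Pl.rot⁻¹ d).fst = w := by
      have := Pl.rot_fst (Pl.rot⁻¹ d)
      rw [P1.app_inv] at this
      rw [← this, hd]
    have h2 : (Pl.rot⁻¹ d).symm ∈ lft Pl P := not_not.1 (h _ h1)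
    have h3 := P1.rot_mem hF (Pl.rot⁻¹ d)
    rw [P1.app_inv] at h3
    exact h3.2 h2
  · intro h d hd
    have h3 := P1.rot_mem hF d
    have h4 : (Pl.rot d).fst = w := by rw [Pl.rot_fst, hd]
    exact not_not.2 (h3.1 (h _ h4))

theorem coherent_mirror (hH : H.Connected) (Pl : Plane H) {P Q : ℤ → W} (hP : IsCurve H P)
    (hQ : IsCurve H Q) (h : Coherent Pl P Q) : Coherent Pl.mirror P Q := by
  constructor
  · rw [lft_mirror hH Pl hP, lft_mirror hH Pl hQ]
    have h1 := h.union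
    rw [Set.ne_univ_iff_exists_notMem] at h1
    obtain ⟨d, hd⟩ := h1
    refine ⟨d.symm, ?_, ?_⟩
    · change d.symm.symm ∉ _
      rw [Dart.symm_symm]
      exact fun h2 => hd (Or.inl h2)
    · change d.symm.symm ∉ _
      rw [Dart.symm_symm]
      exact fun h2 => hd (Or.inr h2)
  · rw [lft_mirror hH Pl hP, lft_mirror hH Pl hQ]
    obtain ⟨d, hd1, hd2⟩ := h.inter
    rw [Set.ne_univ_iff_exists_notMem]
    refine ⟨d.symm, ?_⟩
    rintro (h1 | h1)
    · change d.symm.symm ∉ _ at h1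
      rw [Dart.symm_symm] at h1
      exact h1 hd1
    · change d.symm.symm ∉ _ at h1
      rw [Dart.symm_symm] at h1
      exact h1 hd2

theorem rotComm_mirror (ρ : RotationSystem H) {φ : H ≃g H} (h : RotComm ρ φ) :
    RotComm ρ.mirror φ := by
  apply LA.rotComm_of_map
  intro d
  change ρ.rot⁻¹ (LA.mapDart φ d) = LA.mapDart φ (ρ.rot⁻¹ d)
  have h1 := LA.rot_mapDart h (ρ.rot⁻¹ d)
  rw [P1.app_inv] at h1
  rw [← h1, P1.inv_app]

/-! ### Automorphisms -/

namespace LA

theorem isCurve_map (φ : H ≃g H) {P : ℤ → W} (hP : IsCurve H P) (k : ℤ) :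
    IsCurve H (fun t => φ (P (t - k))) where
  adj := by
    intro t
    have h1 : t + 1 - k = t - k + 1 := by ring
    change H.Adj (φ (P (t - k))) (φ (P (t + 1 - k)))
    rw [h1]
    exact φ.map_adj_iff.2 (hP.adj _)
  det := by
    intro s t h
    have h1 : P (s - k) = P (t - k) := φ.injective h
    have h2 := hP.det _ _ h1
    have e1 : s + 1 - k = s - k + 1 := by ring
    have e2 : t + 1 - k = t - k + 1 := by ring
    have e3 : s - 1 - k = s - k - 1 := by ring
    have e4 : t - 1 - k = t - k - 1 := by ring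
    change φ (P (s + 1 - k)) = φ (P (t + 1 - k)) ∧ φ (P (s - 1 - k)) = φ (P (t - 1 - k))
    rw [e1, e2, e3, e4, h2.1, h2.2]
    exact ⟨rfl, rfl⟩
  noback := by
    intro t h
    have h1 : P (t + 2 - k) = P (t - k) := φ.injective h
    have e1 : t + 2 - k = t - k + 2 := by ring
    rw [e1] at h1
    exact hP.noback _ h1

theorem lft_map_eq (hH : H.Connected) (Pl : Plane H) {φ : H ≃g H}
    (hφ : RotComm Pl.toRotationSystem φ) {P : ℤ → W} (hP : IsCurve H P) (k : ℤ) :
    lft Pl (fun t => φ (P (t - k))) = {e | mapDart φ.symm e ∈ lft Pl P} := by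
  have hL := isLeft_lft hH Pl hP
  refine (lft_eq hH Pl (isCurve_map φ hP k) ?_).symm
  refine ⟨?_, ?_, ?_⟩
  · intro e
    change mapDart φ.symm (Pl.rot e.symm) ∈ lft Pl P ↔ mapDart φ.symm e ∈ lft Pl P
    rw [← rot_mapDart_symm hφ, ← mapDart_symm]
    exact hL.face _
  · intro t d h1 h2
    have h1' : d.fst = φ (P (t - k)) := h1
    have h2' : d.snd = φ (P (t + 1 - k)) := h2
    have e1 : t + 1 - k = t - k + 1 := by ring
    rw [e1] at h2'
    have a := hL.left (t - k) (mapDart φ.symm d)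
      (by rw [mapDart_fst, h1']; exact φ.symm_apply_apply _)
      (by rw [mapDart_snd, h2']; exact φ.symm_apply_apply _)
    exact a
  · intro d hd
    refine hL.off (mapDart φ.symm d) ?_
    intro t
    have h3 := hd (t + k)
    have e1 : t + k - k = t := by ring
    have e2 : t + k + 1 - k = t + 1 := by ring
    rw [e1, e2] at h3
    constructor
    · rintro ⟨h1, h2⟩
      refine h3.1 ⟨?_, ?_⟩
      · rw [← h1]; exact (φ.apply_symm_apply _).symm
      · rw [← h2]; exact (φ.apply_symm_apply _).symm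
    · rintro ⟨h1, h2⟩
      refine h3.2 ⟨?_, ?_⟩
      · rw [← h1]; exact (φ.apply_symm_apply _).symm
      · rw [← h2]; exact (φ.apply_symm_apply _).symm

end LA

/-- `lft` of the image of a curve under an automorphism (with an index shift). -/
theorem lft_map (hH : H.Connected) (Pl : Plane H) {φ : H ≃g H}
    (hφ : RotComm Pl.toRotationSystem φ) {P : ℤ → W} (hP : IsCurve H P) (k : ℤ) {d d' : H.Dart}
    (h1 : d'.fst = φ d.fst) (h2 : d'.snd = φ d.snd) :
    d' ∈ lft Pl (fun t => φ (P (t - k))) ↔ d ∈ lft Pl P := by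
  rw [LA.lft_map_eq hH Pl hφ hP k]
  have h3 : d' = LA.mapDart φ d := LA.dart_ext h1 h2
  rw [h3]
  change LA.mapDart φ.symm (LA.mapDart φ d) ∈ lft Pl P ↔ _
  rw [LA.mapDart_left]

theorem up_map (hH : H.Connected) (Pl : Plane H) {φ : H ≃g H}
    (hφ : RotComm Pl.toRotationSystem φ) {P : ℤ → W} (hP : IsCurve H P) (k : ℤ) (w : W) :
    φ w ∈ Up Pl (fun t => φ (P (t - k))) ↔ w ∈ Up Pl P := by
  constructor
  · intro h d hd
    exact (lft_map hH Pl hφ hP k (d := d) (d' := LA.mapDart φ d) rfl rfl).1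
      (h _ (by rw [LA.mapDart_fst, hd]))
  · intro h d' hd'
    have e : d' = LA.mapDart φ (LA.mapDart φ.symm d') := (LA.mapDart_right φ d').symm
    rw [e]
    refine (lft_map hH Pl hφ hP k (d := LA.mapDart φ.symm d') rfl rfl).2 (h _ ?_)
    rw [LA.mapDart_fst, hd']
    exact φ.symm_apply_apply w

theorem down_map (hH : H.Connected) (Pl : Plane H) {φ : H ≃g H}
    (hφ : RotComm Pl.toRotationSystem φ) {P : ℤ → W} (hP : IsCurve H P) (k : ℤ) (w : W) :
    φ w ∈ Down Pl (fun t => φ (P (t - k))) ↔ w ∈ Down Pl P := by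
  constructor
  · intro h d hd hd'
    exact h (LA.mapDart φ d) (by rw [LA.mapDart_fst, hd])
      ((lft_map hH Pl hφ hP k (d := d) (d' := LA.mapDart φ d) rfl rfl).2 hd')
  · intro h d' hd' h1
    have e : d' = LA.mapDart φ (LA.mapDart φ.symm d') := (LA.mapDart_right φ d').symm
    rw [e] at h1
    refine h (LA.mapDart φ.symm d') ?_
      ((lft_map hH Pl hφ hP k (d := LA.mapDart φ.symm d') rfl rfl).1 h1)
    rw [LA.mapDart_fst, hd']
    exact φ.symm_apply_apply w

theorem rotComm_zpow (ρ : RotationSystem H) {φ : H ≃g H} (h : RotComm ρ φ) (n : ℤ) :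
    RotComm ρ (φ ^ n) := rotComm_zpow_aux ρ h n

/-! ### Localisation -/

namespace LA

/-- The two sides agree at a vertex where the two lines agree locally. -/
theorem local_at (hH : H.Connected) (Pl : Plane H) {u : W → ℤ} {P Q : ℤ → W}
    (hP : Calib H u P) (hQ : Calib H u Q) {s : ℤ} (h0 : P s = Q s)
    (h1 : P (s + 1) = Q (s + 1)) (h2 : P (s - 1) = Q (s - 1)) {d : H.Dart}
    (hd : d.fst = P s) : d ∈ lft Pl P ↔ d ∈ lft Pl Q := by
  have hLP := isLeft_lft hH Pl hP.isCurve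
  have hLQ := isLeft_lft hH Pl hQ.isCurve
  have hout : ∀ e : H.Dart, e.fst = P s → e.snd = P (s + 1) →
      (e ∈ lft Pl P ∧ e.symm ∉ lft Pl P) ∧ (e ∈ lft Pl Q ∧ e.symm ∉ lft Pl Q) := by
    intro e he1 he2
    exact ⟨hLP.left s e he1 he2, hLQ.left s e (by rw [he1, h0]) (by rw [he2, h1])⟩
  have hback : ∀ e : H.Dart, e.fst = P s → e.snd = P (s - 1) →
      (e ∉ lft Pl P ∧ e.symm ∈ lft Pl P) ∧ (e ∉ lft Pl Q ∧ e.symm ∈ lft Pl Q) := by
    intro e he1 he2
    have e1 : s - 1 + 1 = s := by ring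
    have a := hLP.left (s - 1) e.symm he2 (by rw [e1]; exact he1)
    have b := hLQ.left (s - 1) e.symm (by rw [← h2]; exact he2) (by rw [e1, ← h0]; exact he1)
    rw [Dart.symm_symm] at a b
    exact ⟨⟨a.2, a.1⟩, ⟨b.2, b.1⟩⟩
  have hoff : ∀ (R : ℤ → W), Calib H u R → R s = P s → R (s + 1) = P (s + 1) →
      R (s - 1) = P (s - 1) → ∀ e : H.Dart, e.fst = P s → e.snd ≠ P (s + 1) →
      e.snd ≠ P (s - 1) → (e ∈ lft Pl R ↔ e.symm ∈ lft Pl R) := by
    intro R hR hR0 hR1 hR2 e he1 he2 he3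
    refine (isLeft_lft hH Pl hR.isCurve).off e ?_
    intro t
    constructor
    · rintro ⟨h3, h4⟩
      have h5 : R t = R s := by rw [← h3, he1, hR0]
      have h6 := congrArg u h5
      rw [hR.lev, hR.lev] at h6
      rw [h6] at h4
      exact he2 (h4.trans hR1)
    · rintro ⟨h3, h4⟩
      have h5 : R (t + 1) = R s := by rw [← h3, he1, hR0]
      have h6 := congrArg u h5
      rw [hR.lev, hR.lev] at h6
      have h7 : t = s - 1 := by omega
      rw [h7] at h4
      exact he3 (h4.trans hR2)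
  have key : ∀ n : ℕ, ∀ e : H.Dart, e = (Pl.rot ^ n) (P1.dart (hP.adj s)) →
      (e ∈ lft Pl P ↔ e ∈ lft Pl Q) := by
    intro n
    induction n with
    | zero =>
      intro e he
      have he' : e = P1.dart (hP.adj s) := by rw [he]; rfl
      rw [he']
      have := hout (P1.dart (hP.adj s)) rfl rfl
      exact ⟨fun _ => this.2.1, fun _ => this.1.1⟩
    | succ n ih =>
      intro e he
      set e' := (Pl.rot ^ n) (P1.dart (hP.adj s)) with he'
      have h3 : e = Pl.rot e' := by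
        rw [he, he', pow_succ', Equiv.Perm.mul_apply]
      have hfst : e'.fst = P s := by
        rw [he']
        clear_value e'
        clear he' h3 he ih
        induction n with
        | zero => rfl
        | succ n ih' =>
          rw [pow_succ', Equiv.Perm.mul_apply, Pl.rot_fst]
          exact ih'
      rw [h3, P1.rot_mem hLP.face, P1.rot_mem hLQ.face]
      by_cases c1 : e'.snd = P (s + 1)
      · have := hout e' hfst c1
        exact ⟨fun h => absurd h this.1.2, fun h => absurd h this.2.2⟩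
      · by_cases c2 : e'.snd = P (s - 1)
        · have := hback e' hfst c2
          exact ⟨fun _ => this.2.2, fun _ => this.1.2⟩
        · rw [← hoff P hP rfl rfl rfl e' hfst c1 c2,
            ← hoff Q hQ h0.symm h1.symm h2.symm e' hfst c1 c2]
          exact ih e' rfl
  obtain ⟨n, hn⟩ := Pl.rot_trans (P1.dart (hP.adj s)) d hd.symm
  exact key n d hn.symm

theorem up_iff_dart (hH : H.Connected) (Pl : Plane H) {P : ℤ → W} (hP : IsCurve H P) {v x : W}
    (h : H.Adj v x) (hx : ¬ ∃ t, x = P t) : x ∈ Up Pl P ↔ P1.dart h ∈ lft Pl P := by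
  have hR := region hH Pl hP
  have h1 : P1.dart h ∈ lft Pl P ↔ (P1.dart h).symm ∈ lft Pl P := by
    refine (hR.2 (P1.dart h)).2 ?_
    have : (P1.dart h).edge = s(x, v) := Sym2.eq_swap
    rw [this]
    exact off_edge hx v h.symm
  rw [h1]
  constructor
  · intro h2
    exact h2 _ rfl
  · intro h2 d hd
    exact (region_const _ hR (off_edge hx) (d := (P1.dart h).symm) (d' := d) rfl hd).1 h2

theorem up_iff_up (hH : H.Connected) (Pl : Plane H) {P : ℤ → W} (hP : IsCurve H P) {x y : W}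
    (h : H.Adj x y) (hx : ¬ ∃ t, x = P t) (hy : ¬ ∃ t, y = P t) : x ∈ Up Pl P ↔ y ∈ Up Pl P := by
  constructor
  · intro h1
    rcases up_adj hH Pl hP h h1 with h2 | h2
    · exact h2
    · exact absurd h2 hy
  · intro h1
    rcases up_adj hH Pl hP h.symm h1 with h2 | h2
    · exact h2
    · exact absurd h2 hx

theorem local_up (hH : H.Connected) (Pl : Plane H) {u : W → ℤ}
    (hu : ∀ w w', H.Adj w w' → |u w - u w'| ≤ 1) {P Q : ℤ → W} (hP : Calib H u P)
    (hQ : Calib H u Q) {a b : ℤ} (hab : ∀ t, a ≤ t → t ≤ b → P t = Q t) {w v : W}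
    (p : H.Walk w v) : (∃ t, v = P t) → a + p.length < u w → u w + p.length < b →
    (w ∈ Up Pl P ↔ w ∈ Up Pl Q) := by
  have hon : ∀ x : W, a < u x → u x < b → ((∃ t, x = P t) ↔ ∃ t, x = Q t) := by
    intro x h1 h2
    constructor
    · rintro ⟨t, ht⟩
      have h3 : u x = t := by rw [ht, hP.lev]
      exact ⟨t, by rw [ht]; exact hab t (by omega) (by omega)⟩
    · rintro ⟨t, ht⟩
      have h3 : u x = t := by rw [ht, hQ.lev]
      exact ⟨t, by rw [ht]; exact (hab t (by omega) (by omega)).symm⟩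
  have honcase : ∀ x : W, a < u x → u x < b → (∃ t, x = P t) →
      (x ∈ Up Pl P ↔ x ∈ Up Pl Q) := by
    intro x h1 h2 h3
    obtain ⟨t', ht'⟩ := (hon x h1 h2).1 h3
    obtain ⟨t, ht⟩ := h3
    constructor
    · intro h4
      rw [ht] at h4
      exact absurd h4 (line_not_up hH Pl hP.isCurve t)
    · intro h4
      rw [ht'] at h4
      exact absurd h4 (line_not_up hH Pl hQ.isCurve t')
  induction p with
  | nil =>
    intro hv h1 h2
    simp only [Walk.length_nil, Nat.cast_zero, add_zero] at h1 h2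
    exact honcase _ h1 h2 hv
  | @cons x y z hxy p ih =>
    intro hv h1 h2
    rw [Walk.length_cons] at h1 h2
    push_cast at h1 h2
    have hl : (0 : ℤ) ≤ p.length := Int.natCast_nonneg _
    have hux := hu x y hxy
    rw [abs_le] at hux
    by_cases hx : ∃ t, x = P t
    · exact honcase x (by omega) (by omega) hx
    · have hx' : ¬ ∃ t, x = Q t := fun h => hx ((hon x (by omega) (by omega)).2 h)
      by_cases hy : ∃ t, y = P t
      · obtain ⟨s, hs⟩ := hy
        have hus : u y = s := by rw [hs, hP.lev]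
        have e0 : P s = Q s := hab s (by omega) (by omega)
        have e1 : P (s + 1) = Q (s + 1) := hab (s + 1) (by omega) (by omega)
        have e2 : P (s - 1) = Q (s - 1) := hab (s - 1) (by omega) (by omega)
        rw [up_iff_dart hH Pl hP.isCurve hxy.symm hx, up_iff_dart hH Pl hQ.isCurve hxy.symm hx']
        exact local_at hH Pl hP hQ e0 e1 e2 (d := P1.dart hxy.symm) hs
      · have hy' : ¬ ∃ t, y = Q t := fun h => hy ((hon y (by omega) (by omega)).2 h)
        rw [up_iff_up hH Pl hP.isCurve hxy hx hy, up_iff_up hH Pl hQ.isCurve hxy hx' hy']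
        exact ih hv (by omega) (by omega)

end LA

/-- If two calibrated lines agree on the levels `[a, b]`, then a vertex `w` that is joined to one
of them by a short walk inside these levels is on the same side of both. -/
theorem local_side (hH : H.Connected) (Pl : Plane H) {u : W → ℤ}
    (hu : ∀ w w', H.Adj w w' → |u w - u w'| ≤ 1) {P Q : ℤ → W} (hP : Calib H u P)
    (hQ : Calib H u Q) {a b : ℤ} (hab : ∀ t, a ≤ t → t ≤ b → P t = Q t) {w : W} {t : ℤ}
    (p : H.Walk w (P t)) (h1 : a + p.length < u w) (h2 : u w + p.length < b) :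
    (w ∈ Up Pl P ↔ w ∈ Up Pl Q) ∧ (w ∈ Down Pl P ↔ w ∈ Down Pl Q) := by
  have hl : (0 : ℤ) ≤ p.length := Int.natCast_nonneg _
  have hup := LA.local_up hH Pl hu hP hQ hab p ⟨t, rfl⟩ h1 h2
  refine ⟨hup, ?_⟩
  constructor
  · intro h
    rcases up_or_down hH Pl hQ.isCurve w with h3 | h3 | ⟨s, h3⟩
    · exact absurd h (not_up_and_down hH Pl hP.isCurve (hup.2 h3))
    · exact h3
    · exfalso
      have h4 : u w = s := by rw [h3, hQ.lev]
      have h5 : w = P s := by rw [h3]; exact (hab s (by omega) (by omega)).symm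
      rw [h5] at h
      exact line_not_down hH Pl hP.isCurve s h
  · intro h
    rcases up_or_down hH Pl hP.isCurve w with h3 | h3 | ⟨s, h3⟩
    · exact absurd h (not_up_and_down hH Pl hQ.isCurve (hup.1 h3))
    · exact h3
    · exfalso
      have h4 : u w = s := by rw [h3, hP.lev]
      have h5 : w = Q s := by rw [h3]; exact hab s (by omega) (by omega)
      rw [h5] at h
      exact line_not_down hH Pl hQ.isCurve s h

end Pool.Agent.MP_f5837d_co

/-!
# Task LB: coherent calibrated lines (blueprint 2.3)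

The function `F = 1_{lft P} * 1_{lft Q}` is a face function; its boundary flow is supported on the arcs
of `P` and `Q`; conservation (`faceSet_flow`) at the vertices of level `t + 1` shows that the total
flow `I` from level `t` to level `t + 1` does not depend on `t`. `I = 0` gives `lft P ∩ lft Q = ∅`,
`I = 2` gives `lft P ∪ lft Q = univ`. So for coherent lines `I = 1`.
-/


namespace Pool.Agent.MP_f5837d_co

open SimpleGraph

variable {V W : Type*} {G : SimpleGraph V} {H : SimpleGraph W} {π : W → V}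
variable [∀ w, Fintype (H.neighborSet w)]

namespace LB

section noFin

omit [∀ w, Fintype (H.neighborSet w)]

theorem dext {d e : H.Dart} (h1 : d.fst = e.fst) (h2 : d.snd = e.snd) : d = e :=
  Dart.ext _ _ (Prod.ext h1 h2)

theorem idx {u : W → ℤ} {P Q : ℤ → W} (hP : Calib H u P) (hQ : Calib H u Q) {s t : ℤ}
    (h : P s = Q t) : s = t := by
  rw [← hP.lev s, ← hQ.lev t, h]

/-- The arc of a line. -/
def da {u : W → ℤ} {P : ℤ → W} (hP : Calib H u P) (t : ℤ) : H.Dart :=
  ⟨(P t, P (t + 1)), hP.adj t⟩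

/-- `d` lies on the line. -/
def On (P : ℤ → W) (d : H.Dart) : Prop :=
  ∃ t, (d.fst = P t ∧ d.snd = P (t + 1)) ∨ (d.fst = P (t + 1) ∧ d.snd = P t)

theorem on_symm {P : ℤ → W} {d : H.Dart} (h : On P d) : On P d.symm := by
  obtain ⟨t, h | h⟩ := h
  · exact ⟨t, Or.inr ⟨h.2, h.1⟩⟩
  · exact ⟨t, Or.inl ⟨h.2, h.1⟩⟩

theorem on_symm_iff {P : ℤ → W} {d : H.Dart} : On P d.symm ↔ On P d :=
  ⟨fun h => by simpa using on_symm h, on_symm⟩

theorem on_cases {u : W → ℤ} {P : ℤ → W} (hP : Calib H u P) {d : H.Dart} (h : On P d) :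
    ∃ t, d = da hP t ∨ d = (da hP t).symm := by
  obtain ⟨t, ⟨h1, h2⟩ | ⟨h1, h2⟩⟩ := h
  · exact ⟨t, Or.inl (LB.dext h1 h2)⟩
  · exact ⟨t, Or.inr (LB.dext h1 h2)⟩

theorem on_da {u : W → ℤ} {P : ℤ → W} (hP : Calib H u P) (t : ℤ) : On P (da hP t) :=
  ⟨t, Or.inl ⟨rfl, rfl⟩⟩

/-- The arc of `P` on level `t` lies on `Q` only if it is a common arc. -/
theorem on_da_iff {u : W → ℤ} {P Q : ℤ → W} (hP : Calib H u P) (hQ : Calib H u Q) {t : ℤ} :
    On Q (da hP t) ↔ P t = Q t ∧ P (t + 1) = Q (t + 1) := by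
  constructor
  · rintro ⟨s, ⟨h1, h2⟩ | ⟨h1, h2⟩⟩
    · have : t = s := idx hP hQ h1
      subst this
      exact ⟨h1, h2⟩
    · have e1 : t = s + 1 := idx hP hQ h1
      have e2 : t + 1 = s := idx hP hQ h2
      omega
  · rintro ⟨h1, h2⟩
    exact ⟨t, Or.inl ⟨h1, h2⟩⟩

open Classical in
/-- Indicator function. -/
noncomputable def ind (S : Set H.Dart) (d : H.Dart) : ℤ := if d ∈ S then 1 else 0

theorem ind_of_mem {S : Set H.Dart} {d : H.Dart} (h : d ∈ S) : ind S d = 1 := if_pos h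

theorem ind_of_notMem {S : Set H.Dart} {d : H.Dart} (h : d ∉ S) : ind S d = 0 := if_neg h

theorem ind_congr {S T : Set H.Dart} {d e : H.Dart} (h : d ∈ S ↔ e ∈ T) : ind S d = ind T e := by
  by_cases h1 : d ∈ S
  · rw [ind_of_mem h1, ind_of_mem (h.1 h1)]
  · rw [ind_of_notMem h1, ind_of_notMem (fun h2 => h1 (h.2 h2))]

theorem ind_cases (S : Set H.Dart) (d : H.Dart) : (ind S d = 0 ∧ d ∉ S) ∨ (ind S d = 1 ∧ d ∈ S) := by
  by_cases h : d ∈ S
  · exact Or.inr ⟨ind_of_mem h, h⟩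
  · exact Or.inl ⟨ind_of_notMem h, h⟩

theorem common_iff {u : W → ℤ} {P Q : ℤ → W} (hP : Calib H u P) (hQ : Calib H u Q) {t : ℤ} :
    On P (da hQ t) ↔ On Q (da hP t) := by
  rw [on_da_iff hP hQ, on_da_iff hQ hP]
  exact ⟨fun h => ⟨h.1.symm, h.2.symm⟩, fun h => ⟨h.1.symm, h.2.symm⟩⟩

theorem da_common {u : W → ℤ} {P Q : ℤ → W} (hP : Calib H u P) (hQ : Calib H u Q) {t : ℤ}
    (h : On Q (da hP t)) : da hP t = da hQ t := by
  rw [on_da_iff hP hQ] at h
  exact LB.dext h.1 h.2

theorem vert_ne {u : W → ℤ} {P Q : ℤ → W} (hP : Calib H u P) (hQ : Calib H u Q) {t : ℤ} (h : P t ≠ Q t) :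
    ∀ s, P t ≠ Q s := by
  intro s hs
  have := idx hP hQ hs
  subst this
  exact h hs

theorem not_on_of_fst {u : W → ℤ} {P Q : ℤ → W} (hP : Calib H u P) (hQ : Calib H u Q) {t : ℤ}
    (h : P t ≠ Q t) : ¬ On Q (da hP t) := by
  rw [on_da_iff hP hQ]
  exact fun h1 => h h1.1

theorem not_on_of_snd {u : W → ℤ} {P Q : ℤ → W} (hP : Calib H u P) (hQ : Calib H u Q) {t : ℤ}
    (h : P (t + 1) ≠ Q (t + 1)) : ¬ On Q (da hP t) := by
  rw [on_da_iff hP hQ]
  exact fun h1 => h h1.2

end noFin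

variable (hH : H.Connected) (Pl : Plane H) {u : W → ℤ}
include hH

theorem da_mem {P : ℤ → W} (hP : Calib H u P) (t : ℤ) :
    da hP t ∈ lft Pl P ∧ (da hP t).symm ∉ lft Pl P :=
  (isLeft_lft hH Pl hP.isCurve).left t _ rfl rfl

theorem off_iff {P : ℤ → W} (hP : Calib H u P) {d : H.Dart} (h : ¬ On P d) :
    d ∈ lft Pl P ↔ d.symm ∈ lft Pl P :=
  (isLeft_lft hH Pl hP.isCurve).off d (fun t => ⟨fun h1 => h ⟨t, Or.inl h1⟩,
    fun h1 => h ⟨t, Or.inr h1⟩⟩)

theorem face {P : ℤ → W} (hP : Calib H u P) : IsFaceSet Pl.toRotationSystem (lft Pl P) :=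
  (isLeft_lft hH Pl hP.isCurve).face

/-- A vertex off the line: its darts are in the left side iff the vertex is above. -/
theorem mem_iff_up {P : ℤ → W} (hP : Calib H u P) {w : W} (hw : ∀ t, w ≠ P t) {d : H.Dart}
    (hd : d.fst = w) : d ∈ lft Pl P ↔ w ∈ Up Pl P := by
  rcases up_or_down hH Pl hP.isCurve w with h | h | ⟨t, h⟩
  · exact ⟨fun _ => h, fun h => h d hd⟩
  · exact ⟨fun h1 => absurd h1 (h d hd), fun h1 => h1 d hd⟩
  · exact absurd h (hw t)

theorem mem_iff_down {P : ℤ → W} (hP : Calib H u P) {w : W} (hw : ∀ t, w ≠ P t) {d : H.Dart}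
    (hd : d.fst = w) : d ∉ lft Pl P ↔ w ∈ Down Pl P := by
  rcases up_or_down hH Pl hP.isCurve w with h | h | ⟨t, h⟩
  · exact ⟨fun h1 => absurd (h d hd) h1, fun h1 => h1 d hd⟩
  · exact ⟨fun _ => h, fun h1 => h1 d hd⟩
  · exact absurd h (hw t)

/-- The boundary flow of the left side, weighted. -/
theorem sum_line {P : ℤ → W} (hP : Calib H u P) (φ : H.Dart → ℤ) {w : W} {t : ℤ}
    (hw : P (t + 1) = w) :
    ∑ y : H.neighborSet w, (ind (lft Pl P) (H.dartOfNeighborSet w y) -
      ind (lft Pl P) (H.dartOfNeighborSet w y).symm) * φ (H.dartOfNeighborSet w y) =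
      φ (da hP (t + 1)) - φ (da hP t).symm := by
  subst hw
  have hadj1 : H.Adj (P (t + 1)) (P (t + 1 + 1)) := hP.adj (t + 1)
  have hadj2 : H.Adj (P (t + 1)) (P t) := (hP.adj t).symm
  have hne : (⟨P (t + 1 + 1), hadj1⟩ : H.neighborSet (P (t + 1))) ≠ ⟨P t, hadj2⟩ := by
    intro h
    have := idx hP hP (congrArg Subtype.val h)
    omega
  rw [Finset.sum_eq_add (⟨P (t + 1 + 1), hadj1⟩ : H.neighborSet (P (t + 1))) ⟨P t, hadj2⟩ hne
    ?_ (fun hx => absurd (Finset.mem_univ _) hx) (fun hx => absurd (Finset.mem_univ _) hx)]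
  · have e1 : H.dartOfNeighborSet (P (t + 1)) ⟨P (t + 1 + 1), hadj1⟩ = da hP (t + 1) := rfl
    have e3 : H.dartOfNeighborSet (P (t + 1)) ⟨P t, hadj2⟩ = (da hP t).symm := rfl
    rw [e1, e3, Dart.symm_symm, ind_of_mem (da_mem hH Pl hP (t + 1)).1,
      ind_of_notMem (da_mem hH Pl hP (t + 1)).2, ind_of_mem (da_mem hH Pl hP t).1,
      ind_of_notMem (da_mem hH Pl hP t).2]
    ring
  · rintro ⟨y, hy⟩ - ⟨hy1, hy2⟩
    have hoff : ¬ On P (H.dartOfNeighborSet (P (t + 1)) ⟨y, hy⟩) := by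
      rintro ⟨s, ⟨h1, h2⟩ | ⟨h1, h2⟩⟩
      · have : t + 1 = s := idx hP hP h1
        subst this
        exact hy1 (Subtype.ext h2)
      · have : t + 1 = s + 1 := idx hP hP h1
        have : t = s := by omega
        subst this
        exact hy2 (Subtype.ext h2)
    rw [ind_congr (off_iff hH Pl hP hoff), sub_self, zero_mul]

/-- The total flow on level `t`. -/
noncomputable def tot (Pl : Plane H) {P Q : ℤ → W} (hP : Calib H u P) (hQ : Calib H u Q) (t : ℤ) :
    ℤ := ind (lft Pl Q) (da hP t) + ind (lft Pl P) (da hQ t).symm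

theorem tot_eq {P Q : ℤ → W} (hP : Calib H u P) (hQ : Calib H u Q) (t : ℤ) :
    tot Pl hP hQ t = ind (lft Pl Q) (da hP t).symm + ind (lft Pl P) (da hQ t) := by
  by_cases h : On Q (da hP t)
  · have e := da_common hP hQ h
    rw [tot, e, ind_of_mem (da_mem hH Pl hQ t).1, ind_of_notMem (da_mem hH Pl hQ t).2, ← e,
      ind_of_mem (da_mem hH Pl hP t).1, ind_of_notMem (da_mem hH Pl hP t).2]
    ring
  · have h' : ¬ On P (da hQ t) := fun h1 => h ((common_iff hP hQ).1 h1)
    rw [tot, ind_congr (off_iff hH Pl hQ h), ind_congr (off_iff hH Pl hP h')]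

/-- Off the common arcs the flow is the number of sides. -/
theorem tot_of_not {P Q : ℤ → W} (hP : Calib H u P) (hQ : Calib H u Q) {t : ℤ}
    (h : ¬ On Q (da hP t)) :
    tot Pl hP hQ t = ind (lft Pl Q) (da hP t) + ind (lft Pl P) (da hQ t) := by
  have h' : ¬ On P (da hQ t) := fun h1 => h ((common_iff hP hQ).1 h1)
  rw [tot, ind_congr (off_iff hH Pl hP h')]

theorem tot_of_common {P Q : ℤ → W} (hP : Calib H u P) (hQ : Calib H u Q) {t : ℤ}
    (h : On Q (da hP t)) : tot Pl hP hQ t = 1 := by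
  have e := da_common hP hQ h
  rw [tot, e, ind_of_mem (da_mem hH Pl hQ t).1, ← e, ind_of_notMem (da_mem hH Pl hP t).2]
  ring

/-- The side of the arc from `P t` is the side of `P t`. -/
theorem arc_up {P Q : ℤ → W} (hP : Calib H u P) (hQ : Calib H u Q) {t : ℤ} (h : P t ≠ Q t) :
    da hP t ∈ lft Pl Q ↔ P t ∈ Up Pl Q :=
  mem_iff_up hH Pl hQ (vert_ne hP hQ h) rfl

theorem arc_down {P Q : ℤ → W} (hP : Calib H u P) (hQ : Calib H u Q) {t : ℤ} (h : P t ≠ Q t) :
    da hP t ∉ lft Pl Q ↔ P t ∈ Down Pl Q :=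
  mem_iff_down hH Pl hQ (vert_ne hP hQ h) rfl

/-- The side of the arc to `P (t + 1)` is the side of `P (t + 1)`. -/
theorem arc_up' {P Q : ℤ → W} (hP : Calib H u P) (hQ : Calib H u Q) {t : ℤ}
    (h : P (t + 1) ≠ Q (t + 1)) : da hP t ∈ lft Pl Q ↔ P (t + 1) ∈ Up Pl Q := by
  rw [off_iff hH Pl hQ (not_on_of_snd hP hQ h)]
  exact mem_iff_up hH Pl hQ (vert_ne hP hQ h) rfl

/-- Consecutive arcs are on the same side when the middle vertex is off the other line. -/
theorem arc_succ {P Q : ℤ → W} (hP : Calib H u P) (hQ : Calib H u Q) {t : ℤ}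
    (h : P (t + 1) ≠ Q (t + 1)) : da hP t ∈ lft Pl Q ↔ da hP (t + 1) ∈ lft Pl Q := by
  rw [arc_up' hH Pl hP hQ h, arc_up hH Pl hP hQ h]

theorem tot_succ {P Q : ℤ → W} (hP : Calib H u P) (hQ : Calib H u Q) (t : ℤ) :
    tot Pl hP hQ (t + 1) = tot Pl hP hQ t := by
  by_cases h : P (t + 1) = Q (t + 1)
  · rw [tot_eq hH Pl hP hQ t, tot]
    have hF : ∀ d, ind (lft Pl P ∩ lft Pl Q) (Pl.rot d.symm) = ind (lft Pl P ∩ lft Pl Q) d := by
      intro d
      refine ind_congr ?_
      rw [Set.mem_inter_iff, Set.mem_inter_iff, face hH Pl hP d, face hH Pl hQ d]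
    have hsum := faceSet_flow Pl.toRotationSystem hF (Q (t + 1))
    have hmul : ∀ d : H.Dart, ind (lft Pl P ∩ lft Pl Q) d = ind (lft Pl P) d * ind (lft Pl Q) d := by
      intro d
      rcases ind_cases (lft Pl P) d with ⟨h1, h2⟩ | ⟨h1, h2⟩
      · rw [h1, zero_mul]
        exact ind_of_notMem (fun h3 => h2 h3.1)
      · rcases ind_cases (lft Pl Q) d with ⟨h3, h4⟩ | ⟨h3, h4⟩
        · rw [h3, mul_zero]
          exact ind_of_notMem (fun h5 => h4 h5.2)
        · rw [h1, h3, mul_one]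
          exact ind_of_mem ⟨h2, h4⟩
    have e : ∀ y : H.neighborSet (Q (t + 1)),
        ind (lft Pl P ∩ lft Pl Q) (H.dartOfNeighborSet _ y) -
          ind (lft Pl P ∩ lft Pl Q) (H.dartOfNeighborSet _ y).symm =
        (ind (lft Pl P) (H.dartOfNeighborSet _ y) -
          ind (lft Pl P) (H.dartOfNeighborSet _ y).symm) *
            (fun d => ind (lft Pl Q) d) (H.dartOfNeighborSet _ y) +
        (ind (lft Pl Q) (H.dartOfNeighborSet _ y) -
          ind (lft Pl Q) (H.dartOfNeighborSet _ y).symm) *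
            (fun d => ind (lft Pl P) d.symm) (H.dartOfNeighborSet _ y) := by
      intro y
      rw [hmul, hmul]
      ring
    rw [Finset.sum_congr rfl (fun y _ => e y), Finset.sum_add_distrib,
      sum_line hH Pl hP (fun d => ind (lft Pl Q) d) h,
      sum_line hH Pl hQ (fun d => ind (lft Pl P) d.symm) (t := t) rfl] at hsum
    simp only [Dart.symm_symm] at hsum
    linarith
  · have h' : Q (t + 1) ≠ P (t + 1) := fun h1 => h h1.symm
    rw [tot_of_not hH Pl hP hQ (not_on_of_fst hP hQ h),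
      tot_of_not hH Pl hP hQ (not_on_of_snd hP hQ h),
      ind_congr (arc_succ hH Pl hP hQ h), ind_congr (arc_succ hH Pl hQ hP h')]

theorem tot_const {P Q : ℤ → W} (hP : Calib H u P) (hQ : Calib H u Q) (s t : ℤ) :
    tot Pl hP hQ t = tot Pl hP hQ s := by
  refine Int.inductionOn' (motive := fun t => tot Pl hP hQ t = tot Pl hP hQ s) t s rfl
    (fun k _ ih => ?_) (fun k _ ih => ?_)
  · rw [tot_succ hH]; exact ih
  · rw [← ih]
    have := tot_succ hH Pl hP hQ (k - 1)
    rw [sub_add_cancel] at this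
    exact this.symm

/-- A face set that is closed under reversal on each arc of `P` and `Q`, and off them. -/
theorem trivial_of {P Q : ℤ → W} (hP : Calib H u P) (hQ : Calib H u Q) {T : Set H.Dart}
    (hT : IsFaceSet Pl.toRotationSystem T)
    (h1 : ∀ t, da hP t ∈ T ↔ (da hP t).symm ∈ T) (h2 : ∀ t, da hQ t ∈ T ↔ (da hQ t).symm ∈ T)
    (h3 : ∀ d, ¬ On P d → ¬ On Q d → (d ∈ T ↔ d.symm ∈ T)) : T = ∅ ∨ T = Set.univ := by
  refine faceSet_trivial hH Pl.toRotationSystem hT (fun d => ?_)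
  by_cases hp : On P d
  · obtain ⟨t, rfl | rfl⟩ := on_cases hP hp
    · exact h1 t
    · rw [Dart.symm_symm]; exact (h1 t).symm
  · by_cases hq : On Q d
    · obtain ⟨t, rfl | rfl⟩ := on_cases hQ hq
      · exact h2 t
      · rw [Dart.symm_symm]; exact (h2 t).symm
    · exact h3 d hp hq

theorem tot_one {P Q : ℤ → W} (hP : Calib H u P) (hQ : Calib H u Q) (h : Coherent Pl P Q) (t : ℤ) :
    tot Pl hP hQ t = 1 := by
  by_contra hne
  have hne' : ∀ s, tot Pl hP hQ s ≠ 1 := fun s => by rw [tot_const hH Pl hP hQ t s]; exact hne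
  have hoff : ∀ s, ¬ On Q (da hP s) := fun s hs => hne' s (tot_of_common hH Pl hP hQ hs)
  have hoff' : ∀ s, ¬ On P (da hQ s) := fun s hs => hoff s ((common_iff hP hQ).1 hs)
  have htot : ∀ s, tot Pl hP hQ s = tot Pl hP hQ t := fun s => tot_const hH Pl hP hQ t s
  by_cases h0 : tot Pl hP hQ t = 0
  · -- the intersection is empty
    have hA : ∀ s, da hP s ∉ lft Pl Q ∧ da hQ s ∉ lft Pl P := by
      intro s
      have h1 := htot s
      rw [h0, tot_of_not hH Pl hP hQ (hoff s)] at h1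
      rcases ind_cases (lft Pl Q) (da hP s) with ⟨a1, a2⟩ | ⟨a1, a2⟩ <;>
        rcases ind_cases (lft Pl P) (da hQ s) with ⟨b1, b2⟩ | ⟨b1, b2⟩ <;>
        first | exact ⟨a2, b2⟩ | omega
    have hT : IsFaceSet Pl.toRotationSystem (lft Pl P ∩ lft Pl Q) := by
      intro d
      rw [Set.mem_inter_iff, Set.mem_inter_iff, face hH Pl hP d, face hH Pl hQ d]
    have hh : lft Pl P ∩ lft Pl Q = ∅ ∨ lft Pl P ∩ lft Pl Q = Set.univ := by
      refine trivial_of hH Pl hP hQ hT ?_ ?_ ?_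
      · intro s
        have h2 : (da hP s).symm ∉ lft Pl Q := fun h3 =>
          (hA s).1 ((off_iff hH Pl hQ (hoff s)).2 h3)
        exact ⟨fun h3 => absurd h3.2 (hA s).1, fun h3 => absurd h3.2 h2⟩
      · intro s
        have h2 : (da hQ s).symm ∉ lft Pl P := fun h3 =>
          (hA s).2 ((off_iff hH Pl hP (hoff' s)).2 h3)
        exact ⟨fun h3 => absurd h3.1 (hA s).2, fun h3 => absurd h3.1 h2⟩
      · intro d hp hq
        rw [Set.mem_inter_iff, Set.mem_inter_iff, off_iff hH Pl hP hp, off_iff hH Pl hQ hq]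
    rcases hh with h1 | h1
    · obtain ⟨d, hd⟩ := h.inter
      rw [h1] at hd
      exact hd
    · have h2 : (da hP 0).symm ∈ lft Pl P ∩ lft Pl Q := by rw [h1]; trivial
      exact (da_mem hH Pl hP 0).2 h2.1
  · -- the union is everything
    have hA : ∀ s, da hP s ∈ lft Pl Q ∧ da hQ s ∈ lft Pl P := by
      intro s
      have h1 := htot s
      rw [tot_of_not hH Pl hP hQ (hoff s)] at h1
      rcases ind_cases (lft Pl Q) (da hP s) with ⟨a1, a2⟩ | ⟨a1, a2⟩ <;>
        rcases ind_cases (lft Pl P) (da hQ s) with ⟨b1, b2⟩ | ⟨b1, b2⟩ <;>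
        first | exact ⟨a2, b2⟩ | omega
    have hT : IsFaceSet Pl.toRotationSystem (lft Pl P ∪ lft Pl Q) := by
      intro d
      rw [Set.mem_union, Set.mem_union, face hH Pl hP d, face hH Pl hQ d]
    have hh : lft Pl P ∪ lft Pl Q = ∅ ∨ lft Pl P ∪ lft Pl Q = Set.univ := by
      refine trivial_of hH Pl hP hQ hT ?_ ?_ ?_
      · intro s
        have h2 : (da hP s).symm ∈ lft Pl Q := (off_iff hH Pl hQ (hoff s)).1 (hA s).1
        exact ⟨fun _ => Or.inr h2, fun _ => Or.inr (hA s).1⟩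
      · intro s
        have h2 : (da hQ s).symm ∈ lft Pl P := (off_iff hH Pl hP (hoff' s)).1 (hA s).2
        exact ⟨fun _ => Or.inl h2, fun _ => Or.inl (hA s).2⟩
      · intro d hp hq
        rw [Set.mem_union, Set.mem_union, off_iff hH Pl hP hp, off_iff hH Pl hQ hq]
    rcases hh with h1 | h1
    · have h2 : da hP 0 ∈ lft Pl P ∪ lft Pl Q := Or.inl (da_mem hH Pl hP 0).1
      rw [h1] at h2
      exact h2
    · exact h.union h1

/-- Off the common arcs exactly one arc is on the left of the other line. -/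
theorem arc_xor {P Q : ℤ → W} (hP : Calib H u P) (hQ : Calib H u Q) (h : Coherent Pl P Q) {t : ℤ}
    (hoff : ¬ On Q (da hP t)) : da hP t ∈ lft Pl Q ↔ da hQ t ∉ lft Pl P := by
  have h1 := tot_one hH Pl hP hQ h t
  rw [tot_of_not hH Pl hP hQ hoff] at h1
  rcases ind_cases (lft Pl Q) (da hP t) with ⟨a1, a2⟩ | ⟨a1, a2⟩ <;>
    rcases ind_cases (lft Pl P) (da hQ t) with ⟨b1, b2⟩ | ⟨b1, b2⟩
  · omega
  · exact ⟨fun h2 => absurd h2 a2, fun h2 => absurd b2 h2⟩
  · exact ⟨fun _ => b2, fun _ => a2⟩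
  · omega

end LB

/-- Two calibrated lines with a common arc are coherent. -/
theorem coherent_of_common_arc (hH : H.Connected) (Pl : Plane H) {u : W → ℤ} {P Q : ℤ → W}
    (hP : Calib H u P) (hQ : Calib H u Q) {t : ℤ} (h : P t = Q t) (h' : P (t + 1) = Q (t + 1)) :
    Coherent Pl P Q := by
  have e : LB.da hP t = LB.da hQ t := LB.dext h h'
  refine ⟨⟨LB.da hP t, (LB.da_mem hH Pl hP t).1, by rw [e]; exact (LB.da_mem hH Pl hQ t).1⟩, ?_⟩
  intro h1
  have h2 : (LB.da hP t).symm ∈ lft Pl P ∪ lft Pl Q := by rw [h1]; trivial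
  rcases h2 with h2 | h2
  · exact (LB.da_mem hH Pl hP t).2 h2
  · rw [e] at h2
    exact (LB.da_mem hH Pl hQ t).2 h2

/-- The trichotomy on every level. -/
theorem Coherent.level (hH : H.Connected) (Pl : Plane H) {u : W → ℤ}
    (hu : ∀ w w', H.Adj w w' → |u w - u w'| ≤ 1) {P Q : ℤ → W}
    (hP : Calib H u P) (hQ : Calib H u Q) (h : Coherent Pl P Q) (t : ℤ) :
    P t = Q t ∨ (P t ∈ Up Pl Q ∧ Q t ∈ Down Pl P) ∨ (P t ∈ Down Pl Q ∧ Q t ∈ Up Pl P) := by
  by_cases hne : P t = Q t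
  · exact Or.inl hne
  · right
    have hne' : Q t ≠ P t := fun h1 => hne h1.symm
    have h1 := LB.arc_xor hH Pl hP hQ h (LB.not_on_of_fst hP hQ hne)
    by_cases h2 : LB.da hP t ∈ lft Pl Q
    · exact Or.inl ⟨(LB.arc_up hH Pl hP hQ hne).1 h2, (LB.arc_down hH Pl hQ hP hne').1 (h1.1 h2)⟩
    · refine Or.inr ⟨(LB.arc_down hH Pl hP hQ hne).1 h2, (LB.arc_up hH Pl hQ hP hne').1 ?_⟩
      by_contra h3
      exact h2 (h1.2 h3)

theorem coherent_symm (Pl : Plane H) {P Q : ℤ → W} (h : Coherent Pl P Q) : Coherent Pl Q P :=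
  ⟨by rw [Set.inter_comm]; exact h.inter, by rw [Set.union_comm]; exact h.union⟩

theorem coherent_of_subset (hH : H.Connected) (Pl : Plane H) {P Q : ℤ → W} (hP : IsCurve H P)
    (hQ : IsCurve H Q) (h : lft Pl Q ⊆ lft Pl P) : Coherent Pl P Q := by
  refine ⟨?_, ?_⟩
  · have h1 := ((isLeft_lft hH Pl hQ).left 0 ⟨(Q 0, Q (0 + 1)), hQ.adj 0⟩ rfl rfl).1
    exact ⟨_, h h1, h1⟩
  · intro h1
    have h2 := ((isLeft_lft hH Pl hP).left 0 ⟨(P 0, P (0 + 1)), hP.adj 0⟩ rfl rfl).2
    have h3 : (⟨(P 0, P (0 + 1)), hP.adj 0⟩ : H.Dart).symm ∈ lft Pl P ∪ lft Pl Q := by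
      rw [h1]; trivial
    rcases h3 with h3 | h3
    · exact h2 h3
    · exact h2 (h h3)

theorem up_subset_of_subset (Pl : Plane H) {P Q : ℤ → W} (h : lft Pl Q ⊆ lft Pl P) :
    Up Pl Q ⊆ Up Pl P ∧ Down Pl P ⊆ Down Pl Q :=
  ⟨fun _ hw d hd => h (hw d hd), fun _ hw d hd => fun h1 => hw d hd (h h1)⟩

/-- Inclusion of left sides gives the order without coherence. -/
theorem le_of_subset (hH : H.Connected) (Pl : Plane H) {u : W → ℤ}
    (hu : ∀ w w', H.Adj w w' → |u w - u w'| ≤ 1) {P Q : ℤ → W}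
    (hP : Calib H u P) (hQ : Calib H u Q) (h : lft Pl Q ⊆ lft Pl P) : Le Pl P Q := by
  intro t
  rcases (coherent_of_subset hH Pl hP.isCurve hQ.isCurve h).level hH Pl hu hP hQ t with
    h1 | ⟨h1, -⟩ | ⟨-, h1⟩
  · exact Or.inl h1.symm
  · exact absurd ((up_subset_of_subset Pl h).1 h1) (line_not_up hH Pl hP.isCurve t)
  · exact Or.inr h1

/-- The weak order is the inclusion of the left sides. -/
theorem le_iff (hH : H.Connected) (Pl : Plane H) {u : W → ℤ}
    (hu : ∀ w w', H.Adj w w' → |u w - u w'| ≤ 1) {P Q : ℤ → W}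
    (hP : Calib H u P) (hQ : Calib H u Q) (h : Coherent Pl P Q) :
    Le Pl P Q ↔ lft Pl Q ⊆ lft Pl P := by
  refine ⟨fun hle => ?_, le_of_subset hH Pl hu hP hQ⟩
  -- all arcs of `Q` are on the left of `P`
  have hB : ∀ t, LB.da hQ t ∈ lft Pl P := by
    intro t
    rcases hle t with h1 | h1
    · rcases hle (t + 1) with h2 | h2
      · have e : LB.da hQ t = LB.da hP t := LB.dext h1 h2
        rw [e]
        exact (LB.da_mem hH Pl hP t).1
      · have hne : Q (t + 1) ≠ P (t + 1) := fun h3 => by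
          rw [h3] at h2
          exact line_not_up hH Pl hP.isCurve _ h2
        exact (LB.arc_up' hH Pl hQ hP hne).2 h2
    · exact h1 _ rfl
  have hA : ∀ t, ¬ LB.On Q (LB.da hP t) → LB.da hP t ∉ lft Pl Q := by
    intro t ht h1
    exact (LB.arc_xor hH Pl hP hQ h ht).1 h1 (hB t)
  have hT : IsLeft Pl.toRotationSystem Q (lft Pl P ∩ lft Pl Q) := by
    refine ⟨?_, ?_, ?_⟩
    · intro d
      rw [Set.mem_inter_iff, Set.mem_inter_iff, LB.face hH Pl hP d, LB.face hH Pl hQ d]
    · intro t d h1 h2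
      have e : d = LB.da hQ t := LB.dext h1 h2
      subst e
      exact ⟨⟨hB t, (LB.da_mem hH Pl hQ t).1⟩, fun h3 => (LB.da_mem hH Pl hQ t).2 h3.2⟩
    · intro d hd
      have hoff : ¬ LB.On Q d := by
        rintro ⟨t, h1 | h1⟩
        · exact (hd t).1 h1
        · exact (hd t).2 h1
      by_cases hp : LB.On P d
      · obtain ⟨t, rfl | rfl⟩ := LB.on_cases hP hp
        · have h1 := hA t hoff
          have h2 := (LB.da_mem hH Pl hP t).2
          exact ⟨fun h3 => absurd h3.2 h1, fun h3 => absurd h3.1 h2⟩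
        · have hoff' : ¬ LB.On Q (LB.da hP t) := fun h3 => hoff (LB.on_symm h3)
          have h1 := hA t hoff'
          have h2 := (LB.da_mem hH Pl hP t).2
          rw [Dart.symm_symm]
          exact ⟨fun h3 => absurd h3.1 h2, fun h3 => absurd h3.2 h1⟩
      · rw [Set.mem_inter_iff, Set.mem_inter_iff, LB.off_iff hH Pl hP hp,
          LB.off_iff hH Pl hQ hoff]
  have e := lft_eq hH Pl hQ.isCurve hT
  rw [← e]
  exact Set.inter_subset_left

/-- The dual description of the weak order. -/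
theorem le_iff' (hH : H.Connected) (Pl : Plane H) {u : W → ℤ}
    (hu : ∀ w w', H.Adj w w' → |u w - u w'| ≤ 1) {P Q : ℤ → W}
    (hP : Calib H u P) (hQ : Calib H u Q) (h : Coherent Pl P Q) :
    Le Pl P Q ↔ ∀ t, P t = Q t ∨ P t ∈ Down Pl Q := by
  have hl := h.level hH Pl hu hP hQ
  constructor
  · intro h1 t
    rcases hl t with h2 | ⟨-, h2⟩ | ⟨h2, -⟩
    · exact Or.inl h2
    · rcases h1 t with h3 | h3
      · exact Or.inl h3.symm
      · exact absurd h2 (not_up_and_down hH Pl hP.isCurve h3)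
    · exact Or.inr h2
  · intro h1 t
    rcases hl t with h2 | ⟨h2, -⟩ | ⟨-, h2⟩
    · exact Or.inl h2.symm
    · rcases h1 t with h3 | h3
      · exact Or.inl h3.symm
      · exact absurd h3 (not_up_and_down hH Pl hQ.isCurve h2)
    · exact Or.inr h2

/-- The join of two coherent lines. -/
theorem exists_join (hH : H.Connected) (Pl : Plane H) {u : W → ℤ}
    (hu : ∀ w w', H.Adj w w' → |u w - u w'| ≤ 1) {P Q : ℤ → W}
    (hP : Calib H u P) (hQ : Calib H u Q) (h : Coherent Pl P Q) :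
    ∃ J : ℤ → W, Calib H u J ∧ lft Pl J = lft Pl P ∩ lft Pl Q ∧ ∀ t, J t = P t ∨ J t = Q t := by
  classical
  set J : ℤ → W := fun t => if LB.da hP t ∈ lft Pl Q then P t else Q t with hJ
  have hJ1 : ∀ t, LB.da hP t ∈ lft Pl Q → J t = P t := fun t ht => if_pos ht
  have hJ2 : ∀ t, LB.da hP t ∉ lft Pl Q → J t = Q t := fun t ht => if_neg ht
  have hJ1' : ∀ t, LB.da hP t ∈ lft Pl Q → J (t + 1) = P (t + 1) := by
    intro t ht
    by_cases h1 : LB.da hP (t + 1) ∈ lft Pl Q
    · exact hJ1 _ h1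
    · rw [hJ2 _ h1]
      by_contra h2
      exact h1 ((LB.arc_succ hH Pl hP hQ (fun h3 => h2 h3.symm)).1 ht)
  have hJ2' : ∀ t, LB.da hP t ∉ lft Pl Q → J (t + 1) = Q (t + 1) := by
    intro t ht
    by_cases h1 : LB.da hP (t + 1) ∈ lft Pl Q
    · rw [hJ1 _ h1]
      by_contra h2
      exact ht ((LB.arc_succ hH Pl hP hQ h2).2 h1)
    · exact hJ2 _ h1
  have hcal : Calib H u J := by
    refine ⟨fun t => ?_, fun t => ?_⟩
    · by_cases h1 : LB.da hP t ∈ lft Pl Q
      · rw [hJ1 t h1, hJ1' t h1]; exact hP.adj t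
      · rw [hJ2 t h1, hJ2' t h1]; exact hQ.adj t
    · by_cases h1 : LB.da hP t ∈ lft Pl Q
      · rw [hJ1 t h1]; exact hP.lev t
      · rw [hJ2 t h1]; exact hQ.lev t
  have hcommon : ∀ t, LB.On Q (LB.da hP t) → LB.da hP t ∈ lft Pl Q := by
    intro t ht
    rw [LB.da_common hP hQ ht]
    exact (LB.da_mem hH Pl hQ t).1
  have hB : ∀ t, LB.da hP t ∉ lft Pl Q → LB.da hQ t ∈ lft Pl P := by
    intro t ht
    by_contra h1
    exact ht ((LB.arc_xor hH Pl hP hQ h (fun h2 => ht (hcommon t h2))).2 h1)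
  have hB' : ∀ t, LB.da hP t ∈ lft Pl Q → ¬ LB.On Q (LB.da hP t) → LB.da hQ t ∉ lft Pl P := by
    intro t ht h1
    exact (LB.arc_xor hH Pl hP hQ h h1).1 ht
  have hT : IsLeft Pl.toRotationSystem J (lft Pl P ∩ lft Pl Q) := by
    refine ⟨?_, ?_, ?_⟩
    · intro d
      rw [Set.mem_inter_iff, Set.mem_inter_iff, LB.face hH Pl hP d, LB.face hH Pl hQ d]
    · intro t d h1 h2
      by_cases h3 : LB.da hP t ∈ lft Pl Q
      · have e : d = LB.da hP t := LB.dext (h1.trans (hJ1 t h3)) (h2.trans (hJ1' t h3))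
        subst e
        exact ⟨⟨(LB.da_mem hH Pl hP t).1, h3⟩, fun h4 => (LB.da_mem hH Pl hP t).2 h4.1⟩
      · have e : d = LB.da hQ t := LB.dext (h1.trans (hJ2 t h3)) (h2.trans (hJ2' t h3))
        subst e
        exact ⟨⟨hB t h3, (LB.da_mem hH Pl hQ t).1⟩, fun h4 => (LB.da_mem hH Pl hQ t).2 h4.2⟩
    · -- it is enough to treat one of the two darts
      have key : ∀ d : H.Dart, ¬ LB.On J d → d ∈ lft Pl P ∩ lft Pl Q →
          d.symm ∈ lft Pl P ∩ lft Pl Q := by
        rintro d hd ⟨h1, h2⟩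
        by_cases hp : LB.On P d
        · exfalso
          obtain ⟨t, rfl | rfl⟩ := LB.on_cases hP hp
          · exact hd ⟨t, Or.inl ⟨(hJ1 t h2).symm, (hJ1' t h2).symm⟩⟩
          · exact (LB.da_mem hH Pl hP t).2 h1
        · by_cases hq : LB.On Q d
          · exfalso
            obtain ⟨t, rfl | rfl⟩ := LB.on_cases hQ hq
            · by_cases h3 : LB.da hP t ∈ lft Pl Q
              · exact hB' t h3 (fun h4 => hp ((LB.common_iff hP hQ).2 h4)) h1
              · exact hd ⟨t, Or.inl ⟨(hJ2 t h3).symm, (hJ2' t h3).symm⟩⟩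
            · exact (LB.da_mem hH Pl hQ t).2 h2
          · exact ⟨(LB.off_iff hH Pl hP hp).1 h1, (LB.off_iff hH Pl hQ hq).1 h2⟩
      intro d hd
      have hoff : ¬ LB.On J d := by
        rintro ⟨t, h1 | h1⟩
        · exact (hd t).1 h1
        · exact (hd t).2 h1
      refine ⟨key d hoff, fun h1 => ?_⟩
      have := key d.symm (fun h2 => hoff (LB.on_symm_iff.1 h2)) h1
      rwa [Dart.symm_symm] at this
  refine ⟨J, hcal, (lft_eq hH Pl hcal.isCurve hT).symm, fun t => ?_⟩
  by_cases h1 : LB.da hP t ∈ lft Pl Q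
  · exact Or.inl (hJ1 t h1)
  · exact Or.inr (hJ2 t h1)

/-- Coherent lines that never meet are strictly ordered. -/
theorem strict_of_disjoint (hH : H.Connected) (Pl : Plane H) {u : W → ℤ}
    (hu : ∀ w w', H.Adj w w' → |u w - u w'| ≤ 1) {P Q : ℤ → W}
    (hP : Calib H u P) (hQ : Calib H u Q) (h : Coherent Pl P Q) (hne : ∀ t, P t ≠ Q t) :
    (∀ t, Q t ∈ Up Pl P) ∨ ∀ t, P t ∈ Up Pl Q := by
  have hne' : ∀ t, Q t ≠ P t := fun t h1 => hne t h1.symm
  have hconst : ∀ t, LB.da hP t ∈ lft Pl Q ↔ LB.da hP 0 ∈ lft Pl Q := by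
    intro t
    refine Int.inductionOn' (motive := fun t => LB.da hP t ∈ lft Pl Q ↔ LB.da hP 0 ∈ lft Pl Q) t 0
      Iff.rfl (fun k _ ih => ?_) (fun k _ ih => ?_)
    · rw [← LB.arc_succ hH Pl hP hQ (hne _)]; exact ih
    · have := LB.arc_succ hH Pl hP hQ (hne (k - 1 + 1))
      rw [sub_add_cancel] at this
      rw [this]; exact ih
  by_cases h0 : LB.da hP 0 ∈ lft Pl Q
  · right
    intro t
    exact (LB.arc_up hH Pl hP hQ (hne t)).1 ((hconst t).2 h0)
  · left
    intro t
    refine (LB.arc_up hH Pl hQ hP (hne' t)).1 ?_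
    by_contra h1
    exact h0 ((hconst t).1 ((LB.arc_xor hH Pl hP hQ h
      (LB.not_on_of_fst hP hQ (hne t))).2 h1))

end Pool.Agent.MP_f5837d_co
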