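import Pool.Agent.Lib.MP_f5837d_co.GDefs

set_option autoImplicit false

namespace Pool.Agent.MP_f5837d_co

open SimpleGraph

/-- An automorphism of the graph respects the rotation system. -/
def RotComm {W : Type*} {H : SimpleGraph W} (ρ : RotationSystem H) (φ : H ≃g H) : Prop :=
  ∀ d d' : H.Dart, d'.fst = φ d.fst → d'.snd = φ d.snd → (ρ.rot d').snd = φ (ρ.rot d).snd

end Pool.Agent.MP_f5837d_co
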