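import Pool.Agent.Lib.MP_f5837d_co.L4
import Pool.Agent.Lib.MP_f5837d_co.DiskWin

/-!
# Task WIN: the window lemma (blueprint 5.4)

The trio is on `Λ` (which is weakly above `K` and equal to `K` on long stretches), the robber is
below `Λ`. Let `Λ'` be equal to `Λ` in the window of the robber and equal to `K` outside it. Then the
robber is below `Λ'`, and the trio is on `Λ'`. Now induct on the lines `P` with `P = K` outside the
window, `K ≤ P ≤ Λ'`: if `P = K` then the position is in `StripPos`; otherwise `P` has a detour of excess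
zero in the window (a piece of `K`); by `min_pocket` for the mirror image and `pocket_shift` the
robber is in a finite pocket (`x_win`) or the trio is on a lower line. Since `K` has no detours of
excess zero below it, all detours of `P` stay weakly above `K`.
-/

set_option autoImplicit false

namespace Pool.Agent.MP_f5837d_co

open SimpleGraph

variable {V W : Type*} {G : SimpleGraph V} {H : SimpleGraph W} {π : W → V}
variable [∀ w, Fintype (H.neighborSet w)]

namespace WIN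

/-! ### A finite pocket is won -/

theorem pocket_win (hπ : IsCover G H π) (hG : G.Preconnected)
    (hH : H.Connected) (Pl : Plane H) {R D O : Set W} {P q : ℤ → W} {J : Set ℤ} {s : W → ℤ}
    {i j : ℤ} (hpk : Pocket H R D O P q J s i j)
    (hPadj : ∀ t, i ≤ t → t < j → H.Adj (P t) (P (t + 1)))
    (hPinj : ∀ t t', i ≤ t → t ≤ j → i ≤ t' → t' ≤ j → P t = P t' → t = t')
    (hPR : ∀ t, i ≤ t → t ≤ j → P t ∉ R) {r' : W} {c' : Fin 7 → V}
    (hD : Locked D (appF (pair π P (cTo H D P (Set.Icc i j) s))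
        (pair π q (cTo H D q (Set.Icc i j) s))) r' c') : Win G H π r' c' := by
  have hij := hpk.det.hij
  have hsub : D3.comp H D r' ⊆ D := D3.comp_sub D r'
  have hDR : D ⊆ R := hpk.subD
  obtain ⟨N, rfl⟩ := D3.exists_nat (show i ≤ j by omega)
  obtain ⟨A', hA'l, hA'⟩ := D3.exists_walk P N i (x := P i) (y := P (i + N)) rfl rfl
    (fun t h1 h2 => hPadj t (by omega) (by omega))
  obtain ⟨B', hB'l, hB'⟩ := D3.exists_walk q N i (x := P i) (y := P (i + N))
    (hpk.det.out _ (by omega)) (hpk.det.out _ (by omega))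
    (fun t h1 h2 => hpk.det.adj t (by omega) (by omega))
  have potP : Potential H D P (Set.Icc i (i + N)) s :=
    ⟨fun r hr r' hr' h => hpk.pot.lip r (hDR hr) r' (hDR hr') h,
      fun r hr t ht h => hpk.pot.near r (hDR hr) t (hpk.hJ ht) h⟩
  have potq : Potential H D q (Set.Icc i (i + N)) s := by
    refine ⟨fun r hr r' hr' h => hpk.pot.lip r (hDR hr) r' (hDR hr') h, ?_⟩
    rintro r hr t ⟨ht1, ht2⟩ h
    by_cases h3 : i < t ∧ t < i + N
    · have h4 := hpk.det.mem t h3.1 h3.2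
      have h5 := hpk.pot.lip r (hDR hr) _ h4.1 h
      rwa [h4.2] at h5
    · rw [hpk.det.out t (by omega)] at h
      exact hpk.pot.near r (hDR hr) t (hpk.hJ ⟨by omega, by omega⟩) h
  have ndP : NoDet H D P (Set.Icc i (i + N)) s := fun r hr h1 h2 =>
    hpk.strict r hr (Or.inl h1) (Or.inl h2)
  have ndq : NoDet H D q (Set.Icc i (i + N)) s := fun r hr h1 h2 =>
    hpk.strict r hr (Or.inr h1) (Or.inr h2)
  have pfP := pairFun_cTo potP ndP
  have pfq := pairFun_cTo potq ndq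
  have hqwalk : ∀ t, Step H (q t) (q (t + 1)) := by
    intro t
    by_cases h3 : i ≤ t ∧ t < i + N
    · exact Or.inr (hpk.det.adj t h3.1 h3.2)
    · rw [hpk.det.out t (by omega), hpk.det.out (t + 1) (by omega)]
      exact hpk.walk t
  have hqR : ∀ t, i < t → t < i + N → q t ∈ R := fun t h1 h2 => (hpk.det.mem t h1 h2).1
  have hA's : ∀ w ∈ A'.support, ∃ t, i ≤ t ∧ t ≤ i + N ∧ w = P t := by
    intro w hw
    obtain ⟨k, rfl, hk⟩ := Walk.mem_support_iff_exists_getVert.1 hw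
    exact ⟨i + k, by omega, by omega, hA' k (by omega)⟩
  have hB's : ∀ w ∈ B'.support, ∃ t, i ≤ t ∧ t ≤ i + N ∧ w = q t := by
    intro w hw
    obtain ⟨k, rfl, hk⟩ := Walk.mem_support_iff_exists_getVert.1 hw
    exact ⟨i + k, by omega, by omega, hB' k (by omega)⟩
  have hA'm : ∀ t, i ≤ t → t ≤ i + N → P t ∈ A'.support := by
    intro t h1 h2
    obtain ⟨k, rfl⟩ := D3.exists_nat h1
    rw [← hA' k (by omega)]
    exact A'.getVert_mem_support k
  have hB'm : ∀ t, i ≤ t → t ≤ i + N → q t ∈ B'.support := by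
    intro t h1 h2
    obtain ⟨k, rfl⟩ := D3.exists_nat h1
    rw [← hB' k (by omega)]
    exact B'.getVert_mem_support k
  have hA'p : A'.IsPath := by
    apply D3.isPath_of_inj
    intro k l hkl hl h1
    rw [hA' k (by omega), hA' l (by omega)] at h1
    have := hPinj _ _ (by omega) (by omega) (by omega) (by omega) h1
    omega
  have hB'p : B'.IsPath := by
    apply D3.isPath_of_inj
    intro k l hkl hl h1
    rw [hB' k (by omega), hB' l (by omega)] at h1
    by_cases hk : k = 0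
    · subst hk
      rw [hpk.det.out _ (show i + ((0 : ℕ) : ℤ) ≤ i ∨ _ by simp)] at h1
      by_cases hl' : l = N
      · subst hl'
        rw [hpk.det.out _ (Or.inr le_rfl)] at h1
        have := hPinj _ _ (by omega) (by omega) (by omega) (by omega) h1
        omega
      · exact hPR _ (by omega) (by omega) (h1 ▸ hqR (i + l) (by omega) (by omega))
    · by_cases hl' : l = N
      · subst hl'
        rw [hpk.det.out _ (Or.inr (le_refl (i + (l : ℤ))))] at h1
        exact hPR _ (by omega) (by omega) (h1 ▸ hqR (i + k) (by omega) (by omega))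
      · have h2 := (hpk.det.mem (i + k) (by omega) (by omega)).2
        have h3 := (hpk.det.mem (i + l) (by omega) (by omega)).2
        rw [h1] at h2
        omega
  have hcyc : Cyc Pl.toRotationSystem (D3.comp H D r') A' B' := by
    refine cyc_of_paths hH Pl A' B' ?_ hA'p hB'p ?_ (by omega) ?_ ?_ ?_ ?_ ?_
    · intro h1
      have := hPinj _ _ (by omega) (by omega) (by omega) (by omega) h1
      omega
    · intro w hw1 hw2
      obtain ⟨t, h1, h2, rfl⟩ := hA's w hw1
      obtain ⟨t', h3, h4, h5⟩ := hB's _ hw2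
      by_cases h6 : i < t' ∧ t' < i + N
      · exact absurd (h5 ▸ hqR t' h6.1 h6.2) (hPR t (by omega) (by omega))
      · rw [hpk.det.out t' (by omega)] at h5
        have := hPinj _ _ (by omega) (by omega) (by omega) (by omega) h5
        subst this
        rcases (show t = i ∨ t = i + N by omega) with h7 | h7
        · exact Or.inl (by rw [h7])
        · exact Or.inr (by rw [h7])
    · intro r₁ hr₁ w hw
      have hr₁D := hsub hr₁
      rcases hpk.nD r₁ hr₁D w hw with h1 | ⟨t, h1, h2, rfl⟩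
      · rcases hpk.part w h1 with h2 | h2 | ⟨t, h2, h3, rfl⟩
        · exact Or.inl (D3.comp_closed hr₁ hw h2)
        · exact absurd hw (hpk.sep r₁ hr₁D w h2)
        · exact Or.inr (Or.inr (hB'm t (by omega) (by omega)))
      · exact Or.inr (Or.inl (hA'm t h1 h2))
    · intro r₁ hr₁ hr₂
      obtain ⟨t, h1, h2, rfl⟩ := hA's r₁ hr₂
      exact hPR t (by omega) (by omega) (hDR (hsub hr₁))
    · intro r₁ hr₁ hr₂
      obtain ⟨t, h1, h2, rfl⟩ := hB's r₁ hr₂
      by_cases h6 : i < t ∧ t < i + N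
      · exact (hpk.qD t h6.1 h6.2).1 (hsub hr₁)
      · rw [hpk.det.out t (by omega)] at hr₁
        exact hPR t (by omega) (by omega) (hDR (hsub hr₁))
    · exact hpk.finD.subset hsub
    · exact D3.comp_conn D r'
  have hx : XState G π Pl.toRotationSystem (D3.comp H D r') A' B'
      (pair π P (cTo H D P (Set.Icc i (i + N)) s))
      (pair π q (cTo H D q (Set.Icc i (i + N)) s)) := {
    cyc := hcyc
    sA := fun i' j' n h1 h2 h3 => D3.excess potP ndP A' hA'l (fun k hk => (hA' k hk).symm)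
      i' j' n h1 h2 (D3.Det.mono hsub h3)
    sB := fun i' j' n h1 h2 _ h3 => D3.excess potq ndq B' hB'l
      (fun k hk => (hB' k hk).symm) i' j' n h1 h2 (D3.Det.mono hsub h3)
    lipg := fun a r₁ h1 r₂ h2 h3 => D3.pair_lip hπ hpk.walk pfP.lip a r₁ (hsub h1) r₂
      (hsub h2) h3
    lipe := fun a r₁ h1 r₂ h2 h3 => D3.pair_lip hπ hqwalk pfq.lip a r₁ (hsub h1) r₂
      (hsub h2) h3
    covA := by
      intro r₁ hr₁ w hw hrw
      obtain ⟨t, h1, h2, rfl⟩ := hA's w hw
      exact D3.pair_cov pfP (hsub hr₁) ⟨h1, h2⟩ hrw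
    covB := by
      intro r₁ hr₁ w hw hrw
      obtain ⟨t, h1, h2, rfl⟩ := hB's w hw
      exact Or.inr (Or.inr (D3.pair_cov pfq (hsub hr₁) ⟨h1, h2⟩ hrw)) }
  exact x_win hπ hG hH Pl hx ⟨D3.mem_comp_self hD.1, hD.2⟩

/-! ### Elementary facts on calibrated lines -/

omit [∀ w, Fintype (H.neighborSet w)] in
theorem lev_eq {u : W → ℤ} {P Q : ℤ → W} (hP : Calib H u P) (hQ : Calib H u Q) {s t : ℤ}
    (h : P s = Q t) : s = t := by
  have := hP.lev s
  rw [h, hQ.lev t] at this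
  exact this.symm

omit [∀ w, Fintype (H.neighborSet w)] in
theorem mix_calib {u : W → ℤ} {P Q : ℤ → W} (hP : Calib H u P) (hQ : Calib H u Q) {a b : ℤ}
    (ha : P a = Q a) (hb : P b = Q b) :
    Calib H u (fun t => if a ≤ t ∧ t ≤ b then P t else Q t) := by
  refine ⟨fun t => ?_, fun t => ?_⟩
  · by_cases h1 : a ≤ t ∧ t ≤ b
    · by_cases h2 : a ≤ t + 1 ∧ t + 1 ≤ b
      · simp only [if_pos h1, if_pos h2]; exact hP.adj t
      · simp only [if_pos h1, if_neg h2]
        have h3 : t = b := by omega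
        rw [h3, hb]; exact hQ.adj b
    · by_cases h2 : a ≤ t + 1 ∧ t + 1 ≤ b
      · simp only [if_neg h1, if_pos h2]
        have h3 : t + 1 = a := by omega
        rw [h3, ha, ← h3]; exact hQ.adj t
      · simp only [if_neg h1, if_neg h2]; exact hQ.adj t
  · split_ifs
    · exact hP.lev t
    · exact hQ.lev t

/-- A walk that avoids the line stays on one side. -/
theorem down_of_walk (hH : H.Connected) (Pl : Plane H) {P : ℤ → W} (hP : IsCurve H P) {x y : W}
    (p : H.Walk x y) (hp : ∀ w ∈ p.support, ∀ t, w ≠ P t) (hy : y ∈ Down Pl P) :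
    x ∈ Down Pl P := by
  induction p with
  | nil => exact hy
  | @cons u v w h p ih =>
    have h1 := ih (fun w hw => hp w (by simp [hw])) hy
    rcases down_adj hH Pl hP h.symm h1 with h2 | ⟨t, h2⟩
    · exact h2
    · exact absurd h2 (hp u (by simp) t)

omit [∀ w, Fintype (H.neighborSet w)] in
/-- Levels along a walk. -/
theorem lev_walk {u : W → ℤ} (hu : ∀ w w', H.Adj w w' → |u w - u w'| ≤ 1) {x y : W}
    (p : H.Walk x y) : ∀ w ∈ p.support, |u x - u w| ≤ p.length := by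
  induction p with
  | nil => intro w hw; simp at hw; simp [hw]
  | @cons a b c h p ih =>
    intro w hw
    rw [Walk.support_cons, List.mem_cons] at hw
    rw [Walk.length_cons]
    push_cast
    rcases hw with rfl | hw
    · simp; positivity
    · have h1 := ih w hw
      have h2 := hu a b h
      rw [abs_le] at h1 h2 ⊢
      omega

/-- A stretch of `Q` below `P` between two common points gives a detour. -/
theorem zdet_of_down (hH : H.Connected) (Pl : Plane H) {u : W → ℤ} {P Q : ℤ → W}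
    (hP : Calib H u P) (hQ : Calib H u Q) {R : Set W} (hR : ∀ t, Q t ∈ R) {J : Set ℤ}
    {m₁ m₂ t₀ : ℤ} (hJ : Set.Icc m₁ m₂ ⊆ J) (h1 : m₁ ≤ t₀) (h2 : t₀ ≤ m₂) (e1 : Q m₁ = P m₁)
    (e2 : Q m₂ = P m₂) (h0 : Q t₀ ∈ Down Pl P) : ¬ NoDet H (R ∩ Down Pl P) P J u := by
  classical
  have hne : Q t₀ ≠ P t₀ := fun h => line_not_down hH Pl hP.isCurve t₀ (h ▸ h0)
  obtain ⟨i, hi, hi2⟩ := Int.exists_greatest_of_bdd (P := fun z => z ≤ t₀ ∧ Q z = P z)
    ⟨t₀, fun z hz => hz.1⟩ ⟨m₁, h1, e1⟩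
  obtain ⟨j, hj, hj2⟩ := Int.exists_least_of_bdd (P := fun z => t₀ ≤ z ∧ Q z = P z)
    ⟨t₀, fun z hz => hz.1⟩ ⟨m₂, h2, e2⟩
  have hi3 : m₁ ≤ i := hi2 m₁ ⟨h1, e1⟩
  have hj3 : j ≤ m₂ := hj2 m₂ ⟨h2, e2⟩
  have hi4 : i < t₀ := lt_of_le_of_ne hi.1 (fun h => hne (h ▸ hi.2))
  have hj4 : t₀ < j := lt_of_le_of_ne hj.1 (fun h => hne (h.symm ▸ hj.2))
  -- `Q` is below `P` between `i` and `j`
  have up : ∀ n : ℕ, t₀ + n < j → Q (t₀ + n) ∈ Down Pl P := by
    intro n
    induction n with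
    | zero => intro _; simpa using h0
    | succ n ih =>
      intro h3
      push_cast at h3 ⊢
      have h4 := ih (by omega)
      rcases down_adj hH Pl hP.isCurve (hQ.adj (t₀ + n)) h4 with h5 | ⟨t, h5⟩
      · rwa [← add_assoc]
      · have h6 := lev_eq hQ hP h5
        have h7 := hj2 (t₀ + n + 1) ⟨by omega, by rw [h5, h6]⟩
        omega
  have dn : ∀ n : ℕ, i < t₀ - n → Q (t₀ - n) ∈ Down Pl P := by
    intro n
    induction n with
    | zero => intro _; simpa using h0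
    | succ n ih =>
      intro h3
      push_cast at h3 ⊢
      have h4 := ih (by omega)
      have h8 := hQ.adj (t₀ - (n + 1))
      rw [show t₀ - ((n : ℤ) + 1) + 1 = t₀ - n by ring] at h8
      rcases down_adj hH Pl hP.isCurve h8.symm h4 with h5 | ⟨t, h5⟩
      · exact h5
      · have h6 := lev_eq hQ hP h5
        have h7 := hi2 (t₀ - (n + 1)) ⟨by omega, by rw [h5, h6]⟩
        omega
  have mid : ∀ t, i < t → t < j → Q t ∈ Down Pl P := by
    intro t h3 h4
    rcases le_total t₀ t with h5 | h5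
    · have := up (t - t₀).toNat (by omega)
      rwa [show t₀ + ((t - t₀).toNat : ℤ) = t by omega] at this
    · have := dn (t₀ - t).toNat (by omega)
      rwa [show t₀ - ((t₀ - t).toNat : ℤ) = t by omega] at this
  rw [noDet_iff]
  push Not
  refine ⟨fun t => if i ≤ t ∧ t ≤ j then Q t else P t, i, j, ?_⟩
  have hc := mix_calib hQ hP hi.2 hj.2
  exact {
    hi := hJ ⟨hi3, by omega⟩
    hj := hJ ⟨by omega, hj3⟩
    hij := by omega
    out := by
      intro t ht
      by_cases h3 : i ≤ t ∧ t ≤ j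
      · simp only [if_pos h3]
        rcases ht with h4 | h4
        · rw [show t = i by omega]; exact hi.2
        · rw [show t = j by omega]; exact hj.2
      · simp only [if_neg h3]
    mem := by
      intro t h3 h4
      simp only [if_pos (show i ≤ t ∧ t ≤ j by omega)]
      exact ⟨⟨hR t, mid t h3 h4⟩, hQ.lev t⟩
    adj := fun t _ _ => hc.adj t }

/-! ### Finiteness -/

variable {C : SCtx G H π}

theorem inv_zpow {R : Set W} (hR : C.Inv R) (n : ℤ) : ∀ w, (C.A ^ n) w ∈ R ↔ w ∈ R := by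
  induction n using Int.induction_on with
  | zero => intro w; rw [zpow_zero]; rfl
  | succ n ih =>
    intro w
    rw [zpow_add_one]
    exact (ih (C.A w)).trans (hR w)
  | pred n ih =>
    intro w
    rw [zpow_sub_one]
    refine (ih (C.A⁻¹ w)).trans ?_
    rw [← hR (C.A⁻¹ w), RelIso.apply_inv_self]

theorem fin_levels {R : Set W} (hR : C.Inv R) (hf : C.FinMod R) (a b : ℤ) :
    {w | w ∈ R ∧ a ≤ C.u w ∧ C.u w ≤ b}.Finite := by
  have hl := C.ℓpos
  refine ((Set.finite_Icc (a / C.ℓ) (b / C.ℓ)).biUnion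
    (fun k _ => Set.Finite.image (fun w => (C.A ^ k) w) hf)).subset ?_
  rintro w ⟨h1, h2, h3⟩
  rw [Set.mem_iUnion₂]
  have h4 := Int.emod_add_mul_ediv (C.u w) C.ℓ
  have h5 := Int.emod_nonneg (C.u w) hl.ne'
  have h6 := Int.emod_lt_of_pos (C.u w) hl
  refine ⟨C.u w / C.ℓ, ⟨Int.ediv_le_ediv hl h2, Int.ediv_le_ediv hl h3⟩,
    (C.A ^ (-(C.u w / C.ℓ))) w, ⟨(inv_zpow hR _ _).2 h1, ?_, ?_⟩, ?_⟩
  · rw [SCtx.u_zpow]; nlinarith
  · rw [SCtx.u_zpow]; nlinarith
  · show (C.A ^ (C.u w / C.ℓ) * C.A ^ (-(C.u w / C.ℓ))) w = w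
    rw [← zpow_add, add_neg_cancel, zpow_zero]
    rfl

theorem per_one {R : Set W} {L : ℤ → W} (hL : C.Line 1 R L) (t : ℤ) :
    L (t + C.ℓ) = C.A (L t) := by
  have := hL.per t
  rwa [one_mul, zpow_one] at this

theorem inv_range {R : Set W} {L : ℤ → W} (hL : C.Line 1 R L) : C.Inv (Set.range L) := by
  intro w
  constructor
  · rintro ⟨s, hs⟩
    refine ⟨s - C.ℓ, C.A.injective ?_⟩
    rw [← per_one hL, sub_add_cancel, hs]
  · rintro ⟨s, rfl⟩
    exact ⟨s + C.ℓ, per_one hL s⟩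

theorem finMod_range {R : Set W} {L : ℤ → W} (hL : C.Line 1 R L) : C.FinMod (Set.range L) := by
  refine ((Set.finite_Icc 0 C.ℓ).image L).subset ?_
  rintro w ⟨⟨s, rfl⟩, h1, h2⟩
  rw [hL.cal.lev] at h1 h2
  exact ⟨s, ⟨h1, h2.le⟩, rfl⟩

/-- A bound for the distance to `K` of the vertices of the closed strip. -/
theorem exists_bound {R : Set W} {L U : ℤ → W} {cL cU : W → ℤ} (hX : C.XStrip R L U cL cU)
    {K : ℤ → W} (hK : C.Line 1 R K) : ∃ ρ : ℕ, ∀ w, w ∈ R ∨ w ∈ Set.range L ∨ w ∈ Set.range U →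
      ∃ (t : ℤ) (p : H.Walk w (K t)), p.length ≤ ρ := by
  have h1 : C.Inv (R ∪ (Set.range L ∪ Set.range U)) := fun w =>
    or_congr (hX.inv w) (or_congr (inv_range hX.lineL w) (inv_range hX.lineU w))
  have h2 : C.FinMod (R ∪ (Set.range L ∪ Set.range U)) := by
    refine (hX.fin.union ((finMod_range hX.lineL).union (finMod_range hX.lineU))).subset ?_
    rintro w ⟨h3 | h3 | h3, h4⟩
    · exact Or.inl ⟨h3, h4⟩
    · exact Or.inr (Or.inl ⟨h3, h4⟩)
    · exact Or.inr (Or.inr ⟨h3, h4⟩)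
  exact SCtx.exists_rho h1 h2 ⟨hK.cal, hK.per, fun t => Set.mem_univ _⟩

/-! ### The lines of the window -/

/-- `P` is a line weakly above `K` that is equal to `K` outside `[m₁, m₂]`. -/
structure Good (C : SCtx G H π) (R : Set W) (K : ℤ → W) (m₁ m₂ : ℤ) (P : ℤ → W) : Prop where
  cal : Calib H C.u P
  mem : ∀ t, P t ∈ R
  out : ∀ t, t ≤ m₁ ∨ m₂ ≤ t → P t = K t
  le : Le C.Pl K P

theorem good_finite {R : Set W} (hR : C.Inv R) (hf : C.FinMod R) (K : ℤ → W) (m₁ m₂ : ℤ) :
    {P | Good C R K m₁ m₂ P}.Finite := by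
  classical
  refine Set.Finite.of_finite_image (f := fun P (t : Set.Icc m₁ m₂) => P t.1) ?_ ?_
  · refine (Set.Finite.pi' (t := fun _ : Set.Icc m₁ m₂ => {w | w ∈ R ∧ m₁ ≤ C.u w ∧ C.u w ≤ m₂})
      (fun _ => fin_levels hR hf m₁ m₂)).subset ?_
    rintro f ⟨P, hP, rfl⟩ ⟨t, ht⟩
    exact ⟨hP.mem t, by rw [hP.cal.lev]; exact ht.1, by rw [hP.cal.lev]; exact ht.2⟩
  · intro P (hP : Good C R K m₁ m₂ P) Q (hQ : Good C R K m₁ m₂ Q) h
    funext t
    by_cases ht : m₁ ≤ t ∧ t ≤ m₂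
    · exact congrFun h ⟨t, ht⟩
    · rw [hP.out t (by omega), hQ.out t (by omega)]

variable {R : Set W} {L U K P : ℤ → W} {cL cU : W → ℤ} {m₁ m₂ : ℤ}

theorem coh (hK : C.Line 1 R K) (hg : Good C R K m₁ m₂ P) : Coherent C.Pl K P :=
  coherent_of_common_arc C.hH C.Pl hK.cal hg.cal (hg.out m₂ (Or.inr le_rfl)).symm
    (hg.out (m₂ + 1) (Or.inr (by omega))).symm

theorem eq_or_det (hK : C.Line 1 R K) (hg : Good C R K m₁ m₂ P)
    (hd : NoDet H (R ∩ Down C.Pl P) P (Set.Icc m₁ m₂) C.u) : P = K := by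
  by_contra hne
  have h1 : ∃ t, P t ≠ K t := by
    by_contra h
    push Not at h
    exact hne (funext h)
  obtain ⟨t, ht⟩ := h1
  have h2 := (le_iff' C.hH C.Pl C.lip hK.cal hg.cal (coh hK hg)).1 hg.le t
  rcases h2 with h2 | h2
  · exact ht h2.symm
  · have h3 : ¬ (t ≤ m₁ ∨ m₂ ≤ t) := fun h => ht (hg.out t h)
    exact zdet_of_down C.hH C.Pl hg.cal hK.cal hK.mem (Set.Subset.refl (Set.Icc m₁ m₂))
      (by omega) (by omega) (hg.out m₁ (Or.inl le_rfl)).symm (hg.out m₂ (Or.inr le_rfl)).symm h2 hd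

/-- `U` is not below `P`. -/
theorem not_down_U (hX : C.XStrip R L U cL cU) (hK : C.Line 1 R K)
    {ρ : ℕ} (hρ : ∀ w, w ∈ R ∨ w ∈ Set.range L ∨ w ∈ Set.range U →
      ∃ (t : ℤ) (p : H.Walk w (K t)), p.length ≤ ρ) (hg : Good C R K m₁ m₂ P) (t : ℤ) :
    U t ∉ Down C.Pl P := by
  intro h
  have hup : ∀ n : ℕ, U (t + n) ∈ Down C.Pl P := by
    intro n
    induction n with
    | zero => simpa using h
    | succ n ih =>
      rcases down_adj C.hH C.Pl hg.cal.isCurve (hX.lineU.cal.adj (t + n)) ih with h1 | ⟨s, h1⟩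
      · push_cast; rwa [← add_assoc]
      · have h2 := hg.mem s
        rw [← h1, hX.eqR] at h2
        exact absurd h2.2 (line_not_down C.hH C.Pl hX.lineU.cal.isCurve _)
  obtain ⟨n, hn⟩ : ∃ n : ℕ, m₂ + ρ < t + n := ⟨(m₂ + ρ + 1 - t).toNat, by omega⟩
  have h1 := hup n
  generalize t + (n : ℤ) = t' at h1 hn
  obtain ⟨s, p, hp⟩ := hρ (U t') (Or.inr (Or.inr ⟨t', rfl⟩))
  have h2 : U t' ∈ Up C.Pl K := by
    have hcoh : Coherent C.Pl K U := hK.coherent one_pos one_pos hX.lineU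
    have hKR := hK.mem t'
    rw [hX.eqR] at hKR
    rcases Coherent.level C.hH C.Pl C.lip hK.cal hX.lineU.cal hcoh t' with h3 | h3 | h3
    · rw [h3] at hKR
      exact absurd hKR.2 (line_not_down C.hH C.Pl hX.lineU.cal.isCurve _)
    · exact absurd hKR.2 (not_up_and_down C.hH C.Pl hX.lineU.cal.isCurve h3.1)
    · exact h3.2
  have h3 := (local_side C.hH C.Pl C.lip hK.cal hg.cal (a := m₂) (b := t' + ρ + 1)
    (fun t h1 _ => (hg.out t (Or.inr h1)).symm) p (by rw [hX.lineU.cal.lev]; omega)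
    (by rw [hX.lineU.cal.lev]; omega)).1.1 h2
  exact not_up_and_down C.hH C.Pl hg.cal.isCurve h3 h1

/-- The boundary of the territory. -/
theorem nbr (hX : C.XStrip R L U cL cU) (hK : C.Line 1 R K)
    {ρ : ℕ} (hρ : ∀ w, w ∈ R ∨ w ∈ Set.range L ∨ w ∈ Set.range U →
      ∃ (t : ℤ) (p : H.Walk w (K t)), p.length ≤ ρ) (hg : Good C R K m₁ m₂ P) :
    ∀ r ∈ R ∩ Down C.Pl P, ∀ w, H.Adj r w →
      w ∈ R ∩ Down C.Pl P ∨ w ∈ Set.range L ∨ ∃ t, w = P t := by
  rintro r ⟨h1, h2⟩ w hw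
  rcases down_adj C.hH C.Pl hg.cal.isCurve hw h2 with h3 | h3
  · have h4 := h1
    rw [hX.eqR] at h4
    rcases up_adj C.hH C.Pl hX.lineL.cal.isCurve hw h4.1 with h5 | ⟨t, h5⟩
    · rcases down_adj C.hH C.Pl hX.lineU.cal.isCurve hw h4.2 with h6 | ⟨t, h6⟩
      · left
        refine ⟨?_, h3⟩
        rw [hX.eqR]
        exact ⟨h5, h6⟩
      · rw [h6] at h3
        exact absurd h3 (not_down_U hX hK hρ hg t)
    · exact Or.inr (Or.inl ⟨t, h5.symm⟩)
  · exact Or.inr (Or.inr h3)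

theorem L_not_mem (hX : C.XStrip R L U cL cU) (t : ℤ) : L t ∉ R := by
  intro h
  rw [hX.eqR] at h
  exact line_not_up C.hH C.Pl hX.lineL.cal.isCurve t h.1

/-- The finiteness condition of `min_pocket`. -/
theorem fin_aux (hX : C.XStrip R L U cL cU) (hK : C.Line 1 R K)
    {ρ : ℕ} (hρ : ∀ w, w ∈ R ∨ w ∈ Set.range L ∨ w ∈ Set.range U →
      ∃ (t : ℤ) (p : H.Walk w (K t)), p.length ≤ ρ) (hg : Good C R K m₁ m₂ P)
    {q : ℤ → W} {i j : ℤ} {S₁ : Set H.Dart}
    (hz : ZDet H (R ∩ Down C.Pl P) P (Set.Icc m₁ m₂) C.u q i j)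
    (hS : IsRegion C.Pl.mirror.toRotationSystem (segEdges P i j ∪ segEdges q i j) S₁)
    (hsub : S₁ ⊆ lft C.Pl.mirror P) :
    (R ∩ Down C.Pl P ∩ Ins S₁).Finite ∧ Set.range L ∩ Ins S₁ = ∅ := by
  have hi : m₁ ≤ i := hz.hi.1
  have hj : j ≤ m₂ := hz.hj.2
  have hij := hz.hij
  have hq : ∀ t, i ≤ t → t ≤ j → q t ∈ R ∧ C.u (q t) = t := by
    intro t h1 h2
    by_cases h3 : i < t ∧ t < j
    · exact ⟨(hz.mem t h3.1 h3.2).1.1, (hz.mem t h3.1 h3.2).2⟩
    · rw [hz.out t (by omega)]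
      exact ⟨hg.mem t, hg.cal.lev t⟩
  have hb : ∀ x ∈ {x | ¬ (x ∈ R ∧ i ≤ C.u x ∧ C.u x ≤ j)}, ∀ y, H.Adj x y →
      s(x, y) ∉ segEdges P i j ∪ segEdges q i j := by
    rintro x hx y - (⟨t, h1, h2, h3⟩ | ⟨t, h1, h2, h3⟩)
    · have h4 : x = P t ∨ x = P (t + 1) := by
        rw [Sym2.eq_iff] at h3
        rcases h3 with ⟨h, _⟩ | ⟨h, _⟩
        · exact Or.inl h
        · exact Or.inr h
      rcases h4 with rfl | rfl
      · exact hx ⟨hg.mem t, by rw [hg.cal.lev]; omega, by rw [hg.cal.lev]; omega⟩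
      · exact hx ⟨hg.mem _, by rw [hg.cal.lev]; omega, by rw [hg.cal.lev]; omega⟩
    · have h4 : x = q t ∨ x = q (t + 1) := by
        rw [Sym2.eq_iff] at h3
        rcases h3 with ⟨h, _⟩ | ⟨h, _⟩
        · exact Or.inl h
        · exact Or.inr h
      rcases h4 with rfl | rfl
      · have h5 := hq t h1 h2.le
        exact hx ⟨h5.1, by rw [h5.2]; omega, by rw [h5.2]; omega⟩
      · have h5 := hq (t + 1) (by omega) (by omega)
        exact hx ⟨h5.1, by rw [h5.2]; omega, by rw [h5.2]; omega⟩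
  -- far vertices are not inside
  have hfar : ∀ w, (w ∈ R ∨ w ∈ Set.range L ∨ w ∈ Set.range U) →
      (C.u w < m₁ - ρ ∨ m₂ + ρ < C.u w) → w ∉ Ins S₁ := by
    intro w hw hlev hins
    obtain ⟨t, p, hp⟩ := hρ w hw
    have hl := lev_walk C.lip p
    have h1 : K t ∈ Ins S₁ := by
      refine P3.ins_of_walk _ hS hb p ?_ hins
      intro x hx
      rintro ⟨_, h3, h4⟩
      have h2 := hl x hx
      rw [abs_le] at h2
      omega
    have h2 := hl (K t) p.end_mem_support
    rw [hK.cal.lev, abs_le] at h2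
    rw [← hg.out t (by omega)] at h1
    exact line_not_up C.hH C.Pl.mirror hg.cal.isCurve t (fun d hd => hsub (h1 d hd))
  refine ⟨?_, ?_⟩
  · refine (fin_levels hX.inv hX.fin (m₁ - ρ) (m₂ + ρ)).subset ?_
    rintro w ⟨⟨h1, _⟩, h2⟩
    have h3 := hfar w (Or.inl h1)
    by_contra h4
    exact h3 (by
      by_contra h5
      push Not at h5
      exact h4 ⟨h1, h5.1, h5.2⟩) h2
  · rw [Set.eq_empty_iff_forall_notMem]
    rintro w ⟨⟨t, rfl⟩, h1⟩
    have hup : ∀ n : ℕ, L (t + n) ∈ Ins S₁ := by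
      intro n
      induction n with
      | zero => simpa using h1
      | succ n ih =>
        have h2 := P3.ins_of_walk _ hS hb (Walk.cons (hX.lineL.cal.adj (t + n)) Walk.nil) (by
          intro x hx
          simp only [Walk.support_cons, Walk.support_nil, List.mem_cons, List.not_mem_nil,
            or_false] at hx
          rcases hx with rfl | rfl
          · exact fun h => L_not_mem hX _ h.1
          · exact fun h => L_not_mem hX _ h.1) ih
        push_cast
        rwa [← add_assoc]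
    obtain ⟨n, hn⟩ : ∃ n : ℕ, m₂ + ρ < t + n := ⟨(m₂ + ρ + 1 - t).toNat, by omega⟩
    exact hfar (L (t + n)) (Or.inr (Or.inl ⟨_, rfl⟩))
      (Or.inr (by rw [hX.lineL.cal.lev]; exact hn)) (hup n)

/-- A line with a detour has a pocket, and the rerouted line is again good. -/
theorem exists_pocket (hX : C.XStrip R L U cL cU) (hK : C.Line 1 R K)
    (hd : NoDet H (R ∩ Down C.Pl K) K Set.univ C.u)
    {ρ : ℕ} (hρ : ∀ w, w ∈ R ∨ w ∈ Set.range L ∨ w ∈ Set.range U →
      ∃ (t : ℤ) (p : H.Walk w (K t)), p.length ≤ ρ) (hg : Good C R K m₁ m₂ P)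
    (hdet : ¬ NoDet H (R ∩ Down C.Pl P) P (Set.Icc m₁ m₂) C.u) :
    ∃ (q : ℤ → W) (i j : ℤ) (D O : Set W),
      Pocket H (R ∩ Down C.Pl P) D O P q Set.univ C.u i j ∧ Good C R K m₁ m₂ q ∧
      O ⊆ R ∩ Down C.Pl q ∧ lft C.Pl P ⊂ lft C.Pl q := by
  have hPc := hg.cal.isCurve
  have hinj : ∀ s t, P s = P t → s = t := fun s t h => lev_eq hg.cal hg.cal h
  have hpot : Potential H (R ∩ Down C.Pl P) P Set.univ C.u := by
    refine ⟨fun r _ r' _ h => C.lip r r' h, fun r _ t _ h => ?_⟩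
    have := C.lip r (P t) h
    rwa [hg.cal.lev] at this
  obtain ⟨q, i, j, S₁, S₂, hpk, hr1, hr2, hun, hdis, hori⟩ := min_pocket C.hH C.Pl.mirror
    hPc (isLeft_lft C.hH C.Pl.mirror hPc) (R := R ∩ Down C.Pl P) (Z := Set.range L) (P := P)
    (J := Set.Icc m₁ m₂) (s := C.u) Set.ordConnected_Icc (fun _ _ => rfl)
    (fun s _ t _ h => hinj s t h) (fun t => Or.inr (hg.cal.adj t))
    ⟨hpot.lip, fun r hr t _ h => hpot.near r hr t (Set.mem_univ t) h⟩
    (by
      intro w hw
      have h1 : w ∈ Up C.Pl.mirror P := by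
        rw [up_mirror C.hH C.Pl hPc]
        exact hw.2
      exact h1)
    (nbr hX hK hρ hg)
    (by
      rintro z ⟨s, rfl⟩ t h
      exact L_not_mem hX s (h ▸ hg.mem t))
    (fun q i j S₁ hz hS hsub => fin_aux hX hK hρ hg hz hS hsub) hdet
  have hi : m₁ ≤ i := hpk.det.hi.1
  have hj : j ≤ m₂ := hpk.det.hj.2
  have hij := hpk.det.hij
  have hS₂ : S₂ ⊆ lft C.Pl.mirror P := by rw [hun]; exact Set.subset_union_right
  -- the new line
  have hqcal : Calib H C.u q := by
    refine ⟨fun t => ?_, fun t => ?_⟩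
    · by_cases h : i ≤ t ∧ t < j
      · exact hpk.det.adj t h.1 h.2
      · rw [hpk.det.out t (by omega), hpk.det.out (t + 1) (by omega)]
        exact hg.cal.adj t
    · by_cases h : i < t ∧ t < j
      · exact (hpk.det.mem t h.1 h.2).2
      · rw [hpk.det.out t (by omega)]
        exact hg.cal.lev t
  have hqR : ∀ t, q t ∈ R := by
    intro t
    by_cases h : i < t ∧ t < j
    · exact (hpk.det.mem t h.1 h.2).1.1
    · rw [hpk.det.out t (by omega)]
      exact hg.mem t
  have hqout : ∀ t, t ≤ m₁ ∨ m₂ ≤ t → q t = K t := by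
    intro t ht
    rw [hpk.det.out t (by omega)]
    exact hg.out t ht
  have hqle : Le C.Pl K q := by
    intro t
    by_contra hcon
    push Not at hcon
    rcases up_or_down C.hH C.Pl hK.cal.isCurve (q t) with h1 | h1 | ⟨s, h1⟩
    · exact hcon.2 h1
    · have h3 : ¬ (t ≤ m₁ ∨ m₂ ≤ t) := fun h => hcon.1 (hqout t h)
      exact zdet_of_down C.hH C.Pl hK.cal hqcal hqR (Set.subset_univ (Set.Icc m₁ m₂))
        (by omega) (by omega) (hqout m₁ (Or.inl le_rfl)) (hqout m₂ (Or.inr le_rfl)) h1 hd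
    · have h2 := lev_eq hqcal hK.cal h1
      exact hcon.1 (by rw [h1, h2])
  have hleft : IsLeft C.Pl.mirror.toRotationSystem q S₂ := by
    refine ⟨hr2.1, ?_, ?_⟩
    · intro t d h1 h2
      by_cases h : i ≤ t ∧ t < j
      · refine ⟨(hori t d h.1 h.2 h1 h2).1, fun h3 => ?_⟩
        exact Set.disjoint_left.1 hdis (hori t d h.1 h.2 h1 h2).2 h3
      · have hleft := (isLeft_lft C.hH C.Pl.mirror hPc).left t d
          (by rw [h1, hpk.det.out t (by omega)])
          (by rw [h2, hpk.det.out (t + 1) (by omega)])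
        have h3 : d.symm ∉ S₂ := fun h3 => hleft.2 (hS₂ h3)
        refine ⟨?_, h3⟩
        have h4 : ¬ (d ∈ S₂ ↔ d.symm ∈ S₂) := by
          rw [hr2.2 d, not_not]
          left
          have h5 : d.edge = s(P t, P (t + 1)) := by
            rw [P2.edge_eq h1 h2, hpk.det.out t (by omega), hpk.det.out (t + 1) (by omega)]
          refine ⟨⟨t, h5⟩, ?_⟩
          rintro ⟨s, h6, h7, h8⟩
          rw [h5, Sym2.eq_iff] at h8
          rcases h8 with ⟨h8, _⟩ | ⟨h8, h9⟩
          · have := hinj _ _ h8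
            omega
          · have := hinj _ _ h8
            have := hinj _ _ h9
            omega
        by_contra h5
        exact h4 ⟨fun h6 => absurd h6 h5, fun h6 => absurd h6 h3⟩
    · intro d hd'
      rw [hr2.2 d]
      rintro (⟨⟨t, h1⟩, h2⟩ | ⟨t, h1, h2, h3⟩)
      · have h3 : ¬ (i ≤ t ∧ t < j) := fun h => h2 ⟨t, h.1, h.2, h1⟩
        rw [← hpk.det.out t (by omega), ← hpk.det.out (t + 1) (by omega)] at h1
        rcases P2.edge_cases h1 with h4 | h4
        · exact (hd' t).1 h4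
        · exact (hd' t).2 h4
      · rcases P2.edge_cases h3 with h4 | h4
        · exact (hd' t).1 h4
        · exact (hd' t).2 h4
  have hS₂' := lft_eq C.hH C.Pl.mirror hqcal.isCurve hleft
  have hlft : lft C.Pl P ⊆ lft C.Pl q := by
    intro d hd'
    by_contra hcon
    have h1 : d.symm ∈ lft C.Pl.mirror q := by
      rw [lft_mirror C.hH C.Pl hqcal.isCurve]
      show d.symm.symm ∉ _
      rwa [Dart.symm_symm]
    rw [← hS₂'] at h1
    have h2 := hS₂ h1
    rw [lft_mirror C.hH C.Pl hPc] at h2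
    apply h2
    rwa [Dart.symm_symm]
  have hne : lft C.Pl P ≠ lft C.Pl q := by
    intro h
    have h1 := lft_inj C.hH C.Pl hg.cal hqcal h
    have h2 := (hpk.det.mem (i + 1) (by omega) (by omega)).1.2
    rw [← h1] at h2
    exact line_not_down C.hH C.Pl hPc _ h2
  refine ⟨q, i, j, (R ∩ Down C.Pl P) ∩ Ins S₁, (R ∩ Down C.Pl P) ∩ Ins S₂, ?_,
    ⟨hqcal, hqR, hqout, hqle⟩, ?_, hlft, fun h => hne (Set.Subset.antisymm hlft h)⟩
  · exact {
      pot := hpot
      walk := hpk.walk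
      det := ⟨Set.mem_univ _, Set.mem_univ _, hpk.det.hij, hpk.det.out, hpk.det.mem, hpk.det.adj⟩
      hJ := Set.subset_univ _
      part := hpk.part
      subD := hpk.subD
      subO := hpk.subO
      disj := hpk.disj
      qD := hpk.qD
      sep := hpk.sep
      nD := hpk.nD
      nO := by
        intro x hx t _ hxt
        by_cases h : m₁ ≤ t ∧ t ≤ m₂
        · exact hpk.nO x hx t h hxt
        · omega
      finD := hpk.finD
      chord := hpk.chord
      strict := hpk.strict }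
  · rintro w ⟨⟨h1, _⟩, h2⟩
    refine ⟨h1, ?_⟩
    rw [← up_mirror C.hH C.Pl hqcal.isCurve]
    show w ∈ Ins (lft C.Pl.mirror q)
    rwa [← hS₂']

/-! ### The positions -/

/-- If the trio is on `K` then the position is in a smaller strip. -/
theorem stripPos_of_trio (hX : C.XStrip R L U cL cU) (hK : C.Line 1 R K)
    (hd : NoDet H (R ∩ Down C.Pl K) K Set.univ C.u) {r : W} {c : Fin 7 → V}
    (h : Locked (R ∩ Down C.Pl K) (appF (trio π K C.u) (pair π L cL)) r c) :
    C.StripPos (C.size R) r c := by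
  have hpot : Potential H (R ∩ Down C.Pl K) K Set.univ C.u := by
    refine ⟨fun r _ r' _ h => C.lip r r' h, fun r _ t _ h => ?_⟩
    have := C.lip r (K t) h
    rwa [hK.cal.lev] at this
  have hp := pairFun_cTo hpot hd
  obtain ⟨h1, h2⟩ := SCtx.substrip_down hX hK hd hp
  refine ⟨_, _, _, _, _, h1, h2, h.1, ?_⟩
  rcases hp.val r with hc | hc
  · refine h.2.sub ⟨![3, 4, 0, 1], by decide⟩ ?_
    intro i
    fin_cases i
    · rfl
    · rfl
    · show π (K (C.u r - 1)) = π (K (cTo H (R ∩ Down C.Pl K) K Set.univ C.u r))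
      rw [hc]
    · show π (K (C.u r)) = π (K (cTo H (R ∩ Down C.Pl K) K Set.univ C.u r + 1))
      rw [hc, sub_add_cancel]
  · refine h.2.sub ⟨![3, 4, 1, 2], by decide⟩ ?_
    intro i
    fin_cases i
    · rfl
    · rfl
    · show π (K (C.u r)) = π (K (cTo H (R ∩ Down C.Pl K) K Set.univ C.u r))
      rw [hc]
    · show π (K (C.u r + 1)) = π (K (cTo H (R ∩ Down C.Pl K) K Set.univ C.u r + 1))
      rw [hc]

/-- The induction on the lines of the window. -/
theorem descend (hX : C.XStrip R L U cL cU) (hK : C.Line 1 R K)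
    (hd : NoDet H (R ∩ Down C.Pl K) K Set.univ C.u)
    {ρ : ℕ} (hρ : ∀ w, w ∈ R ∨ w ∈ Set.range L ∨ w ∈ Set.range U →
      ∃ (t : ℤ) (p : H.Walk w (K t)), p.length ≤ ρ) (n : ℕ) :
    ∀ P, Good C R K m₁ m₂ P → {Q | Good C R K m₁ m₂ Q ∧ lft C.Pl P ⊆ lft C.Pl Q}.ncard = n →
      ∀ (r : W) (c : Fin 7 → V),
      Locked (R ∩ Down C.Pl P) (appF (trio π P C.u) (pair π L cL)) r c →
      Forces G H π (fun r c => Win G H π r c ∨ C.StripPos (C.size R) r c) r c := by
  induction n using Nat.strong_induction_on with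
  | _ n ih =>
    intro P hg hn r c hl
    by_cases hdet : NoDet H (R ∩ Down C.Pl P) P (Set.Icc m₁ m₂) C.u
    · have h1 := eq_or_det hK hg hdet
      subst h1
      exact Forces.now (Or.inr (stripPos_of_trio hX hK hd hl))
    · obtain ⟨q, i, j, D, O, hpk, hq, hO, hlt⟩ := exists_pocket hX hK hd hρ hg hdet
      have hfin := good_finite hX.inv hX.fin K m₁ m₂
      refine Forces.trans ?_ (pocket_shift C.cover C.hG hpk (pair π L cL) ?_ ?_ hl)
      · rintro r' c' (h1 | ⟨h1, -⟩)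
        · refine Forces.now (Or.inl (pocket_win C.cover C.hG C.hH C.Pl hpk
            (fun t _ _ => hg.cal.adj t) (fun t t' _ _ _ _ h => lev_eq hg.cal hg.cal h)
            (fun t _ _ h => line_not_down C.hH C.Pl hg.cal.isCurve t h.2) h1))
        · refine ih _ ?_ q hq rfl r' c' ⟨hO h1.1, h1.2⟩
          rw [← hn]
          apply Set.ncard_lt_ncard _ (hfin.subset fun Q hQ => hQ.1)
          refine ⟨fun Q hQ => ⟨hQ.1, hlt.1.trans hQ.2⟩, fun h => ?_⟩
          exact hlt.2 (h ⟨hg, Set.Subset.refl _⟩).2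
      · intro a r hr r' hr' h
        have hLw : ∀ t, Step H (L t) (L (t + 1)) := fun t => Or.inr (hX.lineL.cal.adj t)
        exact D3.pair_lip C.cover hLw hX.pL.lip a r hr.1 r' hr'.1 h
      · intro r hr y hy hyR
        rcases nbr hX hK hρ hg r hr y hy with h1 | ⟨t, h1⟩ | ⟨t, h1⟩
        · exact absurd h1 hyR
        · right
          subst h1
          exact D3.pair_cov hX.pL hr.1 (Set.mem_univ t) hy
        · exact Or.inl ⟨t, Set.mem_univ t, h1⟩

end WIN

namespace SCtx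

variable {C : SCtx G H π}

theorem window {R : Set W} {L U : ℤ → W} {cL cU : W → ℤ} (hX : C.XStrip R L U cL cU)
    {K : ℤ → W} (hK : C.Line 1 R K) (hd : NoDet H (R ∩ Down C.Pl K) K Set.univ C.u) :
    ∃ T₀ : ℤ, ∀ (N : ℤ) (Λ : ℤ → W) (a b : ℤ), 0 < N → C.Line N R Λ → Le C.Pl K Λ →
      a + T₀ ≤ b → b ≤ a + N * C.ℓ → (∀ t, a ≤ t → t ≤ b → Λ t = K t) →
      ∀ (r : W) (c : Fin 7 → V),
      Locked (R ∩ Down C.Pl Λ) (appF (trio π Λ C.u) (pair π L cL)) r c →
      Forces G H π (fun r c => Win G H π r c ∨ C.StripPos (C.size R) r c) r c := by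
  classical
  obtain ⟨ρ, hρ⟩ := WIN.exists_bound hX hK
  refine ⟨2 * ρ + 4, ?_⟩
  intro N Λ a b hN hΛ hle hab hba heq r c hl
  have hNl : 0 < N * C.ℓ := mul_pos hN C.ℓpos
  -- the stretches
  have hKper : ∀ (k t : ℤ), K (t + k * C.ℓ) = (C.A ^ k) (K t) := by
    intro k
    induction k using Int.induction_on with
    | zero => intro t; simp
    | succ n ih =>
      intro t
      rw [add_mul, one_mul, ← add_assoc, WIN.per_one hK, ih, add_comm (n : ℤ) 1, zpow_add, zpow_one]
      rfl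
    | pred n ih =>
      intro t
      apply C.A.injective
      rw [← WIN.per_one hK, sub_mul, one_mul, ← add_sub_assoc, sub_add_cancel, ih]
      show _ = (C.A * C.A ^ (-(n : ℤ) - 1)) (K t)
      rw [← zpow_one_add]
      congr 2
      ring
  have hΛper : ∀ (k t : ℤ), Λ (t + k * (N * C.ℓ)) = (C.A ^ (k * N)) (Λ t) := by
    intro k
    induction k using Int.induction_on with
    | zero => intro t; simp
    | succ n ih =>
      intro t
      rw [add_mul, one_mul, ← add_assoc, hΛ.per, ih]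
      show (C.A ^ N * C.A ^ ((n : ℤ) * N)) (Λ t) = _
      rw [← zpow_add]
      congr 2
      ring
    | pred n ih =>
      intro t
      apply (C.A ^ N).injective
      rw [← hΛ.per, sub_mul, one_mul, ← add_sub_assoc, sub_add_cancel, ih]
      show _ = (C.A ^ N * C.A ^ ((-(n : ℤ) - 1) * N)) (Λ t)
      rw [← zpow_add]
      congr 2
      ring
  have hstretch : ∀ k t : ℤ, a + k * (N * C.ℓ) ≤ t → t ≤ b + k * (N * C.ℓ) → Λ t = K t := by
    intro k t h1 h2
    have h3 := heq (t - k * (N * C.ℓ)) (by omega) (by omega)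
    have h4 := hΛper k (t - k * (N * C.ℓ))
    have h5 := hKper (k * N) (t - k * (N * C.ℓ))
    rw [sub_add_cancel] at h4
    rw [mul_assoc, sub_add_cancel] at h5
    rw [h4, h5, h3]
  -- the window of the robber
  obtain ⟨k, hk1, hk2⟩ : ∃ k : ℤ, a + k * (N * C.ℓ) + ρ + 1 ≤ C.u r ∧
      C.u r < a + (k + 1) * (N * C.ℓ) + ρ + 1 := by
    have h1 := Int.emod_add_mul_ediv (C.u r - a - ρ - 1) (N * C.ℓ)
    have h2 := Int.emod_nonneg (C.u r - a - ρ - 1) hNl.ne'
    have h3 := Int.emod_lt_of_pos (C.u r - a - ρ - 1) hNl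
    refine ⟨(C.u r - a - ρ - 1) / (N * C.ℓ), ?_, ?_⟩
    · nlinarith
    · nlinarith
  have e1 : (k + 1) * (N * C.ℓ) = k * (N * C.ℓ) + N * C.ℓ := by ring
  set a₁ := a + k * (N * C.ℓ) with ha₁
  set m₁ := b + k * (N * C.ℓ) with hm₁
  set m₂ := a + (k + 1) * (N * C.ℓ) with hm₂
  set b₂ := b + (k + 1) * (N * C.ℓ) with hb₂
  have hΛ1 : ∀ t, a₁ ≤ t → t ≤ m₁ → Λ t = K t := hstretch k
  have hΛ2 : ∀ t, m₂ ≤ t → t ≤ b₂ → Λ t = K t := hstretch (k + 1)
  set Λ' : ℤ → W := fun t => if m₁ ≤ t ∧ t ≤ m₂ then Λ t else K t with hΛ'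
  have hcal : Calib H C.u Λ' := WIN.mix_calib hΛ.cal hK.cal (hΛ1 m₁ (by omega) le_rfl)
    (hΛ2 m₂ le_rfl (by omega))
  have hagree : ∀ t, a₁ ≤ t → t ≤ b₂ → Λ' t = Λ t := by
    intro t h1 h2
    by_cases h : m₁ ≤ t ∧ t ≤ m₂
    · simp only [hΛ', if_pos h]
    · simp only [hΛ', if_neg h]
      by_cases h3 : t ≤ m₁
      · exact (hΛ1 t h1 h3).symm
      · exact (hΛ2 t (by omega) h2).symm
  have hg : WIN.Good C R K m₁ m₂ Λ' := by
    refine ⟨hcal, fun t => ?_, fun t ht => ?_, fun t => ?_⟩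
    · simp only [hΛ']
      split_ifs
      · exact hΛ.mem t
      · exact hK.mem t
    · by_cases h : m₁ ≤ t ∧ t ≤ m₂
      · simp only [hΛ', if_pos h]
        rcases ht with ht | ht
        · exact hΛ1 t (by omega) ht
        · exact hΛ2 t ht (by omega)
      · simp only [hΛ', if_neg h]
    · simp only [hΛ']
      split_ifs
      · exact hle t
      · exact Or.inl rfl
  -- the robber is below `Λ'`
  have hdown : r ∈ Down C.Pl Λ' := by
    obtain ⟨t, p, hp⟩ := hρ r (Or.inl hl.1.1)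
    have hlev := WIN.lev_walk C.lip p
    by_cases hmeet : ∃ w ∈ p.support, ∃ s, w = Λ' s
    · obtain ⟨w, hw, s, rfl⟩ := hmeet
      have h2 : (p.takeUntil _ hw).length ≤ ρ := (p.length_takeUntil_le_length hw).trans hp
      exact (local_side C.hH C.Pl C.lip hcal hΛ.cal hagree (p.takeUntil _ hw) (by omega)
        (by omega)).2.2 hl.1.2
    · push Not at hmeet
      refine WIN.down_of_walk C.hH C.Pl hcal.isCurve p hmeet ?_
      have h1 := (le_iff' C.hH C.Pl C.lip hK.cal hcal (WIN.coh hK hg)).1 hg.le t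
      exact h1.resolve_left (fun h => hmeet _ p.end_mem_support t h)
  refine WIN.descend hX hK hd hρ _ Λ' hg rfl r c ⟨⟨hl.1.1, hdown⟩, ?_⟩
  have h1 : (fun i => appF (trio π Λ' C.u) (pair π L cL) i r) =
      fun i => appF (trio π Λ C.u) (pair π L cL) i r := by
    funext i
    fin_cases i
    · show π (Λ' (C.u r - 1)) = π (Λ (C.u r - 1))
      rw [hagree _ (by omega) (by omega)]
    · show π (Λ' (C.u r)) = π (Λ (C.u r))
      rw [hagree _ (by omega) (by omega)]
    · show π (Λ' (C.u r + 1)) = π (Λ (C.u r + 1))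
      rw [hagree _ (by omega) (by omega)]
    · rfl
    · rfl
  rw [h1]
  exact hl.2

end SCtx

end Pool.Agent.MP_f5837d_co
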