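import Pool.Agent.Lib.MP_f5837d_co.L2
import Pool.Agent.Lib.MP_f5837d_co.WIN

/-!
# One reduction of a strip that contains a periodic line
-/

set_option autoImplicit false

namespace Pool.Agent.MP_f5837d_co

open SimpleGraph

variable {V W : Type*} {G : SimpleGraph V} {H : SimpleGraph W} {π : W → V}

theorem appF_lip {R : Set W} {k m : ℕ} {g : Fin k → W → V} {e : Fin m → W → V}
    (hg : ∀ i, ∀ r ∈ R, ∀ r' ∈ R, H.Adj r r' → Step G (g i r) (g i r'))
    (he : ∀ i, ∀ r ∈ R, ∀ r' ∈ R, H.Adj r r' → Step G (e i r) (e i r')) :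
    ∀ i, ∀ r ∈ R, ∀ r' ∈ R, H.Adj r r' → Step G (appF g e i r) (appF g e i r') := by
  intro i
  refine Fin.addCases (fun i => ?_) (fun i => ?_) i
  · simpa [appF] using hg i
  · simpa [appF] using he i

theorem step_of_abs {P : ℤ → V} (hP : ∀ t, Step G (P t) (P (t + 1))) {x y : ℤ}
    (h : |x - y| ≤ 1) : Step G (P x) (P y) := by
  have : x = y ∨ y = x + 1 ∨ x = y + 1 := by
    rw [abs_le] at h; omega
  rcases this with h | h | h
  · exact Or.inl (by rw [h])
  · rw [h]; exact hP x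
  · rw [h]; exact (hP y).symm

theorem trio_lip (hπ : IsCover G H π) {P : ℤ → W} (hP : ∀ t, Step H (P t) (P (t + 1)))
    {R : Set W} {s : W → ℤ} (hs : Lip H R s) :
    ∀ i, ∀ r ∈ R, ∀ r' ∈ R, H.Adj r r' → Step G (trio π P s i r) (trio π P s i r') := by
  have hP' : ∀ t, Step G (π (P t)) (π (P (t + 1))) := fun t => Step.map hπ (hP t)
  intro i r hr r' hr' hadj
  have h := hs r hr r' hr' hadj
  fin_cases i
  · exact step_of_abs (P := fun t => π (P t)) hP' (by simpa using h)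
  · exact step_of_abs (P := fun t => π (P t)) hP' (by simpa using h)
  · exact step_of_abs (P := fun t => π (P t)) hP' (by simpa using h)

variable [∀ w, Fintype (H.neighborSet w)]

namespace SCtx

variable {C : SCtx G H π}

theorem Line.not_all_down {N M : ℤ} (hN : 0 < N) (hM : 0 < M) {R : Set W} {K Λ : ℤ → W}
    (hK : C.Line N R K) (hΛ : C.Line M R Λ) (hle : Le C.Pl.mirror Λ K) :
    ¬ ∀ t, Λ t ∈ Down C.Pl K := by
  intro hall
  have hcoh := Line.coherent hN hM hK hΛ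
  rcases hle 0 with h | h
  · have := hall 0
    rw [← h] at this
    exact line_not_down C.hH C.Pl hK.cal.isCurve 0 this
  · rw [up_mirror C.hH C.Pl hΛ.cal.isCurve] at h
    rcases Coherent.level C.hH C.Pl C.lip hK.cal hΛ.cal hcoh 0 with h' | ⟨h', -⟩ | ⟨-, h'⟩
    · rw [h'] at h
      exact line_not_down C.hH C.Pl hΛ.cal.isCurve 0 h
    · exact not_up_and_down C.hH C.Pl hΛ.cal.isCurve h' h
    · exact not_up_and_down C.hH C.Pl hK.cal.isCurve h' (hall 0)

theorem Line.not_all_up {N M : ℤ} (hN : 0 < N) (hM : 0 < M) {R : Set W} {K Λ : ℤ → W}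
    (hK : C.Line N R K) (hΛ : C.Line M R Λ) (hle : Le C.Pl Λ K) :
    ¬ ∀ t, Λ t ∈ Up C.Pl K := by
  intro hall
  have hcoh := Line.coherent hN hM hK hΛ
  rcases hle 0 with h | h
  · have := hall 0
    rw [← h] at this
    exact line_not_up C.hH C.Pl hK.cal.isCurve 0 this
  · rcases Coherent.level C.hH C.Pl C.lip hK.cal hΛ.cal hcoh 0 with h' | ⟨-, h'⟩ | ⟨h', -⟩
    · rw [h'] at h
      exact line_not_up C.hH C.Pl hΛ.cal.isCurve 0 h
    · exact not_up_and_down C.hH C.Pl hK.cal.isCurve (hall 0) h'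
    · exact not_up_and_down C.hH C.Pl hΛ.cal.isCurve h h'

/-- One reduction of a strip that contains a periodic line. -/
theorem strip_step {R : Set W} {L U : ℤ → W} {cL cU : W → ℤ} (hX : C.XStrip R L U cL cU)
    (hex : ∃ Λ, C.Line 1 R Λ) {r : W} {c : Fin 7 → V}
    (h : Locked R (appF (pair π L cL) (pair π U cU)) r c) :
    Forces G H π (fun r c => Win G H π r c ∨ C.StripPos (C.size R) r c) r c := by
  have hR := hX.inv
  obtain ⟨Λ₀, h0, hterm⟩ := exists_terminal hR hX.fin hex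
  have hcfin : {Λ | C.Line 1 R Λ ∧ C.RL R Λ₀ Λ ∧ C.RL R Λ Λ₀}.Finite :=
    (lines_finite hX.fin).subset (fun Λ h => h.1)
  obtain ⟨K', hK', h0K', hK'0, hmax, hd'⟩ := extremes hR h0 hcfin
  have hcfin' : {Λ | C.mirror.Line 1 R Λ ∧ C.mirror.RL R Λ₀ Λ ∧ C.mirror.RL R Λ Λ₀}.Finite :=
    (lines_finite hX.fin).subset (fun Λ h => line_mirror.1 h.1)
  obtain ⟨K, hK, h0K, hK0, hmin, hd⟩ :=
    extremes (C := C.mirror) (R := R) hR (line_mirror.2 h0) hcfin'
  have hK := line_mirror.1 hK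
  replace h0K : C.RL R Λ₀ K := h0K
  replace hK0 : C.RL R K Λ₀ := hK0
  have hd : NoDet H (R ∩ Down C.Pl K) K Set.univ C.u := by
    have h := hd
    change NoDet H (R ∩ Up C.Pl.mirror K) K Set.univ C.u at h
    rwa [up_mirror C.hH C.Pl hK.cal.isCurve] at h
  have hmin' : ∀ (N : ℤ) (Γ : ℤ → W), 0 < N → C.Line N R Γ → C.RL R Λ₀ Γ → C.RL R Γ Λ₀ →
      Le C.Pl.mirror Γ K := fun N Γ hN hΓ h1 h2 => hmin N Γ hN (line_mirror.2 hΓ) h1 h2
  -- the constants
  obtain ⟨T₁, hT₁⟩ := strip_train hX hK hK' hd hd'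
    (fun Λ hΛ hKΛ => by
      have h1 : C.RL R Λ₀ Λ := rl_trans hR one_pos one_pos hK hΛ h0K hKΛ
      exact Line.not_all_down one_pos one_pos hK hΛ (hmin' 1 Λ one_pos hΛ h1 (hterm Λ hΛ h1)))
    (fun Λ hΛ hKΛ => by
      have h1 : C.RL R Λ₀ Λ := rl_trans hR one_pos one_pos hK' hΛ h0K' hKΛ
      exact Line.not_all_up one_pos one_pos hK' hΛ (hmax 1 Λ one_pos hΛ h1 (hterm Λ hΛ h1)))
  obtain ⟨T₂, hT₂⟩ := window hX hK hd
  have hdm : NoDet H (R ∩ Down C.mirror.Pl K') K' Set.univ C.mirror.u := by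
    change NoDet H (R ∩ Down C.Pl.mirror K') K' Set.univ C.u
    rwa [down_mirror C.hH C.Pl hK'.cal.isCurve]
  obtain ⟨T₃, hT₃⟩ := window (C := C.mirror) hX.mirror (line_mirror.2 hK') hdm
  have hKK' : C.RL R K K' := rl_trans hR one_pos one_pos h0 hK' hK0 h0K'
  have hK'K : C.RL R K' K := rl_trans hR one_pos one_pos h0 hK hK'0 h0K
  obtain ⟨N, Λ, a, b, a', b', hN, hΛ, hab, hba', ha'b', hb'a, hΛK, hΛK'⟩ :=
    exists_star hR hK hK' hKK' hK'K (max (max T₁ T₂) (max T₃ 0))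
  have hT1 : T₁ ≤ max (max T₁ T₂) (max T₃ 0) := le_trans (le_max_left _ _) (le_max_left _ _)
  have hT2 : T₂ ≤ max (max T₁ T₂) (max T₃ 0) := le_trans (le_max_right _ _) (le_max_left _ _)
  have hT3 : T₃ ≤ max (max T₁ T₂) (max T₃ 0) := le_trans (le_max_left _ _) (le_max_right _ _)
  have hT0 : 0 ≤ max (max T₁ T₂) (max T₃ 0) := le_trans (le_max_right _ _) (le_max_right _ _)
  set T := max (max T₁ T₂) (max T₃ 0) with hTdef
  have hKΛ : C.RL R K Λ := ⟨a, a, by rw [hΛK a le_rfl (by omega)]⟩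
  have hΛK0 : C.RL R Λ K := ⟨a, a, by rw [hΛK a le_rfl (by omega)]⟩
  have h0Λ : C.RL R Λ₀ Λ := rl_trans hR one_pos hN hK hΛ h0K hKΛ
  have hΛ0 : C.RL R Λ Λ₀ := rl_trans hR one_pos one_pos hK h0 hΛK0 hK0
  have hleK : Le C.Pl K Λ := by
    rw [le_iff' C.hH C.Pl C.lip hK.cal hΛ.cal (Line.coherent one_pos hN hK hΛ)]
    intro t
    have := hmin' N Λ hN hΛ h0Λ hΛ0 t
    rwa [up_mirror C.hH C.Pl hΛ.cal.isCurve] at this
  have hleK' : Le C.mirror.Pl K' Λ := by
    have h1 := hmax N Λ hN hΛ h0Λ hΛ0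
    rw [le_iff' C.hH C.Pl C.lip hΛ.cal hK'.cal (Line.coherent hN one_pos hΛ hK')] at h1
    intro t
    change Λ t = K' t ∨ Λ t ∈ Up C.Pl.mirror K'
    rw [up_mirror C.hH C.Pl hK'.cal.isCurve]
    exact h1 t
  -- robber off the line, trio on the line
  have hoff : ∀ r c, Locked R (appF (trio π Λ C.u) (appF (pair π L cL) (pair π U cU))) r c →
      (∀ t, r ≠ Λ t) → Forces G H π (fun r c => Win G H π r c ∨ C.StripPos (C.size R) r c) r c := by
    rintro r c ⟨hr, hocc⟩ hne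
    rcases up_or_down C.hH C.Pl hΛ.cal.isCurve r with hu | hdn | ⟨t, ht⟩
    · -- above
      have hl : Locked (R ∩ Down C.mirror.Pl Λ)
          (appF (trio π Λ C.mirror.u) (pair π U cU)) r c := by
        refine ⟨⟨hr, ?_⟩, ?_⟩
        · change r ∈ Down C.Pl.mirror Λ
          rwa [down_mirror C.hH C.Pl hΛ.cal.isCurve]
        · refine Occ.sub hocc ⟨![0, 1, 2, 5, 6], by decide⟩ ?_
          intro i; fin_cases i <;> rfl
      refine Forces.mono ?_ (hT₃ N Λ a' b' hN (line_mirror.2 hΛ) hleK' (by omega)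
        (by change b' ≤ a' + N * C.ℓ; omega) hΛK' r c hl)
      rintro r c (h | h)
      · exact Or.inl h
      · exact Or.inr (StripPos.of_mirror h)
    · -- below
      have hl : Locked (R ∩ Down C.Pl Λ) (appF (trio π Λ C.u) (pair π L cL)) r c := by
        refine ⟨⟨hr, hdn⟩, ?_⟩
        refine Occ.sub hocc ⟨![0, 1, 2, 3, 4], by decide⟩ ?_
        intro i; fin_cases i <;> rfl
      exact hT₂ N Λ a b hN hΛ hleK (by omega) (by omega) hΛK r c hl
    · exact absurd ht (hne t)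
  refine Forces.trans ?_ (hT₁ N Λ a b a' b' hN hΛ (by omega) hba' (by omega) hb'a hΛK hΛK' r c h)
  rintro r c (h | h)
  · exact Forces.now (Or.inr h)
  by_cases hne : ∀ t, r ≠ Λ t
  · exact hoff r c h hne
  push Not at hne
  obtain ⟨t, ht⟩ := hne
  have hut : C.u r = t := by rw [ht]; exact hΛ.cal.lev t
  have hPstep : ∀ t, Step H (Λ t) (Λ (t + 1)) := fun t => Or.inr (hΛ.cal.adj t)
  have hlip : ∀ i, ∀ r ∈ R, ∀ r' ∈ R, H.Adj r r' →
      Step G (appF (trio π Λ C.u) (appF (pair π L cL) (pair π U cU)) i r)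
        (appF (trio π Λ C.u) (appF (pair π L cL) (pair π U cU)) i r') :=
    appF_lip (trio_lip C.cover hPstep (fun r _ r' _ h => C.lip r r' h)) hX.guard.lip
  refine Forces.of_step ?_
  intro r' hstep hnocc
  have hocc := h.2
  -- the places near `r` on the line are occupied
  have hplaces : ∀ t', |t' - t| ≤ 1 → r' ≠ Λ t' := by
    intro t' ht' hr'
    obtain ⟨ι, hι⟩ := hocc
    have h3 : t' = t - 1 ∨ t' = t ∨ t' = t + 1 := by rw [abs_le] at ht'; omega
    rcases h3 with h3 | h3 | h3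
    · refine hnocc (ι 0) ?_
      rw [hι 0, hr', h3, ← hut]; rfl
    · refine hnocc (ι 1) ?_
      rw [hι 1, hr', h3, ← hut]; rfl
    · refine hnocc (ι 2) ?_
      rw [hι 2, hr', h3, ← hut]; rfl
  have hadj : H.Adj r r' := by
    rcases hstep with h | h
    · exact absurd (h ▸ ht) (hplaces t (by simp))
    · exact h
  have hr'R : r' ∈ R := by
    by_contra hcon
    obtain ⟨i, hi⟩ := hX.guard.conf r h.1 r' hadj hcon
    obtain ⟨ι, hι⟩ := hocc
    refine hnocc (ι (Fin.natAdd 3 i)) ?_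
    rw [hι, ← hi]
    simp [appF]
  obtain ⟨c', hc', hocc'⟩ := occ_move hocc (fun i => hlip i r h.1 r' hr'R hadj)
  refine ⟨c', hc', hoff r' c' ⟨hr'R, hocc'⟩ ?_⟩
  intro t' ht'
  refine hplaces t' ?_ ht'
  have h1 := C.lip r r' hadj
  rw [ht', hΛ.cal.lev, hut] at h1
  rwa [abs_sub_comm]

end SCtx

end Pool.Agent.MP_f5837d_co
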