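import Mathlib

/-!
# Surrounding cops and robbers on toroidal graphs: definitions
-/

set_option autoImplicit false

namespace Pool.Agent.MP_f5837d_co

open SimpleGraph

/-! ### The game -/

section Game

variable {V : Type*}

/-- One move of a player along the graph: stay or go to a neighbour. -/
def Step (G : SimpleGraph V) (x y : V) : Prop := x = y ∨ G.Adj x y

/-- The robber on `r` is surrounded: every neighbour of `r` is occupied by a cop. -/
def Surrounded (G : SimpleGraph V) {m : ℕ} (c : Fin m → V) (r : V) : Prop :=
  ∀ y, G.Adj r y → ∃ i, c i = y

/-- The cops, who are on the vertices `c`, are to move, the robber is on `r`, and the cops can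
force a win. -/
inductive CopsWinFrom (G : SimpleGraph V) {m : ℕ} : (Fin m → V) → V → Prop
  | now (c : Fin m → V) (r : V) : Surrounded G c r → CopsWinFrom G c r
  | catch (c c' : Fin m → V) (r : V) : (∀ i, Step G (c i) (c' i)) → Surrounded G c' r →
      CopsWinFrom G c r
  | round (c c' : Fin m → V) (r : V) : (∀ i, Step G (c i) (c' i)) →
      (∀ r', Step G r r' → (∀ i, c' i ≠ r') → CopsWinFrom G c' r') → CopsWinFrom G c r

/-- `m` cops have a winning strategy on `G`: they choose their places, then the robber chooses
his, and then the cops, who move first, can force a win. -/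
def CopsWin (G : SimpleGraph V) (m : ℕ) : Prop :=
  ∃ c : Fin m → V, ∀ r, CopsWinFrom G c r

/-- The surrounding cop number. -/
noncomputable def surroundingNumber (G : SimpleGraph V) : ℕ := sInf {m | CopsWin G m}

end Game

/-! ### Rotation systems and toroidal graphs -/

section Toroidal

variable {V : Type*}

/-- A rotation system: at every vertex a cyclic order of the darts that leave it. -/
structure RotationSystem (G : SimpleGraph V) where
  /-- the next dart around the initial vertex -/
  rot : Equiv.Perm G.Dart
  rot_fst : ∀ d, (rot d).fst = d.fst
  rot_trans : ∀ d d' : G.Dart, d.fst = d'.fst → ∃ n : ℕ, (rot ^ n) d = d'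

/-- The reversal of darts as a permutation. -/
def symmPerm (G : SimpleGraph V) : Equiv.Perm G.Dart :=
  ⟨Dart.symm, Dart.symm, fun d => d.symm_symm, fun d => d.symm_symm⟩

/-- The face permutation of a rotation system: traverse the dart, then turn to the next dart
around its end. Its cycles are the (oriented boundaries of the) faces. -/
def RotationSystem.face {G : SimpleGraph V} (ρ : RotationSystem G) : Equiv.Perm G.Dart :=
  ρ.rot * symmPerm G

/-- The number of faces of a rotation system. -/
noncomputable def RotationSystem.numFaces {G : SimpleGraph V} (ρ : RotationSystem G) : ℕ :=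
  Nat.card (Quotient (Equiv.Perm.SameCycle.setoid ρ.face))

/-- A connected finite graph can be embedded in the torus if and only if it has a rotation system
of genus at most one, that is, with `|V| - |E| + |F| ≥ 0`. -/
def IsToroidal (G : SimpleGraph V) : Prop :=
  ∃ ρ : RotationSystem G, Nat.card G.edgeSet ≤ Nat.card V + ρ.numFaces

end Toroidal

end Pool.Agent.MP_f5837d_co
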