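import Pool.Agent.Lib.MP_f5837d_co.T0Defs

/-!
# Task T0A: induction over maps of genus at most one

Every connected map with `0 ≤ euler2` is reduced, by deletion of an edge between two different
faces and by duality, to one edge with two ends (sphere) or to the one-vertex, one-face map with two
edges (torus).
Plan: let `v`, `e`, `f` be the active numbers. Induct on the number of active darts. If there is an
active `d` with `d`, `τ d` in different cycles of `σ * τ` and more than two active darts: delete; the
deleted map is a map (the transitivity survives: replace a step through `d` by the rest of the face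
cycle of `d`), `euler2` is unchanged (`numCycles` grows by `2` for `σ`, by `1` for `σ * τ`, `2` more
inactive darts). If there is an active `d` with `d`, `τ d` in different cycles of `σ`: the same for the
dual map. Otherwise (transitivity) all active darts are in one cycle of `σ` and in one cycle of
`σ * τ`, `v = f = 1`, so `e ≤ 2`; `e = 1` is impossible, `e = 2` is the torus case. With two
active darts: `σ = 1`, or dual.
Key lemma: for `σ x ≠ x`, `numCycles (del σ x) = numCycles σ + 1`; for `x, y` in different cycles
`numCycles (swap x y * σ) + 1 = numCycles σ`, and in the same cycle (`x ≠ y`)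
`numCycles (swap x y * σ) = numCycles σ + 1`.
-/

set_option autoImplicit false

namespace Pool.Agent.MP_f5837d_co

open Equiv Equiv.Perm

variable {D : Type*} [Fintype D] [DecidableEq D]

namespace T0A

omit [Fintype D] [DecidableEq D] in
theorem sameCycle_le {σ : Perm D} {E : D → D → Prop} (hE : Equivalence E)
    (h : ∀ u, E u (σ u)) {u v : D} (huv : SameCycle σ u v) : E u v := by
  have hnat : ∀ (n : ℕ) (u : D), E u ((σ ^ n) u) := by
    intro n
    induction n with
    | zero => intro u; exact hE.refl u
    | succ n ih =>
      intro u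
      rw [pow_succ', Perm.mul_apply]
      exact hE.trans (ih u) (h _)
  obtain ⟨n, hn⟩ := huv
  rw [← hn]
  cases n with
  | ofNat n => simpa using hnat n u
  | negSucc n =>
    have h1 := hnat (n + 1) ((σ ^ (Int.negSucc n)) u)
    have e : (σ ^ (n + 1)) ((σ ^ (Int.negSucc n)) u) = u := by
      rw [zpow_negSucc]
      exact (σ ^ (n + 1)).apply_symm_apply u
    rw [e] at h1
    exact hE.symm h1

omit [Fintype D] [DecidableEq D] in
theorem closure_le {σ τ : Perm D} {E : D → D → Prop} (hE : Equivalence E)
    (h : ∀ u, E u (σ u)) (h' : ∀ u, E u (τ u)) {g : Perm D}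
    (hg : g ∈ Subgroup.closure ({σ, τ} : Set (Perm D))) : ∀ u, E u (g u) := by
  induction hg using Subgroup.closure_induction with
  | mem x hx =>
    rcases hx with rfl | hx
    · exact h
    · rw [Set.mem_singleton_iff] at hx
      subst hx
      exact h'
  | one => intro u; exact hE.refl u
  | mul x y _ _ hx hy => intro u; exact hE.trans (hy u) (hx (y u))
  | inv x _ hx =>
    intro u
    have h1 := hx (x⁻¹ u)
    have h2 : x (x⁻¹ u) = u := x.apply_symm_apply u
    rw [h2] at h1
    exact hE.symm h1

omit [Fintype D] in
theorem del_self (σ : Perm D) (x : D) : del σ x x = x := by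
  simp [del]

omit [Fintype D] in
theorem del_apply_of_ne {σ : Perm D} {x u : D} (h1 : u ≠ x) (h2 : σ u ≠ x) : del σ x u = σ u := by
  unfold del
  rw [Perm.mul_apply, swap_apply_of_ne_of_ne h2]
  exact fun h => h1 (σ.injective h)

omit [Fintype D] in
theorem del_apply_of_eq {σ : Perm D} {x u : D} (h2 : σ u = x) : del σ x u = σ x := by
  unfold del
  rw [Perm.mul_apply, h2, swap_apply_left]

omit [Fintype D] in
theorem del_of_fix {σ : Perm D} {x : D} (h : σ x = x) : del σ x = σ := by
  unfold del
  rw [h, swap_self]
  rfl

omit [Fintype D] in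
theorem del_ne {σ : Perm D} {x u : D} (h : u ≠ x) : del σ x u ≠ x := by
  intro h1
  exact h ((del σ x).injective (h1.trans (del_self σ x).symm))

omit [Fintype D] in
theorem sameCycle_del {σ : Perm D} {x u v : D} :
    SameCycle (del σ x) u v ↔ (u = x ∧ v = x) ∨ (u ≠ x ∧ v ≠ x ∧ SameCycle σ u v) := by
  constructor
  · apply sameCycle_le (E := fun u v => (u = x ∧ v = x) ∨ (u ≠ x ∧ v ≠ x ∧ SameCycle σ u v))
    · refine ⟨?_, ?_, ?_⟩
      · intro u
        by_cases h : u = x
        · exact Or.inl ⟨h, h⟩
        · exact Or.inr ⟨h, h, SameCycle.refl _ _⟩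
      · rintro u v (⟨h1, h2⟩ | ⟨h1, h2, h3⟩)
        · exact Or.inl ⟨h2, h1⟩
        · exact Or.inr ⟨h2, h1, h3.symm⟩
      · rintro u v w (⟨h1, h2⟩ | ⟨h1, h2, h3⟩) (⟨h4, h5⟩ | ⟨h4, h5, h6⟩)
        · exact Or.inl ⟨h1, h5⟩
        · exact absurd h2 h4
        · exact absurd h4 h2
        · exact Or.inr ⟨h1, h5, h3.trans h6⟩
    · intro u
      by_cases h : u = x
      · left
        refine ⟨h, ?_⟩
        rw [h, del_self]
      · right
        refine ⟨h, del_ne h, ?_⟩
        by_cases h2 : σ u = x
        · rw [del_apply_of_eq h2, ← h2]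
          exact (sameCycle_apply_right.mpr (sameCycle_apply_right.mpr (SameCycle.refl _ _)))
        · rw [del_apply_of_ne h h2]
          exact sameCycle_apply_right.mpr (SameCycle.refl _ _)
  · rintro (⟨rfl, rfl⟩ | ⟨h1, h2, h3⟩)
    · exact SameCycle.refl _ _
    · have key : SameCycle (del σ x) (if u = x then σ x else u) (if v = x then σ x else v) := by
        apply sameCycle_le (σ := σ)
          (E := fun u v => SameCycle (del σ x) (if u = x then σ x else u) (if v = x then σ x else v))
          ?_ ?_ h3
        · exact ⟨fun u => SameCycle.refl _ _, fun h => h.symm, fun h h' => h.trans h'⟩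
        · intro w
          by_cases hw : w = x
          · rw [if_pos hw]
            by_cases hw2 : σ w = x
            · rw [if_pos hw2]
            · rw [if_neg hw2, hw]
          · rw [if_neg hw]
            by_cases hw2 : σ w = x
            · rw [if_pos hw2, ← del_apply_of_eq hw2]
              exact sameCycle_apply_right.mpr (SameCycle.refl _ _)
            · rw [if_neg hw2, ← del_apply_of_ne hw hw2]
              exact sameCycle_apply_right.mpr (SameCycle.refl _ _)
      rwa [if_neg h1, if_neg h2] at key

theorem numCycles_del {σ : Perm D} {x : D} (h : σ x ≠ x) :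
    numCycles (del σ x) = numCycles σ + 1 := by
  classical
  unfold numCycles
  have hf : ∀ a b : D, (SameCycle.setoid (del σ x)).r a b →
      (if a = x then none else some (Quotient.mk (SameCycle.setoid σ) a)) =
      (if b = x then none else some (Quotient.mk (SameCycle.setoid σ) b)) := by
    intro a b hab
    rcases sameCycle_del.mp hab with ⟨h1, h2⟩ | ⟨h1, h2, h3⟩
    · rw [if_pos h1, if_pos h2]
    · rw [if_neg h1, if_neg h2]
      congr 1
      exact Quotient.sound h3
  let f : Quotient (SameCycle.setoid (del σ x)) → Option (Quotient (SameCycle.setoid σ)) :=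
    Quotient.lift (fun a => if a = x then none else some (Quotient.mk (SameCycle.setoid σ) a)) hf
  have hbij : Function.Bijective f := by
    constructor
    · intro a b
      induction a using Quotient.inductionOn with | _ a => ?_
      induction b using Quotient.inductionOn with | _ b => ?_
      intro hab
      change (if a = x then none else some (Quotient.mk (SameCycle.setoid σ) a)) =
        (if b = x then none else some (Quotient.mk (SameCycle.setoid σ) b)) at hab
      apply Quotient.sound
      apply sameCycle_del.mpr
      by_cases h1 : a = x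
      · by_cases h2 : b = x
        · exact Or.inl ⟨h1, h2⟩
        · rw [if_pos h1, if_neg h2] at hab
          exact absurd hab (by simp)
      · by_cases h2 : b = x
        · rw [if_neg h1, if_pos h2] at hab
          exact absurd hab (by simp)
        · rw [if_neg h1, if_neg h2] at hab
          exact Or.inr ⟨h1, h2, Quotient.exact (Option.some.inj hab)⟩
    · intro o
      rcases o with _ | q
      · refine ⟨Quotient.mk _ x, ?_⟩
        change (if x = x then none else some (Quotient.mk (SameCycle.setoid σ) x)) = none
        rw [if_pos rfl]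
      · induction q using Quotient.inductionOn with | _ a => ?_
        by_cases ha : a = x
        · refine ⟨Quotient.mk _ (σ x), ?_⟩
          change (if σ x = x then none else some (Quotient.mk (SameCycle.setoid σ) (σ x))) = _
          rw [if_neg h]
          congr 1
          apply Quotient.sound
          subst ha
          exact sameCycle_apply_left.mpr (SameCycle.refl _ _)
        · refine ⟨Quotient.mk _ a, ?_⟩
          change (if a = x then none else some (Quotient.mk (SameCycle.setoid σ) a)) = _
          rw [if_neg ha]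
  rw [Nat.card_congr (Equiv.ofBijective f hbij)]
  have : Finite (Quotient (SameCycle.setoid σ)) := inferInstance
  exact Finite.card_option

/-- the key: two different cycles get merged -/
theorem sameCycle_mul_swap {φ : Perm D} {x y : D} (h : ¬ SameCycle φ x y) :
    SameCycle (φ * swap x y) x y := by
  by_contra hn
  set ψ := φ * swap x y with hψ
  have hxy : x ≠ y := by
    rintro rfl
    exact h (SameCycle.refl _ _)
  have key : ∀ n : ℕ, SameCycle φ x ((ψ ^ (n + 1)) y) := by
    intro n
    induction n with
    | zero =>
      rw [zero_add, pow_one, hψ, Perm.mul_apply, swap_apply_right]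
      exact sameCycle_apply_right.mpr (SameCycle.refl _ _)
    | succ n ih =>
      rw [pow_succ', Perm.mul_apply]
      set w := (ψ ^ (n + 1)) y with hw
      have hwy : w ≠ y := by
        intro hwy
        rw [hwy] at ih
        exact h ih
      have hwx : w ≠ x := by
        intro hwx
        apply hn
        have : SameCycle ψ y ((ψ ^ (n + 1)) y) := ⟨(n + 1 : ℕ), by rw [zpow_natCast]⟩
        rw [← hw, hwx] at this
        exact this.symm
      have : ψ w = φ w := by
        rw [hψ, Perm.mul_apply, swap_apply_of_ne_of_ne hwx hwy]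
      rw [this]
      exact sameCycle_apply_right.mpr ih
  have h1 := key (orderOf ψ - 1)
  have hpos : 0 < orderOf ψ := orderOf_pos ψ
  rw [Nat.sub_add_cancel hpos, pow_orderOf_eq_one] at h1
  exact h h1

theorem sameCycle_mul_swap_iff {φ : Perm D} {x y : D} (h : ¬ SameCycle φ x y) {u v : D} :
    SameCycle (φ * swap x y) u v ↔ SameCycle φ u v ∨
      ((SameCycle φ x u ∨ SameCycle φ y u) ∧ (SameCycle φ x v ∨ SameCycle φ y v)) := by
  have hk := sameCycle_mul_swap h
  have hle : ∀ {u v : D}, SameCycle φ u v → SameCycle (φ * swap x y) u v := by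
    intro u v huv
    apply sameCycle_le (σ := φ) (E := fun u v => SameCycle (φ * swap x y) u v) ?_ ?_ huv
    · exact ⟨fun u => SameCycle.refl _ _, fun h => h.symm, fun h h' => h.trans h'⟩
    · intro w
      have e : φ w = (φ * swap x y) (swap x y w) := by
        rw [Perm.mul_apply, swap_apply_self]
      rw [e]
      refine sameCycle_apply_right.mpr ?_
      by_cases hwx : w = x
      · rw [hwx, swap_apply_left]
        exact hk
      · by_cases hwy : w = y
        · rw [hwy, swap_apply_right]
          exact hk.symm
        · rw [swap_apply_of_ne_of_ne hwx hwy]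
  constructor
  · apply sameCycle_le (E := fun u v => SameCycle φ u v ∨
      ((SameCycle φ x u ∨ SameCycle φ y u) ∧ (SameCycle φ x v ∨ SameCycle φ y v)))
    · refine ⟨fun u => Or.inl (SameCycle.refl _ _), ?_, ?_⟩
      · rintro u v (h1 | ⟨h1, h2⟩)
        · exact Or.inl h1.symm
        · exact Or.inr ⟨h2, h1⟩
      · rintro u v w (h1 | ⟨h1, h2⟩) (h3 | ⟨h3, h4⟩)
        · exact Or.inl (h1.trans h3)
        · refine Or.inr ⟨?_, h4⟩
          rcases h3 with h3 | h3
          · exact Or.inl (h3.trans h1.symm)
          · exact Or.inr (h3.trans h1.symm)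
        · refine Or.inr ⟨h1, ?_⟩
          rcases h2 with h2 | h2
          · exact Or.inl (h2.trans h3)
          · exact Or.inr (h2.trans h3)
        · exact Or.inr ⟨h1, h4⟩
    · intro w
      by_cases hwx : w = x
      · right
        refine ⟨Or.inl (hwx ▸ SameCycle.refl _ _), Or.inr ?_⟩
        rw [hwx, Perm.mul_apply, swap_apply_left]
        exact sameCycle_apply_right.mpr (SameCycle.refl _ _)
      · by_cases hwy : w = y
        · right
          refine ⟨Or.inr (hwy ▸ SameCycle.refl _ _), Or.inl ?_⟩
          rw [hwy, Perm.mul_apply, swap_apply_right]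
          exact sameCycle_apply_right.mpr (SameCycle.refl _ _)
        · left
          rw [Perm.mul_apply, swap_apply_of_ne_of_ne hwx hwy]
          exact sameCycle_apply_right.mpr (SameCycle.refl _ _)
  · rintro (h1 | ⟨h1, h2⟩)
    · exact hle h1
    · have e1 : SameCycle (φ * swap x y) x u := by
        rcases h1 with h1 | h1
        · exact hle h1
        · exact hk.trans (hle h1)
      have e2 : SameCycle (φ * swap x y) x v := by
        rcases h2 with h2 | h2
        · exact hle h2
        · exact hk.trans (hle h2)
      exact e1.symm.trans e2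

theorem numCycles_mul_swap {φ : Perm D} {x y : D} (h : ¬ SameCycle φ x y) :
    numCycles (φ * swap x y) + 1 = numCycles φ := by
  classical
  unfold numCycles
  -- classes of `φ` = classes of the product, plus one for the cycle of `y`
  have hf : ∀ a b : D, (SameCycle.setoid φ).r a b →
      (if SameCycle φ y a then none
        else some (Quotient.mk (SameCycle.setoid (φ * swap x y)) a)) =
      (if SameCycle φ y b then none
        else some (Quotient.mk (SameCycle.setoid (φ * swap x y)) b)) := by
    intro a b hab
    have hab' : SameCycle φ a b := hab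
    by_cases h1 : SameCycle φ y a
    · rw [if_pos h1, if_pos (h1.trans hab')]
    · rw [if_neg h1, if_neg (fun h2 => h1 (h2.trans hab'.symm))]
      congr 1
      apply Quotient.sound
      exact (sameCycle_mul_swap_iff h).mpr (Or.inl hab')
  let f : Quotient (SameCycle.setoid φ) →
      Option (Quotient (SameCycle.setoid (φ * swap x y))) :=
    Quotient.lift (fun a => if SameCycle φ y a then none
      else some (Quotient.mk (SameCycle.setoid (φ * swap x y)) a)) hf
  have hbij : Function.Bijective f := by
    constructor
    · intro a b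
      induction a using Quotient.inductionOn with | _ a => ?_
      induction b using Quotient.inductionOn with | _ b => ?_
      intro hab
      change (if SameCycle φ y a then none
        else some (Quotient.mk (SameCycle.setoid (φ * swap x y)) a)) =
        (if SameCycle φ y b then none
        else some (Quotient.mk (SameCycle.setoid (φ * swap x y)) b)) at hab
      apply Quotient.sound
      change SameCycle φ a b
      by_cases h1 : SameCycle φ y a
      · by_cases h2 : SameCycle φ y b
        · exact h1.symm.trans h2
        · rw [if_pos h1, if_neg h2] at hab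
          exact absurd hab (by simp)
      · by_cases h2 : SameCycle φ y b
        · rw [if_neg h1, if_pos h2] at hab
          exact absurd hab (by simp)
        · rw [if_neg h1, if_neg h2] at hab
          have h3 : SameCycle (φ * swap x y) a b := Quotient.exact (Option.some.inj hab)
          rcases (sameCycle_mul_swap_iff h).mp h3 with h4 | ⟨h4, h5⟩
          · exact h4
          · have h4' := h4.resolve_right h1
            have h5' := h5.resolve_right h2
            exact h4'.symm.trans h5'
    · intro o
      rcases o with _ | q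
      · refine ⟨Quotient.mk _ y, ?_⟩
        change (if SameCycle φ y y then none
          else some (Quotient.mk (SameCycle.setoid (φ * swap x y)) y)) = none
        rw [if_pos (SameCycle.refl _ _)]
      · induction q using Quotient.inductionOn with | _ a => ?_
        by_cases ha : SameCycle φ y a
        · refine ⟨Quotient.mk _ x, ?_⟩
          change (if SameCycle φ y x then none
            else some (Quotient.mk (SameCycle.setoid (φ * swap x y)) x)) = _
          rw [if_neg (fun h2 => h h2.symm)]
          congr 1
          apply Quotient.sound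
          exact (sameCycle_mul_swap_iff h).mpr (Or.inr ⟨Or.inl (SameCycle.refl _ _), Or.inr ha⟩)
        · refine ⟨Quotient.mk _ a, ?_⟩
          change (if SameCycle φ y a then none
            else some (Quotient.mk (SameCycle.setoid (φ * swap x y)) a)) = _
          rw [if_neg ha]
  rw [Nat.card_congr (Equiv.ofBijective f hbij)]
  have : Finite (Quotient (SameCycle.setoid (φ * swap x y))) := inferInstance
  exact Finite.card_option.symm


/-! ### deletion -/

omit [Fintype D] in
theorem delτ_left {τ : Perm D} (hτ : ∀ d, τ (τ d) = d) (d : D) : delτ τ d d = d := by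
  unfold delτ
  rw [Perm.mul_apply, swap_apply_left, hτ]

omit [Fintype D] in
theorem delτ_right {τ : Perm D} (d : D) : delτ τ d (τ d) = τ d := by
  unfold delτ
  rw [Perm.mul_apply, swap_apply_right]

omit [Fintype D] in
theorem delτ_other {τ : Perm D} {d y : D} (h1 : y ≠ d) (h2 : y ≠ τ d) : delτ τ d y = τ y := by
  unfold delτ
  rw [Perm.mul_apply, swap_apply_of_ne_of_ne h1 h2]

omit [Fintype D] in
theorem delσ_left (σ τ : Perm D) (d : D) : delσ σ τ d d = d := by
  unfold delσ
  by_cases h : d = τ d
  · rw [← h, del_self]
  · rw [del_apply_of_ne h (by rw [del_self]; exact h), del_self]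

omit [Fintype D] in
theorem delσ_right (σ τ : Perm D) (d : D) : delσ σ τ d (τ d) = τ d := by
  unfold delσ
  rw [del_self]

omit [Fintype D] in
theorem delσ_sameCycle {σ τ : Perm D} {d u v : D} (hu : u ≠ d) (hu' : u ≠ τ d) (hv : v ≠ d)
    (hv' : v ≠ τ d) (h : SameCycle σ u v) : SameCycle (delσ σ τ d) u v := by
  unfold delσ
  exact sameCycle_del.mpr (Or.inr ⟨hu', hv', sameCycle_del.mpr (Or.inr ⟨hu, hv, h⟩)⟩)

omit [Fintype D] in
theorem delσ_sameCycle' {σ τ : Perm D} {d u v : D} (hu : u ≠ d) (hu' : u ≠ τ d)
    (h : SameCycle (delσ σ τ d) u v) : v ≠ d ∧ v ≠ τ d ∧ SameCycle σ u v := by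
  unfold delσ at h
  rcases sameCycle_del.mp h with ⟨h1, _⟩ | ⟨_, h2, h3⟩
  · exact absurd h1 hu'
  rcases sameCycle_del.mp h3 with ⟨h4, _⟩ | ⟨_, h5, h6⟩
  · exact absurd h4 hu
  exact ⟨h5, h2, h6⟩

omit [Fintype D] in
theorem delσ_fix {σ τ : Perm D} {d u : D} (h : σ u = u) : delσ σ τ d u = u := by
  by_cases h1 : u = d
  · rw [h1, delσ_left]
  by_cases h2 : u = τ d
  · rw [h2, delσ_right]
  unfold delσ
  have e1 : del σ d u = u := by rw [del_apply_of_ne h1 (by rw [h]; exact h1), h]
  rw [del_apply_of_ne h2 (by rw [e1]; exact h2), e1]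

theorem isMap_dual {σ τ : Perm D} (h : IsMap σ τ) : IsMap (σ * τ) τ := by
  refine ⟨h.inv, ?_, ?_⟩
  · intro d hd
    rw [Perm.mul_apply, hd, h.fix d hd]
  · intro d d' hd hd'
    obtain ⟨g, hg, hgd⟩ := h.trans d d' hd hd'
    refine ⟨g, ?_, hgd⟩
    have hle : Subgroup.closure ({σ, τ} : Set (Perm D)) ≤
        Subgroup.closure ({σ * τ, τ} : Set (Perm D)) := by
      rw [Subgroup.closure_le]
      intro x hx
      have h1 : σ * τ ∈ Subgroup.closure ({σ * τ, τ} : Set (Perm D)) :=
        Subgroup.subset_closure (by simp)
      have h2 : τ ∈ Subgroup.closure ({σ * τ, τ} : Set (Perm D)) :=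
        Subgroup.subset_closure (by simp)
      rcases hx with rfl | hx
      · have h3 := Subgroup.mul_mem _ h1 h2
        have h4 : x * τ * τ = x := by
          ext y
          simp [Perm.mul_apply, h.inv]
        rw [h4] at h3
        exact h3
      · rw [Set.mem_singleton_iff] at hx
        rw [hx]
        exact h2
    exact hle hg

theorem dual_dual {σ τ : Perm D} (h : IsMap σ τ) : (σ * τ) * τ = σ := by
  ext y
  simp [Perm.mul_apply, h.inv]

/-- facts used in the deletion step -/
theorem del_facts {σ τ : Perm D} {d : D} (h : IsMap σ τ) (hd : τ d ≠ d)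
    (hs : ¬ SameCycle (σ * τ) d (τ d)) (hy : ∃ y, τ y ≠ y ∧ y ≠ d ∧ y ≠ τ d) :
    σ d ≠ d ∧ del σ d (τ d) ≠ τ d := by
  have h1 : σ d ≠ d := by
    intro h1
    apply hs
    have : (σ * τ) (τ d) = d := by rw [Perm.mul_apply, h.inv, h1]
    rw [← this]
    exact sameCycle_apply_left.mpr (by rw [this])
  refine ⟨h1, ?_⟩
  intro h2
  have h3 : σ (τ d) ≠ τ d := by
    intro h3
    apply hs
    have : (σ * τ) d = τ d := by rw [Perm.mul_apply, h3]
    rw [← this]
    exact sameCycle_apply_right.mpr (SameCycle.refl _ _)
  have h4 : σ (τ d) = d := by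
    by_contra h4
    rw [del_apply_of_ne hd h4] at h2
    exact h3 h2
  have h5 : σ d = τ d := by
    rw [del_apply_of_eq h4] at h2
    exact h2
  obtain ⟨y, hy1, hy2, hy3⟩ := hy
  obtain ⟨g, hg, hgd⟩ := h.trans d y hd hy1
  have h6 := closure_le (E := fun u v => (u = d ∨ u = τ d) ↔ (v = d ∨ v = τ d))
    ⟨fun u => Iff.rfl, fun h => h.symm, fun h h' => h.trans h'⟩ (σ := σ) (τ := τ)
    (by
      intro u
      constructor
      · rintro (rfl | rfl)
        · exact Or.inr h5
        · exact Or.inl h4
      · rintro (h7 | h7)
        · right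
          exact σ.injective (h7.trans h4.symm)
        · left
          exact σ.injective (h7.trans h5.symm))
    (by
      intro u
      constructor
      · rintro (rfl | rfl)
        · exact Or.inr rfl
        · exact Or.inl (h.inv d)
      · rintro (h7 | h7)
        · right
          exact τ.injective (h7.trans (h.inv d).symm)
        · left
          exact τ.injective h7) hg d
  rw [hgd] at h6
  rcases h6.mp (Or.inl rfl) with h8 | h8
  · exact hy2 h8
  · exact hy3 h8

theorem card_filter_delτ {τ : Perm D} {d : D} (hτ : ∀ d, τ (τ d) = d) (hd : τ d ≠ d) :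
    (Finset.univ.filter (fun y => delτ τ d y = y)).card =
      (Finset.univ.filter (fun y => τ y = y)).card + 2 := by
  have h1 : (Finset.univ.filter (fun y => delτ τ d y = y)) =
      insert d (insert (τ d) (Finset.univ.filter (fun y => τ y = y))) := by
    ext y
    simp only [Finset.mem_filter, Finset.mem_univ, true_and, Finset.mem_insert]
    by_cases h1 : y = d
    · subst h1
      simp [delτ_left hτ]
    · by_cases h2 : y = τ d
      · subst h2
        simp [delτ_right]
      · rw [delτ_other h1 h2]
        simp [h1, h2]
  rw [h1, Finset.card_insert_of_notMem, Finset.card_insert_of_notMem]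
  · simp [hτ, hd.symm]
  · simp only [Finset.mem_insert, Finset.mem_filter, Finset.mem_univ, true_and]
    rintro (h2 | h2)
    · exact hd h2.symm
    · exact hd h2

theorem delσ_mul_delτ {σ τ : Perm D} {d : D} (hτ : ∀ d, τ (τ d) = d) (hd : τ d ≠ d) :
    delσ σ τ d * delτ τ d = del (del (σ * τ * swap d (τ d)) d) (τ d) := by
  have e1 : (σ * τ * swap d (τ d)) d = σ d := by
    rw [Perm.mul_apply, Perm.mul_apply, swap_apply_left, hτ]
  have e2 : del (σ * τ * swap d (τ d)) d = del σ d * delτ τ d := by
    rw [del, del, e1, delτ]
    group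
  have e3 : del (σ * τ * swap d (τ d)) d (τ d) = del σ d (τ d) := by
    rw [e2, Perm.mul_apply, delτ_right]
  have l : delσ σ τ d = swap (τ d) (del σ d (τ d)) * del σ d := rfl
  have r : del (del (σ * τ * swap d (τ d)) d) (τ d) =
      swap (τ d) (del (σ * τ * swap d (τ d)) d (τ d)) * del (σ * τ * swap d (τ d)) d := rfl
  rw [l, r, e3, e2, mul_assoc]

theorem euler2_del {σ τ : Perm D} {d : D} (h : IsMap σ τ) (hd : τ d ≠ d)
    (hs : ¬ SameCycle (σ * τ) d (τ d)) (hy : ∃ y, τ y ≠ y ∧ y ≠ d ∧ y ≠ τ d) :
    euler2 (delσ σ τ d) (delτ τ d) = euler2 σ τ := by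
  obtain ⟨h1, h2⟩ := del_facts h hd hs hy
  have n1 : numCycles (delσ σ τ d) = numCycles σ + 2 := by
    rw [delσ, numCycles_del h2, numCycles_del h1]
  have e1 : (σ * τ * swap d (τ d)) d = σ d := by
    rw [Perm.mul_apply, Perm.mul_apply, swap_apply_left, h.inv]
  have e2 : del (σ * τ * swap d (τ d)) d = del σ d * delτ τ d := by
    rw [del, del, e1, delτ]
    group
  have e3 : del (σ * τ * swap d (τ d)) d (τ d) = del σ d (τ d) := by
    rw [e2, Perm.mul_apply, delτ_right]
  have n2 : numCycles (delσ σ τ d * delτ τ d) = numCycles (σ * τ) + 1 := by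
    rw [delσ_mul_delτ h.inv hd, numCycles_del (by rw [e3]; exact h2),
      numCycles_del (by rw [e1]; exact h1)]
    have := numCycles_mul_swap hs
    omega
  unfold euler2
  rw [n1, n2, card_filter_delτ h.inv hd]
  push_cast
  ring

theorem isMap_del {σ τ : Perm D} {d : D} (h : IsMap σ τ) (hd : τ d ≠ d)
    (hs : ¬ SameCycle (σ * τ) d (τ d)) :
    IsMap (delσ σ τ d) (delτ τ d) := by
  refine ⟨?_, ?_, ?_⟩
  · intro y
    by_cases h1 : y = d
    · subst h1
      rw [delτ_left h.inv, delτ_left h.inv]
    by_cases h2 : y = τ d
    · subst h2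
      rw [delτ_right, delτ_right]
    rw [delτ_other h1 h2, delτ_other, h.inv]
    · intro h3
      apply h2
      rw [← h3, h.inv]
    · intro h3
      exact h1 (τ.injective h3)
  · intro y hy
    by_cases h1 : y = d
    · rw [h1, delσ_left]
    by_cases h2 : y = τ d
    · rw [h2, delσ_right]
    rw [delτ_other h1 h2] at hy
    exact delσ_fix (h.fix y hy)
  · intro a b ha hb
    have act : ∀ y, delτ τ d y ≠ y → y ≠ d ∧ y ≠ τ d ∧ τ y ≠ y := by
      intro y hy
      have h1 : y ≠ d := by
        rintro rfl
        exact hy (delτ_left h.inv _)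
      have h2 : y ≠ τ d := by
        rintro rfl
        exact hy (delτ_right _)
      rw [delτ_other h1 h2] at hy
      exact ⟨h1, h2, hy⟩
    obtain ⟨a1, a2, a3⟩ := act a ha
    obtain ⟨b1, b2, b3⟩ := act b hb
    -- orbit relation of the new group
    let R : D → D → Prop := fun u v =>
      ∃ g ∈ Subgroup.closure ({delσ σ τ d, delτ τ d} : Set (Perm D)), g u = v
    have hR : Equivalence R := by
      refine ⟨fun u => ⟨1, Subgroup.one_mem _, rfl⟩, ?_, ?_⟩
      · rintro u v ⟨g, hg, hgu⟩
        refine ⟨g⁻¹, Subgroup.inv_mem _ hg, ?_⟩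
        rw [← hgu]
        exact g.symm_apply_apply u
      · rintro u v w ⟨g, hg, hgu⟩ ⟨g', hg', hgu'⟩
        exact ⟨g' * g, Subgroup.mul_mem _ hg' hg, by rw [Perm.mul_apply, hgu, hgu']⟩
    have hRσ : ∀ u, R u (delσ σ τ d u) := fun u =>
      ⟨_, Subgroup.subset_closure (by simp), rfl⟩
    have hRτ : ∀ u, R u (delτ τ d u) := fun u =>
      ⟨_, Subgroup.subset_closure (by simp), rfl⟩
    have hRc : ∀ {u v}, u ≠ d → u ≠ τ d → v ≠ d → v ≠ τ d → SameCycle σ u v → R u v := by
      intro u v hu hu' hv hv' huv
      exact sameCycle_le hR hRσ (delσ_sameCycle hu hu' hv hv' huv)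
    have hRt : ∀ {u}, u ≠ d → u ≠ τ d → R u (τ u) := by
      intro u hu hu'
      have := hRτ u
      rwa [delτ_other hu hu'] at this
    change R a b
    -- the face path
    have hface : ∀ {u v}, u ≠ d → u ≠ τ d → v ≠ d → v ≠ τ d → SameCycle σ (τ d) u →
        SameCycle σ d v → R u v := by
      intro u v hu hu' hv hv' hdu hdv
      -- `f j = φ ^ (j + 1) d`
      have hord : ∃ n, 0 < n ∧ ((σ * τ) ^ n) d = d :=
        ⟨orderOf (σ * τ), orderOf_pos _, by rw [pow_orderOf_eq_one]; rfl⟩
      classical
      let k := Nat.find hord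
      have hk := Nat.find_spec hord
      have hkmin : ∀ m, 0 < m → m < k → ((σ * τ) ^ m) d ≠ d := fun m hm hmk h1 =>
        Nat.find_min hord hmk ⟨hm, h1⟩
      have hntd : ∀ m : ℕ, ((σ * τ) ^ m) d ≠ τ d := by
        intro m h1
        apply hs
        exact ⟨(m : ℤ), by rw [zpow_natCast]; exact h1⟩
      by_cases hk1 : k = 1
      · -- `σ (τ d) = d`
        have h1 : σ (τ d) = d := by
          have := hk.2
          change ((σ * τ) ^ k) d = d at this
          rw [hk1, pow_one, Perm.mul_apply] at this
          exact this
        have h2 : SameCycle σ (τ d) d := by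
          nth_rewrite 2 [← h1]
          exact sameCycle_apply_right.mpr (SameCycle.refl _ _)
        exact hRc hu hu' hv hv' (hdu.symm.trans (h2.trans hdv))
      · have hk2 : 2 ≤ k := by
          have : 0 < k := hk.1
          omega
        have hf1 : ∀ m, 1 ≤ m → m < k → R (((σ * τ) ^ 1) d) (((σ * τ) ^ m) d) := by
          intro m hm
          induction m, hm using Nat.le_induction with
          | base => intro _; exact hR.refl _
          | succ m hm ih =>
            intro hmk
            have h3 := ih (by omega)
            have n1 := hkmin m (by omega) (by omega)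
            have n2 := hntd m
            have n3 := hkmin (m + 1) (by omega) hmk
            have n4 := hntd (m + 1)
            set w := ((σ * τ) ^ m) d with hw
            have e : ((σ * τ) ^ (m + 1)) d = σ (τ w) := by
              rw [pow_succ', Perm.mul_apply, ← hw, Perm.mul_apply]
            rw [e] at n3 n4 ⊢
            have n5 : τ w ≠ d := by
              intro h4
              apply n2
              rw [← h4, h.inv]
            have n6 : τ w ≠ τ d := fun h4 => n1 (τ.injective h4)
            refine hR.trans h3 (hR.trans (hRt n1 n2) (hRc n5 n6 n3 n4 ?_))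
            exact sameCycle_apply_right.mpr (SameCycle.refl _ _)
        have h4 := hf1 (k - 1) (by omega) (by omega)
        have n1 := hkmin (k - 1) (by omega) (by omega)
        have n2 := hntd (k - 1)
        have n3 := hkmin 1 (by omega) (by omega)
        have n4 := hntd 1
        set w := ((σ * τ) ^ (k - 1)) d with hw
        have e : σ (τ w) = d := by
          have h5 := hk.2
          change ((σ * τ) ^ k) d = d at h5
          have h6 : k = (k - 1) + 1 := by omega
          rw [h6, pow_succ', Perm.mul_apply, ← hw, Perm.mul_apply] at h5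
          exact h5
        have e1 : ((σ * τ) ^ 1) d = σ (τ d) := by
          rw [pow_one, Perm.mul_apply]
        rw [e1] at h4 n3 n4
        have n5 : τ w ≠ d := by
          intro h4
          apply n2
          rw [← h4, h.inv]
        have n6 : τ w ≠ τ d := fun h4 => n1 (τ.injective h4)
        have c1 : SameCycle σ u (σ (τ d)) := sameCycle_apply_right.mpr hdu.symm
        have c2 : SameCycle σ (τ w) v := by
          have h5 : SameCycle σ (τ w) (σ (τ w)) := sameCycle_apply_right.mpr (SameCycle.refl _ _)
          rw [e] at h5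
          exact h5.trans hdv
        exact hR.trans (hRc hu hu' n3 n4 c1) (hR.trans h4 (hR.trans (hRt n1 n2)
          (hRc n5 n6 hv hv' c2)))
    -- the relation on the old darts
    obtain ⟨g, hg, hgab⟩ := h.trans a b a3 b3
    -- classes: `E u v` iff `u` and `v` are equivalent after sending `d`, `τ d` to the class `N`
    let N : D → Prop := fun u => u = d ∨ u = τ d ∨
      ∃ v, v ≠ d ∧ v ≠ τ d ∧ (SameCycle σ d v ∨ SameCycle σ (τ d) v) ∧ R u v
    have hNall : ∀ {u v}, u ≠ d → u ≠ τ d → v ≠ d → v ≠ τ d → N u → N v → R u v := by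
      intro u v hu hu' hv hv' hNu hNv
      obtain ⟨u', hu1, hu2, hu3, hu4⟩ := (hNu.resolve_left hu).resolve_left hu'
      obtain ⟨v', hv1, hv2, hv3, hv4⟩ := (hNv.resolve_left hv).resolve_left hv'
      have : R u' v' := by
        rcases hu3 with hu3 | hu3
        · rcases hv3 with hv3 | hv3
          · exact hRc hu1 hu2 hv1 hv2 (hu3.symm.trans hv3)
          · exact hR.symm (hface hv1 hv2 hu1 hu2 hv3 hu3)
        · rcases hv3 with hv3 | hv3
          · exact hface hu1 hu2 hv1 hv2 hu3 hv3
          · exact hRc hu1 hu2 hv1 hv2 (hu3.symm.trans hv3)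
      exact hR.trans hu4 (hR.trans this (hR.symm hv4))
    have hNR : ∀ {u v}, R u v → N u → N v := by
      intro u v huv hNu
      rcases hNu with hu | hu | ⟨w, h1, h2, h3, h4⟩
      · -- `d` is fixed by the new group
        left
        obtain ⟨g, hg, hgu⟩ := huv
        have h5 := closure_le (E := fun u v => (u = d ↔ v = d))
          ⟨fun u => Iff.rfl, fun h => h.symm, fun h h' => h.trans h'⟩
          (σ := delσ σ τ d) (τ := delτ τ d)
          (fun u => ⟨fun h => by rw [h, delσ_left],
            fun h => (delσ σ τ d).injective (h.trans (delσ_left σ τ d).symm)⟩)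
          (fun u' => ⟨fun h' => by rw [h', delτ_left h.inv],
            fun h' => (delτ τ d).injective (h'.trans (delτ_left h.inv d).symm)⟩) hg u
        rw [hgu] at h5
        exact h5.mp hu
      · right; left
        obtain ⟨g, hg, hgu⟩ := huv
        have h5 := closure_le (E := fun u v => (u = τ d ↔ v = τ d))
          ⟨fun u => Iff.rfl, fun h => h.symm, fun h h' => h.trans h'⟩
          (σ := delσ σ τ d) (τ := delτ τ d)
          (fun u => ⟨fun h => by rw [h, delσ_right],
            fun h => (delσ σ τ d).injective (h.trans (delσ_right σ τ d).symm)⟩)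
          (fun u' => ⟨fun h' => by rw [h', delτ_right],
            fun h' => (delτ τ d).injective (h'.trans (delτ_right d).symm)⟩) hg u
        rw [hgu] at h5
        exact h5.mp hu
      · exact Or.inr (Or.inr ⟨w, h1, h2, h3, hR.trans (hR.symm huv) h4⟩)
    have hfinal : (R a b) ∨ (N a ∧ N b) := by
      have h7 := closure_le (E := fun u v => R u v ∨ (N u ∧ N v)) (σ := σ) (τ := τ)
        ⟨fun u => Or.inl (hR.refl u), by
          rintro u v (h1 | ⟨h1, h2⟩)
          · exact Or.inl (hR.symm h1)
          · exact Or.inr ⟨h2, h1⟩, by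
          rintro u v w (h1 | ⟨h1, h2⟩) (h3 | ⟨h3, h4⟩)
          · exact Or.inl (hR.trans h1 h3)
          · exact Or.inr ⟨hNR (hR.symm h1) h3, h4⟩
          · exact Or.inr ⟨h1, hNR h3 h2⟩
          · exact Or.inr ⟨h1, h4⟩⟩
        (by
          intro u
          by_cases c1 : u = d
          · right
            refine ⟨Or.inl c1, ?_⟩
            by_cases c2 : σ u = d
            · exact Or.inl c2
            by_cases c3 : σ u = τ d
            · exact Or.inr (Or.inl c3)
            refine Or.inr (Or.inr ⟨σ u, c2, c3, Or.inl ?_, hR.refl _⟩)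
            rw [← c1]
            exact sameCycle_apply_right.mpr (SameCycle.refl _ _)
          by_cases c1' : u = τ d
          · right
            refine ⟨Or.inr (Or.inl c1'), ?_⟩
            by_cases c2 : σ u = d
            · exact Or.inl c2
            by_cases c3 : σ u = τ d
            · exact Or.inr (Or.inl c3)
            refine Or.inr (Or.inr ⟨σ u, c2, c3, Or.inr ?_, hR.refl _⟩)
            rw [← c1']
            exact sameCycle_apply_right.mpr (SameCycle.refl _ _)
          by_cases c2 : σ u = d
          · right
            refine ⟨Or.inr (Or.inr ⟨u, c1, c1', Or.inl ?_, hR.refl _⟩), Or.inl c2⟩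
            rw [← c2]
            exact sameCycle_apply_left.mpr (SameCycle.refl _ _)
          by_cases c3 : σ u = τ d
          · right
            refine ⟨Or.inr (Or.inr ⟨u, c1, c1', Or.inr ?_, hR.refl _⟩), Or.inr (Or.inl c3)⟩
            rw [← c3]
            exact sameCycle_apply_left.mpr (SameCycle.refl _ _)
          · left
            exact hRc c1 c1' c2 c3 (sameCycle_apply_right.mpr (SameCycle.refl _ _)))
        (by
          intro u
          by_cases c1 : u = d
          · right
            exact ⟨Or.inl c1, Or.inr (Or.inl (by rw [c1]))⟩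
          by_cases c1' : u = τ d
          · right
            exact ⟨Or.inr (Or.inl c1'), Or.inl (by rw [c1', h.inv])⟩
          · left
            exact hRt c1 c1') hg a
      rw [hgab] at h7
      exact h7
    rcases hfinal with h8 | ⟨h8, h9⟩
    · exact h8
    · exact hNall a1 a2 b1 b2 h8 h9

theorem euler2_dual {σ τ : Perm D} (h : IsMap σ τ) : euler2 (σ * τ) τ = euler2 σ τ := by
  unfold euler2
  rw [dual_dual h]
  ring

theorem numCycles_le {σ τ : Perm D} {x : D} (hall : ∀ y, τ y ≠ y → SameCycle σ x y) :
    numCycles σ ≤ (Finset.univ.filter (fun y => τ y = y)).card + 1 := by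
  classical
  unfold numCycles
  let f : Option {y // τ y = y} → Quotient (SameCycle.setoid σ) := fun o =>
    match o with
    | none => Quotient.mk _ x
    | some y => Quotient.mk _ y.1
  have hf : Function.Surjective f := by
    intro q
    induction q using Quotient.inductionOn with | _ a => ?_
    by_cases ha : τ a = a
    · exact ⟨some ⟨a, ha⟩, rfl⟩
    · refine ⟨none, ?_⟩
      apply Quotient.sound
      exact hall a ha
  have h1 := Nat.card_le_card_of_surjective f hf
  have h2 : Nat.card {y // τ y = y} = (Finset.univ.filter (fun y => τ y = y)).card := by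
    rw [Nat.card_eq_fintype_card, Fintype.card_subtype]
  rw [Finite.card_option, h2] at h1
  exact h1

theorem active_apply {σ τ : Perm D} (h : IsMap σ τ) {y : D} (hy : τ y ≠ y) :
    τ (σ y) ≠ σ y := by
  intro h1
  have h2 : σ y = y := σ.injective (h.fix _ h1)
  rw [h2] at h1
  exact hy h1

theorem isCycleOn {σ τ : Perm D} (h : IsMap σ τ)
    (hall : ∀ x y, τ x ≠ x → τ y ≠ y → SameCycle σ x y) :
    σ.IsCycleOn ((Finset.univ.filter (fun y => τ y ≠ y) : Finset D) : Set D) := by
  refine ⟨⟨?_, σ.injective.injOn, ?_⟩, ?_⟩
  · intro y hy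
    simp only [Finset.coe_filter, Finset.mem_univ, true_and, Set.mem_ofPred_eq] at hy ⊢
    exact active_apply h hy
  · intro y hy
    simp only [Finset.coe_filter, Finset.mem_univ, true_and, Set.mem_ofPred_eq] at hy
    refine ⟨σ.symm y, ?_, σ.apply_symm_apply y⟩
    simp only [Finset.coe_filter, Finset.mem_univ, true_and, Set.mem_ofPred_eq]
    intro h1
    have h2 := h.fix _ h1
    rw [σ.apply_symm_apply] at h2
    rw [← h2] at h1
    exact hy h1
  · intro x hx y hy
    simp only [Finset.coe_filter, Finset.mem_univ, true_and, Set.mem_ofPred_eq] at hx hy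
    exact hall x y hx hy

theorem card_active_del {τ : Perm D} {d : D} (hτ : ∀ d, τ (τ d) = d) (hd : τ d ≠ d) :
    (Finset.univ.filter (fun y => delτ τ d y ≠ y)).card <
      (Finset.univ.filter (fun y => τ y ≠ y)).card := by
  apply Finset.card_lt_card
  rw [Finset.ssubset_iff_of_subset]
  · refine ⟨d, by simp [hd], by simp [delτ_left hτ]⟩
  · intro y hy
    simp only [Finset.mem_filter, Finset.mem_univ, true_and] at hy ⊢
    by_cases h1 : y = d
    · rw [h1]
      exact hd
    · by_cases h2 : y = τ d
      · exfalso
        apply hy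
        rw [h2, delτ_right]
      · rwa [delτ_other h1 h2] at hy

/-- the torus with two edges -/
theorem case_two {σ τ : Perm D} (h : IsMap σ τ) {x : D} (hx : τ x ≠ x)
    (hy : ∃ y, τ y ≠ y ∧ y ≠ x ∧ y ≠ τ x)
    (hA : ∀ d, τ d ≠ d → SameCycle (σ * τ) d (τ d)) (hB : ∀ d, τ d ≠ d → SameCycle σ d (τ d))
    (he : 0 ≤ euler2 σ τ) :
    σ x ≠ x ∧ τ x = σ (σ x) ∧ τ (σ x) = σ (σ (σ x)) ∧ σ (σ (σ (σ x))) = x ∧ τ x ≠ σ x ∧
      (∀ y, τ y ≠ y → y = x ∨ y = σ x ∨ y = σ (σ x) ∨ y = σ (σ (σ x))) := by
  classical
  have hallσ : ∀ a b, τ a ≠ a → τ b ≠ b → SameCycle σ a b := by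
    intro a b ha hb
    obtain ⟨g, hg, hgab⟩ := h.trans a b ha hb
    have := closure_le (E := fun u v => SameCycle σ u v)
      ⟨fun u => SameCycle.refl _ _, fun h => h.symm, fun h h' => h.trans h'⟩
      (fun u => sameCycle_apply_right.mpr (SameCycle.refl _ _))
      (fun u => by
        by_cases hu : τ u = u
        · rw [hu]
        · exact hB u hu) hg a
    rwa [hgab] at this
  have h' := isMap_dual h
  have hallφ : ∀ a b, τ a ≠ a → τ b ≠ b → SameCycle (σ * τ) a b := by
    intro a b ha hb
    obtain ⟨g, hg, hgab⟩ := h'.trans a b ha hb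
    have := closure_le (E := fun u v => SameCycle (σ * τ) u v)
      ⟨fun u => SameCycle.refl _ _, fun h => h.symm, fun h h' => h.trans h'⟩
      (fun u => sameCycle_apply_right.mpr (SameCycle.refl _ _))
      (fun u => by
        by_cases hu : τ u = u
        · rw [hu]
        · exact hA u hu) hg a
    rwa [hgab] at this
  have n1 := numCycles_le (σ := σ) (τ := τ) (x := x) (fun y hy => hallσ x y hx hy)
  have n2 := numCycles_le (σ := σ * τ) (τ := τ) (x := x) (fun y hy => hallφ x y hx hy)
  have hcard := Finset.card_filter_add_card_filter_not (s := (Finset.univ : Finset D))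
    (fun y => τ y = y)
  rw [Finset.card_univ] at hcard
  set A := Finset.univ.filter (fun y => τ y ≠ y) with hAdef
  have hA4 : A.card ≤ 4 := by
    unfold euler2 at he
    have : (Finset.univ.filter (fun y => ¬ τ y = y)).card = A.card := rfl
    omega
  have hcyc : σ.IsCycleOn (A : Set D) := isCycleOn h hallσ
  obtain ⟨y, hy1, hy2, hy3⟩ := hy
  have hxA : x ∈ A := by simp [hAdef, hx]
  have hτxA : τ x ∈ A := by simp [hAdef, h.inv, hx.symm]
  have hyA : y ∈ A := by simp [hAdef, hy1]
  have hτyA : τ y ∈ A := by simp [hAdef, h.inv, hy1.symm]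
  have hτy1 : τ y ≠ x := by
    intro h1
    apply hy3
    rw [← h1, h.inv]
  have hτy2 : τ y ≠ τ x := fun h1 => hy2 (τ.injective h1)
  have hA4' : 4 ≤ A.card := by
    have hsub : ({x, τ x, y, τ y} : Finset D) ⊆ A := by
      intro z hz
      simp only [Finset.mem_insert, Finset.mem_singleton] at hz
      rcases hz with rfl | rfl | rfl | rfl <;> assumption
    have hc : ({x, τ x, y, τ y} : Finset D).card = 4 := by
      rw [Finset.card_insert_of_notMem, Finset.card_insert_of_notMem,
        Finset.card_insert_of_notMem, Finset.card_singleton]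
      · simp only [Finset.mem_singleton]
        exact hy1.symm
      · simp only [Finset.mem_insert, Finset.mem_singleton]
        rintro (h1 | h1)
        · exact hy3 h1.symm
        · exact hτy2 h1.symm
      · simp only [Finset.mem_insert, Finset.mem_singleton]
        rintro (h1 | h1 | h1)
        · exact hx h1.symm
        · exact hy2 h1.symm
        · exact hτy1 h1.symm
    rw [← hc]
    exact Finset.card_le_card hsub
  have hcA : A.card = 4 := le_antisymm hA4 hA4'
  have e4 : σ (σ (σ (σ x))) = x := by
    have := hcyc.pow_card_apply hxA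
    rw [hcA] at this
    simpa [pow_succ, Perm.mul_apply] using this
  have hall4 : ∀ z ∈ A, z = x ∨ z = σ x ∨ z = σ (σ x) ∨ z = σ (σ (σ x)) := by
    intro z hz
    obtain ⟨n, hn, hnz⟩ := hcyc.exists_pow_eq hxA hz
    rw [hcA] at hn
    interval_cases n
    · left; simpa using hnz.symm
    · right; left; simpa using hnz.symm
    · right; right; left; simpa [pow_succ, Perm.mul_apply] using hnz.symm
    · right; right; right; simpa [pow_succ, Perm.mul_apply] using hnz.symm
  have hfixφ : ∀ u, τ u ≠ u → (σ * τ) u ≠ u := by
    intro u hu h1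
    have h2 := hA u hu
    have h3 := (sameCycle_le (σ := σ * τ) (E := fun a b => (a = u ↔ b = u))
      ⟨fun _ => Iff.rfl, fun h => h.symm, fun h h' => h.trans h'⟩
      (fun a => ⟨fun h4 => by rw [h4, h1],
        fun h4 => (σ * τ).injective (h4.trans h1.symm)⟩) h2).mp rfl
    exact hu h3
  have hσA : ∀ u, τ u ≠ u → τ (σ u) ≠ σ u := fun u hu => active_apply h hu
  -- distinctness
  have hd1 : σ x ≠ x := by
    intro h1
    have h2 := hall4 y hyA
    rw [h1, h1, h1] at h2
    rcases h2 with h2 | h2 | h2 | h2 <;> exact hy2 h2
  have hτx : τ x = σ (σ x) := by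
    rcases hall4 (τ x) hτxA with h1 | h1 | h1 | h1
    · exact absurd h1 hx
    · exfalso
      apply hfixφ (σ x) (hσA x hx)
      rw [Perm.mul_apply, ← h1, h.inv, h1]
    · exact h1
    · exfalso
      apply hfixφ x hx
      rw [Perm.mul_apply, h1, e4]
  have hne : τ x ≠ σ x := by
    intro h1
    rw [hτx] at h1
    exact hd1 (σ.injective h1)
  have hσx : τ (σ x) = σ (σ (σ x)) := by
    have hm : τ (σ x) ∈ A := by
      simp only [hAdef, Finset.mem_filter, Finset.mem_univ, true_and, h.inv]
      exact (hσA x hx).symm
    rcases hall4 _ hm with h1 | h1 | h1 | h1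
    · exfalso
      apply hne
      rw [← h1, h.inv, h1]
    · exact absurd h1 (hσA x hx)
    · exfalso
      rw [← hτx] at h1
      exact hd1 (τ.injective h1)
    · exact h1
  refine ⟨hd1, hτx, hσx, e4, hne, ?_⟩
  intro z hz
  exact hall4 z (by simp [hAdef, hz])

end T0A

theorem map_induction {P : Perm D → Perm D → Prop}
    (hdual : ∀ σ τ, IsMap σ τ → P (σ * τ) τ → P σ τ)
    (hdel : ∀ σ τ d, IsMap σ τ → τ d ≠ d → ¬ SameCycle (σ * τ) d (τ d) →
      (∃ y, τ y ≠ y ∧ y ≠ d ∧ y ≠ τ d) → P (delσ σ τ d) (delτ τ d) → P σ τ)
    (hone : ∀ (τ : Perm D) (x : D), (∀ d, τ (τ d) = d) → τ x ≠ x →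
      (∀ y, τ y ≠ y → y = x ∨ y = τ x) → P 1 τ)
    (htwo : ∀ (σ τ : Perm D) (x : D), IsMap σ τ → τ x ≠ x → σ x ≠ x → τ x = σ (σ x) →
      τ (σ x) = σ (σ (σ x)) → σ (σ (σ (σ x))) = x → τ x ≠ σ x →
      (∀ y, τ y ≠ y → y = x ∨ y = σ x ∨ y = σ (σ x) ∨ y = σ (σ (σ x))) → P σ τ)
    (σ τ : Perm D) (h : IsMap σ τ) (hne : ∃ x, τ x ≠ x) (he : 0 ≤ euler2 σ τ) : P σ τ := by
  classical
  obtain ⟨n, hn⟩ : ∃ n, (Finset.univ.filter (fun y => τ y ≠ y)).card = n := ⟨_, rfl⟩
  induction n using Nat.strong_induction_on generalizing σ τ with
  | _ n ih =>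
    by_cases hy : ∀ d, τ d ≠ d → ∃ y, τ y ≠ y ∧ y ≠ d ∧ y ≠ τ d
    · have hact : ∀ d, τ d ≠ d → ∃ y, delτ τ d y ≠ y := by
        intro d hd
        obtain ⟨y, hy1, hy2, hy3⟩ := hy d hd
        exact ⟨y, by rwa [T0A.delτ_other hy2 hy3]⟩
      by_cases hA : ∃ d, τ d ≠ d ∧ ¬ SameCycle (σ * τ) d (τ d)
      · obtain ⟨d, hd, hs⟩ := hA
        refine hdel σ τ d h hd hs (hy d hd) ?_
        refine ih _ ?_ _ _ (T0A.isMap_del h hd hs) (hact d hd) ?_ rfl
        · rw [← hn]
          exact T0A.card_active_del h.inv hd
        · rw [T0A.euler2_del h hd hs (hy d hd)]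
          exact he
      · by_cases hB : ∃ d, τ d ≠ d ∧ ¬ SameCycle σ d (τ d)
        · obtain ⟨d, hd, hs⟩ := hB
          have h' := T0A.isMap_dual h
          have hs' : ¬ SameCycle ((σ * τ) * τ) d (τ d) := by rwa [T0A.dual_dual h]
          refine hdual σ τ h (hdel (σ * τ) τ d h' hd hs' (hy d hd) ?_)
          refine ih _ ?_ _ _ (T0A.isMap_del h' hd hs') (hact d hd) ?_ rfl
          · rw [← hn]
            exact T0A.card_active_del h.inv hd
          · rw [T0A.euler2_del h' hd hs' (hy d hd), T0A.euler2_dual h]
            exact he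
        · have hA' : ∀ d, τ d ≠ d → SameCycle (σ * τ) d (τ d) := by
            intro d hd
            by_contra h1
            exact hA ⟨d, hd, h1⟩
          have hB' : ∀ d, τ d ≠ d → SameCycle σ d (τ d) := by
            intro d hd
            by_contra h1
            exact hB ⟨d, hd, h1⟩
          obtain ⟨x, hx⟩ := hne
          obtain ⟨c1, c2, c3, c4, c5, c6⟩ := T0A.case_two h hx (hy x hx) hA' hB' he
          exact htwo σ τ x h hx c1 c2 c3 c4 c5 c6
    · -- exactly two active darts
      push Not at hy
      obtain ⟨x, hx, hx2⟩ := hy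
      have hact : ∀ y, τ y ≠ y → y = x ∨ y = τ x := by
        intro y hy
        by_contra h1
        push Not at h1
        exact h1.2 (hx2 y hy h1.1)
      have hτx : τ (τ x) ≠ τ x := by
        rw [h.inv]
        exact hx.symm
      by_cases h1 : σ x = x
      · have h2 : σ (τ x) = τ x := by
          rcases hact _ (T0A.active_apply h hτx) with h3 | h3
          · exfalso
            exact hx (σ.injective (h3.trans h1.symm))
          · exact h3
        have h3 : σ = 1 := by
          ext y
          by_cases hy : τ y = y
          · exact h.fix y hy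
          · rcases hact y hy with rfl | rfl
            · exact h1
            · exact h2
        rw [h3]
        exact hone τ x h.inv hx hact
      · have h2 : σ x = τ x := (hact _ (T0A.active_apply h hx)).resolve_left h1
        have h3 : σ (τ x) = x := by
          rcases hact _ (T0A.active_apply h hτx) with h3 | h3
          · exact h3
          · exfalso
            exact hx (σ.injective (h3.trans h2.symm))
        apply hdual σ τ h
        have h4 : σ * τ = 1 := by
          ext y
          rw [Perm.mul_apply]
          by_cases hy : τ y = y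
          · rw [hy]
            exact h.fix y hy
          · rcases hact y hy with rfl | rfl
            · exact h3
            · rw [h.inv]
              exact h2
        rw [h4]
        exact hone τ x h.inv hx hact

end Pool.Agent.MP_f5837d_co
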