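import Pool.Agent.Lib.MP_f5837d_co.T0Defs

/-!
# Task T0B, part 1: duality, one edge, the square grid
-/

set_option autoImplicit false

namespace Pool.Agent.MP_f5837d_co

open Equiv Equiv.Perm

variable {D : Type*} [Fintype D] [DecidableEq D]

namespace T0B

omit [DecidableEq D] in
theorem expo_pos : 0 < expo D := Nat.factorial_pos _

omit [DecidableEq D] in
theorem dvd_expo {k : ℕ} (hk : 0 < k) (h : k ≤ Fintype.card D) : k ∣ expo D :=
  Nat.dvd_factorial hk h

theorem pow_expo (σ : Perm D) : σ ^ expo D = 1 := by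
  have h := pow_card_eq_one (G := Perm D) (x := σ)
  rwa [Fintype.card_perm] at h

end T0B

theorem hasCover_dual {Γ : Type} [AddCommGroup Γ] {σ τ : Perm D} (h : IsMap σ τ)
    (hc : HasCover Γ (σ * τ) τ) : HasCover Γ σ τ := by
  obtain ⟨s', t, h1, h2, h3, h4, h5, h6, h7, h8, h9, h10, h11⟩ := hc
  have htt : t * t = 1 := by
    ext1 x
    exact h5 x
  have hst : s' * t * t = s' := by rw [mul_assoc, htt, mul_one]
  refine ⟨s' * t, t, ?_, h2, ?_, h4, h5, ?_, h8, ?_, ?_, ?_, ?_⟩
  · intro x
    rw [mul_apply, h1, h2, mul_apply, h.inv]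
  · intro d z γ
    rw [mul_apply, h4, h3]
    rfl
  · intro d z hd
    have := h6 d z hd
    exact ⟨by rw [mul_apply, this.2, this.1], this.2⟩
  · rw [hst]; exact h7
  · intro d z z' hd
    have key : ∀ a b : D × Γ, Relation.ReflTransGen (fun x y => y = s' x ∨ y = t x) a b →
        Relation.ReflTransGen (fun x y => y = (s' * t) x ∨ y = t x) a b := by
      intro a b hab
      induction hab with
      | refl => exact Relation.ReflTransGen.refl
      | @tail y w hab hyz ih =>
        rcases hyz with hyz | hyz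
        · refine (ih.tail (b := y) (c := t y) (Or.inr rfl)).tail (Or.inl ?_)
          rw [mul_apply, h5, hyz]
        · exact ih.tail (Or.inr hyz)
    exact key _ _ (h9 d z z' hd)
  · intro E hE hs
    obtain ⟨F, hF1, hF2⟩ := h11 E hE hs
    refine ⟨F, fun x => ?_, hF2⟩
    rw [mul_apply, h5]
    exact hF1 x
  · intro E hE hs
    rw [hst] at hs
    obtain ⟨F, hF1, hF2⟩ := h10 E hE hs
    exact ⟨F, hF1, hF2⟩

/-- One edge in the sphere. -/
theorem hasCover_one {τ : Perm D} {x : D} (hinv : ∀ d, τ (τ d) = d) (hx : τ x ≠ x)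
    (hall : ∀ y, τ y ≠ y → y = x ∨ y = τ x) : HasCover PUnit (1 : Perm D) τ := by
  have h2 : 2 ∣ expo D := by
    refine T0B.dvd_expo (by norm_num) ?_
    have : ({τ x, x} : Finset D).card = 2 := Finset.card_pair hx
    rw [← this]
    exact Finset.card_le_univ _
  set t : Perm (D × PUnit) := ⟨fun y => (τ y.1, y.2), fun y => (τ y.1, y.2),
    fun y => by ext1 <;> simp [hinv], fun y => by ext1 <;> simp [hinv]⟩ with ht
  have htv : ∀ y, t y = (τ y.1, y.2) := fun y => rfl
  have htt : t ^ 2 = 1 := by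
    ext1 y
    rw [pow_two, mul_apply, htv, htv]
    simp [hinv]
  have hte : t ^ expo D = 1 := by
    obtain ⟨k, hk⟩ := h2
    rw [hk, pow_mul, htt, one_pow]
  refine ⟨1, t, fun _ => rfl, fun _ => rfl, fun _ _ _ => rfl, fun _ _ _ => rfl, ?_, ?_,
    one_pow _, by rw [one_mul]; exact hte, ?_, ?_, ?_⟩
  · intro y
    rw [htv, htv]
    simp [hinv]
  · intro d z hd
    refine ⟨rfl, ?_⟩
    rw [htv]
    simp [hd]
  · intro d z z' _
    exact Relation.ReflTransGen.refl
  · intro E hE hs
    refine ⟨fun _ => 0, fun _ => rfl, fun y => ?_⟩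
    have := hs y
    simp only [one_pow, one_apply, Finset.sum_const, Finset.card_range] at this
    rcases mul_eq_zero.mp this with h | h
    · exfalso
      have := T0B.expo_pos (D := D)
      simp at h
      omega
    · simp [h]
  · intro E hE _
    classical
    refine ⟨fun y => if y.1 = x then E y else 0, fun _ => rfl, fun y => ?_⟩
    obtain ⟨d, z⟩ := y
    rw [htv]
    by_cases hd : τ d = d
    · have h0 : E (d, z) = 0 := by
        have := hE (d, z)
        rw [htv] at this
        simp only [hd] at this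
        omega
      simp [hd, h0]
    · rcases hall d hd with h | h
      · subst h
        simp [hx]
      · subst h
        have h0 := hE (x, z)
        rw [htv] at h0
        simp [hinv, hx, h0]


namespace T0B

theorem exists_sumZ : ∃ S : (ℤ → ℤ) → ℤ → ℤ, (∀ g, S g 0 = 0) ∧
    ∀ g m, S g (m + 1) - S g m = g m := by
  refine ⟨fun g m => ∑ i ∈ Finset.range m.toNat, g i -
    ∑ i ∈ Finset.range (-m).toNat, g (-1 - i), fun g => by simp, fun g m => ?_⟩
  rcases le_or_gt 0 m with h | h
  · have h1 : (m + 1).toNat = m.toNat + 1 := by omega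
    have h2 : (-(m + 1)).toNat = 0 := by omega
    have h3 : (-m).toNat = 0 := by omega
    have h4 : ((m.toNat : ℕ) : ℤ) = m := by omega
    simp only [h1, h2, h3, Finset.sum_range_succ, Finset.range_zero, Finset.sum_empty, h4]
    ring
  · have h1 : (m + 1).toNat = 0 := by omega
    have h2 : (-m).toNat = (-(m + 1)).toNat + 1 := by omega
    have h3 : m.toNat = 0 := by omega
    have h4 : -1 - (((-(m + 1)).toNat : ℕ) : ℤ) = m := by omega
    simp only [h1, h2, h3, Finset.sum_range_succ, Finset.range_zero, Finset.sum_empty, h4]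
    ring

theorem poincare (a b : ℤ → ℤ → ℤ) (h : ∀ m n, a m (n + 1) - a m n = b (m + 1) n - b m n) :
    ∃ f : ℤ → ℤ → ℤ, (∀ m n, f (m + 1) n - f m n = a m n) ∧
      ∀ m n, f m (n + 1) - f m n = b m n := by
  obtain ⟨S, hS0, hS⟩ := exists_sumZ
  refine ⟨fun m n => S (fun m => a m 0) m + S (fun n => b m n) n, fun m n => ?_, fun m n => ?_⟩
  · have h1 : S (fun m => a m 0) (m + 1) - S (fun m => a m 0) m = a m 0 := hS (fun m => a m 0) m
    have key : ∀ n : ℤ, S (fun n => b (m + 1) n) n - S (fun n => b m n) n = a m n - a m 0 := by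
      intro n
      induction n using Int.induction_on with
      | zero => rw [hS0, hS0]; ring
      | succ n ih =>
        have e1 := hS (fun n => b (m + 1) n) n
        have e2 := hS (fun n => b m n) n
        have e3 := h m n
        linarith
      | pred n ih =>
        have e1 := hS (fun n => b (m + 1) n) (-n - 1)
        have e2 := hS (fun n => b m n) (-n - 1)
        have e3 := h m (-n - 1)
        simp only [sub_add_cancel] at e1 e2 e3
        linarith
    have := key n
    linarith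
  · have := hS (fun n => b m n) n
    linarith

theorem sum_pow_mul {X : Type*} (s : Perm X) (m K : ℕ) (hs : s ^ m = 1) (E : X → ℤ) (y : X) :
    ∑ k ∈ Finset.range (m * K), E ((s ^ k) y) = K * ∑ k ∈ Finset.range m, E ((s ^ k) y) := by
  induction K with
  | zero => simp
  | succ K ih =>
    rw [mul_add, mul_one, Finset.sum_range_add, ih]
    have : ∀ k, s ^ (m * K + k) = s ^ k := by
      intro k
      rw [pow_add, pow_mul, hs, one_pow, one_mul]
    simp only [this]
    push_cast
    ring

theorem sum_of_dvd {X : Type*} (s : Perm X) (m : ℕ) (N : ℕ) (hN : 0 < N) (hm : m ∣ N)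
    (hs : s ^ m = 1) (E : X → ℤ) (y : X) (h : ∑ k ∈ Finset.range N, E ((s ^ k) y) = 0) :
    ∑ k ∈ Finset.range m, E ((s ^ k) y) = 0 := by
  obtain ⟨K, hK⟩ := hm
  rw [hK, sum_pow_mul s m K hs] at h
  rcases mul_eq_zero.mp h with h | h
  · exfalso
    have : K = 0 := by exact_mod_cast h
    rw [this] at hK
    omega
  · exact h

theorem grid {σ τ : Perm D} {x x1 x2 x3 : D} (s0 : σ x = x1) (s1 : σ x1 = x2) (s2 : σ x2 = x3)
    (s3 : σ x3 = x) (t0 : τ x = x2) (t1 : τ x1 = x3) (t2 : τ x2 = x) (t3 : τ x3 = x1)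
    (n01 : x ≠ x1) (n02 : x ≠ x2) (n03 : x ≠ x3) (n12 : x1 ≠ x2) (n13 : x1 ≠ x3) (n23 : x2 ≠ x3)
    (ho : ∀ y, y ≠ x → y ≠ x1 → y ≠ x2 → y ≠ x3 → τ y = y ∧ σ y = y) :
    HasCover (ℤ × ℤ) σ τ := by
  classical
  have hcase : ∀ y, y = x ∨ y = x1 ∨ y = x2 ∨ y = x3 ∨
      (y ≠ x ∧ y ≠ x1 ∧ y ≠ x2 ∧ y ≠ x3 ∧ τ y = y ∧ σ y = y) := by
    intro y
    by_cases h0 : y = x
    · exact Or.inl h0
    by_cases h1 : y = x1
    · exact Or.inr (Or.inl h1)
    by_cases h2 : y = x2
    · exact Or.inr (Or.inr (Or.inl h2))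
    by_cases h3 : y = x3
    · exact Or.inr (Or.inr (Or.inr (Or.inl h3)))
    exact Or.inr (Or.inr (Or.inr (Or.inr ⟨h0, h1, h2, h3, ho y h0 h1 h2 h3⟩)))
  set a : D → ℤ × ℤ := fun d => if d = x then (1, 0) else if d = x1 then (0, 1) else
    if d = x2 then (-1, 0) else if d = x3 then (0, -1) else 0 with ha
  have a0 : a x = (1, 0) := by simp [ha]
  have a1 : a x1 = (0, 1) := by simp [ha, n01.symm]
  have a2 : a x2 = (-1, 0) := by simp [ha, n02.symm, n12.symm]
  have a3 : a x3 = (0, -1) := by simp [ha, n03.symm, n13.symm, n23.symm]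
  have a4 : ∀ y, y ≠ x → y ≠ x1 → y ≠ x2 → y ≠ x3 → a y = 0 := by
    intro y h0 h1 h2 h3
    simp [ha, h0, h1, h2, h3]
  have hτ : ∀ y, τ (τ y) = y := by
    intro y
    rcases hcase y with h | h | h | h | ⟨h0, h1, h2, h3, h4, h5⟩
    · rw [h, t0, t2]
    · rw [h, t1, t3]
    · rw [h, t2, t0]
    · rw [h, t3, t1]
    · rw [h4, h4]
  have haτ : ∀ y, a y + a (τ y) = 0 := by
    intro y
    rcases hcase y with h | h | h | h | ⟨h0, h1, h2, h3, h4, h5⟩
    · rw [h, t0, a0, a2]; rfl
    · rw [h, t1, a1, a3]; rfl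
    · rw [h, t2, a0, a2]; rfl
    · rw [h, t3, a1, a3]; rfl
    · rw [h4, a4 y h0 h1 h2 h3]; rfl
  have htinv : ∀ y : D × (ℤ × ℤ), (τ (τ y.1), y.2 + a y.1 + a (τ y.1)) = y := by
    intro y
    rw [hτ, add_assoc, haτ, add_zero]
  set s : Perm (D × (ℤ × ℤ)) := Equiv.prodCongr σ (Equiv.refl _) with hs
  set t : Perm (D × (ℤ × ℤ)) := ⟨fun y => (τ y.1, y.2 + a y.1), fun y => (τ y.1, y.2 + a y.1),
    htinv, htinv⟩ with ht
  have hsv : ∀ d z, s (d, z) = (σ d, z) := fun d z => rfl
  have htv : ∀ d z, t (d, z) = (τ d, z + a d) := fun d z => rfl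
  have hcard : 4 ≤ Fintype.card D := by
    have h4 : ({x, x1, x2, x3} : Finset D).card = 4 := by
      rw [Finset.card_insert_of_notMem, Finset.card_insert_of_notMem, Finset.card_pair n23]
      · simp [n12, n13]
      · simp [n01, n02, n03]
    rw [← h4]
    exact Finset.card_le_univ _
  have hdvd : 4 ∣ expo D := dvd_expo (by norm_num) hcard
  have hs4 : s ^ 4 = 1 := by
    ext1 ⟨y, z⟩
    simp only [pow_succ, pow_zero, one_mul, mul_apply, hsv, one_apply]
    rcases hcase y with h | h | h | h | ⟨h0, h1, h2, h3, h4, h5⟩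
    · rw [h, s0, s1, s2, s3]
    · rw [h, s1, s2, s3, s0]
    · rw [h, s2, s3, s0, s1]
    · rw [h, s3, s0, s1, s2]
    · simp [h5]
  have hst4 : (s * t) ^ 4 = 1 := by
    ext1 ⟨y, z⟩
    simp only [pow_succ, pow_zero, one_mul, mul_apply, htv, hsv, one_apply]
    rcases hcase y with h | h | h | h | ⟨h0, h1, h2, h3, h4, h5⟩
    · rw [h, t0, s2, t3, s1, t2, s0, t1, s3, a0, a3, a2, a1]
      ext <;> simp
    · rw [h, t1, s3, t0, s2, t3, s1, t2, s0, a0, a3, a2, a1]
      ext <;> simp
    · rw [h, t2, s0, t1, s3, t0, s2, t3, s1, a0, a3, a2, a1]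
      ext <;> simp
    · rw [h, t3, s1, t2, s0, t1, s3, t0, s2, a0, a3, a2, a1]
      ext <;> simp
    · simp [h4, h5, a4 y h0 h1 h2 h3]
  refine ⟨s, t, fun _ => rfl, fun _ => rfl, fun _ _ _ => rfl, ?_, ?_, ?_, ?_, ?_, ?_, ?_, ?_⟩
  · intro d z γ
    rw [htv, htv]
    ext1
    · rfl
    · simp only; abel
  · rintro ⟨d, z⟩
    exact htinv (d, z)
  · intro d z hd
    rcases hcase d with h | h | h | h | ⟨h0, h1, h2, h3, h4, h5⟩
    · rw [h, t0] at hd; exact absurd hd.symm n02
    · rw [h, t1] at hd; exact absurd hd.symm n13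
    · rw [h, t2] at hd; exact absurd hd n02
    · rw [h, t3] at hd; exact absurd hd n13
    · rw [hsv, htv, h4, h5, a4 d h0 h1 h2 h3, add_zero]
      exact ⟨rfl, rfl⟩
  · obtain ⟨K, hK⟩ := hdvd
    rw [hK, pow_mul, hs4, one_pow]
  · obtain ⟨K, hK⟩ := hdvd
    rw [hK, pow_mul, hst4, one_pow]
  · -- connectivity
    set R : D × (ℤ × ℤ) → D × (ℤ × ℤ) → Prop :=
      Relation.ReflTransGen (fun x y => y = s x ∨ y = t x) with hR
    have rs : ∀ d z, R (d, z) (σ d, z) := fun d z => Relation.ReflTransGen.single (Or.inl rfl)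
    have rt : ∀ d z, R (d, z) (τ d, z + a d) := fun d z =>
      Relation.ReflTransGen.single (Or.inr rfl)
    have r01 : ∀ z, R (x, z) (x1, z) := fun z => by have := rs x z; rwa [s0] at this
    have r12 : ∀ z, R (x1, z) (x2, z) := fun z => by have := rs x1 z; rwa [s1] at this
    have r23 : ∀ z, R (x2, z) (x3, z) := fun z => by have := rs x2 z; rwa [s2] at this
    have r30 : ∀ z, R (x3, z) (x, z) := fun z => by have := rs x3 z; rwa [s3] at this
    have q02 : ∀ z, R (x, z) (x2, z) := fun z => (r01 z).trans (r12 z)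
    have q03 : ∀ z, R (x, z) (x3, z) := fun z => (q02 z).trans (r23 z)
    have q20 : ∀ z, R (x2, z) (x, z) := fun z => (r23 z).trans (r30 z)
    have q10 : ∀ z, R (x1, z) (x, z) := fun z => (r12 z).trans (q20 z)
    have e1 : ∀ z, R (x, z) (x, z + (1, 0)) := fun z => by
      have := rt x z
      rw [t0, a0] at this
      exact this.trans (q20 _)
    have e1' : ∀ z, R (x, z) (x, z + (-1, 0)) := fun z => by
      have := rt x2 z
      rw [t2, a2] at this
      exact (q02 z).trans this
    have e2 : ∀ z, R (x, z) (x, z + (0, 1)) := fun z => by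
      have := rt x1 z
      rw [t1, a1] at this
      exact ((r01 z).trans this).trans (r30 _)
    have e2' : ∀ z, R (x, z) (x, z + (0, -1)) := fun z => by
      have := rt x3 z
      rw [t3, a3] at this
      exact ((q03 z).trans this).trans (q10 _)
    have hm : ∀ (m : ℤ) z, R (x, z) (x, z + (m, 0)) := by
      intro m z
      induction m using Int.induction_on with
      | zero =>
        have h0 : z + ((0 : ℤ), (0 : ℤ)) = z := by simp
        rw [h0]
      | succ n ih =>
        have := e1 (z + ((n : ℤ), 0))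
        have h' : z + ((n : ℤ), (0 : ℤ)) + (1, 0) = z + ((n : ℤ) + 1, 0) := by
          ext <;> simp <;> ring
        rw [h'] at this
        exact ih.trans this
      | pred n ih =>
        have := e1' (z + (-(n : ℤ), 0))
        have h' : z + (-(n : ℤ), (0 : ℤ)) + (-1, 0) = z + (-(n : ℤ) - 1, 0) := by
          ext <;> simp <;> ring
        rw [h'] at this
        exact ih.trans this
    have hn : ∀ (m : ℤ) z, R (x, z) (x, z + (0, m)) := by
      intro m z
      induction m using Int.induction_on with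
      | zero =>
        have h0 : z + ((0 : ℤ), (0 : ℤ)) = z := by simp
        rw [h0]
      | succ n ih =>
        have := e2 (z + (0, (n : ℤ)))
        have h' : z + ((0 : ℤ), (n : ℤ)) + (0, 1) = z + (0, (n : ℤ) + 1) := by
          ext <;> simp <;> ring
        rw [h'] at this
        exact ih.trans this
      | pred n ih =>
        have := e2' (z + (0, -(n : ℤ)))
        have h' : z + ((0 : ℤ), -(n : ℤ)) + (0, -1) = z + (0, -(n : ℤ) - 1) := by
          ext <;> simp <;> ring
        rw [h'] at this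
        exact ih.trans this
    have hall : ∀ z z', R (x, z) (x, z') := by
      intro z z'
      have h1 := hm (z'.1 - z.1) z
      have h2 := hn (z'.2 - z.2) (z + (z'.1 - z.1, 0))
      have h' : z + (z'.1 - z.1, (0 : ℤ)) + (0, z'.2 - z.2) = z' := by
        ext <;> simp
      rw [h'] at h2
      exact h1.trans h2
    intro d z z' hd
    rcases hcase d with h | h | h | h | ⟨h0, h1, h2, h3, h4, h5⟩
    · rw [h]; exact hall z z'
    · rw [h]; exact ((q10 z).trans (hall z z')).trans (r01 z')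
    · rw [h]; exact ((q20 z).trans (hall z z')).trans (q02 z')
    · rw [h]; exact ((r30 z).trans (hall z z')).trans (q03 z')
    · exact absurd h4 hd
  · -- flows
    intro E hE hsum
    have hanti : ∀ d z, E (τ d, z + a d) = - E (d, z) := fun d z => hE (d, z)
    have hE0 : ∀ y z, y ≠ x → y ≠ x1 → y ≠ x2 → y ≠ x3 → E (y, z) = 0 := by
      intro y z h0 h1 h2 h3
      have := hanti y z
      rw [(ho y h0 h1 h2 h3).1, a4 y h0 h1 h2 h3, add_zero] at this
      omega
    have hv : ∀ z, E (x, z) + E (x1, z) + E (x2, z) + E (x3, z) = 0 := by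
      intro z
      have := sum_of_dvd s 4 (expo D) expo_pos hdvd hs4 E (x, z) (hsum (x, z))
      simp only [Finset.sum_range_succ, Finset.range_zero, Finset.sum_empty, pow_succ, pow_zero,
        one_mul, mul_apply, hsv, one_apply, s0, s1, s2, zero_add] at this
      exact this
    have hx2 : ∀ m n : ℤ, E (x2, (m, n)) = - E (x, (m - 1, n)) := by
      intro m n
      have := hanti x (m - 1, n)
      rw [t0, a0] at this
      rw [← this]
      congr 2
      ext <;> simp
    have hx3 : ∀ m n : ℤ, E (x3, (m, n)) = - E (x1, (m, n - 1)) := by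
      intro m n
      have := hanti x1 (m, n - 1)
      rw [t1, a1] at this
      rw [← this]
      congr 2
      ext <;> simp
    obtain ⟨f, hf1, hf2⟩ := poincare (fun m n => E (x1, (m + 1, n - 1)))
      (fun m n => - E (x, (m, n))) (by
        intro m n
        have h1 := hv (m + 1, n)
        rw [hx2, hx3] at h1
        simp only [add_sub_cancel_right] at h1 ⊢
        linarith)
    set F : D × (ℤ × ℤ) → ℤ := fun y => if y.1 = x then f y.2.1 y.2.2 else
      if y.1 = x1 then f y.2.1 (y.2.2 + 1) else if y.1 = x2 then f (y.2.1 - 1) (y.2.2 + 1) else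
      if y.1 = x3 then f (y.2.1 - 1) y.2.2 else 0 with hF
    have F0 : ∀ m n, F (x, (m, n)) = f m n := fun m n => by simp [hF]
    have F1 : ∀ m n, F (x1, (m, n)) = f m (n + 1) := fun m n => by simp [hF, n01.symm]
    have F2 : ∀ m n, F (x2, (m, n)) = f (m - 1) (n + 1) := fun m n => by
      simp [hF, n02.symm, n12.symm]
    have F3 : ∀ m n, F (x3, (m, n)) = f (m - 1) n := fun m n => by
      simp [hF, n03.symm, n13.symm, n23.symm]
    have F4 : ∀ y z, y ≠ x → y ≠ x1 → y ≠ x2 → y ≠ x3 → F (y, z) = 0 := fun y z h0 h1 h2 h3 => by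
      simp [hF, h0, h1, h2, h3]
    refine ⟨F, ?_, ?_⟩
    · rintro ⟨y, ⟨m, n⟩⟩
      rw [htv, hsv]
      rcases hcase y with h | h | h | h | ⟨h0, h1, h2, h3, h4, h5⟩
      · rw [h, t0, s2, a0, Prod.mk_add_mk, F3, F0]; simp
      · rw [h, t1, s3, a1, Prod.mk_add_mk, F0, F1]; simp
      · rw [h, t2, s0, a2, Prod.mk_add_mk, F1, F2]; simp [sub_eq_add_neg]
      · rw [h, t3, s1, a3, Prod.mk_add_mk, F2, F3]; simp
      · rw [h4, h5, F4 y _ h0 h1 h2 h3, F4 y _ h0 h1 h2 h3]
    · rintro ⟨y, ⟨m, n⟩⟩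
      rw [htv]
      rcases hcase y with h | h | h | h | ⟨h0, h1, h2, h3, h4, h5⟩
      · rw [h, t0, a0, Prod.mk_add_mk, F2, F0]
        have := hf2 m n
        simp only [add_zero, add_sub_cancel_right] at this ⊢
        linarith
      · rw [h, t1, a1, Prod.mk_add_mk, F3, F1]
        have := hf1 (m - 1) (n + 1)
        simp only [add_zero, add_sub_cancel_right, sub_add_cancel] at this ⊢
        linarith
      · rw [h, t2, a2, Prod.mk_add_mk, F0, F2, hx2]
        have := hf2 (m - 1) n
        simp only [add_zero, ← sub_eq_add_neg] at this ⊢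
        linarith
      · rw [h, t3, a3, Prod.mk_add_mk, F1, F3, hx3]
        have := hf1 (m - 1) n
        simp only [add_zero, sub_add_cancel, ← sub_eq_add_neg] at this ⊢
        linarith
      · rw [h4, F4 y _ h0 h1 h2 h3, F4 y _ h0 h1 h2 h3, hE0 y _ h0 h1 h2 h3]
        rfl
  · -- closed functions
    intro E hE hsum
    have hanti : ∀ d z, E (τ d, z + a d) = - E (d, z) := fun d z => hE (d, z)
    have hE0 : ∀ y z, y ≠ x → y ≠ x1 → y ≠ x2 → y ≠ x3 → E (y, z) = 0 := by
      intro y z h0 h1 h2 h3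
      have := hanti y z
      rw [(ho y h0 h1 h2 h3).1, a4 y h0 h1 h2 h3, add_zero] at this
      omega
    have hx2 : ∀ m n : ℤ, E (x2, (m, n)) = - E (x, (m - 1, n)) := by
      intro m n
      have := hanti x (m - 1, n)
      rw [t0, a0] at this
      rw [← this]
      congr 2
      ext <;> simp
    have hx3 : ∀ m n : ℤ, E (x3, (m, n)) = - E (x1, (m, n - 1)) := by
      intro m n
      have := hanti x1 (m, n - 1)
      rw [t1, a1] at this
      rw [← this]
      congr 2
      ext <;> simp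
    have hv : ∀ m n : ℤ, E (x, (m, n)) + E (x3, (m + 1, n)) + E (x2, (m + 1, n - 1)) +
        E (x1, (m, n - 1)) = 0 := by
      intro m n
      have := sum_of_dvd (s * t) 4 (expo D) expo_pos hdvd hst4 E (x, (m, n)) (hsum (x, (m, n)))
      simp only [Finset.sum_range_succ, Finset.range_zero, Finset.sum_empty, pow_succ, pow_zero,
        one_mul, mul_apply, hsv, htv, one_apply, t0, s2, a0, t3, s1, a3, t2, s0, a2, zero_add,
        Prod.mk_add_mk] at this
      have e1 : m + 1 + 0 + -1 = m := by ring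
      have e2 : n + 0 + -1 = n - 1 := by ring
      simp only [add_zero] at this
      have e3 : m + 1 + -1 = m := by ring
      have e4 : n + -1 = n - 1 := by ring
      rw [e3, e4] at this
      linarith
    obtain ⟨f, hf1, hf2⟩ := poincare (fun m n => - E (x, (m, n)))
      (fun m n => - E (x1, (m, n))) (by
        intro m n
        have h1 := hv m (n + 1)
        rw [hx2, hx3] at h1
        simp only [add_sub_cancel_right] at h1 ⊢
        linarith)
    set F : D × (ℤ × ℤ) → ℤ := fun y => if y.1 = x ∨ y.1 = x1 ∨ y.1 = x2 ∨ y.1 = x3 then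
      f y.2.1 y.2.2 else 0 with hF
    have F0 : ∀ m n, F (x, (m, n)) = f m n := fun m n => by simp [hF]
    have F1 : ∀ m n, F (x1, (m, n)) = f m n := fun m n => by simp [hF]
    have F2 : ∀ m n, F (x2, (m, n)) = f m n := fun m n => by simp [hF]
    have F3 : ∀ m n, F (x3, (m, n)) = f m n := fun m n => by simp [hF]
    have F4 : ∀ y z, y ≠ x → y ≠ x1 → y ≠ x2 → y ≠ x3 → F (y, z) = 0 := fun y z h0 h1 h2 h3 => by
      simp [hF, h0, h1, h2, h3]
    refine ⟨F, ?_, ?_⟩
    · rintro ⟨y, ⟨m, n⟩⟩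
      rw [hsv]
      rcases hcase y with h | h | h | h | ⟨h0, h1, h2, h3, h4, h5⟩
      · rw [h, s0, F1, F0]
      · rw [h, s1, F2, F1]
      · rw [h, s2, F3, F2]
      · rw [h, s3, F0, F3]
      · rw [h5]
    · rintro ⟨y, ⟨m, n⟩⟩
      rw [htv]
      rcases hcase y with h | h | h | h | ⟨h0, h1, h2, h3, h4, h5⟩
      · rw [h, t0, a0, Prod.mk_add_mk, F2, F0]
        have := hf1 m n
        simp only [add_zero] at this ⊢
        linarith
      · rw [h, t1, a1, Prod.mk_add_mk, F3, F1]
        have := hf2 m n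
        simp only [add_zero] at this ⊢
        linarith
      · rw [h, t2, a2, Prod.mk_add_mk, F0, F2, hx2]
        have := hf1 (m - 1) n
        simp only [add_zero, sub_add_cancel, ← sub_eq_add_neg] at this ⊢
        linarith
      · rw [h, t3, a3, Prod.mk_add_mk, F1, F3, hx3]
        have := hf2 m (n - 1)
        simp only [add_zero, sub_add_cancel, ← sub_eq_add_neg] at this ⊢
        linarith
      · rw [h4, F4 y _ h0 h1 h2 h3, F4 y _ h0 h1 h2 h3, hE0 y _ h0 h1 h2 h3]
        rfl

end T0B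

/-- The square grid. -/
theorem hasCover_two {σ τ : Perm D} {x : D} (h : IsMap σ τ) (hx : τ x ≠ x) (hσ : σ x ≠ x)
    (h2 : τ x = σ (σ x)) (h3 : τ (σ x) = σ (σ (σ x))) (h4 : σ (σ (σ (σ x))) = x)
    (hne : τ x ≠ σ x)
    (hall : ∀ y, τ y ≠ y → y = x ∨ y = σ x ∨ y = σ (σ x) ∨ y = σ (σ (σ x))) :
    HasCover (ℤ × ℤ) σ τ := by
  have n02 : x ≠ σ (σ x) := by rw [← h2]; exact hx.symm
  have n12 : σ x ≠ σ (σ x) := by rw [← h2]; exact hne.symm
  have n03 : x ≠ σ (σ (σ x)) := by
    intro hcon
    have h5 : τ (σ x) = x := by rw [h3]; exact hcon.symm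
    have h6 : σ x = τ x := by rw [← h.inv (σ x), h5]
    exact hne h6.symm
  have n13 : σ x ≠ σ (σ (σ x)) := by
    intro hcon
    exact n02 (σ.injective hcon)
  have n23 : σ (σ x) ≠ σ (σ (σ x)) := fun hcon => n12 (σ.injective hcon)
  refine T0B.grid (x := x) (x1 := σ x) (x2 := σ (σ x)) (x3 := σ (σ (σ x))) rfl rfl rfl h4 h2 h3
    (by rw [← h2, h.inv]) (by rw [← h3, h.inv]) hσ.symm n02 n03 n12 n13 n23 ?_
  intro y y0 y1 y2 y3
  have hy : τ y = y := by
    by_contra hcon
    rcases hall y hcon with h | h | h | h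
    · exact y0 h
    · exact y1 h
    · exact y2 h
    · exact y3 h
  exact ⟨hy, h.fix y hy⟩

end Pool.Agent.MP_f5837d_co
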