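import Pool.Agent.Lib.MP_f5837d_co.T0Del
import Pool.Agent.Lib.MP_f5837d_co.T0B1
import Pool.Agent.Lib.MP_f5837d_co.T0A



/-!
# Task T0C: the cover of a map without inactive darts, in the gauge `s (d, z) = (σ d, z)`
-/

set_option autoImplicit false

namespace Pool.Agent.MP_f5837d_co

open Equiv Equiv.Perm

variable {D : Type*} [Fintype D] [DecidableEq D]

namespace T0C

theorem expo_pos (D : Type*) [Fintype D] : 0 < expo D := Nat.factorial_pos _

theorem pow_expo {D : Type*} [Fintype D] [DecidableEq D] (σ : Perm D) : σ ^ expo D = 1 := by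
  have h : orderOf σ ∣ expo D := by
    unfold expo
    rw [← Fintype.card_perm]
    exact orderOf_dvd_card
  exact orderOf_dvd_iff_pow_eq_one.1 h

theorem sum_mul_period {M : Type*} [AddCommMonoid M] (f : ℕ → M) (p : ℕ)
    (hf : ∀ j, f (j + p) = f j) (n : ℕ) :
    ∑ j ∈ Finset.range (n * p), f j = n • ∑ j ∈ Finset.range p, f j := by
  have hf' : ∀ n j, f (n * p + j) = f j := by
    intro n
    induction n with
    | zero => intro j; simp
    | succ n ih =>
      intro j
      rw [show (n + 1) * p + j = (n * p + j) + p by ring, hf, ih]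
  induction n with
  | zero => simp
  | succ n ih =>
    rw [show (n + 1) * p = n * p + p by ring, Finset.sum_range_add, ih, succ_nsmul]
    congr 1
    exact Finset.sum_congr rfl fun j _ => hf' n j

theorem pow_add_apply {D : Type*} (σ : Perm D) (i j : ℕ) (x : D) :
    (σ ^ (i + j)) x = (σ ^ i) ((σ ^ j) x) := by
  rw [pow_add]; rfl

theorem pow_succ_apply' {D : Type*} (σ : Perm D) (i : ℕ) (x : D) :
    (σ ^ (i + 1)) x = σ ((σ ^ i) x) := by
  rw [pow_succ']; rfl

theorem nsmul_eq_zero' {n : ℕ} (hn : n ≠ 0) {z : ℤ × ℤ} (h : n • z = 0) : z = 0 := by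
  have h1 : n • z.1 = 0 := congrArg Prod.fst h
  have h2 : n • z.2 = 0 := congrArg Prod.snd h
  rw [nsmul_eq_mul, mul_eq_zero, Nat.cast_eq_zero] at h1 h2
  exact Prod.ext (h1.resolve_left hn) (h2.resolve_left hn)

theorem sum_period {D : Type*} (σ : Perm D) (b : D → ℤ × ℤ) (L : ℕ) (hL : 0 < L)
    (hσ : σ ^ L = 1) (hb : ∀ d, ∑ k ∈ Finset.range L, b ((σ ^ k) d) = 0) (x : D) (p : ℕ)
    (hp : (σ ^ p) x = x) : ∑ j ∈ Finset.range p, b ((σ ^ j) x) = 0 := by
  apply nsmul_eq_zero' hL.ne'
  rw [← sum_mul_period (fun j => b ((σ ^ j) x)) p (fun j => by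
    rw [pow_add_apply, hp]) L, Nat.mul_comm,
    sum_mul_period (fun j => b ((σ ^ j) x)) L (fun j => by
    rw [pow_add_apply, hσ]; rfl) p, hb x, nsmul_zero]

theorem sum_eq_of_eq {D : Type*} (σ : Perm D) (b : D → ℤ × ℤ) (L : ℕ) (hL : 0 < L)
    (hσ : σ ^ L = 1) (hb : ∀ d, ∑ k ∈ Finset.range L, b ((σ ^ k) d) = 0) (x : D) (m n : ℕ)
    (h : (σ ^ m) x = (σ ^ n) x) (hmn : n ≤ m) :
    ∑ j ∈ Finset.range m, b ((σ ^ j) x) = ∑ j ∈ Finset.range n, b ((σ ^ j) x) := by
  obtain ⟨p, rfl⟩ := Nat.exists_eq_add_of_le hmn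
  rw [Finset.sum_range_add]
  have h1 : (σ ^ p) ((σ ^ n) x) = (σ ^ n) x := by
    rw [← pow_add_apply, Nat.add_comm, h]
  have h2 := sum_period σ b L hL hσ hb ((σ ^ n) x) p h1
  have h3 : ∑ j ∈ Finset.range p, b ((σ ^ (n + j)) x) = 0 := by
    rw [← h2]
    refine Finset.sum_congr rfl fun j _ => ?_
    rw [← pow_add_apply, Nat.add_comm]
  rw [h3, add_zero]

/-- A cocycle with zero sums around the cycles is a coboundary. -/
theorem gauge {D : Type*} [Finite D] (σ : Perm D) (b : D → ℤ × ℤ) (L : ℕ) (hL : 0 < L)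
    (hσ : σ ^ L = 1) (hb : ∀ d, ∑ k ∈ Finset.range L, b ((σ ^ k) d) = 0) :
    ∃ g : D → ℤ × ℤ, ∀ d, b d = g (σ d) - g d := by
  let r : D → D := fun d => (Quotient.mk (SameCycle.setoid σ) d).out
  have hr : ∀ d, SameCycle σ (r d) d := fun d => Quotient.mk_out (s := SameCycle.setoid σ) d
  have hrσ : ∀ d, r (σ d) = r d := by
    intro d
    have : (Quotient.mk (SameCycle.setoid σ) (σ d)) = Quotient.mk (SameCycle.setoid σ) d :=
      Quotient.sound (s := SameCycle.setoid σ) (show SameCycle σ (σ d) d from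
        (sameCycle_apply_left.2 (SameCycle.refl σ d)))
    show (Quotient.mk (SameCycle.setoid σ) (σ d)).out = _
    rw [this]
  choose n hn using fun d => (hr d).exists_nat_pow_eq
  refine ⟨fun d => ∑ j ∈ Finset.range (n d), b ((σ ^ j) (r d)), fun d => ?_⟩
  have h1 : (σ ^ (n (σ d))) (r d) = (σ ^ (n d + 1)) (r d) := by
    have := hn (σ d)
    rw [hrσ] at this
    rw [this, pow_succ_apply', hn d]
  have h2 : ∑ j ∈ Finset.range (n (σ d)), b ((σ ^ j) (r d)) =
      ∑ j ∈ Finset.range (n d + 1), b ((σ ^ j) (r d)) := by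
    rcases le_total (n d + 1) (n (σ d)) with h | h
    · exact sum_eq_of_eq σ b L hL hσ hb _ _ _ h1 h
    · exact (sum_eq_of_eq σ b L hL hσ hb _ _ _ h1.symm h).symm
  simp only
  rw [hrσ, h2, Finset.sum_range_succ, hn d, add_sub_cancel_left]

end T0C

open T0C

theorem hasCover_of_euler {σ τ : Perm D} (h : IsMap σ τ) (hne : ∃ x, τ x ≠ x)
    (he : 0 ≤ euler2 σ τ) : HasCover PUnit σ τ ∨ HasCover (ℤ × ℤ) σ τ := by
  refine map_induction (P := fun σ τ => HasCover PUnit σ τ ∨ HasCover (ℤ × ℤ) σ τ)
    ?_ ?_ ?_ ?_ σ τ h hne he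
  · rintro σ τ h (hc | hc)
    · exact Or.inl (hasCover_dual h hc)
    · exact Or.inr (hasCover_dual h hc)
  · rintro σ τ d h hd hf hy (hc | hc)
    · exact Or.inl (hasCover_del (fun _ _ _ _ => Subsingleton.elim _ _) h hd hf hy hc)
    · exact Or.inr (hasCover_del (fun n x hn hx => T0C.nsmul_eq_zero' hn.ne' hx) h hd hf hy hc)
  · intro τ x h1 h2 h3
    exact Or.inl (hasCover_one h1 h2 h3)
  · intro σ τ x h h1 h2 h3 h4 h5 h6 h7
    exact Or.inr (hasCover_two h h1 h2 h3 h4 h5 h6 h7)

/-- Gauge: the lift of the rotation can be taken to be the identity on `Γ`. -/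
theorem map_cover {σ τ : Perm D} (h : IsMap σ τ) (hτ : ∀ d, τ d ≠ d) [Nonempty D]
    (he : (Fintype.card D : ℤ) ≤ 2 * numCycles σ + 2 * numCycles (σ * τ)) :
    (∀ E : D → ℤ, (∀ d, E (τ d) = - E d) →
      (∀ d, ∑ k ∈ Finset.range (expo D), E ((σ ^ k) d) = 0) →
      ∃ F : D → ℤ, (∀ d, F (σ (τ d)) = F d) ∧ ∀ d, F d - F (τ d) = E d) ∨
    ∃ a : D → ℤ × ℤ, (∀ d, a (τ d) = - a d) ∧
      (∀ d, ∑ k ∈ Finset.range (expo D), a (((σ * τ) ^ k) d) = 0) ∧
      (∀ x y : D × (ℤ × ℤ), Relation.ReflTransGen
        (fun x y => y = (σ x.1, x.2) ∨ y = (τ x.1, x.2 + a x.1)) x y) ∧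
      ∀ E : D × (ℤ × ℤ) → ℤ, (∀ d z, E (τ d, z + a d) = - E (d, z)) →
        (∀ d z, ∑ k ∈ Finset.range (expo D), E ((σ ^ k) d, z) = 0) →
        ∃ F : D × (ℤ × ℤ) → ℤ, (∀ d z, F (σ (τ d), z + a d) = F (d, z)) ∧
          ∀ d z, F (d, z) - F (τ d, z + a d) = E (d, z) := by
  have hne : ∃ x, τ x ≠ x := ⟨Classical.arbitrary D, hτ _⟩
  have he2 : 0 ≤ euler2 σ τ := by
    unfold euler2
    have : (Finset.univ.filter (fun d => τ d = d)) = ∅ := by
      rw [Finset.filter_eq_empty_iff]
      exact fun d _ => hτ d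
    rw [this]
    simp only [Finset.card_empty, Nat.cast_zero, mul_zero, sub_zero]
    linarith
  rcases hasCover_of_euler h hne he2 with hc | hc
  · left
    obtain ⟨s, t, hs, ht, -, -, -, -, -, -, -, hE, -⟩ := hc
    intro E hE1 hE2
    have hsk : ∀ (k : ℕ) (x : D × PUnit), ((s ^ k) x).1 = (σ ^ k) x.1 := by
      intro k
      induction k with
      | zero => intro x; rfl
      | succ k ih => intro x; rw [pow_succ_apply', pow_succ_apply', hs, ih]
    obtain ⟨F, hF1, hF2⟩ := hE (fun x => E x.1) (fun x => by rw [ht]; exact hE1 _)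
      (fun x => by simp only [hsk]; exact hE2 _)
    refine ⟨fun d => F (d, PUnit.unit), fun d => ?_, fun d => ?_⟩
    · have h1 := hF1 (d, PUnit.unit)
      have h2 : s (t (d, PUnit.unit)) = (σ (τ d), PUnit.unit) :=
        Prod.ext (by rw [hs, ht]) rfl
      rw [h2] at h1
      exact h1
    · have h1 := hF2 (d, PUnit.unit)
      have h2 : t (d, PUnit.unit) = (τ d, PUnit.unit) := Prod.ext (by rw [ht]) rfl
      rw [h2] at h1
      exact h1
  · right
    obtain ⟨s, t, hs, ht, hsγ, htγ, htt, -, hsL, hstL, hconn, hE, -⟩ := hc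
    set L := expo D with hL
    set b : D → ℤ × ℤ := fun d => (s (d, 0)).2 with hb
    set a' : D → ℤ × ℤ := fun d => (t (d, 0)).2 with ha'
    have hs' : ∀ d z, s (d, z) = (σ d, z + b d) := by
      intro d z
      have := hsγ d 0 z
      rw [zero_add, hs] at this
      rw [this, hb]
      simp [add_comm]
    have ht' : ∀ d z, t (d, z) = (τ d, z + a' d) := by
      intro d z
      have := htγ d 0 z
      rw [zero_add, ht] at this
      rw [this, ha']
      simp [add_comm]
    have hsk : ∀ (k : ℕ) (d : D) (z : ℤ × ℤ),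
        (s ^ k) (d, z) = ((σ ^ k) d, z + ∑ j ∈ Finset.range k, b ((σ ^ j) d)) := by
      intro k
      induction k with
      | zero => intro d z; simp
      | succ k ih =>
        intro d z
        rw [pow_succ_apply', ih, hs', pow_succ_apply', Finset.sum_range_succ, add_assoc]
    have hbsum : ∀ d, ∑ k ∈ Finset.range L, b ((σ ^ k) d) = 0 := by
      intro d
      have h1 := hsk L d 0
      rw [hsL] at h1
      have := congrArg Prod.snd h1
      simpa using this.symm
    obtain ⟨g, hg⟩ := gauge σ b L (expo_pos D) (pow_expo σ) hbsum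
    have hbk : ∀ (k : ℕ) (d : D),
        ∑ j ∈ Finset.range k, b ((σ ^ j) d) = g ((σ ^ k) d) - g d := by
      intro k d
      induction k with
      | zero => simp
      | succ k ih => rw [Finset.sum_range_succ, ih, hg, pow_succ_apply']; abel
    set a : D → ℤ × ℤ := fun d => a' d + g d - g (τ d) with ha
    have hanti : ∀ d, a (τ d) = - a d := by
      intro d
      have h1 := htt (d, 0)
      rw [ht', ht'] at h1
      have h2 := congrArg Prod.snd h1
      simp only [zero_add] at h2
      have h3 : a' (τ d) = - a' d := by rw [eq_neg_iff_add_eq_zero, add_comm]; exact h2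
      simp only [ha]
      rw [h.inv d, h3]
      abel
    have hst : ∀ d z, (s * t) (d, z) = (σ (τ d), z + a' d + b (τ d)) := by
      intro d z
      rw [Perm.mul_apply, ht', hs']
    have hstk : ∀ (k : ℕ) (d : D) (z : ℤ × ℤ),
        ((s * t) ^ k) (d, z) = (((σ * τ) ^ k) d, z + g (((σ * τ) ^ k) d) - g d +
          ∑ j ∈ Finset.range k, a (((σ * τ) ^ j) d)) := by
      intro k
      induction k with
      | zero => intro d z; simp
      | succ k ih =>
        intro d z
        rw [pow_succ_apply', ih, hst, pow_succ_apply', Finset.sum_range_succ]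
        refine Prod.ext rfl ?_
        simp only [ha, Perm.mul_apply]
        rw [hg (τ _)]
        abel
    have hasum : ∀ d, ∑ k ∈ Finset.range L, a (((σ * τ) ^ k) d) = 0 := by
      intro d
      have h1 := hstk L d 0
      rw [hstL, pow_expo] at h1
      have := congrArg Prod.snd h1
      simpa using this.symm
    refine ⟨a, hanti, hasum, ?_, ?_⟩
    · -- connectivity
      set rel : D × (ℤ × ℤ) → D × (ℤ × ℤ) → Prop :=
        fun x y => y = (σ x.1, x.2) ∨ y = (τ x.1, x.2 + a x.1) with hrel
      have hstep : ∀ x y : D × (ℤ × ℤ), (y = s x ∨ y = t x) →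
          rel (x.1, x.2 - g x.1) (y.1, y.2 - g y.1) := by
        rintro ⟨d, z⟩ y (rfl | rfl)
        · left
          rw [hs']
          refine Prod.ext rfl ?_
          simp only
          rw [hg d]
          abel
        · right
          rw [ht']
          refine Prod.ext rfl ?_
          simp only [ha]
          abel
      have hpath : ∀ x y : D × (ℤ × ℤ),
          Relation.ReflTransGen (fun x y => y = s x ∨ y = t x) x y →
          Relation.ReflTransGen rel (x.1, x.2 - g x.1) (y.1, y.2 - g y.1) := by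
        intro x y hxy
        induction hxy with
        | refl => exact Relation.ReflTransGen.refl
        | tail _ h2 ih => exact ih.tail (hstep _ _ h2)
      -- same dart
      have hsame : ∀ d z z', Relation.ReflTransGen rel (d, z) (d, z') := by
        intro d z z'
        have h1 := hpath (d, z + g d) (d, z' + g d) (hconn d _ _ (hτ d))
        simpa using h1
      -- reach another dart
      have hσpow : ∀ (k : ℕ) (d : D) (z : ℤ × ℤ), Relation.ReflTransGen rel (d, z) ((σ ^ k) d, z) := by
        intro k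
        induction k with
        | zero => intro d z; exact Relation.ReflTransGen.refl
        | succ k ih =>
          intro d z
          refine (ih d z).tail (Or.inl ?_)
          rw [pow_succ_apply']
      have hσinv : ∀ (d : D) (z : ℤ × ℤ), Relation.ReflTransGen rel (d, z) (σ⁻¹ d, z) := by
        intro d z
        have h1 := hσpow (L - 1) d z
        have h2 : σ ^ (L - 1) = σ⁻¹ := by
          rw [eq_inv_iff_mul_eq_one, ← pow_succ, Nat.sub_add_cancel (expo_pos D), pow_expo]
        rwa [h2] at h1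
      have hτinv : τ⁻¹ = τ := by
        rw [inv_eq_iff_mul_eq_one]
        ext d
        exact h.inv d
      have hreach : ∀ γ ∈ Subgroup.closure ({σ, τ} : Set (Perm D)), ∀ (d : D) (z : ℤ × ℤ),
          ∃ z', Relation.ReflTransGen rel (d, z) (γ d, z') := by
        intro γ hγ
        induction hγ using Subgroup.closure_induction'' with
        | mem x hx =>
          intro d z
          rcases hx with rfl | rfl
          · exact ⟨z, Relation.ReflTransGen.single (Or.inl rfl)⟩
          · exact ⟨_, Relation.ReflTransGen.single (Or.inr rfl)⟩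
        | inv_mem x hx =>
          intro d z
          rcases hx with rfl | rfl
          · exact ⟨z, hσinv d z⟩
          · rw [hτinv]
            exact ⟨_, Relation.ReflTransGen.single (Or.inr rfl)⟩
        | one => intro d z; exact ⟨z, Relation.ReflTransGen.refl⟩
        | mul x y _ _ hx hy =>
          intro d z
          obtain ⟨z1, h1⟩ := hy d z
          obtain ⟨z2, h2⟩ := hx (y d) z1
          exact ⟨z2, h1.trans h2⟩
      rintro ⟨d, z⟩ ⟨d', z'⟩
      obtain ⟨γ, hγ, rfl⟩ := h.trans d d' (hτ d) (hτ d')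
      obtain ⟨z1, h1⟩ := hreach γ hγ d z
      exact h1.trans (hsame _ _ _)
    · intro E hE1 hE2
      obtain ⟨F, hF1, hF2⟩ := hE (fun x => E (x.1, x.2 - g x.1)) (by
        rintro ⟨d, z⟩
        rw [ht']
        simp only
        rw [← hE1]
        congr 1
        refine Prod.ext rfl ?_
        simp only [ha]
        abel) (by
        rintro ⟨d, z⟩
        simp only [hsk]
        rw [← hE2 d (z - g d)]
        refine Finset.sum_congr rfl fun k _ => ?_
        congr 1
        refine Prod.ext rfl ?_
        simp only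
        rw [hbk]
        abel)
      refine ⟨fun x => F (x.1, x.2 + g x.1), fun d z => ?_, fun d z => ?_⟩
      · simp only
        rw [← hF1 (d, z + g d), ht', hs', hg (τ d)]
        congr 1
        refine Prod.ext rfl ?_
        simp only [ha]
        abel
      · have h1 := hF2 (d, z + g d)
        rw [ht'] at h1
        simp only [add_sub_cancel_right] at h1
        rw [← h1]
        simp only
        congr 2
        refine Prod.ext rfl ?_
        simp only [ha]
        abel

end Pool.Agent.MP_f5837d_co
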