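import Pool.Agent.Lib.MP_f5837d_co.RC
import Pool.Agent.Lib.MP_f5837d_co.T0C

/-!
# Task T0D: from the rotation system to the plane cover
-/

set_option autoImplicit false

namespace Pool.Agent.MP_f5837d_co

open SimpleGraph

variable {V W : Type*}

/-- The cover of `G` with group `ℤ²` given by the translations `a v w` along the edges. -/
def coverGraph (G : SimpleGraph V) (a : V → V → ℤ × ℤ) (ha : ∀ v w, a w v = - a v w) :
    SimpleGraph (V × (ℤ × ℤ)) where
  Adj x y := G.Adj x.1 y.1 ∧ y.2 = x.2 + a x.1 y.1
  symm := ⟨fun x y h => ⟨h.1.symm, by rw [ha x.1 y.1, h.2]; abel⟩⟩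
  loopless := ⟨fun x h => h.1.ne rfl⟩

variable {G : SimpleGraph V} {a : V → V → ℤ × ℤ} {ha : ∀ v w, a w v = - a v w}

theorem finite_cover_neighborSet [Finite V] (w : V × (ℤ × ℤ)) :
    ((coverGraph G a ha).neighborSet w).Finite := by
  refine Set.Finite.subset (Set.finite_range (fun v : V => (v, w.2 + a w.1 v))) ?_
  rintro ⟨v, z⟩ ⟨-, h⟩
  exact ⟨v, by simp at h; simp [h]⟩

noncomputable instance coverFintype [Finite V] (w : V × (ℤ × ℤ)) :
    Fintype ((coverGraph G a ha).neighborSet w) := (finite_cover_neighborSet w).fintype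

/-- Translations of the cover. -/
def translation (G : SimpleGraph V) (a : V → V → ℤ × ℤ) (ha : ∀ v w, a w v = - a v w)
    (γ : ℤ × ℤ) : coverGraph G a ha ≃g coverGraph G a ha where
  toFun x := (x.1, x.2 + γ)
  invFun x := (x.1, x.2 - γ)
  left_inv x := by simp
  right_inv x := by simp
  map_rel_iff' := by
    intro x y
    simp only [coverGraph, Equiv.coe_fn_mk]
    constructor
    · rintro ⟨h, h'⟩
      exact ⟨h, by have := congrArg (· - γ) h'; simp at this; rw [this]; abel⟩
    · rintro ⟨h, h'⟩
      exact ⟨h, by rw [h']; abel⟩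

theorem isCover_cover : IsCover G (coverGraph G a ha) Prod.fst where
  adj h := h.1
  lift := by
    rintro ⟨v, z⟩ y h
    exact ⟨(y, z + a v y), ⟨h, rfl⟩, rfl⟩

namespace T0D

open Equiv Equiv.Perm

theorem rot_pow_fst (ρ : RotationSystem G) (k : ℕ) (d : G.Dart) : ((ρ.rot ^ k) d).fst = d.fst := by
  induction k with
  | zero => rfl
  | succ k ih => rw [T0C.pow_succ_apply', ρ.rot_fst, ih]

section rot

variable [Fintype G.Dart] [DecidableEq V]

/-- If the sum over the darts at a vertex is zero, the sum along the powers of the rotation is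
zero. -/
theorem sum_rot (ρ : RotationSystem G) (f : G.Dart → ℤ) (v : V)
    (hf : ∑ e ∈ Finset.univ.filter (fun e : G.Dart => e.fst = v), f e = 0) (L : ℕ)
    (hL : ρ.rot ^ L = 1) (d : G.Dart) (hd : d.fst = v) :
    ∑ k ∈ Finset.range L, f ((ρ.rot ^ k) d) = 0 := by
  set O := Finset.univ.filter (fun e : G.Dart => e.fst = v) with hO
  set S : G.Dart → ℤ := fun e => ∑ k ∈ Finset.range L, f ((ρ.rot ^ k) e) with hS
  have hshift : ∀ e, S (ρ.rot e) = S e := by
    intro e
    have h1 : ∀ k, (ρ.rot ^ k) (ρ.rot e) = (ρ.rot ^ (k + 1)) e := fun k => by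
      rw [pow_succ]; rfl
    simp only [hS, h1]
    have h2 := Finset.sum_range_succ (fun k => f ((ρ.rot ^ k) e)) L
    have h3 := Finset.sum_range_succ' (fun k => f ((ρ.rot ^ k) e)) L
    rw [h2, hL] at h3
    simp only [pow_zero] at h3
    linarith
  have hpow : ∀ (n : ℕ) e, S ((ρ.rot ^ n) e) = S e := by
    intro n
    induction n with
    | zero => intro e; rfl
    | succ n ih => intro e; rw [T0C.pow_succ_apply', hshift, ih]
  have hconst : ∀ e ∈ O, S e = S d := by
    intro e he
    have he' : e.fst = v := (Finset.mem_filter.1 he).2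
    obtain ⟨n, hn⟩ := ρ.rot_trans d e (hd.trans he'.symm)
    rw [← hn, hpow]
  have hsum : ∑ e ∈ O, S e = 0 := by
    simp only [hS]
    rw [Finset.sum_comm]
    refine Finset.sum_eq_zero fun k _ => ?_
    rw [← hf]
    refine Finset.sum_equiv (ρ.rot ^ k) ?_ ?_
    · intro e
      simp only [hO, Finset.mem_filter, Finset.mem_univ, true_and, rot_pow_fst]
    · intro e _; rfl
  rw [Finset.sum_congr rfl hconst, Finset.sum_const, nsmul_eq_mul, mul_eq_zero] at hsum
  rcases hsum with h | h
  · exfalso
    have : O.Nonempty := ⟨d, by simp [hO, hd]⟩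
    rw [Nat.cast_eq_zero, Finset.card_eq_zero] at h
    exact this.ne_empty h
  · exact h

theorem sum_neighbor [∀ w, Fintype (G.neighborSet w)] (f : G.Dart → ℤ) (v : V) :
    ∑ y : G.neighborSet v, f (G.dartOfNeighborSet v y) =
      ∑ e ∈ Finset.univ.filter (fun e : G.Dart => e.fst = v), f e := by
  refine Finset.sum_bij (fun y _ => G.dartOfNeighborSet v y) ?_ ?_ ?_ ?_
  · intro y _
    simp only [Finset.mem_filter, Finset.mem_univ, true_and]
    rfl
  · intro y _ y' _ h
    exact dartOfNeighborSet_injective G v h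
  · intro e he
    have he' : e.fst = v := (Finset.mem_filter.1 he).2
    subst he'
    exact ⟨⟨e.snd, e.adj⟩, Finset.mem_univ _, rfl⟩
  · intro y _; rfl

end rot

/-- The map of a rotation system is a map in the sense of `IsMap`. -/
theorem isMap [Fintype G.Dart] [DecidableEq G.Dart] (hG : G.Connected) (ρ : RotationSystem G) :
    IsMap ρ.rot (symmPerm G) where
  inv d := d.symm_symm
  fix d h := absurd h d.symm_ne
  trans d d' _ _ := by
    have hσ : ρ.rot ∈ Subgroup.closure ({ρ.rot, symmPerm G} : Set (Perm G.Dart)) :=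
      Subgroup.subset_closure (by simp)
    have hτ : symmPerm G ∈ Subgroup.closure ({ρ.rot, symmPerm G} : Set (Perm G.Dart)) :=
      Subgroup.subset_closure (by simp)
    have key : ∀ v, Relation.ReflTransGen G.Adj d.fst v → ∀ e : G.Dart, e.fst = v →
        ∃ g ∈ Subgroup.closure ({ρ.rot, symmPerm G} : Set (Perm G.Dart)), g d = e := by
      intro v hv
      induction hv with
      | refl =>
        intro e he
        obtain ⟨n, hn⟩ := ρ.rot_trans d e he.symm
        exact ⟨ρ.rot ^ n, Subgroup.pow_mem _ hσ n, hn⟩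
      | tail _ hadj ih =>
        intro e he
        obtain ⟨g, hg, hgd⟩ := ih ⟨(_, _), hadj⟩ rfl
        obtain ⟨n, hn⟩ := ρ.rot_trans (Dart.symm ⟨(_, _), hadj⟩) e he.symm
        refine ⟨ρ.rot ^ n * symmPerm G * g, ?_, ?_⟩
        · exact Subgroup.mul_mem _ (Subgroup.mul_mem _ (Subgroup.pow_mem _ hσ n) hτ) hg
        · rw [Perm.mul_apply, Perm.mul_apply, hgd]
          exact hn
    refine key d'.fst ?_ d' rfl
    have := hG.preconnected d.fst d'.fst
    rwa [SimpleGraph.reachable_iff_reflTransGen] at this

theorem exists_dart (hG : G.Connected) (e0 : G.Dart) (v : V) : ∃ e : G.Dart, e.fst = v := by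
  obtain ⟨w, hw⟩ : ∃ w, w ≠ v := by
    by_cases h : e0.fst = v
    · exact ⟨e0.snd, fun h2 => e0.adj.ne (h.trans h2.symm)⟩
    · exact ⟨e0.fst, h⟩
  obtain ⟨p⟩ := hG.preconnected v w
  cases p with
  | nil => exact absurd rfl hw
  | cons h _ => exact ⟨⟨(_, _), h⟩, rfl⟩

theorem numCycles_rot [Fintype G.Dart] [DecidableEq G.Dart] (hG : G.Connected)
    (ρ : RotationSystem G) (e0 : G.Dart) : numCycles ρ.rot = Nat.card V := by
  have hw : ∀ d d' : G.Dart, SameCycle ρ.rot d d' → d.fst = d'.fst := by
    intro d d' h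
    obtain ⟨n, hn⟩ := h.exists_nat_pow_eq
    rw [← hn, rot_pow_fst]
  refine Nat.card_congr (Equiv.ofBijective
    (Quotient.lift (s := SameCycle.setoid ρ.rot) (fun d : G.Dart => d.fst) hw) ⟨?_, ?_⟩)
  · intro x y
    induction x using Quotient.inductionOn
    induction y using Quotient.inductionOn
    rename_i d d'
    intro h
    obtain ⟨n, hn⟩ := ρ.rot_trans d d' h
    exact Quotient.sound (s := SameCycle.setoid ρ.rot) ⟨n, by rw [zpow_natCast]; exact hn⟩
  · intro v
    obtain ⟨e, he⟩ := exists_dart hG e0 v
    exact ⟨Quotient.mk _ e, he⟩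

theorem card_dart [Finite V] : Nat.card G.Dart = 2 * Nat.card G.edgeSet := by
  classical
  have := Fintype.ofFinite V
  have hA : Nat.card G.Dart = 2 * G.edgeFinset.card := by
    rw [← G.dart_card_eq_twice_card_edges]
    exact Nat.card_eq_fintype_card
  rw [hA, edgeFinset_card, Nat.card_eq_fintype_card]

/-! ### The cover -/

section cover

variable (G a ha)

/-- The darts of the cover. -/
def theta : (coverGraph G a ha).Dart ≃ G.Dart × (ℤ × ℤ) where
  toFun x := (⟨(x.fst.1, x.snd.1), x.adj.1⟩, x.fst.2)
  invFun p := ⟨((p.1.fst, p.2), (p.1.snd, p.2 + a p.1.fst p.1.snd)), ⟨p.1.adj, rfl⟩⟩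
  left_inv x := by
    rcases x with ⟨⟨⟨v, z⟩, ⟨w, z'⟩⟩, h⟩
    have h2 : z' = z + a v w := h.2
    subst h2
    rfl
  right_inv p := by
    rcases p with ⟨⟨⟨v, w⟩, h⟩, z⟩
    rfl

variable {G a ha}

theorem theta_symm_fst (p : G.Dart × (ℤ × ℤ)) :
    ((theta G a ha).symm p).fst = (p.1.fst, p.2) := rfl

theorem theta_symm_snd (p : G.Dart × (ℤ × ℤ)) :
    ((theta G a ha).symm p).snd = (p.1.snd, p.2 + a p.1.fst p.1.snd) := rfl

theorem theta_dart_symm (x : (coverGraph G a ha).Dart) :
    theta G a ha x.symm = ((theta G a ha x).1.symm,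
      (theta G a ha x).2 + a (theta G a ha x).1.fst (theta G a ha x).1.snd) := by
  refine Prod.ext rfl ?_
  exact x.adj.2

theorem theta_symm_symm (d : G.Dart) (z : ℤ × ℤ) :
    ((theta G a ha).symm (d, z)).symm =
      (theta G a ha).symm (d.symm, z + a d.fst d.snd) := by
  apply (theta G a ha).injective
  rw [theta_dart_symm, Equiv.apply_symm_apply, Equiv.apply_symm_apply]

/-- The rotation system of the cover. -/
def rotH (ρ : RotationSystem G) : Perm (coverGraph G a ha).Dart :=
  ((theta G a ha).trans (ρ.rot.prodCongr (Equiv.refl _))).trans (theta G a ha).symm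

theorem theta_rotH (ρ : RotationSystem G) (x : (coverGraph G a ha).Dart) :
    theta G a ha (rotH ρ x) = (ρ.rot (theta G a ha x).1, (theta G a ha x).2) := by
  simp only [rotH, Equiv.trans_apply, Equiv.apply_symm_apply]
  rfl

theorem theta_rotH_pow (ρ : RotationSystem G) (n : ℕ) (x : (coverGraph G a ha).Dart) :
    theta G a ha ((rotH ρ ^ n) x) = ((ρ.rot ^ n) (theta G a ha x).1, (theta G a ha x).2) := by
  induction n with
  | zero => rfl
  | succ n ih => rw [T0C.pow_succ_apply', theta_rotH, ih, T0C.pow_succ_apply']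

theorem fst_eq (x : (coverGraph G a ha).Dart) :
    x.fst = ((theta G a ha x).1.fst, (theta G a ha x).2) := rfl

theorem snd_eq (x : (coverGraph G a ha).Dart) :
    x.snd = ((theta G a ha x).1.snd,
      (theta G a ha x).2 + a (theta G a ha x).1.fst (theta G a ha x).1.snd) := by
  refine Prod.ext rfl ?_
  exact x.adj.2

/-- The rotation system of the cover. -/
def rotSys (ρ : RotationSystem G) : RotationSystem (coverGraph G a ha) where
  rot := rotH ρ
  rot_fst x := by
    rw [fst_eq, fst_eq x, theta_rotH]
    exact Prod.ext (ρ.rot_fst _) rfl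
  rot_trans x x' h := by
    rw [fst_eq, fst_eq x'] at h
    have h1 := congrArg Prod.fst h
    have h2 := congrArg Prod.snd h
    obtain ⟨n, hn⟩ := ρ.rot_trans (theta G a ha x).1 (theta G a ha x').1 h1
    refine ⟨n, (theta G a ha).injective ?_⟩
    rw [theta_rotH_pow, hn]
    exact Prod.ext rfl h2

theorem theta_face (ρ : RotationSystem G) (x : (coverGraph G a ha).Dart) :
    theta G a ha ((rotSys (a := a) (ha := ha) ρ).face x) = (ρ.face (theta G a ha x).1,
      (theta G a ha x).2 + a (theta G a ha x).1.fst (theta G a ha x).1.snd) := by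
  show theta G a ha (rotH ρ x.symm) = _
  rw [theta_rotH, theta_dart_symm]
  rfl

theorem theta_face_pow (ρ : RotationSystem G) (n : ℕ) (x : (coverGraph G a ha).Dart) :
    theta G a ha (((rotSys (a := a) (ha := ha) ρ).face ^ n) x) =
      ((ρ.face ^ n) (theta G a ha x).1, (theta G a ha x).2 +
        ∑ j ∈ Finset.range n, a ((ρ.face ^ j) (theta G a ha x).1).fst
          ((ρ.face ^ j) (theta G a ha x).1).snd) := by
  induction n with
  | zero => simp
  | succ n ih =>
    rw [T0C.pow_succ_apply', theta_face, ih, T0C.pow_succ_apply', Finset.sum_range_succ,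
      add_assoc]

theorem sum_neighbor_cover [Finite V] [Fintype G.Dart] [DecidableEq V]
    (E : (coverGraph G a ha).Dart → ℤ)
    (w : V × (ℤ × ℤ)) :
    ∑ y : (coverGraph G a ha).neighborSet w, E ((coverGraph G a ha).dartOfNeighborSet w y) =
      ∑ e ∈ Finset.univ.filter (fun e : G.Dart => e.fst = w.1),
        E ((theta G a ha).symm (e, w.2)) := by
  refine Finset.sum_bij (fun y _ => (theta G a ha ((coverGraph G a ha).dartOfNeighborSet w y)).1)
    ?_ ?_ ?_ ?_
  · intro y _
    simp only [Finset.mem_filter, Finset.mem_univ, true_and]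
    rfl
  · intro y _ y' _ h
    apply dartOfNeighborSet_injective (coverGraph G a ha) w
    apply (theta G a ha).injective
    exact Prod.ext h rfl
  · intro e he
    have he' : e.fst = w.1 := (Finset.mem_filter.1 he).2
    have hw : ((theta G a ha).symm (e, w.2)).fst = w := Prod.ext he' rfl
    refine ⟨⟨((theta G a ha).symm (e, w.2)).snd, ?_⟩, Finset.mem_univ _, ?_⟩
    · have := ((theta G a ha).symm (e, w.2)).adj
      rw [hw] at this
      exact this
    · rcases e with ⟨⟨v, u⟩, hvu⟩
      simp only at he'
      subst he'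
      rfl
  · intro y _
    have h : (theta G a ha).symm ((theta G a ha ((coverGraph G a ha).dartOfNeighborSet w y)).1,
        w.2) = (coverGraph G a ha).dartOfNeighborSet w y := by
      rw [Equiv.symm_apply_eq]
      rfl
    rw [h]

end cover

end T0D

open T0D

/-- A connected toroidal graph is plane (genus zero), or it has a `ℤ²`-cover that is a plane. -/
theorem sphere_or_cover [Finite V] [∀ w, Fintype (G.neighborSet w)] (hG : G.Connected)
    (ht : IsToroidal G) : Nonempty (Plane G) ∨
      ∃ (a : V → V → ℤ × ℤ) (ha : ∀ v w, a w v = - a v w),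
        (coverGraph G a ha).Connected ∧ ∃ Pl : Plane (coverGraph G a ha),
          (∀ γ, RotComm Pl.toRotationSystem (translation G a ha γ)) ∧
          ∃ m : ℕ, 0 < m ∧ Pl.toRotationSystem.face ^ m = 1 := by
  classical
  obtain ⟨ρ, hρ⟩ := ht
  have : Finite G.Dart := Finite.of_injective _ (Dart.toProd_injective (G := G))
  have : Fintype G.Dart := Fintype.ofFinite _
  rcases isEmpty_or_nonempty G.Dart with hD | ⟨⟨e0⟩⟩
  · left
    exact ⟨{ ρ with exact := fun E _ _ => ⟨0, fun d => hD.elim d, fun d => hD.elim d⟩ }⟩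
  have : Nonempty G.Dart := ⟨e0⟩
  have hcard : (Fintype.card G.Dart : ℤ) ≤
      2 * numCycles ρ.rot + 2 * numCycles (ρ.rot * symmPerm G) := by
    rw [← Nat.card_eq_fintype_card, card_dart, numCycles_rot hG ρ e0]
    have h1 : numCycles (ρ.rot * symmPerm G) = ρ.numFaces := rfl
    rw [h1]
    push_cast
    have : (Nat.card G.edgeSet : ℤ) ≤ Nat.card V + ρ.numFaces := by exact_mod_cast hρ
    linarith
  rcases map_cover (isMap hG ρ) (fun d => d.symm_ne) hcard with h | h
  · left
    refine ⟨{ ρ with exact := fun E hE1 hE2 => ?_ }⟩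
    exact h E hE1 fun d => sum_rot ρ E d.fst (by rw [← sum_neighbor E d.fst]; exact hE2 _) _
      (T0C.pow_expo _) d rfl
  · right
    obtain ⟨aD, ha1, ha2, hconn, hex⟩ := h
    let a : V → V → ℤ × ℤ := fun v w => if h : G.Adj v w then aD ⟨(v, w), h⟩ else 0
    have haD : ∀ e : G.Dart, a e.fst e.snd = aD e := fun e => dif_pos e.adj
    have ha : ∀ v w, a w v = - a v w := by
      intro v w
      by_cases h : G.Adj v w
      · have h1 := haD ⟨(v, w), h⟩
        have h2 := haD (Dart.symm ⟨(v, w), h⟩)
        have h3 := ha1 ⟨(v, w), h⟩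
        calc a w v = aD (Dart.symm ⟨(v, w), h⟩) := h2
          _ = - aD ⟨(v, w), h⟩ := h3
          _ = - a v w := by rw [← h1]
      · have h1 : a v w = 0 := dif_neg h
        have h2 : a w v = 0 := dif_neg fun h' => h h'.symm
        rw [h1, h2, neg_zero]
    refine ⟨a, ha, ?_, ?_⟩
    · have : Nonempty (V × (ℤ × ℤ)) := ⟨(e0.fst, 0)⟩
      refine ⟨?_⟩
      rintro ⟨v, z⟩ ⟨v', z'⟩
      obtain ⟨e, rfl⟩ := exists_dart hG e0 v
      obtain ⟨e', rfl⟩ := exists_dart hG e0 v'
      have key : ∀ y : G.Dart × (ℤ × ℤ), Relation.ReflTransGen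
          (fun x y => y = (ρ.rot x.1, x.2) ∨ y = (symmPerm G x.1, x.2 + aD x.1)) (e, z) y →
          (coverGraph G a ha).Reachable (e.fst, z) (y.1.fst, y.2) := by
        intro y hy
        induction hy with
        | refl => exact Reachable.refl _
        | tail _ h2 ih =>
          rcases h2 with rfl | rfl
          · rw [ρ.rot_fst]
            exact ih
          · refine ih.trans (Adj.reachable ?_)
            refine ⟨Dart.adj _, ?_⟩
            simp only
            rw [← haD]
            rfl
      exact key (e', z') (hconn _ _)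
    · have hface : ∀ d, (ρ.face ^ expo G.Dart) d = d := fun d => by
        rw [T0C.pow_expo]; rfl
      refine ⟨{ rotSys (a := a) (ha := ha) ρ with exact := fun E hE1 hE2 => ?_ }, ?_,
        expo G.Dart, T0C.expo_pos _, ?_⟩
      · obtain ⟨F, hF1, hF2⟩ := hex (fun p => E ((theta G a ha).symm p)) (by
          intro d z
          rw [← hE1, theta_symm_symm, haD]
          rfl) (by
          intro d z
          refine sum_rot ρ (fun e => E ((theta G a ha).symm (e, z))) d.fst ?_ _
            (T0C.pow_expo _) d rfl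
          rw [← hE2 (d.fst, z), sum_neighbor_cover])
        refine ⟨fun x => F (theta G a ha x), fun x => ?_, fun x => ?_⟩
        · have h1 := hF1 (theta G a ha x).1 (theta G a ha x).2
          have h2 : theta G a ha ((rotSys (a := a) (ha := ha) ρ).rot x.symm) =
              (ρ.rot (symmPerm G (theta G a ha x).1), (theta G a ha x).2 +
                aD (theta G a ha x).1) := by
            show theta G a ha (rotH ρ x.symm) = _
            rw [theta_rotH, theta_dart_symm, haD]
            rfl
          show F (theta G a ha ((rotSys (a := a) (ha := ha) ρ).rot x.symm)) = F (theta G a ha x)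
          rw [h2]
          exact h1
        · have h1 := hF2 (theta G a ha x).1 (theta G a ha x).2
          have h2 : theta G a ha x.symm = (symmPerm G (theta G a ha x).1,
              (theta G a ha x).2 + aD (theta G a ha x).1) := by
            rw [theta_dart_symm, haD]
            rfl
          show F (theta G a ha x) - F (theta G a ha x.symm) = E x
          rw [h2]
          refine h1.trans ?_
          simp
      · intro γ x x' h1 h2
        have e1 : (theta G a ha x').1 = (theta G a ha x).1 := by
          apply Dart.ext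
          have e3 := congrArg Prod.fst h1
          have e4 := congrArg Prod.fst h2
          exact Prod.ext e3 e4
        have e2 : (theta G a ha x').2 = (theta G a ha x).2 + γ := congrArg Prod.snd h1
        show (rotH ρ x').snd = (translation G a ha γ) (rotH ρ x).snd
        rw [snd_eq, snd_eq (rotH ρ x), theta_rotH, theta_rotH, e1, e2]
        refine Prod.ext rfl ?_
        simp only [translation]
        show _ + γ + _ = _ + _ + γ
        abel
      · ext1 x
        apply (theta G a ha).injective
        show theta G a ha (((rotSys (a := a) (ha := ha) ρ).face ^ expo G.Dart) x) = _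
        rw [theta_face_pow, hface]
        simp only [haD]
        have h3 : ∑ j ∈ Finset.range (expo G.Dart), aD ((ρ.face ^ j) (theta G a ha x).1) = 0 :=
          ha2 _
        rw [h3, add_zero]
        rfl

end Pool.Agent.MP_f5837d_co
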