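import Mathlib

/-!
# Combinatorial maps: definitions for the topology part (tasks T0A - T0C)

A map is a pair of permutations `σ` (rotation), `τ` (reversal) of a finite set `D` of darts. Darts
fixed by `τ` are *inactive* (they are also fixed by `σ`); deleting an edge makes its two darts
inactive, so that the type `D` never changes. The face permutation is `σ * τ`; the dual map is
`(σ * τ, τ)` (and `(σ * τ) * τ = σ`).
-/

set_option autoImplicit false

namespace Pool.Agent.MP_f5837d_co

open Equiv Equiv.Perm

section

variable {D : Type*} [Fintype D] [DecidableEq D]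

/-- A connected map whose inactive darts are the fixed points of `τ`. -/
structure IsMap (σ τ : Perm D) : Prop where
  inv : ∀ d, τ (τ d) = d
  fix : ∀ d, τ d = d → σ d = d
  trans : ∀ d d', τ d ≠ d → τ d' ≠ d' → ∃ g ∈ Subgroup.closure ({σ, τ} : Set (Perm D)), g d = d'

/-- The number of cycles, fixed points included. -/
noncomputable def numCycles (σ : Perm D) : ℕ := Nat.card (Quotient (SameCycle.setoid σ))

/-- Twice the Euler characteristic: with `m` inactive darts, `v = numCycles σ - m`,
`f = numCycles (σ * τ) - m`, `2 e = |D| - m`. -/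
noncomputable def euler2 (σ τ : Perm D) : ℤ :=
  2 * numCycles σ + 2 * numCycles (σ * τ) - Fintype.card D -
    3 * (Finset.univ.filter (fun d => τ d = d)).card

/-- Take `x` out of its cycle. -/
def del (σ : Perm D) (x : D) : Perm D := swap x (σ x) * σ

/-- The map after deletion of the edge `{d, τ d}`: the new rotation. -/
def delσ (σ τ : Perm D) (d : D) : Perm D := del (del σ d) (τ d)

/-- The map after deletion of the edge `{d, τ d}`: the new reversal. -/
def delτ (τ : Perm D) (d : D) : Perm D := τ * swap d (τ d)

/-- The exponent used for all sums over cycles: every permutation of `D` has order dividing it. -/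
def expo (D : Type*) [Fintype D] : ℕ := (Fintype.card D).factorial

/-- The map has a regular cover with group `Γ` (here `Γ` is trivial or `ℤ²`) that is connected and
simply connected, in the sense that it is exact in both ways (flows are boundaries of face
functions, closed functions are coboundaries of vertex functions). `s`, `t` are the lifts of `σ`,
`τ` to `D × Γ`. -/
def HasCover (Γ : Type) [AddCommGroup Γ] (σ τ : Perm D) : Prop :=
  ∃ s t : Perm (D × Γ),
    (∀ x, (s x).1 = σ x.1) ∧ (∀ x, (t x).1 = τ x.1) ∧
    (∀ d z γ, s (d, z + γ) = ((s (d, z)).1, (s (d, z)).2 + γ)) ∧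
    (∀ d z γ, t (d, z + γ) = ((t (d, z)).1, (t (d, z)).2 + γ)) ∧
    (∀ x, t (t x) = x) ∧ (∀ d z, τ d = d → s (d, z) = (d, z) ∧ t (d, z) = (d, z)) ∧
    s ^ expo D = 1 ∧ (s * t) ^ expo D = 1 ∧
    (∀ d z z', τ d ≠ d → Relation.ReflTransGen (fun x y => y = s x ∨ y = t x) (d, z) (d, z')) ∧
    (∀ E : D × Γ → ℤ, (∀ x, E (t x) = - E x) →
      (∀ x, ∑ k ∈ Finset.range (expo D), E ((s ^ k) x) = 0) →
      ∃ F : D × Γ → ℤ, (∀ x, F (s (t x)) = F x) ∧ ∀ x, F x - F (t x) = E x) ∧
    (∀ E : D × Γ → ℤ, (∀ x, E (t x) = - E x) →
      (∀ x, ∑ k ∈ Finset.range (expo D), E (((s * t) ^ k) x) = 0) →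
      ∃ F : D × Γ → ℤ, (∀ x, F (s x) = F x) ∧ ∀ x, F x - F (t x) = E x)

end

end Pool.Agent.MP_f5837d_co
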