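import Pool.Agent.Lib.MP_f5837d_co.T0Defs

/-!
# Task T0B, deletion: `hasCover_del`

All lifts are put in gauge form: `s (a, z) = (σ a, z + (G (σ a) - G a))` for some `G : D → Γ`
(possible because `Γ` has no torsion). Cycle sums vanish iff the function is a coboundary along the
permutation (`Cob`). Then
* `Cov.insert`: a dart fixed by `τ` can be inserted in the rotation;
* `Cov.join`: two such darts in the same face can be joined to an edge if this splits the face.
-/

set_option autoImplicit false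

namespace Pool.Agent.MP_f5837d_co

open Equiv Equiv.Perm

namespace Del

/-- The group has no torsion. -/
def TF (A : Type*) [AddCommGroup A] : Prop := ∀ (n : ℕ) (a : A), 0 < n → n • a = 0 → a = 0

theorem tf_int : TF ℤ := by
  intro n a hn h
  rw [nsmul_eq_mul] at h
  rcases mul_eq_zero.1 h with h | h
  · have : n = 0 := by exact_mod_cast h
    omega
  · exact h

theorem tf_punit : TF PUnit := fun _ _ _ _ => rfl

theorem tf_int2 : TF (ℤ × ℤ) := by
  rintro n ⟨a, b⟩ hn h
  have h1 : n • a = 0 := congrArg Prod.fst h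
  have h2 : n • b = 0 := congrArg Prod.snd h
  rw [tf_int n a hn h1, tf_int n b hn h2]
  rfl

/-- The function is a coboundary along the permutation. -/
def Cob {X A : Type*} [AddCommGroup A] (s : Perm X) (E : X → A) : Prop :=
  ∃ G : X → A, ∀ v, G (s v) - G v = E v

section Cob

variable {X A : Type*} [AddCommGroup A] {s : Perm X} {E : X → A} {N : ℕ}

theorem sum_of_cob (hN : s ^ N = 1) (h : Cob s E) (v : X) :
    ∑ k ∈ Finset.range N, E ((s ^ k) v) = 0 := by
  obtain ⟨G, hG⟩ := h
  have : ∀ n : ℕ, ∑ k ∈ Finset.range n, E ((s ^ k) v) = G ((s ^ n) v) - G v := by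
    intro n
    induction n with
    | zero => simp
    | succ n ih =>
      rw [Finset.sum_range_succ, ih, ← hG, pow_succ', Perm.mul_apply]
      abel
  rw [this, hN]
  simp

theorem cob_of_sum (hA : TF A) (hN0 : 0 < N) (hN : s ^ N = 1)
    (h : ∀ v, ∑ k ∈ Finset.range N, E ((s ^ k) v) = 0) : Cob s E := by
  classical
  set S : X → ℕ → A := fun r m => ∑ k ∈ Finset.range m, E ((s ^ k) r) with hS
  have hadd : ∀ r m n, S r (m + n) = S r m + S ((s ^ m) r) n := by
    intro r m n
    simp only [hS]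
    rw [Finset.sum_range_add]
    congr 1
    refine Finset.sum_congr rfl (fun x _ => ?_)
    rw [← Perm.mul_apply, ← pow_add, add_comm m x]
  have hmul : ∀ r m, (s ^ m) r = r → ∀ j, S r (m * j) = j • S r m := by
    intro r m hm j
    induction j with
    | zero => simp [hS]
    | succ j ih =>
      have hfix : (s ^ (m * j)) r = r := by
        rw [pow_mul]
        clear ih
        induction j with
        | zero => simp
        | succ j ih => rw [pow_succ', Perm.mul_apply, ih, hm]
      rw [mul_add, mul_one, hadd, hfix, ih, add_smul, one_smul]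
  have hper : ∀ r m, (s ^ m) r = r → S r m = 0 := by
    intro r m hm
    apply hA N _ hN0
    rw [← hmul r m hm N, mul_comm, hmul r N (by rw [hN]; rfl) m]
    have : S r N = 0 := h r
    rw [this, smul_zero]
  have hwell' : ∀ r m k, (s ^ (k + m)) r = (s ^ m) r → S r (k + m) = S r m := by
    intro r m k hk
    have h1 : (s ^ k) r = r := by
      rw [add_comm, pow_add, Perm.mul_apply] at hk
      exact (s ^ m).injective hk
    rw [hadd, h1, hper r k h1, zero_add]
  have hwell : ∀ r m n, (s ^ m) r = (s ^ n) r → S r m = S r n := by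
    intro r m n hmn
    rcases le_total m n with h1 | h1
    · obtain ⟨k, rfl⟩ := Nat.exists_eq_add_of_le' h1
      exact (hwell' r m k hmn.symm).symm
    · obtain ⟨k, rfl⟩ := Nat.exists_eq_add_of_le' h1
      exact hwell' r n k hmn
  -- representatives
  set rep : X → X := fun v => (Quotient.mk (SameCycle.setoid s) v).out with hrep
  have hrep1 : ∀ v, SameCycle s (rep v) v := fun v =>
    Quotient.exact (s := SameCycle.setoid s) (Quotient.out_eq (Quotient.mk (SameCycle.setoid s) v))
  have hrep2 : ∀ v, rep (s v) = rep v := by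
    intro v
    have : Quotient.mk (SameCycle.setoid s) (s v) = Quotient.mk (SameCycle.setoid s) v :=
      Quotient.sound (s := SameCycle.setoid s) (show SameCycle s (s v) v from
        (sameCycle_apply_left).2 (SameCycle.refl s v))
    simp only [hrep, this]
  have hk : ∀ v, ∃ k : ℕ, (s ^ k) (rep v) = v := by
    intro v
    obtain ⟨i, hi⟩ := hrep1 v
    refine ⟨(i % (N : ℤ)).toNat, ?_⟩
    have hpos : (0 : ℤ) < N := by exact_mod_cast hN0
    have h1 : ((i % (N : ℤ)).toNat : ℤ) = i % N := Int.toNat_of_nonneg (Int.emod_nonneg _ hpos.ne')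
    have h2 : s ^ i = s ^ (i % (N : ℤ)) := by
      conv_lhs => rw [← Int.emod_add_mul_ediv i N]
      rw [zpow_add, zpow_mul, zpow_natCast, hN, one_zpow, mul_one]
    have h3 : s ^ (i % (N : ℤ)).toNat = s ^ i := by rw [h2, ← zpow_natCast, h1]
    rw [h3]
    exact hi
  choose k hk using hk
  refine ⟨fun v => S (rep v) (k v), fun v => ?_⟩
  show S (rep (s v)) (k (s v)) - S (rep v) (k v) = E v
  rw [hrep2]
  have h1 : (s ^ (k (s v))) (rep v) = (s ^ (k v + 1)) (rep v) := by
    have := hk (s v)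
    rw [hrep2] at this
    rw [this, pow_succ', Perm.mul_apply, hk v]
  rw [hwell _ _ _ h1]
  simp only [hS, Finset.sum_range_succ, hk v]
  abel

theorem cob_iff (hA : TF A) (hN0 : 0 < N) (hN : s ^ N = 1) :
    (∀ v, ∑ k ∈ Finset.range N, E ((s ^ k) v) = 0) ↔ Cob s E :=
  ⟨cob_of_sum hA hN0 hN, fun h v => sum_of_cob hN h v⟩

theorem Cob.add {E' : X → A} (h : Cob s E) (h' : Cob s E') : Cob s (fun v => E v + E' v) := by
  obtain ⟨G, hG⟩ := h
  obtain ⟨G', hG'⟩ := h'
  exact ⟨fun v => G v + G' v, fun v => by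
    show G (s v) + G' (s v) - (G v + G' v) = E v + E' v
    rw [← hG, ← hG']; abel⟩

theorem Cob.neg (h : Cob s E) : Cob s (fun v => - E v) := by
  obtain ⟨G, hG⟩ := h
  exact ⟨fun v => - G v, fun v => by
    show - G (s v) - - G v = - E v
    rw [← hG]; abel⟩

end Cob

set_option linter.unusedSectionVars false

variable {D : Type*} [Fintype D] [DecidableEq D] {Γ : Type} [AddCommGroup Γ]

/-- Reachability by the two permutations. -/
def Reach (s t : Perm (D × Γ)) (x y : D × Γ) : Prop :=
  Relation.ReflTransGen (fun x y => y = s x ∨ y = t x) x y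

/-- A cover in gauge form (darts fixed by `τ` need not be fixed by `σ`). -/
structure Cov (σ τ : Perm D) (s t : Perm (D × Γ)) : Prop where
  hs : ∃ G : D → Γ, ∀ a z, s (a, z) = (σ a, z + (G (σ a) - G a))
  ht1 : ∀ x, (t x).1 = τ x.1
  hteq : ∀ d z γ, t (d, z + γ) = ((t (d, z)).1, (t (d, z)).2 + γ)
  htt : ∀ x, t (t x) = x
  hfix : ∀ a z, τ a = a → t (a, z) = (a, z)
  hf : ∃ K : D → Γ, ∀ a z, s (t (a, z)) = (σ (τ a), z + (K (σ (τ a)) - K a))
  conn : ∀ a z z', τ a ≠ a → Reach s t (a, z) (a, z')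
  ex1 : ∀ E : D × Γ → ℤ, (∀ x, E (t x) = - E x) → Cob s E →
    ∃ F : D × Γ → ℤ, (∀ x, F (s (t x)) = F x) ∧ ∀ x, F x - F (t x) = E x
  ex2 : ∀ E : D × Γ → ℤ, (∀ x, E (t x) = - E x) → Cob (s * t) E →
    ∃ F : D × Γ → ℤ, (∀ x, F (s x) = F x) ∧ ∀ x, F x - F (t x) = E x

/-- The exchange of two darts on all sheets. -/
def W (Γ : Type) (x y : D) : Perm (D × Γ) := (swap x y).prodCongr (Equiv.refl Γ)

@[simp] theorem W_apply (x y a : D) (z : Γ) : W Γ x y (a, z) = (swap x y a, z) := rfl

theorem gauge_pow {φ : Perm D} {f : Perm (D × Γ)} {G : D → Γ}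
    (hf : ∀ a z, f (a, z) = (φ a, z + (G (φ a) - G a))) (n : ℕ) (a : D) (z : Γ) :
    (f ^ n) (a, z) = ((φ ^ n) a, z + (G ((φ ^ n) a) - G a)) := by
  induction n with
  | zero => simp
  | succ n ih =>
    rw [pow_succ', Perm.mul_apply, ih, hf, pow_succ', Perm.mul_apply]
    congr 1
    abel

theorem gauge_insert {φ : Perm D} {f : D × Γ → D × Γ} {G : D → Γ} {x y : D} (hx : φ x = x)
    (hxy : x ≠ y) (hf : ∀ a z, f (a, z) = (φ a, z + (G (φ a) - G a))) :
    ∃ G' : D → Γ, ∀ a z, W Γ x y (f (a, z)) =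
      (swap x y (φ a), z + (G' (swap x y (φ a)) - G' a)) := by
  refine ⟨fun a => if a = x then G y else G a, fun a z => ?_⟩
  rw [hf, W_apply]
  congr 1
  beta_reduce
  by_cases ha : a = x
  · subst ha
    rw [hx, swap_apply_left, if_neg hxy.symm, if_pos rfl]
    abel
  · have h1 : φ a ≠ x := fun h => ha (φ.injective (h.trans hx.symm))
    rw [if_neg ha]
    by_cases h2 : φ a = y
    · rw [h2, swap_apply_right, if_pos rfl]
    · rw [swap_apply_of_ne_of_ne h1 h2, if_neg h1]

section Insert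

variable {x y : D} {g : Perm (D × Γ)}

theorem fst_ne (hg : ∀ z, g (x, z) = (x, z)) {v : D × Γ} (hv : v.1 ≠ x) : (g v).1 ≠ x := by
  intro h
  have h1 : g (g v) = g v := by
    have := hg (g v).2
    rwa [show (x, (g v).2) = g v from Prod.ext h.symm rfl] at this
  have h2 := g.injective h1
  rw [h2] at h
  exact hv h

theorem W_of_ne {v : D × Γ} (h1 : v.1 ≠ x) (h2 : v.1 ≠ y) : W Γ x y v = v := by
  rcases v with ⟨a, z⟩
  rw [W_apply, swap_apply_of_ne_of_ne h1 h2]

theorem cob_insert (hg : ∀ z, g (x, z) = (x, z)) {E : D × Γ → ℤ} (hE : ∀ z, E (x, z) = 0)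
    (h : Cob (W Γ x y * g) E) : Cob g E := by
  obtain ⟨G, hG⟩ := h
  refine ⟨G, fun v => ?_⟩
  by_cases hv : v.1 = x
  · have e : v = (x, v.2) := Prod.ext hv rfl
    rw [e, hg, hE, sub_self]
  · rw [← hG v, Perm.mul_apply]
    congr 1
    by_cases h2 : (g v).1 = y
    · have e : g v = (y, (g v).2) := Prod.ext h2 rfl
      have h3 := hG (x, (g v).2)
      rw [Perm.mul_apply, hg, W_apply, swap_apply_left, hE, ← e] at h3
      rw [e, W_apply, swap_apply_right, ← e]
      omega
    · rw [W_of_ne (fst_ne hg hv) h2]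

theorem ext_insert (hg : ∀ z, g (x, z) = (x, z)) (hxy : x ≠ y) {F : D × Γ → ℤ}
    (hF : ∀ v, F (g v) = F v) (v : D × Γ) :
    (fun v : D × Γ => if v.1 = x then F (y, v.2) else F v) (W Γ x y (g v)) =
      (fun v : D × Γ => if v.1 = x then F (y, v.2) else F v) v := by
  show (if (W Γ x y (g v)).1 = x then F (y, (W Γ x y (g v)).2) else F (W Γ x y (g v))) =
    if v.1 = x then F (y, v.2) else F v
  by_cases hv : v.1 = x
  · have e : v = (x, v.2) := Prod.ext hv rfl
    rw [e, hg, W_apply, swap_apply_left, if_neg hxy.symm, if_pos rfl]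
  · rw [if_neg hv]
    by_cases h2 : (g v).1 = y
    · have e : g v = (y, (g v).2) := Prod.ext h2 rfl
      rw [e, W_apply, swap_apply_right, if_pos rfl]
      show F (y, (g v).2) = F v
      rw [← e, hF]
    · rw [W_of_ne (fst_ne hg hv) h2, if_neg (fst_ne hg hv), hF]

end Insert

theorem Cov.insert {σ₁ τ : Perm D} {s₁ t : Perm (D × Γ)} (h : Cov σ₁ τ s₁ t) {x y : D}
    (hx : σ₁ x = x) (hτ : τ x = x) (hxy : x ≠ y) :
    Cov (swap x y * σ₁) τ (W Γ x y * s₁) t := by
  obtain ⟨G, hG⟩ := h.hs
  obtain ⟨K, hK⟩ := h.hf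
  have hsx : ∀ z, s₁ (x, z) = (x, z) := by
    intro z
    rw [hG, hx]
    simp
  have htx : ∀ z, t (x, z) = (x, z) := fun z => h.hfix x z hτ
  have hfx : ∀ z, (s₁ * t) (x, z) = (x, z) := by
    intro z
    rw [Perm.mul_apply, htx, hsx]
  have hE0 : ∀ E : D × Γ → ℤ, (∀ v, E (t v) = - E v) → ∀ z, E (x, z) = 0 := by
    intro E hE z
    have := hE (x, z)
    rw [htx] at this
    omega
  refine ⟨?_, h.ht1, h.hteq, h.htt, h.hfix, ?_, ?_, ?_, ?_⟩
  · obtain ⟨G', hG'⟩ := gauge_insert (f := s₁) hx hxy hG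
    exact ⟨G', hG'⟩
  · obtain ⟨K', hK'⟩ := gauge_insert (φ := σ₁ * τ) (f := fun v => s₁ (t v)) (x := x) (y := y)
      (by rw [Perm.mul_apply, hτ, hx]) hxy hK
    exact ⟨K', hK'⟩
  · intro a z z' ha
    refine Relation.ReflTransGen.trans_induction_on (h.conn a z z' ha)
      (fun _ => Relation.ReflTransGen.refl) ?_ (fun _ _ h1 h2 => h1.trans h2)
    rintro v w (rfl | rfl)
    · by_cases hv : v.1 = x
      · have e : v = (x, v.2) := Prod.ext hv rfl
        rw [e, hsx]
        exact Relation.ReflTransGen.refl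
      · by_cases h2 : (s₁ v).1 = y
        · have e : s₁ v = (y, (s₁ v).2) := Prod.ext h2 rfl
          have e1 : (W Γ x y * s₁) v = (x, (s₁ v).2) := by
            rw [Perm.mul_apply, e, W_apply, swap_apply_right]
          have e2 : (W Γ x y * s₁) (x, (s₁ v).2) = s₁ v := by
            rw [Perm.mul_apply, hsx, W_apply, swap_apply_left, ← e]
          exact (Relation.ReflTransGen.single (b := (x, (s₁ v).2)) (Or.inl e1.symm)).trans
            (Relation.ReflTransGen.single (Or.inl e2.symm))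
        · exact Relation.ReflTransGen.single (Or.inl (by
            rw [Perm.mul_apply, W_of_ne (fst_ne hsx hv) h2]))
    · exact Relation.ReflTransGen.single (Or.inr rfl)
  · intro E hE hc
    obtain ⟨F, hF1, hF2⟩ := h.ex1 E hE (cob_insert hsx (hE0 E hE) hc)
    refine ⟨fun v => if v.1 = x then F (y, v.2) else F v, fun v => ?_, fun v => ?_⟩
    · exact ext_insert (g := s₁ * t) hfx hxy hF1 v
    · by_cases hv : v.1 = x
      · have e : v = (x, v.2) := Prod.ext hv rfl
        rw [e, htx, hE0 E hE]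
        simp
      · have h3 : (t v).1 ≠ x := fst_ne htx hv
        simp only [if_neg hv, if_neg h3]
        exact hF2 v
  · intro E hE hc
    obtain ⟨F, hF1, hF2⟩ := h.ex2 E hE (cob_insert (y := y) hfx (hE0 E hE) hc)
    refine ⟨fun v => if v.1 = x then F (y, v.2) else F v, fun v => ?_, fun v => ?_⟩
    · exact ext_insert (g := s₁) hsx hxy hF1 v
    · by_cases hv : v.1 = x
      · have e : v = (x, v.2) := Prod.ext hv rfl
        rw [e, htx, hE0 E hE]
        simp
      · have h3 : (t v).1 ≠ x := fst_ne htx hv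
        simp only [if_neg hv, if_neg h3]
        exact hF2 v

theorem reach_pow {s t : Perm (D × Γ)} (n : ℕ) (v : D × Γ) : Reach s t v ((s ^ n) v) := by
  induction n with
  | zero => exact Relation.ReflTransGen.refl
  | succ n ih =>
    refine ih.trans (Relation.ReflTransGen.single (Or.inl ?_))
    rw [pow_succ', Perm.mul_apply]

theorem expo_pos (D : Type*) [Fintype D] : 0 < expo D := Nat.factorial_pos _

theorem pow_expo (σ : Perm D) : σ ^ expo D = 1 := by
  have := pow_card_eq_one (x := σ)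
  rwa [Fintype.card_perm] at this

theorem gauge_expo {φ : Perm D} {f : Perm (D × Γ)} {G : D → Γ}
    (hf : ∀ a z, f (a, z) = (φ a, z + (G (φ a) - G a))) : f ^ expo D = 1 := by
  ext1 ⟨a, z⟩
  rw [gauge_pow hf, pow_expo]
  simp

/-- The involution that joins the darts `d` and `e` to an edge with translation `g`. -/
def joinFun (t : Perm (D × Γ)) (d e : D) (g : Γ) (v : D × Γ) : D × Γ :=
  if v.1 = d then (e, v.2 + g) else if v.1 = e then (d, v.2 - g) else t v

theorem exists_pow_merge {φ : Perm D} {d e : D} (hsep : ¬ SameCycle φ d e) :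
    ∃ k : ℕ, ((φ * swap d e) ^ k) d = e := by
  have hex : ∃ n : ℕ, 0 < n ∧ (φ ^ n) e = e := ⟨expo D, expo_pos D, by rw [pow_expo]; rfl⟩
  obtain ⟨hn0, hn⟩ := Nat.find_spec hex
  have hmin := fun m => Nat.find_min hex (m := m)
  set n := Nat.find hex
  have key : ∀ j : ℕ, 0 < j → j ≤ n → ((φ * swap d e) ^ j) d = (φ ^ j) e := by
    intro j
    induction j with
    | zero => intro h; omega
    | succ j ih =>
      intro _ hj
      rw [pow_succ', Perm.mul_apply, pow_succ' φ, Perm.mul_apply]
      rcases Nat.eq_zero_or_pos j with rfl | hj0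
      · simp
      · rw [ih hj0 (by omega), Perm.mul_apply]
        congr 1
        apply swap_apply_of_ne_of_ne
        · intro h
          exact hsep (SameCycle.symm ⟨j, by rw [zpow_natCast]; exact h⟩)
        · intro h
          exact hmin j (by omega) ⟨hj0, h⟩
  exact ⟨n, by rw [key n hn0 le_rfl, hn]⟩

theorem Cov.join {σ τ' : Perm D} {s t' : Perm (D × Γ)} (h : Cov σ τ' s t') {d e : D}
    (hde : d ≠ e) (hd : τ' d = d) (he : τ' e = e)
    (hsep : ¬ SameCycle (σ * (swap d e * τ')) d e)
    (hb : ∀ a, a = d ∨ a = e → ∃ b, τ' b ≠ b ∧ ∃ k : ℕ, (σ ^ k) a = b) :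
    ∃ t, Cov σ (swap d e * τ') s t := by
  obtain ⟨G, hG⟩ := h.hs
  obtain ⟨K, hK⟩ := h.hf
  set g : Γ := K e - K d with hg
  have htd : ∀ z, t' (d, z) = (d, z) := fun z => h.hfix d z hd
  have hte : ∀ z, t' (e, z) = (e, z) := fun z => h.hfix e z he
  set t : D × Γ → D × Γ := joinFun t' d e g with ht
  have t_d : ∀ z, t (d, z) = (e, z + g) := fun z => by simp [ht, joinFun]
  have t_e : ∀ z, t (e, z) = (d, z - g) := fun z => by simp [ht, joinFun, hde.symm]
  have t_o : ∀ v : D × Γ, v.1 ≠ d → v.1 ≠ e → t v = t' v := fun v h1 h2 => by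
    simp [ht, joinFun, h1, h2]
  have o_d : ∀ v : D × Γ, v.1 ≠ d → (t' v).1 ≠ d := fun v hv => fst_ne htd hv
  have o_e : ∀ v : D × Γ, v.1 ≠ e → (t' v).1 ≠ e := fun v hv => fst_ne hte hv
  have eqd : ∀ v : D × Γ, v.1 = d → v = (d, v.2) := fun v hv => Prod.ext hv rfl
  have eqe : ∀ v : D × Γ, v.1 = e → v = (e, v.2) := fun v hv => Prod.ext hv rfl
  have hinv : Function.Involutive t := by
    intro v
    by_cases h1 : v.1 = d
    · rw [eqd v h1, t_d, t_e, add_sub_cancel_right]
    · by_cases h2 : v.1 = e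
      · rw [eqe v h2, t_e, t_d, sub_add_cancel]
      · rw [t_o v h1 h2, t_o _ (o_d v h1) (o_e v h2), h.htt]
  set T : Perm (D × Γ) := hinv.toPerm t with hT
  have hTt : ∀ v, T v = t v := fun v => rfl
  set τ : Perm D := swap d e * τ' with hτ
  have τ_d : τ d = e := by rw [hτ, Perm.mul_apply, hd, swap_apply_left]
  have τ_e : τ e = d := by rw [hτ, Perm.mul_apply, he, swap_apply_right]
  have τ_o : ∀ a, a ≠ d → a ≠ e → τ a = τ' a := by
    intro a h1 h2
    rw [hτ, Perm.mul_apply]
    exact swap_apply_of_ne_of_ne (fun h => h1 (τ'.injective (h.trans hd.symm)))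
      (fun h => h2 (τ'.injective (h.trans he.symm)))
  -- the face permutation of the new cover in gauge form
  have hf : ∀ a z, s (t (a, z)) = (σ (τ a), z + (K (σ (τ a)) - K a)) := by
    intro a z
    by_cases h1 : a = d
    · subst h1
      rw [t_d, τ_d, ← hte (z + g), hK, he]
      congr 1
      rw [hg]
      abel
    · by_cases h2 : a = e
      · subst h2
        rw [t_e, τ_e, ← htd (z - g), hK, hd]
        congr 1
        rw [hg]
        abel
      · rw [t_o (a, z) h1 h2, hK, τ_o a h1 h2]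
  -- the merged face
  obtain ⟨k₀, hk₀⟩ := exists_pow_merge hsep
  have hmerge : σ * τ * swap d e = σ * τ' := by
    have h0 : ∀ a, τ (swap d e a) = τ' a := by
      intro a
      by_cases h1 : a = d
      · rw [h1, swap_apply_left, τ_e, hd]
      · by_cases h2 : a = e
        · rw [h2, swap_apply_right, τ_d, he]
        · rw [swap_apply_of_ne_of_ne h1 h2, τ_o a h1 h2]
    ext a
    show σ (τ (swap d e a)) = σ (τ' a)
    rw [h0]
  rw [hmerge] at hk₀
  have hf'' : ∀ a z, (s * t') (a, z) = ((σ * τ') a, z + (K ((σ * τ') a) - K a)) := hK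
  have hff : ∀ a z, (s * T) (a, z) = ((σ * τ) a, z + (K ((σ * τ) a) - K a)) := hf
  have hlink : ∀ z, ((s * t') ^ k₀) (d, z) = (e, z + g) := by
    intro z
    rw [gauge_pow hf'', hk₀]
  -- a function constant on the faces of `d`, zero on the other ones
  have hcross : ∀ c : Γ → ℤ, ∃ F₀ : D × Γ → ℤ, (∀ v, F₀ (s (t v)) = F₀ v) ∧
      (∀ z, F₀ (d, z) = c z) ∧ ∀ z, F₀ (e, z) = 0 := by
    intro c
    classical
    refine ⟨fun v => if SameCycle (σ * τ) d v.1 then c (v.2 - K v.1 + K d) else 0, ?_, ?_, ?_⟩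
    · rintro ⟨a, z⟩
      rw [hf]
      have : SameCycle (σ * τ) d (σ (τ a)) ↔ SameCycle (σ * τ) d a :=
        (sameCycle_apply_right (f := σ * τ) (x := d) (y := a))
      simp only [this]
      split_ifs
      · congr 1
        abel
      · rfl
    · intro z
      simp only [SameCycle.refl, if_true]
      congr 1
      abel
    · intro z
      exact if_neg hsep
  have hb' : ∀ v : D × Γ, ¬ (v.1 ≠ d ∧ v.1 ≠ e) → v.1 = d ∨ v.1 = e := by
    intro v hv
    by_contra hcon
    push Not at hcon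
    exact hv hcon
  refine ⟨T, ⟨G, hG⟩, ?_, ?_, fun v => hinv v, ?_, ⟨K, hf⟩, ?_, ?_, ?_⟩
  · intro v
    rw [hTt]
    by_cases h1 : v.1 = d
    · rw [eqd v h1, t_d, τ_d]
    · by_cases h2 : v.1 = e
      · rw [eqe v h2, t_e, τ_e]
      · rw [t_o v h1 h2, h.ht1, τ_o _ h1 h2]
  · intro a z γ
    rw [hTt, hTt]
    by_cases h1 : a = d
    · subst h1; rw [t_d, t_d]; congr 1; dsimp only; abel
    · by_cases h2 : a = e
      · subst h2; rw [t_e, t_e]; congr 1; dsimp only; abel
      · rw [t_o (a, z + γ) h1 h2, t_o (a, z) h1 h2, h.hteq]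
  · intro a z ha
    have h1 : a ≠ d := by rintro rfl; rw [τ_d] at ha; exact hde ha.symm
    have h2 : a ≠ e := by rintro rfl; rw [τ_e] at ha; exact hde ha
    rw [hTt, t_o (a, z) h1 h2]
    exact h.hfix a z (by rw [← τ_o a h1 h2, ha])
  · -- connectivity
    have hreach : ∀ v w, Reach s t' v w → Reach s T v w := by
      intro v w hvw
      refine Relation.ReflTransGen.trans_induction_on hvw
        (fun _ => Relation.ReflTransGen.refl) ?_ (fun _ _ h1 h2 => h1.trans h2)
      rintro v w (rfl | rfl)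
      · exact Relation.ReflTransGen.single (Or.inl rfl)
      · by_cases h1 : v.1 = d
        · rw [eqd v h1, htd]; exact Relation.ReflTransGen.refl
        · by_cases h2 : v.1 = e
          · rw [eqe v h2, hte]; exact Relation.ReflTransGen.refl
          · exact Relation.ReflTransGen.single (Or.inr (by rw [hTt, t_o v h1 h2]))
    intro a z z' ha
    by_cases h0 : a = d ∨ a = e
    · obtain ⟨b, hb1, k, hk⟩ := hb a h0
      have hs1 : (s ^ k) (a, z) = (b, z + (G b - G a)) := by rw [gauge_pow hG, hk]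
      have hs2 : (s ^ k) (a, z') = (b, z' + (G b - G a)) := by rw [gauge_pow hG, hk]
      have h1 : Reach s T (a, z) (b, z + (G b - G a)) := hs1 ▸ reach_pow k _
      have h2 : Reach s T (b, z + (G b - G a)) (b, z' + (G b - G a)) :=
        hreach _ _ (h.conn b _ _ hb1)
      have h3 : Reach s T (b, z' + (G b - G a)) (a, z') := by
        obtain ⟨m, hm⟩ : ∃ m : ℕ, m + k = expo D * (k + 1) := by
          have := expo_pos D
          exact ⟨expo D * (k + 1) - k, Nat.sub_add_cancel (by nlinarith)⟩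
        have h4 : (s ^ m) (b, z' + (G b - G a)) = (a, z') := by
          rw [← hs2, ← Perm.mul_apply, ← pow_add, hm, pow_mul, gauge_expo hG, one_pow]
          rfl
        have := reach_pow (s := s) (t := T) m (b, z' + (G b - G a))
        rwa [h4] at this
      exact (h1.trans h2).trans h3
    · push Not at h0
      exact hreach _ _ (h.conn a z z' (by rw [← τ_o a h0.1 h0.2]; exact ha))
  · -- flows
    intro E hE hc
    obtain ⟨F₀, hF1, hF2, hF3⟩ := hcross (fun z => E (d, z))
    set E₁ : D × Γ → ℤ := fun v => E v - (F₀ v - F₀ (t v)) with hE₁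
    have hEt : ∀ v, E (t v) = - E v := hE
    have hE₁d : ∀ z, E₁ (d, z) = 0 := by
      intro z
      simp only [hE₁, t_d, hF2, hF3]
      ring
    have hE₁e : ∀ z, E₁ (e, z) = 0 := by
      intro z
      have := hEt (e, z)
      rw [t_e] at this
      simp only [hE₁, t_e, hF2, hF3]
      omega
    have hanti : ∀ v, E₁ (t' v) = - E₁ v := by
      intro v
      by_cases h1 : v.1 = d
      · rw [eqd v h1, htd, hE₁d]; rfl
      · by_cases h2 : v.1 = e
        · rw [eqe v h2, hte, hE₁e]; rfl
        · rw [← t_o v h1 h2]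
          simp only [hE₁, hEt, hinv v]
          ring
    have hcob : Cob s E₁ := by
      have h1 : Cob s (fun v => - (F₀ v - F₀ (t v))) := by
        refine ⟨fun v => F₀ v, fun v => ?_⟩
        have := hF1 (t v)
        rw [hinv v] at this
        show F₀ (s v) - F₀ v = - (F₀ v - F₀ (t v))
        rw [this]; ring
      obtain ⟨G', hG'⟩ := hc.add h1
      exact ⟨G', fun v => by rw [hG', hE₁]; ring⟩
    obtain ⟨F, hFa, hFb⟩ := h.ex1 E₁ hanti hcob
    have hFlink : ∀ z, F (e, z + g) = F (d, z) := by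
      intro z
      have : ∀ n : ℕ, F (((s * t') ^ n) (d, z)) = F (d, z) := by
        intro n
        induction n with
        | zero => rfl
        | succ n ih => rw [pow_succ', Perm.mul_apply, Perm.mul_apply, hFa, ih]
      rw [← hlink z, this]
    refine ⟨fun v => F v + F₀ v, fun v => ?_, fun v => ?_⟩
    · show F (s (t v)) + F₀ (s (t v)) = F v + F₀ v
      rw [hF1]
      congr 1
      by_cases h1 : v.1 = d
      · rw [eqd v h1, t_d]
        have := hFa (e, v.2 + g)
        rw [hte] at this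
        rw [this, hFlink]
      · by_cases h2 : v.1 = e
        · rw [eqe v h2, t_e]
          have := hFa (d, v.2 - g)
          rw [htd] at this
          rw [this, ← hFlink, sub_add_cancel]
        · rw [t_o v h1 h2, hFa]
    · show F v + F₀ v - (F (t v) + F₀ (t v)) = E v
      have key : F v - F (t v) = E₁ v := by
        by_cases h1 : v.1 = d
        · rw [eqd v h1, t_d, hFlink, hE₁d, sub_self]
        · by_cases h2 : v.1 = e
          · rw [eqe v h2, t_e, ← hFlink, sub_add_cancel, hE₁e, sub_self]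
          · rw [t_o v h1 h2, hFb]
      simp only [hE₁] at key
      linarith
  · -- closed functions
    intro E hE hc
    have hEt : ∀ v, E (t v) = - E v := hE
    obtain ⟨G₀, hG₀⟩ := hc
    have hG₀' : ∀ v, G₀ (s (t v)) - G₀ v = E v := hG₀
    set E₁ : D × Γ → ℤ := fun v => if v.1 = d ∨ v.1 = e then 0 else E v with hE₁
    have hE₁d : ∀ z, E₁ (d, z) = 0 := fun z => by simp [hE₁]
    have hE₁e : ∀ z, E₁ (e, z) = 0 := fun z => by simp [hE₁]
    have hE₁o : ∀ v : D × Γ, v.1 ≠ d → v.1 ≠ e → E₁ v = E v := fun v h1 h2 => by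
      simp [hE₁, h1, h2]
    have hanti : ∀ v, E₁ (t' v) = - E₁ v := by
      intro v
      by_cases h1 : v.1 = d
      · rw [eqd v h1, htd, hE₁d]; rfl
      · by_cases h2 : v.1 = e
        · rw [eqe v h2, hte, hE₁e]; rfl
        · rw [hE₁o _ (o_d v h1) (o_e v h2), hE₁o v h1 h2, ← t_o v h1 h2, hEt]
    obtain ⟨C, hC1, hC2, hC3⟩ := hcross
      (fun z => G₀ (e, z + g) - G₀ (d, z) - E (d, z))
    have hcob : Cob (s * t') E₁ := by
      refine ⟨fun v => G₀ v + C v, fun v => ?_⟩
      show G₀ (s (t' v)) + C (s (t' v)) - (G₀ v + C v) = E₁ v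
      by_cases h1 : v.1 = d
      · rw [eqd v h1, htd, hE₁d]
        -- `s (d, z) = f (e, z + g)`
        have e1 : s (d, v.2) = s (t (e, v.2 + g)) := by rw [t_e, add_sub_cancel_right]
        have e2 := hG₀' (e, v.2 + g)
        have e3 := hEt (d, v.2)
        rw [t_d] at e3
        rw [e1, hC1, hC2, hC3]
        linarith
      · by_cases h2 : v.1 = e
        · rw [eqe v h2, hte, hE₁e]
          have e1 : s (e, v.2) = s (t (d, v.2 - g)) := by rw [t_d, sub_add_cancel]
          have e2 := hG₀' (d, v.2 - g)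
          rw [e1, hC1, hC2, hC3, sub_add_cancel]
          linarith
        · rw [← t_o v h1 h2, hC1, hE₁o v h1 h2, ← hG₀' v]
          ring
    obtain ⟨F, hFa, hFb⟩ := h.ex2 E₁ hanti hcob
    refine ⟨F, hFa, fun v => ?_⟩
    -- the difference lives on the new edge
    set Δ : D × Γ → ℤ := fun v => E v - (F v - F (t v)) with hΔ
    have hΔo : ∀ v : D × Γ, v.1 ≠ d → v.1 ≠ e → Δ v = 0 := by
      intro v h1 h2
      have := hFb v
      rw [hE₁o v h1 h2, ← t_o v h1 h2] at this
      simp only [hΔ]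
      linarith
    have hΔt : ∀ v, Δ (t v) = - Δ v := by
      intro v
      simp only [hΔ, hEt, hinv v]
      ring
    have hΔc : Cob (s * T) Δ := by
      refine ⟨fun v => G₀ v - (- F v), fun v => ?_⟩
      show G₀ (s (t v)) - (- F (s (t v))) - (G₀ v - (- F v)) = Δ v
      have := hG₀' v
      simp only [hΔ, hFa]
      linarith
    have hΔd : ∀ z, Δ (d, z) = 0 := by
      intro z
      have hsum := sum_of_cob (N := expo D) (gauge_expo hff) hΔc (d, z)
      have hterm : ∀ k ∈ Finset.range (expo D), Δ (((s * T) ^ k) (d, z)) =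
          if ((σ * τ) ^ k) d = d then Δ (d, z) else 0 := by
        intro k _
        rw [gauge_pow hff]
        split_ifs with h1
        · rw [h1, sub_self, add_zero]
        · refine hΔo _ h1 ?_
          intro h2
          exact hsep ⟨k, by rw [zpow_natCast]; exact h2⟩
      rw [Finset.sum_congr rfl hterm, ← Finset.sum_filter, Finset.sum_const, nsmul_eq_mul] at hsum
      rcases mul_eq_zero.1 hsum with h1 | h1
      · exfalso
        have h2 : (Finset.filter (fun k => ((σ * τ) ^ k) d = d) (Finset.range (expo D))).card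
            = 0 := by exact_mod_cast h1
        rw [Finset.card_eq_zero] at h2
        have h3 : 0 ∈ Finset.filter (fun k => ((σ * τ) ^ k) d = d)
            (Finset.range (expo D)) := by
          rw [Finset.mem_filter]
          exact ⟨Finset.mem_range.2 (expo_pos D), by simp⟩
        rw [h2] at h3
        exact absurd h3 (Finset.notMem_empty _)
      · exact h1
    have hΔe : ∀ z, Δ (e, z) = 0 := by
      intro z
      have := hΔt (e, z)
      rw [t_e, hΔd] at this
      omega
    have hΔ0 : Δ v = 0 := by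
      by_cases h1 : v.1 = d
      · rw [eqd v h1, hΔd]
      · by_cases h2 : v.1 = e
        · rw [eqe v h2, hΔe]
        · exact hΔo v h1 h2
    rw [hTt]
    simp only [hΔ] at hΔ0
    linarith

/-- A permutation of `D × Γ` that lifts `σ`, commutes with the translations and has finite order is
in gauge form. -/
theorem exists_gauge (hΓ : TF Γ) {σ : Perm D} {s : Perm (D × Γ)} (h1 : ∀ x, (s x).1 = σ x.1)
    (h2 : ∀ d z γ, s (d, z + γ) = ((s (d, z)).1, (s (d, z)).2 + γ)) (h3 : s ^ expo D = 1) :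
    ∃ G : D → Γ, ∀ a z, s (a, z) = (σ a, z + (G (σ a) - G a)) := by
  have hs : ∀ a z, s (a, z) = (σ a, z + (s (a, 0)).2) := by
    intro a z
    have := h2 a 0 z
    rw [zero_add] at this
    rw [this, h1]
    congr 1
    abel
  have hp : ∀ (n : ℕ) (a : D), (s ^ n) (a, 0) =
      ((σ ^ n) a, ∑ k ∈ Finset.range n, (s ((σ ^ k) a, 0)).2) := by
    intro n a
    induction n with
    | zero => simp
    | succ n ih =>
      rw [pow_succ', Perm.mul_apply, ih, hs, pow_succ', Perm.mul_apply, Finset.sum_range_succ]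
  obtain ⟨G, hG⟩ := cob_of_sum (s := σ) (E := fun a => (s (a, 0)).2) hΓ (expo_pos D)
    (pow_expo σ) (fun a => by
      have := hp (expo D) a
      rw [h3] at this
      exact (congrArg Prod.snd this).symm)
  exact ⟨G, fun a z => by rw [hs, hG]⟩

theorem Cov.of_hasCover (hΓ : TF Γ) {σ τ : Perm D} (h : HasCover Γ σ τ) :
    ∃ s t : Perm (D × Γ), Cov σ τ s t := by
  obtain ⟨s, t, h1, h2, h3, h4, h5, h6, h7, h8, h9, h10, h11⟩ := h
  refine ⟨s, t, exists_gauge hΓ h1 h3 h7, h2, h4, h5, fun a z ha => (h6 a z ha).2, ?_, h9, ?_, ?_⟩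
  · exact exists_gauge hΓ (σ := σ * τ) (s := s * t)
      (fun x => by rw [Perm.mul_apply, h1, h2]; rfl)
      (fun a z γ => by
        rw [Perm.mul_apply, Perm.mul_apply, h4, h3]) h8
  · intro E hE hc
    exact h10 E hE (sum_of_cob h7 hc)
  · intro E hE hc
    exact h11 E hE (sum_of_cob h8 hc)

theorem Cov.hasCover {σ τ : Perm D} {s t : Perm (D × Γ)} (hfix : ∀ d, τ d = d → σ d = d)
    (h : Cov σ τ s t) : HasCover Γ σ τ := by
  obtain ⟨G, hG⟩ := h.hs
  obtain ⟨K, hK⟩ := h.hf
  have h7 : s ^ expo D = 1 := gauge_expo hG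
  have h8 : (s * t) ^ expo D = 1 := gauge_expo (φ := σ * τ) (f := s * t) hK
  refine ⟨s, t, ?_, h.ht1, ?_, h.hteq, h.htt, ?_, h7, h8, h.conn, ?_, ?_⟩
  · rintro ⟨a, z⟩
    rw [hG]
  · intro a z γ
    rw [hG, hG]
    congr 1
    dsimp only
    abel
  · intro a z ha
    refine ⟨?_, h.hfix a z ha⟩
    rw [hG, hfix a ha, sub_self, add_zero]
  · intro E hE hc
    exact h.ex1 E hE (cob_of_sum tf_int (expo_pos D) h7 hc)
  · intro E hE hc
    exact h.ex2 E hE (cob_of_sum tf_int (expo_pos D) h8 hc)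

theorem hasCover_del_aux (hΓ : TF Γ) {σ τ : Perm D} {d : D} (h : IsMap σ τ)
    (hd : τ d ≠ d) (hf : ¬ SameCycle (σ * τ) d (τ d)) (hy : ∃ y, τ y ≠ y ∧ y ≠ d ∧ y ≠ τ d)
    (hc : HasCover Γ (delσ σ τ d) (delτ τ d)) : HasCover Γ σ τ := by
  set e := τ d with he
  have hde : d ≠ e := fun hx => hd hx.symm
  have hτe : τ e = d := h.inv d
  -- `σ` does not fix `d`, `e`, and does not exchange them
  have hσd : σ d ≠ d := by
    intro hx
    exact hf (SameCycle.symm ⟨1, by rw [zpow_one, Perm.mul_apply, hτe, hx]⟩)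
  have hσe : σ e ≠ e := by
    intro hx
    exact hf ⟨1, by rw [zpow_one, Perm.mul_apply, ← he, hx]⟩
  have hσde : ¬ (σ d = e ∧ σ e = d) := by
    rintro ⟨h1, h2⟩
    obtain ⟨y, hy1, hy2, hy3⟩ := hy
    obtain ⟨g, hg, hgy⟩ := h.trans d y hd hy1
    have key : ∀ g ∈ Subgroup.closure ({σ, τ} : Set (Perm D)),
        (g d = d ∨ g d = e) ∧ (g e = d ∨ g e = e) := by
      intro g hg
      induction hg using Subgroup.closure_induction with
      | mem x hx =>
        rcases hx with rfl | rfl
        · exact ⟨Or.inr h1, Or.inl h2⟩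
        · exact ⟨Or.inr he.symm, Or.inl hτe⟩
      | one => exact ⟨Or.inl rfl, Or.inr rfl⟩
      | mul x y _ _ hx hy =>
        rw [Perm.mul_apply, Perm.mul_apply]
        constructor
        · rcases hy.1 with h3 | h3 <;> rw [h3]
          exacts [hx.1, hx.2]
        · rcases hy.2 with h3 | h3 <;> rw [h3]
          exacts [hx.1, hx.2]
      | inv x _ hx =>
        constructor
        · rcases hx.1 with h3 | h3
          · left; rw [Perm.inv_eq_iff_eq, h3]
          · rcases hx.2 with h4 | h4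
            · right; rw [Perm.inv_eq_iff_eq, h4]
            · exact absurd (x.injective (h3.trans h4.symm)) hde
        · rcases hx.2 with h3 | h3
          · rcases hx.1 with h4 | h4
            · exact absurd (x.injective (h4.trans h3.symm)) hde
            · left; rw [Perm.inv_eq_iff_eq, h4]
          · right; rw [Perm.inv_eq_iff_eq, h3]
    rcases (key g hg).1 with h3 | h3
    · exact hy2 (hgy.symm.trans h3)
    · exact hy3 (hgy.symm.trans h3)
  set τ' := delτ τ d with hτ'
  have hτ'd : τ' d = d := by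
    rw [hτ', delτ, Perm.mul_apply, swap_apply_left, ← he, hτe]
  have hτ'e : τ' e = e := by
    rw [hτ', delτ, Perm.mul_apply, ← he, swap_apply_right]
  have hττ' : swap d e * τ' = τ := by
    ext a
    rw [Perm.mul_apply, hτ', delτ, Perm.mul_apply, ← he]
    by_cases h1 : a = d
    · rw [h1, swap_apply_left, hτe, swap_apply_left]
    · by_cases h2 : a = e
      · rw [h2, swap_apply_right, ← he, swap_apply_right, hτe]
      · rw [swap_apply_of_ne_of_ne h1 h2]
        exact swap_apply_of_ne_of_ne (fun h => h2 (τ.injective (h.trans hτe.symm)))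
          (fun h => h1 (τ.injective (h.trans he)))
  set σ₁ := del σ d with hσ₁
  obtain ⟨s, t, hcov⟩ := Cov.of_hasCover hΓ hc
  have hσ₁e : σ₁ e ≠ e := by
    rw [hσ₁, del, Perm.mul_apply]
    by_cases h1 : σ e = d
    · rw [h1, swap_apply_left]
      exact fun h2 => hσde ⟨h2, h1⟩
    · rw [swap_apply_of_ne_of_ne h1 (fun h2 => hde (σ.injective h2.symm))]
      exact hσe
  have hins1 : ∀ (ρ : Perm D) (x : D), (del ρ x) x = x := by
    intro ρ x
    rw [del, Perm.mul_apply, swap_apply_right]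
  have hins2 : ∀ (ρ : Perm D) (x : D), swap x (ρ x) * del ρ x = ρ := by
    intro ρ x
    rw [del, ← mul_assoc, swap_mul_self, one_mul]
  have hcov1 := hcov.insert (x := e) (y := σ₁ e) (hins1 _ _) hτ'e hσ₁e.symm
  have e1 : swap e (σ₁ e) * delσ σ τ d = σ₁ := hins2 σ₁ e
  rw [e1] at hcov1
  have hcov2 := hcov1.insert (x := d) (y := σ d) (hins1 _ _) hτ'd hσd.symm
  have e2 : swap d (σ d) * σ₁ = σ := hins2 σ d
  rw [e2] at hcov2
  have hact : ∀ a, a ≠ d → a ≠ e → τ a ≠ a → τ' a ≠ a := by
    intro a h1 h2 h3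
    rw [hτ', delτ, Perm.mul_apply, ← he, swap_apply_of_ne_of_ne h1 h2]
    exact h3
  have hact' : ∀ a, σ a ≠ a → τ a ≠ a := fun a h1 h2 => h1 (h.fix a h2)
  have hnf : ∀ a, σ a ≠ a → σ (σ a) ≠ σ a := fun a h1 h2 => h1 (σ.injective h2)
  obtain ⟨T, hT⟩ := hcov2.join hde hτ'd hτ'e (by rw [hττ']; exact hf) (by
    rintro a (rfl | rfl)
    · by_cases h1 : σ a = e
      · refine ⟨σ e, ?_, 2, ?_⟩
        · refine hact _ (fun h2 => hσde ⟨h1, h2⟩) hσe (hact' _ (hnf _ hσe))
        · rw [pow_two, Perm.mul_apply, h1]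
      · exact ⟨σ a, hact _ hσd h1 (hact' _ (hnf _ hσd)), 1, by rw [pow_one]⟩
    · by_cases h1 : σ e = d
      · refine ⟨σ d, ?_, 2, ?_⟩
        · exact hact _ hσd (fun h2 => hσde ⟨h2, h1⟩) (hact' _ (hnf _ hσd))
        · rw [pow_two, Perm.mul_apply, h1]
      · exact ⟨σ e, hact _ h1 hσe (hact' _ (hnf _ hσe)), 1, by rw [pow_one]⟩)
  rw [hττ'] at hT
  exact hT.hasCover h.fix

end Del

variable {D : Type*} [Fintype D] [DecidableEq D]

/-- Deletion, for groups without torsion. -/
theorem hasCover_del {Γ : Type} [AddCommGroup Γ] (hΓ : Del.TF Γ) {σ τ : Perm D} {d : D}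
    (h : IsMap σ τ) (hd : τ d ≠ d) (hf : ¬ SameCycle (σ * τ) d (τ d))
    (hy : ∃ y, τ y ≠ y ∧ y ≠ d ∧ y ≠ τ d)
    (hc : HasCover Γ (delσ σ τ d) (delτ τ d)) : HasCover Γ σ τ :=
  Del.hasCover_del_aux hΓ h hd hf hy hc

end Pool.Agent.MP_f5837d_co
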